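import Pool.Agent.Lib.MP_230119_an.Mg.G001
import Pool.Agent.Lib.MP_230119_an.Mg.G002
import Pool.Agent.Lib.MP_230119_an.EX.T03

section

/-!
# The residual chains
-/

set_option autoImplicit false

open Set Filter Topology

namespace Pool.Agent.Lib.MP_230119_an.EX

/-- the logarithmic parts of the residual chains vanish at `0` -/
theorem heads : hdL (derN 0 qp).1 = 0 ∧ hdL (derN 1 qp).1 = 0 ∧ hdL (derN 2 qp).1 = 0 ∧
    hdL (derN 3 qp).1 = 0 ∧ hdL (derN 0 qm).1 = 0 ∧ hdL (derN 1 qm).1 = 0 ∧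
    hdL (derN 2 qm).1 = 0 ∧ hdL (derN 3 qm).1 = 0 ∧ hdL gp.1 = -SC ∧ hdL gm.1 = -SC ∧
    hdL gt.1 = -SC ∧ hdL (pdP gp).1 = 0 ∧ hdL (pdP gp).2 = 8 * SC ∧ hdL (pdP gm).1 = 0 ∧
    hdL (pdP gm).2 = 8 * SC := by
  decide +kernel

theorem derN_succ (n : ℕ) (f : List ℤ × List ℤ) : derN (n + 1) f = derP (derN n f) := by
  induction n generalizing f with
  | zero => rfl
  | succ n ih =>
    show derN (n + 1) (derP f) = derP (derN n (derP f))
    exact ih (derP f)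

/-- the residual chain on `(0,8)` -/
noncomputable def qqp (j : ℕ) (x : ℝ) : ℝ := evl (derN j qp) x / SC
/-- the residual chain on `(-1,0)` -/
noncomputable def qqm (j : ℕ) (x : ℝ) : ℝ := evl (derN j qm) x / SC

end Pool.Agent.Lib.MP_230119_an.EX
end

section

/-!
# The functions F1, F2 of the error kernel: definitions
-/

set_option autoImplicit false

open Set Filter Topology

namespace Pool.Agent.Lib.MP_230119_an.EX

/-- the explicit approximation of `G` -/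
noncomputable def tg (x : ℝ) : ℝ := evl gt x / SC
/-- the explicit approximation of `u`: `8 + ∫_0^x (2-t) tg(t) dt` -/
noncomputable def tu (x : ℝ) : ℝ := 8 + evl (intP gt) x / (SC * LI)

/-- `F` has three derivatives on `(-1,8)` (the third one off `0`), with bounds -/
structure C3b (F F1 F2 F3 : ℝ → ℝ) (S0 S1 S2 S3 : ℝ) : Prop where
  m0 : Measurable F
  m1 : Measurable F1
  m2 : Measurable F2
  m3 : Measurable F3
  d1 : ∀ x ∈ Ioo (-1 : ℝ) 8, HasDerivAt F (F1 x) x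
  d2 : ∀ x ∈ Ioo (-1 : ℝ) 8, HasDerivAt F1 (F2 x) x
  c2 : ContinuousOn F2 (Ioo (-1 : ℝ) 8)
  d3 : ∀ x ∈ Ioo (-1 : ℝ) 8, x ≠ 0 → HasDerivAt F2 (F3 x) x
  b0 : ∀ x ∈ Ioo (-1 : ℝ) 8, |F x| ≤ S0
  b1 : ∀ x ∈ Ioo (-1 : ℝ) 8, |F1 x| ≤ S1
  b2 : ∀ x ∈ Ioo (-1 : ℝ) 8, |F2 x| ≤ S2
  b3 : ∀ x ∈ Ioo (-1 : ℝ) 8, x ≠ 0 → |F3 x| ≤ S3

/-- certificates for the integration -/
theorem int_cert : eqL (derP (intP gp)).1 (smulP LI (mulP [2, -1] gp)).1 = true ∧
    eqL (derP (intP gp)).2 (smulP LI (mulP [2, -1] gp)).2 = true ∧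
    eqL (derP (intP gm)).1 (smulP LI (mulP [2, -1] gm)).1 = true ∧
    eqL (derP (intP gm)).2 (smulP LI (mulP [2, -1] gm)).2 = true ∧
    hdL (intP gp).1 = 0 ∧ hdL (intP gp).2 = 0 ∧ hdL (intP gm).1 = 0 ∧ hdL (intP gm).2 = 0 ∧
    hdL (intP gt).1 = 0 ∧ hdL (intP gt).2 = 0 ∧
    eqL (intP ep).1 (addP (intP gp) (smulP (-1) (intP gt))).1 = true ∧
    eqL (intP ep).2 (addP (intP gp) (smulP (-1) (intP gt))).2 = true ∧
    eqL (intP em).1 (addP (intP gm) (smulP (-1) (intP gt))).1 = true ∧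
    eqL (intP em).2 (addP (intP gm) (smulP (-1) (intP gt))).2 = true := by
  decide +kernel

/-- the first error function -/
noncomputable def FF1 (G u : ℝ → ℝ) (x : ℝ) : ℝ :=
  x ^ 2 * (560 - 90 * x + 15 * x ^ 2 - x ^ 3) * (G x - tg x) + 5 * x ^ 2 * (8 - x) * (u x - tu x)
/-- the second error function -/
noncomputable def FF2 (G : ℝ → ℝ) (x : ℝ) : ℝ := 10 * x ^ 2 * (8 - x) * (G x - tg x)

end Pool.Agent.Lib.MP_230119_an.EX
end

section

/-!
# The error kernel on the torus: definitions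
-/

set_option autoImplicit false

open Set Filter Topology MeasureTheory

namespace Pool.Agent.Lib.MP_230119_an.EX

/-- kernels which are functions of `rho` and `chi` -/
noncomputable def RC (Ψ : ℝ → ℝ → ℝ) (a b c : ℝ) : ℝ := Ψ (rho a b c) (chi a b c)

/-- the error kernel -/
noncomputable def EE (F H : ℝ → ℝ) (a b c : ℝ) : ℝ := F (rho a b c) + chi a b c * H (rho a b c)

/-- `∂_a rho` -/
noncomputable def ra (a b c : ℝ) : ℝ := 2 * (-Real.sin (a - b) + Real.sin (c - a))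
/-- `∂_a² rho` -/
noncomputable def raa (a b c : ℝ) : ℝ := 2 * (-Real.cos (a - b) - Real.cos (c - a))
/-- `∂_b rho` -/
noncomputable def rb (a b c : ℝ) : ℝ := 2 * (Real.sin (a - b) - Real.sin (b - c))
/-- `∂_a ∂_b rho` -/
noncomputable def rab (a b _c : ℝ) : ℝ := 2 * Real.cos (a - b)
/-- `∂_a² ∂_b rho` -/
noncomputable def raab (a b _c : ℝ) : ℝ := -2 * Real.sin (a - b)
/-- `∂_a chi` -/
noncomputable def xa (a b c : ℝ) : ℝ :=
  -2 * Real.sin (2 * a - b - c) + Real.sin (2 * b - c - a) + Real.sin (2 * c - a - b)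
/-- `∂_a² chi` -/
noncomputable def xaa (a b c : ℝ) : ℝ :=
  -4 * Real.cos (2 * a - b - c) - Real.cos (2 * b - c - a) - Real.cos (2 * c - a - b)
/-- `∂_b chi` -/
noncomputable def xb (a b c : ℝ) : ℝ :=
  Real.sin (2 * a - b - c) - 2 * Real.sin (2 * b - c - a) + Real.sin (2 * c - a - b)
/-- `∂_a ∂_b chi` -/
noncomputable def xab (a b c : ℝ) : ℝ :=
  2 * Real.cos (2 * a - b - c) + 2 * Real.cos (2 * b - c - a) - Real.cos (2 * c - a - b)
/-- `∂_a² ∂_b chi` -/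
noncomputable def xaab (a b c : ℝ) : ℝ :=
  -4 * Real.sin (2 * a - b - c) + 2 * Real.sin (2 * b - c - a) - Real.sin (2 * c - a - b)

/-- coefficient of `F'` (`= raab`), `F''`, `F'''` in `∂_a²∂_b F(rho)` -/
noncomputable def c1 (a b c : ℝ) : ℝ := raab a b c
/-- coefficient of `F''` -/
noncomputable def c2 (a b c : ℝ) : ℝ := 2 * ra a b c * rab a b c + raa a b c * rb a b c
/-- coefficient of `F'''` -/
noncomputable def c3 (a b c : ℝ) : ℝ := ra a b c ^ 2 * rb a b c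
/-- coefficient of `H` in `∂_a²∂_b (chi H(rho))` -/
noncomputable def d0 (a b c : ℝ) : ℝ := xaab a b c
/-- coefficient of `H'` -/
noncomputable def d1 (a b c : ℝ) : ℝ :=
  xaa a b c * rb a b c + 2 * xab a b c * ra a b c + 2 * xa a b c * rab a b c
    + xb a b c * raa a b c + chi a b c * raab a b c
/-- coefficient of `H''` -/
noncomputable def d2 (a b c : ℝ) : ℝ :=
  2 * xa a b c * ra a b c * rb a b c + xb a b c * ra a b c ^ 2 + chi a b c * c2 a b c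
/-- coefficient of `H'''` -/
noncomputable def d3 (a b c : ℝ) : ℝ := chi a b c * c3 a b c

/-- `∂_a` of the error kernel -/
noncomputable def Ea (F1 H H1 : ℝ → ℝ) (a b c : ℝ) : ℝ :=
  F1 (rho a b c) * ra a b c + xa a b c * H (rho a b c) + chi a b c * (H1 (rho a b c) * ra a b c)

/-- `∂_a²` of the error kernel -/
noncomputable def Eaa (F1 F2 H H1 H2 : ℝ → ℝ) (a b c : ℝ) : ℝ :=
  F2 (rho a b c) * ra a b c ^ 2 + F1 (rho a b c) * raa a b c + xaa a b c * H (rho a b c)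
    + 2 * xa a b c * (H1 (rho a b c) * ra a b c)
    + chi a b c * (H2 (rho a b c) * ra a b c ^ 2 + H1 (rho a b c) * raa a b c)

/-- `∂_a²∂_b` of the error kernel -/
noncomputable def Eaab (F1 F2 F3 H H1 H2 H3 : ℝ → ℝ) (a b c : ℝ) : ℝ :=
  F1 (rho a b c) * c1 a b c + F2 (rho a b c) * c2 a b c + F3 (rho a b c) * c3 a b c
    + H (rho a b c) * d0 a b c + H1 (rho a b c) * d1 a b c + H2 (rho a b c) * d2 a b c
    + H3 (rho a b c) * d3 a b c

end Pool.Agent.Lib.MP_230119_an.EX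
end

section

/-!
# Exceptional sets
-/

set_option autoImplicit false

open Set Filter Topology MeasureTheory

namespace Pool.Agent.Lib.MP_230119_an.EX

/-- `rho` in terms of the half difference and the mean of `b`, `c` -/
theorem T02_form (a b c : ℝ) : rho a b c = 4 * Real.cos ((b - c) / 2) ^ 2 +
    4 * (Real.cos ((b - c) / 2) * Real.cos (a - (b + c) / 2)) := by
  have h1 : Real.cos (b - c) = 2 * Real.cos ((b - c) / 2) ^ 2 - 1 := by
    rw [← Real.cos_two_mul]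
    congr 1
    ring
  have h2 : Real.cos (a - b) + Real.cos (c - a) =
      2 * (Real.cos ((b - c) / 2) * Real.cos (a - (b + c) / 2)) := by
    have h3 : a - b = (a - (b + c) / 2) - (b - c) / 2 := by ring
    have h4 : Real.cos (c - a) = Real.cos ((a - (b + c) / 2) + (b - c) / 2) := by
      rw [← Real.cos_neg (c - a)]
      congr 1
      ring
    rw [h3, h4, Real.cos_sub, Real.cos_add]
    ring
  have h5 : rho a b c = 2 + 2 * ((Real.cos (a - b) + Real.cos (c - a)) + Real.cos (b - c)) := by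
    unfold rho
    ring
  rw [h5, h1, h2]
  ring

/-- the product formula -/
theorem T02_prod (a b c : ℝ) : rho a b c =
    8 * (Real.cos ((a - b) / 2) * Real.cos ((b - c) / 2) * Real.cos ((c - a) / 2)) := by
  rw [T02_form]
  have h1 : Real.cos ((b - c) / 2) + Real.cos (a - (b + c) / 2) =
      2 * (Real.cos ((a - b) / 2) * Real.cos ((c - a) / 2)) := by
    have h3 : Real.cos ((b - c) / 2) = Real.cos ((a - b) / 2 - (a - c) / 2) := by
      rw [← Real.cos_neg ((b - c) / 2)]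
      congr 1
      ring
    have h4 : a - (b + c) / 2 = (a - b) / 2 + (a - c) / 2 := by ring
    have h5 : Real.cos ((c - a) / 2) = Real.cos ((a - c) / 2) := by
      rw [← Real.cos_neg ((c - a) / 2)]
      congr 1
      ring
    rw [h3, h4, h5, Real.cos_sub, Real.cos_add]
    ring
  have h2 : 4 * Real.cos ((b - c) / 2) ^ 2 +
      4 * (Real.cos ((b - c) / 2) * Real.cos (a - (b + c) / 2)) =
      4 * Real.cos ((b - c) / 2) * (Real.cos ((b - c) / 2) + Real.cos (a - (b + c) / 2)) := by ring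
  rw [h2, h1]
  ring

/-- If `cos (b-c)` is not `1` or `-1/2`, then `rho ∈ (-1,8)` on the whole line in direction `a`
(`1 + rho = |e^{ia}+e^{ib}+e^{ic}|²`, `|e^{ib}+e^{ic}|² = 2+2cos(b-c)`, different from `1`, `4`). -/
theorem rho_mem_of_bc {b c : ℝ} (h1 : Real.cos (b - c) ≠ 1) (h2 : Real.cos (b - c) ≠ -1 / 2)
    (a : ℝ) : rho a b c ∈ Ioo (-1 : ℝ) 8 := by
  have h3 : Real.cos (b - c) = 2 * Real.cos ((b - c) / 2) ^ 2 - 1 := by
    rw [← Real.cos_two_mul]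
    congr 1
    ring
  rw [T02_form]
  rw [h3] at h1 h2
  have hk1 := Real.cos_le_one ((b - c) / 2)
  have hk2 := Real.neg_one_le_cos ((b - c) / 2)
  have ht1 := Real.cos_le_one (a - (b + c) / 2)
  have ht2 := Real.neg_one_le_cos (a - (b + c) / 2)
  set k := Real.cos ((b - c) / 2)
  set θ := Real.cos (a - (b + c) / 2)
  have hk3 : k ≠ 1 := fun h => h1 (by rw [h]; norm_num)
  have hk4 : k ≠ -1 := fun h => h1 (by rw [h]; norm_num)
  have hk5 : k ≠ 1 / 2 := fun h => h2 (by rw [h]; norm_num)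
  have hk6 : k ≠ -(1 / 2) := fun h => h2 (by rw [h]; norm_num)
  have hk7 : k < 1 := lt_of_le_of_ne hk1 hk3
  have hk8 : -1 < k := lt_of_le_of_ne hk2 (Ne.symm hk4)
  rcases le_total 0 k with h0 | h0
  · have h4 : k * θ ≤ k := by nlinarith
    have h5 : -k ≤ k * θ := by nlinarith
    have h6 : 0 < (2 * k - 1) ^ 2 := by
      have : 2 * k - 1 ≠ 0 := fun h => hk5 (by linarith)
      positivity
    constructor
    · nlinarith
    · nlinarith
  · have h4 : k * θ ≤ -k := by nlinarith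
    have h5 : k ≤ k * θ := by nlinarith
    have h6 : 0 < (2 * k + 1) ^ 2 := by
      have : 2 * k + 1 ≠ 0 := fun h => hk6 (by linarith)
      positivity
    constructor
    · nlinarith
    · nlinarith

theorem T02_cyc (a b c : ℝ) : rho b c a = rho a b c := by
  unfold rho
  ring

theorem rho_mem_of_ca {a c : ℝ} (h1 : Real.cos (c - a) ≠ 1) (h2 : Real.cos (c - a) ≠ -1 / 2)
    (b : ℝ) : rho a b c ∈ Ioo (-1 : ℝ) 8 := by
  rw [← T02_cyc]
  exact rho_mem_of_bc h1 h2 b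

theorem T02_countable (v : ℝ) : {x : ℝ | Real.cos x = v}.Countable := by
  rcases ({x : ℝ | Real.cos x = v}).eq_empty_or_nonempty with h | ⟨x₀, hx₀⟩
  · rw [h]
    exact countable_empty
  · have h1 : {x : ℝ | Real.cos x = v} ⊆ (range fun k : ℤ => 2 * (k : ℝ) * Real.pi + x₀) ∪
        (range fun k : ℤ => 2 * (k : ℝ) * Real.pi - x₀) := by
      intro x hx
      have hx1 : Real.cos x₀ = v := hx₀
      have hx2 : Real.cos x = v := hx
      have h2 : Real.cos x₀ = Real.cos x := by rw [hx1, hx2]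
      obtain ⟨k, hk⟩ := Real.cos_eq_cos_iff.mp h2
      rcases hk with hk | hk
      · left
        exact ⟨k, hk.symm⟩
      · right
        exact ⟨k, hk.symm⟩
    exact ((countable_range _).union (countable_range _)).mono h1

theorem T02_pre {f : ℝ → ℝ} (hf : Function.Injective f) (v : ℝ) :
    {x : ℝ | Real.cos (f x) = v}.Countable :=
  (T02_countable v).preimage hf

theorem T02_inj1 (b : ℝ) : Function.Injective fun x : ℝ => b - x := fun x y h => by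
  have : b - x = b - y := h
  linarith

theorem T02_inj2 (b : ℝ) : Function.Injective fun x : ℝ => x - b := fun x y h => by
  have : x - b = y - b := h
  linarith

theorem T02_inj3 (b : ℝ) : Function.Injective fun x : ℝ => (b - x) / 2 := fun x y h => by
  have : (b - x) / 2 = (b - y) / 2 := h
  linarith

theorem T02_inj4 (b : ℝ) : Function.Injective fun x : ℝ => (x - b) / 2 := fun x y h => by
  have : (x - b) / 2 = (y - b) / 2 := h
  linarith

theorem T02_null {s : Set ℝ} (hs : s.Countable) : mc s = 0 := by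
  have h1 : volume s = 0 := hs.measure_zero volume
  unfold mc
  exact le_antisymm ((Measure.restrict_apply_le _ _).trans h1.le) bot_le

/-- the exceptional pairs form a null set -/
theorem exc_null : ∀ᵐ y ∂(mc.prod mc), Real.cos (y.1 - y.2) ≠ 1 ∧ Real.cos (y.1 - y.2) ≠ -1 / 2 ∧
    Real.cos (y.2 - y.1) ≠ 1 ∧ Real.cos (y.2 - y.1) ≠ -1 / 2 ∧
    Real.cos (y.1 - y.2) ≠ -1 ∧ Real.cos (y.2 - y.1) ≠ -1 := by
  have key : ∀ v : ℝ, ∀ᵐ y : ℝ × ℝ ∂(mc.prod mc), Real.cos (y.1 - y.2) ≠ v := by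
    intro v
    rw [ae_iff]
    have hm : MeasurableSet {y : ℝ × ℝ | ¬Real.cos (y.1 - y.2) ≠ v} := by
      have h1 : {y : ℝ × ℝ | ¬Real.cos (y.1 - y.2) ≠ v} = {y | Real.cos (y.1 - y.2) = v} := by
        ext y
        simp
      rw [h1]
      exact (isClosed_eq (by fun_prop) continuous_const).measurableSet
    rw [Measure.measure_prod_null hm]
    refine Eventually.of_forall fun x => ?_
    refine T02_null ((T02_pre (T02_inj1 x) v).mono ?_)
    intro y hy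
    by_contra hc
    exact hy hc
  have h1 : ∀ y : ℝ × ℝ, Real.cos (y.2 - y.1) = Real.cos (y.1 - y.2) := by
    intro y
    rw [← Real.cos_neg]
    congr 1
    ring
  filter_upwards [key 1, key (-1 / 2), key (-1)] with y hy1 hy2 hy3
  rw [h1]
  exact ⟨hy1, hy2, hy1, hy2, hy3, hy3⟩

theorem T02_half {x : ℝ} (h : Real.cos x ≠ -1) : Real.cos (x / 2) ≠ 0 := by
  intro h1
  apply h
  have h2 : Real.cos x = 2 * Real.cos (x / 2) ^ 2 - 1 := by
    rw [← Real.cos_two_mul]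
    congr 1
    ring
  rw [h2, h1]
  norm_num

/-- zeros of `rho` on a line in direction `b` -/
theorem rho_zeros_countable {a c : ℝ} (h : Real.cos (c - a) ≠ -1) :
    {b : ℝ | rho a b c = 0}.Countable := by
  have h1 : {b : ℝ | rho a b c = 0} ⊆ {b : ℝ | Real.cos ((a - b) / 2) = 0} ∪
      {b : ℝ | Real.cos ((b - c) / 2) = 0} := by
    intro b hb
    have h2 : rho a b c = 0 := hb
    rw [T02_prod] at h2
    have h3 := T02_half h
    by_contra hc
    rw [mem_union, not_or] at hc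
    have h4 : Real.cos ((a - b) / 2) ≠ 0 := hc.1
    have h5 : Real.cos ((b - c) / 2) ≠ 0 := hc.2
    have h6 : Real.cos ((a - b) / 2) * Real.cos ((b - c) / 2) * Real.cos ((c - a) / 2) ≠ 0 :=
      mul_ne_zero (mul_ne_zero h4 h5) h3
    apply h6
    linarith
  exact ((T02_pre (T02_inj3 a) 0).union (T02_pre (T02_inj4 c) 0)).mono h1

theorem T02_rho_cont : Continuous fun z : ℝ × ℝ × ℝ => rho z.1 z.2.1 z.2.2 := by
  unfold rho
  fun_prop

theorem rho_mem_ae : ∀ᵐ z ∂mc3, rho z.1 z.2.1 z.2.2 ∈ Ioo (-1 : ℝ) 8 ∧ rho z.1 z.2.1 z.2.2 ≠ 0 := by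
  rw [ae_iff]
  have hm : MeasurableSet {z : ℝ × ℝ × ℝ | ¬(rho z.1 z.2.1 z.2.2 ∈ Ioo (-1 : ℝ) 8 ∧
      rho z.1 z.2.1 z.2.2 ≠ 0)} := by
    refine MeasurableSet.compl (MeasurableSet.inter ?_ ?_)
    · exact (isOpen_Ioo.preimage T02_rho_cont).measurableSet
    · exact (isOpen_ne.preimage T02_rho_cont).measurableSet
  unfold mc3
  rw [Measure.measure_prod_null hm]
  refine Eventually.of_forall fun a => ?_
  have hm2 : MeasurableSet (Prod.mk a ⁻¹' {z : ℝ × ℝ × ℝ | ¬(rho z.1 z.2.1 z.2.2 ∈ Ioo (-1 : ℝ) 8 ∧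
      rho z.1 z.2.1 z.2.2 ≠ 0)}) := measurable_prodMk_left hm
  show (mc.prod mc) (Prod.mk a ⁻¹' {z : ℝ × ℝ × ℝ | ¬(rho z.1 z.2.1 z.2.2 ∈ Ioo (-1 : ℝ) 8 ∧
      rho z.1 z.2.1 z.2.2 ≠ 0)}) = 0
  rw [Measure.measure_prod_null hm2]
  have h1 : ∀ᵐ b ∂mc, Real.cos ((a - b) / 2) ≠ 0 := by
    rw [ae_iff]
    refine T02_null ((T02_pre (T02_inj3 a) 0).mono ?_)
    intro y hy
    by_contra hc
    exact hy hc
  filter_upwards [h1] with b hb
  refine T02_null ?_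
  have h2 : Prod.mk b ⁻¹' (Prod.mk a ⁻¹' {z : ℝ × ℝ × ℝ |
      ¬(rho z.1 z.2.1 z.2.2 ∈ Ioo (-1 : ℝ) 8 ∧ rho z.1 z.2.1 z.2.2 ≠ 0)}) ⊆
      ({c : ℝ | Real.cos (b - c) = 1} ∪ {c : ℝ | Real.cos (b - c) = -1 / 2}) ∪
      ({c : ℝ | Real.cos ((b - c) / 2) = 0} ∪ {c : ℝ | Real.cos ((c - a) / 2) = 0}) := by
    intro c hc
    by_contra hn
    simp only [mem_union, mem_ofPred_eq, not_or] at hn
    obtain ⟨⟨hn1, hn2⟩, hn3, hn4⟩ := hn
    have h3 : ¬(rho a b c ∈ Ioo (-1 : ℝ) 8 ∧ rho a b c ≠ 0) := hc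
    apply h3
    refine ⟨rho_mem_of_bc hn1 hn2 a, ?_⟩
    rw [T02_prod]
    exact mul_ne_zero (by norm_num) (mul_ne_zero (mul_ne_zero hb hn3) hn4)
  exact (((T02_pre (T02_inj1 b) 1).union (T02_pre (T02_inj1 b) (-1 / 2))).union
    ((T02_pre (T02_inj3 b) 0).union (T02_pre (T02_inj4 a) 0))).mono h2

end Pool.Agent.Lib.MP_230119_an.EX
end

section

/-!
# The kernel is bounded
-/

set_option autoImplicit false

open Set Filter Topology MeasureTheory

namespace Pool.Agent.Lib.MP_230119_an.EX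

theorem S02_bdd {f : ℝ → ℝ} {S K : Set ℝ} (hK : IsCompact K) (hSK : S ⊆ K)
    (h : ∀ x0 ∈ K, ∃ B : ℝ, ∀ᶠ x in 𝓝[S] x0, |f x| ≤ B) : ∃ B : ℝ, ∀ x ∈ S, |f x| ≤ B := by
  have key : ∃ B : ℝ, ∀ x ∈ K ∩ S, |f x| ≤ B := by
    refine hK.induction_on (p := fun T => ∃ B : ℝ, ∀ x ∈ T ∩ S, |f x| ≤ B) ?_ ?_ ?_ ?_
    · exact ⟨0, fun x hx => absurd hx.1 (notMem_empty x)⟩
    · rintro s t hst ⟨B, hB⟩
      exact ⟨B, fun x hx => hB x ⟨hst hx.1, hx.2⟩⟩
    · rintro s t ⟨B, hB⟩ ⟨C, hC⟩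
      refine ⟨max B C, fun x hx => ?_⟩
      rcases hx.1 with h1 | h1
      · exact (hB x ⟨h1, hx.2⟩).trans (le_max_left _ _)
      · exact (hC x ⟨h1, hx.2⟩).trans (le_max_right _ _)
    · intro x hx
      obtain ⟨B, hB⟩ := h x hx
      rw [eventually_nhdsWithin_iff] at hB
      refine ⟨{y | y ∈ S → |f y| ≤ B}, mem_nhdsWithin_of_mem_nhds hB, B, fun y hy => hy.1 hy.2⟩
  obtain ⟨B, hB⟩ := key
  exact ⟨B, fun x hx => hB x ⟨hSK hx, hx⟩⟩

theorem S02_lim {f : ℝ → ℝ} {l : Filter ℝ} {a : ℝ} (h : Tendsto f l (𝓝 a)) :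
    ∃ B : ℝ, ∀ᶠ x in l, |f x| ≤ B :=
  ⟨|a| + 1, h.abs.eventually_le_const (lt_add_one |a|)⟩

/-- the domain -/
def S02S : Set ℝ := Ioo (-1 : ℝ) 8 \ {0}

theorem S02_sub : S02S ⊆ Icc (-1 : ℝ) 8 := fun _ hx => Ioo_subset_Icc_self hx.1

theorem S02_sq {x : ℝ} (hx : x ∈ Ioo (-1 : ℝ) 8) : x ^ 2 ≤ 64 := by
  have h1 := hx.1
  have h2 := hx.2
  nlinarith

theorem S02_uB {G u : ℝ → ℝ} (h : GF G u) : ∃ B : ℝ, ∀ x ∈ S02S, |u x| ≤ B := by
  refine S02_bdd isCompact_Icc S02_sub fun x0 hx0 => ?_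
  by_cases h1 : x0 = -1
  · subst h1
    refine S02_lim (h.lim1.mono_left (nhdsWithin_mono _ fun x hx => hx.1.1))
  by_cases h2 : x0 = 8
  · subst h2
    refine S02_lim (h.lim8.mono_left (nhdsWithin_mono _ fun x hx => hx.1.2))
  by_cases h3 : x0 = 0
  · subst h3
    refine S02_lim (h.lim0.mono_left (nhdsWithin_mono _ fun x hx => hx.2))
  have hm : x0 ∈ Ioo (-1 : ℝ) 8 :=
    ⟨lt_of_le_of_ne hx0.1 (Ne.symm h1), lt_of_le_of_ne hx0.2 h2⟩
  exact S02_lim ((h.hu x0 hm h3).continuousAt.tendsto.mono_left nhdsWithin_le_nhds)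

theorem S02_GB {G u : ℝ → ℝ} (h : GF G u) : ∃ B : ℝ, ∀ x ∈ S02S, |x ^ 2 * G x| ≤ B := by
  obtain ⟨C, hC⟩ := h.bdd
  obtain ⟨L, hL⟩ := h.limL
  have big : ∀ x ∈ S02S, (x ≤ -(1 / 2) ∨ 1 ≤ x) → |x ^ 2 * G x| ≤ 64 * C := by
    intro x hx hx2
    have hp := h.pos x hx.1 hx.2
    rw [abs_of_nonneg (mul_nonneg (sq_nonneg x) hp.le)]
    exact mul_le_mul (S02_sq hx.1) (hC x hx.1 hx2) hp.le (by norm_num)
  refine S02_bdd isCompact_Icc S02_sub fun x0 hx0 => ?_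
  by_cases h1 : x0 = -1
  · subst h1
    refine ⟨64 * C, ?_⟩
    have e1 : ∀ᶠ x in 𝓝[S02S] (-1 : ℝ), x < -(1 / 2) :=
      nhdsWithin_le_nhds (Iio_mem_nhds (by norm_num))
    filter_upwards [e1, self_mem_nhdsWithin] with x hx hx2
    exact big x hx2 (Or.inl hx.le)
  by_cases h2 : x0 = 8
  · subst h2
    refine ⟨64 * C, ?_⟩
    have e1 : ∀ᶠ x in 𝓝[S02S] (8 : ℝ), 1 < x :=
      nhdsWithin_le_nhds (Ioi_mem_nhds (by norm_num))
    filter_upwards [e1, self_mem_nhdsWithin] with x hx hx2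
    exact big x hx2 (Or.inr hx.le)
  by_cases h3 : x0 = 0
  · subst h3
    obtain ⟨B, hB⟩ := S02_lim (hL.mono_left
      (nhdsWithin_mono (0 : ℝ) (fun x hx => hx.2 : S02S ⊆ {0}ᶜ)))
    refine ⟨1 * B + 1 * 1, ?_⟩
    have e1 : ∀ᶠ x in 𝓝[S02S] (0 : ℝ), x ∈ Ioo (-1 : ℝ) 1 :=
      nhdsWithin_le_nhds (Ioo_mem_nhds (by norm_num) (by norm_num))
    filter_upwards [e1, self_mem_nhdsWithin, hB] with x hx hx2 hx3
    have hx0' : x ≠ 0 := hx2.2
    have ha : 0 < |x| := abs_pos.2 hx0'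
    have ha1 : |x| ≤ 1 := abs_le.2 ⟨hx.1.le, hx.2.le⟩
    have hl := (Real.abs_log_mul_self_lt |x| ha ha1).le
    have hxsq : |x ^ 2| ≤ 1 := by
      rw [abs_pow]
      exact pow_le_one₀ ha.le ha1
    have e2 : x ^ 2 * G x = x ^ 2 * (G x + Real.log |x|) - |x| * (Real.log |x| * |x|) := by
      have : |x| * |x| = x ^ 2 := by rw [abs_mul_abs_self, pow_two]
      linear_combination Real.log |x| * this
    rw [e2]
    refine (abs_sub _ _).trans (add_le_add ?_ ?_)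
    · rw [abs_mul]
      exact mul_le_mul hxsq hx3 (abs_nonneg _) zero_le_one
    · rw [abs_mul, abs_abs]
      exact mul_le_mul ha1 hl (abs_nonneg _) zero_le_one
  have hm : x0 ∈ Ioo (-1 : ℝ) 8 :=
    ⟨lt_of_le_of_ne hx0.1 (Ne.symm h1), lt_of_le_of_ne hx0.2 h2⟩
  have hc : ContinuousAt (fun x => x ^ 2 * G x) x0 :=
    (continuous_pow 2).continuousAt.mul (h.hG x0 hm h3).continuousAt
  exact S02_lim (hc.tendsto.mono_left nhdsWithin_le_nhds)

/-- `K0` is bounded for `x ∈ (-1,8)`, `x ≠ 0`, `|y| ≤ 3` -/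
theorem K0_bdd {G u : ℝ → ℝ} (h : GF G u) : ∃ B : ℝ, ∀ x ∈ Ioo (-1 : ℝ) 8, x ≠ 0 →
    ∀ y : ℝ, |y| ≤ 3 → |K0 G u x y| ≤ B := by
  obtain ⟨B, hB⟩ := S02_GB h
  obtain ⟨C, hC⟩ := S02_uB h
  refine ⟨5000 * B + 2880 * C, fun x hx hx0 y hy => ?_⟩
  have hx1 := hx.1
  have hx2 := hx.2
  have hB' := hB x ⟨hx, hx0⟩
  have hC' := hC x ⟨hx, hx0⟩
  have e : K0 G u x y = (560 - 90 * x + 15 * x ^ 2 - x ^ 3 + 10 * (8 - x) * y) * (x ^ 2 * G x)
      + (5 * (8 - x) * x ^ 2) * u x := by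
    unfold K0
    ring
  have hsq := S02_sq hx
  have hy' := abs_le.1 hy
  have h8 : 0 < 8 - x := by linarith
  have b1 : |560 - 90 * x + 15 * x ^ 2 - x ^ 3 + 10 * (8 - x) * y| ≤ 5000 := by
    have t1 : 10 * (8 - x) * y ≤ 10 * (8 - x) * 3 :=
      mul_le_mul_of_nonneg_left hy'.2 (by linarith)
    have t2 : 10 * (8 - x) * (-3) ≤ 10 * (8 - x) * y :=
      mul_le_mul_of_nonneg_left hy'.1 (by linarith)
    have t3 : x ^ 3 ≤ 512 := by nlinarith [sq_nonneg x]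
    have t4 : -64 ≤ x ^ 3 := by nlinarith [sq_nonneg x]
    rw [abs_le]
    constructor <;> nlinarith
  have b2 : |5 * (8 - x) * x ^ 2| ≤ 2880 := by
    rw [abs_of_nonneg (by positivity)]
    nlinarith [sq_nonneg x]
  rw [e]
  refine (abs_add_le _ _).trans (add_le_add ?_ ?_)
  · rw [abs_mul]
    exact mul_le_mul b1 hB' (abs_nonneg _) (by norm_num)
  · rw [abs_mul]
    exact mul_le_mul b2 hC' (abs_nonneg _) (by norm_num)

theorem KK_meas {G u : ℝ → ℝ} (h : GF G u) :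
    Measurable (fun z : ℝ × ℝ × ℝ => KK G u z.1 z.2.1 z.2.2) := by
  have mr : Measurable (fun z : ℝ × ℝ × ℝ => rho z.1 z.2.1 z.2.2) := by
    unfold rho; fun_prop
  have mx : Measurable (fun z : ℝ × ℝ × ℝ => chi z.1 z.2.1 z.2.2) := by
    unfold chi; fun_prop
  have mG : Measurable (fun z : ℝ × ℝ × ℝ => G (rho z.1 z.2.1 z.2.2)) := h.measG.comp mr
  have mU : Measurable (fun z : ℝ × ℝ × ℝ => u (rho z.1 z.2.1 z.2.2)) := h.measU.comp mr
  unfold KK K0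
  have m1 : Measurable (fun z : ℝ × ℝ × ℝ => 560 - 90 * rho z.1 z.2.1 z.2.2
      + 15 * rho z.1 z.2.1 z.2.2 ^ 2 - rho z.1 z.2.1 z.2.2 ^ 3
      + 10 * (8 - rho z.1 z.2.1 z.2.2) * chi z.1 z.2.1 z.2.2) :=
    ((((measurable_const.sub (mr.const_mul 90)).add ((mr.pow_const 2).const_mul 15)).sub
      (mr.pow_const 3))).add (((measurable_const.sub mr).const_mul 10).mul mx)
  have m2 : Measurable (fun z : ℝ × ℝ × ℝ => 5 * (8 - rho z.1 z.2.1 z.2.2)) :=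
    (measurable_const.sub mr).const_mul 5
  exact (mr.pow_const 2).mul ((m1.mul mG).add (m2.mul mU))

theorem KK_bdd {G u : ℝ → ℝ} (h : GF G u) :
    ∃ B : ℝ, ∀ᵐ z ∂mc3, |KK G u z.1 z.2.1 z.2.2| ≤ B := by
  obtain ⟨B, hB⟩ := K0_bdd h
  refine ⟨B, ?_⟩
  filter_upwards [rho_mem_ae] with z hz
  refine hB _ hz.1 hz.2 _ ?_
  unfold chi
  have h1 := Real.abs_cos_le_one (2 * z.1 - z.2.1 - z.2.2)
  have h2 := Real.abs_cos_le_one (2 * z.2.1 - z.2.2 - z.1)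
  have h3 := Real.abs_cos_le_one (2 * z.2.2 - z.1 - z.2.1)
  refine (abs_add_le _ _).trans ?_
  have h4 := abs_add_le (Real.cos (2 * z.1 - z.2.1 - z.2.2)) (Real.cos (2 * z.2.1 - z.2.2 - z.1))
  linarith

theorem KK_integrable {G u : ℝ → ℝ} (h : GF G u) :
    Integrable (fun z : ℝ × ℝ × ℝ => KK G u z.1 z.2.1 z.2.2) mc3 := by
  obtain ⟨B, hB⟩ := KK_bdd h
  have : IsFiniteMeasure mc3 := by unfold mc3; infer_instance
  refine Integrable.of_bound (KK_meas h).aestronglyMeasurable B ?_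
  filter_upwards [hB] with z hz
  rwa [Real.norm_eq_abs]

end Pool.Agent.Lib.MP_230119_an.EX
end

section

/-!
# Symmetries of rho, chi and of the Fourier coefficients
-/

set_option autoImplicit false

open Set Filter Topology MeasureTheory
open scoped ComplexConjugate

namespace Pool.Agent.Lib.MP_230119_an.EX

theorem S01_cos {x y : ℝ} (h : x = -y) : Real.cos x = Real.cos y := by
  rw [h, Real.cos_neg]

theorem rho_chi_swap12 (a b c : ℝ) : rho b a c = rho a b c ∧ chi b a c = chi a b c := by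
  unfold rho chi
  constructor
  · rw [S01_cos (show b - a = -(a - b) by ring), S01_cos (show a - c = -(c - a) by ring),
      S01_cos (show c - b = -(b - c) by ring)]
    ring
  · have h1 : 2 * b - a - c = 2 * b - c - a := by ring
    have h2 : 2 * a - c - b = 2 * a - b - c := by ring
    have h3 : 2 * c - b - a = 2 * c - a - b := by ring
    rw [h1, h2, h3]
    ring

theorem rho_chi_swap23 (a b c : ℝ) : rho a c b = rho a b c ∧ chi a c b = chi a b c := by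
  unfold rho chi
  constructor
  · rw [S01_cos (show b - a = -(a - b) by ring), S01_cos (show a - c = -(c - a) by ring),
      S01_cos (show c - b = -(b - c) by ring)]
    ring
  · have h1 : 2 * a - c - b = 2 * a - b - c := by ring
    have h2 : 2 * c - b - a = 2 * c - a - b := by ring
    have h3 : 2 * b - a - c = 2 * b - c - a := by ring
    rw [h1, h2, h3]
    ring

theorem rho_chi_neg (a b c : ℝ) : rho (-a) (-b) (-c) = rho a b c ∧ chi (-a) (-b) (-c) = chi a b c := by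
  unfold rho chi
  constructor
  · rw [S01_cos (show -a - -b = -(a - b) by ring), S01_cos (show -c - -a = -(c - a) by ring),
      S01_cos (show -b - -c = -(b - c) by ring)]
  · rw [S01_cos (show 2 * -a - -b - -c = -(2 * a - b - c) by ring),
      S01_cos (show 2 * -b - -c - -a = -(2 * b - c - a) by ring),
      S01_cos (show 2 * -c - -a - -b = -(2 * c - a - b) by ring)]

theorem rho_chi_add (a b c t : ℝ) : rho (a + t) (b + t) (c + t) = rho a b c ∧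
    chi (a + t) (b + t) (c + t) = chi a b c := by
  unfold rho chi
  constructor
  · rw [show a + t - (b + t) = a - b by ring, show b + t - (c + t) = b - c by ring,
      show c + t - (a + t) = c - a by ring]
  · rw [show 2 * (a + t) - (b + t) - (c + t) = 2 * a - b - c by ring,
      show 2 * (b + t) - (c + t) - (a + t) = 2 * b - c - a by ring,
      show 2 * (c + t) - (a + t) - (b + t) = 2 * c - a - b by ring]

theorem S01_cp (x : ℝ) : Real.cos (x + 2 * Real.pi) = Real.cos x := Real.cos_add_two_pi x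

theorem S01_cm (x : ℝ) : Real.cos (x - 2 * Real.pi) = Real.cos x := Real.cos_sub_two_pi x

theorem S01_per (a b c : ℝ) : rho (a + 2 * Real.pi) b c = rho a b c ∧
    chi (a + 2 * Real.pi) b c = chi a b c := by
  unfold rho chi
  constructor
  · rw [show a + 2 * Real.pi - b = a - b + 2 * Real.pi by ring,
      show c - (a + 2 * Real.pi) = c - a - 2 * Real.pi by ring, S01_cp, S01_cm]
  · rw [show 2 * (a + 2 * Real.pi) - b - c = 2 * a - b - c + 2 * Real.pi + 2 * Real.pi by ring,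
      show 2 * b - c - (a + 2 * Real.pi) = 2 * b - c - a - 2 * Real.pi by ring,
      show 2 * c - (a + 2 * Real.pi) - b = 2 * c - a - b - 2 * Real.pi by ring,
      S01_cp, S01_cp, S01_cm, S01_cm]

theorem rho_chi_periodic (a b c : ℝ) : rho (a + 2 * Real.pi) b c = rho a b c ∧
    chi (a + 2 * Real.pi) b c = chi a b c ∧ rho a (b + 2 * Real.pi) c = rho a b c ∧
    chi a (b + 2 * Real.pi) c = chi a b c ∧ rho a b (c + 2 * Real.pi) = rho a b c ∧
    chi a b (c + 2 * Real.pi) = chi a b c := by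
  refine ⟨(S01_per a b c).1, (S01_per a b c).2, ?_, ?_, ?_, ?_⟩
  · rw [(rho_chi_swap12 (b + 2 * Real.pi) a c).1, (S01_per b a c).1, (rho_chi_swap12 a b c).1]
  · rw [(rho_chi_swap12 (b + 2 * Real.pi) a c).2, (S01_per b a c).2, (rho_chi_swap12 a b c).2]
  · rw [(rho_chi_swap23 a (c + 2 * Real.pi) b).1, (rho_chi_swap12 (c + 2 * Real.pi) a b).1,
      (S01_per c a b).1, (rho_chi_swap12 a c b).1, (rho_chi_swap23 a b c).1]
  · rw [(rho_chi_swap23 a (c + 2 * Real.pi) b).2, (rho_chi_swap12 (c + 2 * Real.pi) a b).2,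
      (S01_per c a b).2, (rho_chi_swap12 a c b).2, (rho_chi_swap23 a b c).2]

/-- exchange of the last two coordinates -/
noncomputable def S01_e23 : (ℝ × ℝ × ℝ) ≃ᵐ (ℝ × ℝ × ℝ) :=
  MeasurableEquiv.ofInvolutive (fun z => (z.1, z.2.2, z.2.1)) (fun _ => rfl) (by fun_prop)

/-- exchange of the first two coordinates -/
noncomputable def S01_e12 : (ℝ × ℝ × ℝ) ≃ᵐ (ℝ × ℝ × ℝ) :=
  MeasurableEquiv.ofInvolutive (fun z => (z.2.1, z.1, z.2.2)) (fun _ => rfl) (by fun_prop)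

theorem S01_e12_apply (z : ℝ × ℝ × ℝ) : S01_e12 z = (z.2.1, z.1, z.2.2) := rfl

theorem S01_e23_apply (z : ℝ × ℝ × ℝ) : S01_e23 z = (z.1, z.2.2, z.2.1) := rfl

instance S01_fin : IsFiniteMeasure mc := by unfold mc; infer_instance

theorem S01_mp23 : MeasurePreserving S01_e23 mc3 mc3 :=
  (MeasurePreserving.id mc).prod Measure.measurePreserving_swap

theorem S01_mp12 : MeasurePreserving S01_e12 mc3 mc3 := by
  have h1 : MeasurePreserving (MeasurableEquiv.prodAssoc : (ℝ × ℝ) × ℝ ≃ᵐ ℝ × ℝ × ℝ)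
      ((mc.prod mc).prod mc) (mc.prod (mc.prod mc)) := measurePreserving_prodAssoc mc mc mc
  have h2 : MeasurePreserving (MeasurableEquiv.prodAssoc : (ℝ × ℝ) × ℝ ≃ᵐ ℝ × ℝ × ℝ).symm
      (mc.prod (mc.prod mc)) ((mc.prod mc).prod mc) := h1.symm _
  have h3 : MeasurePreserving (Prod.map Prod.swap id : (ℝ × ℝ) × ℝ → (ℝ × ℝ) × ℝ)
      ((mc.prod mc).prod mc) ((mc.prod mc).prod mc) :=
    (Measure.measurePreserving_swap (μ := mc) (ν := mc)).prod (MeasurePreserving.id mc)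
  exact h1.comp (h3.comp h2)

theorem S01_ch12 (p q r : ℤ) (z : ℝ × ℝ × ℝ) : ch p q r (S01_e12 z) = ch q p r z := by
  unfold ch
  congr 2
  rw [S01_e12_apply]
  push_cast
  ring

theorem S01_ch23 (p q r : ℤ) (z : ℝ × ℝ × ℝ) : ch p q r (S01_e23 z) = ch p r q z := by
  unfold ch
  congr 2
  rw [S01_e23_apply]
  push_cast
  ring

theorem S01_RC12 (Ψ : ℝ → ℝ → ℝ) (a b c : ℝ) : RC Ψ b a c = RC Ψ a b c := by
  unfold RC
  rw [(rho_chi_swap12 a b c).1, (rho_chi_swap12 a b c).2]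

theorem S01_RC23 (Ψ : ℝ → ℝ → ℝ) (a b c : ℝ) : RC Ψ a c b = RC Ψ a b c := by
  unfold RC
  rw [(rho_chi_swap23 a b c).1, (rho_chi_swap23 a b c).2]

theorem cf_swap12 (Ψ : ℝ → ℝ → ℝ) (p q r : ℤ) : cf (RC Ψ) p q r = cf (RC Ψ) q p r := by
  unfold cf cfC
  congr 1
  rw [← S01_mp12.integral_comp S01_e12.measurableEmbedding]
  refine integral_congr_ae (Eventually.of_forall fun z => ?_)
  simp only [S01_ch12]
  congr 2
  exact S01_RC12 Ψ z.1 z.2.1 z.2.2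

theorem cf_swap23 (Ψ : ℝ → ℝ → ℝ) (p q r : ℤ) : cf (RC Ψ) p q r = cf (RC Ψ) p r q := by
  unfold cf cfC
  congr 1
  rw [← S01_mp23.integral_comp S01_e23.measurableEmbedding]
  refine integral_congr_ae (Eventually.of_forall fun z => ?_)
  simp only [S01_ch23]
  congr 2
  exact S01_RC23 Ψ z.1 z.2.1 z.2.2

theorem S01_conj_ch (p q r : ℤ) (z : ℝ × ℝ × ℝ) : conj (ch p q r z) = ch (-p) (-q) (-r) z := by
  unfold ch
  rw [← Complex.exp_conj]
  congr 1
  rw [map_mul, Complex.conj_I, Complex.conj_ofReal]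
  push_cast
  ring

theorem cf_conj (Φ : ℝ → ℝ → ℝ → ℝ) (p q r : ℤ) : conj (cf Φ p q r) = cf Φ (-p) (-q) (-r) := by
  unfold cf cfC
  rw [map_div₀, Complex.conj_ofReal, ← integral_conj]
  congr 1
  refine integral_congr_ae (Eventually.of_forall fun z => ?_)
  simp only [map_mul, Complex.conj_ofReal, S01_conj_ch, neg_neg]

end Pool.Agent.Lib.MP_230119_an.EX
end

section

/-!
# Reflection and translation
-/

set_option autoImplicit false

open Set Filter Topology MeasureTheory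
open scoped ComplexConjugate

namespace Pool.Agent.Lib.MP_230119_an.EX

/-- the reflection -/
noncomputable def S01b_r : ℝ ≃ᵐ ℝ :=
  MeasurableEquiv.ofInvolutive (fun t => 2 * Real.pi - t) (fun t => by ring) (by fun_prop)

theorem S01b_r_apply (t : ℝ) : S01b_r t = 2 * Real.pi - t := rfl

theorem S01b_mpr : MeasurePreserving S01b_r mc mc := by
  have h1 := (Measure.measurePreserving_sub_left (volume : Measure ℝ) (2 * Real.pi)).restrict_preimage
    (s := Ioc 0 (2 * Real.pi)) measurableSet_Ioc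
  have e : (fun θ : ℝ => 2 * Real.pi - θ) ⁻¹' Ioc 0 (2 * Real.pi) = Ico 0 (2 * Real.pi) := by
    ext θ
    simp only [mem_preimage, mem_Ioc, mem_Ico]
    constructor <;> rintro ⟨a, b⟩ <;> constructor <;> linarith
  rw [e, Measure.restrict_congr_set (Ico_ae_eq_Ioc (μ := (volume : Measure ℝ)))] at h1
  exact h1

/-- the reflection of the torus -/
noncomputable def S01b_r3 : (ℝ × ℝ × ℝ) ≃ᵐ (ℝ × ℝ × ℝ) :=
  S01b_r.prodCongr (S01b_r.prodCongr S01b_r)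

theorem S01b_r3_apply (z : ℝ × ℝ × ℝ) : S01b_r3 z =
    (2 * Real.pi - z.1, 2 * Real.pi - z.2.1, 2 * Real.pi - z.2.2) := rfl

theorem S01b_mpr3 : MeasurePreserving S01b_r3 mc3 mc3 :=
  S01b_mpr.prod (S01b_mpr.prod S01b_mpr)

theorem S01b_chr (p q r : ℤ) (z : ℝ × ℝ × ℝ) : ch p q r (S01b_r3 z) = ch (-p) (-q) (-r) z := by
  unfold ch
  rw [S01b_r3_apply]
  have h1 : ((((p : ℝ) * (2 * Real.pi - z.1) + q * (2 * Real.pi - z.2.1) +
      r * (2 * Real.pi - z.2.2) : ℝ) : ℂ) * Complex.I) =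
      ((((-p : ℤ) : ℝ) * z.1 + ((-q : ℤ) : ℝ) * z.2.1 + ((-r : ℤ) : ℝ) * z.2.2 : ℝ) : ℂ) *
        Complex.I + ((p + q + r : ℤ) : ℂ) * (2 * Real.pi * Complex.I) := by
    push_cast
    ring
  rw [h1, Complex.exp_periodic.int_mul]

theorem S01b_RCr (Ψ : ℝ → ℝ → ℝ) (a b c : ℝ) :
    RC Ψ (2 * Real.pi - a) (2 * Real.pi - b) (2 * Real.pi - c) = RC Ψ a b c := by
  unfold RC
  have h1 := rho_chi_add (-a) (-b) (-c) (2 * Real.pi)
  have h2 := rho_chi_neg a b c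
  rw [show 2 * Real.pi - a = -a + 2 * Real.pi by ring, show 2 * Real.pi - b = -b + 2 * Real.pi by
    ring, show 2 * Real.pi - c = -c + 2 * Real.pi by ring, h1.1, h1.2, h2.1, h2.2]

theorem cf_neg (Ψ : ℝ → ℝ → ℝ) (p q r : ℤ) : cf (RC Ψ) (-p) (-q) (-r) = cf (RC Ψ) p q r := by
  unfold cf cfC
  congr 1
  rw [← S01b_mpr3.integral_comp S01b_r3.measurableEmbedding]
  refine integral_congr_ae (Eventually.of_forall fun z => ?_)
  simp only [S01b_chr, neg_neg]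
  congr 2
  exact S01b_RCr Ψ z.1 z.2.1 z.2.2

theorem cf_real (Ψ : ℝ → ℝ → ℝ) (p q r : ℤ) : ((cf (RC Ψ) p q r).re : ℂ) = cf (RC Ψ) p q r := by
  rw [← Complex.conj_eq_iff_re, cf_conj, cf_neg]

/-- the translation by `s` modulo `2π` -/
noncomputable def S01b_t (s θ : ℝ) : ℝ :=
  if θ ≤ 2 * Real.pi - s then θ + s else θ + s - 2 * Real.pi

theorem S01b_tm (s : ℝ) : Measurable (S01b_t s) := by
  unfold S01b_t
  exact Measurable.ite measurableSet_Iic (by fun_prop) (by fun_prop)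

theorem S01b_mpt {s : ℝ} (h0 : 0 ≤ s) (h1 : s ≤ 2 * Real.pi) :
    MeasurePreserving (S01b_t s) mc mc := by
  have k1 : MeasurePreserving (fun θ : ℝ => θ + s) (volume.restrict (Ioc 0 (2 * Real.pi - s)))
      (volume.restrict (Ioc s (2 * Real.pi))) := by
    have := (measurePreserving_add_right (volume : Measure ℝ) s).restrict_preimage
      (s := Ioc s (2 * Real.pi)) measurableSet_Ioc
    have e : (fun θ : ℝ => θ + s) ⁻¹' Ioc s (2 * Real.pi) = Ioc 0 (2 * Real.pi - s) := by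
      ext θ
      simp only [mem_preimage, mem_Ioc]
      constructor <;> rintro ⟨a, b⟩ <;> constructor <;> linarith
    rwa [e] at this
  have k2 : MeasurePreserving (fun θ : ℝ => θ + s - 2 * Real.pi)
      (volume.restrict (Ioc (2 * Real.pi - s) (2 * Real.pi)))
      (volume.restrict (Ioc 0 s)) := by
    have := (measurePreserving_sub_right (volume : Measure ℝ) (2 * Real.pi - s)).restrict_preimage
      (s := Ioc 0 s) measurableSet_Ioc
    have e : (fun θ : ℝ => θ - (2 * Real.pi - s)) ⁻¹' Ioc 0 s =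
        Ioc (2 * Real.pi - s) (2 * Real.pi) := by
      ext θ
      simp only [mem_preimage, mem_Ioc]
      constructor <;> rintro ⟨a, b⟩ <;> constructor <;> linarith
    rw [e] at this
    have e2 : (fun θ : ℝ => θ - (2 * Real.pi - s)) = fun θ : ℝ => θ + s - 2 * Real.pi := by
      funext θ; ring
    rwa [e2] at this
  have hmc1 : mc = volume.restrict (Ioc 0 (2 * Real.pi - s)) +
      volume.restrict (Ioc (2 * Real.pi - s) (2 * Real.pi)) := by
    unfold mc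
    rw [← Measure.restrict_union (Set.disjoint_left.2 fun x hx hy => by
      simp only [mem_Ioc] at hx hy; linarith) measurableSet_Ioc,
      Ioc_union_Ioc_eq_Ioc (by linarith) (by linarith)]
  have hmc2 : mc = volume.restrict (Ioc 0 s) + volume.restrict (Ioc s (2 * Real.pi)) := by
    unfold mc
    rw [← Measure.restrict_union (Set.disjoint_left.2 fun x hx hy => by
      simp only [mem_Ioc] at hx hy; linarith) measurableSet_Ioc,
      Ioc_union_Ioc_eq_Ioc h0 h1]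
  have k1' : Measure.map (S01b_t s) (volume.restrict (Ioc 0 (2 * Real.pi - s))) =
      volume.restrict (Ioc s (2 * Real.pi)) := by
    rw [← k1.map_eq]
    refine Measure.map_congr ?_
    filter_upwards [ae_restrict_mem measurableSet_Ioc] with θ hθ
    simp only [S01b_t, if_pos hθ.2]
  have k2' : Measure.map (S01b_t s) (volume.restrict (Ioc (2 * Real.pi - s) (2 * Real.pi))) =
      volume.restrict (Ioc 0 s) := by
    rw [← k2.map_eq]
    refine Measure.map_congr ?_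
    filter_upwards [ae_restrict_mem measurableSet_Ioc] with θ hθ
    simp only [S01b_t, if_neg (not_le.mpr hθ.1)]
  refine ⟨S01b_tm s, ?_⟩
  conv_lhs => rw [hmc1]
  rw [Measure.map_add _ _ (S01b_tm s), k1', k2', add_comm, ← hmc2]

/-- the translation of the torus -/
noncomputable def S01b_t3 (s : ℝ) (z : ℝ × ℝ × ℝ) : ℝ × ℝ × ℝ :=
  (S01b_t s z.1, S01b_t s z.2.1, S01b_t s z.2.2)

theorem S01b_mpt3 {s : ℝ} (h0 : 0 ≤ s) (h1 : s ≤ 2 * Real.pi) :
    MeasurePreserving (S01b_t3 s) mc3 mc3 :=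
  (S01b_mpt h0 h1).prod ((S01b_mpt h0 h1).prod (S01b_mpt h0 h1))

theorem S01b_per (Ψ : ℝ → ℝ → ℝ) (a b c : ℝ) :
    RC Ψ (a - 2 * Real.pi) b c = RC Ψ a b c ∧ RC Ψ a (b - 2 * Real.pi) c = RC Ψ a b c ∧
      RC Ψ a b (c - 2 * Real.pi) = RC Ψ a b c := by
  have h1 := rho_chi_periodic (a - 2 * Real.pi) b c
  have h2 := rho_chi_periodic a (b - 2 * Real.pi) c
  have h3 := rho_chi_periodic a b (c - 2 * Real.pi)
  rw [sub_add_cancel] at h1 h2 h3
  unfold RC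
  rw [← h1.1, ← h1.2.1, ← h2.2.2.1, ← h2.2.2.2.1, ← h3.2.2.2.2.1, ← h3.2.2.2.2.2]
  exact ⟨rfl, rfl, rfl⟩

theorem S01b_RCt (Ψ : ℝ → ℝ → ℝ) (s a b c : ℝ) :
    RC Ψ (S01b_t s a) (S01b_t s b) (S01b_t s c) = RC Ψ a b c := by
  have h : RC Ψ (a + s) (b + s) (c + s) = RC Ψ a b c := by
    unfold RC
    rw [(rho_chi_add a b c s).1, (rho_chi_add a b c s).2]
  have ha : ∀ x y z : ℝ, RC Ψ (S01b_t s x) y z = RC Ψ (x + s) y z := by
    intro x y z
    unfold S01b_t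
    split_ifs
    · rfl
    · exact (S01b_per Ψ _ _ _).1
  have hb : ∀ x y z : ℝ, RC Ψ x (S01b_t s y) z = RC Ψ x (y + s) z := by
    intro x y z
    unfold S01b_t
    split_ifs
    · rfl
    · exact (S01b_per Ψ _ _ _).2.1
  have hc : ∀ x y z : ℝ, RC Ψ x y (S01b_t s z) = RC Ψ x y (z + s) := by
    intro x y z
    unfold S01b_t
    split_ifs
    · rfl
    · exact (S01b_per Ψ _ _ _).2.2
  rw [ha, hb, hc, h]

theorem S01b_cht (p q r : ℤ) (s : ℝ) (z : ℝ × ℝ × ℝ) : ch p q r (S01b_t3 s z) =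
    Complex.exp ((((p + q + r : ℤ) : ℝ) * s : ℝ) * Complex.I) * ch p q r z := by
  have h1 : ∀ θ : ℝ, ∃ n : ℤ, S01b_t s θ = θ + s - n * (2 * Real.pi) := by
    intro θ
    unfold S01b_t
    split_ifs
    · exact ⟨0, by simp⟩
    · exact ⟨1, by simp⟩
  obtain ⟨i, hi⟩ := h1 z.1
  obtain ⟨j, hj⟩ := h1 z.2.1
  obtain ⟨k, hk⟩ := h1 z.2.2
  unfold ch S01b_t3
  simp only [hi, hj, hk]
  rw [← Complex.exp_add]
  have h2 : ((((p : ℝ) * (z.1 + s - i * (2 * Real.pi)) + q * (z.2.1 + s - j * (2 * Real.pi)) +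
      r * (z.2.2 + s - k * (2 * Real.pi)) : ℝ) : ℂ) * Complex.I) =
      ((((p + q + r : ℤ) : ℝ) * s : ℝ) : ℂ) * Complex.I +
      (((p : ℝ) * z.1 + q * z.2.1 + r * z.2.2 : ℝ) : ℂ) * Complex.I +
      ((-(p * i + q * j + r * k) : ℤ) : ℂ) * (2 * Real.pi * Complex.I) := by
    push_cast
    ring
  rw [h2, Complex.exp_periodic.int_mul]

theorem cf_zero (Ψ : ℝ → ℝ → ℝ) (p q r : ℤ) (h : p + q + r ≠ 0) : cf (RC Ψ) p q r = 0 := by
  unfold cf cfC
  set F : ℝ × ℝ × ℝ → ℂ := fun z => ((RC Ψ z.1 z.2.1 z.2.2 : ℝ) : ℂ) * ch (-p) (-q) (-r) z with hF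
  by_cases hi : Integrable F mc3
  swap
  · rw [integral_undef hi, zero_div]
  obtain ⟨n, hn⟩ : ∃ n : ℤ, n = -p + -q + -r := ⟨_, rfl⟩
  have hn0 : n ≠ 0 := by omega
  have hnR : (1 : ℝ) ≤ |(n : ℝ)| := by
    have := Int.one_le_abs hn0
    exact_mod_cast this
  have hpi := Real.pi_pos
  set s : ℝ := Real.pi / |(n : ℝ)| with hs
  have hs0 : 0 ≤ s := by positivity
  have hs1 : s ≤ 2 * Real.pi := by
    have : s ≤ Real.pi := div_le_self hpi.le hnR
    linarith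
  have hmp := S01b_mpt3 hs0 hs1
  have h1 : ∫ z, F z ∂mc3 = ∫ z, F (S01b_t3 s z) ∂mc3 := by
    have := integral_map (μ := mc3) hmp.aemeasurable (f := F)
      (by rw [hmp.map_eq]; exact hi.aestronglyMeasurable)
    rw [hmp.map_eq] at this
    exact this
  have h2 : ∀ z, F (S01b_t3 s z) = -F z := by
    intro z
    have h3 : Complex.exp ((((-p + -q + -r : ℤ) : ℝ) * s : ℝ) * Complex.I) = -1 := by
      rw [← hn]
      rcases abs_cases (n : ℝ) with ⟨h4, h5⟩ | ⟨h4, h5⟩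
      · have h6 : (n : ℝ) * s = Real.pi := by
          rw [hs, h4]
          have : (n : ℝ) ≠ 0 := by exact_mod_cast hn0
          field_simp
        rw [h6, Complex.exp_pi_mul_I]
      · have h6 : (n : ℝ) * s = -Real.pi := by
          rw [hs, h4]
          have : (n : ℝ) ≠ 0 := by exact_mod_cast hn0
          field_simp
        rw [h6]
        push_cast
        rw [neg_mul, Complex.exp_neg, Complex.exp_pi_mul_I]
        norm_num
    simp only [hF]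
    rw [S01b_cht, h3]
    have h4 : RC Ψ (S01b_t3 s z).1 (S01b_t3 s z).2.1 (S01b_t3 s z).2.2 = RC Ψ z.1 z.2.1 z.2.2 :=
      S01b_RCt Ψ s z.1 z.2.1 z.2.2
    rw [h4]
    ring
  have h5 : ∫ z, F (S01b_t3 s z) ∂mc3 = -∫ z, F z ∂mc3 := by
    rw [← integral_neg]
    exact integral_congr_ae (Eventually.of_forall h2)
  have h6 : ∫ z, F z ∂mc3 = 0 := by
    rw [h5] at h1
    exact self_eq_neg.mp h1
  rw [h6, zero_div]

end Pool.Agent.Lib.MP_230119_an.EX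
end

section

/-!
# Derivatives of the error kernel
-/

set_option autoImplicit false

open Set Filter Topology MeasureTheory

namespace Pool.Agent.Lib.MP_230119_an.EX

variable {F F1 F2 F3 H H1 H2 H3 : ℝ → ℝ} {S0 S1 S2 S3 T0 T1 T2 T3 : ℝ}

private theorem T01_cos {f : ℝ → ℝ} {f' x : ℝ} (h : HasDerivAt f f' x) :
    HasDerivAt (fun y => Real.cos (f y)) (-Real.sin (f x) * f') x := h.cos

private theorem T01_sin {f : ℝ → ℝ} {f' x : ℝ} (h : HasDerivAt f f' x) :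
    HasDerivAt (fun y => Real.sin (f y)) (Real.cos (f x) * f') x := h.sin

private theorem T01_rho_a (a b c : ℝ) : HasDerivAt (fun a => rho a b c) (ra a b c) a := by
  have l1 : HasDerivAt (fun x : ℝ => x - b) 1 a := (hasDerivAt_id a).sub_const b
  have l2 : HasDerivAt (fun _ : ℝ => b - c) 0 a := hasDerivAt_const a (b - c)
  have l3 : HasDerivAt (fun x : ℝ => c - x) (-1) a := (hasDerivAt_id a).const_sub c
  have := ((((T01_cos l1).add (T01_cos l2)).add (T01_cos l3)).const_mul (2 : ℝ)).const_add (2 : ℝ)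
  refine HasDerivAt.congr_deriv (f' := _) this ?_
  unfold ra; ring

private theorem T01_ra_a (a b c : ℝ) : HasDerivAt (fun a => ra a b c) (raa a b c) a := by
  have l1 : HasDerivAt (fun x : ℝ => x - b) 1 a := (hasDerivAt_id a).sub_const b
  have l3 : HasDerivAt (fun x : ℝ => c - x) (-1) a := (hasDerivAt_id a).const_sub c
  have := (((T01_sin l1).neg.add (T01_sin l3))).const_mul (2 : ℝ)
  refine HasDerivAt.congr_deriv (f' := _) this ?_
  unfold raa; ring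

private theorem T01_rho_b (a b c : ℝ) : HasDerivAt (fun b => rho a b c) (rb a b c) b := by
  have l1 : HasDerivAt (fun x : ℝ => a - x) (-1) b := (hasDerivAt_id b).const_sub a
  have l2 : HasDerivAt (fun x : ℝ => x - c) 1 b := (hasDerivAt_id b).sub_const c
  have l3 : HasDerivAt (fun _ : ℝ => c - a) 0 b := hasDerivAt_const b (c - a)
  have := ((((T01_cos l1).add (T01_cos l2)).add (T01_cos l3)).const_mul (2 : ℝ)).const_add (2 : ℝ)
  refine HasDerivAt.congr_deriv (f' := _) this ?_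
  unfold rb; ring

private theorem T01_ra_b (a b c : ℝ) : HasDerivAt (fun b => ra a b c) (rab a b c) b := by
  have l1 : HasDerivAt (fun x : ℝ => a - x) (-1) b := (hasDerivAt_id b).const_sub a
  have l3 : HasDerivAt (fun _ : ℝ => c - a) 0 b := hasDerivAt_const b (c - a)
  have := (((T01_sin l1).neg.add (T01_sin l3))).const_mul (2 : ℝ)
  refine HasDerivAt.congr_deriv (f' := _) this ?_
  unfold rab; ring

private theorem T01_raa_b (a b c : ℝ) : HasDerivAt (fun b => raa a b c) (raab a b c) b := by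
  have l1 : HasDerivAt (fun x : ℝ => a - x) (-1) b := (hasDerivAt_id b).const_sub a
  have l3 : HasDerivAt (fun _ : ℝ => c - a) 0 b := hasDerivAt_const b (c - a)
  have := (((T01_cos l1).neg.sub (T01_cos l3))).const_mul (2 : ℝ)
  refine HasDerivAt.congr_deriv (f' := _) this ?_
  unfold raab; ring

private theorem T01_l1a (a b c : ℝ) : HasDerivAt (fun x : ℝ => 2 * x - b - c) 2 a := by
  have := (((hasDerivAt_id a).const_mul (2 : ℝ)).sub_const b).sub_const c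
  exact this.congr_deriv (by ring)

private theorem T01_l2a (a b c : ℝ) : HasDerivAt (fun x : ℝ => 2 * b - c - x) (-1) a :=
  (hasDerivAt_id a).const_sub (2 * b - c)

private theorem T01_l3a (a b c : ℝ) : HasDerivAt (fun x : ℝ => 2 * c - x - b) (-1) a :=
  ((hasDerivAt_id a).const_sub (2 * c)).sub_const b

private theorem T01_l1b (a b c : ℝ) : HasDerivAt (fun x : ℝ => 2 * a - x - c) (-1) b :=
  ((hasDerivAt_id b).const_sub (2 * a)).sub_const c

private theorem T01_l2b (a b c : ℝ) : HasDerivAt (fun x : ℝ => 2 * x - c - a) 2 b := by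
  have := (((hasDerivAt_id b).const_mul (2 : ℝ)).sub_const c).sub_const a
  exact this.congr_deriv (by ring)

private theorem T01_l3b (a b c : ℝ) : HasDerivAt (fun x : ℝ => 2 * c - a - x) (-1) b :=
  (hasDerivAt_id b).const_sub (2 * c - a)

private theorem T01_chi_a (a b c : ℝ) : HasDerivAt (fun a => chi a b c) (xa a b c) a := by
  have := (((T01_cos (T01_l1a a b c)).add (T01_cos (T01_l2a a b c))).add
    (T01_cos (T01_l3a a b c)))
  refine HasDerivAt.congr_deriv (f' := _) this ?_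
  unfold xa; ring

private theorem T01_xa_a (a b c : ℝ) : HasDerivAt (fun a => xa a b c) (xaa a b c) a := by
  have := ((((T01_sin (T01_l1a a b c)).const_mul (-2 : ℝ)).add (T01_sin (T01_l2a a b c))).add
    (T01_sin (T01_l3a a b c)))
  refine HasDerivAt.congr_deriv (f' := _) this ?_
  unfold xaa; ring

private theorem T01_chi_b (a b c : ℝ) : HasDerivAt (fun b => chi a b c) (xb a b c) b := by
  have := (((T01_cos (T01_l1b a b c)).add (T01_cos (T01_l2b a b c))).add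
    (T01_cos (T01_l3b a b c)))
  refine HasDerivAt.congr_deriv (f' := _) this ?_
  unfold xb; ring

private theorem T01_xa_b (a b c : ℝ) : HasDerivAt (fun b => xa a b c) (xab a b c) b := by
  have := ((((T01_sin (T01_l1b a b c)).const_mul (-2 : ℝ)).add (T01_sin (T01_l2b a b c))).add
    (T01_sin (T01_l3b a b c)))
  refine HasDerivAt.congr_deriv (f' := _) this ?_
  unfold xab; ring

private theorem T01_xaa_b (a b c : ℝ) : HasDerivAt (fun b => xaa a b c) (xaab a b c) b := by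
  have := ((((T01_cos (T01_l1b a b c)).const_mul (-4 : ℝ)).sub (T01_cos (T01_l2b a b c))).sub
    (T01_cos (T01_l3b a b c)))
  refine HasDerivAt.congr_deriv (f' := _) this ?_
  unfold xaab; ring

private theorem T01_comp_a {G G' : ℝ → ℝ} {a b c : ℝ}
    (hG : HasDerivAt G (G' (rho a b c)) (rho a b c)) :
    HasDerivAt (fun a => G (rho a b c)) (G' (rho a b c) * ra a b c) a :=
  HasDerivAt.comp a (h₂ := G) hG (T01_rho_a a b c)

private theorem T01_comp_b {G G' : ℝ → ℝ} {a b c : ℝ}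
    (hG : HasDerivAt G (G' (rho a b c)) (rho a b c)) :
    HasDerivAt (fun b => G (rho a b c)) (G' (rho a b c) * rb a b c) b :=
  HasDerivAt.comp b (h₂ := G) hG (T01_rho_b a b c)

theorem hasDerivAt_EE_a (hF : C3b F F1 F2 F3 S0 S1 S2 S3) (hH : C3b H H1 H2 H3 T0 T1 T2 T3)
    (a b c : ℝ) (h : rho a b c ∈ Ioo (-1 : ℝ) 8) :
    HasDerivAt (fun a => EE F H a b c) (Ea F1 H H1 a b c) a := by
  have hFc := T01_comp_a (G' := F1) (hF.d1 _ h)
  have hHc := T01_comp_a (G' := H1) (hH.d1 _ h)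
  have := hFc.add ((T01_chi_a a b c).mul hHc)
  refine HasDerivAt.congr_deriv (f' := _) this ?_
  unfold Ea; ring

theorem hasDerivAt_Ea_a (hF : C3b F F1 F2 F3 S0 S1 S2 S3) (hH : C3b H H1 H2 H3 T0 T1 T2 T3)
    (a b c : ℝ) (h : rho a b c ∈ Ioo (-1 : ℝ) 8) :
    HasDerivAt (fun a => Ea F1 H H1 a b c) (Eaa F1 F2 H H1 H2 a b c) a := by
  have hF1c := T01_comp_a (G' := F2) (hF.d2 _ h)
  have hHc := T01_comp_a (G' := H1) (hH.d1 _ h)
  have hH1c := T01_comp_a (G' := H2) (hH.d2 _ h)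
  have := ((hF1c.mul (T01_ra_a a b c)).add ((T01_xa_a a b c).mul hHc)).add
    ((T01_chi_a a b c).mul (hH1c.mul (T01_ra_a a b c)))
  refine HasDerivAt.congr_deriv (f' := _) this ?_
  simp only [Pi.mul_apply]
  unfold Eaa; ring

theorem hasDerivAt_Eaa_b (hF : C3b F F1 F2 F3 S0 S1 S2 S3) (hH : C3b H H1 H2 H3 T0 T1 T2 T3)
    (a b c : ℝ) (h : rho a b c ∈ Ioo (-1 : ℝ) 8) (h0 : rho a b c ≠ 0) :
    HasDerivAt (fun b => Eaa F1 F2 H H1 H2 a b c) (Eaab F1 F2 F3 H H1 H2 H3 a b c) b := by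
  have hF1c := T01_comp_b (G' := F2) (hF.d2 _ h)
  have hF2c := T01_comp_b (G' := F3) (hF.d3 _ h h0)
  have hHc := T01_comp_b (G' := H1) (hH.d1 _ h)
  have hH1c := T01_comp_b (G' := H2) (hH.d2 _ h)
  have hH2c := T01_comp_b (G' := H3) (hH.d3 _ h h0)
  have hra := T01_ra_b a b c
  have hra2 : HasDerivAt (fun b => ra a b c ^ 2) (2 * ra a b c * rab a b c) b := by
    have := hra.pow 2
    refine HasDerivAt.congr_deriv (f' := _) this ?_
    norm_num
  have hraa := T01_raa_b a b c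
  have hxa := T01_xa_b a b c
  have hxaa := T01_xaa_b a b c
  have hchi := T01_chi_b a b c
  have := ((((hF2c.mul hra2).add (hF1c.mul hraa)).add (hxaa.mul hHc)).add
    ((hxa.const_mul (2 : ℝ)).mul (hH1c.mul hra))).add
    (hchi.mul ((hH2c.mul hra2).add (hH1c.mul hraa)))
  refine HasDerivAt.congr_deriv (f' := _) this ?_
  simp only [Pi.mul_apply, Pi.add_apply]
  unfold Eaab c1 c2 c3 d0 d1 d2 d3 c2 c3; ring

theorem continuousAt_Eaa_a (hF : C3b F F1 F2 F3 S0 S1 S2 S3) (hH : C3b H H1 H2 H3 T0 T1 T2 T3)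
    (a b c : ℝ) (h : rho a b c ∈ Ioo (-1 : ℝ) 8) :
    ContinuousAt (fun a => Eaa F1 F2 H H1 H2 a b c) a := by
  have hr := (T01_rho_a a b c).continuousAt
  have k : ∀ {G : ℝ → ℝ}, ContinuousAt G (rho a b c) →
      ContinuousAt (fun a => G (rho a b c)) a := fun hG => ContinuousAt.comp' hG hr
  have nb : Ioo (-1 : ℝ) 8 ∈ 𝓝 (rho a b c) := isOpen_Ioo.mem_nhds h
  have hF1c := k (hF.d2 _ h).continuousAt
  have hF2c := k (hF.c2.continuousAt nb)
  have hHc := k (hH.d1 _ h).continuousAt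
  have hH1c := k (hH.d2 _ h).continuousAt
  have hH2c := k (hH.c2.continuousAt nb)
  have hra := (T01_ra_a a b c).continuousAt
  have hraa : ContinuousAt (fun a => raa a b c) a := by
    unfold raa; fun_prop
  have hxa := (T01_xa_a a b c).continuousAt
  have hxaa : ContinuousAt (fun a => xaa a b c) a := by
    unfold xaa; fun_prop
  have hchi := (T01_chi_a a b c).continuousAt
  exact ((((hF2c.mul (hra.pow 2)).add (hF1c.mul hraa)).add (hxaa.mul hHc)).add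
    ((continuousAt_const.mul hxa).mul (hH1c.mul hra))).add
    (hchi.mul ((hH2c.mul (hra.pow 2)).add (hH1c.mul hraa)))

theorem continuousAt_Eaa_b (hF : C3b F F1 F2 F3 S0 S1 S2 S3) (hH : C3b H H1 H2 H3 T0 T1 T2 T3)
    (a b c : ℝ) (h : rho a b c ∈ Ioo (-1 : ℝ) 8) :
    ContinuousAt (fun b => Eaa F1 F2 H H1 H2 a b c) b := by
  have hr := (T01_rho_b a b c).continuousAt
  have k : ∀ {G : ℝ → ℝ}, ContinuousAt G (rho a b c) →
      ContinuousAt (fun b => G (rho a b c)) b := fun hG => ContinuousAt.comp' hG hr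
  have nb : Ioo (-1 : ℝ) 8 ∈ 𝓝 (rho a b c) := isOpen_Ioo.mem_nhds h
  have hF1c := k (hF.d2 _ h).continuousAt
  have hF2c := k (hF.c2.continuousAt nb)
  have hHc := k (hH.d1 _ h).continuousAt
  have hH1c := k (hH.d2 _ h).continuousAt
  have hH2c := k (hH.c2.continuousAt nb)
  have hra := (T01_ra_b a b c).continuousAt
  have hraa := (T01_raa_b a b c).continuousAt
  have hxa := (T01_xa_b a b c).continuousAt
  have hxaa := (T01_xaa_b a b c).continuousAt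
  have hchi := (T01_chi_b a b c).continuousAt
  exact ((((hF2c.mul (hra.pow 2)).add (hF1c.mul hraa)).add (hxaa.mul hHc)).add
    ((continuousAt_const.mul hxa).mul (hH1c.mul hra))).add
    (hchi.mul ((hH2c.mul (hra.pow 2)).add (hH1c.mul hraa)))

end Pool.Agent.Lib.MP_230119_an.EX
end

section

/-!
# Boundedness and measurability
-/

set_option autoImplicit false

open Set Filter Topology MeasureTheory

namespace Pool.Agent.Lib.MP_230119_an.EX

/-- boundedness on a set -/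
def T04Bd (s : Set (ℝ × ℝ × ℝ)) (f : ℝ × ℝ × ℝ → ℝ) : Prop := ∃ B : ℝ, ∀ z ∈ s, |f z| ≤ B

theorem T04Bd_const (s : Set (ℝ × ℝ × ℝ)) (c : ℝ) : T04Bd s (fun _ => c) :=
  ⟨|c|, fun _ _ => le_rfl⟩

theorem T04Bd_sin (s : Set (ℝ × ℝ × ℝ)) (g : ℝ × ℝ × ℝ → ℝ) :
    T04Bd s (fun z => Real.sin (g z)) :=
  ⟨1, fun _ _ => Real.abs_sin_le_one _⟩

theorem T04Bd_cos (s : Set (ℝ × ℝ × ℝ)) (g : ℝ × ℝ × ℝ → ℝ) :
    T04Bd s (fun z => Real.cos (g z)) :=
  ⟨1, fun _ _ => Real.abs_cos_le_one _⟩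

theorem T04Bd_neg {s : Set (ℝ × ℝ × ℝ)} {f : ℝ × ℝ × ℝ → ℝ} (hf : T04Bd s f) :
    T04Bd s (fun z => -f z) := by
  obtain ⟨B, hB⟩ := hf
  exact ⟨B, fun z hz => by rw [abs_neg]; exact hB z hz⟩

theorem T04Bd_add {s : Set (ℝ × ℝ × ℝ)} {f g : ℝ × ℝ × ℝ → ℝ} (hf : T04Bd s f)
    (hg : T04Bd s g) : T04Bd s (fun z => f z + g z) := by
  obtain ⟨B, hB⟩ := hf
  obtain ⟨C, hC⟩ := hg
  exact ⟨B + C, fun z hz => (abs_add_le _ _).trans (add_le_add (hB z hz) (hC z hz))⟩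

theorem T04Bd_sub {s : Set (ℝ × ℝ × ℝ)} {f g : ℝ × ℝ × ℝ → ℝ} (hf : T04Bd s f)
    (hg : T04Bd s g) : T04Bd s (fun z => f z - g z) := by
  obtain ⟨B, hB⟩ := hf
  obtain ⟨C, hC⟩ := hg
  exact ⟨B + C, fun z hz => (abs_sub _ _).trans (add_le_add (hB z hz) (hC z hz))⟩

theorem T04Bd_mul {s : Set (ℝ × ℝ × ℝ)} {f g : ℝ × ℝ × ℝ → ℝ} (hf : T04Bd s f)
    (hg : T04Bd s g) : T04Bd s (fun z => f z * g z) := by
  obtain ⟨B, hB⟩ := hf
  obtain ⟨C, hC⟩ := hg
  exact ⟨B * C, fun z hz => by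
    rw [abs_mul]
    exact mul_le_mul (hB z hz) (hC z hz) (abs_nonneg _) ((abs_nonneg _).trans (hB z hz))⟩

theorem T04Bd_sq {s : Set (ℝ × ℝ × ℝ)} {f : ℝ × ℝ × ℝ → ℝ} (hf : T04Bd s f) :
    T04Bd s (fun z => f z ^ 2) := by
  simpa only [pow_two] using T04Bd_mul hf hf

theorem T04Bd_chi (s : Set (ℝ × ℝ × ℝ)) : T04Bd s (fun z => chi z.1 z.2.1 z.2.2) := by
  unfold chi
  exact T04Bd_add (T04Bd_add (T04Bd_cos _ _) (T04Bd_cos _ _)) (T04Bd_cos _ _)

theorem T04Bd_ra (s : Set (ℝ × ℝ × ℝ)) : T04Bd s (fun z => ra z.1 z.2.1 z.2.2) := by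
  unfold ra
  exact T04Bd_mul (T04Bd_const _ _) (T04Bd_add (T04Bd_neg (T04Bd_sin _ _)) (T04Bd_sin _ _))

theorem T04Bd_raa (s : Set (ℝ × ℝ × ℝ)) : T04Bd s (fun z => raa z.1 z.2.1 z.2.2) := by
  unfold raa
  exact T04Bd_mul (T04Bd_const _ _) (T04Bd_sub (T04Bd_neg (T04Bd_cos _ _)) (T04Bd_cos _ _))

theorem T04Bd_rb (s : Set (ℝ × ℝ × ℝ)) : T04Bd s (fun z => rb z.1 z.2.1 z.2.2) := by
  unfold rb
  exact T04Bd_mul (T04Bd_const _ _) (T04Bd_sub (T04Bd_sin _ _) (T04Bd_sin _ _))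

theorem T04Bd_rab (s : Set (ℝ × ℝ × ℝ)) : T04Bd s (fun z => rab z.1 z.2.1 z.2.2) := by
  unfold rab
  exact T04Bd_mul (T04Bd_const _ _) (T04Bd_cos _ _)

theorem T04Bd_raab (s : Set (ℝ × ℝ × ℝ)) : T04Bd s (fun z => raab z.1 z.2.1 z.2.2) := by
  unfold raab
  exact T04Bd_mul (T04Bd_const _ _) (T04Bd_sin _ _)

theorem T04Bd_xa (s : Set (ℝ × ℝ × ℝ)) : T04Bd s (fun z => xa z.1 z.2.1 z.2.2) := by
  unfold xa
  exact T04Bd_add (T04Bd_add (T04Bd_mul (T04Bd_const _ _) (T04Bd_sin _ _)) (T04Bd_sin _ _))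
    (T04Bd_sin _ _)

theorem T04Bd_xaa (s : Set (ℝ × ℝ × ℝ)) : T04Bd s (fun z => xaa z.1 z.2.1 z.2.2) := by
  unfold xaa
  exact T04Bd_sub (T04Bd_sub (T04Bd_mul (T04Bd_const _ _) (T04Bd_cos _ _)) (T04Bd_cos _ _))
    (T04Bd_cos _ _)

theorem T04Bd_xb (s : Set (ℝ × ℝ × ℝ)) : T04Bd s (fun z => xb z.1 z.2.1 z.2.2) := by
  unfold xb
  exact T04Bd_add (T04Bd_sub (T04Bd_sin _ _) (T04Bd_mul (T04Bd_const _ _) (T04Bd_sin _ _)))
    (T04Bd_sin _ _)

theorem T04Bd_xab (s : Set (ℝ × ℝ × ℝ)) : T04Bd s (fun z => xab z.1 z.2.1 z.2.2) := by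
  unfold xab
  exact T04Bd_sub (T04Bd_add (T04Bd_mul (T04Bd_const _ _) (T04Bd_cos _ _))
    (T04Bd_mul (T04Bd_const _ _) (T04Bd_cos _ _))) (T04Bd_cos _ _)

theorem T04Bd_xaab (s : Set (ℝ × ℝ × ℝ)) : T04Bd s (fun z => xaab z.1 z.2.1 z.2.2) := by
  unfold xaab
  exact T04Bd_sub (T04Bd_add (T04Bd_mul (T04Bd_const _ _) (T04Bd_sin _ _))
    (T04Bd_mul (T04Bd_const _ _) (T04Bd_sin _ _))) (T04Bd_sin _ _)

theorem T04Bd_c1 (s : Set (ℝ × ℝ × ℝ)) : T04Bd s (fun z => c1 z.1 z.2.1 z.2.2) := by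
  unfold c1
  exact T04Bd_raab s

theorem T04Bd_c2 (s : Set (ℝ × ℝ × ℝ)) : T04Bd s (fun z => c2 z.1 z.2.1 z.2.2) := by
  unfold c2
  exact T04Bd_add (T04Bd_mul (T04Bd_mul (T04Bd_const _ _) (T04Bd_ra s)) (T04Bd_rab s))
    (T04Bd_mul (T04Bd_raa s) (T04Bd_rb s))

theorem T04Bd_c3 (s : Set (ℝ × ℝ × ℝ)) : T04Bd s (fun z => c3 z.1 z.2.1 z.2.2) := by
  unfold c3
  exact T04Bd_mul (T04Bd_sq (T04Bd_ra s)) (T04Bd_rb s)

theorem T04Bd_d0 (s : Set (ℝ × ℝ × ℝ)) : T04Bd s (fun z => d0 z.1 z.2.1 z.2.2) := by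
  unfold d0
  exact T04Bd_xaab s

theorem T04Bd_d1 (s : Set (ℝ × ℝ × ℝ)) : T04Bd s (fun z => d1 z.1 z.2.1 z.2.2) := by
  unfold d1
  exact T04Bd_add (T04Bd_add (T04Bd_add (T04Bd_add (T04Bd_mul (T04Bd_xaa s) (T04Bd_rb s))
    (T04Bd_mul (T04Bd_mul (T04Bd_const _ _) (T04Bd_xab s)) (T04Bd_ra s)))
    (T04Bd_mul (T04Bd_mul (T04Bd_const _ _) (T04Bd_xa s)) (T04Bd_rab s)))
    (T04Bd_mul (T04Bd_xb s) (T04Bd_raa s))) (T04Bd_mul (T04Bd_chi s) (T04Bd_raab s))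

theorem T04Bd_d2 (s : Set (ℝ × ℝ × ℝ)) : T04Bd s (fun z => d2 z.1 z.2.1 z.2.2) := by
  unfold d2
  exact T04Bd_add (T04Bd_add (T04Bd_mul (T04Bd_mul (T04Bd_mul (T04Bd_const _ _) (T04Bd_xa s))
    (T04Bd_ra s)) (T04Bd_rb s)) (T04Bd_mul (T04Bd_xb s) (T04Bd_sq (T04Bd_ra s))))
    (T04Bd_mul (T04Bd_chi s) (T04Bd_c2 s))

theorem T04Bd_d3 (s : Set (ℝ × ℝ × ℝ)) : T04Bd s (fun z => d3 z.1 z.2.1 z.2.2) := by
  unfold d3
  exact T04Bd_mul (T04Bd_chi s) (T04Bd_c3 s)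

variable {F F1 F2 F3 H H1 H2 H3 : ℝ → ℝ} {S0 S1 S2 S3 T0 T1 T2 T3 : ℝ}

/-- the good set -/
def T04S : Set (ℝ × ℝ × ℝ) :=
  {z | rho z.1 z.2.1 z.2.2 ∈ Ioo (-1 : ℝ) 8 ∧ rho z.1 z.2.1 z.2.2 ≠ 0}

/-- the functions are bounded almost everywhere and measurable -/
theorem EE_bdd (hF : C3b F F1 F2 F3 S0 S1 S2 S3) (hH : C3b H H1 H2 H3 T0 T1 T2 T3) :
    ∃ B : ℝ, ∀ᵐ z ∂mc3, |EE F H z.1 z.2.1 z.2.2| ≤ B ∧ |Ea F1 H H1 z.1 z.2.1 z.2.2| ≤ B ∧
      |Eaa F1 F2 H H1 H2 z.1 z.2.1 z.2.2| ≤ B ∧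
      |Eaab F1 F2 F3 H H1 H2 H3 z.1 z.2.1 z.2.2| ≤ B := by
  have f0 : T04Bd T04S (fun z => F (rho z.1 z.2.1 z.2.2)) := ⟨S0, fun z hz => hF.b0 _ hz.1⟩
  have f1 : T04Bd T04S (fun z => F1 (rho z.1 z.2.1 z.2.2)) := ⟨S1, fun z hz => hF.b1 _ hz.1⟩
  have f2 : T04Bd T04S (fun z => F2 (rho z.1 z.2.1 z.2.2)) := ⟨S2, fun z hz => hF.b2 _ hz.1⟩
  have f3 : T04Bd T04S (fun z => F3 (rho z.1 z.2.1 z.2.2)) :=
    ⟨S3, fun z hz => hF.b3 _ hz.1 hz.2⟩
  have g0 : T04Bd T04S (fun z => H (rho z.1 z.2.1 z.2.2)) := ⟨T0, fun z hz => hH.b0 _ hz.1⟩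
  have g1 : T04Bd T04S (fun z => H1 (rho z.1 z.2.1 z.2.2)) := ⟨T1, fun z hz => hH.b1 _ hz.1⟩
  have g2 : T04Bd T04S (fun z => H2 (rho z.1 z.2.1 z.2.2)) := ⟨T2, fun z hz => hH.b2 _ hz.1⟩
  have g3 : T04Bd T04S (fun z => H3 (rho z.1 z.2.1 z.2.2)) :=
    ⟨T3, fun z hz => hH.b3 _ hz.1 hz.2⟩
  have e0 : T04Bd T04S (fun z => EE F H z.1 z.2.1 z.2.2) := by
    unfold EE
    exact T04Bd_add f0 (T04Bd_mul (T04Bd_chi _) g0)
  have e1 : T04Bd T04S (fun z => Ea F1 H H1 z.1 z.2.1 z.2.2) := by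
    unfold Ea
    exact T04Bd_add (T04Bd_add (T04Bd_mul f1 (T04Bd_ra _)) (T04Bd_mul (T04Bd_xa _) g0))
      (T04Bd_mul (T04Bd_chi _) (T04Bd_mul g1 (T04Bd_ra _)))
  have e2 : T04Bd T04S (fun z => Eaa F1 F2 H H1 H2 z.1 z.2.1 z.2.2) := by
    unfold Eaa
    exact T04Bd_add (T04Bd_add (T04Bd_add (T04Bd_add (T04Bd_mul f2 (T04Bd_sq (T04Bd_ra _)))
      (T04Bd_mul f1 (T04Bd_raa _))) (T04Bd_mul (T04Bd_xaa _) g0))
      (T04Bd_mul (T04Bd_mul (T04Bd_const _ _) (T04Bd_xa _)) (T04Bd_mul g1 (T04Bd_ra _))))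
      (T04Bd_mul (T04Bd_chi _) (T04Bd_add (T04Bd_mul g2 (T04Bd_sq (T04Bd_ra _)))
      (T04Bd_mul g1 (T04Bd_raa _))))
  have e3 : T04Bd T04S (fun z => Eaab F1 F2 F3 H H1 H2 H3 z.1 z.2.1 z.2.2) := by
    unfold Eaab
    exact T04Bd_add (T04Bd_add (T04Bd_add (T04Bd_add (T04Bd_add (T04Bd_add
      (T04Bd_mul f1 (T04Bd_c1 _)) (T04Bd_mul f2 (T04Bd_c2 _))) (T04Bd_mul f3 (T04Bd_c3 _)))
      (T04Bd_mul g0 (T04Bd_d0 _))) (T04Bd_mul g1 (T04Bd_d1 _))) (T04Bd_mul g2 (T04Bd_d2 _)))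
      (T04Bd_mul g3 (T04Bd_d3 _))
  obtain ⟨B0, h0⟩ := e0
  obtain ⟨B1, h1⟩ := e1
  obtain ⟨B2, h2⟩ := e2
  obtain ⟨B3, h3⟩ := e3
  refine ⟨max (max B0 B1) (max B2 B3), ?_⟩
  filter_upwards [rho_mem_ae] with z hz
  have hz' : z ∈ T04S := hz
  exact ⟨(h0 z hz').trans ((le_max_left _ _).trans (le_max_left _ _)),
    (h1 z hz').trans ((le_max_right _ _).trans (le_max_left _ _)),
    (h2 z hz').trans ((le_max_left _ _).trans (le_max_right _ _)),
    (h3 z hz').trans ((le_max_right _ _).trans (le_max_right _ _))⟩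

theorem EE_meas (hF : C3b F F1 F2 F3 S0 S1 S2 S3) (hH : C3b H H1 H2 H3 T0 T1 T2 T3) :
    Measurable (fun z : ℝ × ℝ × ℝ => EE F H z.1 z.2.1 z.2.2) ∧
    Measurable (fun z : ℝ × ℝ × ℝ => Ea F1 H H1 z.1 z.2.1 z.2.2) ∧
    Measurable (fun z : ℝ × ℝ × ℝ => Eaa F1 F2 H H1 H2 z.1 z.2.1 z.2.2) ∧
    Measurable (fun z : ℝ × ℝ × ℝ => Eaab F1 F2 F3 H H1 H2 H3 z.1 z.2.1 z.2.2) := by
  have mr : Measurable (fun z : ℝ × ℝ × ℝ => rho z.1 z.2.1 z.2.2) := by
    unfold rho; fun_prop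
  have f0 : Measurable (fun z : ℝ × ℝ × ℝ => F (rho z.1 z.2.1 z.2.2)) := hF.m0.comp mr
  have f1 : Measurable (fun z : ℝ × ℝ × ℝ => F1 (rho z.1 z.2.1 z.2.2)) := hF.m1.comp mr
  have f2 : Measurable (fun z : ℝ × ℝ × ℝ => F2 (rho z.1 z.2.1 z.2.2)) := hF.m2.comp mr
  have f3 : Measurable (fun z : ℝ × ℝ × ℝ => F3 (rho z.1 z.2.1 z.2.2)) := hF.m3.comp mr
  have g0 : Measurable (fun z : ℝ × ℝ × ℝ => H (rho z.1 z.2.1 z.2.2)) := hH.m0.comp mr
  have g1 : Measurable (fun z : ℝ × ℝ × ℝ => H1 (rho z.1 z.2.1 z.2.2)) := hH.m1.comp mr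
  have g2 : Measurable (fun z : ℝ × ℝ × ℝ => H2 (rho z.1 z.2.1 z.2.2)) := hH.m2.comp mr
  have g3 : Measurable (fun z : ℝ × ℝ × ℝ => H3 (rho z.1 z.2.1 z.2.2)) := hH.m3.comp mr
  have mx : Measurable (fun z : ℝ × ℝ × ℝ => chi z.1 z.2.1 z.2.2) := by
    unfold chi; fun_prop
  have m1 : Measurable (fun z : ℝ × ℝ × ℝ => ra z.1 z.2.1 z.2.2) := by
    unfold ra; fun_prop
  have m2 : Measurable (fun z : ℝ × ℝ × ℝ => raa z.1 z.2.1 z.2.2) := by
    unfold raa; fun_prop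
  have m3 : Measurable (fun z : ℝ × ℝ × ℝ => xa z.1 z.2.1 z.2.2) := by
    unfold xa; fun_prop
  have m4 : Measurable (fun z : ℝ × ℝ × ℝ => xaa z.1 z.2.1 z.2.2) := by
    unfold xaa; fun_prop
  have n1 : Measurable (fun z : ℝ × ℝ × ℝ => c1 z.1 z.2.1 z.2.2) := by
    unfold c1 raab; fun_prop
  have n2 : Measurable (fun z : ℝ × ℝ × ℝ => c2 z.1 z.2.1 z.2.2) := by
    unfold c2 ra rab raa rb; fun_prop
  have n3 : Measurable (fun z : ℝ × ℝ × ℝ => c3 z.1 z.2.1 z.2.2) := by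
    unfold c3 ra rb; fun_prop
  have n4 : Measurable (fun z : ℝ × ℝ × ℝ => d0 z.1 z.2.1 z.2.2) := by
    unfold d0 xaab; fun_prop
  have n5 : Measurable (fun z : ℝ × ℝ × ℝ => d1 z.1 z.2.1 z.2.2) := by
    unfold d1 xaa rb xab ra xa rab xb raa chi raab; fun_prop
  have n6 : Measurable (fun z : ℝ × ℝ × ℝ => d2 z.1 z.2.1 z.2.2) := by
    unfold d2 xa ra rb xb chi c2 ra rab raa rb; fun_prop
  have n7 : Measurable (fun z : ℝ × ℝ × ℝ => d3 z.1 z.2.1 z.2.2) := by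
    unfold d3 chi c3 ra rb; fun_prop
  refine ⟨?_, ?_, ?_, ?_⟩
  · unfold EE
    exact f0.add (mx.mul g0)
  · unfold Ea
    exact ((f1.mul m1).add (m3.mul g0)).add (mx.mul (g1.mul m1))
  · unfold Eaa
    exact ((((f2.mul (m1.pow_const 2)).add (f1.mul m2)).add (m4.mul g0)).add
      ((measurable_const.mul m3).mul (g1.mul m1))).add
      (mx.mul ((g2.mul (m1.pow_const 2)).add (g1.mul m2)))
  · unfold Eaab
    exact ((((((f1.mul n1).add (f2.mul n2)).add (f3.mul n3)).add (g0.mul n4)).add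
      (g1.mul n5)).add (g2.mul n6)).add (g3.mul n7)

end Pool.Agent.Lib.MP_230119_an.EX
end

section

/-!
# Fourier coefficients: first derivative
-/

set_option autoImplicit false

open Set Filter Topology MeasureTheory

namespace Pool.Agent.Lib.MP_230119_an.EX

variable {F F1 F2 F3 H H1 H2 H3 : ℝ → ℝ} {S0 S1 S2 S3 T0 T1 T2 T3 : ℝ}

theorem T04a_per (a b c : ℝ) :
    Real.cos (a + 2 * Real.pi - b) = Real.cos (a - b) ∧
    Real.sin (a + 2 * Real.pi - b) = Real.sin (a - b) ∧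
    Real.cos (c - (a + 2 * Real.pi)) = Real.cos (c - a) ∧
    Real.sin (c - (a + 2 * Real.pi)) = Real.sin (c - a) ∧
    Real.cos (2 * (a + 2 * Real.pi) - b - c) = Real.cos (2 * a - b - c) ∧
    Real.sin (2 * (a + 2 * Real.pi) - b - c) = Real.sin (2 * a - b - c) ∧
    Real.cos (2 * b - c - (a + 2 * Real.pi)) = Real.cos (2 * b - c - a) ∧
    Real.sin (2 * b - c - (a + 2 * Real.pi)) = Real.sin (2 * b - c - a) ∧
    Real.cos (2 * c - (a + 2 * Real.pi) - b) = Real.cos (2 * c - a - b) ∧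
    Real.sin (2 * c - (a + 2 * Real.pi) - b) = Real.sin (2 * c - a - b) := by
  have e1 : a + 2 * Real.pi - b = (a - b) + (1 : ℤ) * (2 * Real.pi) := by push_cast; ring
  have e2 : c - (a + 2 * Real.pi) = (c - a) + (-1 : ℤ) * (2 * Real.pi) := by push_cast; ring
  have e3 : 2 * (a + 2 * Real.pi) - b - c = (2 * a - b - c) + (2 : ℤ) * (2 * Real.pi) := by
    push_cast; ring
  have e4 : 2 * b - c - (a + 2 * Real.pi) = (2 * b - c - a) + (-1 : ℤ) * (2 * Real.pi) := by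
    push_cast; ring
  have e5 : 2 * c - (a + 2 * Real.pi) - b = (2 * c - a - b) + (-1 : ℤ) * (2 * Real.pi) := by
    push_cast; ring
  rw [e1, e2, e3, e4, e5]
  simp only [Real.cos_add_int_mul_two_pi, Real.sin_add_int_mul_two_pi, and_self]

theorem T04a_ch (p q r : ℤ) (a b c : ℝ) :
    ch (-p) (-q) (-r) (a, b, c) = Complex.exp (((-(p * a) : ℝ) : ℂ) * Complex.I) *
      Complex.exp (((-(q * b) - r * c : ℝ) : ℂ) * Complex.I) := by
  unfold ch
  rw [← Complex.exp_add]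
  congr 1
  push_cast
  ring

theorem T04a_ch_norm (p q r : ℤ) (z : ℝ × ℝ × ℝ) : ‖ch p q r z‖ = 1 := by
  unfold ch
  exact Complex.norm_exp_ofReal_mul_I _

theorem T04a_ch_cont (p q r : ℤ) : Continuous (ch p q r) := by
  unfold ch
  fun_prop

theorem T04a_int {Φ : ℝ → ℝ → ℝ → ℝ} (hm : Measurable (fun z : ℝ × ℝ × ℝ => Φ z.1 z.2.1 z.2.2))
    {B : ℝ} (hb : ∀ᵐ z ∂mc3, |Φ z.1 z.2.1 z.2.2| ≤ B) (p q r : ℤ) :
    Integrable (fun z : ℝ × ℝ × ℝ => (Φ z.1 z.2.1 z.2.2 : ℂ) * ch p q r z) mc3 := by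
  refine Integrable.of_bound (C := B) ?_ ?_
  · exact ((Complex.measurable_ofReal.comp hm).mul (T04a_ch_cont p q r).measurable)
      |>.aestronglyMeasurable
  · filter_upwards [hb] with z hz
    rw [norm_mul, T04a_ch_norm, mul_one, Complex.norm_real, Real.norm_eq_abs]
    exact hz

theorem T04a_fub {Φ Φ' : ℝ → ℝ → ℝ → ℝ}
    (hm : Measurable (fun z : ℝ × ℝ × ℝ => Φ z.1 z.2.1 z.2.2))
    (hm' : Measurable (fun z : ℝ × ℝ × ℝ => Φ' z.1 z.2.1 z.2.2))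
    {B : ℝ} (hb : ∀ᵐ z ∂mc3, |Φ z.1 z.2.1 z.2.2| ≤ B)
    (hb' : ∀ᵐ z ∂mc3, |Φ' z.1 z.2.1 z.2.2| ≤ B) (p q r : ℤ)
    (h : ∀ᵐ y ∂(mc.prod mc),
      ∫ t, (Φ' t y.1 y.2 : ℂ) * Complex.exp (((-(p * t) : ℝ) : ℂ) * Complex.I) ∂mc
        = (p : ℂ) * Complex.I *
          ∫ t, (Φ t y.1 y.2 : ℂ) * Complex.exp (((-(p * t) : ℝ) : ℂ) * Complex.I) ∂mc) :
    cf Φ' p q r = (p : ℂ) * Complex.I * cf Φ p q r := by
  unfold cf cfC
  rw [← mul_div_assoc]
  congr 1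
  have hi := T04a_int hm hb (-p) (-q) (-r)
  have hi' := T04a_int hm' hb' (-p) (-q) (-r)
  unfold mc3 at hi hi' ⊢
  rw [integral_prod_symm _ hi, integral_prod_symm _ hi', ← integral_const_mul]
  apply integral_congr_ae
  filter_upwards [h] with y hy
  obtain ⟨b, c⟩ := y
  simp only [T04a_ch, ← mul_assoc, integral_mul_const] at hy ⊢
  rw [hy]

theorem T04a_bdd {f : ℝ → ℝ} (hper : ∀ t, f (t + 2 * Real.pi) = f t) (hc : Continuous f) :
    ∃ B : ℝ, ∀ t, |f t| ≤ B := by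
  have hp : Function.Periodic f (2 * Real.pi) := hper
  obtain ⟨B, hB⟩ := (isCompact_Icc (a := (0 : ℝ)) (b := 2 * Real.pi)).exists_bound_of_continuousOn
    hc.continuousOn
  refine ⟨B, fun t => ?_⟩
  obtain ⟨y, hy, hy2⟩ := hp.exists_mem_Ico₀ (by positivity : (0 : ℝ) < 2 * Real.pi) t
  rw [hy2]
  exact hB y ⟨hy.1, hy.2.le⟩

theorem cf_Ea (hF : C3b F F1 F2 F3 S0 S1 S2 S3) (hH : C3b H H1 H2 H3 T0 T1 T2 T3) (p q r : ℤ) :
    cf (Ea F1 H H1) p q r = (p : ℂ) * Complex.I * cf (EE F H) p q r := by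
  obtain ⟨B, hB⟩ := EE_bdd hF hH
  obtain ⟨m0, m1, -, -⟩ := EE_meas hF hH
  refine T04a_fub m0 m1 (hB.mono fun z hz => hz.1) (hB.mono fun z hz => hz.2.1) p q r ?_
  filter_upwards [exc_null] with y hy
  obtain ⟨b, c⟩ := y
  obtain ⟨h1, h2, -, -, -, -⟩ := hy
  have hrho : ∀ a, rho a b c ∈ Ioo (-1 : ℝ) 8 := fun a => rho_mem_of_bc h1 h2 a
  have hd : ∀ a, HasDerivAt (fun a => EE F H a b c) (Ea F1 H H1 a b c) a :=
    fun a => hasDerivAt_EE_a hF hH a b c (hrho a)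
  have hd1 : ∀ a, HasDerivAt (fun a => Ea F1 H H1 a b c) (Eaa F1 F2 H H1 H2 a b c) a :=
    fun a => hasDerivAt_Ea_a hF hH a b c (hrho a)
  have hc : Continuous (fun a => EE F H a b c) :=
    continuous_iff_continuousAt.mpr fun a => (hd a).continuousAt
  have hc1 : Continuous (fun a => Ea F1 H H1 a b c) :=
    continuous_iff_continuousAt.mpr fun a => (hd1 a).continuousAt
  have hper : ∀ a, EE F H (a + 2 * Real.pi) b c = EE F H a b c := by
    intro a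
    obtain ⟨e1, e2, e3, e4, e5, e6, e7, e8, e9, e10⟩ := T04a_per a b c
    simp only [EE, rho, chi, e1, e3, e5, e7, e9]
  have hper1 : ∀ a, Ea F1 H H1 (a + 2 * Real.pi) b c = Ea F1 H H1 a b c := by
    intro a
    obtain ⟨e1, e2, e3, e4, e5, e6, e7, e8, e9, e10⟩ := T04a_per a b c
    simp only [Ea, rho, chi, ra, xa, e1, e2, e3, e4, e5, e6, e7, e8, e9, e10]
  obtain ⟨B1, hB1⟩ := T04a_bdd hper1 hc1
  exact circle_parts hper hc Set.countable_empty (fun t _ => hd t) hc1.measurable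
    (fun t _ => hB1 t) p

end Pool.Agent.Lib.MP_230119_an.EX
end

section

/-!
# Fourier coefficients: second derivative
-/

set_option autoImplicit false

open Set Filter Topology MeasureTheory

namespace Pool.Agent.Lib.MP_230119_an.EX

variable {F F1 F2 F3 H H1 H2 H3 : ℝ → ℝ} {S0 S1 S2 S3 T0 T1 T2 T3 : ℝ}

theorem T04b_per (a b c : ℝ) :
    Real.cos (a + 2 * Real.pi - b) = Real.cos (a - b) ∧
    Real.sin (a + 2 * Real.pi - b) = Real.sin (a - b) ∧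
    Real.cos (c - (a + 2 * Real.pi)) = Real.cos (c - a) ∧
    Real.sin (c - (a + 2 * Real.pi)) = Real.sin (c - a) ∧
    Real.cos (2 * (a + 2 * Real.pi) - b - c) = Real.cos (2 * a - b - c) ∧
    Real.sin (2 * (a + 2 * Real.pi) - b - c) = Real.sin (2 * a - b - c) ∧
    Real.cos (2 * b - c - (a + 2 * Real.pi)) = Real.cos (2 * b - c - a) ∧
    Real.sin (2 * b - c - (a + 2 * Real.pi)) = Real.sin (2 * b - c - a) ∧
    Real.cos (2 * c - (a + 2 * Real.pi) - b) = Real.cos (2 * c - a - b) ∧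
    Real.sin (2 * c - (a + 2 * Real.pi) - b) = Real.sin (2 * c - a - b) := by
  have e1 : a + 2 * Real.pi - b = (a - b) + (1 : ℤ) * (2 * Real.pi) := by push_cast; ring
  have e2 : c - (a + 2 * Real.pi) = (c - a) + (-1 : ℤ) * (2 * Real.pi) := by push_cast; ring
  have e3 : 2 * (a + 2 * Real.pi) - b - c = (2 * a - b - c) + (2 : ℤ) * (2 * Real.pi) := by
    push_cast; ring
  have e4 : 2 * b - c - (a + 2 * Real.pi) = (2 * b - c - a) + (-1 : ℤ) * (2 * Real.pi) := by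
    push_cast; ring
  have e5 : 2 * c - (a + 2 * Real.pi) - b = (2 * c - a - b) + (-1 : ℤ) * (2 * Real.pi) := by
    push_cast; ring
  rw [e1, e2, e3, e4, e5]
  simp only [Real.cos_add_int_mul_two_pi, Real.sin_add_int_mul_two_pi, and_self]

theorem T04b_ch (p q r : ℤ) (a b c : ℝ) :
    ch (-p) (-q) (-r) (a, b, c) = Complex.exp (((-(p * a) : ℝ) : ℂ) * Complex.I) *
      Complex.exp (((-(q * b) - r * c : ℝ) : ℂ) * Complex.I) := by
  unfold ch
  rw [← Complex.exp_add]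
  congr 1
  push_cast
  ring

theorem T04b_ch_norm (p q r : ℤ) (z : ℝ × ℝ × ℝ) : ‖ch p q r z‖ = 1 := by
  unfold ch
  exact Complex.norm_exp_ofReal_mul_I _

theorem T04b_ch_cont (p q r : ℤ) : Continuous (ch p q r) := by
  unfold ch
  fun_prop

theorem T04b_int {Φ : ℝ → ℝ → ℝ → ℝ} (hm : Measurable (fun z : ℝ × ℝ × ℝ => Φ z.1 z.2.1 z.2.2))
    {B : ℝ} (hb : ∀ᵐ z ∂mc3, |Φ z.1 z.2.1 z.2.2| ≤ B) (p q r : ℤ) :
    Integrable (fun z : ℝ × ℝ × ℝ => (Φ z.1 z.2.1 z.2.2 : ℂ) * ch p q r z) mc3 := by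
  refine Integrable.of_bound (C := B) ?_ ?_
  · exact ((Complex.measurable_ofReal.comp hm).mul (T04b_ch_cont p q r).measurable)
      |>.aestronglyMeasurable
  · filter_upwards [hb] with z hz
    rw [norm_mul, T04b_ch_norm, mul_one, Complex.norm_real, Real.norm_eq_abs]
    exact hz

theorem T04b_fub {Φ Φ' : ℝ → ℝ → ℝ → ℝ}
    (hm : Measurable (fun z : ℝ × ℝ × ℝ => Φ z.1 z.2.1 z.2.2))
    (hm' : Measurable (fun z : ℝ × ℝ × ℝ => Φ' z.1 z.2.1 z.2.2))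
    {B : ℝ} (hb : ∀ᵐ z ∂mc3, |Φ z.1 z.2.1 z.2.2| ≤ B)
    (hb' : ∀ᵐ z ∂mc3, |Φ' z.1 z.2.1 z.2.2| ≤ B) (p q r : ℤ)
    (h : ∀ᵐ y ∂(mc.prod mc),
      ∫ t, (Φ' t y.1 y.2 : ℂ) * Complex.exp (((-(p * t) : ℝ) : ℂ) * Complex.I) ∂mc
        = (p : ℂ) * Complex.I *
          ∫ t, (Φ t y.1 y.2 : ℂ) * Complex.exp (((-(p * t) : ℝ) : ℂ) * Complex.I) ∂mc) :
    cf Φ' p q r = (p : ℂ) * Complex.I * cf Φ p q r := by
  unfold cf cfC
  rw [← mul_div_assoc]
  congr 1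
  have hi := T04b_int hm hb (-p) (-q) (-r)
  have hi' := T04b_int hm' hb' (-p) (-q) (-r)
  unfold mc3 at hi hi' ⊢
  rw [integral_prod_symm _ hi, integral_prod_symm _ hi', ← integral_const_mul]
  apply integral_congr_ae
  filter_upwards [h] with y hy
  obtain ⟨b, c⟩ := y
  simp only [T04b_ch, ← mul_assoc, integral_mul_const] at hy ⊢
  rw [hy]

theorem T04b_bdd {f : ℝ → ℝ} (hper : ∀ t, f (t + 2 * Real.pi) = f t) (hc : Continuous f) :
    ∃ B : ℝ, ∀ t, |f t| ≤ B := by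
  have hp : Function.Periodic f (2 * Real.pi) := hper
  obtain ⟨B, hB⟩ := (isCompact_Icc (a := (0 : ℝ)) (b := 2 * Real.pi)).exists_bound_of_continuousOn
    hc.continuousOn
  refine ⟨B, fun t => ?_⟩
  obtain ⟨y, hy, hy2⟩ := hp.exists_mem_Ico₀ (by positivity : (0 : ℝ) < 2 * Real.pi) t
  rw [hy2]
  exact hB y ⟨hy.1, hy.2.le⟩

theorem cf_Eaa (hF : C3b F F1 F2 F3 S0 S1 S2 S3) (hH : C3b H H1 H2 H3 T0 T1 T2 T3) (p q r : ℤ) :
    cf (Eaa F1 F2 H H1 H2) p q r = (p : ℂ) * Complex.I * cf (Ea F1 H H1) p q r := by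
  obtain ⟨B, hB⟩ := EE_bdd hF hH
  obtain ⟨-, m1, m2, -⟩ := EE_meas hF hH
  refine T04b_fub m1 m2 (hB.mono fun z hz => hz.2.1) (hB.mono fun z hz => hz.2.2.1) p q r ?_
  filter_upwards [exc_null] with y hy
  obtain ⟨b, c⟩ := y
  obtain ⟨h1, h2, -, -, -, -⟩ := hy
  have hrho : ∀ a, rho a b c ∈ Ioo (-1 : ℝ) 8 := fun a => rho_mem_of_bc h1 h2 a
  have hd1 : ∀ a, HasDerivAt (fun a => Ea F1 H H1 a b c) (Eaa F1 F2 H H1 H2 a b c) a :=
    fun a => hasDerivAt_Ea_a hF hH a b c (hrho a)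
  have hc1 : Continuous (fun a => Ea F1 H H1 a b c) :=
    continuous_iff_continuousAt.mpr fun a => (hd1 a).continuousAt
  have hc2 : Continuous (fun a => Eaa F1 F2 H H1 H2 a b c) :=
    continuous_iff_continuousAt.mpr fun a => continuousAt_Eaa_a hF hH a b c (hrho a)
  have hper1 : ∀ a, Ea F1 H H1 (a + 2 * Real.pi) b c = Ea F1 H H1 a b c := by
    intro a
    obtain ⟨e1, e2, e3, e4, e5, e6, e7, e8, e9, e10⟩ := T04b_per a b c
    simp only [Ea, rho, chi, ra, xa, e1, e2, e3, e4, e5, e6, e7, e8, e9, e10]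
  have hper2 : ∀ a, Eaa F1 F2 H H1 H2 (a + 2 * Real.pi) b c = Eaa F1 F2 H H1 H2 a b c := by
    intro a
    obtain ⟨e1, e2, e3, e4, e5, e6, e7, e8, e9, e10⟩ := T04b_per a b c
    simp only [Eaa, rho, chi, ra, raa, xa, xaa, e1, e2, e3, e4, e5, e6, e7, e8, e9, e10]
  obtain ⟨B1, hB1⟩ := T04b_bdd hper2 hc2
  exact circle_parts hper1 hc1 Set.countable_empty (fun t _ => hd1 t) hc2.measurable
    (fun t _ => hB1 t) p

end Pool.Agent.Lib.MP_230119_an.EX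
end

section

/-!
# Fourier coefficients: third derivative
-/

set_option autoImplicit false

open Set Filter Topology MeasureTheory

namespace Pool.Agent.Lib.MP_230119_an.EX

variable {F F1 F2 F3 H H1 H2 H3 : ℝ → ℝ} {S0 S1 S2 S3 T0 T1 T2 T3 : ℝ}

theorem T04c_per (a b c : ℝ) :
    Real.cos (a - (b + 2 * Real.pi)) = Real.cos (a - b) ∧
    Real.sin (a - (b + 2 * Real.pi)) = Real.sin (a - b) ∧
    Real.cos (b + 2 * Real.pi - c) = Real.cos (b - c) ∧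
    Real.sin (b + 2 * Real.pi - c) = Real.sin (b - c) ∧
    Real.cos (2 * a - (b + 2 * Real.pi) - c) = Real.cos (2 * a - b - c) ∧
    Real.sin (2 * a - (b + 2 * Real.pi) - c) = Real.sin (2 * a - b - c) ∧
    Real.cos (2 * (b + 2 * Real.pi) - c - a) = Real.cos (2 * b - c - a) ∧
    Real.sin (2 * (b + 2 * Real.pi) - c - a) = Real.sin (2 * b - c - a) ∧
    Real.cos (2 * c - a - (b + 2 * Real.pi)) = Real.cos (2 * c - a - b) ∧
    Real.sin (2 * c - a - (b + 2 * Real.pi)) = Real.sin (2 * c - a - b) := by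
  have e1 : a - (b + 2 * Real.pi) = (a - b) + (-1 : ℤ) * (2 * Real.pi) := by push_cast; ring
  have e2 : b + 2 * Real.pi - c = (b - c) + (1 : ℤ) * (2 * Real.pi) := by push_cast; ring
  have e3 : 2 * a - (b + 2 * Real.pi) - c = (2 * a - b - c) + (-1 : ℤ) * (2 * Real.pi) := by
    push_cast; ring
  have e4 : 2 * (b + 2 * Real.pi) - c - a = (2 * b - c - a) + (2 : ℤ) * (2 * Real.pi) := by
    push_cast; ring
  have e5 : 2 * c - a - (b + 2 * Real.pi) = (2 * c - a - b) + (-1 : ℤ) * (2 * Real.pi) := by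
    push_cast; ring
  rw [e1, e2, e3, e4, e5]
  simp only [Real.cos_add_int_mul_two_pi, Real.sin_add_int_mul_two_pi, and_self]

theorem T04c_ch (p q r : ℤ) (a b c : ℝ) :
    ch (-p) (-q) (-r) (a, b, c) = Complex.exp (((-(q * b) : ℝ) : ℂ) * Complex.I) *
      Complex.exp (((-(p * a) - r * c : ℝ) : ℂ) * Complex.I) := by
  unfold ch
  rw [← Complex.exp_add]
  congr 1
  push_cast
  ring

theorem T04c_ch_norm (p q r : ℤ) (z : ℝ × ℝ × ℝ) : ‖ch p q r z‖ = 1 := by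
  unfold ch
  exact Complex.norm_exp_ofReal_mul_I _

theorem T04c_ch_cont (p q r : ℤ) : Continuous (ch p q r) := by
  unfold ch
  fun_prop

theorem T04c_int {Φ : ℝ → ℝ → ℝ → ℝ} (hm : Measurable (fun z : ℝ × ℝ × ℝ => Φ z.1 z.2.1 z.2.2))
    {B : ℝ} (hb : ∀ᵐ z ∂mc3, |Φ z.1 z.2.1 z.2.2| ≤ B) (p q r : ℤ) :
    Integrable (fun z : ℝ × ℝ × ℝ => (Φ z.1 z.2.1 z.2.2 : ℂ) * ch p q r z) mc3 := by
  refine Integrable.of_bound (C := B) ?_ ?_
  · exact ((Complex.measurable_ofReal.comp hm).mul (T04c_ch_cont p q r).measurable)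
      |>.aestronglyMeasurable
  · filter_upwards [hb] with z hz
    rw [norm_mul, T04c_ch_norm, mul_one, Complex.norm_real, Real.norm_eq_abs]
    exact hz

theorem T04c_bdd {f : ℝ → ℝ} (hper : ∀ t, f (t + 2 * Real.pi) = f t) (hc : Continuous f) :
    ∃ B : ℝ, ∀ t, |f t| ≤ B := by
  have hp : Function.Periodic f (2 * Real.pi) := hper
  obtain ⟨B, hB⟩ := (isCompact_Icc (a := (0 : ℝ)) (b := 2 * Real.pi)).exists_bound_of_continuousOn
    hc.continuousOn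
  refine ⟨B, fun t => ?_⟩
  obtain ⟨y, hy, hy2⟩ := hp.exists_mem_Ico₀ (by positivity : (0 : ℝ) < 2 * Real.pi) t
  rw [hy2]
  exact hB y ⟨hy.1, hy.2.le⟩

theorem T04c_fub {Φ Φ' : ℝ → ℝ → ℝ → ℝ}
    (hm : Measurable (fun z : ℝ × ℝ × ℝ => Φ z.1 z.2.1 z.2.2))
    (hm' : Measurable (fun z : ℝ × ℝ × ℝ => Φ' z.1 z.2.1 z.2.2))
    {B : ℝ} (hb : ∀ᵐ z ∂mc3, |Φ z.1 z.2.1 z.2.2| ≤ B)
    (hb' : ∀ᵐ z ∂mc3, |Φ' z.1 z.2.1 z.2.2| ≤ B) (p q r : ℤ)
    (h : ∀ᵐ a ∂mc, ∀ᵐ c ∂mc,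
      ∫ t, (Φ' a t c : ℂ) * Complex.exp (((-(q * t) : ℝ) : ℂ) * Complex.I) ∂mc
        = (q : ℂ) * Complex.I *
          ∫ t, (Φ a t c : ℂ) * Complex.exp (((-(q * t) : ℝ) : ℂ) * Complex.I) ∂mc) :
    cf Φ' p q r = (q : ℂ) * Complex.I * cf Φ p q r := by
  unfold cf cfC
  rw [← mul_div_assoc]
  congr 1
  have hi := T04c_int hm hb (-p) (-q) (-r)
  have hi' := T04c_int hm' hb' (-p) (-q) (-r)
  unfold mc3 at hi hi' ⊢
  rw [integral_prod _ hi, integral_prod _ hi', ← integral_const_mul]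
  apply integral_congr_ae
  filter_upwards [h, hi.prod_right_ae, hi'.prod_right_ae] with a ha hia hia'
  rw [integral_prod_symm _ hia, integral_prod_symm _ hia', ← integral_const_mul]
  apply integral_congr_ae
  filter_upwards [ha] with c hc
  simp only [T04c_ch, ← mul_assoc, integral_mul_const] at hc ⊢
  rw [hc]

theorem T04c_meas {Φ : ℝ → ℝ → ℝ → ℝ}
    (hm : Measurable (fun z : ℝ × ℝ × ℝ => Φ z.1 z.2.1 z.2.2)) (a c : ℝ) :
    Measurable (fun b => Φ a b c) := by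
  have hpt : Measurable (fun b : ℝ => ((a, b, c) : ℝ × ℝ × ℝ)) := by fun_prop
  exact hm.comp hpt

/-- bounded off the set `s` -/
def T04c_Bd (s : Set ℝ) (f : ℝ → ℝ) : Prop := ∃ B : ℝ, ∀ t, t ∉ s → |f t| ≤ B

theorem T04c_Bd.add {s : Set ℝ} {f g : ℝ → ℝ} (hf : T04c_Bd s f) (hg : T04c_Bd s g) :
    T04c_Bd s (fun t => f t + g t) := by
  obtain ⟨A, hA⟩ := hf
  obtain ⟨B, hB⟩ := hg
  exact ⟨A + B, fun t ht => (abs_add_le _ _).trans (add_le_add (hA t ht) (hB t ht))⟩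

theorem T04c_Bd.mul {s : Set ℝ} {f g : ℝ → ℝ} (hf : T04c_Bd s f) (hg : T04c_Bd s g) :
    T04c_Bd s (fun t => f t * g t) := by
  obtain ⟨A, hA⟩ := hf
  obtain ⟨B, hB⟩ := hg
  refine ⟨A * B, fun t ht => ?_⟩
  rw [abs_mul]
  exact mul_le_mul (hA t ht) (hB t ht) (abs_nonneg _) ((abs_nonneg _).trans (hA t ht))

theorem T04c_Bd.of_cont {s : Set ℝ} {f : ℝ → ℝ} (hper : ∀ t, f (t + 2 * Real.pi) = f t)
    (hc : Continuous f) : T04c_Bd s f := by
  obtain ⟨B, hB⟩ := T04c_bdd hper hc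
  exact ⟨B, fun t _ => hB t⟩

theorem cf_Eaab (hF : C3b F F1 F2 F3 S0 S1 S2 S3) (hH : C3b H H1 H2 H3 T0 T1 T2 T3) (p q r : ℤ) :
    cf (Eaab F1 F2 F3 H H1 H2 H3) p q r
      = (q : ℂ) * Complex.I * cf (Eaa F1 F2 H H1 H2) p q r := by
  obtain ⟨B, hB⟩ := EE_bdd hF hH
  obtain ⟨-, -, m2, m3⟩ := EE_meas hF hH
  refine T04c_fub m2 m3 (hB.mono fun z hz => hz.2.2.1) (hB.mono fun z hz => hz.2.2.2) p q r ?_
  filter_upwards [Measure.ae_ae_of_ae_prod exc_null] with a ha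
  filter_upwards [ha] with c hc
  obtain ⟨-, -, h1, h2, -, h3⟩ := hc
  have hrho : ∀ b, rho a b c ∈ Ioo (-1 : ℝ) 8 := fun b => rho_mem_of_ca h1 h2 b
  have hs : {b : ℝ | rho a b c = 0}.Countable := rho_zeros_countable h3
  have hd : ∀ b, b ∉ {b : ℝ | rho a b c = 0} →
      HasDerivAt (fun b => Eaa F1 F2 H H1 H2 a b c) (Eaab F1 F2 F3 H H1 H2 H3 a b c) b :=
    fun b hb => hasDerivAt_Eaa_b hF hH a b c (hrho b) hb
  have hc2 : Continuous (fun b => Eaa F1 F2 H H1 H2 a b c) :=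
    continuous_iff_continuousAt.mpr fun b => continuousAt_Eaa_b hF hH a b c (hrho b)
  have hper2 : ∀ b, Eaa F1 F2 H H1 H2 a (b + 2 * Real.pi) c = Eaa F1 F2 H H1 H2 a b c := by
    intro b
    obtain ⟨e1, e2, e3, e4, e5, e6, e7, e8, e9, e10⟩ := T04c_per a b c
    simp only [Eaa, rho, chi, ra, raa, xa, xaa, e1, e2, e3, e4, e5, e6, e7, e8, e9, e10]
  have hmeas : Measurable (fun b => Eaab F1 F2 F3 H H1 H2 H3 a b c) := T04c_meas m3 a c
  have hcoef : ∀ g : ℝ → ℝ → ℝ → ℝ, (∀ b, g a (b + 2 * Real.pi) c = g a b c) →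
      Continuous (fun b => g a b c) →
      T04c_Bd {b : ℝ | rho a b c = 0} (fun b => g a b c) :=
    fun g hg hgc => T04c_Bd.of_cont (f := fun b => g a b c) hg hgc
  have hc1' : T04c_Bd {b : ℝ | rho a b c = 0} (fun b => c1 a b c) := by
    refine hcoef c1 ?_ ?_
    · intro b
      obtain ⟨e1, e2, e3, e4, e5, e6, e7, e8, e9, e10⟩ := T04c_per a b c
      simp only [c1, raab, e1, e2, e3, e4, e5, e6, e7, e8, e9, e10]
    · unfold c1 raab
      fun_prop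
  have hc2' : T04c_Bd {b : ℝ | rho a b c = 0} (fun b => c2 a b c) := by
    refine hcoef c2 ?_ ?_
    · intro b
      obtain ⟨e1, e2, e3, e4, e5, e6, e7, e8, e9, e10⟩ := T04c_per a b c
      simp only [c2, ra, rab, raa, rb, e1, e2, e3, e4, e5, e6, e7, e8, e9, e10]
    · unfold c2 ra rab raa rb
      fun_prop
  have hc3' : T04c_Bd {b : ℝ | rho a b c = 0} (fun b => c3 a b c) := by
    refine hcoef c3 ?_ ?_
    · intro b
      obtain ⟨e1, e2, e3, e4, e5, e6, e7, e8, e9, e10⟩ := T04c_per a b c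
      simp only [c3, ra, rb, e1, e2, e3, e4, e5, e6, e7, e8, e9, e10]
    · unfold c3 ra rb
      fun_prop
  have hd0' : T04c_Bd {b : ℝ | rho a b c = 0} (fun b => d0 a b c) := by
    refine hcoef d0 ?_ ?_
    · intro b
      obtain ⟨e1, e2, e3, e4, e5, e6, e7, e8, e9, e10⟩ := T04c_per a b c
      simp only [d0, xaab, e1, e2, e3, e4, e5, e6, e7, e8, e9, e10]
    · unfold d0 xaab
      fun_prop
  have hd1' : T04c_Bd {b : ℝ | rho a b c = 0} (fun b => d1 a b c) := by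
    refine hcoef d1 ?_ ?_
    · intro b
      obtain ⟨e1, e2, e3, e4, e5, e6, e7, e8, e9, e10⟩ := T04c_per a b c
      simp only [d1, xaa, rb, xab, ra, xa, rab, xb, raa, chi, raab,
        e1, e2, e3, e4, e5, e6, e7, e8, e9, e10]
    · unfold d1 xaa rb xab ra xa rab xb raa chi raab
      fun_prop
  have hd2' : T04c_Bd {b : ℝ | rho a b c = 0} (fun b => d2 a b c) := by
    refine hcoef d2 ?_ ?_
    · intro b
      obtain ⟨e1, e2, e3, e4, e5, e6, e7, e8, e9, e10⟩ := T04c_per a b c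
      simp only [d2, c2, rb, ra, xa, rab, xb, raa, chi,
        e1, e2, e3, e4, e5, e6, e7, e8, e9, e10]
    · unfold d2 c2 rb ra xa rab xb raa chi
      fun_prop
  have hd3' : T04c_Bd {b : ℝ | rho a b c = 0} (fun b => d3 a b c) := by
    refine hcoef d3 ?_ ?_
    · intro b
      obtain ⟨e1, e2, e3, e4, e5, e6, e7, e8, e9, e10⟩ := T04c_per a b c
      simp only [d3, c3, rb, ra, chi, e1, e2, e3, e4, e5, e6, e7, e8, e9, e10]
    · unfold d3 c3 rb ra chi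
      fun_prop
  have f1 : T04c_Bd {b : ℝ | rho a b c = 0} (fun b => F1 (rho a b c)) :=
    ⟨S1, fun b _ => hF.b1 _ (hrho b)⟩
  have f2 : T04c_Bd {b : ℝ | rho a b c = 0} (fun b => F2 (rho a b c)) :=
    ⟨S2, fun b _ => hF.b2 _ (hrho b)⟩
  have f3 : T04c_Bd {b : ℝ | rho a b c = 0} (fun b => F3 (rho a b c)) :=
    ⟨S3, fun b hb => hF.b3 _ (hrho b) hb⟩
  have g0 : T04c_Bd {b : ℝ | rho a b c = 0} (fun b => H (rho a b c)) :=
    ⟨T0, fun b _ => hH.b0 _ (hrho b)⟩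
  have g1 : T04c_Bd {b : ℝ | rho a b c = 0} (fun b => H1 (rho a b c)) :=
    ⟨T1, fun b _ => hH.b1 _ (hrho b)⟩
  have g2 : T04c_Bd {b : ℝ | rho a b c = 0} (fun b => H2 (rho a b c)) :=
    ⟨T2, fun b _ => hH.b2 _ (hrho b)⟩
  have g3 : T04c_Bd {b : ℝ | rho a b c = 0} (fun b => H3 (rho a b c)) :=
    ⟨T3, fun b hb => hH.b3 _ (hrho b) hb⟩
  have hbd : T04c_Bd {b : ℝ | rho a b c = 0} (fun b => Eaab F1 F2 F3 H H1 H2 H3 a b c) := by
    have k1 := f1.mul hc1'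
    have k2 := k1.add (f2.mul hc2')
    have k3 := k2.add (f3.mul hc3')
    have k4 := k3.add (g0.mul hd0')
    have k5 := k4.add (g1.mul hd1')
    have k6 := k5.add (g2.mul hd2')
    have k7 := k6.add (g3.mul hd3')
    exact k7
  obtain ⟨B1, hB1⟩ := hbd
  exact circle_parts hper2 hc2 hs hd hmeas hB1 q

end Pool.Agent.Lib.MP_230119_an.EX
end

section

/-!
# The norms of the coefficient functions: tables
-/

set_option autoImplicit false

open Set Filter Topology MeasureTheory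

namespace Pool.Agent.Lib.MP_230119_an.EX

/-- `i ra` (offset 1) -/
def raT : List (List ℤ) := [[0, 0, -1], [1, 0, -1], [1]]
/-- `i rb` (offset 1) -/
def rbT : List (List ℤ) := [[0, 1, 1], [], [-1, -1]]
/-- `raa` (offset 1) -/
def raaT : List (List ℤ) := [[0, 0, -1], [-1, 0, -1], [-1]]
/-- `rab` (offset 1) -/
def rabT : List (List ℤ) := [[0, 0, 1], [], [1]]
/-- `i raab` (offset 1) -/
def raabT : List (List ℤ) := [[0, 0, -1], [], [1]]
/-- `2 i xa` (offset 2) -/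
def xaT : List (List ℤ) := [[0, 0, 0, -1], [0, 1, 0, 0, -2], [], [2, 0, 0, -1], [0, 1]]
/-- `2 xaa` (offset 2) -/
def xaaT : List (List ℤ) := [[0, 0, 0, -1], [0, -1, 0, 0, -4], [], [-4, 0, 0, -1], [0, -1]]
/-- `2 i xb` (offset 2) -/
def xbT : List (List ℤ) := [[0, 0, 0, 2], [0, 1, 0, 0, 1], [], [-1, 0, 0, -1], [0, -2]]
/-- `2 xab` (offset 2) -/
def xabT : List (List ℤ) := [[0, 0, 0, 2], [0, -1, 0, 0, 2], [], [2, 0, 0, -1], [0, 2]]
/-- `2 i xaab` (offset 2) -/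
def xaabT : List (List ℤ) := [[0, 0, 0, -2], [0, -1, 0, 0, -4], [], [4, 0, 0, 1], [0, 2]]
/-- `i c2` (offset 2) -/
def c2T : List (List ℤ) := add2 (cmul2 [2] (mul2 raT rabT)) (mul2 raaT rbT)
/-- `-i c3` (offset 3) -/
def c3T : List (List ℤ) := mul2 raT (mul2 raT rbT)
/-- `2 i d1` (offset 3) -/
def d1T : List (List ℤ) :=
  add2 (mul2 xaaT rbT) (add2 (cmul2 [2] (mul2 xabT raT)) (add2 (cmul2 [2] (mul2 xaT rabT))
    (add2 (mul2 xbT raaT) (mul2 chiT raabT))))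
/-- `2 i d2` (offset 4) -/
def d2T : List (List ℤ) :=
  add2 (cmul2 [-2] (mul2 xaT (mul2 raT rbT))) (add2 (cmul2 [-1] (mul2 xbT (mul2 raT raT)))
    (mul2 chiT c2T))
/-- `-2 i d3` (offset 5) -/
def d3T : List (List ℤ) := mul2 chiT c3T

/-- all rows have length `≤ m` -/
def rowsLe (m : ℕ) : List (List ℤ) → Bool
  | [] => true
  | l :: T => decide (l.length ≤ m) && rowsLe m T

theorem norm_tab : cT 2 (mul2 raabT raabT) 0 0 = -2 ∧ cT 4 (mul2 c2T c2T) 0 0 = -46 ∧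
    cT 6 (mul2 c3T c3T) 0 0 = -164 ∧ cT 4 (mul2 xaabT xaabT) 0 0 = -42 ∧
    cT 6 (mul2 d1T d1T) 0 0 = -968 ∧ cT 8 (mul2 d2T d2T) 0 0 = -1918 ∧
    cT 10 (mul2 d3T d3T) 0 0 = -574 := by
  decide +kernel

theorem norm_len : (mul2 raabT raabT).length ≤ 30 ∧ rowsLe 30 (mul2 raabT raabT) = true ∧
    (mul2 c2T c2T).length ≤ 30 ∧ rowsLe 30 (mul2 c2T c2T) = true ∧
    (mul2 c3T c3T).length ≤ 30 ∧ rowsLe 30 (mul2 c3T c3T) = true ∧
    (mul2 xaabT xaabT).length ≤ 30 ∧ rowsLe 30 (mul2 xaabT xaabT) = true ∧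
    (mul2 d1T d1T).length ≤ 30 ∧ rowsLe 30 (mul2 d1T d1T) = true ∧
    (mul2 d2T d2T).length ≤ 30 ∧ rowsLe 30 (mul2 d2T d2T) = true ∧
    (mul2 d3T d3T).length ≤ 30 ∧ rowsLe 30 (mul2 d3T d3T) = true := by
  decide +kernel

end Pool.Agent.Lib.MP_230119_an.EX
end

section

/-!
# Tables of the derivatives
-/

set_option autoImplicit false

open Set Filter Topology MeasureTheory

namespace Pool.Agent.Lib.MP_230119_an.EX

theorem T07a_cos (t : ℝ) {E : ℂ} (hE : Complex.exp ((t : ℂ) * Complex.I) = E) :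
    ((Real.cos t : ℝ) : ℂ) = (E + E⁻¹) / 2 := by
  subst hE
  rw [← Complex.exp_neg, Complex.ofReal_cos, Complex.cos]
  congr 3
  ring

theorem T07a_sin (t : ℝ) {E : ℂ} (hE : Complex.exp ((t : ℂ) * Complex.I) = E) :
    Complex.I * ((Real.sin t : ℝ) : ℂ) = (E - E⁻¹) / 2 := by
  subst hE
  rw [← Complex.exp_neg, Complex.ofReal_sin, Complex.sin]
  have h : Complex.I * ((Complex.exp (-(t : ℂ) * Complex.I) - Complex.exp ((t : ℂ) * Complex.I))
      * Complex.I / 2) = (Complex.I * Complex.I) *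
      ((Complex.exp (-(t : ℂ) * Complex.I) - Complex.exp ((t : ℂ) * Complex.I)) / 2) := by ring
  rw [h, Complex.I_mul_I]
  have h2 : -((t : ℂ) * Complex.I) = -(t : ℂ) * Complex.I := by ring
  rw [h2]
  ring

/-- all exponentials in terms of two -/
theorem T07a_exp (a b c : ℝ) : ∃ x y : ℂ, x ≠ 0 ∧ y ≠ 0 ∧
    Complex.exp (((a - c : ℝ) : ℂ) * Complex.I) = x ∧
    Complex.exp (((b - c : ℝ) : ℂ) * Complex.I) = y ∧
    Complex.exp (((a - b : ℝ) : ℂ) * Complex.I) = x / y ∧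
    Complex.exp (((c - a : ℝ) : ℂ) * Complex.I) = 1 / x ∧
    Complex.exp (((2 * a - b - c : ℝ) : ℂ) * Complex.I) = x ^ 2 / y ∧
    Complex.exp (((2 * b - c - a : ℝ) : ℂ) * Complex.I) = y ^ 2 / x ∧
    Complex.exp (((2 * c - a - b : ℝ) : ℂ) * Complex.I) = 1 / (x * y) := by
  refine ⟨_, _, Complex.exp_ne_zero _, Complex.exp_ne_zero _, rfl, rfl, ?_, ?_, ?_, ?_, ?_⟩
  · rw [← Complex.exp_sub]; congr 1; push_cast; ring
  · rw [one_div, ← Complex.exp_neg]; congr 1; push_cast; ring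
  · rw [← Complex.exp_nat_mul, ← Complex.exp_sub]; congr 1; push_cast; ring
  · rw [← Complex.exp_nat_mul, ← Complex.exp_sub]; congr 1; push_cast; ring
  · rw [← Complex.exp_add, one_div, ← Complex.exp_neg]; congr 1; push_cast; ring

/-- `tf` with offset `1` -/
theorem T07a_tf1 (T : List (List ℤ)) (a b c : ℝ) {x y : ℂ}
    (h1 : Complex.exp (((a - c : ℝ) : ℂ) * Complex.I) = x)
    (h2 : Complex.exp (((b - c : ℝ) : ℂ) * Complex.I) = y) :
    tf 1 T a b c = ev2 T x y / (x * y) := by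
  rw [tf, h1, h2, div_eq_mul_inv]
  congr 1
  rw [← h1, ← h2, ← Complex.exp_add, ← Complex.exp_neg]
  congr 1
  push_cast
  ring

/-- `tf` with offset `2` -/
theorem T07a_tf2 (T : List (List ℤ)) (a b c : ℝ) {x y : ℂ}
    (h1 : Complex.exp (((a - c : ℝ) : ℂ) * Complex.I) = x)
    (h2 : Complex.exp (((b - c : ℝ) : ℂ) * Complex.I) = y) :
    tf 2 T a b c = ev2 T x y / (x * y) ^ 2 := by
  rw [tf, h1, h2, div_eq_mul_inv]
  congr 1
  rw [← h1, ← h2, ← Complex.exp_add, ← Complex.exp_nat_mul, ← Complex.exp_neg]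
  congr 1
  push_cast
  ring

theorem tf_ra (a b c : ℝ) : tf 1 raT a b c = Complex.I * ra a b c := by
  obtain ⟨x, y, hx, hy, h1, h2, h3, h4, h5, h6, h7⟩ := T07a_exp a b c
  rw [T07a_tf1 _ a b c h1 h2]
  have s1 := T07a_sin _ h3
  have s3 := T07a_sin _ h4
  simp only [raT, ev2, evC, ra]
  push_cast
  push_cast at s1 s3
  linear_combination (norm := skip) 2 * s1 - 2 * s3
  field_simp
  ring

theorem tf_rb (a b c : ℝ) : tf 1 rbT a b c = Complex.I * rb a b c := by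
  obtain ⟨x, y, hx, hy, h1, h2, h3, h4, h5, h6, h7⟩ := T07a_exp a b c
  rw [T07a_tf1 _ a b c h1 h2]
  have s1 := T07a_sin _ h3
  have s2 := T07a_sin _ h2
  simp only [rbT, ev2, evC, rb]
  push_cast
  push_cast at s1 s2
  linear_combination (norm := skip) -2 * s1 + 2 * s2
  field_simp
  ring

theorem tf_raa (a b c : ℝ) : tf 1 raaT a b c = raa a b c := by
  obtain ⟨x, y, hx, hy, h1, h2, h3, h4, h5, h6, h7⟩ := T07a_exp a b c
  rw [T07a_tf1 _ a b c h1 h2]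
  have s1 := T07a_cos _ h3
  have s3 := T07a_cos _ h4
  simp only [raaT, ev2, evC, raa]
  push_cast
  push_cast at s1 s3
  linear_combination (norm := skip) 2 * s1 + 2 * s3
  field_simp
  ring

theorem tf_rab (a b c : ℝ) : tf 1 rabT a b c = rab a b c := by
  obtain ⟨x, y, hx, hy, h1, h2, h3, h4, h5, h6, h7⟩ := T07a_exp a b c
  rw [T07a_tf1 _ a b c h1 h2]
  have s1 := T07a_cos _ h3
  simp only [rabT, ev2, evC, rab]
  push_cast
  push_cast at s1
  linear_combination (norm := skip) -2 * s1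
  field_simp
  ring

theorem tf_raab (a b c : ℝ) : tf 1 raabT a b c = Complex.I * raab a b c := by
  obtain ⟨x, y, hx, hy, h1, h2, h3, h4, h5, h6, h7⟩ := T07a_exp a b c
  rw [T07a_tf1 _ a b c h1 h2]
  have s1 := T07a_sin _ h3
  simp only [raabT, ev2, evC, raab]
  push_cast
  push_cast at s1
  linear_combination (norm := skip) 2 * s1
  field_simp
  ring

theorem tf_xa (a b c : ℝ) : tf 2 xaT a b c = 2 * Complex.I * xa a b c := by
  obtain ⟨x, y, hx, hy, h1, h2, h3, h4, h5, h6, h7⟩ := T07a_exp a b c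
  rw [T07a_tf2 _ a b c h1 h2]
  have s1 := T07a_sin _ h5
  have s2 := T07a_sin _ h6
  have s3 := T07a_sin _ h7
  simp only [xaT, ev2, evC, xa]
  push_cast
  push_cast at s1 s2 s3
  linear_combination (norm := skip) 4 * s1 - 2 * s2 - 2 * s3
  field_simp
  ring

theorem tf_xaa (a b c : ℝ) : tf 2 xaaT a b c = 2 * xaa a b c := by
  obtain ⟨x, y, hx, hy, h1, h2, h3, h4, h5, h6, h7⟩ := T07a_exp a b c
  rw [T07a_tf2 _ a b c h1 h2]
  have s1 := T07a_cos _ h5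
  have s2 := T07a_cos _ h6
  have s3 := T07a_cos _ h7
  simp only [xaaT, ev2, evC, xaa]
  push_cast
  push_cast at s1 s2 s3
  linear_combination (norm := skip) 8 * s1 + 2 * s2 + 2 * s3
  field_simp
  ring

theorem tf_xb (a b c : ℝ) : tf 2 xbT a b c = 2 * Complex.I * xb a b c := by
  obtain ⟨x, y, hx, hy, h1, h2, h3, h4, h5, h6, h7⟩ := T07a_exp a b c
  rw [T07a_tf2 _ a b c h1 h2]
  have s1 := T07a_sin _ h5
  have s2 := T07a_sin _ h6
  have s3 := T07a_sin _ h7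
  simp only [xbT, ev2, evC, xb]
  push_cast
  push_cast at s1 s2 s3
  linear_combination (norm := skip) -2 * s1 + 4 * s2 - 2 * s3
  field_simp
  ring

theorem tf_xab (a b c : ℝ) : tf 2 xabT a b c = 2 * xab a b c := by
  obtain ⟨x, y, hx, hy, h1, h2, h3, h4, h5, h6, h7⟩ := T07a_exp a b c
  rw [T07a_tf2 _ a b c h1 h2]
  have s1 := T07a_cos _ h5
  have s2 := T07a_cos _ h6
  have s3 := T07a_cos _ h7
  simp only [xabT, ev2, evC, xab]
  push_cast
  push_cast at s1 s2 s3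
  linear_combination (norm := skip) -4 * s1 - 4 * s2 + 2 * s3
  field_simp
  ring

theorem tf_xaab (a b c : ℝ) : tf 2 xaabT a b c = 2 * Complex.I * xaab a b c := by
  obtain ⟨x, y, hx, hy, h1, h2, h3, h4, h5, h6, h7⟩ := T07a_exp a b c
  rw [T07a_tf2 _ a b c h1 h2]
  have s1 := T07a_sin _ h5
  have s2 := T07a_sin _ h6
  have s3 := T07a_sin _ h7
  simp only [xaabT, ev2, evC, xaab]
  push_cast
  push_cast at s1 s2 s3
  linear_combination (norm := skip) 8 * s1 - 4 * s2 + 2 * s3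
  field_simp
  ring

end Pool.Agent.Lib.MP_230119_an.EX
end

section

/-!
# The norms of the coefficient functions
-/

set_option autoImplicit false

open Set Filter Topology MeasureTheory

namespace Pool.Agent.Lib.MP_230119_an.EX

theorem T07b_rowsLe {m : ℕ} {T : List (List ℤ)} (h : rowsLe m T = true) :
    ∀ l ∈ T, l.length ≤ m := by
  induction T with
  | nil => intro l hl; exact absurd hl (List.not_mem_nil)
  | cons a T ih =>
    simp only [rowsLe, Bool.and_eq_true, decide_eq_true_eq] at h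
    intro l hl
    rcases List.mem_cons.1 hl with hl | hl
    · rw [hl]; exact h.1
    · exact ih h.2 l hl

/-- general principle: `w * tf N T = i f` (`f` real) with `w = 1, -1, 1/2, -1/2` -/
theorem norm_gen {f : ℝ → ℝ → ℝ → ℝ} (N : ℕ) (T : List (List ℤ)) (w : ℝ)
    (hf : ∀ a b c, tf N T a b c = w * Complex.I * f a b c)
    (h1 : (mul2 T T).length ≤ 30) (h2 : rowsLe 30 (mul2 T T) = true) :
    w ^ 2 * ∫ z, (f z.1 z.2.1 z.2.2) ^ 2 ∂mc3
      = -(cT (N + N) (mul2 T T) 0 0 : ℝ) * (2 * Real.pi) ^ 3 := by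
  have h3 := cfC_tf (N + N) 30 (mul2 T T) h1 (T07b_rowsLe h2) 0 0 0
  rw [if_pos (by norm_num), cfC] at h3
  have h4 : ∀ z : ℝ × ℝ × ℝ, tf (N + N) (mul2 T T) z.1 z.2.1 z.2.2 * ch (-0) (-0) (-0) z
      = ((-(w ^ 2 * (f z.1 z.2.1 z.2.2) ^ 2) : ℝ) : ℂ) := by
    intro z
    rw [tf_mul, hf]
    have h5 : ch (-0) (-0) (-0) z = 1 := by
      simp [ch]
    rw [h5]
    push_cast
    have h6 : Complex.I ^ 2 = -1 := Complex.I_sq
    linear_combination (w : ℂ) ^ 2 * (f z.1 z.2.1 z.2.2 : ℂ) ^ 2 * h6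
  have h7 : (∫ z, tf (N + N) (mul2 T T) z.1 z.2.1 z.2.2 * ch (-0) (-0) (-0) z ∂mc3)
      = ((∫ z, (-(w ^ 2 * (f z.1 z.2.1 z.2.2) ^ 2) : ℝ) ∂mc3 : ℝ) : ℂ) := by
    rw [← integral_complex_ofReal]
    exact integral_congr_ae (Eventually.of_forall h4)
  rw [h7, integral_neg, integral_const_mul] at h3
  have hpi : ((2 * Real.pi) ^ 3 : ℝ) ≠ 0 := by positivity
  have h8 : (-(w ^ 2 * ∫ z, (f z.1 z.2.1 z.2.2) ^ 2 ∂mc3)) / ((2 * Real.pi) ^ 3 : ℝ)
      = (cT (N + N) (mul2 T T) 0 0 : ℝ) := by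
    exact_mod_cast h3
  rw [div_eq_iff hpi] at h8
  linarith

theorem T07b_c2 (a b c : ℝ) : tf 2 c2T a b c = Complex.I * c2 a b c := by
  have e1 : tf 2 (mul2 raT rabT) a b c = tf 1 raT a b c * tf 1 rabT a b c :=
    tf_mul 1 1 raT rabT a b c
  have e2 : tf 2 (mul2 raaT rbT) a b c = tf 1 raaT a b c * tf 1 rbT a b c :=
    tf_mul 1 1 raaT rbT a b c
  rw [c2T, tf_add, tf_cmul, e1, e2, tf_ra, tf_rab, tf_raa, tf_rb, c2]
  push_cast
  ring

theorem T07b_c3 (a b c : ℝ) : tf 3 c3T a b c = -1 * Complex.I * c3 a b c := by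
  have e1 : tf 2 (mul2 raT rbT) a b c = tf 1 raT a b c * tf 1 rbT a b c :=
    tf_mul 1 1 raT rbT a b c
  have e2 : tf 3 (mul2 raT (mul2 raT rbT)) a b c
      = tf 1 raT a b c * tf 2 (mul2 raT rbT) a b c :=
    tf_mul 1 2 raT (mul2 raT rbT) a b c
  rw [c3T, e2, e1, tf_ra, tf_rb, c3]
  push_cast
  linear_combination (Complex.I * (ra a b c : ℂ) ^ 2 * rb a b c) * Complex.I_sq

theorem T07b_d1 (a b c : ℝ) : tf 3 d1T a b c = 2 * Complex.I * d1 a b c := by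
  have e1 : tf 3 (mul2 xaaT rbT) a b c = tf 2 xaaT a b c * tf 1 rbT a b c :=
    tf_mul 2 1 xaaT rbT a b c
  have e2 : tf 3 (mul2 xabT raT) a b c = tf 2 xabT a b c * tf 1 raT a b c :=
    tf_mul 2 1 xabT raT a b c
  have e3 : tf 3 (mul2 xaT rabT) a b c = tf 2 xaT a b c * tf 1 rabT a b c :=
    tf_mul 2 1 xaT rabT a b c
  have e4 : tf 3 (mul2 xbT raaT) a b c = tf 2 xbT a b c * tf 1 raaT a b c :=
    tf_mul 2 1 xbT raaT a b c
  have e5 : tf 3 (mul2 chiT raabT) a b c = tf 2 chiT a b c * tf 1 raabT a b c :=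
    tf_mul 2 1 chiT raabT a b c
  rw [d1T, tf_add, tf_add, tf_add, tf_add, tf_cmul, tf_cmul, e1, e2, e3, e4, e5, tf_xaa, tf_rb,
    tf_xab, tf_ra, tf_xa, tf_rab, tf_xb, tf_raa, tf_chi, tf_raab, d1]
  push_cast
  ring

theorem T07b_d2 (a b c : ℝ) : tf 4 d2T a b c = 2 * Complex.I * d2 a b c := by
  have e1 : tf 2 (mul2 raT rbT) a b c = tf 1 raT a b c * tf 1 rbT a b c :=
    tf_mul 1 1 raT rbT a b c
  have e2 : tf 4 (mul2 xaT (mul2 raT rbT)) a b c
      = tf 2 xaT a b c * tf 2 (mul2 raT rbT) a b c :=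
    tf_mul 2 2 xaT (mul2 raT rbT) a b c
  have e3 : tf 2 (mul2 raT raT) a b c = tf 1 raT a b c * tf 1 raT a b c :=
    tf_mul 1 1 raT raT a b c
  have e4 : tf 4 (mul2 xbT (mul2 raT raT)) a b c
      = tf 2 xbT a b c * tf 2 (mul2 raT raT) a b c :=
    tf_mul 2 2 xbT (mul2 raT raT) a b c
  have e5 : tf 4 (mul2 chiT c2T) a b c = tf 2 chiT a b c * tf 2 c2T a b c :=
    tf_mul 2 2 chiT c2T a b c
  rw [d2T, tf_add, tf_add, tf_cmul, tf_cmul, e2, e1, e4, e3, e5, T07b_c2, tf_xa, tf_ra,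
    tf_rb, tf_xb, tf_chi, d2]
  push_cast
  linear_combination (-4 * Complex.I * (xa a b c : ℂ) * ra a b c * rb a b c
    - 2 * Complex.I * (xb a b c : ℂ) * (ra a b c : ℂ) ^ 2) * Complex.I_sq

theorem T07b_d3 (a b c : ℝ) : tf 5 d3T a b c = -2 * Complex.I * d3 a b c := by
  have e1 : tf 5 (mul2 chiT c3T) a b c = tf 2 chiT a b c * tf 3 c3T a b c :=
    tf_mul 2 3 chiT c3T a b c
  rw [d3T, e1, T07b_c3, tf_chi, d3]
  push_cast
  ring

theorem norm_c1 : ∫ z, (c1 z.1 z.2.1 z.2.2) ^ 2 ∂mc3 = 2 * (2 * Real.pi) ^ 3 := by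
  have h := norm_gen (f := c1) 1 raabT 1 (fun a b c => by rw [tf_raab, c1]; push_cast; ring)
    norm_len.1 norm_len.2.1
  have h2 : cT (1 + 1) (mul2 raabT raabT) 0 0 = -2 := norm_tab.1
  rw [h2] at h
  push_cast at h
  linarith

theorem norm_c2 : ∫ z, (c2 z.1 z.2.1 z.2.2) ^ 2 ∂mc3 = 46 * (2 * Real.pi) ^ 3 := by
  have h := norm_gen (f := c2) 2 c2T 1 (fun a b c => by rw [T07b_c2]; push_cast; ring)
    norm_len.2.2.1 norm_len.2.2.2.1
  have h2 : cT (2 + 2) (mul2 c2T c2T) 0 0 = -46 := norm_tab.2.1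
  rw [h2] at h
  push_cast at h
  linarith

theorem norm_c3 : ∫ z, (c3 z.1 z.2.1 z.2.2) ^ 2 ∂mc3 = 164 * (2 * Real.pi) ^ 3 := by
  have h := norm_gen (f := c3) 3 c3T (-1) (fun a b c => by rw [T07b_c3]; push_cast; ring)
    norm_len.2.2.2.2.1 norm_len.2.2.2.2.2.1
  have h2 : cT (3 + 3) (mul2 c3T c3T) 0 0 = -164 := norm_tab.2.2.1
  rw [h2] at h
  push_cast at h
  linarith

theorem norm_d0 : ∫ z, (d0 z.1 z.2.1 z.2.2) ^ 2 ∂mc3 = 21 / 2 * (2 * Real.pi) ^ 3 := by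
  have h := norm_gen (f := d0) 2 xaabT 2 (fun a b c => by rw [tf_xaab, d0]; push_cast; ring)
    norm_len.2.2.2.2.2.2.1 norm_len.2.2.2.2.2.2.2.1
  have h2 : cT (2 + 2) (mul2 xaabT xaabT) 0 0 = -42 := norm_tab.2.2.2.1
  rw [h2] at h
  push_cast at h
  linarith

theorem norm_d1 : ∫ z, (d1 z.1 z.2.1 z.2.2) ^ 2 ∂mc3 = 242 * (2 * Real.pi) ^ 3 := by
  have h := norm_gen (f := d1) 3 d1T 2 (fun a b c => by rw [T07b_d1]; push_cast; ring)
    norm_len.2.2.2.2.2.2.2.2.1 norm_len.2.2.2.2.2.2.2.2.2.1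
  have h2 : cT (3 + 3) (mul2 d1T d1T) 0 0 = -968 := norm_tab.2.2.2.2.1
  rw [h2] at h
  push_cast at h
  linarith

theorem norm_d2 : ∫ z, (d2 z.1 z.2.1 z.2.2) ^ 2 ∂mc3 = 959 / 2 * (2 * Real.pi) ^ 3 := by
  have h := norm_gen (f := d2) 4 d2T 2 (fun a b c => by rw [T07b_d2]; push_cast; ring)
    norm_len.2.2.2.2.2.2.2.2.2.2.1 norm_len.2.2.2.2.2.2.2.2.2.2.2.1
  have h2 : cT (4 + 4) (mul2 d2T d2T) 0 0 = -1918 := norm_tab.2.2.2.2.2.1
  rw [h2] at h
  push_cast at h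
  linarith

theorem norm_d3 : ∫ z, (d3 z.1 z.2.1 z.2.2) ^ 2 ∂mc3 = 287 / 2 * (2 * Real.pi) ^ 3 := by
  have h := norm_gen (f := d3) 5 d3T (-2) (fun a b c => by rw [T07b_d3]; push_cast; ring)
    norm_len.2.2.2.2.2.2.2.2.2.2.2.2.1 norm_len.2.2.2.2.2.2.2.2.2.2.2.2.2
  have h2 : cT (5 + 5) (mul2 d3T d3T) 0 0 = -574 := norm_tab.2.2.2.2.2.2
  rw [h2] at h
  push_cast at h
  linarith

end Pool.Agent.Lib.MP_230119_an.EX
end

section

/-!
# Gluing at 0
-/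

set_option autoImplicit false

open Set Filter Topology

namespace Pool.Agent.Lib.MP_230119_an.EX

theorem B05a_mem_pos : Ioo (0 : ℝ) 8 ∈ 𝓝[>] (0 : ℝ) := Ioo_mem_nhdsGT (by norm_num)

theorem B05a_mem_neg : Ioo (-1 : ℝ) 0 ∈ 𝓝[<] (0 : ℝ) := Ioo_mem_nhdsLT (by norm_num)

/-- extension of the derivative to `0` -/
theorem B05a_step {f f' : ℝ → ℝ} {v : ℝ}
    (h : ∀ x ∈ Ioo (-1 : ℝ) 8, x ≠ 0 → HasDerivAt f (f' x) x) (hc : ContinuousAt f 0)
    (hl : Tendsto f' (𝓝[≠] 0) (𝓝 v)) : HasDerivAt f v 0 := by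
  have hpos : ∀ x ∈ Ioo (0 : ℝ) 8, HasDerivAt f (f' x) x := fun x hx =>
    h x ⟨by linarith [hx.1], hx.2⟩ (ne_of_gt hx.1)
  have hneg : ∀ x ∈ Ioo (-1 : ℝ) 0, HasDerivAt f (f' x) x := fun x hx =>
    h x ⟨hx.1, by linarith [hx.2]⟩ (ne_of_lt hx.2)
  have h1 : HasDerivWithinAt f v (Ici 0) 0 := by
    refine hasDerivWithinAt_Ici_of_tendsto_deriv (s := Ioo (0 : ℝ) 8)
      (fun x hx => (hpos x hx).differentiableAt.differentiableWithinAt)
      hc.continuousWithinAt B05a_mem_pos ?_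
    have h2 : Tendsto f' (𝓝[>] 0) (𝓝 v) :=
      hl.mono_left (nhdsWithin_mono _ (fun x hx => ne_of_gt hx))
    refine h2.congr' ?_
    filter_upwards [B05a_mem_pos] with x hx
    exact (hpos x hx).deriv.symm
  have h2 : HasDerivWithinAt f v (Iic 0) 0 := by
    refine hasDerivWithinAt_Iic_of_tendsto_deriv (s := Ioo (-1 : ℝ) 0)
      (fun x hx => (hneg x hx).differentiableAt.differentiableWithinAt)
      hc.continuousWithinAt B05a_mem_neg ?_
    have h2 : Tendsto f' (𝓝[<] 0) (𝓝 v) :=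
      hl.mono_left (nhdsWithin_mono _ (fun x hx => ne_of_lt hx))
    refine h2.congr' ?_
    filter_upwards [B05a_mem_neg] with x hx
    exact (hneg x hx).deriv.symm
  have h3 := h1.union h2
  rw [Ici_union_Iic, hasDerivWithinAt_univ] at h3
  exact h3

theorem B05a_mem : Ioo (-1 : ℝ) 8 ∈ 𝓝 (0 : ℝ) := Ioo_mem_nhds (by norm_num) (by norm_num)

theorem B05a_bound {f : ℝ → ℝ} {v S : ℝ} (h : ∀ x ∈ Ioo (-1 : ℝ) 8, x ≠ 0 → |f x| ≤ S)
    (hl : Tendsto f (𝓝[≠] 0) (𝓝 v)) : |v| ≤ S := by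
  refine le_of_tendsto hl.abs ?_
  filter_upwards [mem_nhdsWithin_of_mem_nhds B05a_mem, self_mem_nhdsWithin] with x hx hx0
  exact h x hx hx0

/-- gluing at `0` -/
theorem glue {F A1 A2 A3 : ℝ → ℝ} {S0 S1 S2 S3 f0 a1 a2 : ℝ} (hm : Measurable F)
    (h1 : ∀ x ∈ Ioo (-1 : ℝ) 8, x ≠ 0 → HasDerivAt F (A1 x) x)
    (h2 : ∀ x ∈ Ioo (-1 : ℝ) 8, x ≠ 0 → HasDerivAt A1 (A2 x) x)
    (h3 : ∀ x ∈ Ioo (-1 : ℝ) 8, x ≠ 0 → HasDerivAt A2 (A3 x) x)
    (b0 : ∀ x ∈ Ioo (-1 : ℝ) 8, x ≠ 0 → |F x| ≤ S0)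
    (b1 : ∀ x ∈ Ioo (-1 : ℝ) 8, x ≠ 0 → |A1 x| ≤ S1)
    (b2 : ∀ x ∈ Ioo (-1 : ℝ) 8, x ≠ 0 → |A2 x| ≤ S2)
    (b3 : ∀ x ∈ Ioo (-1 : ℝ) 8, x ≠ 0 → |A3 x| ≤ S3)
    (l0 : Tendsto F (𝓝[≠] 0) (𝓝 f0)) (l1 : Tendsto A1 (𝓝[≠] 0) (𝓝 a1))
    (l2 : Tendsto A2 (𝓝[≠] 0) (𝓝 a2)) :
    ∃ G0 G1 G2 G3 : ℝ → ℝ, (∀ x, x ≠ 0 → G0 x = F x) ∧ C3b G0 G1 G2 G3 S0 S1 S2 S3 := by
  classical
  set G0 : ℝ → ℝ := fun x => if x = 0 then f0 else F x with hG0
  have e0 : ∀ x, x ≠ 0 → G0 x = F x := fun x hx => if_neg hx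
  have e00 : G0 0 = f0 := if_pos rfl
  have hne : ∀ x : ℝ, x ≠ 0 → {y : ℝ | y ≠ 0} ∈ 𝓝 x := fun x hx => isOpen_ne.mem_nhds hx
  -- G0
  have d1' : ∀ x ∈ Ioo (-1 : ℝ) 8, x ≠ 0 → HasDerivAt G0 (A1 x) x := by
    intro x hx hx0
    refine (h1 x hx hx0).congr_of_eventuallyEq ?_
    filter_upwards [hne x hx0] with y hy
    exact e0 y hy
  have c0 : ContinuousAt G0 0 := by
    rw [continuousAt_iff_punctured_nhds, e00]
    refine l0.congr' ?_
    filter_upwards [self_mem_nhdsWithin] with x hx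
    exact (e0 x hx).symm
  have d10 : HasDerivAt G0 a1 0 := B05a_step d1' c0 l1
  -- G1
  set G1 : ℝ → ℝ := deriv G0 with hG1
  have e1 : ∀ x ∈ Ioo (-1 : ℝ) 8, x ≠ 0 → G1 x = A1 x := fun x hx hx0 => (d1' x hx hx0).deriv
  have e10 : G1 0 = a1 := d10.deriv
  have ev : ∀ x ∈ Ioo (-1 : ℝ) 8, x ≠ 0 → ∀ᶠ y in 𝓝 x, y ∈ Ioo (-1 : ℝ) 8 ∧ y ≠ 0 :=
    fun x hx hx0 => Filter.inter_mem (isOpen_Ioo.mem_nhds hx) (hne x hx0)
  have ev0 : ∀ᶠ y in 𝓝[≠] (0 : ℝ), y ∈ Ioo (-1 : ℝ) 8 ∧ y ≠ 0 :=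
    Filter.inter_mem (mem_nhdsWithin_of_mem_nhds B05a_mem) self_mem_nhdsWithin
  have d2' : ∀ x ∈ Ioo (-1 : ℝ) 8, x ≠ 0 → HasDerivAt G1 (A2 x) x := by
    intro x hx hx0
    refine (h2 x hx hx0).congr_of_eventuallyEq ?_
    filter_upwards [ev x hx hx0] with y hy
    exact e1 y hy.1 hy.2
  have c1 : ContinuousAt G1 0 := by
    rw [continuousAt_iff_punctured_nhds, e10]
    refine l1.congr' ?_
    filter_upwards [ev0] with x hx
    exact (e1 x hx.1 hx.2).symm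
  have d20 : HasDerivAt G1 a2 0 := B05a_step d2' c1 l2
  -- G2
  set G2 : ℝ → ℝ := deriv G1 with hG2
  have e2 : ∀ x ∈ Ioo (-1 : ℝ) 8, x ≠ 0 → G2 x = A2 x := fun x hx hx0 => (d2' x hx hx0).deriv
  have e20 : G2 0 = a2 := d20.deriv
  have d3' : ∀ x ∈ Ioo (-1 : ℝ) 8, x ≠ 0 → HasDerivAt G2 (A3 x) x := by
    intro x hx hx0
    refine (h3 x hx hx0).congr_of_eventuallyEq ?_
    filter_upwards [ev x hx hx0] with y hy
    exact e2 y hy.1 hy.2
  have c2 : ContinuousAt G2 0 := by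
    rw [continuousAt_iff_punctured_nhds, e20]
    refine l2.congr' ?_
    filter_upwards [ev0] with x hx
    exact (e2 x hx.1 hx.2).symm
  set G3 : ℝ → ℝ := deriv G2 with hG3
  have e3 : ∀ x ∈ Ioo (-1 : ℝ) 8, x ≠ 0 → G3 x = A3 x := fun x hx hx0 => (d3' x hx hx0).deriv
  refine ⟨G0, G1, G2, G3, e0, ?_⟩
  constructor
  · exact Measurable.ite (measurableSet_singleton 0) measurable_const hm
  · exact measurable_deriv G0
  · exact measurable_deriv G1
  · exact measurable_deriv G2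
  · intro x hx
    by_cases hx0 : x = 0
    · rw [hx0, e10]; exact d10
    · rw [e1 x hx hx0]; exact d1' x hx hx0
  · intro x hx
    by_cases hx0 : x = 0
    · rw [hx0, e20]; exact d20
    · rw [e2 x hx hx0]; exact d2' x hx hx0
  · intro x hx
    by_cases hx0 : x = 0
    · rw [hx0]; exact c2.continuousWithinAt
    · exact (d3' x hx hx0).continuousAt.continuousWithinAt
  · intro x hx hx0
    rw [e3 x hx hx0]; exact d3' x hx hx0
  · intro x hx
    by_cases hx0 : x = 0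
    · rw [hx0, e00]; exact B05a_bound b0 l0
    · rw [e0 x hx0]; exact b0 x hx hx0
  · intro x hx
    by_cases hx0 : x = 0
    · rw [hx0, e10]; exact B05a_bound b1 l1
    · rw [e1 x hx hx0]; exact b1 x hx hx0
  · intro x hx
    by_cases hx0 : x = 0
    · rw [hx0, e20]; exact B05a_bound b2 l2
    · rw [e2 x hx hx0]; exact b2 x hx hx0
  · intro x hx hx0
    rw [e3 x hx hx0]; exact b3 x hx hx0

end Pool.Agent.Lib.MP_230119_an.EX
end
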