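import Mathlib
import Pool.Agent.Lib.MP_230119_an.EX.Def
import Pool.Agent.Lib.MP_230119_an.EX.B02c

section

/-!
# A small verified engine for bounds of `a(x) log x + b(x)`, `a`, `b` integer polynomials
-/

set_option autoImplicit false

open Set

namespace Pool.Agent.Lib.MP_230119_an.EX

/-- evaluation of an integer polynomial, low degree first -/
def ev : List ℤ → ℝ → ℝ
  | [], _ => 0
  | c :: l, x => (c : ℝ) + x * ev l x

/-- sum -/
def addL : List ℤ → List ℤ → List ℤ
  | [], m => m
  | l, [] => l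
  | a :: l, b :: m => (a + b) :: addL l m

/-- scalar multiple -/
def smulL (c : ℤ) : List ℤ → List ℤ
  | [] => []
  | a :: l => (c * a) :: smulL c l

/-- product -/
def mulL : List ℤ → List ℤ → List ℤ
  | [], _ => []
  | a :: l, m => addL (smulL a m) (0 :: mulL l m)

/-- auxiliary for the derivative: multiplies the coefficients by `n, n+1, ...` -/
def derA : ℤ → List ℤ → List ℤ
  | _, [] => []
  | n, a :: l => (n * a) :: derA (n + 1) l

/-- derivative -/
def derL : List ℤ → List ℤ
  | [] => []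
  | _ :: l => derA 1 l

/-- tail -/
def tlL : List ℤ → List ℤ
  | [] => []
  | _ :: l => l

/-- head -/
def hdL : List ℤ → ℤ
  | [] => 0
  | a :: _ => a

/-- sum of the negative coefficients -/
def negs : List ℤ → ℤ
  | [] => 0
  | c :: l => (if c < 0 then c else 0) + negs l

/-- a simple test for being nonnegative on `[0,1]` -/
def tst : List ℤ → Bool
  | [] => true
  | c :: l => decide (0 ≤ c + negs l)

/-- `p(x) ↦ 2^(n-1) p(x/2)`, together with `2^n` -/
def halfL : List ℤ → List ℤ × ℤ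
  | [] => ([], 1)
  | c :: l => match halfL l with
    | (l', w) => ((c * w) :: l', 2 * w)

/-- multiplication by `1 + x`, with an additional constant `c` -/
def opL (c : ℤ) : List ℤ → List ℤ
  | [] => [c]
  | a :: l => (c + a) :: opL a l

/-- `p(x) ↦ p(1+x)` -/
def shL : List ℤ → List ℤ
  | [] => []
  | c :: l => opL c (shL l)

/-- adaptive bisection test for being nonnegative on `[0,1]` -/
def posL : ℕ → List ℤ → Bool
  | 0, p => tst p
  | n + 1, p => tst p || (posL n (halfL p).1 && posL n (shL (halfL p).1))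

/-- `p(x) ↦ m1^(n-1) p (m0 x/m1)`, together with `m1^n` -/
def scL (m0 m1 : ℤ) : ℤ → List ℤ → List ℤ × ℤ
  | _, [] => ([], 1)
  | w0, c :: l => match scL m0 m1 (w0 * m0) l with
    | (l', w) => ((c * w0 * w) :: l', m1 * w)

/-- padding with zeros to the length `n` -/
def padL : ℕ → List ℤ → List ℤ
  | 0, l => l
  | n + 1, [] => 0 :: padL n []
  | n + 1, a :: l => a :: padL n l

/-- sum of the absolute values of the coefficients -/
def absL : List ℤ → ℤ
  | [] => 0
  | c :: l => (if c < 0 then -c else c) + absL l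

lemma ev_nil (x : ℝ) : ev [] x = 0 := rfl
lemma ev_cons (c : ℤ) (l : List ℤ) (x : ℝ) : ev (c :: l) x = (c : ℝ) + x * ev l x := rfl

lemma ev_addL (l m : List ℤ) (x : ℝ) : ev (addL l m) x = ev l x + ev m x := by
  induction l generalizing m with
  | nil => simp [addL, ev]
  | cons a l ih =>
    cases m with
    | nil => simp [addL, ev]
    | cons b m =>
      simp only [addL, ev, ih]
      push_cast
      ring

lemma ev_smulL (c : ℤ) (l : List ℤ) (x : ℝ) : ev (smulL c l) x = c * ev l x := by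
  induction l with
  | nil => simp [smulL, ev]
  | cons a l ih =>
    simp only [smulL, ev, ih]
    push_cast
    ring

lemma ev_mulL (l m : List ℤ) (x : ℝ) : ev (mulL l m) x = ev l x * ev m x := by
  induction l with
  | nil => simp [mulL, ev]
  | cons a l ih =>
    simp only [mulL, ev, ih, ev_addL, ev_smulL]
    push_cast
    ring

lemma ev_derA (n : ℤ) (l : List ℤ) (x : ℝ) :
    HasDerivAt (fun x => ev l x) (ev (derA 1 (tlL l)) x) x ∧
      ev (derA (n + 1) l) x = (n : ℝ) * ev l x + (ev l x + x * ev (derA 1 (tlL l)) x) := by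
  induction l generalizing n with
  | nil => exact ⟨by simpa [ev, derA, tlL] using hasDerivAt_const x (0 : ℝ), by simp [ev, derA, tlL]⟩
  | cons a l ih =>
    have h2 := (ih 0).2
    simp only [zero_add] at h2
    have h1 := (ih 0).1
    constructor
    · have := ((hasDerivAt_id x).mul h1).const_add (a : ℝ)
      simp only [tlL]
      rw [h2]
      refine this.congr_deriv ?_
      simp only [id]
      push_cast
      ring
    · simp only [derA, ev, tlL]
      rw [(ih (n + 1)).2, h2]
      push_cast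
      ring

lemma hasDerivAt_ev (l : List ℤ) (x : ℝ) : HasDerivAt (fun x => ev l x) (ev (derL l) x) x := by
  have := (ev_derA 0 l x).1
  cases l with
  | nil => simpa [derL, derA, tlL] using this
  | cons a l => simpa [derL, tlL] using this

lemma negs_le (l : List ℤ) {x : ℝ} (h0 : 0 ≤ x) (h1 : x ≤ 1) : (negs l : ℝ) ≤ ev l x ∧
    (negs l : ℝ) ≤ x * ev l x := by
  induction l with
  | nil => simp [negs, ev]
  | cons c l ih =>
    have hc : (((if c < 0 then c else 0 : ℤ)) : ℝ) ≤ c ∧ ((if c < 0 then c else 0 : ℤ) : ℝ) ≤ x * c := by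
      split_ifs with h
      · refine ⟨le_refl _, ?_⟩
        have : (c : ℝ) < 0 := by exact_mod_cast h
        nlinarith
      · push Not at h
        have : (0 : ℝ) ≤ c := by exact_mod_cast h
        constructor
        · simpa using this
        · simpa using mul_nonneg h0 this
    have hn : (negs l : ℝ) ≤ 0 := by
      have : ∀ l : List ℤ, negs l ≤ 0 := by
        intro l
        induction l with
        | nil => simp [negs]
        | cons c l ih => simp only [negs]; split_ifs <;> omega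
      exact_mod_cast this l
    simp only [negs, ev]
    push_cast at hc ⊢
    constructor
    · have := ih.2
      linarith [hc.1]
    · have h3 : (negs l : ℝ) ≤ x * (x * ev l x) := by
        have := mul_le_mul_of_nonneg_left ih.2 h0
        nlinarith
      have := hc.2
      nlinarith

lemma tst_sound {l : List ℤ} (h : tst l = true) {x : ℝ} (h0 : 0 ≤ x) (h1 : x ≤ 1) :
    0 ≤ ev l x := by
  cases l with
  | nil => simp [ev]
  | cons c l =>
    simp only [tst, decide_eq_true_eq] at h
    have h2 : (0 : ℝ) ≤ (c : ℝ) + negs l := by exact_mod_cast h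
    simp only [ev]
    linarith [(negs_le l h0 h1).2]

lemma halfL_spec (l : List ℤ) (x : ℝ) : 0 < (halfL l).2 ∧
    2 * ev (halfL l).1 x = ((halfL l).2 : ℝ) * ev l (x / 2) := by
  induction l with
  | nil => simp [halfL, ev]
  | cons c l ih =>
    obtain ⟨h1, h2⟩ := ih
    simp only [halfL, ev]
    constructor
    · linarith
    · push_cast
      linear_combination x * h2

lemma opL_spec (c : ℤ) (l : List ℤ) (x : ℝ) : ev (opL c l) x = c + (1 + x) * ev l x := by
  induction l generalizing c with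
  | nil => simp [opL, ev]
  | cons a l ih =>
    simp only [opL, ev, ih]
    push_cast
    ring

lemma shL_spec (l : List ℤ) (x : ℝ) : ev (shL l) x = ev l (1 + x) := by
  induction l with
  | nil => simp [shL, ev]
  | cons a l ih => simp only [shL, opL_spec, ev, ih]

lemma posL_sound (n : ℕ) (p : List ℤ) (h : posL n p = true) {x : ℝ} (h0 : 0 ≤ x) (h1 : x ≤ 1) :
    0 ≤ ev p x := by
  induction n generalizing p x with
  | zero => exact tst_sound h h0 h1
  | succ n ih =>
    simp only [posL, Bool.or_eq_true, Bool.and_eq_true] at h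
    rcases h with h | ⟨hl, hr⟩
    · exact tst_sound h h0 h1
    · by_cases hx : x ≤ 1 / 2
      · have h3 := ih _ hl (x := 2 * x) (by linarith) (by linarith)
        obtain ⟨h4, h5⟩ := halfL_spec p (2 * x)
        rw [show 2 * x / 2 = x by ring] at h5
        have h6 : (0 : ℝ) < (halfL p).2 := by exact_mod_cast h4
        by_contra h7
        push Not at h7
        nlinarith [mul_neg_of_pos_of_neg h6 h7]
      · push Not at hx
        have h3 := ih _ hr (x := 2 * x - 1) (by linarith) (by linarith)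
        rw [shL_spec] at h3
        obtain ⟨h4, h5⟩ := halfL_spec p (1 + (2 * x - 1))
        rw [show (1 + (2 * x - 1)) / 2 = x by ring] at h5
        have h6 : (0 : ℝ) < (halfL p).2 := by exact_mod_cast h4
        by_contra h7
        push Not at h7
        nlinarith [mul_neg_of_pos_of_neg h6 h7]

lemma scL_snd (m0 m1 w0 : ℤ) (l : List ℤ) : (scL m0 m1 w0 l).2 = m1 ^ l.length := by
  induction l generalizing w0 with
  | nil => simp [scL]
  | cons c l ih =>
    simp only [scL, ih, List.length_cons]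
    ring

lemma scL_spec {m1 : ℤ} (hm : 0 < m1) (m0 w0 : ℤ) (l : List ℤ) (x : ℝ) :
    (m1 : ℝ) * ev (scL m0 m1 w0 l).1 x = (m1 : ℝ) ^ l.length * w0 * ev l (m0 * x / m1) := by
  induction l generalizing w0 with
  | nil => simp [scL, ev]
  | cons c l ih =>
    have hm' : (m1 : ℝ) ≠ 0 := by exact_mod_cast hm.ne'
    have h2 := ih (w0 * m0)
    simp only [scL, ev, scL_snd, List.length_cons]
    push_cast at h2 ⊢
    rw [mul_add, show (m1 : ℝ) * (x * ev (scL m0 m1 (w0 * m0) l).1 x)
      = x * ((m1 : ℝ) * ev (scL m0 m1 (w0 * m0) l).1 x) by ring, h2]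
    field_simp
    ring

lemma padL_ev (n : ℕ) (l : List ℤ) (x : ℝ) : ev (padL n l) x = ev l x := by
  induction n generalizing l with
  | zero => rfl
  | succ n ih =>
    cases l with
    | nil => simp [padL, ev, ih]
    | cons a l => simp [padL, ev, ih]

lemma absL_spec (l : List ℤ) {x : ℝ} (h0 : 0 ≤ x) (h1 : x ≤ 1) : |ev l x| ≤ absL l := by
  induction l with
  | nil => simp [ev, absL]
  | cons c l ih =>
    have hc : (((if c < 0 then -c else c : ℤ)) : ℝ) = |(c : ℝ)| := by
      split_ifs with h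
      · have : (c : ℝ) < 0 := by exact_mod_cast h
        rw [abs_of_neg this]
        push_cast
        ring
      · push Not at h
        have : (0 : ℝ) ≤ c := by exact_mod_cast h
        rw [abs_of_nonneg this]
    simp only [ev, absL]
    push_cast at hc ⊢
    rw [hc]
    refine (abs_add_le _ _).trans (add_le_add le_rfl ?_)
    rw [abs_mul, abs_of_nonneg h0]
    exact (mul_le_of_le_one_left (abs_nonneg _) h1).trans ih

end Pool.Agent.Lib.MP_230119_an.EX
end

section

/-!
# The engine, part 2: `log (1+s)` on `[0,1]` and bounds of `a(x) log x + b(x)`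
-/

set_option autoImplicit false

open Set

namespace Pool.Agent.Lib.MP_230119_an.EX

/-- `T_20(3)` -/
def TN : ℤ := 1023286908188737
/-- `lcm (1,...,20)` -/
def LC : ℤ := 232792560
/-- the denominator of the approximation of the logarithm -/
def PD : ℤ := 238213578971741049396720
/-- numerators of the approximation of `log (1+s)` -/
def PL : List ℤ := [0, 238213578971740816604160, -119106789485777291278080, 79404526315595151390720, -59553394409743868874240, 47642708222742214213632, -39702152958199761469440, 34029404865936642539520, -29768645570052491182080, 26424183108752333864960, -23636157514956788465664, 21042930532720721264640, -18231054440786212945920, 14853646943575426990080, -10903501957989830492160, 6880807668932344283136, -3552731291610859438080, 1419061966478864547840, -407044520741395496960, 74093141904662200320, -6398953164493553664]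
/-- the Chebyshev polynomial `T_20(2s-1)` -/
def TL : List ℤ := [1, -800, 106400, -5617920, 156900480, -2677768192, 30429184000, -243433472000, 1424085811200, -6254808268800, 21002987765760, -54553214976000, 110292369408000, -173752901959680, 212364657950720, -199183403319296, 140552804761600, -72155450572800, 25426206392320, -5497558138880, 549755813888]

/-- sum of the coefficients -/
def sumL : List ℤ → ℤ
  | [] => 0
  | c :: l => c + sumL l

/-- the approximation of `log x` on the octave `x = 2^i(1+s)/2^J` -/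
def LG (i J : ℕ) : List ℤ := addL [((i : ℤ) - J) * sumL PL] PL

/-- equality test -/
def eqL : List ℤ → List ℤ → Bool
  | [], [] => true
  | a :: l, b :: m => decide (a = b) && eqL l m
  | _, _ => false

/-- test on the octave `x = 2^i(1+s)/2^J`, `0 ≤ s ≤ 1` -/
def chkSeg (fuel n J i : ℕ) (a b M : List ℤ) : Bool :=
  let m0 : ℤ := 2 ^ i
  let m1 : ℤ := 2 ^ J
  let a' := shL (scL m0 m1 1 (padL n a)).1
  let b' := shL (scL m0 m1 1 (padL n b)).1
  let M' := shL (scL m0 m1 1 (padL n M)).1
  let f := mulL a' (LG i J)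
  let e : ℤ := -(absL a' * (2 * LC * (i + J + 1)))
  let MM := addL [e] (smulL PD M')
  let bb := smulL PD b'
  posL fuel (addL MM (addL (smulL (-1) bb) (smulL (-1) f))) &&
    posL fuel (addL MM (addL bb f))

/-- test on `(0, 2^(-J)]` -/
def chkZero (fuel n J : ℕ) (a b M : List ℤ) : Bool :=
  let m1 : ℤ := 2 ^ J
  let a' := smulL (7 * J) (scL 1 m1 1 (padL n (tlL a))).1
  let b' := smulL (10 * m1) (scL 1 m1 1 (padL n b)).1
  let M' := smulL (10 * m1) (scL 1 m1 1 (padL n M)).1
  posL fuel (addL M' (addL b' a')) && posL fuel (addL M' (addL b' (smulL (-1) a'))) &&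
    posL fuel (addL M' (addL (smulL (-1) b') a')) &&
      posL fuel (addL M' (addL (smulL (-1) b') (smulL (-1) a')))

/-- all octaves below `k` -/
def chkSegs (fuel n J : ℕ) (a b M : List ℤ) : ℕ → Bool
  | 0 => true
  | k + 1 => chkSeg fuel n J k a b M && chkSegs fuel n J a b M k

/-- the complete test on `(0, 2^(k-J)]` -/
def chkAll (fuel n J k : ℕ) (a b M : List ℤ) : Bool :=
  decide (2 ≤ J) && decide (hdL a = 0) && decide (a.length ≤ n) && decide (b.length ≤ n) &&
    decide (M.length ≤ n) && chkZero fuel n J a b M && chkSegs fuel n J a b M k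

lemma eqL_sound (l m : List ℤ) (h : eqL l m = true) : l = m := by
  induction l generalizing m with
  | nil => cases m with
    | nil => rfl
    | cons b m => simp [eqL] at h
  | cons a l ih => cases m with
    | nil => simp [eqL] at h
    | cons b m =>
      simp only [eqL, Bool.and_eq_true, decide_eq_true_eq] at h
      rw [h.1, ih m h.2]

lemma sumL_spec (l : List ℤ) : ev l 1 = sumL l := by
  induction l with
  | nil => simp [ev, sumL]
  | cons c l ih => simp only [ev, sumL, ih]; push_cast; ring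

lemma TL_bound {x : ℝ} (h0 : 0 ≤ x) (h1 : x ≤ 1) : |ev TL x| ≤ 2 := by
  have h2 : posL 12 (addL [2] TL) = true := by decide +kernel
  have h3 : posL 12 (addL [2] (smulL (-1) TL)) = true := by decide +kernel
  have h4 := posL_sound _ _ h2 h0 h1
  have h5 := posL_sound _ _ h3 h0 h1
  rw [ev_addL] at h4 h5
  rw [ev_smulL] at h5
  simp only [ev] at h4 h5
  push_cast at h4 h5
  rw [abs_le]
  constructor <;> linarith

lemma PL_deriv (x : ℝ) : (1 + x) * ev (derL PL) x = (PD : ℝ) - LC * ev TL x := by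
  have h : eqL (mulL [1, 1] (derL PL)) (addL [PD] (smulL (-LC) TL)) = true := by decide +kernel
  have h2 := eqL_sound _ _ h
  have h3 : ev (mulL [1, 1] (derL PL)) x = ev (addL [PD] (smulL (-LC) TL)) x := by rw [h2]
  rw [ev_mulL, ev_addL, ev_smulL] at h3
  simp only [ev_cons, ev_nil] at h3
  push_cast at h3
  linarith

lemma PD_eq : (PD : ℝ) = TN * LC := by
  have : PD = TN * LC := by decide +kernel
  exact_mod_cast this

lemma log_approx {s : ℝ} (h0 : 0 ≤ s) (h1 : s ≤ 1) :
    |PD * Real.log (1 + s) - ev PL s| ≤ 2 * LC := by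
  have hLC : (0 : ℝ) < LC := by norm_num [LC]
  have hder : ∀ x ∈ Icc (0 : ℝ) 1, HasDerivWithinAt (fun x => PD * Real.log (1 + x) - ev PL x)
      (LC * ev TL x / (1 + x)) (Icc (0 : ℝ) 1) x := by
    intro x hx
    have hx1 : (1 + x) ≠ 0 := by linarith [hx.1]
    have h2 : HasDerivAt (fun x : ℝ => Real.log (1 + x)) (1 / (1 + x)) x := by
      have := (hasDerivAt_id x).const_add 1
      exact this.log hx1
    have h3 := (h2.const_mul (PD : ℝ)).sub (hasDerivAt_ev PL x)
    refine (h3.congr_deriv ?_).hasDerivWithinAt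
    have := PL_deriv x
    field_simp
    linarith
  have hb : ∀ x ∈ Icc (0 : ℝ) 1, ‖LC * ev TL x / (1 + x)‖ ≤ 2 * LC := by
    intro x hx
    rw [Real.norm_eq_abs, abs_div, abs_mul, abs_of_pos hLC, abs_of_pos (by linarith [hx.1] : (0:ℝ) < 1 + x),
      div_le_iff₀ (by linarith [hx.1])]
    have := TL_bound hx.1 hx.2
    have h4 : (LC : ℝ) * |ev TL x| ≤ LC * 2 := mul_le_mul_of_nonneg_left this hLC.le
    nlinarith [hx.1]
  have := Convex.norm_image_sub_le_of_norm_hasDerivWithin_le hder hb (convex_Icc 0 1)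
    (left_mem_Icc.2 zero_le_one) (⟨h0, h1⟩ : s ∈ Icc (0 : ℝ) 1)
  have e0 : ev PL 0 = 0 := by simp [PL, ev]
  simp only [add_zero, Real.log_one, mul_zero, e0, sub_zero, Real.norm_eq_abs, abs_of_nonneg h0] at this
  refine this.trans ?_
  exact mul_le_of_le_one_right (by linarith) h1

lemma log_approx2 (i J : ℕ) {s : ℝ} (h0 : 0 ≤ s) (h1 : s ≤ 1) :
    |PD * Real.log ((2 : ℝ) ^ i * (1 + s) / 2 ^ J) - ev (LG i J) s| ≤ 2 * LC * (i + J + 1) := by
  have h2 := log_approx h0 h1
  have h3 := log_approx zero_le_one (le_refl (1 : ℝ))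
  rw [sumL_spec] at h3
  have hlog : Real.log ((2 : ℝ) ^ i * (1 + s) / 2 ^ J) = ((i : ℝ) - J) * Real.log (1 + 1) + Real.log (1 + s) := by
    rw [Real.log_div (by positivity) (by positivity), Real.log_mul (by positivity) (by positivity),
      Real.log_pow, Real.log_pow]
    norm_num
    ring
  have hev : ev (LG i J) s = ((i : ℝ) - J) * sumL PL + ev PL s := by
    rw [LG, ev_addL]
    simp only [ev_cons, ev_nil]
    push_cast
    ring
  rw [hlog, hev]
  have e1 : PD * (((i : ℝ) - J) * Real.log (1 + 1) + Real.log (1 + s)) - (((i : ℝ) - J) * sumL PL + ev PL s)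
      = ((i : ℝ) - J) * (PD * Real.log (1 + 1) - sumL PL) + (PD * Real.log (1 + s) - ev PL s) := by ring
  rw [e1]
  refine (abs_add_le _ _).trans ?_
  rw [abs_mul]
  have h4 : |(i : ℝ) - J| ≤ i + J := by
    rw [abs_le]; constructor <;> linarith [(Nat.cast_nonneg i : (0 : ℝ) ≤ i), (Nat.cast_nonneg J : (0 : ℝ) ≤ J)]
  have hLC : (0 : ℝ) < LC := by norm_num [LC]
  have h5 : |(i : ℝ) - J| * |PD * Real.log (1 + 1) - sumL PL| ≤ (i + J) * (2 * LC) :=
    mul_le_mul h4 h3 (abs_nonneg _) (by positivity)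
  linarith

lemma length_padL (n : ℕ) (l : List ℤ) (h : l.length ≤ n) : (padL n l).length = n := by
  induction n generalizing l with
  | zero => simpa [padL] using h
  | succ n ih =>
    cases l with
    | nil => simp [padL, ih]
    | cons a l =>
      simp only [padL, List.length_cons]
      rw [ih l (by simpa using h)]

/-- scaling of the three lists by the same factor -/
lemma sc_eval (n i J : ℕ) (l : List ℤ) (h : l.length ≤ n) (s : ℝ) :
    (2 : ℝ) ^ J * ev (scL (2 ^ i) (2 ^ J) 1 (padL n l)).1 s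
      = ((2 : ℝ) ^ J) ^ n * ev l (2 ^ i * s / 2 ^ J) := by
  have := scL_spec (m1 := 2 ^ J) (by positivity) (2 ^ i) 1 (padL n l) s
  rw [length_padL n l h, padL_ev] at this
  push_cast at this
  rw [this]
  ring

lemma abs_scale {p q X Y : ℝ} (hp : 0 < p) (hq : 0 < q) (h : p * X = q * Y) :
    p * |X| = q * |Y| := by
  have h2 : |p * X| = |q * Y| := by rw [h]
  rwa [abs_mul, abs_mul, abs_of_pos hp, abs_of_pos hq] at h2

theorem chkSeg_sound (fuel n J i : ℕ) (a b M : List ℤ) (ha : a.length ≤ n) (hb : b.length ≤ n)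
    (hM : M.length ≤ n) (h : chkSeg fuel n J i a b M = true) {s : ℝ} (h0 : 0 ≤ s) (h1 : s ≤ 1) :
    |ev a (2 ^ i * (1 + s) / 2 ^ J) * Real.log (2 ^ i * (1 + s) / 2 ^ J)
      + ev b (2 ^ i * (1 + s) / 2 ^ J)| ≤ ev M (2 ^ i * (1 + s) / 2 ^ J) := by
  have hPD : (0 : ℝ) < PD := by norm_num [PD]
  have hLC : (0 : ℝ) < LC := by norm_num [LC]
  simp only [chkSeg, Bool.and_eq_true] at h
  obtain ⟨hu, hl⟩ := h
  have h2 := posL_sound _ _ hu h0 h1
  have h3 := posL_sound _ _ hl h0 h1
  have hA := absL_spec (shL (scL (2 ^ i) (2 ^ J) 1 (padL n a)).1) h0 h1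
  have eA := sc_eval n i J a ha (1 + s)
  have eB := sc_eval n i J b hb (1 + s)
  have eM := sc_eval n i J M hM (1 + s)
  simp only [ev_addL, ev_smulL, ev_mulL, shL_spec, ev_cons, ev_nil] at h2 h3 hA
  set x : ℝ := 2 ^ i * (1 + s) / 2 ^ J with hx
  set A := ev (scL (2 ^ i) (2 ^ J) 1 (padL n a)).1 (1 + s)
  set B := ev (scL (2 ^ i) (2 ^ J) 1 (padL n b)).1 (1 + s)
  set MM := ev (scL (2 ^ i) (2 ^ J) 1 (padL n M)).1 (1 + s)
  have hlog := log_approx2 i J h0 h1
  rw [← hx] at hlog
  set E : ℝ := ((absL (shL (scL (2 ^ i) (2 ^ J) 1 (padL n a)).1) : ℤ) : ℝ)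
  push_cast at h2 h3
  have hc : |A * (PD * Real.log x) - A * ev (LG i J) s| ≤ E * (2 * LC * (i + J + 1)) := by
    rw [← mul_sub, abs_mul]
    exact mul_le_mul hA hlog (abs_nonneg _) (le_trans (abs_nonneg _) hA)
  rw [abs_le] at hc
  have h4 : |A * Real.log x + B| ≤ MM := by
    rw [abs_le]
    constructor
    · have : 0 ≤ PD * (MM + (A * Real.log x + B)) := by nlinarith [hc.1, hc.2]
      have := (mul_nonneg_iff_of_pos_left hPD).1 this
      linarith
    · have : 0 ≤ PD * (MM - (A * Real.log x + B)) := by nlinarith [hc.1, hc.2]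
      have := (mul_nonneg_iff_of_pos_left hPD).1 this
      linarith
  have hp : (0 : ℝ) < 2 ^ J := by positivity
  have hpn : (0 : ℝ) < ((2 : ℝ) ^ J) ^ n := by positivity
  have h5 : (2 : ℝ) ^ J * |A * Real.log x + B| = ((2 : ℝ) ^ J) ^ n * |ev a x * Real.log x + ev b x| :=
    abs_scale hp hpn (by linear_combination Real.log x * eA + eB)
  have h6 := mul_le_mul_of_nonneg_left h4 hp.le
  rw [h5, eM] at h6
  exact le_of_mul_le_mul_left h6 hpn

lemma xlog_bound {J : ℕ} (hJ : 2 ≤ J) {x : ℝ} (h0 : 0 < x) (h1 : x ≤ 1 / 2 ^ J) :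
    x * |Real.log x| ≤ 7 * J / (10 * 2 ^ J) := by
  have h4 : (4 : ℝ) ≤ 2 ^ J := by
    calc (4 : ℝ) = 2 ^ 2 := by norm_num
      _ ≤ 2 ^ J := pow_le_pow_right₀ (by norm_num) hJ
  have he : Real.exp 1 ≤ 4 := by linarith [Real.exp_one_lt_d9]
  have hx1 : x ≤ 1 := h1.trans (by rw [div_le_one (by positivity)]; linarith)
  have hy : (2 : ℝ) ^ J ≤ 1 / x := by
    rw [le_div_iff₀ h0]
    rw [le_div_iff₀ (by positivity)] at h1
    linarith
  have h5 := Real.log_div_self_antitoneOn (show Real.exp 1 ≤ (2 : ℝ) ^ J by linarith)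
    (show Real.exp 1 ≤ 1 / x by linarith) hy
  simp only at h5
  rw [Real.log_pow] at h5
  have h6 : Real.log (1 / x) / (1 / x) = x * |Real.log x| := by
    rw [abs_of_nonpos (Real.log_nonpos h0.le hx1), one_div, Real.log_inv]
    field_simp
  rw [h6] at h5
  refine h5.trans ?_
  rw [div_le_div_iff₀ (by positivity) (by positivity)]
  have h7 : Real.log 2 < 0.7 := by linarith [Real.log_two_lt_d9]
  have h8 : (0 : ℝ) ≤ J := Nat.cast_nonneg J
  have h9 : (0 : ℝ) < 2 ^ J := by positivity
  nlinarith [mul_nonneg h8 h9.le, mul_nonneg (mul_nonneg h8 h9.le) (by linarith : (0:ℝ) ≤ 0.7 - Real.log 2)]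

lemma ev_tlL (l : List ℤ) (x : ℝ) : ev l x = hdL l + x * ev (tlL l) x := by
  cases l with
  | nil => simp [ev, hdL, tlL]
  | cons c l => simp [ev, hdL, tlL]

theorem chkZero_sound (fuel n J : ℕ) (a b M : List ℤ) (hJ : 2 ≤ J) (h00 : hdL a = 0)
    (ha : a.length ≤ n) (hb : b.length ≤ n)
    (hM : M.length ≤ n) (h : chkZero fuel n J a b M = true) {x : ℝ} (h0 : 0 < x) (h1 : x ≤ 1 / 2 ^ J) :
    |ev a x * Real.log x + ev b x| ≤ ev M x := by
  have hp : (0 : ℝ) < 2 ^ J := by positivity
  simp only [chkZero, Bool.and_eq_true] at h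
  obtain ⟨⟨⟨ha1, ha2⟩, ha3⟩, ha4⟩ := h
  set s : ℝ := 2 ^ J * x with hs
  have hs0 : 0 ≤ s := by positivity
  have hs1 : s ≤ 1 := by
    rw [le_div_iff₀ hp] at h1
    linarith
  have hat : (tlL a).length ≤ n := by
    cases a with
    | nil => simp [tlL]
    | cons c l => simp [tlL] at ha ⊢; omega
  have h2 := posL_sound _ _ ha1 hs0 hs1
  have h3 := posL_sound _ _ ha2 hs0 hs1
  have h4 := posL_sound _ _ ha3 hs0 hs1
  have h5 := posL_sound _ _ ha4 hs0 hs1
  have eA := sc_eval n 0 J (tlL a) hat s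
  have eB := sc_eval n 0 J b hb s
  have eM := sc_eval n 0 J M hM s
  simp only [ev_addL, ev_smulL, pow_zero, one_mul] at h2 h3 h4 h5 eA eB eM
  have hxs : s / 2 ^ J = x := by rw [hs]; field_simp
  rw [hxs] at eA eB eM
  push_cast at h2 h3 h4 h5
  set A := ev (scL 1 (2 ^ J) 1 (padL n (tlL a))).1 s
  set B := ev (scL 1 (2 ^ J) 1 (padL n b)).1 s
  set MM := ev (scL 1 (2 ^ J) 1 (padL n M)).1 s
  have hev : ev a x = x * ev (tlL a) x := by rw [ev_tlL a x, h00]; simp
  have hxl := xlog_bound hJ h0 h1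
  -- combine
  have h6 : 7 * J * |A| + 10 * 2 ^ J * |B| ≤ 10 * 2 ^ J * MM := by
    rcases abs_cases A with ⟨hA, _⟩ | ⟨hA, _⟩ <;> rcases abs_cases B with ⟨hB, _⟩ | ⟨hB, _⟩ <;>
      rw [hA, hB] <;> linarith
  have hpn : (0 : ℝ) < ((2 : ℝ) ^ J) ^ n := by positivity
  have eA' : (2 : ℝ) ^ J * |A| = ((2 : ℝ) ^ J) ^ n * |ev (tlL a) x| := abs_scale hp hpn eA
  have eB' : (2 : ℝ) ^ J * |B| = ((2 : ℝ) ^ J) ^ n * |ev b x| := abs_scale hp hpn eB
  have h7 : ((2 : ℝ) ^ J) ^ n * (7 * J * |ev (tlL a) x| + 10 * 2 ^ J * |ev b x|)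
      ≤ ((2 : ℝ) ^ J) ^ n * (10 * 2 ^ J * ev M x) := by
    have := mul_le_mul_of_nonneg_left h6 hp.le
    calc ((2 : ℝ) ^ J) ^ n * (7 * J * |ev (tlL a) x| + 10 * 2 ^ J * |ev b x|)
        = 7 * J * (((2 : ℝ) ^ J) ^ n * |ev (tlL a) x|) + 10 * 2 ^ J * (((2 : ℝ) ^ J) ^ n * |ev b x|) := by ring
      _ = 2 ^ J * (7 * J * |A| + 10 * 2 ^ J * |B|) := by rw [← eA', ← eB']; ring
      _ ≤ 2 ^ J * (10 * 2 ^ J * MM) := this
      _ = 10 * 2 ^ J * (2 ^ J * MM) := by ring
      _ = ((2 : ℝ) ^ J) ^ n * (10 * 2 ^ J * ev M x) := by rw [eM]; ring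
  have h8 := le_of_mul_le_mul_left h7 hpn
  have h9 : |ev a x * Real.log x + ev b x| ≤ |ev (tlL a) x| * (x * |Real.log x|) + |ev b x| := by
    refine (abs_add_le _ _).trans ?_
    rw [hev, abs_mul, abs_mul, abs_of_pos h0]
    linarith
  have h10 : |ev (tlL a) x| * (x * |Real.log x|) ≤ |ev (tlL a) x| * (7 * J / (10 * 2 ^ J)) :=
    mul_le_mul_of_nonneg_left hxl (abs_nonneg _)
  have h11 : |ev (tlL a) x| * (7 * J / (10 * 2 ^ J)) + |ev b x| ≤ ev M x := by
    have : |ev (tlL a) x| * (7 * J / (10 * 2 ^ J)) + |ev b x|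
        = (7 * J * |ev (tlL a) x| + 10 * 2 ^ J * |ev b x|) / (10 * 2 ^ J) := by
      field_simp
    rw [this, div_le_iff₀ (by positivity)]
    linarith
  linarith

/-- the soundness of the engine -/
theorem chkAll_sound (fuel n J k : ℕ) (a b M : List ℤ) (h : chkAll fuel n J k a b M = true)
    {x : ℝ} (h0 : 0 < x) (h1 : x ≤ 2 ^ k / 2 ^ J) :
    |ev a x * Real.log x + ev b x| ≤ ev M x := by
  simp only [chkAll, Bool.and_eq_true, decide_eq_true_eq] at h
  obtain ⟨⟨⟨⟨⟨⟨hJ, h00⟩, ha⟩, hb⟩, hM⟩, hz⟩, hseg⟩ := h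
  induction k with
  | zero => exact chkZero_sound fuel n J a b M hJ h00 ha hb hM hz h0 (by simpa using h1)
  | succ k ih =>
    simp only [chkSegs, Bool.and_eq_true] at hseg
    by_cases hx : x ≤ 2 ^ k / 2 ^ J
    · exact ih hx hseg.2
    · push Not at hx
      have hp : (0 : ℝ) < 2 ^ J := by positivity
      have hk : (0 : ℝ) < 2 ^ k := by positivity
      have hxs : x = 2 ^ k * (1 + (x * 2 ^ J / 2 ^ k - 1)) / 2 ^ J := by field_simp; ring
      have hs0 : 0 ≤ x * 2 ^ J / 2 ^ k - 1 := by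
        rw [div_lt_iff₀ hp] at hx
        rw [sub_nonneg, le_div_iff₀ hk]
        linarith
      have hs1 : x * 2 ^ J / 2 ^ k - 1 ≤ 1 := by
        rw [le_div_iff₀ hp, pow_succ] at h1
        rw [sub_le_iff_le_add, div_le_iff₀ hk]
        linarith
      have := chkSeg_sound fuel n J k a b M ha hb hM hseg.1 hs0 hs1
      rw [← hxs] at this
      exact this

end Pool.Agent.Lib.MP_230119_an.EX
end

section

/-!
# Explicit approximants (certificate data)

All lists are coefficients (low degree first) in units of `10^(-20)`.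
-/

set_option autoImplicit false

open Set

namespace Pool.Agent.Lib.MP_230119_an.EX

/-- a pair `(a,b)` stands for `a(x) log |x| + b(x)` -/
noncomputable def evl (f : List ℤ × List ℤ) (x : ℝ) : ℝ := ev f.1 x * Real.log |x| + ev f.2 x

/-- derivative (correct if the constant coefficient of `a` vanishes) -/
def derP (f : List ℤ × List ℤ) : List ℤ × List ℤ := (derL f.1, addL (derL f.2) (tlL f.1))
/-- multiplication by a polynomial -/
def mulP (m : List ℤ) (f : List ℤ × List ℤ) : List ℤ × List ℤ := (mulL m f.1, mulL m f.2)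
/-- sum -/
def addP (f g : List ℤ × List ℤ) : List ℤ × List ℤ := (addL f.1 g.1, addL f.2 g.2)
/-- scalar multiple -/
def smulP (c : ℤ) (f : List ℤ × List ℤ) : List ℤ × List ℤ := (smulL c f.1, smulL c f.2)
/-- `p(x)/x = (x+1)(x-8)` -/
def P1L : List ℤ := [-8, -7, 1]
/-- `p(x)` -/
def P0L : List ℤ := [0, -8, -7, 1]
/-- `f ↦ p f'` -/
def pdP (f : List ℤ × List ℤ) : List ℤ × List ℤ :=
  (mulL P0L (derL f.1), addL (mulL P1L f.1) (mulL P0L (derL f.2)))
/-- `f ↦ (p f')' + (x-2) f` -/
def opP (f : List ℤ × List ℤ) : List ℤ × List ℤ := addP (derP (pdP f)) (mulP [-2, 1] f)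
/-- `f(-x)` -/
def flL : List ℤ → List ℤ
  | [] => []
  | a :: l => a :: smulL (-1) (flL l)

/-- the approximant on `(0,8)` -/
def gp : List ℤ × List ℤ := ([-100000000000000000000, 25000000000000000000, -15625000000000000000, 10937500000000000000, -8447265625000000000, 5397783099013535005, -28208541580610768101, -25764863616954738715, -4676969602581781464, -187434453180933662],
  [207943321391619059421, -14485633061644674253, 6709556062697851436, -3205780694018742107, 1962192068715424120, -7915564221151117807, -30427609931978658336, 25481913733219261059, 11287655500295592849, 780002849463084202, 3631638408158435, -32854159381612, 219553891911])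
/-- the approximant on `(-1,0)` -/
def gm : List ℤ × List ℤ := ([-100000000000000000000, 25000000000000000000, -15625000000000000000, 10937500000000000000, -8447265625000000000, 6629797200000000000, -2990677600000000000],
  [207944146500000000000, -14486056200000000000, 6709990300000000000, -3212601000000000000, 1936689300000000000, -2212623100000000000, 4636743900000000000, -765793800000000000, -64724900000000000])
/-- the global approximant -/
def gt : List ℤ × List ℤ := ([-100000000000000000000, 25000000000000000000, -11750000000000000000, 8450000000000000000, 250000000000000000, 1300000000000000000],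
  [207999000000000000000, -14603100000000000000, 10862130000000000000, -5238690000000000000, 1375485000000000000, -1926680000000000000, -195877000000000000, 6994000000000000, -132000000000000])

/-- `27720² · 13`: a common denominator for the integration -/
def LI : ℤ := 9989179200
/-- `10^20` -/
def SC : ℤ := 100000000000000000000

/-- integration of `(2-t)(a log t + b)` from `0`, times `LI`: contributions of the coefficient
lists, starting with the index `i` -/
def intA : ℤ → List ℤ → List ℤ × List ℤ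
  | _, [] => ([], [])
  | i, a :: l => match intA (i + 1) l with
    | (u, v) => (addL [2 * a * (LI / (i + 1)), -(a * (LI / (i + 2)))] (0 :: u),
        addL [-(2 * a * (LI / (i + 1) ^ 2)), a * (LI / (i + 2) ^ 2)] (0 :: v))
/-- the polynomial part -/
def intB : ℤ → List ℤ → List ℤ
  | _, [] => []
  | i, a :: l => addL [2 * a * (LI / (i + 1)), -(a * (LI / (i + 2)))] (0 :: intB (i + 1) l)
/-- `LI ∫_0^x (2-t) f(t) dt` -/
def intP (f : List ℤ × List ℤ) : List ℤ × List ℤ :=
  (0 :: (intA 0 f.1).1, addL (0 :: (intA 0 f.1).2) (0 :: intB 0 f.2))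

/-- `M1 = x²(560-90x+15x²-x³)` -/
def M1L : List ℤ := [0, 0, 560, -90, 15, -1]
/-- `M2 = 5x²(8-x)` -/
def M2L : List ℤ := [0, 0, 40, -5]
/-- `N = 10x²(8-x)` -/
def NL : List ℤ := [0, 0, 80, -10]

/-- the function `F1` of the approximant difference `e`, times `LI` -/
def FL1 (e : List ℤ × List ℤ) : List ℤ × List ℤ := addP (smulP LI (mulP M1L e)) (mulP M2L (intP e))
/-- the function `F2` -/
def FL2 (e : List ℤ × List ℤ) : List ℤ × List ℤ := mulP NL e

/-- iterated derivative -/
def derN : ℕ → List ℤ × List ℤ → List ℤ × List ℤ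
  | 0, f => f
  | n + 1, f => derN n (derP f)

/-- differences -/
def ep : List ℤ × List ℤ := addP gp (smulP (-1) gt)
/-- differences -/
def em : List ℤ × List ℤ := addP gm (smulP (-1) gt)
/-- the residuals `-L g` -/
def qp : List ℤ × List ℤ := smulP (-1) (opP gp)
/-- the residuals `-L g` -/
def qm : List ℤ × List ℤ := smulP (-1) (opP gm)

end Pool.Agent.Lib.MP_230119_an.EX
end

section

/-!
# Tables for trigonometric polynomials on the torus: definitions
-/

set_option autoImplicit false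

open Set Filter Topology MeasureTheory

namespace Pool.Agent.Lib.MP_230119_an.EX

/-- evaluation of an integer polynomial at a complex number -/
noncomputable def evC : List ℤ → ℂ → ℂ
  | [], _ => 0
  | c :: l, x => (c : ℂ) + x * evC l x

/-- evaluation of a table: a polynomial in `y` whose coefficients are polynomials in `x` -/
noncomputable def ev2 : List (List ℤ) → ℂ → ℂ → ℂ
  | [], _, _ => 0
  | l :: t, x, y => evC l x + y * ev2 t x y

/-- sum of tables -/
def add2 : List (List ℤ) → List (List ℤ) → List (List ℤ)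
  | [], m => m
  | l, [] => l
  | a :: l, b :: m => addL a b :: add2 l m

/-- multiplication of all rows by a polynomial in `x` -/
def cmul2 (l : List ℤ) : List (List ℤ) → List (List ℤ)
  | [] => []
  | a :: t => mulL l a :: cmul2 l t

/-- product of tables -/
def mul2 : List (List ℤ) → List (List ℤ) → List (List ℤ)
  | [], _ => []
  | l :: t, m => add2 (cmul2 l m) ([] :: mul2 t m)

/-- `n` zeros, then `c` -/
def zers : ℕ → ℤ → List ℤ
  | 0, c => [c]
  | n + 1, c => 0 :: zers n c

/-- `n` empty rows, then the row `l` -/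
def zrow : ℕ → List ℤ → List (List ℤ)
  | 0, l => [l]
  | n + 1, l => [] :: zrow n l

/-- the monomial `c (xy)^n` -/
def mono (n : ℕ) (c : ℤ) : List (List ℤ) := zrow n (zers n c)

/-- the trigonometric polynomial of a table with offset `N` -/
noncomputable def tf (N : ℕ) (T : List (List ℤ)) (a b c : ℝ) : ℂ :=
  ev2 T (Complex.exp (((a - c : ℝ) : ℂ) * Complex.I)) (Complex.exp (((b - c : ℝ) : ℂ) * Complex.I)) *
    Complex.exp ((-(N * (a + b - 2 * c) : ℝ) : ℂ) * Complex.I)

/-- the table of `rho` (offset `1`) -/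
def rhoT : List (List ℤ) := [[0, 1, 1], [1, 2, 1], [1, 1]]
/-- the table of `2 chi` (offset `2`) -/
def chiT : List (List ℤ) := [[0, 0, 0, 1], [0, 1, 0, 0, 1], [], [1, 0, 0, 1], [0, 1]]

/-- the table of a polynomial of degree `≤ n` in `rho` (offset `n`) -/
def hor : ℕ → List ℤ → List (List ℤ)
  | _, [] => []
  | 0, c :: _ => [[c]]
  | n + 1, c :: l => add2 (mono (n + 1) c) (mul2 rhoT (hor n l))

/-- coefficient of `x^i y^j` -/
def co2 (T : List (List ℤ)) (i j : ℕ) : ℤ := (T.getD j []).getD i 0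

/-- coefficient with frequencies `p`, `q` in a table with offset `N` -/
def cT (N : ℕ) (T : List (List ℤ)) (p q : ℤ) : ℤ :=
  if 0 ≤ p + N ∧ 0 ≤ q + N then co2 T (p + N).toNat (q + N).toNat else 0

/-- the logarithmic part of `K_X`, times `2 SC LI` (offset `10`) -/
def QTc : List (List ℤ) :=
  add2 (cmul2 [2] (hor 10 (FL1 gt).1)) (mul2 chiT (hor 8 (smulL LI (FL2 gt).1)))

/-- the other part of `K_X`, times `2 SC LI` (offset `13`) -/
def RTc : List (List ℤ) :=
  add2 (cmul2 [2] (hor 13 (addL (FL1 gt).2 (smulL (8 * SC * LI) M2L))))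
    (mul2 chiT (hor 11 (smulL LI (FL2 gt).2)))

/-- equality test for tables -/
def eq2 : List (List ℤ) → List (List ℤ) → Bool
  | [], [] => true
  | a :: l, b :: m => eqL a b && eq2 l m
  | _, _ => false

end Pool.Agent.Lib.MP_230119_an.EX
end

section

/-!
# Algebra of tables
-/

set_option autoImplicit false

open Set Filter Topology MeasureTheory

namespace Pool.Agent.Lib.MP_230119_an.EX

theorem evC_addL (l m : List ℤ) (x : ℂ) : evC (addL l m) x = evC l x + evC m x := by
  induction l generalizing m with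
  | nil => simp [addL, evC]
  | cons a l ih =>
    cases m with
    | nil => simp [addL, evC]
    | cons b m =>
      simp only [addL, evC, ih]
      push_cast
      ring

theorem K01_evC_smulL (c : ℤ) (l : List ℤ) (x : ℂ) : evC (smulL c l) x = c * evC l x := by
  induction l with
  | nil => simp [smulL, evC]
  | cons a l ih =>
    simp only [smulL, evC, ih]
    push_cast
    ring

theorem evC_mulL (l m : List ℤ) (x : ℂ) : evC (mulL l m) x = evC l x * evC m x := by
  induction l with
  | nil => simp [mulL, evC]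
  | cons a l ih =>
    simp only [mulL, evC, ih, evC_addL, K01_evC_smulL]
    push_cast
    ring

theorem ev2_add2 (S T : List (List ℤ)) (x y : ℂ) : ev2 (add2 S T) x y = ev2 S x y + ev2 T x y := by
  induction S generalizing T with
  | nil => simp [add2, ev2]
  | cons a l ih =>
    cases T with
    | nil => simp [add2, ev2]
    | cons b m =>
      simp only [add2, ev2, ih, evC_addL]
      ring

theorem ev2_cmul2 (l : List ℤ) (T : List (List ℤ)) (x y : ℂ) :
    ev2 (cmul2 l T) x y = evC l x * ev2 T x y := by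
  induction T with
  | nil => simp [cmul2, ev2]
  | cons a t ih =>
    simp only [cmul2, ev2, ih, evC_mulL]
    ring

theorem ev2_mul2 (S T : List (List ℤ)) (x y : ℂ) : ev2 (mul2 S T) x y = ev2 S x y * ev2 T x y := by
  induction S with
  | nil => simp [mul2, ev2]
  | cons a t ih =>
    simp only [mul2, ev2, ih, ev2_add2, ev2_cmul2, evC]
    ring

theorem eq2_sound (S T : List (List ℤ)) (h : eq2 S T = true) : S = T := by
  induction S generalizing T with
  | nil =>
    cases T with
    | nil => rfl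
    | cons b m => simp [eq2] at h
  | cons a l ih =>
    cases T with
    | nil => simp [eq2] at h
    | cons b m =>
      simp only [eq2, Bool.and_eq_true] at h
      rw [eqL_sound _ _ h.1, ih m h.2]

/-- the factor of a table -/
theorem K01_exp (N : ℕ) (a b c : ℝ) :
    Complex.exp ((-(N * (a + b - 2 * c) : ℝ) : ℂ) * Complex.I) =
      ((Complex.exp (((a - c : ℝ) : ℂ) * Complex.I))⁻¹ *
        (Complex.exp (((b - c : ℝ) : ℂ) * Complex.I))⁻¹) ^ N := by
  rw [← Complex.exp_neg, ← Complex.exp_neg, ← Complex.exp_add, ← Complex.exp_nat_mul]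
  congr 1
  push_cast
  ring

theorem K01_tf (N : ℕ) (T : List (List ℤ)) (a b c : ℝ) : ∃ x y : ℂ, x ≠ 0 ∧ y ≠ 0 ∧
    x = Complex.exp (((a - c : ℝ) : ℂ) * Complex.I) ∧
    y = Complex.exp (((b - c : ℝ) : ℂ) * Complex.I) ∧ tf N T a b c = ev2 T x y * (x⁻¹ * y⁻¹) ^ N :=
  ⟨_, _, Complex.exp_ne_zero _, Complex.exp_ne_zero _, rfl, rfl, by rw [tf, K01_exp]⟩

theorem tf_add (N : ℕ) (S T : List (List ℤ)) (a b c : ℝ) :
    tf N (add2 S T) a b c = tf N S a b c + tf N T a b c := by
  rw [tf, tf, tf, ev2_add2, add_mul]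

theorem tf_cmul (N : ℕ) (k : ℤ) (T : List (List ℤ)) (a b c : ℝ) :
    tf N (cmul2 [k] T) a b c = k * tf N T a b c := by
  rw [tf, tf, ev2_cmul2]
  simp only [evC]
  ring

theorem tf_mul (N M : ℕ) (S T : List (List ℤ)) (a b c : ℝ) :
    tf (N + M) (mul2 S T) a b c = tf N S a b c * tf M T a b c := by
  rw [tf, tf, tf, ev2_mul2, K01_exp, K01_exp, K01_exp, pow_add]
  ring

theorem K01_zers (n : ℕ) (c : ℤ) (x : ℂ) : evC (zers n c) x = x ^ n * c := by
  induction n with
  | zero => simp [zers, evC]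
  | succ n ih =>
    simp only [zers, evC, ih]
    push_cast
    ring

theorem K01_zrow (n : ℕ) (l : List ℤ) (x y : ℂ) : ev2 (zrow n l) x y = y ^ n * evC l x := by
  induction n with
  | zero => simp [zrow, ev2]
  | succ n ih =>
    simp only [zrow, ev2, ih, evC]
    ring

theorem tf_mono (n : ℕ) (k : ℤ) (a b c : ℝ) : tf n (mono n k) a b c = k := by
  obtain ⟨x, y, hx, hy, -, -, h⟩ := K01_tf n (mono n k) a b c
  rw [h, mono, K01_zrow, K01_zers]
  have h1 : (x ^ n * y ^ n) * (x⁻¹ * y⁻¹) ^ n = 1 := by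
    rw [← mul_pow, ← mul_pow]
    have h2 : x * y * (x⁻¹ * y⁻¹) = 1 := by field_simp
    rw [h2, one_pow]
  calc y ^ n * (x ^ n * (k : ℂ)) * (x⁻¹ * y⁻¹) ^ n =
      ((x ^ n * y ^ n) * (x⁻¹ * y⁻¹) ^ n) * k := by ring
    _ = k := by rw [h1, one_mul]

theorem K01_cos (t : ℝ) : ((Real.cos t : ℝ) : ℂ) =
    (Complex.exp ((t : ℂ) * Complex.I) + Complex.exp (-((t : ℂ) * Complex.I))) / 2 := by
  rw [Complex.ofReal_cos, Complex.cos]
  congr 2
  rw [neg_mul]

theorem tf_rho (a b c : ℝ) : tf 1 rhoT a b c = rho a b c := by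
  obtain ⟨x, y, hx, hy, hxe, hye, h⟩ := K01_tf 1 rhoT a b c
  have h1 : Complex.exp (((a - b : ℝ) : ℂ) * Complex.I) = x * y⁻¹ := by
    rw [hxe, hye, ← Complex.exp_neg, ← Complex.exp_add]
    congr 1
    push_cast
    ring
  have h2 : Complex.exp (((c - a : ℝ) : ℂ) * Complex.I) = x⁻¹ := by
    rw [hxe, ← Complex.exp_neg]
    congr 1
    push_cast
    ring
  rw [h, rho]
  push_cast
  rw [← Complex.ofReal_sub, ← Complex.ofReal_sub, ← Complex.ofReal_sub, ← Complex.ofReal_cos,
    ← Complex.ofReal_cos, ← Complex.ofReal_cos, K01_cos, K01_cos, K01_cos, Complex.exp_neg,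
    Complex.exp_neg, Complex.exp_neg, h1, h2, ← hye]
  simp only [rhoT, ev2, evC]
  push_cast
  field_simp
  ring

theorem tf_chi (a b c : ℝ) : tf 2 chiT a b c = 2 * chi a b c := by
  obtain ⟨x, y, hx, hy, hxe, hye, h⟩ := K01_tf 2 chiT a b c
  have h1 : Complex.exp (((2 * a - b - c : ℝ) : ℂ) * Complex.I) = x * x * y⁻¹ := by
    rw [hxe, hye, ← Complex.exp_neg, ← Complex.exp_add, ← Complex.exp_add]
    congr 1
    push_cast
    ring
  have h2 : Complex.exp (((2 * b - c - a : ℝ) : ℂ) * Complex.I) = y * y * x⁻¹ := by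
    rw [hxe, hye, ← Complex.exp_neg, ← Complex.exp_add, ← Complex.exp_add]
    congr 1
    push_cast
    ring
  have h3 : Complex.exp (((2 * c - a - b : ℝ) : ℂ) * Complex.I) = x⁻¹ * y⁻¹ := by
    rw [hxe, hye, ← Complex.exp_neg, ← Complex.exp_neg, ← Complex.exp_add]
    congr 1
    push_cast
    ring
  rw [h, chi, Complex.ofReal_add, Complex.ofReal_add, K01_cos, K01_cos, K01_cos, Complex.exp_neg,
    Complex.exp_neg, Complex.exp_neg, h1, h2, h3]
  simp only [chiT, ev2, evC]
  push_cast
  field_simp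
  ring

theorem tf_hor (n : ℕ) (l : List ℤ) (h : l.length ≤ n + 1) (a b c : ℝ) :
    tf n (hor n l) a b c = (ev l (rho a b c) : ℝ) := by
  induction n generalizing l with
  | zero =>
    cases l with
    | nil => simp [hor, tf, ev2, ev]
    | cons d l =>
      have hl : l = [] := by
        rw [List.length_cons] at h
        exact List.length_eq_zero_iff.mp (by omega)
      subst hl
      have h1 := tf_mono 0 d a b c
      simp only [mono, zrow, zers] at h1
      simp only [hor, ev, mul_zero, add_zero]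
      rw [h1]
      push_cast
      rfl
  | succ n ih =>
    cases l with
    | nil => simp [hor, tf, ev2, ev]
    | cons d l =>
      simp only [hor]
      rw [tf_add, tf_mono, add_comm n 1, tf_mul, tf_rho,
        ih l (by rw [List.length_cons] at h; omega)]
      simp only [ev]
      push_cast
      rfl

end Pool.Agent.Lib.MP_230119_an.EX
end

section

/-!
# The chain of equations for the derivatives of a solution
-/

set_option autoImplicit false

open Set Filter Topology

namespace Pool.Agent.Lib.MP_230119_an.EX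

/-- `p'` -/
def pp1 (x : ℝ) : ℝ := 3 * x ^ 2 - 14 * x - 8

/-- the coefficient `c_j` -/
def cc (j : ℕ) (x : ℝ) : ℝ := (3 * j * (j + 1) + 1) * x - (7 * j * (j + 1) + 2)

theorem hasDerivAt_pp (x : ℝ) : HasDerivAt pp (pp1 x) x := by
  have h : HasDerivAt (fun x : ℝ => x ^ 3 - 7 * x ^ 2 - 8 * x) (3 * x ^ 2 - 14 * x - 8) x := by
    have h3 := (hasDerivAt_pow 3 x).sub ((hasDerivAt_pow 2 x).const_mul 7)
    have := h3.sub ((hasDerivAt_id x).const_mul 8)
    refine this.congr_deriv ?_
    norm_num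
    ring
  refine h.congr_of_eventuallyEq ?_
  refine Eventually.of_forall fun y => ?_
  simp only [pp]
  ring

/-- The chain: `v j` is the `j`-th derivative of `v 0`, and
`p v_{j+2} + (j+1) p' v_{j+1} + c_j v_j = q_j - j³ v_{j-1}` for `j ≤ 3`. -/
structure Chain (α β : ℝ) (v q : ℕ → ℝ → ℝ) : Prop where
  d : ∀ j ≤ 4, ∀ x ∈ Ioo α β, HasDerivAt (v j) (v (j + 1) x) x
  ode : ∀ j ≤ 3, ∀ x ∈ Ioo α β, pp x * v (j + 2) x + (j + 1) * pp1 x * v (j + 1) x
    + cc j x * v j x = q j x - j ^ 3 * v (j - 1) x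

end Pool.Agent.Lib.MP_230119_an.EX
end

section

/-!
# Bounds to be certified, and assembly of the tests
-/

set_option autoImplicit false

open Set

namespace Pool.Agent.Lib.MP_230119_an.EX

/-- the bounds `C_j` on `(0,8)`, units `10^(-20)` -/
def Cp : ℕ → ℤ
  | 0 => 14000000000000000
  | 1 => 36000000000000000
  | 2 => 230000000000000000
  | _ => 3700000000000000000

/-- the bounds `C_j` on `(-1,0)`, units `10^(-20)` -/
def Cm : ℕ → ℤ
  | 0 => 300000000000000
  | 1 => 600000000000000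
  | 2 => 4000000000000000
  | _ => 100000000000000000

/-- `4 (C_j quad_j - j³ C_{j-1} (1+x)²)` -/
def Mp (j : ℕ) : List ℤ :=
  let J : ℤ := j
  addL (smulL (Cp j) [4 * (J * J + 5 * J + 2), 4 * (2 * J * J + J), 4 * J * J + 2 * J + 1])
    (smulL (-(4 * J ^ 3 * Cp (j - 1))) [1, 2, 1])

/-- `C_j |c_j| - j³ C_{j-1}` as a polynomial in `-x` -/
def Mm (j : ℕ) : List ℤ :=
  let J : ℤ := j
  addL (smulL (Cm j) [7 * J * (J + 1) + 2, 3 * J * (J + 1) + 1]) [-(J ^ 3 * Cm (j - 1))]

/-- powers of `1+x` times `5+x` -/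
def Wp : ℕ → List ℤ
  | 0 => [5, 1]
  | n + 1 => mulL [1, 1] (Wp n)

/-- the weighted residual on `(0,8)` -/
def Rp (j : ℕ) : List ℤ × List ℤ := mulP (Wp (j + 1)) (derN j qp)

/-- the residual on `(-1,0)` in the variable `-x` -/
def Rm (j : ℕ) : List ℤ × List ℤ := (flL (derN j qm).1, flL (derN j qm).2)

/-- derivatives of the function `F1` of `g^+ - g~` -/
def Fp1 (j : ℕ) : List ℤ × List ℤ := derN j (FL1 ep)
/-- derivatives of the function `F2` of `g^+ - g~` -/
def Fp2 (j : ℕ) : List ℤ × List ℤ := derN j (FL2 ep)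
/-- derivatives of the function `F1` of `g^- - g~`, in the variable `-x` -/
def Fm1 (j : ℕ) : List ℤ × List ℤ := (flL (derN j (FL1 em)).1, flL (derN j (FL1 em)).2)
/-- derivatives of the function `F2` of `g^- - g~`, in the variable `-x` -/
def Fm2 (j : ℕ) : List ℤ × List ℤ := (flL (derN j (FL2 em)).1, flL (derN j (FL2 em)).2)

lemma chkSegs_of (fuel n J : ℕ) (a b M : List ℤ) (k : ℕ)
    (h : ∀ i < k, chkSeg fuel n J i a b M = true) : chkSegs fuel n J a b M k = true := by
  induction k with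
  | zero => rfl
  | succ k ih =>
    simp only [chkSegs, Bool.and_eq_true]
    exact ⟨h k (Nat.lt_succ_self k), ih fun i hi => h i (Nat.lt_succ_of_lt hi)⟩

/-- the preliminary part of the test -/
def chkPre (fuel n J : ℕ) (a b M : List ℤ) : Bool :=
  decide (2 ≤ J) && decide (hdL a = 0) && decide (a.length ≤ n) && decide (b.length ≤ n) &&
    decide (M.length ≤ n) && chkZero fuel n J a b M

lemma chkAll_of (fuel n J k : ℕ) (a b M : List ℤ) (h0 : chkPre fuel n J a b M = true)
    (h : ∀ i < k, chkSeg fuel n J i a b M = true) : chkAll fuel n J k a b M = true := by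
  simp only [chkAll, chkSegs_of fuel n J a b M k h, Bool.and_true]
  exact h0

end Pool.Agent.Lib.MP_230119_an.EX
end

section

/-!
# Calculus of the functions a(x) log |x| + b(x)
-/

set_option autoImplicit false

open Set Filter Topology

namespace Pool.Agent.Lib.MP_230119_an.EX

lemma evl_addP (f g : List ℤ × List ℤ) (x : ℝ) : evl (addP f g) x = evl f x + evl g x := by
  simp only [evl, addP, ev_addL]
  ring

lemma evl_smulP (c : ℤ) (f : List ℤ × List ℤ) (x : ℝ) : evl (smulP c f) x = c * evl f x := by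
  simp only [evl, smulP, ev_smulL]
  ring

lemma evl_mulP (m : List ℤ) (f : List ℤ × List ℤ) (x : ℝ) :
    evl (mulP m f) x = ev m x * evl f x := by
  simp only [evl, mulP, ev_mulL]
  ring

lemma ev_flL (l : List ℤ) (x : ℝ) : ev (flL l) x = ev l (-x) := by
  induction l with
  | nil => rfl
  | cons a l ih =>
    simp only [flL, ev, ev_smulL, ih]
    push_cast
    ring

lemma B01_ev_tl (l : List ℤ) (x : ℝ) : ev l x = (hdL l : ℝ) + x * ev (tlL l) x := by
  cases l with
  | nil => simp [ev, hdL, tlL]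
  | cons a l => simp [ev, hdL, tlL]

lemma B01_evl_eq (f : List ℤ × List ℤ) :
    evl f = fun x => ev f.1 x * Real.log x + ev f.2 x := by
  funext x
  rw [evl, Real.log_abs]

/-- the derivative of `evl f` outside `0` -/
lemma B01_hasDerivAt (f : List ℤ × List ℤ) {x : ℝ} (hx : x ≠ 0) :
    HasDerivAt (evl f) (ev (derL f.1) x * Real.log x + ev f.1 x * x⁻¹ + ev (derL f.2) x) x := by
  rw [B01_evl_eq]
  exact ((hasDerivAt_ev f.1 x).mul (Real.hasDerivAt_log hx)).add (hasDerivAt_ev f.2 x)

/-- `derP` is the derivative if the constant coefficient of the logarithmic part vanishes -/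
theorem hasDerivAt_evl (f : List ℤ × List ℤ) (h : hdL f.1 = 0) {x : ℝ} (hx : x ≠ 0) :
    HasDerivAt (evl f) (evl (derP f) x) x := by
  refine (B01_hasDerivAt f hx).congr_deriv ?_
  simp only [evl, derP, ev_addL, Real.log_abs]
  have h1 := B01_ev_tl f.1 x
  rw [h, Int.cast_zero, zero_add] at h1
  have h2 : ev f.1 x * x⁻¹ = ev (tlL f.1) x := by
    rw [h1]
    field_simp
  rw [h2]
  ring

/-- `pdP f = p f'` -/
theorem hasDerivAt_evl_pd (f : List ℤ × List ℤ) {x : ℝ} (hx : x ≠ 0) (hp : pp x ≠ 0) :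
    HasDerivAt (evl f) (evl (pdP f) x / pp x) x := by
  refine (B01_hasDerivAt f hx).congr_deriv ?_
  rw [eq_div_iff hp]
  simp only [evl, pdP, ev_addL, ev_mulL, Real.log_abs]
  have e0 : ev P0L x = pp x := by
    simp only [ev, P0L, pp]
    push_cast
    ring
  have e1 : ev P1L x = pp x * x⁻¹ := by
    simp only [ev, P1L, pp]
    push_cast
    field_simp
    ring
  rw [e0, e1]
  ring

lemma B01_hd_pd (f : List ℤ × List ℤ) : hdL (pdP f).1 = 0 := by
  simp only [pdP, P0L]
  cases h : derL f.1 with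
  | nil => rfl
  | cons b m => simp [mulL, smulL, addL, hdL]

theorem hasDerivAt_pd (f : List ℤ × List ℤ) {x : ℝ} (hx : x ≠ 0) :
    HasDerivAt (evl (pdP f)) (evl (derP (pdP f)) x) x :=
  hasDerivAt_evl (pdP f) (B01_hd_pd f) hx

theorem evl_opP (f : List ℤ × List ℤ) (x : ℝ) :
    evl (opP f) x = evl (derP (pdP f)) x + (x - 2) * evl f x := by
  rw [opP, evl_addP, evl_mulP]
  have e : ev [-2, 1] x = x - 2 := by
    simp only [ev]
    push_cast
    ring
  rw [e]

theorem continuousAt_evl (f : List ℤ × List ℤ) {x : ℝ} (hx : x ≠ 0) : ContinuousAt (evl f) x :=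
  (B01_hasDerivAt f hx).continuousAt

end Pool.Agent.Lib.MP_230119_an.EX
end

section

/-!
# Limits at 0, use of the certificates
-/

set_option autoImplicit false

open Set Filter Topology

namespace Pool.Agent.Lib.MP_230119_an.EX

lemma B01b_cont (l : List ℤ) : Continuous (fun x => ev l x) :=
  continuous_iff_continuousAt.2 fun x => (hasDerivAt_ev l x).continuousAt

lemma B01b_ev_zero (l : List ℤ) : ev l 0 = hdL l := by
  cases l with
  | nil => simp [ev, hdL]
  | cons a l => simp [ev, hdL]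

lemma B01b_ev_tl (l : List ℤ) (x : ℝ) : ev l x = (hdL l : ℝ) + x * ev (tlL l) x := by
  cases l with
  | nil => simp [ev, hdL, tlL]
  | cons a l => simp [ev, hdL, tlL]

lemma B01b_tendsto (f : List ℤ × List ℤ) :
    Tendsto (fun x => (x * Real.log x) * ev (tlL f.1) x + ev f.2 x) (𝓝[≠] 0) (𝓝 (hdL f.2)) := by
  have hc : Continuous (fun x => (x * Real.log x) * ev (tlL f.1) x + ev f.2 x) :=
    (Real.continuous_mul_log.mul (B01b_cont _)).add (B01b_cont _)
  have h := hc.tendsto 0
  have e : (0 * Real.log 0) * ev (tlL f.1) 0 + ev f.2 0 = (hdL f.2 : ℝ) := by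
    rw [B01b_ev_zero f.2, Real.log_zero]
    ring
  rw [e] at h
  exact h.mono_left nhdsWithin_le_nhds

theorem tendsto_evl (f : List ℤ × List ℤ) (h : hdL f.1 = 0) :
    Tendsto (evl f) (𝓝[≠] 0) (𝓝 (hdL f.2)) := by
  have e : evl f = fun x => (x * Real.log x) * ev (tlL f.1) x + ev f.2 x := by
    funext x
    rw [evl, Real.log_abs, B01b_ev_tl f.1 x, h]
    push_cast
    ring
  rw [e]
  exact B01b_tendsto f

/-- logarithmic coefficient `-SC` at `0` -/
theorem tendsto_evl_log (f : List ℤ × List ℤ) (h : hdL f.1 = -SC) :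
    Tendsto (fun x => evl f x + SC * Real.log |x|) (𝓝[≠] 0) (𝓝 (hdL f.2)) := by
  have e : (fun x => evl f x + SC * Real.log |x|) =
      fun x => (x * Real.log x) * ev (tlL f.1) x + ev f.2 x := by
    funext x
    rw [evl, Real.log_abs, B01b_ev_tl f.1 x, h]
    push_cast
    ring
  rw [e]
  exact B01b_tendsto f

/-- use of a certificate on `(0,8)` -/
theorem chk_pos {fuel n J k : ℕ} {f : List ℤ × List ℤ} {M : List ℤ}
    (h : chkAll fuel n J k f.1 f.2 M = true) (hk : 8 * 2 ^ J ≤ 2 ^ k) {x : ℝ} (h0 : 0 < x)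
    (h8 : x ≤ 8) : |evl f x| ≤ ev M x := by
  have hk' : (8 : ℝ) * 2 ^ J ≤ 2 ^ k := by exact_mod_cast hk
  have hx : x ≤ 2 ^ k / 2 ^ J := by
    rw [le_div_iff₀ (by positivity)]
    exact (mul_le_mul_of_nonneg_right h8 (by positivity)).trans hk'
  have h1 := chkAll_sound fuel n J k f.1 f.2 M h h0 hx
  rw [evl, Real.log_abs]
  exact h1

/-- use of a certificate on `(-1,0)` -/
theorem chk_neg {fuel n J k : ℕ} {f : List ℤ × List ℤ} {M : List ℤ}
    (h : chkAll fuel n J k (flL f.1) (flL f.2) M = true) (hk : 2 ^ J ≤ 2 ^ k) {x : ℝ} (h0 : x < 0)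
    (h8 : -1 ≤ x) : |evl f x| ≤ ev M (-x) := by
  have hk' : (2 : ℝ) ^ J ≤ 2 ^ k := by exact_mod_cast hk
  have hx : -x ≤ 2 ^ k / 2 ^ J := by
    rw [le_div_iff₀ (by positivity)]
    have h2 : (0 : ℝ) < 2 ^ J := by positivity
    nlinarith
  have h1 := chkAll_sound fuel n J k (flL f.1) (flL f.2) M h (by linarith) hx
  rw [ev_flL, ev_flL, neg_neg, Real.log_neg_eq_log] at h1
  rw [evl, Real.log_abs]
  exact h1

end Pool.Agent.Lib.MP_230119_an.EX
end

section

/-!
# Existence of the chain
-/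

set_option autoImplicit false

open Set Filter Topology

namespace Pool.Agent.Lib.MP_230119_an.EX

theorem B03a_pp1 (x : ℝ) : HasDerivAt pp1 (6 * x - 14) x := by
  have h : HasDerivAt (fun x : ℝ => 3 * x ^ 2 - 14 * x - 8) (6 * x - 14) x := by
    have h3 := (((hasDerivAt_pow 2 x).const_mul 3).sub ((hasDerivAt_id x).const_mul 14)).sub_const 8
    refine h3.congr_deriv ?_
    norm_num
    ring
  exact h

theorem B03a_cc (j : ℕ) (x : ℝ) : HasDerivAt (cc j) (3 * j * (j + 1) + 1) x := by
  have h : HasDerivAt (fun x : ℝ => (3 * j * (j + 1) + 1) * x - (7 * j * (j + 1) + 2))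
      ((3 * (j : ℝ) * (j + 1) + 1) * 1) x :=
    ((hasDerivAt_id x).const_mul (3 * (j : ℝ) * (j + 1) + 1)).sub_const _
  rw [mul_one] at h
  exact h

/-- One step of the chain. -/
theorem B03a_step (j : ℕ) {x : ℝ} (hpx : pp x ≠ 0) {Q Q1 vm vj vj1 w : ℝ → ℝ}
    (hQ : HasDerivAt Q (Q1 x) x)
    (hm : HasDerivAt (fun y => (j : ℝ) ^ 3 * vm y) ((j : ℝ) ^ 3 * vj x) x)
    (h1 : HasDerivAt vj (vj1 x) x) (h2 : HasDerivAt vj1 (w x) x)
    (hw : w = fun y => (Q y - (j : ℝ) ^ 3 * vm y - ((j : ℝ) + 1) * pp1 y * vj1 y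
      - cc j y * vj y) / pp y) :
    HasDerivAt w ((Q1 x - ((j + 1 : ℕ) : ℝ) ^ 3 * vj x
      - (((j + 1 : ℕ) : ℝ) + 1) * pp1 x * w x - cc (j + 1) x * vj1 x) / pp x) x := by
  have hn := ((hQ.sub hm).sub (((B03a_pp1 x).const_mul ((j : ℝ) + 1)).mul h2)).sub
    ((B03a_cc j x).mul h1)
  have hd := hn.div (hasDerivAt_pp x) hpx
  have hwx : w x = (Q x - (j : ℝ) ^ 3 * vm x - ((j : ℝ) + 1) * pp1 x * vj1 x
      - cc j x * vj x) / pp x := by rw [hw]
  have hwx' : w x * pp x = Q x - (j : ℝ) ^ 3 * vm x - ((j : ℝ) + 1) * pp1 x * vj1 x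
      - cc j x * vj x := by
    rw [hwx]
    exact div_mul_cancel₀ _ hpx
  have hcc : cc (j + 1) x = cc j x + ((j : ℝ) + 1) * (6 * x - 14) := by
    simp only [cc]
    push_cast
    ring
  rw [hw]
  refine hd.congr_deriv ?_
  rw [← hw]
  show ((Q1 x - (j : ℝ) ^ 3 * vj x - (((j : ℝ) + 1) * (6 * x - 14) * vj1 x +
      ((j : ℝ) + 1) * pp1 x * w x) - ((3 * (j : ℝ) * (j + 1) + 1) * vj x + cc j x * vj1 x)) * pp x -
      (Q x - (j : ℝ) ^ 3 * vm x - ((j : ℝ) + 1) * pp1 x * vj1 x
      - cc j x * vj x) * pp1 x) / pp x ^ 2 = _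
  rw [← hwx', hcc]
  push_cast
  field_simp
  ring

/-- existence of the chain, by solving the equations for `v (j+2)` -/
theorem exists_chain {α β : ℝ} (hp : ∀ x ∈ Ioo α β, pp x ≠ 0) {v0 φ : ℝ → ℝ} {q : ℕ → ℝ → ℝ}
    (h0 : ∀ x ∈ Ioo α β, HasDerivAt v0 (φ x / pp x) x)
    (h1 : ∀ x ∈ Ioo α β, HasDerivAt φ (q 0 x - (x - 2) * v0 x) x)
    (hq : ∀ j ≤ 2, ∀ x ∈ Ioo α β, HasDerivAt (q j) (q (j + 1) x) x) :
    ∃ v : ℕ → ℝ → ℝ, v 0 = v0 ∧ (∀ x, v 1 x = φ x / pp x) ∧ Chain α β v q := by
  obtain ⟨v1, hv1⟩ : ∃ v1 : ℝ → ℝ, v1 = fun x => φ x / pp x := ⟨_, rfl⟩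
  obtain ⟨v2, hv2⟩ : ∃ v2 : ℝ → ℝ, v2 = fun y => (q 0 y - ((0 : ℕ) : ℝ) ^ 3 * v0 y
      - (((0 : ℕ) : ℝ) + 1) * pp1 y * v1 y - cc 0 y * v0 y) / pp y := ⟨_, rfl⟩
  obtain ⟨v3, hv3⟩ : ∃ v3 : ℝ → ℝ, v3 = fun y => (q 1 y - ((1 : ℕ) : ℝ) ^ 3 * v0 y
      - (((1 : ℕ) : ℝ) + 1) * pp1 y * v2 y - cc 1 y * v1 y) / pp y := ⟨_, rfl⟩
  obtain ⟨v4, hv4⟩ : ∃ v4 : ℝ → ℝ, v4 = fun y => (q 2 y - ((2 : ℕ) : ℝ) ^ 3 * v1 y
      - (((2 : ℕ) : ℝ) + 1) * pp1 y * v3 y - cc 2 y * v2 y) / pp y := ⟨_, rfl⟩
  obtain ⟨v5, hv5⟩ : ∃ v5 : ℝ → ℝ, v5 = fun y => (q 3 y - ((3 : ℕ) : ℝ) ^ 3 * v2 y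
      - (((3 : ℕ) : ℝ) + 1) * pp1 y * v4 y - cc 3 y * v3 y) / pp y := ⟨_, rfl⟩
  have d0 : ∀ x ∈ Ioo α β, HasDerivAt v0 (v1 x) x := by
    intro x hx
    rw [hv1]
    exact h0 x hx
  have d1 : ∀ x ∈ Ioo α β, HasDerivAt v1 (v2 x) x := by
    intro x hx
    have hd := (h1 x hx).div (hasDerivAt_pp x) (hp x hx)
    have hpx := hp x hx
    rw [hv1]
    refine hd.congr_deriv ?_
    rw [hv2, hv1]
    simp only [cc]
    push_cast
    field_simp
    ring
  have d2 : ∀ x ∈ Ioo α β, HasDerivAt v2 (v3 x) x := by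
    intro x hx
    have hm : HasDerivAt (fun y => ((0 : ℕ) : ℝ) ^ 3 * v0 y) (((0 : ℕ) : ℝ) ^ 3 * v0 x) x := by
      have h3 : (fun y => ((0 : ℕ) : ℝ) ^ 3 * v0 y) = fun _ => (0 : ℝ) := by
        funext y
        push_cast
        ring
      have h4 : ((0 : ℕ) : ℝ) ^ 3 * v0 x = 0 := by
        push_cast
        ring
      rw [h3, h4]
      exact hasDerivAt_const x 0
    have h5 := B03a_step 0 (hp x hx) (hq 0 (by norm_num) x hx) hm (d0 x hx) (d1 x hx) hv2
    rw [hv3]
    exact h5
  have d3 : ∀ x ∈ Ioo α β, HasDerivAt v3 (v4 x) x := by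
    intro x hx
    have h5 := B03a_step 1 (hp x hx) (hq 1 (by norm_num) x hx) ((d0 x hx).const_mul _)
      (d1 x hx) (d2 x hx) hv3
    rw [hv4]
    exact h5
  have d4 : ∀ x ∈ Ioo α β, HasDerivAt v4 (v5 x) x := by
    intro x hx
    have h5 := B03a_step 2 (hp x hx) (hq 2 (by norm_num) x hx) ((d1 x hx).const_mul _)
      (d2 x hx) (d3 x hx) hv4
    rw [hv5]
    exact h5
  obtain ⟨v, hv⟩ : ∃ v : ℕ → ℝ → ℝ, v 0 = v0 ∧ v 1 = v1 ∧ v 2 = v2 ∧ v 3 = v3 ∧ v 4 = v4 ∧
      v 5 = v5 := by
    refine ⟨fun j => if j = 0 then v0 else if j = 1 then v1 else if j = 2 then v2 else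
      if j = 3 then v3 else if j = 4 then v4 else v5, ?_⟩
    simp
  obtain ⟨e0, e1, e2, e3, e4, e5⟩ := hv
  refine ⟨v, e0, fun x => by rw [e1, hv1], ?_, ?_⟩
  · intro j hj x hx
    interval_cases j
    · rw [e0, e1]
      exact d0 x hx
    · rw [e1, e2]
      exact d1 x hx
    · rw [e2, e3]
      exact d2 x hx
    · rw [e3, e4]
      exact d3 x hx
    · rw [e4, e5]
      exact d4 x hx
  · intro j hj x hx
    have hpx := hp x hx
    interval_cases j
    · simp only [zero_add, Nat.zero_sub, e0, e1, e2]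
      rw [hv2]
      field_simp
      push_cast
      ring
    · simp only [Nat.reduceAdd, Nat.reduceSub, e0, e1, e2, e3]
      rw [hv3]
      field_simp
      push_cast
      ring
    · simp only [Nat.reduceAdd, Nat.reduceSub, e1, e2, e3, e4]
      rw [hv4]
      field_simp
      push_cast
      ring
    · simp only [Nat.reduceAdd, Nat.reduceSub, e2, e3, e4, e5]
      rw [hv5]
      field_simp
      push_cast
      ring

end Pool.Agent.Lib.MP_230119_an.EX
end

section

/-!
# Boundedness of the chain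
-/

set_option autoImplicit false

open Set Filter Topology

namespace Pool.Agent.Lib.MP_230119_an.EX

theorem B03b_bdd_cont {α β : ℝ} {f : ℝ → ℝ} (hf : Continuous f) :
    ∃ B : ℝ, ∀ x ∈ Ioo α β, |f x| ≤ B := by
  obtain ⟨B, hB⟩ := isCompact_Icc.exists_bound_of_continuousOn (s := Icc α β) hf.continuousOn
  exact ⟨B, fun x hx => by
    have := hB x (Ioo_subset_Icc_self hx)
    rwa [Real.norm_eq_abs] at this⟩

theorem B03b_bdd_mul {α β : ℝ} {f g : ℝ → ℝ} (hf : ∃ B : ℝ, ∀ x ∈ Ioo α β, |f x| ≤ B)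
    (hg : ∃ B : ℝ, ∀ x ∈ Ioo α β, |g x| ≤ B) :
    ∃ B : ℝ, ∀ x ∈ Ioo α β, |f x * g x| ≤ B := by
  obtain ⟨B, hB⟩ := hf
  obtain ⟨B', hB'⟩ := hg
  refine ⟨B * B', fun x hx => ?_⟩
  rw [abs_mul]
  exact mul_le_mul (hB x hx) (hB' x hx) (abs_nonneg _) ((abs_nonneg _).trans (hB x hx))

theorem B03b_bdd_sub {α β : ℝ} {f g : ℝ → ℝ} (hf : ∃ B : ℝ, ∀ x ∈ Ioo α β, |f x| ≤ B)
    (hg : ∃ B : ℝ, ∀ x ∈ Ioo α β, |g x| ≤ B) :
    ∃ B : ℝ, ∀ x ∈ Ioo α β, |f x - g x| ≤ B := by
  obtain ⟨B, hB⟩ := hf
  obtain ⟨B', hB'⟩ := hg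
  refine ⟨B + B', fun x hx => ?_⟩
  exact (abs_sub _ _).trans (add_le_add (hB x hx) (hB' x hx))

theorem B03b_cc_cont (j : ℕ) : Continuous (cc j) := by
  have h : Continuous (fun x : ℝ => (3 * (j : ℝ) * (j + 1) + 1) * x - (7 * j * (j + 1) + 2)) := by
    fun_prop
  exact h

theorem B03b_pp1_cont : Continuous pp1 := by
  have h : Continuous (fun x : ℝ => 3 * x ^ 2 - 14 * x - 8) := by fun_prop
  exact h

/-- The second factor of the derivative of the flux is bounded. -/
theorem B03b_g_bdd {α β : ℝ} {v q : ℕ → ℝ → ℝ} (j : ℕ)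
    (hq : ∃ B : ℝ, ∀ x ∈ Ioo α β, |q j x| ≤ B)
    (hv : ∀ i ≤ j, ∃ B : ℝ, ∀ x ∈ Ioo α β, |v i x| ≤ B) :
    ∃ B : ℝ, ∀ x ∈ Ioo α β, |q j x - (j : ℝ) ^ 3 * v (j - 1) x - cc j x * v j x| ≤ B := by
  have h1 := B03b_bdd_mul (f := fun _ => (j : ℝ) ^ 3) (B03b_bdd_cont (α := α) (β := β)
    continuous_const) (hv (j - 1) (Nat.sub_le _ _))
  have h2 := B03b_bdd_mul (B03b_bdd_cont (α := α) (β := β) (B03b_cc_cont j)) (hv j le_rfl)
  exact B03b_bdd_sub (B03b_bdd_sub hq h1) h2

/-- The flux tends to zero when the other factor is bounded. -/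
theorem B03b_tendsto_zero {α β : ℝ} {l : Filter ℝ} (hl : ∀ᶠ x in l, x ∈ Ioo α β)
    (hp : Tendsto pp l (𝓝 0)) (j : ℕ) {w : ℝ → ℝ}
    (hb : ∃ B : ℝ, ∀ x ∈ Ioo α β, |pp x * w x| ≤ B) :
    Tendsto (fun x => pp x ^ (j + 1 + 1) * w x) l (𝓝 0) := by
  obtain ⟨B, hB⟩ := hb
  have h1 : Tendsto (fun x => pp x ^ (j + 1)) l (𝓝 0) := by
    have := hp.pow (j + 1)
    rwa [zero_pow (Nat.succ_ne_zero j)] at this
  have h2 : Tendsto (fun x => |pp x ^ (j + 1)| * B) l (𝓝 0) := by
    have := h1.abs.mul_const B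
    rwa [abs_zero, zero_mul] at this
  refine squeeze_zero_norm' ?_ h2
  filter_upwards [hl] with x hx
  rw [Real.norm_eq_abs, pow_succ, mul_assoc, abs_mul]
  exact mul_le_mul_of_nonneg_left (hB x hx) (abs_nonneg _)

/-- All `v j`, `j ≤ 4`, are bounded and the fluxes `p^(j+1) v_{j+1}`, `j ≤ 3`, tend to `0` at both
ends: level `0` is the hypothesis; `(p^(j+1) v_{j+1})' = p^j (q_j - j³ v_{j-1} - c_j v_j)` gives
the boundedness of `v_{j+1}` by `endpoint_left/right`, and then
`p^(j+2) v_{j+2} = p^(j+1) (p v_{j+2})`, `p v_{j+2}` bounded by the equation of level `j`. -/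
theorem chain_bounded {α β : ℝ} (hαβ : α < β) {c C : ℝ} (hc : 0 < c)
    (hpl : ∀ x ∈ Ioo α β, c * (x - α) * (β - x) ≤ |pp x|)
    (hpr : ∀ x ∈ Ioo α β, |pp x| ≤ C * (x - α) * (β - x))
    {v q : ℕ → ℝ → ℝ} (h : Chain α β v q)
    (hq : ∀ j ≤ 3, ∃ B : ℝ, ∀ x ∈ Ioo α β, |q j x| ≤ B)
    (hv : ∃ B : ℝ, ∀ x ∈ Ioo α β, |v 0 x| ≤ B)
    (hα : Tendsto (fun x => pp x * v 1 x) (𝓝[>] α) (𝓝 0))
    (hβ : Tendsto (fun x => pp x * v 1 x) (𝓝[<] β) (𝓝 0)) :
    ∀ j ≤ 3, (∃ B : ℝ, ∀ x ∈ Ioo α β, |v j x| ≤ B) ∧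
      Tendsto (fun x => pp x ^ (j + 1) * v (j + 1) x) (𝓝[>] α) (𝓝 0) ∧
      Tendsto (fun x => pp x ^ (j + 1) * v (j + 1) x) (𝓝[<] β) (𝓝 0) := by
  -- the middle point
  obtain ⟨m, hm⟩ : ∃ m, m ∈ Ioo α β := nonempty_Ioo.mpr hαβ
  have hC : 0 < C := by
    have h1 := hpl m hm
    have h2 := hpr m hm
    have h3 : 0 < m - α := by linarith [hm.1]
    have h4 : 0 < β - m := by linarith [hm.2]
    by_contra hcon
    have h5 : C ≤ 0 := not_lt.mp hcon
    have h6 : 0 < c * (m - α) * (β - m) := by positivity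
    have h7 : C * (m - α) * (β - m) ≤ 0 := by
      have : C * ((m - α) * (β - m)) ≤ 0 := mul_nonpos_of_nonpos_of_nonneg h5 (by positivity)
      linarith
    linarith
  -- eventually in the interval
  have hevα : ∀ᶠ x in 𝓝[>] α, x ∈ Ioo α β := Ioo_mem_nhdsGT hαβ
  have hevβ : ∀ᶠ x in 𝓝[<] β, x ∈ Ioo α β := Ioo_mem_nhdsLT hαβ
  have hppα : Tendsto pp (𝓝[>] α) (𝓝 0) := by
    have h1 : Tendsto (fun x => C * (x - α) * (β - x)) (𝓝[>] α) (𝓝 0) := by
      have h2 : Continuous (fun x : ℝ => C * (x - α) * (β - x)) := by fun_prop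
      have h3 := (h2.tendsto α).mono_left (nhdsWithin_le_nhds (s := Ioi α))
      rwa [sub_self, mul_zero, zero_mul] at h3
    refine squeeze_zero_norm' ?_ h1
    filter_upwards [hevα] with x hx
    exact hpr x hx
  have hppβ : Tendsto pp (𝓝[<] β) (𝓝 0) := by
    have h1 : Tendsto (fun x => C * (x - α) * (β - x)) (𝓝[<] β) (𝓝 0) := by
      have h2 : Continuous (fun x : ℝ => C * (x - α) * (β - x)) := by fun_prop
      have h3 := (h2.tendsto β).mono_left (nhdsWithin_le_nhds (s := Iio β))
      rwa [sub_self, mul_zero] at h3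
    refine squeeze_zero_norm' ?_ h1
    filter_upwards [hevβ] with x hx
    exact hpr x hx
  have main : ∀ j ≤ 3, (∀ i ≤ j, ∃ B : ℝ, ∀ x ∈ Ioo α β, |v i x| ≤ B) ∧
      Tendsto (fun x => pp x ^ (j + 1) * v (j + 1) x) (𝓝[>] α) (𝓝 0) ∧
      Tendsto (fun x => pp x ^ (j + 1) * v (j + 1) x) (𝓝[<] β) (𝓝 0) := by
    intro j
    induction j with
    | zero =>
      intro _
      refine ⟨?_, ?_, ?_⟩
      · intro i hi
        obtain rfl : i = 0 := by omega
        exact hv
      · simpa using hα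
      · simpa using hβ
    | succ j ih =>
      intro hj
      obtain ⟨ihv, ihα, ihβ⟩ := ih (by omega)
      obtain ⟨B, hB⟩ := B03b_g_bdd (α := α) (β := β) j (hq j (by omega)) ihv
      have hφ' : ∀ x ∈ Ioo α β, HasDerivAt (fun x => pp x ^ (j + 1) * v (j + 1) x)
          (pp x ^ j * (q j x - (j : ℝ) ^ 3 * v (j - 1) x - cc j x * v j x)) x := by
        intro x hx
        have h1 := ((hasDerivAt_pp x).pow (j + 1)).mul (h.d (j + 1) (by omega) x hx)
        refine h1.congr_deriv ?_
        have h2 := h.ode j (by omega) x hx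
        have h3 : q j x - (j : ℝ) ^ 3 * v (j - 1) x - cc j x * v j x =
            pp x * v (j + 2) x + (j + 1) * pp1 x * v (j + 1) x := by linarith
        rw [h3]
        show ((j + 1 : ℕ) : ℝ) * pp x ^ (j + 1 - 1) * pp1 x * v (j + 1) x +
          pp x ^ (j + 1) * v (j + 1 + 1) x = _
        rw [Nat.add_sub_cancel]
        push_cast
        ring
      have hleft : ∃ B' : ℝ, ∀ x ∈ Ioo α m, |v (j + 1) x| ≤ B' := by
        have hsub : ∀ x ∈ Ioo α m, x ∈ Ioo α β := fun x hx => ⟨hx.1, hx.2.trans hm.2⟩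
        refine endpoint_left hm.1 j (p := pp) (c := c * (β - m)) (C := C * (β - α)) (B := B)
          (g := fun x => q j x - (j : ℝ) ^ 3 * v (j - 1) x - cc j x * v j x)
          (φ := fun x => pp x ^ (j + 1) * v (j + 1) x) ?_ ?_ ?_ ?_ ?_ ihα
        · have : 0 < β - m := by linarith [hm.2]
          positivity
        · intro x hx
          have hx' := hsub x hx
          have h1 := hpl x hx'
          have h2 := hpr x hx'
          have h3 : 0 < x - α := by linarith [hx.1]
          constructor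
          · refine le_trans ?_ h1
            have h4 : β - m ≤ β - x := by linarith [hx.2]
            have h5 : c * (x - α) * (β - m) ≤ c * (x - α) * (β - x) :=
              mul_le_mul_of_nonneg_left h4 (by positivity)
            linarith
          · refine le_trans h2 ?_
            have h4 : β - x ≤ β - α := by linarith [hx.1]
            have h5 : C * (x - α) * (β - x) ≤ C * (x - α) * (β - α) :=
              mul_le_mul_of_nonneg_left h4 (by positivity)
            linarith
        · intro x _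
          rfl
        · intro x hx
          exact hφ' x (hsub x hx)
        · intro x hx
          exact hB x (hsub x hx)
      have hright : ∃ B' : ℝ, ∀ x ∈ Ioo m β, |v (j + 1) x| ≤ B' := by
        have hsub : ∀ x ∈ Ioo m β, x ∈ Ioo α β := fun x hx => ⟨hm.1.trans hx.1, hx.2⟩
        refine endpoint_right hm.2 j (p := pp) (c := c * (m - α)) (C := C * (β - α)) (B := B)
          (g := fun x => q j x - (j : ℝ) ^ 3 * v (j - 1) x - cc j x * v j x)
          (φ := fun x => pp x ^ (j + 1) * v (j + 1) x) ?_ ?_ ?_ ?_ ?_ ihβ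
        · have : 0 < m - α := by linarith [hm.1]
          positivity
        · intro x hx
          have hx' := hsub x hx
          have h1 := hpl x hx'
          have h2 := hpr x hx'
          have h3 : 0 < β - x := by linarith [hx.2]
          constructor
          · refine le_trans ?_ h1
            have h4 : m - α ≤ x - α := by linarith [hx.1]
            have h5 : c * (m - α) ≤ c * (x - α) := mul_le_mul_of_nonneg_left h4 hc.le
            exact mul_le_mul_of_nonneg_right h5 h3.le
          · refine le_trans h2 ?_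
            have h4 : x - α ≤ β - α := by linarith [hx.2]
            have h5 : C * (x - α) ≤ C * (β - α) := mul_le_mul_of_nonneg_left h4 hC.le
            exact mul_le_mul_of_nonneg_right h5 h3.le
        · intro x _
          rfl
        · intro x hx
          exact hφ' x (hsub x hx)
        · intro x hx
          exact hB x (hsub x hx)
      have hbd : ∃ B : ℝ, ∀ x ∈ Ioo α β, |v (j + 1) x| ≤ B := by
        refine bounded_of_ends ?_ ?_ ?_
        · intro x hx
          exact (h.d (j + 1) (by omega) x hx).continuousAt.continuousWithinAt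
        · obtain ⟨B', hB'⟩ := hleft
          refine ⟨B', ?_⟩
          filter_upwards [Ioo_mem_nhdsGT hm.1] with x hx
          exact hB' x hx
        · obtain ⟨B', hB'⟩ := hright
          refine ⟨B', ?_⟩
          filter_upwards [Ioo_mem_nhdsLT hm.2] with x hx
          exact hB' x hx
      have hpv : ∃ B : ℝ, ∀ x ∈ Ioo α β, |pp x * v (j + 2) x| ≤ B := by
        have h1 := B03b_bdd_mul (f := fun _ => (j : ℝ) + 1) (B03b_bdd_cont (α := α) (β := β)
          continuous_const) (B03b_bdd_mul (B03b_bdd_cont (α := α) (β := β) B03b_pp1_cont) hbd)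
        obtain ⟨B', hB'⟩ := B03b_bdd_sub ⟨B, hB⟩ h1
        refine ⟨B', fun x hx => ?_⟩
        have h2 := hB' x hx
        have h3 := h.ode j (by omega) x hx
        have h4 : pp x * v (j + 2) x = q j x - (j : ℝ) ^ 3 * v (j - 1) x - cc j x * v j x -
            ((j : ℝ) + 1) * (pp1 x * v (j + 1) x) := by linarith
        rw [h4]
        exact h2
      refine ⟨?_, ?_, ?_⟩
      · intro i hi
        rcases Nat.lt_or_ge i (j + 1) with h1 | h1
        · exact ihv i (by omega)
        · obtain rfl : i = j + 1 := by omega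
          exact hbd
      · exact B03b_tendsto_zero hevα hppα j hpv
      · exact B03b_tendsto_zero hevβ hppβ j hpv
  intro j hj
  obtain ⟨h1, h2, h3⟩ := main j hj
  exact ⟨h1 j le_rfl, h2, h3⟩

end Pool.Agent.Lib.MP_230119_an.EX
end
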