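import Pool.Agent.Lib.MP_230119_an.Mg.G001
import Pool.Agent.Lib.MP_230119_an.EX.B02b
import Pool.Agent.Lib.MP_230119_an.Mg.G003
import Pool.Agent.Lib.MP_230119_an.EX.B02c

section

/-!
# Bounds of the chain on (0,8)
-/

set_option autoImplicit false

open Set Filter Topology

namespace Pool.Agent.Lib.MP_230119_an.EX

/-- One step of the induction. -/
theorem B03c_step {v q : ℕ → ℝ → ℝ} (h : Chain 0 8 v q) {j : ℕ} (hj : j ≤ 3)
    (hb : ∃ B : ℝ, ∀ x ∈ Ioo (0 : ℝ) 8, |v j x| ≤ B)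
    (hb1 : Tendsto (fun x => pp x ^ (j + 1) * v (j + 1) x) (𝓝[>] 0) (𝓝 0))
    (hb2 : Tendsto (fun x => pp x ^ (j + 1) * v (j + 1) x) (𝓝[<] 8) (𝓝 0))
    {C : ℕ → ℝ} (hC : 0 < C j)
    (hq : ∀ x ∈ Ioo (0 : ℝ) 8,
      (1 + x) ^ (j + 1) * (5 + x) * |q j x| ≤
        C j * ((4 * j ^ 2 + 2 * j + 1) * x ^ 2 + 4 * (2 * j ^ 2 + j) * x + 4 * (j ^ 2 + 5 * j + 2))
          - 4 * j ^ 3 * C (j - 1) * (1 + x) ^ 2)
    (hp : ∀ x ∈ Ioo (0 : ℝ) 8, (j : ℝ) ^ 3 * |v (j - 1) x| ≤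
      (j : ℝ) ^ 3 * (C (j - 1) * (1 + x) ^ (-((j : ℝ) + 1 / 2) + 1))) :
    ∀ x ∈ Ioo (0 : ℝ) 8, |v j x| ≤ C j * (1 + x) ^ (-((j : ℝ) + 1 / 2)) := by
  set a : ℝ := -((j : ℝ) + 1 / 2) with ha
  have hpos : ∀ x ∈ Ioo (0 : ℝ) 8, 0 < -pp x := by
    intro x hx
    have h1 : -pp x = x * (x + 1) * (8 - x) := by
      simp only [pp]
      ring
    rw [h1]
    have h2 : 0 < x := hx.1
    have h4 : 0 < 8 - x := by linarith [hx.2]
    positivity
  have hx1 : ∀ x ∈ Ioo (0 : ℝ) 8, 0 < 1 + x := fun x hx => by linarith [hx.1]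
  have hder : ∀ (b : ℝ), ∀ x ∈ Ioo (0 : ℝ) 8,
      HasDerivAt (fun y : ℝ => (1 + y) ^ b) (b * (1 + x) ^ (b - 1)) x := by
    intro b x hx
    have h1 : HasDerivAt (fun y : ℝ => 1 + y) 1 x := (hasDerivAt_id x).const_add 1
    have h2 := h1.rpow_const (p := b) (Or.inl (hx1 x hx).ne')
    refine h2.congr_deriv ?_
    ring
  have e1 : ∀ x ∈ Ioo (0 : ℝ) 8, (1 + x) ^ (a - 1) = (1 + x) ^ (a - 2) * (1 + x) := by
    intro x hx
    rw [← Real.rpow_add_one (hx1 x hx).ne']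
    congr 1
    ring
  have e2 : ∀ x ∈ Ioo (0 : ℝ) 8, (1 + x) ^ a = (1 + x) ^ (a - 1) * (1 + x) := by
    intro x hx
    rw [← Real.rpow_add_one (hx1 x hx).ne']
    congr 1
    ring
  have e3 : ∀ x ∈ Ioo (0 : ℝ) 8, (1 + x) ^ (a + 1) = (1 + x) ^ a * (1 + x) := by
    intro x hx
    rw [← Real.rpow_add_one (hx1 x hx).ne']
  -- the value of the operator on the supersolution
  have hMS : ∀ x ∈ Ioo (0 : ℝ) 8, -pp x * (a * ((a - 1) * (1 + x) ^ (a - 2))) +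
      (j + 1) * (-pp1 x) * (a * (1 + x) ^ (a - 1)) + -cc j x * (1 + x) ^ a =
      -((1 + x) ^ (a - 1) * ((j ^ 2 + j / 2 + 1 / 4) * x ^ 2 + (2 * j ^ 2 + j) * x +
        (j ^ 2 + 5 * j + 2))) := by
    intro x hx
    rw [e2 x hx, e1 x hx]
    simp only [pp, pp1, cc, ha]
    ring
  have hquad : ∀ x ∈ Ioo (0 : ℝ) 8, 0 < ((j : ℝ) ^ 2 + j / 2 + 1 / 4) * x ^ 2 +
      (2 * j ^ 2 + j) * x + (j ^ 2 + 5 * j + 2) := by
    intro x hx
    have h2 : 0 < x := hx.1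
    positivity
  have hlim : ∀ (c : ℝ) (F : Filter ℝ), F ≤ 𝓝 c → (∀ᶠ x in F, x ∈ Ioo (0 : ℝ) 8) → 0 < 1 + c →
      pp c = 0 → Tendsto (fun x => pp x ^ (j + 1) * v (j + 1) x) F (𝓝 0) →
      Tendsto (fun x => (-pp x) ^ (j + 1) * ((1 + x) ^ a * v (j + 1) x -
        v j x * (a * (1 + x) ^ (a - 1)))) F (𝓝 0) := by
    intro c F hF hev hc hpc hlv
    have hr : ∀ b : ℝ, Tendsto (fun x : ℝ => (1 + x) ^ b) F (𝓝 ((1 + c) ^ b)) := by
      intro b
      have h1 : ContinuousAt (fun x : ℝ => (1 + x) ^ b) c := by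
        refine ContinuousAt.rpow_const ?_ (Or.inl hc.ne')
        fun_prop
      exact h1.tendsto.mono_left hF
    have hppc : Tendsto pp F (𝓝 0) := by
      have h1 : ContinuousAt pp c := (hasDerivAt_pp c).continuousAt
      have h2 := h1.tendsto.mono_left hF
      rwa [hpc] at h2
    have t1 : Tendsto (fun x => (-1) ^ (j + 1) * ((1 + x) ^ a *
        (pp x ^ (j + 1) * v (j + 1) x))) F (𝓝 0) := by
      have h1 := ((hr a).mul hlv).const_mul ((-1 : ℝ) ^ (j + 1))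
      rwa [mul_zero, mul_zero] at h1
    have t2 : Tendsto (fun x => (-1) ^ (j + 1) * (a * (1 + x) ^ (a - 1) * pp x ^ (j + 1)) *
        v j x) F (𝓝 0) := by
      obtain ⟨B, hB⟩ := hb
      have h1 : Tendsto (fun x => (-1) ^ (j + 1) * (a * (1 + x) ^ (a - 1) * pp x ^ (j + 1)))
          F (𝓝 0) := by
        have h2 := ((((hr (a - 1)).const_mul a).mul (hppc.pow (j + 1))).const_mul
          ((-1 : ℝ) ^ (j + 1)))
        rw [zero_pow (Nat.succ_ne_zero j), mul_zero, mul_zero] at h2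
        exact h2
      refine (h1.zero_mul_isBoundedUnder_le ?_)
      refine ⟨B, ?_⟩
      rw [Filter.eventually_map]
      filter_upwards [hev] with x hx
      exact hB x hx
    have t3 := t1.sub t2
    rw [sub_zero] at t3
    refine t3.congr fun x => ?_
    rw [neg_pow (pp x)]
    ring
  refine max_principle (α := 0) (β := 8) hC j (P := fun x => -pp x) (P' := fun x => -pp1 x)
    (γ := fun x => -cc j x)
    (S := fun x => (1 + x) ^ a) (S1 := fun x => a * (1 + x) ^ (a - 1))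
    (S2 := fun x => a * ((a - 1) * (1 + x) ^ (a - 2))) (v := v j) (v1 := v (j + 1))
    (v2 := v (j + 2)) hpos (fun x _ => (hasDerivAt_pp x).neg)
    (fun x hx => Real.rpow_pos_of_pos (hx1 x hx) a)
    (fun x hx => hder a x hx) (fun x hx => ?_)
    (fun x hx => h.d j (by omega) x hx) (fun x hx => h.d (j + 1) (by omega) x hx)
    (fun x hx => ?_) (fun x hx => ?_) ?_ ?_
  · have h1 := (hder (a - 1) x hx).const_mul a
    have h2 : a - 1 - 1 = a - 2 := by ring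
    rwa [h2] at h1
  · rw [hMS x hx]
    have h1 := Real.rpow_pos_of_pos (hx1 x hx) (a - 1)
    have h2 := hquad x hx
    have h3 := mul_pos h1 h2
    linarith
  · rw [hMS x hx, neg_neg]
    have h1 := h.ode j hj x hx
    have h1' : -pp x * v (j + 2) x + (j + 1) * (-pp1 x) * v (j + 1) x + -cc j x * v j x =
        -(q j x - (j : ℝ) ^ 3 * v (j - 1) x) := by
      rw [← h1]
      ring
    rw [h1', abs_neg]
    have h2 : |q j x - (j : ℝ) ^ 3 * v (j - 1) x| ≤ |q j x| + (j : ℝ) ^ 3 * |v (j - 1) x| := by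
      have h3 := abs_sub (q j x) ((j : ℝ) ^ 3 * v (j - 1) x)
      rwa [abs_mul, abs_of_nonneg (by positivity : (0 : ℝ) ≤ (j : ℝ) ^ 3)] at h3
    have hy := hx1 x hx
    set b : ℝ := (1 + x) ^ (a - 1) with hb'
    have hb0 : 0 < b := Real.rpow_pos_of_pos hy (a - 1)
    -- b * (1+x)^(j+1) * sqrt (1+x) = 1
    have hsq : Real.sqrt (1 + x) ≤ (5 + x) / 4 := by
      rw [Real.sqrt_le_left (by linarith)]
      nlinarith [sq_nonneg (x - 3)]
    have hT : b * ((1 + x) ^ (j + 1) * Real.sqrt (1 + x)) = 1 := by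
      rw [hb', Real.sqrt_eq_rpow, ← Real.rpow_natCast, ← Real.rpow_add hy, ← Real.rpow_add hy]
      have h4 : a - 1 + (((j + 1 : ℕ) : ℝ) + 1 / 2) = 0 := by
        rw [ha]
        push_cast
        ring
      rw [h4, Real.rpow_zero]
    have h5 : |q j x| ≤ b * (C j * ((j ^ 2 + j / 2 + 1 / 4) * x ^ 2 + (2 * j ^ 2 + j) * x +
        (j ^ 2 + 5 * j + 2)) - j ^ 3 * C (j - 1) * (1 + x) ^ 2) := by
      have h6 := hq x hx
      have h7 : |q j x| ≤ b * ((1 + x) ^ (j + 1) * (5 + x) * |q j x| / 4) := by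
        calc |q j x| = b * ((1 + x) ^ (j + 1) * Real.sqrt (1 + x)) * |q j x| := by
              rw [hT, one_mul]
          _ ≤ b * ((1 + x) ^ (j + 1) * ((5 + x) / 4)) * |q j x| := by
              gcongr
          _ = _ := by ring
      refine h7.trans (mul_le_mul_of_nonneg_left ?_ hb0.le)
      linarith
    have h8 := hp x hx
    rw [e3 x hx, e2 x hx] at h8
    have h9 : (j : ℝ) ^ 3 * (C (j - 1) * (b * (1 + x) * (1 + x))) =
        b * (j ^ 3 * C (j - 1) * (1 + x) ^ 2) := by ring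
    rw [h9] at h8
    have h10 : C j * (b * ((j ^ 2 + j / 2 + 1 / 4) * x ^ 2 + (2 * j ^ 2 + j) * x +
        (j ^ 2 + 5 * j + 2))) = b * (C j * ((j ^ 2 + j / 2 + 1 / 4) * x ^ 2 +
        (2 * j ^ 2 + j) * x + (j ^ 2 + 5 * j + 2)) - j ^ 3 * C (j - 1) * (1 + x) ^ 2) +
        b * (j ^ 3 * C (j - 1) * (1 + x) ^ 2) := by ring
    rw [h10]
    linarith
  · refine hlim 0 _ nhdsWithin_le_nhds ?_ (by norm_num) (by simp [pp]) hb1
    exact Ioo_mem_nhdsGT (by norm_num)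
  · refine hlim 8 _ nhdsWithin_le_nhds ?_ (by norm_num) (by simp [pp]) hb2
    exact Ioo_mem_nhdsLT (by norm_num)

/-- The bounds on `(0,8)`, by `max_principle` with `P = -p`, `S = (1+x)^(-(j+1/2))`. -/
theorem chain_bounds_pos {v q : ℕ → ℝ → ℝ} (h : Chain 0 8 v q)
    (hb : ∀ j ≤ 3, (∃ B : ℝ, ∀ x ∈ Ioo (0 : ℝ) 8, |v j x| ≤ B) ∧
      Tendsto (fun x => pp x ^ (j + 1) * v (j + 1) x) (𝓝[>] 0) (𝓝 0) ∧
      Tendsto (fun x => pp x ^ (j + 1) * v (j + 1) x) (𝓝[<] 8) (𝓝 0))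
    {C : ℕ → ℝ} (hC : ∀ j ≤ 3, 0 < C j)
    (hq : ∀ j ≤ 3, ∀ x ∈ Ioo (0 : ℝ) 8,
      (1 + x) ^ (j + 1) * (5 + x) * |q j x| ≤
        C j * ((4 * j ^ 2 + 2 * j + 1) * x ^ 2 + 4 * (2 * j ^ 2 + j) * x + 4 * (j ^ 2 + 5 * j + 2))
          - 4 * j ^ 3 * C (j - 1) * (1 + x) ^ 2) :
    ∀ j ≤ 3, ∀ x ∈ Ioo (0 : ℝ) 8, |v j x| * (1 + x) ^ j ≤ C j := by
  have key : ∀ j ≤ 3, ∀ x ∈ Ioo (0 : ℝ) 8,
      |v j x| ≤ C j * (1 + x) ^ (-((j : ℝ) + 1 / 2)) := by
    intro j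
    induction j with
    | zero =>
      intro hj
      refine B03c_step h hj (hb 0 hj).1 (hb 0 hj).2.1 (hb 0 hj).2.2 (hC 0 hj) (hq 0 hj) ?_
      intro x _
      simp
    | succ j ih =>
      intro hj
      refine B03c_step h hj (hb (j + 1) hj).1 (hb (j + 1) hj).2.1 (hb (j + 1) hj).2.2
        (hC (j + 1) hj) (hq (j + 1) hj) ?_
      intro x hx
      rw [Nat.add_sub_cancel]
      have h1 : (-(((j + 1 : ℕ) : ℝ) + 1 / 2) + 1) = -((j : ℝ) + 1 / 2) := by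
        push_cast
        ring
      rw [h1]
      exact mul_le_mul_of_nonneg_left (ih (by omega) x hx) (by positivity)
  intro j hj x hx
  have hy : 0 < 1 + x := by linarith [hx.1]
  have h1 := key j hj x hx
  calc |v j x| * (1 + x) ^ j ≤ C j * (1 + x) ^ (-((j : ℝ) + 1 / 2)) * (1 + x) ^ j :=
        mul_le_mul_of_nonneg_right h1 (by positivity)
    _ = C j * (1 + x) ^ (-(1 / 2 : ℝ)) := by
        rw [mul_assoc, ← Real.rpow_natCast, ← Real.rpow_add hy]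
        congr 2
        ring
    _ ≤ C j * 1 := by
        refine mul_le_mul_of_nonneg_left ?_ (hC j hj).le
        exact Real.rpow_le_one_of_one_le_of_nonpos (by linarith [hx.1]) (by norm_num)
    _ = C j := mul_one _

end Pool.Agent.Lib.MP_230119_an.EX
end

section

/-!
# Bounds of the chain on (-1,0)
-/

set_option autoImplicit false

open Set Filter Topology

namespace Pool.Agent.Lib.MP_230119_an.EX

/-- One step of the induction. -/
theorem B03d_step {v q : ℕ → ℝ → ℝ} (h : Chain (-1) 0 v q) {j : ℕ} (hj : j ≤ 3)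
    (hb1 : Tendsto (fun x => pp x ^ (j + 1) * v (j + 1) x) (𝓝[>] (-1)) (𝓝 0))
    (hb2 : Tendsto (fun x => pp x ^ (j + 1) * v (j + 1) x) (𝓝[<] 0) (𝓝 0))
    {C : ℕ → ℝ} (hC : 0 < C j)
    (hq : ∀ x ∈ Ioo (-1 : ℝ) 0,
      |q j x| ≤ C j * ((7 * j * (j + 1) + 2) - (3 * j * (j + 1) + 1) * x) - j ^ 3 * C (j - 1))
    (hp : ∀ x ∈ Ioo (-1 : ℝ) 0, (j : ℝ) ^ 3 * |v (j - 1) x| ≤ (j : ℝ) ^ 3 * C (j - 1)) :
    ∀ x ∈ Ioo (-1 : ℝ) 0, |v j x| ≤ C j := by
  have hpos : ∀ x ∈ Ioo (-1 : ℝ) 0, 0 < pp x := by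
    intro x hx
    have h1 : pp x = (-x) * (x + 1) * (8 - x) := by
      simp only [pp]
      ring
    rw [h1]
    have h2 : 0 < -x := by linarith [hx.2]
    have h3 : 0 < x + 1 := by linarith [hx.1]
    have h4 : 0 < 8 - x := by linarith [hx.2]
    positivity
  have key := max_principle (α := -1) (β := 0) hC j (P := pp) (P' := pp1) (γ := cc j)
    (S := fun _ => 1) (S1 := fun _ => 0) (S2 := fun _ => 0) (v := v j) (v1 := v (j + 1))
    (v2 := v (j + 2)) hpos (fun x _ => hasDerivAt_pp x) (fun x _ => one_pos)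
    (fun x _ => hasDerivAt_const x 1) (fun x _ => hasDerivAt_const x 0)
    (fun x hx => h.d j (by omega) x hx) (fun x hx => h.d (j + 1) (by omega) x hx)
    (fun x hx => ?_) (fun x hx => ?_) ?_ ?_
  · intro x hx
    have := key x hx
    rwa [mul_one] at this
  · have h1 : (0 : ℝ) ≤ 3 * j * (j + 1) + 1 := by positivity
    have h2 : (0 : ℝ) < 7 * j * (j + 1) + 2 := by positivity
    simp only [cc]
    nlinarith [hx.1, hx.2]
  · have h1 := h.ode j hj x hx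
    rw [h1]
    have h2 : |q j x - (j : ℝ) ^ 3 * v (j - 1) x| ≤ |q j x| + (j : ℝ) ^ 3 * |v (j - 1) x| := by
      have h3 := abs_sub (q j x) ((j : ℝ) ^ 3 * v (j - 1) x)
      rwa [abs_mul, abs_of_nonneg (by positivity : (0 : ℝ) ≤ (j : ℝ) ^ 3)] at h3
    have h4 := hq x hx
    have h5 := hp x hx
    have h6 : C j * -(pp x * 0 + (j + 1) * pp1 x * 0 + cc j x * 1) =
        C j * ((7 * j * (j + 1) + 2) - (3 * j * (j + 1) + 1) * x) := by
      simp only [cc]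
      ring
    rw [h6]
    linarith
  · refine hb1.congr fun x => ?_
    ring
  · refine hb2.congr fun x => ?_
    ring

/-- The bounds on `(-1,0)`, by `max_principle` with `P = p`, `S = 1`. -/
theorem chain_bounds_neg {v q : ℕ → ℝ → ℝ} (h : Chain (-1) 0 v q)
    (hb : ∀ j ≤ 3, (∃ B : ℝ, ∀ x ∈ Ioo (-1 : ℝ) 0, |v j x| ≤ B) ∧
      Tendsto (fun x => pp x ^ (j + 1) * v (j + 1) x) (𝓝[>] (-1)) (𝓝 0) ∧
      Tendsto (fun x => pp x ^ (j + 1) * v (j + 1) x) (𝓝[<] 0) (𝓝 0))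
    {C : ℕ → ℝ} (hC : ∀ j ≤ 3, 0 < C j)
    (hq : ∀ j ≤ 3, ∀ x ∈ Ioo (-1 : ℝ) 0,
      |q j x| ≤ C j * ((7 * j * (j + 1) + 2) - (3 * j * (j + 1) + 1) * x) - j ^ 3 * C (j - 1)) :
    ∀ j ≤ 3, ∀ x ∈ Ioo (-1 : ℝ) 0, |v j x| ≤ C j := by
  intro j
  induction j with
  | zero =>
    intro hj
    refine B03d_step h hj (hb 0 hj).2.1 (hb 0 hj).2.2 (hC 0 hj) (hq 0 hj) ?_
    intro x _
    simp
  | succ j ih =>
    intro hj
    refine B03d_step h hj (hb (j + 1) hj).2.1 (hb (j + 1) hj).2.2 (hC (j + 1) hj)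
      (hq (j + 1) hj) ?_
    intro x hx
    rw [Nat.add_sub_cancel]
    exact mul_le_mul_of_nonneg_left (ih (by omega) x hx) (by positivity)

end Pool.Agent.Lib.MP_230119_an.EX
end

section

/-!
# Derivatives of the residual chains
-/

set_option autoImplicit false

open Set Filter Topology

namespace Pool.Agent.Lib.MP_230119_an.EX

theorem B04a_headp : ∀ j ≤ 3, hdL (derN j qp).1 = 0 := by
  intro j hj
  obtain ⟨h0, h1, h2, h3, -⟩ := heads
  interval_cases j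
  · exact h0
  · exact h1
  · exact h2
  · exact h3

theorem B04a_headm : ∀ j ≤ 3, hdL (derN j qm).1 = 0 := by
  intro j hj
  obtain ⟨-, -, -, -, h0, h1, h2, h3, -⟩ := heads
  interval_cases j
  · exact h0
  · exact h1
  · exact h2
  · exact h3

theorem B04a_bdd (f : List ℤ × List ℤ) (h : hdL f.1 = 0) {R : ℝ} :
    ∃ B : ℝ, ∀ x : ℝ, x ≠ 0 → |x| ≤ R → |evl f x| ≤ B := by
  have ht := tendsto_evl f h
  have hev : ∀ᶠ x in 𝓝[≠] (0 : ℝ), |evl f x - hdL f.2| < 1 := by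
    have h2 := (Metric.tendsto_nhds.mp ht) 1 one_pos
    filter_upwards [h2] with x hx
    rwa [Real.dist_eq] at hx
  rw [eventually_nhdsWithin_iff, Metric.eventually_nhds_iff] at hev
  obtain ⟨ε, hε, hev⟩ := hev
  obtain ⟨K, hK⟩ : ∃ K : Set ℝ, K = Icc (-R) (-ε) ∪ Icc ε R := ⟨_, rfl⟩
  have hKc : IsCompact K := by rw [hK]; exact isCompact_Icc.union isCompact_Icc
  have hcont : ContinuousOn (evl f) K := by
    intro x hx
    apply ContinuousAt.continuousWithinAt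
    apply continuousAt_evl
    rintro rfl
    rw [hK] at hx
    rcases hx with hx | hx
    · linarith [hx.2]
    · linarith [hx.1]
  obtain ⟨C, hC⟩ := hKc.exists_bound_of_continuousOn hcont
  refine ⟨max C (|(hdL f.2 : ℝ)| + 1), fun x hx hxR => ?_⟩
  by_cases hxε : |x| < ε
  · have h3 := hev (y := x) (by rwa [Real.dist_eq, sub_zero]) hx
    have h4 : |evl f x| ≤ |evl f x - hdL f.2| + |(hdL f.2 : ℝ)| := by
      have h5 := abs_add_le (evl f x - hdL f.2) (hdL f.2 : ℝ)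
      rwa [sub_add_cancel] at h5
    exact le_trans (by linarith) (le_max_right _ _)
  · push Not at hxε
    have hxK : x ∈ K := by
      rw [hK]
      rcases lt_or_gt_of_ne hx with h1 | h1
      · left
        rw [abs_of_neg h1] at hxε hxR
        exact ⟨by linarith, by linarith⟩
      · right
        rw [abs_of_pos h1] at hxε hxR
        exact ⟨hxε, hxR⟩
    have h3 := hC x hxK
    rw [Real.norm_eq_abs] at h3
    exact h3.trans (le_max_left _ _)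

theorem qqp_deriv : ∀ j ≤ 2, ∀ x : ℝ, x ≠ 0 → HasDerivAt (qqp j) (qqp (j + 1) x) x := by
  intro j hj x hx
  have h := (hasDerivAt_evl (derN j qp) (B04a_headp j (by omega)) hx).div_const (SC : ℝ)
  rw [← derN_succ] at h
  exact h

theorem qqm_deriv : ∀ j ≤ 2, ∀ x : ℝ, x ≠ 0 → HasDerivAt (qqm j) (qqm (j + 1) x) x := by
  intro j hj x hx
  have h := (hasDerivAt_evl (derN j qm) (B04a_headm j (by omega)) hx).div_const (SC : ℝ)
  rw [← derN_succ] at h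
  exact h

theorem qqp_bdd : ∀ j ≤ 3, ∃ B : ℝ, ∀ x ∈ Ioo (0 : ℝ) 8, |qqp j x| ≤ B := by
  intro j hj
  obtain ⟨B, hB⟩ := B04a_bdd (derN j qp) (B04a_headp j hj) (R := 8)
  refine ⟨B / |(SC : ℝ)|, fun x hx => ?_⟩
  rw [qqp, abs_div]
  exact div_le_div_of_nonneg_right (hB x hx.1.ne' (by rw [abs_of_pos hx.1]; exact hx.2.le))
    (abs_nonneg _)

theorem qqm_bdd : ∀ j ≤ 3, ∃ B : ℝ, ∀ x ∈ Ioo (-1 : ℝ) 0, |qqm j x| ≤ B := by
  intro j hj
  obtain ⟨B, hB⟩ := B04a_bdd (derN j qm) (B04a_headm j hj) (R := 1)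
  refine ⟨B / |(SC : ℝ)|, fun x hx => ?_⟩
  rw [qqm, abs_div]
  exact div_le_div_of_nonneg_right (hB x hx.2.ne (by rw [abs_of_neg hx.2]; linarith [hx.1]))
    (abs_nonneg _)

end Pool.Agent.Lib.MP_230119_an.EX
end

section

/-!
# Certificates (part 5)
-/

set_option autoImplicit false
set_option maxRecDepth 100000

namespace Pool.Agent.Lib.MP_230119_an.EX

/-- residual 0 -/
def d_rm0 : List ℤ × List ℤ := Rm 0
/-- bound -/
def m_rm0 : List ℤ := Mm 0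

theorem z_rm0 : chkPre 10 18 12 d_rm0.1 d_rm0.2 m_rm0 = true := by decide +kernel
theorem s_rm0_0 : chkSeg 10 18 12 0 d_rm0.1 d_rm0.2 m_rm0 = true := by decide +kernel
theorem s_rm0_1 : chkSeg 10 18 12 1 d_rm0.1 d_rm0.2 m_rm0 = true := by decide +kernel
theorem s_rm0_2 : chkSeg 10 18 12 2 d_rm0.1 d_rm0.2 m_rm0 = true := by decide +kernel
theorem s_rm0_3 : chkSeg 10 18 12 3 d_rm0.1 d_rm0.2 m_rm0 = true := by decide +kernel
theorem s_rm0_4 : chkSeg 10 18 12 4 d_rm0.1 d_rm0.2 m_rm0 = true := by decide +kernel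
theorem s_rm0_5 : chkSeg 10 18 12 5 d_rm0.1 d_rm0.2 m_rm0 = true := by decide +kernel
theorem s_rm0_6 : chkSeg 10 18 12 6 d_rm0.1 d_rm0.2 m_rm0 = true := by decide +kernel
theorem s_rm0_7 : chkSeg 10 18 12 7 d_rm0.1 d_rm0.2 m_rm0 = true := by decide +kernel
theorem s_rm0_8 : chkSeg 10 18 12 8 d_rm0.1 d_rm0.2 m_rm0 = true := by decide +kernel
theorem s_rm0_9 : chkSeg 10 18 12 9 d_rm0.1 d_rm0.2 m_rm0 = true := by decide +kernel
theorem s_rm0_10 : chkSeg 10 18 12 10 d_rm0.1 d_rm0.2 m_rm0 = true := by decide +kernel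
theorem s_rm0_11 : chkSeg 10 18 12 11 d_rm0.1 d_rm0.2 m_rm0 = true := by decide +kernel

theorem c_rm0 : chkAll 10 18 12 12 d_rm0.1 d_rm0.2 m_rm0 = true := by
  refine chkAll_of _ _ _ _ _ _ _ z_rm0 ?_
  intro i hi
  interval_cases i
  · exact s_rm0_0
  · exact s_rm0_1
  · exact s_rm0_2
  · exact s_rm0_3
  · exact s_rm0_4
  · exact s_rm0_5
  · exact s_rm0_6
  · exact s_rm0_7
  · exact s_rm0_8
  · exact s_rm0_9
  · exact s_rm0_10
  · exact s_rm0_11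

/-- residual 1 -/
def d_rm1 : List ℤ × List ℤ := Rm 1
/-- bound -/
def m_rm1 : List ℤ := Mm 1

theorem z_rm1 : chkPre 10 18 12 d_rm1.1 d_rm1.2 m_rm1 = true := by decide +kernel
theorem s_rm1_0 : chkSeg 10 18 12 0 d_rm1.1 d_rm1.2 m_rm1 = true := by decide +kernel
theorem s_rm1_1 : chkSeg 10 18 12 1 d_rm1.1 d_rm1.2 m_rm1 = true := by decide +kernel
theorem s_rm1_2 : chkSeg 10 18 12 2 d_rm1.1 d_rm1.2 m_rm1 = true := by decide +kernel
theorem s_rm1_3 : chkSeg 10 18 12 3 d_rm1.1 d_rm1.2 m_rm1 = true := by decide +kernel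
theorem s_rm1_4 : chkSeg 10 18 12 4 d_rm1.1 d_rm1.2 m_rm1 = true := by decide +kernel
theorem s_rm1_5 : chkSeg 10 18 12 5 d_rm1.1 d_rm1.2 m_rm1 = true := by decide +kernel
theorem s_rm1_6 : chkSeg 10 18 12 6 d_rm1.1 d_rm1.2 m_rm1 = true := by decide +kernel
theorem s_rm1_7 : chkSeg 10 18 12 7 d_rm1.1 d_rm1.2 m_rm1 = true := by decide +kernel
theorem s_rm1_8 : chkSeg 10 18 12 8 d_rm1.1 d_rm1.2 m_rm1 = true := by decide +kernel
theorem s_rm1_9 : chkSeg 10 18 12 9 d_rm1.1 d_rm1.2 m_rm1 = true := by decide +kernel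
theorem s_rm1_10 : chkSeg 10 18 12 10 d_rm1.1 d_rm1.2 m_rm1 = true := by decide +kernel
theorem s_rm1_11 : chkSeg 10 18 12 11 d_rm1.1 d_rm1.2 m_rm1 = true := by decide +kernel

theorem c_rm1 : chkAll 10 18 12 12 d_rm1.1 d_rm1.2 m_rm1 = true := by
  refine chkAll_of _ _ _ _ _ _ _ z_rm1 ?_
  intro i hi
  interval_cases i
  · exact s_rm1_0
  · exact s_rm1_1
  · exact s_rm1_2
  · exact s_rm1_3
  · exact s_rm1_4
  · exact s_rm1_5
  · exact s_rm1_6
  · exact s_rm1_7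
  · exact s_rm1_8
  · exact s_rm1_9
  · exact s_rm1_10
  · exact s_rm1_11

/-- residual 2 -/
def d_rm2 : List ℤ × List ℤ := Rm 2
/-- bound -/
def m_rm2 : List ℤ := Mm 2

theorem z_rm2 : chkPre 10 18 12 d_rm2.1 d_rm2.2 m_rm2 = true := by decide +kernel
theorem s_rm2_0 : chkSeg 10 18 12 0 d_rm2.1 d_rm2.2 m_rm2 = true := by decide +kernel
theorem s_rm2_1 : chkSeg 10 18 12 1 d_rm2.1 d_rm2.2 m_rm2 = true := by decide +kernel
theorem s_rm2_2 : chkSeg 10 18 12 2 d_rm2.1 d_rm2.2 m_rm2 = true := by decide +kernel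
theorem s_rm2_3 : chkSeg 10 18 12 3 d_rm2.1 d_rm2.2 m_rm2 = true := by decide +kernel
theorem s_rm2_4 : chkSeg 10 18 12 4 d_rm2.1 d_rm2.2 m_rm2 = true := by decide +kernel
theorem s_rm2_5 : chkSeg 10 18 12 5 d_rm2.1 d_rm2.2 m_rm2 = true := by decide +kernel
theorem s_rm2_6 : chkSeg 10 18 12 6 d_rm2.1 d_rm2.2 m_rm2 = true := by decide +kernel
theorem s_rm2_7 : chkSeg 10 18 12 7 d_rm2.1 d_rm2.2 m_rm2 = true := by decide +kernel
theorem s_rm2_8 : chkSeg 10 18 12 8 d_rm2.1 d_rm2.2 m_rm2 = true := by decide +kernel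
theorem s_rm2_9 : chkSeg 10 18 12 9 d_rm2.1 d_rm2.2 m_rm2 = true := by decide +kernel
theorem s_rm2_10 : chkSeg 10 18 12 10 d_rm2.1 d_rm2.2 m_rm2 = true := by decide +kernel
theorem s_rm2_11 : chkSeg 10 18 12 11 d_rm2.1 d_rm2.2 m_rm2 = true := by decide +kernel

theorem c_rm2 : chkAll 10 18 12 12 d_rm2.1 d_rm2.2 m_rm2 = true := by
  refine chkAll_of _ _ _ _ _ _ _ z_rm2 ?_
  intro i hi
  interval_cases i
  · exact s_rm2_0
  · exact s_rm2_1
  · exact s_rm2_2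
  · exact s_rm2_3
  · exact s_rm2_4
  · exact s_rm2_5
  · exact s_rm2_6
  · exact s_rm2_7
  · exact s_rm2_8
  · exact s_rm2_9
  · exact s_rm2_10
  · exact s_rm2_11

/-- residual 3 -/
def d_rm3 : List ℤ × List ℤ := Rm 3
/-- bound -/
def m_rm3 : List ℤ := Mm 3

theorem z_rm3 : chkPre 10 18 12 d_rm3.1 d_rm3.2 m_rm3 = true := by decide +kernel
theorem s_rm3_0 : chkSeg 10 18 12 0 d_rm3.1 d_rm3.2 m_rm3 = true := by decide +kernel
theorem s_rm3_1 : chkSeg 10 18 12 1 d_rm3.1 d_rm3.2 m_rm3 = true := by decide +kernel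
theorem s_rm3_2 : chkSeg 10 18 12 2 d_rm3.1 d_rm3.2 m_rm3 = true := by decide +kernel
theorem s_rm3_3 : chkSeg 10 18 12 3 d_rm3.1 d_rm3.2 m_rm3 = true := by decide +kernel
theorem s_rm3_4 : chkSeg 10 18 12 4 d_rm3.1 d_rm3.2 m_rm3 = true := by decide +kernel
theorem s_rm3_5 : chkSeg 10 18 12 5 d_rm3.1 d_rm3.2 m_rm3 = true := by decide +kernel
theorem s_rm3_6 : chkSeg 10 18 12 6 d_rm3.1 d_rm3.2 m_rm3 = true := by decide +kernel
theorem s_rm3_7 : chkSeg 10 18 12 7 d_rm3.1 d_rm3.2 m_rm3 = true := by decide +kernel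
theorem s_rm3_8 : chkSeg 10 18 12 8 d_rm3.1 d_rm3.2 m_rm3 = true := by decide +kernel
theorem s_rm3_9 : chkSeg 10 18 12 9 d_rm3.1 d_rm3.2 m_rm3 = true := by decide +kernel
theorem s_rm3_10 : chkSeg 10 18 12 10 d_rm3.1 d_rm3.2 m_rm3 = true := by decide +kernel
theorem s_rm3_11 : chkSeg 10 18 12 11 d_rm3.1 d_rm3.2 m_rm3 = true := by decide +kernel

theorem c_rm3 : chkAll 10 18 12 12 d_rm3.1 d_rm3.2 m_rm3 = true := by
  refine chkAll_of _ _ _ _ _ _ _ z_rm3 ?_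
  intro i hi
  interval_cases i
  · exact s_rm3_0
  · exact s_rm3_1
  · exact s_rm3_2
  · exact s_rm3_3
  · exact s_rm3_4
  · exact s_rm3_5
  · exact s_rm3_6
  · exact s_rm3_7
  · exact s_rm3_8
  · exact s_rm3_9
  · exact s_rm3_10
  · exact s_rm3_11

end Pool.Agent.Lib.MP_230119_an.EX
end

section

/-!
# Certificates on (-1,0)
-/

set_option autoImplicit false

open Set Filter Topology

namespace Pool.Agent.Lib.MP_230119_an.EX

theorem B04c_Mm (j : ℕ) (x : ℝ) : ev (Mm j) (-x) =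
    Cm j * ((7 * j * (j + 1) + 2) - (3 * j * (j + 1) + 1) * x) - j ^ 3 * Cm (j - 1) := by
  simp only [Mm, ev_addL, ev_smulL, ev]
  push_cast
  ring

theorem B04c_all : ∀ j ≤ 3, ∀ x ∈ Ioo (-1 : ℝ) 0, |evl (derN j qm) x| ≤ ev (Mm j) (-x) := by
  intro j hj x hx
  interval_cases j
  · exact chk_neg (f := derN 0 qm) (M := Mm 0) c_rm0 (by norm_num) hx.2 hx.1.le
  · exact chk_neg (f := derN 1 qm) (M := Mm 1) c_rm1 (by norm_num) hx.2 hx.1.le
  · exact chk_neg (f := derN 2 qm) (M := Mm 2) c_rm2 (by norm_num) hx.2 hx.1.le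
  · exact chk_neg (f := derN 3 qm) (M := Mm 3) c_rm3 (by norm_num) hx.2 hx.1.le

/-- from the certificates `c_rm0, ..., c_rm3` -/
theorem qqm_cert : ∀ j ≤ 3, ∀ x ∈ Ioo (-1 : ℝ) 0,
    |qqm j x| ≤ Cm j / SC * ((7 * j * (j + 1) + 2) - (3 * j * (j + 1) + 1) * x)
      - j ^ 3 * (Cm (j - 1) / SC) := by
  intro j hj x hx
  have hSC : (0 : ℝ) < SC := by norm_num [SC]
  have h := B04c_all j hj x hx
  rw [B04c_Mm] at h
  rw [qqm, abs_div, abs_of_pos hSC, div_le_iff₀ hSC]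
  refine h.trans (le_of_eq ?_)
  field_simp

end Pool.Agent.Lib.MP_230119_an.EX
end

section

/-!
# The start of the chain
-/

set_option autoImplicit false

open Set Filter Topology

namespace Pool.Agent.Lib.MP_230119_an.EX

private lemma B04d_qqp (x : ℝ) :
    qqp 0 x = -(evl (derP (pdP gp)) x + (x - 2) * evl gp x) / SC := by
  show evl qp x / SC = _
  rw [qp, evl_smulP, evl_opP]
  push_cast
  ring

private lemma B04d_qqm (x : ℝ) :
    qqm 0 x = -(evl (derP (pdP gm)) x + (x - 2) * evl gm x) / SC := by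
  show evl qm x / SC = _
  rw [qm, evl_smulP, evl_opP]
  push_cast
  ring

private lemma B04d_pp_ne {x : ℝ} (h1 : -1 < x) (h8 : x < 8) (h0 : x ≠ 0) : pp x ≠ 0 := by
  unfold pp
  have a : x + 1 ≠ 0 := by linarith
  have b : x - 8 ≠ 0 := by linarith
  exact mul_ne_zero (mul_ne_zero h0 a) b

/-- `v_0 = G - g^+` and its flux on `(0,8)` -/
theorem start_pos {G u : ℝ → ℝ} (h : GF G u) :
    (∀ x ∈ Ioo (0 : ℝ) 8, HasDerivAt (fun x => G x - evl gp x / SC)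
      ((u x - evl (pdP gp) x / SC) / pp x) x) ∧
    (∀ x ∈ Ioo (0 : ℝ) 8, HasDerivAt (fun x => u x - evl (pdP gp) x / SC)
      (qqp 0 x - (x - 2) * (G x - evl gp x / SC)) x) := by
  constructor
  · intro x hx
    have hx1 : x ∈ Ioo (-1 : ℝ) 8 := ⟨by linarith [hx.1], hx.2⟩
    have hx0 : x ≠ 0 := hx.1.ne'
    have hp := B04d_pp_ne hx1.1 hx1.2 hx0
    have h1 := h.hG x hx1 hx0
    have h2 := (hasDerivAt_evl_pd gp hx0 hp).div_const (SC : ℝ)
    refine (h1.sub h2).congr_deriv ?_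
    field_simp
  · intro x hx
    have hx1 : x ∈ Ioo (-1 : ℝ) 8 := ⟨by linarith [hx.1], hx.2⟩
    have hx0 : x ≠ 0 := hx.1.ne'
    have h1 := h.hu x hx1 hx0
    have h2 := (hasDerivAt_pd gp hx0).div_const (SC : ℝ)
    refine (h1.sub h2).congr_deriv ?_
    rw [B04d_qqp]
    ring

/-- `v_0 = G - g^-` and its flux on `(-1,0)` -/
theorem start_neg {G u : ℝ → ℝ} (h : GF G u) :
    (∀ x ∈ Ioo (-1 : ℝ) 0, HasDerivAt (fun x => G x - evl gm x / SC)
      ((u x - evl (pdP gm) x / SC) / pp x) x) ∧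
    (∀ x ∈ Ioo (-1 : ℝ) 0, HasDerivAt (fun x => u x - evl (pdP gm) x / SC)
      (qqm 0 x - (x - 2) * (G x - evl gm x / SC)) x) := by
  constructor
  · intro x hx
    have hx1 : x ∈ Ioo (-1 : ℝ) 8 := ⟨hx.1, by linarith [hx.2]⟩
    have hx0 : x ≠ 0 := hx.2.ne
    have hp := B04d_pp_ne hx1.1 hx1.2 hx0
    have h1 := h.hG x hx1 hx0
    have h2 := (hasDerivAt_evl_pd gm hx0 hp).div_const (SC : ℝ)
    refine (h1.sub h2).congr_deriv ?_
    field_simp
  · intro x hx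
    have hx1 : x ∈ Ioo (-1 : ℝ) 8 := ⟨hx.1, by linarith [hx.2]⟩
    have hx0 : x ≠ 0 := hx.2.ne
    have h1 := h.hu x hx1 hx0
    have h2 := (hasDerivAt_pd gm hx0).div_const (SC : ℝ)
    refine (h1.sub h2).congr_deriv ?_
    rw [B04d_qqm]
    ring

end Pool.Agent.Lib.MP_230119_an.EX
end

section

/-!
# The ends (0,8)
-/

set_option autoImplicit false

open Set Filter Topology

namespace Pool.Agent.Lib.MP_230119_an.EX

theorem B04e_SC : (0 : ℝ) < (SC : ℝ) := by norm_num [SC]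

/-- a convergent function is eventually bounded -/
theorem B04e_bdd {f : ℝ → ℝ} {l : Filter ℝ} {L : ℝ} (h : Tendsto f l (𝓝 L)) :
    ∃ B : ℝ, ∀ᶠ x in l, |f x| ≤ B :=
  ⟨|L| + 1, (h.abs.eventually (gt_mem_nhds (by linarith : |L| < |L| + 1))).mono fun _ hx => hx.le⟩

/-- the difference `G - evl g / SC` converges at `0` -/
theorem B04e_lim {G u : ℝ → ℝ} (h : GF G u) {g : List ℤ × List ℤ} (hg : hdL g.1 = -SC) :
    ∃ L : ℝ, Tendsto (fun x => G x - evl g x / SC) (𝓝[≠] 0) (𝓝 L) := by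
  obtain ⟨L, hL⟩ := h.limL
  have h2 := hL.sub ((tendsto_evl_log g hg).div_const (SC : ℝ))
  refine ⟨_, h2.congr fun x => ?_⟩
  have := B04e_SC.ne'
  field_simp
  ring

/-- the difference `G - evl g / SC` is continuous -/
theorem B04e_cont {G u : ℝ → ℝ} (h : GF G u) (g : List ℤ × List ℤ) {x : ℝ}
    (hx : x ∈ Ioo (-1 : ℝ) 8) (hx0 : x ≠ 0) : ContinuousAt (fun x => G x - evl g x / SC) x :=
  (h.hG x hx hx0).continuousAt.sub ((continuousAt_evl g hx0).div_const _)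

/-- near the outer ends the difference is bounded -/
theorem B04e_out {G u : ℝ → ℝ} (h : GF G u) (g : List ℤ × List ℤ) {a : ℝ} (ha : a ≠ 0)
    {l : Filter ℝ} (hl : l ≤ 𝓝 a)
    (hm : ∀ᶠ x in l, x ∈ Ioo (-1 : ℝ) 8 ∧ x ≠ 0 ∧ (x ≤ -(1 / 2) ∨ 1 ≤ x)) :
    ∃ B : ℝ, ∀ᶠ x in l, |G x - evl g x / SC| ≤ B := by
  obtain ⟨C, hC⟩ := h.bdd
  obtain ⟨B, hB⟩ := B04e_bdd (((continuousAt_evl g ha).div_const (SC : ℝ)).tendsto.mono_left hl)
  refine ⟨C + B, ?_⟩
  filter_upwards [hB, hm] with x hx hx2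
  have h1 := h.pos x hx2.1 hx2.2.1
  have h2 := hC x hx2.1 hx2.2.2
  have h3 : |G x| ≤ C := by rw [abs_of_pos h1]; exact h2
  refine (abs_sub _ _).trans (add_le_add h3 hx)

theorem B04e_pd8 (g : List ℤ × List ℤ) : evl (pdP g) 8 = 0 := by
  have h0 : ev P0L 8 = 0 := by norm_num [P0L, ev]
  have h1 : ev P1L 8 = 0 := by norm_num [P1L, ev]
  simp only [evl, pdP, ev_addL, ev_mulL, h0, h1, zero_mul, add_zero]

theorem ends_pos {G u : ℝ → ℝ} (h : GF G u) :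
    (∃ B : ℝ, ∀ x ∈ Ioo (0 : ℝ) 8, |G x - evl gp x / SC| ≤ B) ∧
    Tendsto (fun x => u x - evl (pdP gp) x / SC) (𝓝[>] 0) (𝓝 0) ∧
    Tendsto (fun x => u x - evl (pdP gp) x / SC) (𝓝[<] 8) (𝓝 0) := by
  obtain ⟨-, -, -, -, -, -, -, -, hgp, -, -, hp1, hp2, -, -⟩ := heads
  have hgt : 𝓝[>] (0 : ℝ) ≤ 𝓝[≠] 0 := nhdsWithin_mono _ (fun x hx => ne_of_gt hx)
  refine ⟨?_, ?_, ?_⟩
  · refine bounded_of_ends (fun x hx => ?_) ?_ ?_
    · exact (B04e_cont h gp ⟨by linarith [hx.1], hx.2⟩ hx.1.ne').continuousWithinAt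
    · obtain ⟨L, hL⟩ := B04e_lim h hgp
      exact B04e_bdd (hL.mono_left hgt)
    · refine B04e_out h gp (a := 8) (by norm_num) nhdsWithin_le_nhds ?_
      filter_upwards [Ioo_mem_nhdsLT (show (1 : ℝ) < 8 by norm_num)] with x hx
      exact ⟨⟨by linarith [hx.1], hx.2⟩, by linarith [hx.1], Or.inr hx.1.le⟩
  · have h3 := tendsto_evl (pdP gp) hp1
    rw [hp2] at h3
    have h4 := (h.lim0.sub (h3.div_const (SC : ℝ))).mono_left hgt
    have h5 : (8 : ℝ) - ((8 * SC : ℤ) : ℝ) / SC = 0 := by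
      push_cast
      have := B04e_SC.ne'
      field_simp
      ring
    rw [h5] at h4
    exact h4
  · have h3 : Tendsto (evl (pdP gp)) (𝓝[<] 8) (𝓝 0) := by
      have := (continuousAt_evl (pdP gp) (show (8 : ℝ) ≠ 0 by norm_num)).tendsto
      rw [B04e_pd8] at this
      exact this.mono_left nhdsWithin_le_nhds
    have h4 := h.lim8.sub (h3.div_const (SC : ℝ))
    rw [zero_div, sub_zero] at h4
    exact h4

end Pool.Agent.Lib.MP_230119_an.EX
end
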