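import Pool.Agent.Lib.MP_230119_an.Mg.G001
import Pool.Agent.Lib.MP_230119_an.Mg.G003

section

/-!
# Certificates (part 0)
-/

set_option autoImplicit false
set_option maxRecDepth 100000

namespace Pool.Agent.Lib.MP_230119_an.EX

/-- residual 0 -/
def d_rp0 : List ℤ × List ℤ := Rp 0
/-- bound -/
def m_rp0 : List ℤ := Mp 0

theorem z_rp0 : chkPre 10 18 12 d_rp0.1 d_rp0.2 m_rp0 = true := by decide +kernel
theorem s_rp0_0 : chkSeg 10 18 12 0 d_rp0.1 d_rp0.2 m_rp0 = true := by decide +kernel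
theorem s_rp0_1 : chkSeg 10 18 12 1 d_rp0.1 d_rp0.2 m_rp0 = true := by decide +kernel
theorem s_rp0_2 : chkSeg 10 18 12 2 d_rp0.1 d_rp0.2 m_rp0 = true := by decide +kernel
theorem s_rp0_3 : chkSeg 10 18 12 3 d_rp0.1 d_rp0.2 m_rp0 = true := by decide +kernel
theorem s_rp0_4 : chkSeg 10 18 12 4 d_rp0.1 d_rp0.2 m_rp0 = true := by decide +kernel
theorem s_rp0_5 : chkSeg 10 18 12 5 d_rp0.1 d_rp0.2 m_rp0 = true := by decide +kernel
theorem s_rp0_6 : chkSeg 10 18 12 6 d_rp0.1 d_rp0.2 m_rp0 = true := by decide +kernel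
theorem s_rp0_7 : chkSeg 10 18 12 7 d_rp0.1 d_rp0.2 m_rp0 = true := by decide +kernel
theorem s_rp0_8 : chkSeg 10 18 12 8 d_rp0.1 d_rp0.2 m_rp0 = true := by decide +kernel
theorem s_rp0_9 : chkSeg 10 18 12 9 d_rp0.1 d_rp0.2 m_rp0 = true := by decide +kernel
theorem s_rp0_10 : chkSeg 10 18 12 10 d_rp0.1 d_rp0.2 m_rp0 = true := by decide +kernel
theorem s_rp0_11 : chkSeg 10 18 12 11 d_rp0.1 d_rp0.2 m_rp0 = true := by decide +kernel
theorem s_rp0_12 : chkSeg 10 18 12 12 d_rp0.1 d_rp0.2 m_rp0 = true := by decide +kernel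
theorem s_rp0_13 : chkSeg 10 18 12 13 d_rp0.1 d_rp0.2 m_rp0 = true := by decide +kernel
theorem s_rp0_14 : chkSeg 10 18 12 14 d_rp0.1 d_rp0.2 m_rp0 = true := by decide +kernel

theorem c_rp0 : chkAll 10 18 12 15 d_rp0.1 d_rp0.2 m_rp0 = true := by
  refine chkAll_of _ _ _ _ _ _ _ z_rp0 ?_
  intro i hi
  interval_cases i
  · exact s_rp0_0
  · exact s_rp0_1
  · exact s_rp0_2
  · exact s_rp0_3
  · exact s_rp0_4
  · exact s_rp0_5
  · exact s_rp0_6
  · exact s_rp0_7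
  · exact s_rp0_8
  · exact s_rp0_9
  · exact s_rp0_10
  · exact s_rp0_11
  · exact s_rp0_12
  · exact s_rp0_13
  · exact s_rp0_14

/-- residual 1 -/
def d_rp1 : List ℤ × List ℤ := Rp 1
/-- bound -/
def m_rp1 : List ℤ := Mp 1

theorem z_rp1 : chkPre 10 18 12 d_rp1.1 d_rp1.2 m_rp1 = true := by decide +kernel
theorem s_rp1_0 : chkSeg 10 18 12 0 d_rp1.1 d_rp1.2 m_rp1 = true := by decide +kernel
theorem s_rp1_1 : chkSeg 10 18 12 1 d_rp1.1 d_rp1.2 m_rp1 = true := by decide +kernel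
theorem s_rp1_2 : chkSeg 10 18 12 2 d_rp1.1 d_rp1.2 m_rp1 = true := by decide +kernel
theorem s_rp1_3 : chkSeg 10 18 12 3 d_rp1.1 d_rp1.2 m_rp1 = true := by decide +kernel
theorem s_rp1_4 : chkSeg 10 18 12 4 d_rp1.1 d_rp1.2 m_rp1 = true := by decide +kernel
theorem s_rp1_5 : chkSeg 10 18 12 5 d_rp1.1 d_rp1.2 m_rp1 = true := by decide +kernel
theorem s_rp1_6 : chkSeg 10 18 12 6 d_rp1.1 d_rp1.2 m_rp1 = true := by decide +kernel
theorem s_rp1_7 : chkSeg 10 18 12 7 d_rp1.1 d_rp1.2 m_rp1 = true := by decide +kernel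
theorem s_rp1_8 : chkSeg 10 18 12 8 d_rp1.1 d_rp1.2 m_rp1 = true := by decide +kernel
theorem s_rp1_9 : chkSeg 10 18 12 9 d_rp1.1 d_rp1.2 m_rp1 = true := by decide +kernel
theorem s_rp1_10 : chkSeg 10 18 12 10 d_rp1.1 d_rp1.2 m_rp1 = true := by decide +kernel
theorem s_rp1_11 : chkSeg 10 18 12 11 d_rp1.1 d_rp1.2 m_rp1 = true := by decide +kernel
theorem s_rp1_12 : chkSeg 10 18 12 12 d_rp1.1 d_rp1.2 m_rp1 = true := by decide +kernel
theorem s_rp1_13 : chkSeg 10 18 12 13 d_rp1.1 d_rp1.2 m_rp1 = true := by decide +kernel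
theorem s_rp1_14 : chkSeg 10 18 12 14 d_rp1.1 d_rp1.2 m_rp1 = true := by decide +kernel

theorem c_rp1 : chkAll 10 18 12 15 d_rp1.1 d_rp1.2 m_rp1 = true := by
  refine chkAll_of _ _ _ _ _ _ _ z_rp1 ?_
  intro i hi
  interval_cases i
  · exact s_rp1_0
  · exact s_rp1_1
  · exact s_rp1_2
  · exact s_rp1_3
  · exact s_rp1_4
  · exact s_rp1_5
  · exact s_rp1_6
  · exact s_rp1_7
  · exact s_rp1_8
  · exact s_rp1_9
  · exact s_rp1_10
  · exact s_rp1_11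
  · exact s_rp1_12
  · exact s_rp1_13
  · exact s_rp1_14

end Pool.Agent.Lib.MP_230119_an.EX
end

section

/-!
# Certificates (part 1)
-/

set_option autoImplicit false
set_option maxRecDepth 100000

namespace Pool.Agent.Lib.MP_230119_an.EX

/-- residual 2 -/
def d_rp2 : List ℤ × List ℤ := Rp 2
/-- bound -/
def m_rp2 : List ℤ := Mp 2

theorem z_rp2 : chkPre 10 18 12 d_rp2.1 d_rp2.2 m_rp2 = true := by decide +kernel
theorem s_rp2_0 : chkSeg 10 18 12 0 d_rp2.1 d_rp2.2 m_rp2 = true := by decide +kernel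
theorem s_rp2_1 : chkSeg 10 18 12 1 d_rp2.1 d_rp2.2 m_rp2 = true := by decide +kernel
theorem s_rp2_2 : chkSeg 10 18 12 2 d_rp2.1 d_rp2.2 m_rp2 = true := by decide +kernel
theorem s_rp2_3 : chkSeg 10 18 12 3 d_rp2.1 d_rp2.2 m_rp2 = true := by decide +kernel
theorem s_rp2_4 : chkSeg 10 18 12 4 d_rp2.1 d_rp2.2 m_rp2 = true := by decide +kernel
theorem s_rp2_5 : chkSeg 10 18 12 5 d_rp2.1 d_rp2.2 m_rp2 = true := by decide +kernel
theorem s_rp2_6 : chkSeg 10 18 12 6 d_rp2.1 d_rp2.2 m_rp2 = true := by decide +kernel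
theorem s_rp2_7 : chkSeg 10 18 12 7 d_rp2.1 d_rp2.2 m_rp2 = true := by decide +kernel
theorem s_rp2_8 : chkSeg 10 18 12 8 d_rp2.1 d_rp2.2 m_rp2 = true := by decide +kernel
theorem s_rp2_9 : chkSeg 10 18 12 9 d_rp2.1 d_rp2.2 m_rp2 = true := by decide +kernel
theorem s_rp2_10 : chkSeg 10 18 12 10 d_rp2.1 d_rp2.2 m_rp2 = true := by decide +kernel
theorem s_rp2_11 : chkSeg 10 18 12 11 d_rp2.1 d_rp2.2 m_rp2 = true := by decide +kernel
theorem s_rp2_12 : chkSeg 10 18 12 12 d_rp2.1 d_rp2.2 m_rp2 = true := by decide +kernel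
theorem s_rp2_13 : chkSeg 10 18 12 13 d_rp2.1 d_rp2.2 m_rp2 = true := by decide +kernel
theorem s_rp2_14 : chkSeg 10 18 12 14 d_rp2.1 d_rp2.2 m_rp2 = true := by decide +kernel

theorem c_rp2 : chkAll 10 18 12 15 d_rp2.1 d_rp2.2 m_rp2 = true := by
  refine chkAll_of _ _ _ _ _ _ _ z_rp2 ?_
  intro i hi
  interval_cases i
  · exact s_rp2_0
  · exact s_rp2_1
  · exact s_rp2_2
  · exact s_rp2_3
  · exact s_rp2_4
  · exact s_rp2_5
  · exact s_rp2_6
  · exact s_rp2_7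
  · exact s_rp2_8
  · exact s_rp2_9
  · exact s_rp2_10
  · exact s_rp2_11
  · exact s_rp2_12
  · exact s_rp2_13
  · exact s_rp2_14

/-- residual 3 -/
def d_rp3 : List ℤ × List ℤ := Rp 3
/-- bound -/
def m_rp3 : List ℤ := Mp 3

theorem z_rp3 : chkPre 10 18 12 d_rp3.1 d_rp3.2 m_rp3 = true := by decide +kernel
theorem s_rp3_0 : chkSeg 10 18 12 0 d_rp3.1 d_rp3.2 m_rp3 = true := by decide +kernel
theorem s_rp3_1 : chkSeg 10 18 12 1 d_rp3.1 d_rp3.2 m_rp3 = true := by decide +kernel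
theorem s_rp3_2 : chkSeg 10 18 12 2 d_rp3.1 d_rp3.2 m_rp3 = true := by decide +kernel
theorem s_rp3_3 : chkSeg 10 18 12 3 d_rp3.1 d_rp3.2 m_rp3 = true := by decide +kernel
theorem s_rp3_4 : chkSeg 10 18 12 4 d_rp3.1 d_rp3.2 m_rp3 = true := by decide +kernel
theorem s_rp3_5 : chkSeg 10 18 12 5 d_rp3.1 d_rp3.2 m_rp3 = true := by decide +kernel
theorem s_rp3_6 : chkSeg 10 18 12 6 d_rp3.1 d_rp3.2 m_rp3 = true := by decide +kernel
theorem s_rp3_7 : chkSeg 10 18 12 7 d_rp3.1 d_rp3.2 m_rp3 = true := by decide +kernel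
theorem s_rp3_8 : chkSeg 10 18 12 8 d_rp3.1 d_rp3.2 m_rp3 = true := by decide +kernel
theorem s_rp3_9 : chkSeg 10 18 12 9 d_rp3.1 d_rp3.2 m_rp3 = true := by decide +kernel
theorem s_rp3_10 : chkSeg 10 18 12 10 d_rp3.1 d_rp3.2 m_rp3 = true := by decide +kernel
theorem s_rp3_11 : chkSeg 10 18 12 11 d_rp3.1 d_rp3.2 m_rp3 = true := by decide +kernel
theorem s_rp3_12 : chkSeg 10 18 12 12 d_rp3.1 d_rp3.2 m_rp3 = true := by decide +kernel
theorem s_rp3_13 : chkSeg 10 18 12 13 d_rp3.1 d_rp3.2 m_rp3 = true := by decide +kernel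
theorem s_rp3_14 : chkSeg 10 18 12 14 d_rp3.1 d_rp3.2 m_rp3 = true := by decide +kernel

theorem c_rp3 : chkAll 10 18 12 15 d_rp3.1 d_rp3.2 m_rp3 = true := by
  refine chkAll_of _ _ _ _ _ _ _ z_rp3 ?_
  intro i hi
  interval_cases i
  · exact s_rp3_0
  · exact s_rp3_1
  · exact s_rp3_2
  · exact s_rp3_3
  · exact s_rp3_4
  · exact s_rp3_5
  · exact s_rp3_6
  · exact s_rp3_7
  · exact s_rp3_8
  · exact s_rp3_9
  · exact s_rp3_10
  · exact s_rp3_11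
  · exact s_rp3_12
  · exact s_rp3_13
  · exact s_rp3_14

end Pool.Agent.Lib.MP_230119_an.EX
end

section

/-!
# Certificates on (0,8)
-/

set_option autoImplicit false

open Set Filter Topology

namespace Pool.Agent.Lib.MP_230119_an.EX

theorem B04b_Wp (n : ℕ) (x : ℝ) : ev (Wp n) x = (1 + x) ^ n * (5 + x) := by
  induction n with
  | zero =>
    simp only [Wp, ev]
    push_cast
    ring
  | succ n ih =>
    simp only [Wp, ev_mulL, ih, ev]
    push_cast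
    ring

theorem B04b_Mp (j : ℕ) (x : ℝ) : ev (Mp j) x =
    Cp j * ((4 * j ^ 2 + 2 * j + 1) * x ^ 2 + 4 * (2 * j ^ 2 + j) * x + 4 * (j ^ 2 + 5 * j + 2))
        - 4 * j ^ 3 * Cp (j - 1) * (1 + x) ^ 2 := by
  simp only [Mp, ev_addL, ev_smulL, ev]
  push_cast
  ring

theorem B04b_all : ∀ j ≤ 3, ∀ x ∈ Ioo (0 : ℝ) 8, |evl (Rp j) x| ≤ ev (Mp j) x := by
  intro j hj x hx
  interval_cases j
  · exact chk_pos (f := Rp 0) (M := Mp 0) c_rp0 (by norm_num) hx.1 hx.2.le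
  · exact chk_pos (f := Rp 1) (M := Mp 1) c_rp1 (by norm_num) hx.1 hx.2.le
  · exact chk_pos (f := Rp 2) (M := Mp 2) c_rp2 (by norm_num) hx.1 hx.2.le
  · exact chk_pos (f := Rp 3) (M := Mp 3) c_rp3 (by norm_num) hx.1 hx.2.le

/-- from the certificates `c_rp0, ..., c_rp3` -/
theorem qqp_cert : ∀ j ≤ 3, ∀ x ∈ Ioo (0 : ℝ) 8,
    (1 + x) ^ (j + 1) * (5 + x) * |qqp j x| ≤
      Cp j / SC * ((4 * j ^ 2 + 2 * j + 1) * x ^ 2 + 4 * (2 * j ^ 2 + j) * x + 4 * (j ^ 2 + 5 * j + 2))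
        - 4 * j ^ 3 * (Cp (j - 1) / SC) * (1 + x) ^ 2 := by
  intro j hj x hx
  have hSC : (0 : ℝ) < SC := by norm_num [SC]
  have h := B04b_all j hj x hx
  rw [B04b_Mp, Rp, evl_mulP, B04b_Wp, abs_mul] at h
  have hW : 0 < (1 + x) ^ (j + 1) * (5 + x) := by
    have h1 := hx.1
    positivity
  rw [abs_of_pos hW] at h
  rw [qqp, abs_div, abs_of_pos hSC]
  have h2 : (1 + x) ^ (j + 1) * (5 + x) * (|evl (derN j qp) x| / SC) =
      ((1 + x) ^ (j + 1) * (5 + x) * |evl (derN j qp) x|) / SC := by ring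
  rw [h2, div_le_iff₀ hSC]
  refine h.trans (le_of_eq ?_)
  field_simp

end Pool.Agent.Lib.MP_230119_an.EX
end
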