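import Pool.Agent.Lib.MP_230119_an.Mg.G001
import Pool.Agent.Lib.MP_230119_an.Mg.G002
import Pool.Agent.Lib.MP_230119_an.Mg.G003

section

/-!
# Certificates (part 6)
-/

set_option autoImplicit false
set_option maxRecDepth 100000

namespace Pool.Agent.Lib.MP_230119_an.EX

/-- F1 -/
def d_fm11 : List ℤ × List ℤ := Fm1 1
/-- bound -/
def m_fm11 : List ℤ := [2 * (SC * LI)]

theorem z_fm11 : chkPre 10 18 10 d_fm11.1 d_fm11.2 m_fm11 = true := by decide +kernel
theorem s_fm11_0 : chkSeg 10 18 10 0 d_fm11.1 d_fm11.2 m_fm11 = true := by decide +kernel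
theorem s_fm11_1 : chkSeg 10 18 10 1 d_fm11.1 d_fm11.2 m_fm11 = true := by decide +kernel
theorem s_fm11_2 : chkSeg 10 18 10 2 d_fm11.1 d_fm11.2 m_fm11 = true := by decide +kernel
theorem s_fm11_3 : chkSeg 10 18 10 3 d_fm11.1 d_fm11.2 m_fm11 = true := by decide +kernel
theorem s_fm11_4 : chkSeg 10 18 10 4 d_fm11.1 d_fm11.2 m_fm11 = true := by decide +kernel
theorem s_fm11_5 : chkSeg 10 18 10 5 d_fm11.1 d_fm11.2 m_fm11 = true := by decide +kernel
theorem s_fm11_6 : chkSeg 10 18 10 6 d_fm11.1 d_fm11.2 m_fm11 = true := by decide +kernel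
theorem s_fm11_7 : chkSeg 10 18 10 7 d_fm11.1 d_fm11.2 m_fm11 = true := by decide +kernel
theorem s_fm11_8 : chkSeg 10 18 10 8 d_fm11.1 d_fm11.2 m_fm11 = true := by decide +kernel
theorem s_fm11_9 : chkSeg 10 18 10 9 d_fm11.1 d_fm11.2 m_fm11 = true := by decide +kernel

theorem c_fm11 : chkAll 10 18 10 10 d_fm11.1 d_fm11.2 m_fm11 = true := by
  refine chkAll_of _ _ _ _ _ _ _ z_fm11 ?_
  intro i hi
  interval_cases i
  · exact s_fm11_0
  · exact s_fm11_1
  · exact s_fm11_2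
  · exact s_fm11_3
  · exact s_fm11_4
  · exact s_fm11_5
  · exact s_fm11_6
  · exact s_fm11_7
  · exact s_fm11_8
  · exact s_fm11_9

/-- F1 -/
def d_fm12 : List ℤ × List ℤ := Fm1 2
/-- bound -/
def m_fm12 : List ℤ := [10 * (SC * LI)]

theorem z_fm12 : chkPre 10 18 10 d_fm12.1 d_fm12.2 m_fm12 = true := by decide +kernel
theorem s_fm12_0 : chkSeg 10 18 10 0 d_fm12.1 d_fm12.2 m_fm12 = true := by decide +kernel
theorem s_fm12_1 : chkSeg 10 18 10 1 d_fm12.1 d_fm12.2 m_fm12 = true := by decide +kernel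
theorem s_fm12_2 : chkSeg 10 18 10 2 d_fm12.1 d_fm12.2 m_fm12 = true := by decide +kernel
theorem s_fm12_3 : chkSeg 10 18 10 3 d_fm12.1 d_fm12.2 m_fm12 = true := by decide +kernel
theorem s_fm12_4 : chkSeg 10 18 10 4 d_fm12.1 d_fm12.2 m_fm12 = true := by decide +kernel
theorem s_fm12_5 : chkSeg 10 18 10 5 d_fm12.1 d_fm12.2 m_fm12 = true := by decide +kernel
theorem s_fm12_6 : chkSeg 10 18 10 6 d_fm12.1 d_fm12.2 m_fm12 = true := by decide +kernel
theorem s_fm12_7 : chkSeg 10 18 10 7 d_fm12.1 d_fm12.2 m_fm12 = true := by decide +kernel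
theorem s_fm12_8 : chkSeg 10 18 10 8 d_fm12.1 d_fm12.2 m_fm12 = true := by decide +kernel
theorem s_fm12_9 : chkSeg 10 18 10 9 d_fm12.1 d_fm12.2 m_fm12 = true := by decide +kernel

theorem c_fm12 : chkAll 10 18 10 10 d_fm12.1 d_fm12.2 m_fm12 = true := by
  refine chkAll_of _ _ _ _ _ _ _ z_fm12 ?_
  intro i hi
  interval_cases i
  · exact s_fm12_0
  · exact s_fm12_1
  · exact s_fm12_2
  · exact s_fm12_3
  · exact s_fm12_4
  · exact s_fm12_5
  · exact s_fm12_6
  · exact s_fm12_7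
  · exact s_fm12_8
  · exact s_fm12_9

/-- F1 -/
def d_fm13 : List ℤ × List ℤ := Fm1 3
/-- bound -/
def m_fm13 : List ℤ := [26 * (SC * LI)]

theorem z_fm13 : chkPre 10 18 10 d_fm13.1 d_fm13.2 m_fm13 = true := by decide +kernel
theorem s_fm13_0 : chkSeg 10 18 10 0 d_fm13.1 d_fm13.2 m_fm13 = true := by decide +kernel
theorem s_fm13_1 : chkSeg 10 18 10 1 d_fm13.1 d_fm13.2 m_fm13 = true := by decide +kernel
theorem s_fm13_2 : chkSeg 10 18 10 2 d_fm13.1 d_fm13.2 m_fm13 = true := by decide +kernel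
theorem s_fm13_3 : chkSeg 10 18 10 3 d_fm13.1 d_fm13.2 m_fm13 = true := by decide +kernel
theorem s_fm13_4 : chkSeg 10 18 10 4 d_fm13.1 d_fm13.2 m_fm13 = true := by decide +kernel
theorem s_fm13_5 : chkSeg 10 18 10 5 d_fm13.1 d_fm13.2 m_fm13 = true := by decide +kernel
theorem s_fm13_6 : chkSeg 10 18 10 6 d_fm13.1 d_fm13.2 m_fm13 = true := by decide +kernel
theorem s_fm13_7 : chkSeg 10 18 10 7 d_fm13.1 d_fm13.2 m_fm13 = true := by decide +kernel
theorem s_fm13_8 : chkSeg 10 18 10 8 d_fm13.1 d_fm13.2 m_fm13 = true := by decide +kernel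
theorem s_fm13_9 : chkSeg 10 18 10 9 d_fm13.1 d_fm13.2 m_fm13 = true := by decide +kernel

theorem c_fm13 : chkAll 10 18 10 10 d_fm13.1 d_fm13.2 m_fm13 = true := by
  refine chkAll_of _ _ _ _ _ _ _ z_fm13 ?_
  intro i hi
  interval_cases i
  · exact s_fm13_0
  · exact s_fm13_1
  · exact s_fm13_2
  · exact s_fm13_3
  · exact s_fm13_4
  · exact s_fm13_5
  · exact s_fm13_6
  · exact s_fm13_7
  · exact s_fm13_8
  · exact s_fm13_9

end Pool.Agent.Lib.MP_230119_an.EX
end

section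

/-!
# Certificates (part 7)
-/

set_option autoImplicit false
set_option maxRecDepth 100000

namespace Pool.Agent.Lib.MP_230119_an.EX

/-- F2 -/
def d_fm20 : List ℤ × List ℤ := Fm2 0
/-- bound -/
def m_fm20 : List ℤ := [1 * SC / 10]

theorem z_fm20 : chkPre 10 18 10 d_fm20.1 d_fm20.2 m_fm20 = true := by decide +kernel
theorem s_fm20_0 : chkSeg 10 18 10 0 d_fm20.1 d_fm20.2 m_fm20 = true := by decide +kernel
theorem s_fm20_1 : chkSeg 10 18 10 1 d_fm20.1 d_fm20.2 m_fm20 = true := by decide +kernel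
theorem s_fm20_2 : chkSeg 10 18 10 2 d_fm20.1 d_fm20.2 m_fm20 = true := by decide +kernel
theorem s_fm20_3 : chkSeg 10 18 10 3 d_fm20.1 d_fm20.2 m_fm20 = true := by decide +kernel
theorem s_fm20_4 : chkSeg 10 18 10 4 d_fm20.1 d_fm20.2 m_fm20 = true := by decide +kernel
theorem s_fm20_5 : chkSeg 10 18 10 5 d_fm20.1 d_fm20.2 m_fm20 = true := by decide +kernel
theorem s_fm20_6 : chkSeg 10 18 10 6 d_fm20.1 d_fm20.2 m_fm20 = true := by decide +kernel
theorem s_fm20_7 : chkSeg 10 18 10 7 d_fm20.1 d_fm20.2 m_fm20 = true := by decide +kernel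
theorem s_fm20_8 : chkSeg 10 18 10 8 d_fm20.1 d_fm20.2 m_fm20 = true := by decide +kernel
theorem s_fm20_9 : chkSeg 10 18 10 9 d_fm20.1 d_fm20.2 m_fm20 = true := by decide +kernel

theorem c_fm20 : chkAll 10 18 10 10 d_fm20.1 d_fm20.2 m_fm20 = true := by
  refine chkAll_of _ _ _ _ _ _ _ z_fm20 ?_
  intro i hi
  interval_cases i
  · exact s_fm20_0
  · exact s_fm20_1
  · exact s_fm20_2
  · exact s_fm20_3
  · exact s_fm20_4
  · exact s_fm20_5
  · exact s_fm20_6
  · exact s_fm20_7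
  · exact s_fm20_8
  · exact s_fm20_9

/-- F2 -/
def d_fm21 : List ℤ × List ℤ := Fm2 1
/-- bound -/
def m_fm21 : List ℤ := [3 * SC / 10]

theorem z_fm21 : chkPre 10 18 10 d_fm21.1 d_fm21.2 m_fm21 = true := by decide +kernel
theorem s_fm21_0 : chkSeg 10 18 10 0 d_fm21.1 d_fm21.2 m_fm21 = true := by decide +kernel
theorem s_fm21_1 : chkSeg 10 18 10 1 d_fm21.1 d_fm21.2 m_fm21 = true := by decide +kernel
theorem s_fm21_2 : chkSeg 10 18 10 2 d_fm21.1 d_fm21.2 m_fm21 = true := by decide +kernel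
theorem s_fm21_3 : chkSeg 10 18 10 3 d_fm21.1 d_fm21.2 m_fm21 = true := by decide +kernel
theorem s_fm21_4 : chkSeg 10 18 10 4 d_fm21.1 d_fm21.2 m_fm21 = true := by decide +kernel
theorem s_fm21_5 : chkSeg 10 18 10 5 d_fm21.1 d_fm21.2 m_fm21 = true := by decide +kernel
theorem s_fm21_6 : chkSeg 10 18 10 6 d_fm21.1 d_fm21.2 m_fm21 = true := by decide +kernel
theorem s_fm21_7 : chkSeg 10 18 10 7 d_fm21.1 d_fm21.2 m_fm21 = true := by decide +kernel
theorem s_fm21_8 : chkSeg 10 18 10 8 d_fm21.1 d_fm21.2 m_fm21 = true := by decide +kernel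
theorem s_fm21_9 : chkSeg 10 18 10 9 d_fm21.1 d_fm21.2 m_fm21 = true := by decide +kernel

theorem c_fm21 : chkAll 10 18 10 10 d_fm21.1 d_fm21.2 m_fm21 = true := by
  refine chkAll_of _ _ _ _ _ _ _ z_fm21 ?_
  intro i hi
  interval_cases i
  · exact s_fm21_0
  · exact s_fm21_1
  · exact s_fm21_2
  · exact s_fm21_3
  · exact s_fm21_4
  · exact s_fm21_5
  · exact s_fm21_6
  · exact s_fm21_7
  · exact s_fm21_8
  · exact s_fm21_9

/-- F2 -/
def d_fm22 : List ℤ × List ℤ := Fm2 2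
/-- bound -/
def m_fm22 : List ℤ := [14 * SC / 10]

theorem z_fm22 : chkPre 10 18 10 d_fm22.1 d_fm22.2 m_fm22 = true := by decide +kernel
theorem s_fm22_0 : chkSeg 10 18 10 0 d_fm22.1 d_fm22.2 m_fm22 = true := by decide +kernel
theorem s_fm22_1 : chkSeg 10 18 10 1 d_fm22.1 d_fm22.2 m_fm22 = true := by decide +kernel
theorem s_fm22_2 : chkSeg 10 18 10 2 d_fm22.1 d_fm22.2 m_fm22 = true := by decide +kernel
theorem s_fm22_3 : chkSeg 10 18 10 3 d_fm22.1 d_fm22.2 m_fm22 = true := by decide +kernel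
theorem s_fm22_4 : chkSeg 10 18 10 4 d_fm22.1 d_fm22.2 m_fm22 = true := by decide +kernel
theorem s_fm22_5 : chkSeg 10 18 10 5 d_fm22.1 d_fm22.2 m_fm22 = true := by decide +kernel
theorem s_fm22_6 : chkSeg 10 18 10 6 d_fm22.1 d_fm22.2 m_fm22 = true := by decide +kernel
theorem s_fm22_7 : chkSeg 10 18 10 7 d_fm22.1 d_fm22.2 m_fm22 = true := by decide +kernel
theorem s_fm22_8 : chkSeg 10 18 10 8 d_fm22.1 d_fm22.2 m_fm22 = true := by decide +kernel
theorem s_fm22_9 : chkSeg 10 18 10 9 d_fm22.1 d_fm22.2 m_fm22 = true := by decide +kernel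

theorem c_fm22 : chkAll 10 18 10 10 d_fm22.1 d_fm22.2 m_fm22 = true := by
  refine chkAll_of _ _ _ _ _ _ _ z_fm22 ?_
  intro i hi
  interval_cases i
  · exact s_fm22_0
  · exact s_fm22_1
  · exact s_fm22_2
  · exact s_fm22_3
  · exact s_fm22_4
  · exact s_fm22_5
  · exact s_fm22_6
  · exact s_fm22_7
  · exact s_fm22_8
  · exact s_fm22_9

/-- F2 -/
def d_fm23 : List ℤ × List ℤ := Fm2 3
/-- bound -/
def m_fm23 : List ℤ := [40 * SC / 10]

theorem z_fm23 : chkPre 10 18 10 d_fm23.1 d_fm23.2 m_fm23 = true := by decide +kernel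
theorem s_fm23_0 : chkSeg 10 18 10 0 d_fm23.1 d_fm23.2 m_fm23 = true := by decide +kernel
theorem s_fm23_1 : chkSeg 10 18 10 1 d_fm23.1 d_fm23.2 m_fm23 = true := by decide +kernel
theorem s_fm23_2 : chkSeg 10 18 10 2 d_fm23.1 d_fm23.2 m_fm23 = true := by decide +kernel
theorem s_fm23_3 : chkSeg 10 18 10 3 d_fm23.1 d_fm23.2 m_fm23 = true := by decide +kernel
theorem s_fm23_4 : chkSeg 10 18 10 4 d_fm23.1 d_fm23.2 m_fm23 = true := by decide +kernel
theorem s_fm23_5 : chkSeg 10 18 10 5 d_fm23.1 d_fm23.2 m_fm23 = true := by decide +kernel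
theorem s_fm23_6 : chkSeg 10 18 10 6 d_fm23.1 d_fm23.2 m_fm23 = true := by decide +kernel
theorem s_fm23_7 : chkSeg 10 18 10 7 d_fm23.1 d_fm23.2 m_fm23 = true := by decide +kernel
theorem s_fm23_8 : chkSeg 10 18 10 8 d_fm23.1 d_fm23.2 m_fm23 = true := by decide +kernel
theorem s_fm23_9 : chkSeg 10 18 10 9 d_fm23.1 d_fm23.2 m_fm23 = true := by decide +kernel

theorem c_fm23 : chkAll 10 18 10 10 d_fm23.1 d_fm23.2 m_fm23 = true := by
  refine chkAll_of _ _ _ _ _ _ _ z_fm23 ?_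
  intro i hi
  interval_cases i
  · exact s_fm23_0
  · exact s_fm23_1
  · exact s_fm23_2
  · exact s_fm23_3
  · exact s_fm23_4
  · exact s_fm23_5
  · exact s_fm23_6
  · exact s_fm23_7
  · exact s_fm23_8
  · exact s_fm23_9

end Pool.Agent.Lib.MP_230119_an.EX
end

section

/-!
# The Fourier coefficients of `log |2 cos (d/2)|`
-/

set_option autoImplicit false

open Set Filter Topology MeasureTheory

namespace Pool.Agent.Lib.MP_230119_an.EX

theorem lg_periodic (d : ℝ) : lg (d + 2 * Real.pi) = lg d := by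
  unfold lg
  have h : (d + 2 * Real.pi) / 2 = d / 2 + Real.pi := by ring
  rw [h, Real.cos_add_pi, mul_neg, abs_neg]

theorem lg_measurable : Measurable lg := by
  unfold lg
  exact Real.measurable_log.comp (by fun_prop)

theorem K03a_lg_eq (d : ℝ) : lg d = Real.log (2 * Real.cos (d / 2)) := by
  unfold lg
  rw [Real.log_abs]

theorem K03a_countable : {d : ℝ | Real.cos (d / 2) = 0}.Countable := by
  have h : {d : ℝ | Real.cos (d / 2) = 0} ⊆ Set.range (fun k : ℤ => (2 * (k : ℝ) + 1) * Real.pi) := by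
    intro d hd
    rw [Set.mem_ofPred_eq, Real.cos_eq_zero_iff] at hd
    obtain ⟨k, hk⟩ := hd
    exact ⟨k, by simp only; linarith⟩
  exact (Set.countable_range _).mono h

theorem lg_intervalIntegrable (a b : ℝ) : IntervalIntegrable lg volume a b := by
  have h1 : IntervalIntegrable (fun x : ℝ => Real.log (Real.cos (1 / 2 * x))) volume a b := by
    have h0 := (intervalIntegrable_log_cos (a := 1 / 2 * a) (b := 1 / 2 * b)).comp_mul_left
      (c := (1 / 2 : ℝ))
    have h2 : (1 / 2 * a) / (1 / 2 : ℝ) = a := by ring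
    have h3 : (1 / 2 * b) / (1 / 2 : ℝ) = b := by ring
    rw [h2, h3] at h0
    exact h0
  have h2 : IntervalIntegrable
      (fun x : ℝ => if Real.cos (x / 2) = 0 then (0 : ℝ) else Real.log 2) volume a b := by
    rw [intervalIntegrable_iff]
    refine Measure.integrableOn_of_bounded (M := Real.log 2) ?_ ?_ ?_
    · unfold Set.uIoc
      exact measure_Ioc_lt_top.ne
    · refine (Measurable.ite ?_ measurable_const measurable_const).aestronglyMeasurable
      exact measurableSet_eq_fun (by fun_prop) measurable_const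
    · refine Filter.Eventually.of_forall (fun x => ?_)
      have := Real.log_nonneg (by norm_num : (1 : ℝ) ≤ 2)
      split_ifs
      · simpa using this
      · rw [Real.norm_eq_abs, abs_of_nonneg this]
  have h3 : lg = fun x : ℝ => Real.log (Real.cos (1 / 2 * x))
      + (if Real.cos (x / 2) = 0 then (0 : ℝ) else Real.log 2) := by
    ext x
    rw [K03a_lg_eq, show (1 / 2 : ℝ) * x = x / 2 by ring]
    by_cases h : Real.cos (x / 2) = 0
    · rw [if_pos h, h]; simp
    · rw [if_neg h, Real.log_mul (by norm_num) h, add_comm]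
  rw [h3]
  exact h1.add h2

theorem K03a_log_cos : ∫ x in (0 : ℝ)..Real.pi, Real.log (Real.cos x) = -Real.log 2 * Real.pi := by
  rw [← integral_log_sin_zero_pi]
  have hp : Function.Periodic (fun x => Real.log (Real.cos x)) Real.pi := by
    intro x
    simp only
    rw [Real.cos_add_pi, Real.log_neg_eq_log]
  have h1 := hp.intervalIntegral_add_eq 0 (-(Real.pi / 2))
  rw [zero_add] at h1
  rw [h1]
  have h2 := intervalIntegral.integral_comp_sub_right (fun x => Real.log (Real.cos x))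
    (a := 0) (b := Real.pi) (Real.pi / 2)
  simp only [Real.cos_sub_pi_div_two] at h2
  rw [h2]
  congr 1 <;> ring

theorem K03a_zero : ∫ d in (0 : ℝ)..(2 * Real.pi), lg d = 0 := by
  have h1 : ∫ d in (0 : ℝ)..(2 * Real.pi), lg d
      = ∫ d in (0 : ℝ)..(2 * Real.pi), (Real.log 2 + Real.log (Real.cos (d / 2))) := by
    refine intervalIntegral.integral_congr_ae ?_
    have h0 : ∀ᵐ d ∂volume, d ∉ {d : ℝ | Real.cos (d / 2) = 0} := by
      rw [ae_iff]
      simpa using K03a_countable.measure_zero volume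
    filter_upwards [h0] with d hd _
    rw [K03a_lg_eq, Real.log_mul (by norm_num) hd]
  have h2 : IntervalIntegrable (fun x : ℝ => Real.log (Real.cos (x / 2))) volume 0 (2 * Real.pi) := by
    have h0 := (intervalIntegrable_log_cos (a := 0) (b := Real.pi)).comp_mul_left
      (c := (1 / 2 : ℝ))
    have h2 : (0 : ℝ) / (1 / 2 : ℝ) = 0 := by ring
    have h3 : Real.pi / (1 / 2 : ℝ) = 2 * Real.pi := by ring
    rw [h2, h3] at h0
    refine h0.congr (fun x _ => ?_)
    simp only [Function.comp_apply]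
    rw [show (1 / 2 : ℝ) * x = x / 2 by ring]
  rw [h1, intervalIntegral.integral_add intervalIntegrable_const h2,
    intervalIntegral.integral_const]
  have h3 := intervalIntegral.integral_comp_div (fun x => Real.log (Real.cos x))
    (a := 0) (b := 2 * Real.pi) (c := 2) (by norm_num)
  rw [h3, zero_div, show 2 * Real.pi / 2 = Real.pi by ring, K03a_log_cos]
  simp only [smul_eq_mul]
  ring

/-- the character -/
noncomputable def K03a_E (k : ℤ) (d : ℝ) : ℂ := Complex.exp (((k * d : ℝ) : ℂ) * Complex.I)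

theorem K03a_E_cont (k : ℤ) : Continuous (K03a_E k) := by
  unfold K03a_E; fun_prop

theorem K03a_E_succ (k : ℤ) (d : ℝ) : K03a_E (k + 1) d = K03a_E k d * K03a_E 1 d := by
  unfold K03a_E
  rw [← Complex.exp_add]
  congr 1
  push_cast
  ring

theorem K03a_E_deriv (k : ℤ) (d : ℝ) :
    HasDerivAt (K03a_E k) ((k : ℂ) * Complex.I * K03a_E k d) d := by
  have h0 : HasDerivAt (fun t : ℝ => (k : ℝ) * t) ((k : ℝ) * 1) d :=
    (hasDerivAt_id d).const_mul (k : ℝ)
  have h2 := h0.ofReal_comp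
  have h3 := (h2.mul_const Complex.I).cexp
  unfold K03a_E
  refine h3.congr_deriv ?_
  push_cast
  ring

theorem K03a_E_zero (k : ℤ) : K03a_E k 0 = 1 := by
  unfold K03a_E; simp

theorem K03a_E_two_pi (k : ℤ) : K03a_E k (2 * Real.pi) = 1 := by
  unfold K03a_E
  have h1 : (((k * (2 * Real.pi)) : ℝ) : ℂ) * Complex.I
      = (k : ℂ) * (2 * Real.pi * Complex.I) := by push_cast; ring
  rw [h1, Complex.exp_int_mul_two_pi_mul_I]

theorem K03a_J (k : ℤ) : ∫ d in (0 : ℝ)..(2 * Real.pi), K03a_E k d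
    = if k = 0 then ((2 * Real.pi : ℝ) : ℂ) else 0 := by
  split_ifs with h
  · subst h
    have h1 : ∀ d, K03a_E 0 d = 1 := by intro d; unfold K03a_E; simp
    simp only [h1]
    rw [intervalIntegral.integral_const]
    simp
  · have hk : (k : ℂ) ≠ 0 := by exact_mod_cast h
    have h1 : ∫ d in (0 : ℝ)..(2 * Real.pi), (k : ℂ) * Complex.I * K03a_E k d
        = K03a_E k (2 * Real.pi) - K03a_E k 0 :=
      intervalIntegral.integral_eq_sub_of_hasDerivAt (fun d _ => K03a_E_deriv k d)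
        (((continuous_const.mul (K03a_E_cont k))).intervalIntegrable _ _)
    rw [K03a_E_two_pi, K03a_E_zero, sub_self, intervalIntegral.integral_const_mul] at h1
    rcases mul_eq_zero.mp h1 with h2 | h2
    · rcases mul_eq_zero.mp h2 with h3 | h3
      · exact absurd h3 hk
      · exact absurd h3 Complex.I_ne_zero
    · exact h2

theorem K03a_half (d : ℝ) : (2 * Real.cos (d / 2) : ℝ)
    * Complex.exp (((d / 2 : ℝ) : ℂ) * Complex.I) = K03a_E 1 d + 1 := by
  have h1 : ((2 * Real.cos (d / 2) : ℝ) : ℂ) = Complex.exp (((d / 2 : ℝ) : ℂ) * Complex.I)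
      + Complex.exp (-(((d / 2 : ℝ) : ℂ) * Complex.I)) := by
    push_cast
    rw [Complex.cos]
    ring_nf
  rw [h1, add_mul, ← Complex.exp_add, ← Complex.exp_add, neg_add_cancel, Complex.exp_zero]
  unfold K03a_E
  congr 2
  push_cast
  ring

theorem K03a_half' (d : ℝ) : (2 * Real.sin (d / 2) : ℝ)
    * Complex.exp (((d / 2 : ℝ) : ℂ) * Complex.I) = -Complex.I * (K03a_E 1 d - 1) := by
  have h1 : ((2 * Real.sin (d / 2) : ℝ) : ℂ) = -Complex.I * (Complex.exp (((d / 2 : ℝ) : ℂ) * Complex.I)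
      - Complex.exp (-(((d / 2 : ℝ) : ℂ) * Complex.I))) := by
    push_cast
    rw [Complex.sin]
    ring_nf
  rw [h1, mul_assoc, sub_mul, ← Complex.exp_add, ← Complex.exp_add, neg_add_cancel,
    Complex.exp_zero]
  unfold K03a_E
  congr 3
  push_cast
  ring

/-- the product which is integrated -/
noncomputable def K03a_P (k : ℤ) (d : ℝ) : ℂ := (lg d : ℂ) * (K03a_E (k + 1) d + K03a_E k d)

theorem K03a_P_eq (k : ℤ) (d : ℝ) : K03a_P k d
    = (((2 * Real.cos (d / 2)) * Real.log (2 * Real.cos (d / 2)) : ℝ) : ℂ)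
      * (Complex.exp (((d / 2 : ℝ) : ℂ) * Complex.I) * K03a_E k d) := by
  unfold K03a_P
  rw [K03a_E_succ, K03a_lg_eq]
  have := K03a_half d
  rw [Complex.ofReal_mul (2 * Real.cos (d / 2)) (Real.log (2 * Real.cos (d / 2)))]
  linear_combination (-(((Real.log (2 * Real.cos (d / 2)) : ℝ) : ℂ) * K03a_E k d)) * this

theorem K03a_P_cont (k : ℤ) : Continuous (K03a_P k) := by
  have h : K03a_P k = fun d => (((2 * Real.cos (d / 2)) * Real.log (2 * Real.cos (d / 2)) : ℝ) : ℂ)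
      * (Complex.exp (((d / 2 : ℝ) : ℂ) * Complex.I) * K03a_E k d) := by
    ext d; exact K03a_P_eq k d
  rw [h]
  have h1 : Continuous fun d : ℝ => (2 * Real.cos (d / 2)) * Real.log (2 * Real.cos (d / 2)) :=
    Real.continuous_mul_log.comp (by fun_prop)
  exact (Complex.continuous_ofReal.comp h1).mul
    ((by fun_prop : Continuous fun d : ℝ => Complex.exp (((d / 2 : ℝ) : ℂ) * Complex.I)).mul
      (K03a_E_cont k))

theorem K03a_lg_deriv (d : ℝ) (hd : Real.cos (d / 2) ≠ 0) :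
    HasDerivAt lg (-Real.sin (d / 2) / (2 * Real.cos (d / 2))) d := by
  have h0 : lg = fun d => Real.log (2 * Real.cos (d / 2)) := by ext d; exact K03a_lg_eq d
  rw [h0]
  have h1 : HasDerivAt (fun d : ℝ => 2 * Real.cos (d / 2)) (2 * (-Real.sin (d / 2) * (1 / 2))) d :=
    (((hasDerivAt_id d).div_const 2).cos).const_mul 2
  have h2 := h1.log (mul_ne_zero two_ne_zero hd)
  refine h2.congr_deriv ?_
  congr 1
  ring

theorem K03a_P_deriv (k : ℤ) (d : ℝ) (hd : Real.cos (d / 2) ≠ 0) :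
    HasDerivAt (K03a_P k) (Complex.I / 2 * (K03a_E (k + 1) d - K03a_E k d)
      + (lg d : ℂ) * (((k + 1 : ℤ) : ℂ) * Complex.I * K03a_E (k + 1) d
        + (k : ℂ) * Complex.I * K03a_E k d)) d := by
  have h1 := (K03a_lg_deriv d hd).ofReal_comp
  have h2 := h1.mul ((K03a_E_deriv (k + 1) d).add (K03a_E_deriv k d))
  refine h2.congr_deriv ?_
  congr 1
  have hc : ((2 * Real.cos (d / 2) : ℝ) : ℂ) ≠ 0 := by
    exact_mod_cast mul_ne_zero two_ne_zero hd
  have e1 := K03a_half d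
  have e2 := K03a_half' d
  have e3 := K03a_E_succ k d
  have h3 : ((-Real.sin (d / 2) / (2 * Real.cos (d / 2)) : ℝ) : ℂ)
      = -((2 * Real.sin (d / 2) : ℝ) : ℂ) / (2 * ((2 * Real.cos (d / 2) : ℝ) : ℂ)) := by
    rw [← Complex.ofReal_neg, ← Complex.ofReal_ofNat, ← Complex.ofReal_mul, ← Complex.ofReal_div]
    congr 1
    field_simp
  rw [h3]
  generalize ((2 * Real.cos (d / 2) : ℝ) : ℂ) = c at *
  generalize ((2 * Real.sin (d / 2) : ℝ) : ℂ) = s at *
  generalize Complex.exp (((d / 2 : ℝ) : ℂ) * Complex.I) = w at *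
  simp only [Pi.add_apply]
  rw [e3]
  have hh : K03a_E k d * K03a_E 1 d + K03a_E k d = K03a_E k d * (c * w) := by rw [e1]; ring
  have h4 : -s / (2 * c) * (K03a_E k d * K03a_E 1 d + K03a_E k d)
      = -(1 / 2) * K03a_E k d * (s * w) := by
    rw [hh]
    field_simp
  rw [h4, e2]
  ring

theorem K03a_int (k : ℤ) : IntervalIntegrable (fun d => (lg d : ℂ) * K03a_E k d) volume 0
    (2 * Real.pi) := by
  have h : IntervalIntegrable (fun d => (lg d : ℂ)) volume 0 (2 * Real.pi) := by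
    have := lg_intervalIntegrable 0 (2 * Real.pi)
    rw [intervalIntegrable_iff] at this ⊢
    exact this.ofReal
  exact h.mul_continuousOn (K03a_E_cont k).continuousOn

theorem K03a_rec (k : ℤ) :
    ((k + 1 : ℤ) : ℂ) * (∫ d in (0 : ℝ)..(2 * Real.pi), (lg d : ℂ) * K03a_E (k + 1) d)
      + (k : ℂ) * (∫ d in (0 : ℝ)..(2 * Real.pi), (lg d : ℂ) * K03a_E k d)
    = (1 / 2) * ((if k = 0 then ((2 * Real.pi : ℝ) : ℂ) else 0)
        - (if k + 1 = 0 then ((2 * Real.pi : ℝ) : ℂ) else 0)) := by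
  have hpi : (0 : ℝ) ≤ 2 * Real.pi := by positivity
  have i1 : ∀ k, IntervalIntegrable (K03a_E k) volume 0 (2 * Real.pi) := fun k =>
    (K03a_E_cont k).intervalIntegrable _ _
  have e0 : ∀ d, (Complex.I / 2 * (K03a_E (k + 1) d - K03a_E k d)
      + (lg d : ℂ) * (((k + 1 : ℤ) : ℂ) * Complex.I * K03a_E (k + 1) d
        + (k : ℂ) * Complex.I * K03a_E k d))
      = (Complex.I / 2) * K03a_E (k + 1) d + ((-(Complex.I / 2)) * K03a_E k d
        + ((((k + 1 : ℤ) : ℂ) * Complex.I) * ((lg d : ℂ) * K03a_E (k + 1) d)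
          + ((k : ℂ) * Complex.I) * ((lg d : ℂ) * K03a_E k d))) := by
    intro d; ring
  have j1 := (i1 (k + 1)).const_mul (Complex.I / 2)
  have j2 := (i1 k).const_mul (-(Complex.I / 2))
  have j3 := (K03a_int (k + 1)).const_mul (((k + 1 : ℤ) : ℂ) * Complex.I)
  have j4 := (K03a_int k).const_mul ((k : ℂ) * Complex.I)
  have h1 := MeasureTheory.integral_eq_of_hasDerivAt_off_countable_of_le
    (K03a_P k) (fun d => (Complex.I / 2 * (K03a_E (k + 1) d - K03a_E k d)
      + (lg d : ℂ) * (((k + 1 : ℤ) : ℂ) * Complex.I * K03a_E (k + 1) d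
        + (k : ℂ) * Complex.I * K03a_E k d))) hpi K03a_countable (K03a_P_cont k).continuousOn
    (fun d hd => K03a_P_deriv k d hd.2)
    (by
      simp only [e0]
      exact j1.add (j2.add (j3.add j4)))
  simp only [e0] at h1
  rw [intervalIntegral.integral_add j1 (j2.add (j3.add j4)),
    intervalIntegral.integral_add j2 (j3.add j4), intervalIntegral.integral_add j3 j4,
    intervalIntegral.integral_const_mul, intervalIntegral.integral_const_mul,
    intervalIntegral.integral_const_mul, intervalIntegral.integral_const_mul, K03a_J, K03a_J] at h1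
  have h2 : K03a_P k (2 * Real.pi) = K03a_P k 0 := by
    unfold K03a_P
    have := lg_periodic 0
    rw [zero_add] at this
    rw [this, K03a_E_two_pi, K03a_E_two_pi, K03a_E_zero, K03a_E_zero]
  rw [h2, sub_self] at h1
  have hI := Complex.I_mul_I
  linear_combination (-Complex.I) * h1 + ((1 / 2) * (if k + 1 = 0 then ((2 * Real.pi : ℝ) : ℂ) else 0)
    - (1 / 2) * (if k = 0 then ((2 * Real.pi : ℝ) : ℂ) else 0)
    + ((k + 1 : ℤ) : ℂ) * (∫ d in (0 : ℝ)..(2 * Real.pi), (lg d : ℂ) * K03a_E (k + 1) d)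
    + (k : ℂ) * (∫ d in (0 : ℝ)..(2 * Real.pi), (lg d : ℂ) * K03a_E k d)) * hI

theorem K03a_ell (k : ℤ) : ((k + 1 : ℤ) : ℚ) * ell (k + 1) + (k : ℚ) * ell k
    = (1 / 2) * ((if k = 0 then 1 else 0) - (if k + 1 = 0 then 1 else 0)) := by
  have hval : ∀ k : ℤ, (k : ℚ) * ell k = if k = 0 then 0 else
      if 0 < k then (if k % 2 = 0 then -1 / 2 else 1 / 2)
      else (if k % 2 = 0 then 1 / 2 else -1 / 2) := by
    intro k
    unfold ell
    split_ifs with h1 h2 h3 h4
    · simp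
    · have h5 : ((k.natAbs : ℕ) : ℚ) = k := by
        rw [Nat.cast_natAbs, abs_of_pos (by omega)]
      have h6 : (k : ℚ) ≠ 0 := by exact_mod_cast h1
      rw [h5]; field_simp
    · have h5 : ((k.natAbs : ℕ) : ℚ) = -k := by
        rw [Nat.cast_natAbs, abs_of_neg (by omega), Int.cast_neg]
      have h6 : (k : ℚ) ≠ 0 := by exact_mod_cast h1
      rw [h5]; field_simp
    · have h5 : ((k.natAbs : ℕ) : ℚ) = k := by
        rw [Nat.cast_natAbs, abs_of_pos (by omega)]
      have h6 : (k : ℚ) ≠ 0 := by exact_mod_cast h1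
      rw [h5]; field_simp
    · have h5 : ((k.natAbs : ℕ) : ℚ) = -k := by
        rw [Nat.cast_natAbs, abs_of_neg (by omega), Int.cast_neg]
      have h6 : (k : ℚ) ≠ 0 := by exact_mod_cast h1
      rw [h5]; field_simp
  rw [hval, hval]
  split_ifs <;> first | omega | norm_num

theorem lg_coef (k : ℤ) :
    ∫ d in (0 : ℝ)..(2 * Real.pi), (lg d : ℂ) * Complex.exp (((k * d : ℝ) : ℂ) * Complex.I)
      = (2 * Real.pi : ℝ) * (ell k : ℂ) := by
  change ∫ d in (0 : ℝ)..(2 * Real.pi), (lg d : ℂ) * K03a_E k d = _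
  rcases eq_or_ne k 0 with hk | hk
  · subst hk
    have h1 : ∀ d, K03a_E 0 d = 1 := by intro d; unfold K03a_E; simp
    simp only [h1, mul_one]
    rw [intervalIntegral.integral_ofReal, K03a_zero]
    simp [ell]
  · obtain ⟨c, hc⟩ : ∃ c : ℤ → ℂ, c = fun k => ∫ d in (0 : ℝ)..(2 * Real.pi),
      (lg d : ℂ) * K03a_E k d := ⟨_, rfl⟩
    have hrec : ∀ k : ℤ, ((k + 1 : ℤ) : ℂ) * c (k + 1) + (k : ℂ) * c k
        = (1 / 2) * ((if k = 0 then ((2 * Real.pi : ℝ) : ℂ) else 0)
        - (if k + 1 = 0 then ((2 * Real.pi : ℝ) : ℂ) else 0)) := by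
      intro k; rw [hc]; exact K03a_rec k
    have hell : ∀ k : ℤ, ((k + 1 : ℤ) : ℂ) * (ell (k + 1) : ℂ) + (k : ℂ) * (ell k : ℂ)
        = (1 / 2) * ((if k = 0 then 1 else 0) - (if k + 1 = 0 then 1 else 0)) := by
      intro k
      have := congrArg (fun q : ℚ => (q : ℂ)) (K03a_ell k)
      push_cast [apply_ite (fun q : ℚ => (q : ℂ))] at this ⊢
      exact this
    obtain ⟨f, hf⟩ : ∃ f : ℤ → ℂ, f = fun k : ℤ => (k : ℂ) * c k
      - ((2 * Real.pi : ℝ) : ℂ) * ((k : ℂ) * (ell k : ℂ)) := ⟨_, rfl⟩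
    have hfs : ∀ k : ℤ, f (k + 1) = -f k := by
      intro k
      rw [hf]
      simp only
      have h1 := hrec k
      have h2 := hell k
      have h3 : ∀ p : Prop, ∀ _ : Decidable p, (if p then ((2 * Real.pi : ℝ) : ℂ) else 0)
          = ((2 * Real.pi : ℝ) : ℂ) * (if p then 1 else 0) := by
        intro p _; split_ifs <;> simp
      rw [h3, h3] at h1
      linear_combination h1 - ((2 * Real.pi : ℝ) : ℂ) * h2
    have hf0 : f 0 = 0 := by rw [hf]; simp
    have hfz : ∀ k : ℤ, f k = 0 := by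
      intro k
      induction k using Int.induction_on with
      | zero => exact hf0
      | succ i ih => rw [hfs, ih, neg_zero]
      | pred i ih =>
        have h1 := hfs (-(i : ℤ) - 1)
        rw [sub_add_cancel, ih] at h1
        exact neg_eq_zero.mp h1.symm
    have h1 := hfz k
    rw [hf] at h1
    simp only at h1
    have hk' : (k : ℂ) ≠ 0 := by exact_mod_cast hk
    have h2 : (k : ℂ) * (c k - ((2 * Real.pi : ℝ) : ℂ) * (ell k : ℂ)) = 0 := by
      linear_combination h1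
    rcases mul_eq_zero.mp h2 with h3 | h3
    · exact absurd h3 hk'
    · have h4 := sub_eq_zero.mp h3
      rw [hc] at h4
      exact h4

end Pool.Agent.Lib.MP_230119_an.EX
end

section

/-!
# The logarithm on the torus
-/

set_option autoImplicit false

open Set Filter Topology MeasureTheory

namespace Pool.Agent.Lib.MP_230119_an.EX

theorem K03b_even (x y : ℝ) : lg (x - y) = lg (y - x) := by
  unfold lg
  rw [show (x - y) / 2 = -((y - x) / 2) by ring, Real.cos_neg]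

theorem K03b_shift {E : Type*} [NormedAddCommGroup E] [NormedSpace ℝ E] (F : ℝ → E)
    (hF : Function.Periodic F (2 * Real.pi)) (b : ℝ) :
    ∫ a, F (a - b) ∂mc = ∫ d in (0 : ℝ)..(2 * Real.pi), F d := by
  have hpi := Real.pi_pos
  have h0 : (0 : ℝ) ≤ 2 * Real.pi := by positivity
  unfold mc
  rw [← intervalIntegral.integral_of_le h0, intervalIntegral.integral_comp_sub_right]
  have h1 := hF.intervalIntegral_add_eq (0 - b) 0
  rw [zero_add] at h1
  rw [← h1]
  congr 1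
  ring

theorem K03b_ivl (b : ℝ) : Integrable (fun a => lg (a - b)) mc := by
  have hpi := Real.pi_pos
  have h0 : (0 : ℝ) ≤ 2 * Real.pi := by positivity
  have h1 := (lg_intervalIntegrable (0 - b) (2 * Real.pi - b)).comp_sub_right b
  simp only [sub_add_cancel] at h1
  unfold mc
  exact (intervalIntegrable_iff_integrableOn_Ioc_of_le h0).1 h1

theorem K03b_meas2 : Measurable (fun w : ℝ × ℝ => lg (w.1 - w.2)) :=
  lg_measurable.comp (measurable_fst.sub measurable_snd)

theorem K03b_int2 : Integrable (fun w : ℝ × ℝ => lg (w.1 - w.2)) (mc.prod mc) := by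
  rw [integrable_prod_iff' K03b_meas2.aestronglyMeasurable]
  refine ⟨ae_of_all _ fun y => K03b_ivl y, ?_⟩
  have h : ∀ y : ℝ, ∫ x, ‖lg (x - y)‖ ∂mc = ∫ d in (0 : ℝ)..(2 * Real.pi), ‖lg d‖ := by
    intro y
    refine K03b_shift (fun d => ‖lg d‖) (fun d => ?_) y
    simp only
    rw [lg_periodic]
  simp_rw [h]
  exact integrable_const _

theorem K03b_one (p : ℤ) (b : ℝ) :
    ∫ a, (lg (a - b) : ℂ) * Complex.exp (((p * a : ℝ) : ℂ) * Complex.I) ∂mc
      = Complex.exp (((p * b : ℝ) : ℂ) * Complex.I) * ((2 * Real.pi : ℝ) * (ell p : ℂ)) := by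
  have e : ∀ a : ℝ, (lg (a - b) : ℂ) * Complex.exp (((p * a : ℝ) : ℂ) * Complex.I) =
      Complex.exp (((p * b : ℝ) : ℂ) * Complex.I) *
        ((fun d : ℝ => (lg d : ℂ) * Complex.exp (((p * d : ℝ) : ℂ) * Complex.I)) (a - b)) := by
    intro a
    simp only
    rw [mul_left_comm, ← Complex.exp_add]
    congr 2
    push_cast
    ring
  rw [integral_congr_ae (ae_of_all _ e), integral_const_mul]
  congr 1
  rw [← lg_coef]
  refine K03b_shift (fun d : ℝ => (lg d : ℂ) * Complex.exp (((p * d : ℝ) : ℂ) * Complex.I)) ?_ b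
  intro d
  simp only
  rw [lg_periodic]
  congr 1
  have : (((p * (d + 2 * Real.pi) : ℝ) : ℂ) * Complex.I) =
      ((p * d : ℝ) : ℂ) * Complex.I + p * (2 * Real.pi * Complex.I) := by
    push_cast
    ring
  rw [this, Complex.exp_add, Complex.exp_int_mul_two_pi_mul_I, mul_one]

theorem K03b_intC (p q : ℤ) : Integrable (fun w : ℝ × ℝ => (lg (w.1 - w.2) : ℂ) *
    (Complex.exp (((p * w.1 : ℝ) : ℂ) * Complex.I) * Complex.exp (((q * w.2 : ℝ) : ℂ) * Complex.I)))
    (mc.prod mc) := by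
  refine K03b_int2.ofReal.mul_bdd (c := 1) ?_ (ae_of_all _ fun w => ?_)
  · exact Continuous.aestronglyMeasurable (by fun_prop)
  · rw [norm_mul, Complex.norm_exp_ofReal_mul_I, Complex.norm_exp_ofReal_mul_I, mul_one]

theorem K03b_two (p q : ℤ) :
    ∫ w : ℝ × ℝ, (lg (w.1 - w.2) : ℂ) * (Complex.exp (((p * w.1 : ℝ) : ℂ) * Complex.I) *
      Complex.exp (((q * w.2 : ℝ) : ℂ) * Complex.I)) ∂(mc.prod mc)
      = if p + q = 0 then (((2 * Real.pi) ^ 2 : ℝ) : ℂ) * (ell p : ℂ) else 0 := by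
  rw [integral_prod_symm _ (K03b_intC p q)]
  have e : ∀ b : ℝ, ∫ a, (lg (a - b) : ℂ) * (Complex.exp (((p * a : ℝ) : ℂ) * Complex.I) *
      Complex.exp (((q * b : ℝ) : ℂ) * Complex.I)) ∂mc =
      Complex.exp ((((p + q : ℤ) * b : ℝ) : ℂ) * Complex.I) * ((2 * Real.pi : ℝ) * (ell p : ℂ)) := by
    intro b
    have e1 : ∀ a : ℝ, (lg (a - b) : ℂ) * (Complex.exp (((p * a : ℝ) : ℂ) * Complex.I) *
        Complex.exp (((q * b : ℝ) : ℂ) * Complex.I)) =
        ((lg (a - b) : ℂ) * Complex.exp (((p * a : ℝ) : ℂ) * Complex.I)) *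
          Complex.exp (((q * b : ℝ) : ℂ) * Complex.I) := fun a => by ring
    simp_rw [e1]
    rw [integral_mul_const, K03b_one, mul_right_comm, ← Complex.exp_add]
    congr 2
    push_cast
    ring
  simp only
  simp_rw [e]
  rw [integral_mul_const, K02a_one]
  split_ifs with h
  · push_cast
    ring
  · rw [zero_mul]

/-- three variables from two and one -/
theorem K03b_three (Φ : ℝ × ℝ → ℂ) (g : ℝ → ℂ) :
    ∫ z : ℝ × ℝ × ℝ, Φ (z.1, z.2.1) * g z.2.2 ∂mc3 = (∫ w, Φ w ∂(mc.prod mc)) * ∫ t, g t ∂mc := by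
  have h := (measurePreserving_prodAssoc mc mc mc).integral_comp
    (MeasurableEquiv.measurableEmbedding _) (fun z : ℝ × ℝ × ℝ => Φ (z.1, z.2.1) * g z.2.2)
  unfold mc3
  rw [← h, ← integral_prod_mul]
  rfl

theorem lg_integrable_ab : Integrable (fun z : ℝ × ℝ × ℝ => lg (z.1 - z.2.1)) mc3 := by
  have h := (measurePreserving_prodAssoc mc mc mc).integrable_comp_emb
    (MeasurableEquiv.measurableEmbedding _) (g := fun z : ℝ × ℝ × ℝ => lg (z.1 - z.2.1))
  unfold mc3
  rw [← h]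
  exact K03b_int2.comp_fst mc

theorem lg_integrable_bc : Integrable (fun z : ℝ × ℝ × ℝ => lg (z.2.1 - z.2.2)) mc3 := by
  unfold mc3
  exact K03b_int2.comp_snd mc

theorem K03b_swap : MeasurePreserving (MeasurableEquiv.prodCongr (MeasurableEquiv.refl ℝ)
    (MeasurableEquiv.prodComm (α := ℝ) (β := ℝ))) mc3 mc3 := by
  have h := (MeasurePreserving.id mc).prod (Measure.measurePreserving_swap (μ := mc) (ν := mc))
  unfold mc3
  exact h

theorem lg_integrable_ca : Integrable (fun z : ℝ × ℝ × ℝ => lg (z.2.2 - z.1)) mc3 := by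
  have h := K03b_swap.integrable_comp_emb
    (MeasurableEquiv.measurableEmbedding _) (g := fun z : ℝ × ℝ × ℝ => lg (z.1 - z.2.1))
  have h1 := h.2 lg_integrable_ab
  refine h1.congr (ae_of_all _ fun z => ?_)
  show lg (z.1 - z.2.2) = lg (z.2.2 - z.1)
  exact K03b_even _ _

theorem lg_ab (p q r : ℤ) : ∫ z, (lg (z.1 - z.2.1) : ℂ) * ch p q r z ∂mc3
    = if r = 0 ∧ p + q = 0 then (((2 * Real.pi) ^ 3 : ℝ) : ℂ) * (ell p : ℂ) else 0 := by
  have e : ∀ z : ℝ × ℝ × ℝ, (lg (z.1 - z.2.1) : ℂ) * ch p q r z =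
      (fun w : ℝ × ℝ => (lg (w.1 - w.2) : ℂ) * (Complex.exp (((p * w.1 : ℝ) : ℂ) * Complex.I) *
      Complex.exp (((q * w.2 : ℝ) : ℂ) * Complex.I))) (z.1, z.2.1) *
      (fun t : ℝ => Complex.exp (((r * t : ℝ) : ℂ) * Complex.I)) z.2.2 := by
    intro z
    simp only
    unfold ch
    rw [mul_assoc, ← Complex.exp_add, ← Complex.exp_add]
    congr 2
    push_cast
    ring
  rw [integral_congr_ae (ae_of_all _ e)]
  refine (K03b_three (fun w : ℝ × ℝ => (lg (w.1 - w.2) : ℂ) *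
    (Complex.exp (((p * w.1 : ℝ) : ℂ) * Complex.I) * Complex.exp (((q * w.2 : ℝ) : ℂ) * Complex.I)))
    (fun t : ℝ => Complex.exp (((r * t : ℝ) : ℂ) * Complex.I))).trans ?_
  rw [K03b_two, K02a_one]
  by_cases hr : r = 0 <;> by_cases hpq : p + q = 0
  · rw [if_pos hpq, if_pos hr, if_pos ⟨hr, hpq⟩]
    push_cast
    ring
  · simp [hpq]
  · simp [hr]
  · simp [hr]

theorem lg_bc (p q r : ℤ) : ∫ z, (lg (z.2.1 - z.2.2) : ℂ) * ch p q r z ∂mc3
    = if p = 0 ∧ q + r = 0 then (((2 * Real.pi) ^ 3 : ℝ) : ℂ) * (ell q : ℂ) else 0 := by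
  have e : ∀ z : ℝ × ℝ × ℝ, (lg (z.2.1 - z.2.2) : ℂ) * ch p q r z =
      (fun t : ℝ => Complex.exp (((p * t : ℝ) : ℂ) * Complex.I)) z.1 *
      (fun w : ℝ × ℝ => (lg (w.1 - w.2) : ℂ) * (Complex.exp (((q * w.1 : ℝ) : ℂ) * Complex.I) *
      Complex.exp (((r * w.2 : ℝ) : ℂ) * Complex.I))) z.2 := by
    intro z
    simp only
    unfold ch
    rw [mul_left_comm, ← Complex.exp_add, ← Complex.exp_add]
    congr 2
    push_cast
    ring
  rw [integral_congr_ae (ae_of_all _ e)]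
  unfold mc3
  refine (integral_prod_mul (fun t : ℝ => Complex.exp (((p * t : ℝ) : ℂ) * Complex.I))
    (fun w : ℝ × ℝ => (lg (w.1 - w.2) : ℂ) *
    (Complex.exp (((q * w.1 : ℝ) : ℂ) * Complex.I) *
      Complex.exp (((r * w.2 : ℝ) : ℂ) * Complex.I)))).trans ?_
  rw [K03b_two, K02a_one]
  by_cases hr : p = 0 <;> by_cases hpq : q + r = 0
  · rw [if_pos hpq, if_pos hr, if_pos ⟨hr, hpq⟩]
    push_cast
    ring
  · simp [hpq]
  · simp [hr]
  · simp [hr]

theorem lg_ca (p q r : ℤ) : ∫ z, (lg (z.2.2 - z.1) : ℂ) * ch p q r z ∂mc3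
    = if q = 0 ∧ p + r = 0 then (((2 * Real.pi) ^ 3 : ℝ) : ℂ) * (ell p : ℂ) else 0 := by
  rw [← lg_ab p r q]
  rw [← K03b_swap.integral_comp (MeasurableEquiv.measurableEmbedding _)
    (fun z => (lg (z.1 - z.2.1) : ℂ) * ch p r q z)]
  refine integral_congr_ae (ae_of_all _ fun z => ?_)
  show (lg (z.2.2 - z.1) : ℂ) * ch p q r z = (lg (z.1 - z.2.2) : ℂ) * ch p r q (z.1, z.2.2, z.2.1)
  rw [K03b_even z.2.2 z.1]
  unfold ch
  congr 2
  push_cast
  ring

end Pool.Agent.Lib.MP_230119_an.EX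
end

section

/-!
# The explicit kernel in terms of tables
-/

set_option autoImplicit false

open Set Filter Topology MeasureTheory

namespace Pool.Agent.Lib.MP_230119_an.EX

/-- the explicit kernel -/
noncomputable def KX (a b c : ℝ) : ℝ := K0 tg tu (rho a b c) (chi a b c)

private lemma K04_len : (FL1 gt).1.length ≤ 10 + 1 ∧ (smulL LI (FL2 gt).1).length ≤ 8 + 1 ∧
    (addL (FL1 gt).2 (smulL (8 * SC * LI) M2L)).length ≤ 13 + 1 ∧
    (smulL LI (FL2 gt).2).length ≤ 11 + 1 := by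
  decide +kernel

private lemma K04_Q (a b c : ℝ) : tf 10 QT a b c = ((2 * ev (FL1 gt).1 (rho a b c)
    + 2 * chi a b c * (LI * ev (FL2 gt).1 (rho a b c)) : ℝ) : ℂ) := by
  have hQ : QTc = QT := eq2_sound _ _ QT_check
  obtain ⟨l1, l2, -, -⟩ := K04_len
  have h1 : tf 10 (mul2 chiT (hor 8 (smulL LI (FL2 gt).1))) a b c
      = tf 2 chiT a b c * tf 8 (hor 8 (smulL LI (FL2 gt).1)) a b c :=
    tf_mul 2 8 chiT _ a b c
  rw [← hQ, QTc, tf_add, tf_cmul, tf_hor 10 _ l1, h1, tf_chi, tf_hor 8 _ l2, ev_smulL]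
  push_cast
  ring

private lemma K04_R (a b c : ℝ) : tf 13 RT a b c = ((2 * (ev (FL1 gt).2 (rho a b c)
    + 8 * SC * LI * ev M2L (rho a b c))
    + 2 * chi a b c * (LI * ev (FL2 gt).2 (rho a b c)) : ℝ) : ℂ) := by
  have hR : RTc = RT := eq2_sound _ _ RT_check
  obtain ⟨-, -, l3, l4⟩ := K04_len
  have h1 : tf 13 (mul2 chiT (hor 11 (smulL LI (FL2 gt).2))) a b c
      = tf 2 chiT a b c * tf 11 (hor 11 (smulL LI (FL2 gt).2)) a b c :=
    tf_mul 2 11 chiT _ a b c
  rw [← hR, RTc, tf_add, tf_cmul, tf_hor 13 _ l3, h1, tf_chi, tf_hor 11 _ l4, ev_addL, ev_smulL,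
    ev_smulL]
  push_cast
  ring

private lemma K04_real (x y : ℝ) : 2 * SC * LI * K0 tg tu x y
    = 2 * evl (FL1 gt) x + 2 * (8 * SC * LI * ev M2L x) + 2 * y * (LI * evl (FL2 gt) x) := by
  have k1 : evl (FL1 gt) x
      = LI * (ev M1L x * evl gt x) + ev M2L x * evl (intP gt) x := by
    rw [FL1, evl_addP, evl_smulP, evl_mulP, evl_mulP]
  have k2 : evl (FL2 gt) x = ev NL x * evl gt x := by
    rw [FL2, evl_mulP]
  have m1 : ev M1L x = x ^ 2 * (560 - 90 * x + 15 * x ^ 2 - x ^ 3) := by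
    simp only [M1L, ev_cons, ev_nil]
    push_cast
    ring
  have m2 : ev M2L x = 5 * x ^ 2 * (8 - x) := by
    simp only [M2L, ev_cons, ev_nil]
    push_cast
    ring
  have m3 : ev NL x = 10 * x ^ 2 * (8 - x) := by
    simp only [NL, ev_cons, ev_nil]
    push_cast
    ring
  have hSC : (SC : ℝ) ≠ 0 := by
    have : SC ≠ 0 := by decide +kernel
    exact_mod_cast this
  have hLI : (LI : ℝ) ≠ 0 := by
    have : LI ≠ 0 := by decide +kernel
    exact_mod_cast this
  rw [k1, k2, m1, m2, m3]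
  unfold K0 tg tu
  field_simp
  ring

theorem KX_tab (a b c : ℝ) : ((2 * SC * LI * KX a b c : ℝ) : ℂ)
    = tf 10 QT a b c * (Real.log |rho a b c| : ℝ) + tf 13 RT a b c := by
  rw [K04_Q, K04_R, KX, K04_real]
  rw [← Complex.ofReal_mul, ← Complex.ofReal_add]
  congr 1
  unfold evl
  ring

end Pool.Agent.Lib.MP_230119_an.EX
end
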