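import Pool.Agent.Lib.MP_230119_an.Mg.G003
import Pool.Agent.Lib.MP_230119_an.Mg.G006
import Pool.Agent.Lib.MP_230119_an.Mg.G007
import Pool.Agent.Lib.MP_230119_an.Mg.G001
import Pool.Agent.Lib.MP_230119_an.Mg.G002
import Pool.Agent.Lib.MP_230119_an.Mg.G011

section

/-!
# The ends (-1,0)
-/

set_option autoImplicit false

open Set Filter Topology

namespace Pool.Agent.Lib.MP_230119_an.EX

private lemma B04f_bdd {f : ℝ → ℝ} {a b L : ℝ} (hab : a < b) (hf : ContinuousOn f (Ico a b))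
    (hL : Tendsto f (𝓝[<] b) (𝓝 L)) : ∃ B : ℝ, ∀ x ∈ Ico a b, |f x| ≤ B := by
  have h1 : ∀ᶠ x in 𝓝[<] b, |f x| < |L| + 1 := by
    have := hL.abs
    exact this.eventually (gt_mem_nhds (by linarith))
  obtain ⟨c, hc, hcb⟩ := (mem_nhdsLT_iff_exists_Ioo_subset' hab).1 h1
  have hc2 : c < b := hc
  obtain ⟨B, hB⟩ := (isCompact_Icc (a := a) (b := max a c)).exists_bound_of_continuousOn
    (hf.mono (Icc_subset_Ico_right (max_lt hab hc2)))
  refine ⟨max B (|L| + 1), fun x hx => ?_⟩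
  by_cases hxc : x ≤ max a c
  · exact (hB x ⟨hx.1, hxc⟩).trans (le_max_left _ _)
  · push Not at hxc
    have : x ∈ Ioo c b := ⟨lt_of_le_of_lt (le_max_right _ _) hxc, hx.2⟩
    exact (hcb this).le.trans (le_max_right _ _)

private lemma B04f_SC : (SC : ℝ) ≠ 0 := by
  have : SC ≠ 0 := by decide +kernel
  exact_mod_cast this

theorem ends_neg {G u : ℝ → ℝ} (h : GF G u) :
    (∃ B : ℝ, ∀ x ∈ Ioo (-1 : ℝ) 0, |G x - evl gm x / SC| ≤ B) ∧
    Tendsto (fun x => u x - evl (pdP gm) x / SC) (𝓝[>] (-1)) (𝓝 0) ∧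
    Tendsto (fun x => u x - evl (pdP gm) x / SC) (𝓝[<] 0) (𝓝 0) := by
  obtain ⟨-, -, -, -, -, -, -, -, -, h10, -, -, -, h14, h15⟩ := heads
  have hlt : 𝓝[<] (0 : ℝ) ≤ 𝓝[≠] 0 := nhdsWithin_mono _ fun x hx => ne_of_lt hx
  refine ⟨?_, ?_, ?_⟩
  · -- near `0`
    obtain ⟨L, hL⟩ := h.limL
    have h1 := hL.mono_left hlt
    have h2 := ((tendsto_evl_log gm h10).mono_left hlt).div_const (SC : ℝ)
    have h3 := h1.sub h2
    have h4 : Tendsto (fun x => G x - evl gm x / SC) (𝓝[<] 0)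
        (𝓝 (L - (hdL gm.2 : ℝ) / SC)) := by
      refine h3.congr fun x => ?_
      have := B04f_SC
      field_simp
      ring
    have hcont : ContinuousOn (fun x => G x - evl gm x / SC) (Ico (-(1 / 2) : ℝ) 0) := by
      intro x hx
      have hx0 : x ≠ 0 := hx.2.ne
      have a := (h.hG x ⟨by linarith [hx.1], by linarith [hx.2]⟩ hx0).continuousAt
      have b := (continuousAt_evl gm hx0).div_const (SC : ℝ)
      exact (a.sub b).continuousWithinAt
    obtain ⟨B1, hB1⟩ := B04f_bdd (by norm_num) hcont h4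
    -- near `-1`
    obtain ⟨C, hC⟩ := h.bdd
    have hcont2 : ContinuousOn (fun x => evl gm x / SC) (Icc (-1 : ℝ) (-(1 / 2))) := by
      intro x hx
      have hx0 : x ≠ 0 := by linarith [hx.2]
      exact ((continuousAt_evl gm hx0).div_const (SC : ℝ)).continuousWithinAt
    obtain ⟨B2, hB2⟩ := isCompact_Icc.exists_bound_of_continuousOn hcont2
    refine ⟨max B1 (C + B2), fun x hx => ?_⟩
    by_cases hx2 : x ≤ -(1 / 2)
    · have a1 := hC x ⟨hx.1, by linarith [hx.2]⟩ (Or.inl hx2)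
      have a2 := h.pos x ⟨hx.1, by linarith [hx.2]⟩ hx.2.ne
      have a3 := hB2 x ⟨hx.1.le, hx2⟩
      rw [Real.norm_eq_abs] at a3
      refine le_trans ?_ (le_max_right _ _)
      refine (abs_sub _ _).trans ?_
      rw [abs_of_pos a2]
      exact add_le_add a1 a3
    · push Not at hx2
      exact (hB1 x ⟨hx2.le, hx.2⟩).trans (le_max_left _ _)
  · have h1 := h.lim1
    have h2 : Tendsto (evl (pdP gm)) (𝓝[>] (-1)) (𝓝 (evl (pdP gm) (-1))) :=
      (continuousAt_evl (pdP gm) (by norm_num)).tendsto.mono_left nhdsWithin_le_nhds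
    have h3 : evl (pdP gm) (-1) = 0 := by
      unfold evl pdP
      rw [abs_neg, abs_one, Real.log_one, mul_zero, zero_add, ev_addL, ev_mulL, ev_mulL]
      have e1 : ev P1L (-1) = 0 := by
        simp only [P1L, ev_cons, ev_nil]
        norm_num
      have e2 : ev P0L (-1) = 0 := by
        simp only [P0L, ev_cons, ev_nil]
        norm_num
      rw [e1, e2]
      ring
    rw [h3] at h2
    have h4 := h1.sub (h2.div_const (SC : ℝ))
    rwa [zero_div, sub_zero] at h4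
  · have h1 := h.lim0.mono_left hlt
    have h2 := ((tendsto_evl (pdP gm) h14).mono_left hlt).div_const (SC : ℝ)
    have h3 := h1.sub h2
    rw [h15] at h3
    push_cast at h3
    rwa [mul_div_assoc, div_self B04f_SC, mul_one, sub_self] at h3

end Pool.Agent.Lib.MP_230119_an.EX
end

section

/-!
# Bounds for G - g and three derivatives
-/

set_option autoImplicit false

open Set Filter Topology

namespace Pool.Agent.Lib.MP_230119_an.EX

private lemma B04g_abs_pos {x : ℝ} (hx : x ∈ Ioo (0 : ℝ) 8) :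
    |pp x| = (x + 1) * (x - 0) * (8 - x) := by
  have h1 : pp x = -((x + 1) * (x - 0) * (8 - x)) := by unfold pp; ring
  rw [h1, abs_neg, abs_of_nonneg]
  have a := hx.1
  have b := hx.2
  have c1 : (0 : ℝ) ≤ x + 1 := by linarith
  have c2 : (0 : ℝ) ≤ x - 0 := by linarith
  have c3 : (0 : ℝ) ≤ 8 - x := by linarith
  positivity

private lemma B04g_abs_neg {x : ℝ} (hx : x ∈ Ioo (-1 : ℝ) 0) :
    |pp x| = (8 - x) * (x - (-1)) * (0 - x) := by
  have h1 : pp x = (8 - x) * (x - (-1)) * (0 - x) := by unfold pp; ring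
  rw [h1, abs_of_nonneg]
  have a := hx.1
  have b := hx.2
  have c1 : (0 : ℝ) ≤ 8 - x := by linarith
  have c2 : (0 : ℝ) ≤ x - (-1) := by linarith
  have c3 : (0 : ℝ) ≤ 0 - x := by linarith
  positivity

private lemma B04g_SC : (0 : ℝ) < SC := by
  have : (0 : ℤ) < SC := by decide +kernel
  exact_mod_cast this

private lemma B04g_Cp (j : ℕ) : (0 : ℝ) < (Cp j : ℝ) / SC := by
  have h : (0 : ℤ) < Cp j := by
    match j with
    | 0 => decide +kernel
    | 1 => decide +kernel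
    | 2 => decide +kernel
    | (n + 3) => show (0 : ℤ) < 3700000000000000000; norm_num
  exact div_pos (by exact_mod_cast h) B04g_SC

private lemma B04g_Cm (j : ℕ) : (0 : ℝ) < (Cm j : ℝ) / SC := by
  have h : (0 : ℤ) < Cm j := by
    match j with
    | 0 => decide +kernel
    | 1 => decide +kernel
    | 2 => decide +kernel
    | (n + 3) => show (0 : ℤ) < 100000000000000000; norm_num
  exact div_pos (by exact_mod_cast h) B04g_SC

/-- the result on `(0,8)`: `exists_chain`, `chain_bounded`, `chain_bounds_pos` -/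
theorem e2_pos {G u : ℝ → ℝ} (h : GF G u) :
    ∃ v : ℕ → ℝ → ℝ, (∀ x, v 0 x = G x - evl gp x / SC) ∧
      (∀ j ≤ 2, ∀ x ∈ Ioo (0 : ℝ) 8, HasDerivAt (v j) (v (j + 1) x) x) ∧
      (∀ j ≤ 3, ∀ x ∈ Ioo (0 : ℝ) 8, |v j x| * (1 + x) ^ j ≤ Cp j / SC) := by
  have hpne : ∀ x ∈ Ioo (0 : ℝ) 8, pp x ≠ 0 := by
    intro x hx h0
    have h1 := B04g_abs_pos hx
    rw [h0, abs_zero] at h1
    have a := hx.1
    have b := hx.2
    have c1 : (0 : ℝ) < x + 1 := by linarith
    have c2 : (0 : ℝ) < x - 0 := by linarith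
    have c3 : (0 : ℝ) < 8 - x := by linarith
    have := mul_pos (mul_pos c1 c2) c3
    linarith
  obtain ⟨s1, s2⟩ := start_pos h
  obtain ⟨e1, e2, e3⟩ := ends_pos h
  obtain ⟨v, hv0, hv1, hch⟩ := exists_chain hpne s1 s2
    (fun j hj x hx => qqp_deriv j hj x hx.1.ne')
  have hfl : ∀ x ∈ Ioo (0 : ℝ) 8, pp x * v 1 x = u x - evl (pdP gp) x / SC := by
    intro x hx
    rw [hv1, mul_div_cancel₀ _ (hpne x hx)]
  have hb := chain_bounded (α := 0) (β := 8) (by norm_num) (c := 1) (C := 9) (by norm_num)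
    (fun x hx => by
      rw [B04g_abs_pos hx]
      have a := hx.1
      have b := hx.2
      have c2 : (0 : ℝ) ≤ x - 0 := by linarith
      have c3 : (0 : ℝ) ≤ 8 - x := by linarith
      exact mul_le_mul_of_nonneg_right (mul_le_mul_of_nonneg_right (by linarith) c2) c3)
    (fun x hx => by
      rw [B04g_abs_pos hx]
      have a := hx.1
      have b := hx.2
      have c2 : (0 : ℝ) ≤ x - 0 := by linarith
      have c3 : (0 : ℝ) ≤ 8 - x := by linarith
      exact mul_le_mul_of_nonneg_right (mul_le_mul_of_nonneg_right (by linarith) c2) c3)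
    hch (fun j hj => qqp_bdd j hj) (by rw [hv0]; exact e1)
    (e2.congr' (by
      filter_upwards [Ioo_mem_nhdsGT (show (0 : ℝ) < 8 by norm_num)] with x hx
      exact (hfl x hx).symm))
    (e3.congr' (by
      filter_upwards [Ioo_mem_nhdsLT (show (0 : ℝ) < 8 by norm_num)] with x hx
      exact (hfl x hx).symm))
  refine ⟨v, fun x => by rw [hv0], fun j hj x hx => hch.d j (by omega) x hx, ?_⟩
  exact chain_bounds_pos hch hb (C := fun j => (Cp j : ℝ) / SC) (fun j _ => B04g_Cp j)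
    (fun j hj x hx => qqp_cert j hj x hx)

/-- the result on `(-1,0)` -/
theorem e2_neg {G u : ℝ → ℝ} (h : GF G u) :
    ∃ v : ℕ → ℝ → ℝ, (∀ x, v 0 x = G x - evl gm x / SC) ∧
      (∀ j ≤ 2, ∀ x ∈ Ioo (-1 : ℝ) 0, HasDerivAt (v j) (v (j + 1) x) x) ∧
      (∀ j ≤ 3, ∀ x ∈ Ioo (-1 : ℝ) 0, |v j x| ≤ Cm j / SC) := by
  have hpne : ∀ x ∈ Ioo (-1 : ℝ) 0, pp x ≠ 0 := by
    intro x hx h0
    have h1 := B04g_abs_neg hx
    rw [h0, abs_zero] at h1
    have a := hx.1
    have b := hx.2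
    have c1 : (0 : ℝ) < 8 - x := by linarith
    have c2 : (0 : ℝ) < x - (-1) := by linarith
    have c3 : (0 : ℝ) < 0 - x := by linarith
    have := mul_pos (mul_pos c1 c2) c3
    linarith
  obtain ⟨s1, s2⟩ := start_neg h
  obtain ⟨e1, e2, e3⟩ := ends_neg h
  obtain ⟨v, hv0, hv1, hch⟩ := exists_chain hpne s1 s2
    (fun j hj x hx => qqm_deriv j hj x hx.2.ne)
  have hfl : ∀ x ∈ Ioo (-1 : ℝ) 0, pp x * v 1 x = u x - evl (pdP gm) x / SC := by
    intro x hx
    rw [hv1, mul_div_cancel₀ _ (hpne x hx)]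
  have hb := chain_bounded (α := -1) (β := 0) (by norm_num) (c := 1) (C := 9) (by norm_num)
    (fun x hx => by
      rw [B04g_abs_neg hx]
      have a := hx.1
      have b := hx.2
      have c2 : (0 : ℝ) ≤ x - (-1) := by linarith
      have c3 : (0 : ℝ) ≤ 0 - x := by linarith
      exact mul_le_mul_of_nonneg_right (mul_le_mul_of_nonneg_right (by linarith) c2) c3)
    (fun x hx => by
      rw [B04g_abs_neg hx]
      have a := hx.1
      have b := hx.2
      have c2 : (0 : ℝ) ≤ x - (-1) := by linarith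
      have c3 : (0 : ℝ) ≤ 0 - x := by linarith
      exact mul_le_mul_of_nonneg_right (mul_le_mul_of_nonneg_right (by linarith) c2) c3)
    hch (fun j hj => qqm_bdd j hj) (by rw [hv0]; exact e1)
    (e2.congr' (by
      filter_upwards [Ioo_mem_nhdsGT (show (-1 : ℝ) < 0 by norm_num)] with x hx
      exact (hfl x hx).symm))
    (e3.congr' (by
      filter_upwards [Ioo_mem_nhdsLT (show (-1 : ℝ) < 0 by norm_num)] with x hx
      exact (hfl x hx).symm))
  refine ⟨v, fun x => by rw [hv0], fun j hj x hx => hch.d j (by omega) x hx, ?_⟩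
  exact chain_bounds_neg hch hb (C := fun j => (Cm j : ℝ) / SC) (fun j _ => B04g_Cm j)
    (fun j hj x hx => qqm_cert j hj x hx)

end Pool.Agent.Lib.MP_230119_an.EX
end

section

/-!
# Certificates (part 3)
-/

set_option autoImplicit false
set_option maxRecDepth 100000

namespace Pool.Agent.Lib.MP_230119_an.EX

/-- F1 -/
def d_fp13 : List ℤ × List ℤ := Fp1 3
/-- bound -/
def m_fp13 : List ℤ := [29 * (SC * LI)]

theorem z_fp13 : chkPre 10 18 10 d_fp13.1 d_fp13.2 m_fp13 = true := by decide +kernel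
theorem s_fp13_0 : chkSeg 10 18 10 0 d_fp13.1 d_fp13.2 m_fp13 = true := by decide +kernel
theorem s_fp13_1 : chkSeg 10 18 10 1 d_fp13.1 d_fp13.2 m_fp13 = true := by decide +kernel
theorem s_fp13_2 : chkSeg 10 18 10 2 d_fp13.1 d_fp13.2 m_fp13 = true := by decide +kernel
theorem s_fp13_3 : chkSeg 10 18 10 3 d_fp13.1 d_fp13.2 m_fp13 = true := by decide +kernel
theorem s_fp13_4 : chkSeg 10 18 10 4 d_fp13.1 d_fp13.2 m_fp13 = true := by decide +kernel
theorem s_fp13_5 : chkSeg 10 18 10 5 d_fp13.1 d_fp13.2 m_fp13 = true := by decide +kernel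
theorem s_fp13_6 : chkSeg 10 18 10 6 d_fp13.1 d_fp13.2 m_fp13 = true := by decide +kernel
theorem s_fp13_7 : chkSeg 10 18 10 7 d_fp13.1 d_fp13.2 m_fp13 = true := by decide +kernel
theorem s_fp13_8 : chkSeg 10 18 10 8 d_fp13.1 d_fp13.2 m_fp13 = true := by decide +kernel
theorem s_fp13_9 : chkSeg 10 18 10 9 d_fp13.1 d_fp13.2 m_fp13 = true := by decide +kernel
theorem s_fp13_10 : chkSeg 10 18 10 10 d_fp13.1 d_fp13.2 m_fp13 = true := by decide +kernel
theorem s_fp13_11 : chkSeg 10 18 10 11 d_fp13.1 d_fp13.2 m_fp13 = true := by decide +kernel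
theorem s_fp13_12 : chkSeg 10 18 10 12 d_fp13.1 d_fp13.2 m_fp13 = true := by decide +kernel

theorem c_fp13 : chkAll 10 18 10 13 d_fp13.1 d_fp13.2 m_fp13 = true := by
  refine chkAll_of _ _ _ _ _ _ _ z_fp13 ?_
  intro i hi
  interval_cases i
  · exact s_fp13_0
  · exact s_fp13_1
  · exact s_fp13_2
  · exact s_fp13_3
  · exact s_fp13_4
  · exact s_fp13_5
  · exact s_fp13_6
  · exact s_fp13_7
  · exact s_fp13_8
  · exact s_fp13_9
  · exact s_fp13_10
  · exact s_fp13_11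
  · exact s_fp13_12

/-- F2 -/
def d_fp20 : List ℤ × List ℤ := Fp2 0
/-- bound -/
def m_fp20 : List ℤ := [3 * SC / 10]

theorem z_fp20 : chkPre 10 18 10 d_fp20.1 d_fp20.2 m_fp20 = true := by decide +kernel
theorem s_fp20_0 : chkSeg 10 18 10 0 d_fp20.1 d_fp20.2 m_fp20 = true := by decide +kernel
theorem s_fp20_1 : chkSeg 10 18 10 1 d_fp20.1 d_fp20.2 m_fp20 = true := by decide +kernel
theorem s_fp20_2 : chkSeg 10 18 10 2 d_fp20.1 d_fp20.2 m_fp20 = true := by decide +kernel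
theorem s_fp20_3 : chkSeg 10 18 10 3 d_fp20.1 d_fp20.2 m_fp20 = true := by decide +kernel
theorem s_fp20_4 : chkSeg 10 18 10 4 d_fp20.1 d_fp20.2 m_fp20 = true := by decide +kernel
theorem s_fp20_5 : chkSeg 10 18 10 5 d_fp20.1 d_fp20.2 m_fp20 = true := by decide +kernel
theorem s_fp20_6 : chkSeg 10 18 10 6 d_fp20.1 d_fp20.2 m_fp20 = true := by decide +kernel
theorem s_fp20_7 : chkSeg 10 18 10 7 d_fp20.1 d_fp20.2 m_fp20 = true := by decide +kernel
theorem s_fp20_8 : chkSeg 10 18 10 8 d_fp20.1 d_fp20.2 m_fp20 = true := by decide +kernel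
theorem s_fp20_9 : chkSeg 10 18 10 9 d_fp20.1 d_fp20.2 m_fp20 = true := by decide +kernel
theorem s_fp20_10 : chkSeg 10 18 10 10 d_fp20.1 d_fp20.2 m_fp20 = true := by decide +kernel
theorem s_fp20_11 : chkSeg 10 18 10 11 d_fp20.1 d_fp20.2 m_fp20 = true := by decide +kernel
theorem s_fp20_12 : chkSeg 10 18 10 12 d_fp20.1 d_fp20.2 m_fp20 = true := by decide +kernel

theorem c_fp20 : chkAll 10 18 10 13 d_fp20.1 d_fp20.2 m_fp20 = true := by
  refine chkAll_of _ _ _ _ _ _ _ z_fp20 ?_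
  intro i hi
  interval_cases i
  · exact s_fp20_0
  · exact s_fp20_1
  · exact s_fp20_2
  · exact s_fp20_3
  · exact s_fp20_4
  · exact s_fp20_5
  · exact s_fp20_6
  · exact s_fp20_7
  · exact s_fp20_8
  · exact s_fp20_9
  · exact s_fp20_10
  · exact s_fp20_11
  · exact s_fp20_12

end Pool.Agent.Lib.MP_230119_an.EX
end

section

/-!
# The Fourier coefficients of `K_X`
-/

set_option autoImplicit false

open Set Filter Topology MeasureTheory

namespace Pool.Agent.Lib.MP_230119_an.EX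

private lemma K05a_lenQ : QT.length ≤ 21 ∧ ∀ l ∈ QT, l.length ≤ 21 := by
  constructor
  · decide +kernel
  · decide +kernel

private lemma K05a_lenR : RT.length ≤ 27 ∧ ∀ l ∈ RT, l.length ≤ 27 := by
  constructor
  · decide +kernel
  · decide +kernel

private lemma K05a_LIpos : (0 : ℝ) < 2 * SC * LI := by
  have : (0 : ℤ) < 2 * SC * LI := by decide +kernel
  exact_mod_cast this

/-- the sum of the three logarithms -/
private noncomputable def K05aL (z : ℝ × ℝ × ℝ) : ℝ :=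
  lg (z.1 - z.2.1) + lg (z.2.1 - z.2.2) + lg (z.2.2 - z.1)

private lemma K05aL_int : Integrable K05aL mc3 :=
  (lg_integrable_ab.add lg_integrable_bc).add lg_integrable_ca

private lemma K05a_ch_cont (p q r : ℤ) : Continuous (ch p q r) := by
  unfold ch
  fun_prop

private lemma K05a_ch_norm (p q r : ℤ) (z : ℝ × ℝ × ℝ) : ‖ch p q r z‖ = 1 := by
  unfold ch
  exact Complex.norm_exp_ofReal_mul_I _

private lemma K05a_int_ch {Φ : ℝ × ℝ × ℝ → ℂ} (h : Integrable Φ mc3) (p q r : ℤ) :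
    Integrable (fun z => Φ z * ch p q r z) mc3 :=
  h.mul_bdd (c := 1) (K05a_ch_cont p q r).aestronglyMeasurable
    (Eventually.of_forall fun z => (K05a_ch_norm p q r z).le)

private lemma K05a_int_L (p q r : ℤ) : ∫ z, (K05aL z : ℂ) * ch p q r z ∂mc3
    = (((2 * Real.pi) ^ 3 : ℝ) : ℂ) * ((if r = 0 ∧ p + q = 0 then (ell p : ℂ) else 0)
      + (if p = 0 ∧ q + r = 0 then (ell q : ℂ) else 0)
      + (if q = 0 ∧ p + r = 0 then (ell p : ℂ) else 0)) := by
  have e : ∀ z, (K05aL z : ℂ) * ch p q r z = (lg (z.1 - z.2.1) : ℂ) * ch p q r z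
      + (lg (z.2.1 - z.2.2) : ℂ) * ch p q r z + (lg (z.2.2 - z.1) : ℂ) * ch p q r z := by
    intro z
    unfold K05aL
    push_cast
    ring
  simp_rw [e]
  rw [integral_add, integral_add, lg_ab, lg_bc, lg_ca]
  · split_ifs <;> ring
  · exact K05a_int_ch lg_integrable_ab.ofReal p q r
  · exact K05a_int_ch lg_integrable_bc.ofReal p q r
  · exact (K05a_int_ch lg_integrable_ab.ofReal p q r).add
      (K05a_int_ch lg_integrable_bc.ofReal p q r)
  · exact K05a_int_ch lg_integrable_ca.ofReal p q r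

/-- `tf` as a sum of characters -/
private lemma K05a_tf (N m : ℕ) (T : List (List ℤ)) (hT : T.length ≤ m)
    (hl : ∀ l ∈ T, l.length ≤ m) (z : ℝ × ℝ × ℝ) :
    tf N T z.1 z.2.1 z.2.2 = ∑ i ∈ Finset.range m, ∑ j ∈ Finset.range m, (co2 T i j : ℂ) *
      ch ((i : ℤ) - N) ((j : ℤ) - N) (2 * N - i - j) z := by
  rw [tf_sum N m T hT hl]
  refine Finset.sum_congr rfl fun i _ => Finset.sum_congr rfl fun j _ => ?_
  unfold ch
  push_cast
  rfl

private lemma K05a_tf_cont (N m : ℕ) (T : List (List ℤ)) (hT : T.length ≤ m)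
    (hl : ∀ l ∈ T, l.length ≤ m) : Continuous fun z : ℝ × ℝ × ℝ => tf N T z.1 z.2.1 z.2.2 := by
  simp_rw [K05a_tf N m T hT hl]
  exact continuous_finsetSum _ fun i _ => continuous_finsetSum _ fun j _ =>
    continuous_const.mul (K05a_ch_cont _ _ _)

private lemma K05a_tf_bdd (N m : ℕ) (T : List (List ℤ)) (hT : T.length ≤ m)
    (hl : ∀ l ∈ T, l.length ≤ m) : ∃ C : ℝ, ∀ z : ℝ × ℝ × ℝ, ‖tf N T z.1 z.2.1 z.2.2‖ ≤ C := by
  refine ⟨∑ i ∈ Finset.range m, ∑ j ∈ Finset.range m, ‖(co2 T i j : ℂ)‖, fun z => ?_⟩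
  rw [K05a_tf N m T hT hl]
  refine (norm_sum_le _ _).trans (Finset.sum_le_sum fun i _ => ?_)
  refine (norm_sum_le _ _).trans (Finset.sum_le_sum fun j _ => ?_)
  rw [norm_mul, K05a_ch_norm, mul_one]

/-- the complex form of `2 SC LI K_X` -/
private noncomputable def K05aF (z : ℝ × ℝ × ℝ) : ℂ :=
  tf 10 QT z.1 z.2.1 z.2.2 * (K05aL z : ℂ) + tf 13 RT z.1 z.2.1 z.2.2

private lemma K05a_tabint : Integrable (fun z : ℝ × ℝ × ℝ => tf 13 RT z.1 z.2.1 z.2.2) mc3 := by
  obtain ⟨C, hC⟩ := K05a_tf_bdd 13 27 RT K05a_lenR.1 K05a_lenR.2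
  exact Integrable.of_bound (K05a_tf_cont 13 27 RT K05a_lenR.1 K05a_lenR.2).aestronglyMeasurable C
    (Eventually.of_forall hC)

private lemma K05a_Qint :
    Integrable (fun z : ℝ × ℝ × ℝ => tf 10 QT z.1 z.2.1 z.2.2 * (K05aL z : ℂ)) mc3 := by
  obtain ⟨C, hC⟩ := K05a_tf_bdd 10 21 QT K05a_lenQ.1 K05a_lenQ.2
  exact K05aL_int.ofReal.bdd_mul
    (K05a_tf_cont 10 21 QT K05a_lenQ.1 K05a_lenQ.2).aestronglyMeasurable
    (Eventually.of_forall hC)

private lemma K05aF_int : Integrable K05aF mc3 := K05a_Qint.add K05a_tabint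

private lemma K05a_ae : ∀ᵐ z ∂mc3, ((2 * SC * LI * KX z.1 z.2.1 z.2.2 : ℝ) : ℂ) = K05aF z := by
  filter_upwards [log_rho_ae] with z hz
  rw [KX_tab, hz]
  rfl

theorem KX_integrable : Integrable (fun z : ℝ × ℝ × ℝ => KX z.1 z.2.1 z.2.2) mc3 := by
  have h1 : Integrable (fun z : ℝ × ℝ × ℝ => ((2 * SC * LI * KX z.1 z.2.1 z.2.2 : ℝ) : ℂ)) mc3 :=
    K05aF_int.congr (K05a_ae.mono fun z hz => hz.symm)
  have h2 := (h1.re).const_mul (1 / (2 * SC * LI : ℝ))
  refine h2.congr (Eventually.of_forall fun z => ?_)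
  have := K05a_LIpos.ne'
  show 1 / (2 * SC * LI : ℝ) * (2 * SC * LI * KX z.1 z.2.1 z.2.2) = KX z.1 z.2.1 z.2.2
  rw [one_div, inv_mul_cancel_left₀ this]

private lemma K05a_pick (m : ℕ) (g : ℕ → ℂ) (hg : ∀ i, m ≤ i → g i = 0) (t : ℤ) :
    ∑ i ∈ Finset.range m, (if (i : ℤ) = t then g i else 0) = if 0 ≤ t then g t.toNat else 0 := by
  by_cases ht : 0 ≤ t
  · rw [if_pos ht]
    obtain ⟨n, rfl⟩ := Int.eq_ofNat_of_zero_le ht
    simp only [Nat.cast_inj, Int.toNat_natCast]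
    rw [Finset.sum_ite_eq']
    split_ifs with h
    · rfl
    · rw [Finset.mem_range, not_lt] at h
      exact (hg n h).symm
  · rw [if_neg ht]
    refine Finset.sum_eq_zero fun i _ => ?_
    rw [if_neg]
    omega

private lemma K05a_co2 (i j : ℕ) (h : 21 ≤ i ∨ 21 ≤ j) : co2 QT i j = 0 := by
  unfold co2
  rcases h with h | h
  · have h1 : (QT.getD j []).length ≤ 21 := by
      by_cases hj : j < QT.length
      · rw [List.getD_eq_getElem _ _ hj]
        exact K05a_lenQ.2 _ (List.getElem_mem hj)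
      · rw [List.getD_eq_default _ _ (not_lt.1 hj)]
        simp
    exact List.getD_eq_default _ _ (h1.trans h)
  · rw [List.getD_eq_default _ _ (K05a_lenQ.1.trans h)]
    simp

private lemma K05a_sum (p q r : ℤ) (h : p + q + r = 0) :
    ∑ i ∈ Finset.range 21, ∑ j ∈ Finset.range 21, (co2 QT i j : ℂ) *
      ((if (2 * 10 - (i : ℤ) - j) + -r = 0 ∧ ((i : ℤ) - 10 + -p) + ((j : ℤ) - 10 + -q) = 0 then
          (ell ((i : ℤ) - 10 + -p) : ℂ) else 0)
      + (if ((i : ℤ) - 10 + -p) = 0 ∧ ((j : ℤ) - 10 + -q) + ((2 * 10 - (i : ℤ) - j) + -r) = 0 then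
          (ell ((j : ℤ) - 10 + -q) : ℂ) else 0)
      + (if ((j : ℤ) - 10 + -q) = 0 ∧ ((i : ℤ) - 10 + -p) + ((2 * 10 - (i : ℤ) - j) + -r) = 0 then
          (ell ((i : ℤ) - 10 + -p) : ℂ) else 0))
      = ((sBC p q + sCA p q + sAB p q : ℚ) : ℂ) := by
  have hAB : ∑ i ∈ Finset.range 21, ∑ j ∈ Finset.range 21, (co2 QT i j : ℂ) *
      (if (2 * 10 - (i : ℤ) - j) + -r = 0 ∧ ((i : ℤ) - 10 + -p) + ((j : ℤ) - 10 + -q) = 0 then
          (ell ((i : ℤ) - 10 + -p) : ℂ) else 0) = ((sAB p q : ℚ) : ℂ) := by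
    rw [sAB, sumR_eq, Rat.cast_sum]
    refine Finset.sum_congr rfl fun i _ => ?_
    rw [Rat.cast_mul, Rat.cast_intCast]
    have e1 : ∀ j ∈ Finset.range 21, (co2 QT i j : ℂ) *
        (if (2 * 10 - (i : ℤ) - j) + -r = 0 ∧ ((i : ℤ) - 10 + -p) + ((j : ℤ) - 10 + -q) = 0 then
          (ell ((i : ℤ) - 10 + -p) : ℂ) else 0)
        = if (j : ℤ) = p + q - ((i : ℤ) - 10) + 10 then
          (co2 QT i j : ℂ) * (ell ((i : ℤ) - 10 - p) : ℂ) else 0 := by
      intro j _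
      by_cases hj : (j : ℤ) = p + q - ((i : ℤ) - 10) + 10
      · rw [if_pos hj, if_pos ⟨by omega, by omega⟩]
        rfl
      · rw [if_neg hj, if_neg (by omega), mul_zero]
    rw [Finset.sum_congr rfl e1, K05a_pick 21 _ (fun j hj => by rw [K05a_co2 i j (Or.inr hj)]; simp)]
    unfold cT
    have e2 : ((i : ℤ) - 10 + ((10 : ℕ) : ℤ)).toNat = i := by
      simp
    rw [e2]
    push_cast
    by_cases h0 : 0 ≤ p + q - ((i : ℤ) - 10) + 10
    · rw [if_pos h0, if_pos ⟨by omega, h0⟩]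
    · rw [if_neg h0, if_neg (by omega)]
      simp
  have hBC : ∑ i ∈ Finset.range 21, ∑ j ∈ Finset.range 21, (co2 QT i j : ℂ) *
      (if ((i : ℤ) - 10 + -p) = 0 ∧ ((j : ℤ) - 10 + -q) + ((2 * 10 - (i : ℤ) - j) + -r) = 0 then
          (ell ((j : ℤ) - 10 + -q) : ℂ) else 0) = ((sBC p q : ℚ) : ℂ) := by
    rw [sBC, sumR_eq, Finset.sum_comm, Rat.cast_sum]
    refine Finset.sum_congr rfl fun j _ => ?_
    rw [Rat.cast_mul, Rat.cast_intCast]
    have e1 : ∀ i ∈ Finset.range 21, (co2 QT i j : ℂ) *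
        (if ((i : ℤ) - 10 + -p) = 0 ∧ ((j : ℤ) - 10 + -q) + ((2 * 10 - (i : ℤ) - j) + -r) = 0 then
          (ell ((j : ℤ) - 10 + -q) : ℂ) else 0)
        = if (i : ℤ) = p + 10 then (co2 QT i j : ℂ) * (ell ((j : ℤ) - 10 - q) : ℂ) else 0 := by
      intro i _
      by_cases hi : (i : ℤ) = p + 10
      · rw [if_pos hi, if_pos ⟨by omega, by omega⟩]
        rfl
      · rw [if_neg hi, if_neg (by omega), mul_zero]
    rw [Finset.sum_congr rfl e1, K05a_pick 21 _ (fun i hi => by rw [K05a_co2 i j (Or.inl hi)]; simp)]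
    unfold cT
    have e2 : ((j : ℤ) - 10 + ((10 : ℕ) : ℤ)).toNat = j := by
      simp
    rw [e2]
    push_cast
    by_cases h0 : 0 ≤ p + 10
    · rw [if_pos h0, if_pos ⟨h0, by omega⟩]
    · rw [if_neg h0, if_neg (by omega)]
      simp
  have hCA : ∑ i ∈ Finset.range 21, ∑ j ∈ Finset.range 21, (co2 QT i j : ℂ) *
      (if ((j : ℤ) - 10 + -q) = 0 ∧ ((i : ℤ) - 10 + -p) + ((2 * 10 - (i : ℤ) - j) + -r) = 0 then
          (ell ((i : ℤ) - 10 + -p) : ℂ) else 0) = ((sCA p q : ℚ) : ℂ) := by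
    rw [sCA, sumR_eq, Rat.cast_sum]
    refine Finset.sum_congr rfl fun i _ => ?_
    rw [Rat.cast_mul, Rat.cast_intCast]
    have e1 : ∀ j ∈ Finset.range 21, (co2 QT i j : ℂ) *
        (if ((j : ℤ) - 10 + -q) = 0 ∧ ((i : ℤ) - 10 + -p) + ((2 * 10 - (i : ℤ) - j) + -r) = 0 then
          (ell ((i : ℤ) - 10 + -p) : ℂ) else 0)
        = if (j : ℤ) = q + 10 then (co2 QT i j : ℂ) * (ell ((i : ℤ) - 10 - p) : ℂ) else 0 := by
      intro j _
      by_cases hj : (j : ℤ) = q + 10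
      · rw [if_pos hj, if_pos ⟨by omega, by omega⟩]
        rfl
      · rw [if_neg hj, if_neg (by omega), mul_zero]
    rw [Finset.sum_congr rfl e1, K05a_pick 21 _ (fun j hj => by rw [K05a_co2 i j (Or.inr hj)]; simp)]
    unfold cT
    have e2 : ((i : ℤ) - 10 + ((10 : ℕ) : ℤ)).toNat = i := by
      simp
    rw [e2]
    push_cast
    by_cases h0 : 0 ≤ q + 10
    · rw [if_pos h0, if_pos ⟨by omega, h0⟩]
    · rw [if_neg h0, if_neg (by omega)]
      simp
  simp_rw [mul_add, Finset.sum_add_distrib]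
  rw [hAB, hBC, hCA]
  push_cast
  ring

theorem cf_KX (p q r : ℤ) : cf KX p q r = if p + q + r = 0 then (kx p q : ℂ) else 0 := by
  have hpi : (((2 * Real.pi) ^ 3 : ℝ) : ℂ) ≠ 0 := by
    have : ((2 * Real.pi) ^ 3 : ℝ) ≠ 0 := by positivity
    exact_mod_cast this
  have hLI : ((2 * SC * LI : ℝ) : ℂ) ≠ 0 := by
    exact_mod_cast K05a_LIpos.ne'
  -- the tabular part
  have h1 := cfC_tf 13 27 RT K05a_lenR.1 K05a_lenR.2 p q r
  -- the logarithmic part
  have h2 : ∫ z : ℝ × ℝ × ℝ, tf 10 QT z.1 z.2.1 z.2.2 * (K05aL z : ℂ) * ch (-p) (-q) (-r) z ∂mc3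
      = ∑ i ∈ Finset.range 21, ∑ j ∈ Finset.range 21, (co2 QT i j : ℂ) *
        ∫ z, (K05aL z : ℂ) * ch ((i : ℤ) - 10 + -p) ((j : ℤ) - 10 + -q)
          (2 * 10 - i - j + -r) z ∂mc3 := by
    have e : ∀ z : ℝ × ℝ × ℝ, tf 10 QT z.1 z.2.1 z.2.2 * (K05aL z : ℂ) * ch (-p) (-q) (-r) z
        = ∑ i ∈ Finset.range 21, ∑ j ∈ Finset.range 21, (co2 QT i j : ℂ) *
          ((K05aL z : ℂ) * ch ((i : ℤ) - 10 + -p) ((j : ℤ) - 10 + -q)
            (2 * 10 - i - j + -r) z) := by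
      intro z
      rw [K05a_tf 10 21 QT K05a_lenQ.1 K05a_lenQ.2, Finset.sum_mul, Finset.sum_mul]
      refine Finset.sum_congr rfl fun i _ => ?_
      rw [Finset.sum_mul, Finset.sum_mul]
      refine Finset.sum_congr rfl fun j _ => ?_
      rw [← ch_mul]
      push_cast
      ring
    simp_rw [e]
    rw [integral_finsetSum]
    · refine Finset.sum_congr rfl fun i _ => ?_
      rw [integral_finsetSum]
      · refine Finset.sum_congr rfl fun j _ => ?_
        rw [integral_const_mul]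
      · intro j _
        exact (K05a_int_ch K05aL_int.ofReal _ _ _).const_mul _
    · intro i _
      refine integrable_finsetSum _ fun j _ => ?_
      exact (K05a_int_ch K05aL_int.ofReal _ _ _).const_mul _
  have h3 : ((2 * SC * LI : ℝ) : ℂ) * ∫ z : ℝ × ℝ × ℝ, (KX z.1 z.2.1 z.2.2 : ℂ)
        * ch (-p) (-q) (-r) z ∂mc3
      = (∫ z : ℝ × ℝ × ℝ, tf 10 QT z.1 z.2.1 z.2.2 * (K05aL z : ℂ) * ch (-p) (-q) (-r) z ∂mc3)
        + ∫ z : ℝ × ℝ × ℝ, tf 13 RT z.1 z.2.1 z.2.2 * ch (-p) (-q) (-r) z ∂mc3 := by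
    rw [← integral_const_mul, ← integral_add (K05a_int_ch K05a_Qint _ _ _)
      (K05a_int_ch K05a_tabint _ _ _)]
    refine integral_congr_ae ?_
    filter_upwards [K05a_ae] with z hz
    have : ((2 * SC * LI : ℝ) : ℂ) * ((KX z.1 z.2.1 z.2.2 : ℂ) * ch (-p) (-q) (-r) z)
        = ((2 * SC * LI * KX z.1 z.2.1 z.2.2 : ℝ) : ℂ) * ch (-p) (-q) (-r) z := by
      push_cast
      ring
    rw [this, hz, K05aF]
    ring
  have h4 : ∫ z : ℝ × ℝ × ℝ, tf 13 RT z.1 z.2.1 z.2.2 * ch (-p) (-q) (-r) z ∂mc3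
      = (((2 * Real.pi) ^ 3 : ℝ) : ℂ) * (if p + q + r = 0 then (cT 13 RT p q : ℂ) else 0) := by
    rw [← h1]
    unfold cfC
    field_simp
  simp_rw [K05a_int_L] at h2
  have h5 : ∫ z : ℝ × ℝ × ℝ, (KX z.1 z.2.1 z.2.2 : ℂ) * ch (-p) (-q) (-r) z ∂mc3
      = (((2 * Real.pi) ^ 3 : ℝ) : ℂ) * (if p + q + r = 0 then (kx p q : ℂ) else 0) := by
    refine mul_left_cancel₀ hLI ?_
    rw [h3, h2, h4]
    by_cases hs : p + q + r = 0
    · rw [if_pos hs, if_pos hs]
      have h6 := K05a_sum p q r hs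
      have h7 : ∀ (C : ℂ) (f g : ℕ → ℕ → ℂ), ∑ i ∈ Finset.range 21, ∑ j ∈ Finset.range 21,
          f i j * (C * g i j) = C * ∑ i ∈ Finset.range 21, ∑ j ∈ Finset.range 21, f i j * g i j := by
        intro C f g
        rw [Finset.mul_sum]
        refine Finset.sum_congr rfl fun i _ => ?_
        rw [Finset.mul_sum]
        exact Finset.sum_congr rfl fun j _ => by ring
      have hLI2 : (2 * (SC : ℂ) * (LI : ℂ)) ≠ 0 := by
        have := hLI
        push_cast at this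
        exact this
      have hk : ((2 * SC * LI : ℝ) : ℂ) * (kx p q : ℂ)
          = ((sBC p q + sCA p q + sAB p q : ℚ) : ℂ) + (cT 13 RT p q : ℂ) := by
        unfold kx
        push_cast
        rw [mul_div_cancel₀ _ hLI2]
      rw [h7, h6]
      linear_combination (-(((2 * Real.pi) ^ 3 : ℝ) : ℂ)) * hk
    · rw [if_neg hs, if_neg hs, mul_zero, mul_zero, add_zero]
      refine Finset.sum_eq_zero fun i _ => Finset.sum_eq_zero fun j _ => ?_
      rw [if_neg (by omega), if_neg (by omega), if_neg (by omega)]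
      ring
  show (∫ z : ℝ × ℝ × ℝ, (KX z.1 z.2.1 z.2.2 : ℂ) * ch (-p) (-q) (-r) z ∂mc3)
    / (((2 * Real.pi) ^ 3 : ℝ) : ℂ) = _
  rw [h5]
  field_simp

end Pool.Agent.Lib.MP_230119_an.EX
end
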