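import Pool.Agent.Lib.MP_230119_an.Mg.G003
import Pool.Agent.Lib.MP_230119_an.Mg.G002
import Pool.Agent.Lib.MP_230119_an.EX.T06
import Pool.Agent.Lib.MP_230119_an.Mg.G008

section

/-!
# Expansion of the trilinear form
-/

set_option autoImplicit false

open Set Filter Topology MeasureTheory

namespace Pool.Agent.Lib.MP_230119_an.EX

theorem S02b_norm_ch (p q r : ℤ) (z : ℝ × ℝ × ℝ) : ‖ch p q r z‖ = 1 := by
  unfold ch
  rw [Complex.norm_exp_ofReal_mul_I]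

theorem S02b_meas_ch (p q r : ℤ) : Continuous (ch p q r) := by
  unfold ch
  fun_prop

theorem S02b_int {G u : ℝ → ℝ} (h : GF G u) (p q r : ℤ) :
    Integrable (fun z : ℝ × ℝ × ℝ => ((KK G u z.1 z.2.1 z.2.2 : ℝ) : ℂ) * ch p q r z) mc3 := by
  refine (KK_integrable h).ofReal.mul_bdd (c := 1) (S02b_meas_ch p q r).aestronglyMeasurable ?_
  exact Eventually.of_forall fun z => (S02b_norm_ch p q r z).le

theorem S02b_e (k l m : ℤ) (z : ℝ × ℝ × ℝ) :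
    Complex.exp (2 * (k : ℂ) * (z.1 : ℂ) * Complex.I) *
      Complex.exp (2 * (l : ℂ) * (z.2.1 : ℂ) * Complex.I) *
      Complex.exp (2 * (m : ℂ) * (z.2.2 : ℂ) * Complex.I) = ch (2 * k) (2 * l) (2 * m) z := by
  unfold ch
  rw [← Complex.exp_add, ← Complex.exp_add]
  congr 1
  push_cast
  ring

/-- expansion of the trilinear form -/
theorem TK_expand {G u : ℝ → ℝ} (h : GF G u) {N : ℕ} {a : ℤ → ℂ} {f : ℝ → ℝ} (hf : IsTP N a f) :
    ((TK G u f : ℝ) : ℂ) = (((2 * Real.pi) ^ 3 : ℝ) : ℂ) *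
      ∑ k ∈ Finset.Icc (-(N : ℤ)) N, ∑ l ∈ Finset.Icc (-(N : ℤ)) N, ∑ m ∈ Finset.Icc (-(N : ℤ)) N,
        a k * a l * a m * cf (KK G u) (-(2 * k)) (-(2 * l)) (-(2 * m)) := by
  have h1 : ((TK G u f : ℝ) : ℂ) = ∫ z, (((KK G u z.1 z.2.1 z.2.2 *
      (f z.1 * f z.2.1 * f z.2.2) : ℝ)) : ℂ) ∂mc3 := by
    unfold TK
    exact integral_ofReal.symm
  have h2 : ∀ z : ℝ × ℝ × ℝ, (((KK G u z.1 z.2.1 z.2.2 *
      (f z.1 * f z.2.1 * f z.2.2) : ℝ)) : ℂ) =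
      ∑ k ∈ Finset.Icc (-(N : ℤ)) N, ∑ l ∈ Finset.Icc (-(N : ℤ)) N, ∑ m ∈ Finset.Icc (-(N : ℤ)) N,
        (a k * a l * a m) * (((KK G u z.1 z.2.1 z.2.2 : ℝ) : ℂ) *
          ch (2 * k) (2 * l) (2 * m) z) := by
    intro z
    rw [Complex.ofReal_mul, Complex.ofReal_mul, Complex.ofReal_mul, hf z.1, hf z.2.1, hf z.2.2,
      Finset.sum_mul_sum, Finset.sum_mul, Finset.mul_sum]
    refine Finset.sum_congr rfl fun k _ => ?_
    rw [Finset.sum_mul, Finset.mul_sum]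
    refine Finset.sum_congr rfl fun l _ => ?_
    rw [Finset.mul_sum, Finset.mul_sum]
    refine Finset.sum_congr rfl fun m _ => ?_
    rw [← S02b_e]
    ring
  have hpi : (((2 * Real.pi) ^ 3 : ℝ) : ℂ) ≠ 0 := by
    exact_mod_cast (pow_ne_zero 3 (mul_ne_zero two_ne_zero Real.pi_ne_zero))
  have h3 : ∀ k l m : ℤ, ∫ z, ((KK G u z.1 z.2.1 z.2.2 : ℝ) : ℂ) * ch (2 * k) (2 * l) (2 * m) z
      ∂mc3 = (((2 * Real.pi) ^ 3 : ℝ) : ℂ) * cf (KK G u) (-(2 * k)) (-(2 * l)) (-(2 * m)) := by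
    intro k l m
    unfold cf cfC
    rw [mul_div_cancel₀ _ hpi]
    simp only [neg_neg]
  have hi : ∀ k l m : ℤ, Integrable (fun z : ℝ × ℝ × ℝ => (a k * a l * a m) *
      (((KK G u z.1 z.2.1 z.2.2 : ℝ) : ℂ) * ch (2 * k) (2 * l) (2 * m) z)) mc3 :=
    fun k l m => (S02b_int h _ _ _).const_mul _
  rw [h1]
  simp only [h2]
  rw [integral_finsetSum _ fun k _ => integrable_finsetSum _ fun l _ =>
    integrable_finsetSum _ fun m _ => hi k l m, Finset.mul_sum]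
  refine Finset.sum_congr rfl fun k _ => ?_
  rw [integral_finsetSum _ fun l _ => integrable_finsetSum _ fun m _ => hi k l m,
    Finset.mul_sum]
  refine Finset.sum_congr rfl fun l _ => ?_
  rw [integral_finsetSum _ fun m _ => hi k l m, Finset.mul_sum]
  refine Finset.sum_congr rfl fun m _ => ?_
  rw [integral_const_mul, h3]
  ring

end Pool.Agent.Lib.MP_230119_an.EX
end

section

/-!
# Bessel's inequality on the torus
-/

set_option autoImplicit false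

open Set Filter Topology MeasureTheory

namespace Pool.Agent.Lib.MP_230119_an.EX

theorem T05_norm (p q r : ℤ) (z : ℝ × ℝ × ℝ) : ‖ch p q r z‖ = 1 := by
  rw [ch, Complex.norm_exp_ofReal_mul_I]

theorem T05_cont (p q r : ℤ) : Continuous (ch p q r) := by
  unfold ch
  fun_prop

theorem T05_conj (p q r : ℤ) (z : ℝ × ℝ × ℝ) :
    (starRingEnd ℂ) (ch p q r z) = ch (-p) (-q) (-r) z := by
  rw [ch, ch, ← Complex.exp_conj, map_mul, Complex.conj_I, Complex.conj_ofReal]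
  congr 1
  push_cast
  ring

theorem bessel {Φ : ℝ → ℝ → ℝ → ℝ} (hm : Measurable (fun z : ℝ × ℝ × ℝ => Φ z.1 z.2.1 z.2.2))
    {B : ℝ} (hB : ∀ᵐ z ∂mc3, |Φ z.1 z.2.1 z.2.2| ≤ B) (s : Finset (ℤ × ℤ × ℤ)) :
    (∑ k ∈ s, ‖cf Φ k.1 k.2.1 k.2.2‖ ^ 2) * (2 * Real.pi) ^ 3
      ≤ ∫ z, (Φ z.1 z.2.1 z.2.2) ^ 2 ∂mc3 := by
  obtain ⟨V, hV⟩ : ∃ V : ℝ, V = (2 * Real.pi) ^ 3 := ⟨_, rfl⟩
  have hV0 : 0 < V := by rw [hV]; positivity
  obtain ⟨F, hF⟩ : ∃ F : ℝ × ℝ × ℝ → ℝ, F = fun z => Φ z.1 z.2.1 z.2.2 := ⟨_, rfl⟩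
  obtain ⟨c, hc⟩ : ∃ c : ℤ × ℤ × ℤ → ℂ, c = fun k => cf Φ k.1 k.2.1 k.2.2 := ⟨_, rfl⟩
  obtain ⟨e, he⟩ : ∃ e : ℤ × ℤ × ℤ → ℝ × ℝ × ℝ → ℂ, e = fun k => ch k.1 k.2.1 k.2.2 := ⟨_, rfl⟩
  have hFm : Measurable F := by rw [hF]; exact hm
  have hFB : ∀ᵐ z ∂mc3, |F z| ≤ B := by rw [hF]; exact hB
  have hFint : Integrable (fun z => (F z : ℂ)) mc3 :=
    (integrable_const B).mono' (Complex.measurable_ofReal.comp hFm).aestronglyMeasurable
      (by filter_upwards [hFB] with z hz; rwa [Complex.norm_real, Real.norm_eq_abs])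
  have hFe : ∀ k, Integrable (fun z => (F z : ℂ) * e k z) mc3 := by
    intro k
    refine (integrable_const B).mono' ((Complex.measurable_ofReal.comp hFm).aestronglyMeasurable.mul
      (by rw [he]; exact (T05_cont _ _ _).aestronglyMeasurable)) ?_
    filter_upwards [hFB] with z hz
    rw [norm_mul, Complex.norm_real, Real.norm_eq_abs, he]
    simp only [T05_norm, mul_one]
    exact hz
  have hconj : ∀ k z, (starRingEnd ℂ) (e k z) = e (-k) z := by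
    intro k z
    rw [he]
    exact T05_conj _ _ _ z
  have hee : ∀ k l z, e k z * e l z = e (k + l) z := by
    intro k l z
    rw [he]
    exact ch_mul _ _ _ _ _ _ z
  have hcont : ∀ k, Continuous (e k) := by
    intro k
    rw [he]
    exact T05_cont _ _ _
  have hnorm : ∀ k z, ‖e k z‖ = 1 := by
    intro k z
    rw [he]
    exact T05_norm _ _ _ z
  have hei : ∀ k, Integrable (e k) mc3 := fun k =>
    (integrable_const (1 : ℝ)).mono' (hcont k).aestronglyMeasurable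
      (Eventually.of_forall fun z => (hnorm k z).le)
  have hie : ∀ k, ∫ z, e k z ∂mc3 = if k = 0 then (V : ℂ) else 0 := by
    intro k
    rw [he, hV]
    simp only
    rw [integral_ch]
    obtain ⟨k1, k2, k3⟩ := k
    simp only [Prod.mk_eq_zero]
  have hneg : ∀ k, ∫ z, (F z : ℂ) * e (-k) z ∂mc3 = V * c k := by
    intro k
    rw [hc, he, hF, hV]
    simp only [cf, cfC]
    rw [mul_div_cancel₀]
    · rfl
    · have h1 : (2 * Real.pi) ^ 3 ≠ 0 := by positivity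
      exact_mod_cast h1
  have hpos : ∀ k, ∫ z, (F z : ℂ) * e k z ∂mc3 = V * (starRingEnd ℂ) (c k) := by
    intro k
    have h1 := congrArg (starRingEnd ℂ) (hneg k)
    rw [← integral_conj, map_mul, Complex.conj_ofReal] at h1
    rw [← h1]
    congr 1
    funext z
    rw [map_mul, Complex.conj_ofReal, hconj, neg_neg]
  have hexp : ∀ z, ((‖(F z : ℂ) - ∑ k ∈ s, c k * e k z‖ ^ 2 : ℝ) : ℂ) =
      (F z : ℂ) * F z - ∑ k ∈ s, (starRingEnd ℂ) (c k) * ((F z : ℂ) * e (-k) z) -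
        ∑ k ∈ s, c k * ((F z : ℂ) * e k z) +
        ∑ k ∈ s, ∑ l ∈ s, (c k * (starRingEnd ℂ) (c l)) * e (k + -l) z := by
    intro z
    rw [← Complex.normSq_eq_norm_sq, ← Complex.mul_conj, map_sub, Complex.conj_ofReal, map_sum]
    simp only [map_mul, hconj]
    have h1 : (∑ k ∈ s, c k * e k z) * (∑ l ∈ s, (starRingEnd ℂ) (c l) * e (-l) z) =
        ∑ k ∈ s, ∑ l ∈ s, (c k * (starRingEnd ℂ) (c l)) * e (k + -l) z := by
      rw [Finset.sum_mul_sum]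
      apply Finset.sum_congr rfl
      intro k _
      apply Finset.sum_congr rfl
      intro l _
      rw [← hee]
      ring
    have h2 : ∑ k ∈ s, (starRingEnd ℂ) (c k) * ((F z : ℂ) * e (-k) z) =
        (F z : ℂ) * ∑ l ∈ s, (starRingEnd ℂ) (c l) * e (-l) z := by
      rw [Finset.mul_sum]
      apply Finset.sum_congr rfl
      intro k _
      ring
    have h3 : ∑ k ∈ s, c k * ((F z : ℂ) * e k z) = (F z : ℂ) * ∑ k ∈ s, c k * e k z := by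
      rw [Finset.mul_sum]
      apply Finset.sum_congr rfl
      intro k _
      ring
    rw [← h1, h2, h3]
    ring
  have hFF : Integrable (fun z => (F z : ℂ) * F z) mc3 := by
    refine (integrable_const (B * B)).mono' ((Complex.measurable_ofReal.comp
      hFm).aestronglyMeasurable.mul (Complex.measurable_ofReal.comp hFm).aestronglyMeasurable) ?_
    filter_upwards [hFB] with z hz
    rw [norm_mul, Complex.norm_real, Real.norm_eq_abs]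
    exact mul_le_mul hz hz (abs_nonneg _) ((abs_nonneg _).trans hz)
  have h1 : ((∫ z, ‖(F z : ℂ) - ∑ k ∈ s, c k * e k z‖ ^ 2 ∂mc3 : ℝ) : ℂ) =
      (∫ z, (F z : ℂ) * F z ∂mc3) - ∑ k ∈ s, (V : ℂ) * ((‖c k‖ ^ 2 : ℝ) : ℂ) := by
    rw [← integral_complex_ofReal]
    simp only [hexp]
    have i1 : Integrable (fun z => ∑ k ∈ s, (starRingEnd ℂ) (c k) * ((F z : ℂ) * e (-k) z)) mc3 :=
      integrable_finsetSum _ fun k _ => (hFe (-k)).const_mul _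
    have i2 : Integrable (fun z => ∑ k ∈ s, c k * ((F z : ℂ) * e k z)) mc3 :=
      integrable_finsetSum _ fun k _ => (hFe k).const_mul _
    have i3 : Integrable (fun z => ∑ k ∈ s, ∑ l ∈ s,
        (c k * (starRingEnd ℂ) (c l)) * e (k + -l) z) mc3 :=
      integrable_finsetSum _ fun k _ => integrable_finsetSum _ fun l _ =>
        (hei (k + -l)).const_mul _
    have i4 : Integrable (fun z => (F z : ℂ) * F z -
        ∑ k ∈ s, (starRingEnd ℂ) (c k) * ((F z : ℂ) * e (-k) z)) mc3 := hFF.sub i1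
    have i5 : Integrable (fun z => (F z : ℂ) * F z -
        ∑ k ∈ s, (starRingEnd ℂ) (c k) * ((F z : ℂ) * e (-k) z) -
        ∑ k ∈ s, c k * ((F z : ℂ) * e k z)) mc3 := i4.sub i2
    rw [integral_add i5 i3, integral_sub i4 i2,
      integral_sub hFF i1, integral_finsetSum _ fun k _ => (hFe (-k)).const_mul _,
      integral_finsetSum _ fun k _ => (hFe k).const_mul _,
      integral_finsetSum _ fun k _ => integrable_finsetSum _ fun l _ =>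
        (hei (k + -l)).const_mul _]
    have j1 : ∀ k ∈ s, ∫ z, (starRingEnd ℂ) (c k) * ((F z : ℂ) * e (-k) z) ∂mc3 =
        (V : ℂ) * ((‖c k‖ ^ 2 : ℝ) : ℂ) := by
      intro k _
      rw [integral_const_mul, hneg, ← Complex.normSq_eq_norm_sq, ← Complex.mul_conj]
      ring
    have j2 : ∀ k ∈ s, ∫ z, c k * ((F z : ℂ) * e k z) ∂mc3 =
        (V : ℂ) * ((‖c k‖ ^ 2 : ℝ) : ℂ) := by
      intro k _
      rw [integral_const_mul, hpos, ← Complex.normSq_eq_norm_sq, ← Complex.mul_conj]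
      ring
    have j3 : ∀ k ∈ s, ∫ z, ∑ l ∈ s, (c k * (starRingEnd ℂ) (c l)) * e (k + -l) z ∂mc3 =
        (V : ℂ) * ((‖c k‖ ^ 2 : ℝ) : ℂ) := by
      intro k hk
      rw [integral_finsetSum _ fun l _ => (hei (k + -l)).const_mul _]
      have j4 : ∀ l ∈ s, ∫ z, (c k * (starRingEnd ℂ) (c l)) * e (k + -l) z ∂mc3 =
          if k = l then (V : ℂ) * ((‖c k‖ ^ 2 : ℝ) : ℂ) else 0 := by
        intro l _
        rw [integral_const_mul, hie]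
        by_cases hkl : k = l
        · subst hkl
          rw [if_pos rfl, if_pos (by abel), ← Complex.normSq_eq_norm_sq, ← Complex.mul_conj]
          ring
        · rw [if_neg hkl, if_neg (fun h => hkl (by rwa [← sub_eq_add_neg, sub_eq_zero] at h)),
            mul_zero]
      rw [Finset.sum_congr rfl j4, Finset.sum_ite_eq, if_pos hk]
    rw [Finset.sum_congr rfl j1, Finset.sum_congr rfl j2, Finset.sum_congr rfl j3]
    ring
  have h2 : (∫ z, (F z : ℂ) * F z ∂mc3) = ((∫ z, (F z) ^ 2 ∂mc3 : ℝ) : ℂ) := by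
    rw [← integral_complex_ofReal]
    congr 1
    funext z
    push_cast
    ring
  rw [h2] at h1
  have h3 : ∫ z, ‖(F z : ℂ) - ∑ k ∈ s, c k * e k z‖ ^ 2 ∂mc3 =
      (∫ z, (F z) ^ 2 ∂mc3) - ∑ k ∈ s, V * ‖c k‖ ^ 2 := by exact_mod_cast h1
  have h4 : 0 ≤ ∫ z, ‖(F z : ℂ) - ∑ k ∈ s, c k * e k z‖ ^ 2 ∂mc3 :=
    integral_nonneg fun z => sq_nonneg _
  have h5 : (∑ k ∈ s, ‖c k‖ ^ 2) * V ≤ ∫ z, (F z) ^ 2 ∂mc3 := by
    rw [h3] at h4
    have h6 : ∑ k ∈ s, V * ‖c k‖ ^ 2 = (∑ k ∈ s, ‖c k‖ ^ 2) * V := by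
      rw [Finset.sum_mul]
      apply Finset.sum_congr rfl
      intro k _
      ring
    linarith
  rw [hc, hF, hV] at h5
  exact h5

end Pool.Agent.Lib.MP_230119_an.EX
end

section

/-!
# The weighted bound for the Fourier coefficients of the error kernel
-/

set_option autoImplicit false

open Set Filter Topology MeasureTheory

namespace Pool.Agent.Lib.MP_230119_an.EX

variable {F F1 F2 F3 H H1 H2 H3 : ℝ → ℝ} {S0 : ℝ}

/-- the coefficient functions -/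
noncomputable def T08g : Fin 7 → ℝ × ℝ × ℝ → ℝ :=
  ![fun z => c1 z.1 z.2.1 z.2.2, fun z => c2 z.1 z.2.1 z.2.2, fun z => c3 z.1 z.2.1 z.2.2,
    fun z => d0 z.1 z.2.1 z.2.2, fun z => d1 z.1 z.2.1 z.2.2, fun z => d2 z.1 z.2.1 z.2.2,
    fun z => d3 z.1 z.2.1 z.2.2]

/-- the bounds of the derivatives -/
noncomputable def T08S : Fin 7 → ℝ := ![10, 14, 35, 1 / 2, 1, 2, 5]

/-- the squared norms of the coefficient functions -/
noncomputable def T08n : Fin 7 → ℝ := ![2, 46, 164, 21 / 2, 242, 959 / 2, 287 / 2]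

theorem T08_cont (i : Fin 7) : Continuous (T08g i) := by
  fin_cases i
  · change Continuous (fun z : ℝ × ℝ × ℝ => c1 z.1 z.2.1 z.2.2)
    unfold c1 raab; fun_prop
  · change Continuous (fun z : ℝ × ℝ × ℝ => c2 z.1 z.2.1 z.2.2)
    unfold c2 ra rab raa rb; fun_prop
  · change Continuous (fun z : ℝ × ℝ × ℝ => c3 z.1 z.2.1 z.2.2)
    unfold c3 ra rb; fun_prop
  · change Continuous (fun z : ℝ × ℝ × ℝ => d0 z.1 z.2.1 z.2.2)
    unfold d0 xaab; fun_prop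
  · change Continuous (fun z : ℝ × ℝ × ℝ => d1 z.1 z.2.1 z.2.2)
    unfold d1 xaa rb xab ra xa rab xb raa chi raab; fun_prop
  · change Continuous (fun z : ℝ × ℝ × ℝ => d2 z.1 z.2.1 z.2.2)
    unfold d2 xa ra rb xb chi c2 ra rab raa rb; fun_prop
  · change Continuous (fun z : ℝ × ℝ × ℝ => d3 z.1 z.2.1 z.2.2)
    unfold d3 chi c3 ra rb; fun_prop

theorem T08_bdd (i : Fin 7) : ∃ B : ℝ, ∀ z, |T08g i z| ≤ B := by
  have key : T04Bd univ (T08g i) := by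
    fin_cases i
    · exact T04Bd_c1 _
    · exact T04Bd_c2 _
    · exact T04Bd_c3 _
    · exact T04Bd_d0 _
    · exact T04Bd_d1 _
    · exact T04Bd_d2 _
    · exact T04Bd_d3 _
  obtain ⟨B, hB⟩ := key
  exact ⟨B, fun z => hB z (mem_univ z)⟩

theorem T08_n_nonneg (i : Fin 7) : 0 ≤ T08n i := by
  fin_cases i <;> simp [T08n] <;> norm_num

theorem T08_S_nonneg (i : Fin 7) : 0 ≤ T08S i := by
  fin_cases i <;> simp [T08S]

theorem T08_int (i : Fin 7) :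
    ∫ z, (T08g i z) ^ 2 ∂mc3 ≤ Real.sqrt (T08n i) ^ 2 * (2 * Real.pi) ^ 3 := by
  rw [Real.sq_sqrt (T08_n_nonneg i)]
  fin_cases i
  · exact norm_c1.le
  · exact norm_c2.le
  · exact norm_c3.le
  · exact norm_d0.le
  · exact norm_d1.le
  · exact norm_d2.le
  · exact norm_d3.le

theorem T08_mul {x y s : ℝ} (h : |x| ≤ s) : |x * y| ≤ s * |y| := by
  rw [abs_mul]
  exact mul_le_mul_of_nonneg_right h (abs_nonneg _)

theorem T08_sum (hF : C3b F F1 F2 F3 S0 10 14 35) (hH : C3b H H1 H2 H3 (1 / 2) 1 2 5)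
    (z : ℝ × ℝ × ℝ) (h : rho z.1 z.2.1 z.2.2 ∈ Ioo (-1 : ℝ) 8) (h0 : rho z.1 z.2.1 z.2.2 ≠ 0) :
    |Eaab F1 F2 F3 H H1 H2 H3 z.1 z.2.1 z.2.2| ≤ ∑ i ∈ Finset.univ, T08S i * |T08g i z| := by
  rw [Fin.sum_univ_seven]
  change |Eaab F1 F2 F3 H H1 H2 H3 z.1 z.2.1 z.2.2| ≤
    10 * |c1 z.1 z.2.1 z.2.2| + 14 * |c2 z.1 z.2.1 z.2.2| + 35 * |c3 z.1 z.2.1 z.2.2|
      + 1 / 2 * |d0 z.1 z.2.1 z.2.2| + 1 * |d1 z.1 z.2.1 z.2.2| + 2 * |d2 z.1 z.2.1 z.2.2|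
      + 5 * |d3 z.1 z.2.1 z.2.2|
  unfold Eaab
  refine (abs_add_le _ _).trans (add_le_add ?_ (T08_mul (hH.b3 _ h h0)))
  refine (abs_add_le _ _).trans (add_le_add ?_ (T08_mul (hH.b2 _ h)))
  refine (abs_add_le _ _).trans (add_le_add ?_ (T08_mul (hH.b1 _ h)))
  refine (abs_add_le _ _).trans (add_le_add ?_ (T08_mul (hH.b0 _ h)))
  refine (abs_add_le _ _).trans (add_le_add ?_ (T08_mul (hF.b3 _ h h0)))
  exact (abs_add_le _ _).trans (add_le_add (T08_mul (hF.b1 _ h)) (T08_mul (hF.b2 _ h)))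

theorem T08_sqrt {x y : ℝ} (hy : 0 ≤ y) (h : x ≤ y ^ 2) : Real.sqrt x ≤ y :=
  (Real.sqrt_le_sqrt h).trans (Real.sqrt_sq hy).le

theorem T08_const : ∑ i ∈ Finset.univ, T08S i * Real.sqrt (T08n i) ≤ 680 := by
  rw [Fin.sum_univ_seven]
  change 10 * Real.sqrt 2 + 14 * Real.sqrt 46 + 35 * Real.sqrt 164
      + 1 / 2 * Real.sqrt (21 / 2) + 1 * Real.sqrt 242 + 2 * Real.sqrt (959 / 2)
      + 5 * Real.sqrt (287 / 2) ≤ 680
  have h1 : Real.sqrt 2 ≤ 1.42 := T08_sqrt (by norm_num) (by norm_num)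
  have h2 : Real.sqrt 46 ≤ 6.79 := T08_sqrt (by norm_num) (by norm_num)
  have h3 : Real.sqrt 164 ≤ 12.81 := T08_sqrt (by norm_num) (by norm_num)
  have h4 : Real.sqrt (21 / 2) ≤ 3.25 := T08_sqrt (by norm_num) (by norm_num)
  have h5 : Real.sqrt 242 ≤ 15.56 := T08_sqrt (by norm_num) (by norm_num)
  have h6 : Real.sqrt (959 / 2) ≤ 21.9 := T08_sqrt (by norm_num) (by norm_num)
  have h7 : Real.sqrt (287 / 2) ≤ 11.98 := T08_sqrt (by norm_num) (by norm_num)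
  linarith

theorem bessel_E (hF : C3b F F1 F2 F3 S0 10 14 35) (hH : C3b H H1 H2 H3 (1 / 2) 1 2 5)
    (s : Finset (ℤ × ℤ × ℤ)) :
    ∑ k ∈ s, ‖cf (EE F H) k.1 k.2.1 k.2.2‖ ^ 2 * (k.1 : ℝ) ^ 4 * (k.2.1 : ℝ) ^ 2 ≤ 680 ^ 2 := by
  have hm := (EE_meas hF hH).2.2.2
  obtain ⟨B, hB⟩ := EE_bdd hF hH
  have h1 := bessel (Φ := Eaab F1 F2 F3 H H1 H2 H3) hm (B := B) (hB.mono fun z hz => hz.2.2.2) s
  have h2 := l2_sum Finset.univ (Φ := fun z => Eaab F1 F2 F3 H H1 H2 H3 z.1 z.2.1 z.2.2)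
    (g := T08g) (S := T08S) (n := fun i => Real.sqrt (T08n i)) hm (fun i _ => T08_cont i)
    (fun i _ => T08_S_nonneg i) (fun i _ => Real.sqrt_nonneg _) (fun i _ => T08_bdd i)
    (fun i _ => T08_int i) (rho_mem_ae.mono fun z hz => T08_sum hF hH z hz.1 hz.2)
  have h3 : (∑ k ∈ s, ‖cf (Eaab F1 F2 F3 H H1 H2 H3) k.1 k.2.1 k.2.2‖ ^ 2) * (2 * Real.pi) ^ 3
      ≤ (∑ i ∈ Finset.univ, T08S i * Real.sqrt (T08n i)) ^ 2 * (2 * Real.pi) ^ 3 := h1.trans h2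
  have h4 := le_of_mul_le_mul_right h3 (by positivity)
  have h5 : 0 ≤ ∑ i ∈ Finset.univ, T08S i * Real.sqrt (T08n i) :=
    Finset.sum_nonneg fun i _ => mul_nonneg (T08_S_nonneg i) (Real.sqrt_nonneg _)
  have h6 : (∑ i ∈ Finset.univ, T08S i * Real.sqrt (T08n i)) ^ 2 ≤ 680 ^ 2 :=
    pow_le_pow_left₀ h5 T08_const 2
  refine le_trans (le_of_eq ?_) (h4.trans h6)
  refine Finset.sum_congr rfl fun k _ => ?_
  rw [cf_Eaab hF hH, cf_Eaa hF hH, cf_Ea hF hH]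
  simp only [norm_mul, Complex.norm_I, Complex.norm_intCast, mul_one, mul_pow, sq_abs]
  ring

end Pool.Agent.Lib.MP_230119_an.EX
end

section

/-!
# Consequences of the weighted bound
-/

set_option autoImplicit false

open Set Filter Topology MeasureTheory

namespace Pool.Agent.Lib.MP_230119_an.EX

variable {F F1 F2 F3 H H1 H2 H3 : ℝ → ℝ} {S0 : ℝ}

theorem S05_rc (F H : ℝ → ℝ) : EE F H = RC (fun x y => F x + y * H x) := rfl

theorem S05_perm1 (Ψ : ℝ → ℝ → ℝ) (p q r : ℤ) : cf (RC Ψ) p q r = cf (RC Ψ) r p q := by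
  rw [cf_swap23, cf_swap12]

theorem S05_re_sq (z : ℂ) : z.re ^ 2 ≤ ‖z‖ ^ 2 := by
  rw [← sq_abs z.re]
  exact pow_le_pow_left₀ (abs_nonneg _) (Complex.abs_re_le_norm z) 2

/-- the modes `(2n,-2n,0)` and `(-2n,2n,0)`: `128 n⁶ |E^(0,2n,-2n)|² ≤ 680²` -/
theorem E_pairs (hF : C3b F F1 F2 F3 S0 10 14 35) (hH : C3b H H1 H2 H3 (1 / 2) 1 2 5)
    (n : ℕ) (hn : 1 ≤ n) : |(cf (EE F H) 0 (2 * n) (-(2 * n))).re| * n ^ 3 ≤ 61 := by
  have hn' : (1 : ℝ) ≤ n := by exact_mod_cast hn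
  have hne : ((2 * (n : ℤ), -(2 * (n : ℤ)), (0 : ℤ)) : ℤ × ℤ × ℤ) ≠
      (-(2 * (n : ℤ)), 2 * (n : ℤ), (0 : ℤ)) := by
    intro h
    have h1 : 2 * (n : ℤ) = -(2 * (n : ℤ)) := congrArg Prod.fst h
    omega
  have hb := bessel_E hF hH {(2 * (n : ℤ), -(2 * (n : ℤ)), (0 : ℤ)),
    (-(2 * (n : ℤ)), 2 * (n : ℤ), (0 : ℤ))}
  rw [Finset.sum_pair hne] at hb
  simp only at hb
  have h1 : cf (EE F H) (2 * (n : ℤ)) (-(2 * (n : ℤ))) 0 =
      cf (EE F H) 0 (2 * (n : ℤ)) (-(2 * (n : ℤ))) := by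
    rw [S05_rc, S05_perm1]
  have h2 : cf (EE F H) (-(2 * (n : ℤ))) (2 * (n : ℤ)) 0 =
      cf (EE F H) 0 (2 * (n : ℤ)) (-(2 * (n : ℤ))) := by
    rw [S05_rc, cf_swap12, S05_perm1]
  rw [h1, h2] at hb
  set z := cf (EE F H) 0 (2 * (n : ℤ)) (-(2 * (n : ℤ)))
  have h3 : ‖z‖ ^ 2 * ((2 * (n : ℤ) : ℤ) : ℝ) ^ 4 * ((-(2 * (n : ℤ)) : ℤ) : ℝ) ^ 2 +
      ‖z‖ ^ 2 * ((-(2 * (n : ℤ)) : ℤ) : ℝ) ^ 4 * ((2 * (n : ℤ) : ℤ) : ℝ) ^ 2 =
      128 * (‖z‖ * (n : ℝ) ^ 3) ^ 2 := by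
    push_cast
    ring
  rw [h3] at hb
  have h4 : |z.re| * (n : ℝ) ^ 3 ≤ ‖z‖ * (n : ℝ) ^ 3 :=
    mul_le_mul_of_nonneg_right (Complex.abs_re_le_norm z) (by positivity)
  have h5 : 0 ≤ ‖z‖ * (n : ℝ) ^ 3 := by positivity
  have h6 : ‖z‖ * (n : ℝ) ^ 3 ≤ 61 := by
    by_contra hc
    have h7 : 61 < ‖z‖ * (n : ℝ) ^ 3 := not_le.mp hc
    nlinarith
  exact h4.trans h6

/-- the modes `±(2(a+b), -2a, -2b)`: `∑ |E^|² 128 (a+b)⁴ a² ≤ 680²`, symmetrise in `a`, `b`,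
`64 (a+b)⁴ (a²+b²) ≥ 2048 a³ b³`. -/
theorem E_triples (hF : C3b F F1 F2 F3 S0 10 14 35) (hH : C3b H H1 H2 H3 (1 / 2) 1 2 5)
    (N : ℕ) : ∑ a ∈ Finset.Icc 1 N, ∑ b ∈ Finset.Icc 1 N,
      ((cf (EE F H) (2 * (a : ℤ)) (2 * (b : ℤ)) (-(2 * a) - 2 * b)).re) ^ 2 * ((a : ℝ) ^ 3 * (b : ℝ) ^ 3)
        ≤ (151 / 10) ^ 2 := by
  classical
  obtain ⟨T, hT⟩ : ∃ T : ℕ → ℕ → ℂ, ∀ a b : ℕ,
      T a b = cf (EE F H) (2 * (a : ℤ)) (2 * (b : ℤ)) (-(2 * a) - 2 * b) := ⟨_, fun _ _ => rfl⟩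
  have hsymm : ∀ a b : ℕ, T a b = T b a := by
    intro a b
    rw [hT, hT, S05_rc, cf_swap12]
    congr 1
    ring
  have hT1 : ∀ a b : ℕ, cf (EE F H) (2 * ((a : ℤ) + b)) (-(2 * (a : ℤ))) (-(2 * (b : ℤ))) =
      T a b := by
    intro a b
    rw [hT, S05_rc, ← cf_neg]
    have h1 : - -(2 * (a : ℤ)) = 2 * (a : ℤ) := by ring
    have h2 : - -(2 * (b : ℤ)) = 2 * (b : ℤ) := by ring
    have h3 : -(2 * ((a : ℤ) + b)) = -(2 * (a : ℤ)) - 2 * b := by ring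
    rw [h1, h2, h3, S05_perm1, S05_perm1]
  have hT2 : ∀ a b : ℕ, cf (EE F H) (-(2 * ((a : ℤ) + b))) (2 * (a : ℤ)) (2 * (b : ℤ)) =
      T a b := by
    intro a b
    rw [← hT1, S05_rc, ← cf_neg]
    congr 1
    ring
  set P : Finset (ℕ × ℕ) := Finset.Icc 1 N ×ˢ Finset.Icc 1 N with hP
  obtain ⟨f1, hf1⟩ : ∃ f1 : ℕ × ℕ → ℤ × ℤ × ℤ, ∀ x, f1 x =
      (2 * ((x.1 : ℤ) + x.2), -(2 * (x.1 : ℤ)), -(2 * (x.2 : ℤ))) := ⟨_, fun _ => rfl⟩
  obtain ⟨f2, hf2⟩ : ∃ f2 : ℕ × ℕ → ℤ × ℤ × ℤ, ∀ x, f2 x =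
      (-(2 * ((x.1 : ℤ) + x.2)), 2 * (x.1 : ℤ), 2 * (x.2 : ℤ)) := ⟨_, fun _ => rfl⟩
  have hi1 : Set.InjOn f1 P := by
    intro x _ y _ h
    rw [hf1, hf1] at h
    have h1 : -(2 * (x.1 : ℤ)) = -(2 * (y.1 : ℤ)) := congrArg (fun z => z.2.1) h
    have h2 : -(2 * (x.2 : ℤ)) = -(2 * (y.2 : ℤ)) := congrArg (fun z => z.2.2) h
    ext
    · omega
    · omega
  have hi2 : Set.InjOn f2 P := by
    intro x _ y _ h
    rw [hf2, hf2] at h
    have h1 : 2 * (x.1 : ℤ) = 2 * (y.1 : ℤ) := congrArg (fun z => z.2.1) h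
    have h2 : 2 * (x.2 : ℤ) = 2 * (y.2 : ℤ) := congrArg (fun z => z.2.2) h
    ext
    · omega
    · omega
  have hdisj : Disjoint (P.image f1) (P.image f2) := by
    rw [Finset.disjoint_left]
    intro z hz1 hz2
    obtain ⟨x, hx, hxz⟩ := Finset.mem_image.mp hz1
    obtain ⟨y, hy, hyz⟩ := Finset.mem_image.mp hz2
    rw [hP, Finset.mem_product, Finset.mem_Icc, Finset.mem_Icc] at hx hy
    rw [hf1] at hxz
    rw [hf2] at hyz
    have h1 : 2 * ((x.1 : ℤ) + x.2) = -(2 * ((y.1 : ℤ) + y.2)) :=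
      congrArg Prod.fst (hxz.trans hyz.symm)
    omega
  have hb := bessel_E hF hH (P.image f1 ∪ P.image f2)
  rw [Finset.sum_union hdisj, Finset.sum_image hi1, Finset.sum_image hi2,
    ← Finset.sum_add_distrib] at hb
  have hb2 : ∑ x ∈ P, 128 * (‖T x.1 x.2‖ ^ 2 * (((x.1 : ℝ) + x.2) ^ 4 * (x.1 : ℝ) ^ 2)) ≤
      680 ^ 2 := by
    refine le_trans (le_of_eq ?_) hb
    refine Finset.sum_congr rfl fun x _ => ?_
    rw [hf1, hf2]
    simp only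
    rw [hT1, hT2]
    push_cast
    ring
  rw [← Finset.mul_sum] at hb2
  have hsw : ∑ x ∈ P, ‖T x.1 x.2‖ ^ 2 * (((x.1 : ℝ) + x.2) ^ 4 * (x.1 : ℝ) ^ 2) =
      ∑ x ∈ P, ‖T x.1 x.2‖ ^ 2 * (((x.1 : ℝ) + x.2) ^ 4 * (x.2 : ℝ) ^ 2) := by
    rw [hP, Finset.sum_product, Finset.sum_product, Finset.sum_comm]
    refine Finset.sum_congr rfl fun a _ => Finset.sum_congr rfl fun b _ => ?_
    simp only
    rw [hsymm b a, add_comm (b : ℝ) a]
  have hlow : ∑ x ∈ P, 32 * (‖T x.1 x.2‖ ^ 2 * ((x.1 : ℝ) ^ 3 * (x.2 : ℝ) ^ 3)) ≤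
      2 * ∑ x ∈ P, ‖T x.1 x.2‖ ^ 2 * (((x.1 : ℝ) + x.2) ^ 4 * (x.1 : ℝ) ^ 2) := by
    rw [two_mul]
    nth_rewrite 2 [hsw]
    rw [← Finset.sum_add_distrib]
    refine Finset.sum_le_sum fun x _ => ?_
    have h1 : 0 ≤ ‖T x.1 x.2‖ ^ 2 := by positivity
    have hx1 : (0 : ℝ) ≤ x.1 := Nat.cast_nonneg _
    have hx2 : (0 : ℝ) ≤ x.2 := Nat.cast_nonneg _
    set a : ℝ := (x.1 : ℝ)
    set b : ℝ := (x.2 : ℝ)
    have h2 : 4 * (a * b) ≤ (a + b) ^ 2 := by nlinarith [sq_nonneg (a - b)]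
    have h3 : 2 * (a * b) ≤ a ^ 2 + b ^ 2 := by nlinarith [sq_nonneg (a - b)]
    have h4 : 0 ≤ a * b := mul_nonneg hx1 hx2
    have h5 : (4 * (a * b)) ^ 2 ≤ ((a + b) ^ 2) ^ 2 := pow_le_pow_left₀ (by positivity) h2 2
    have h6 : (4 * (a * b)) ^ 2 * (2 * (a * b)) ≤ ((a + b) ^ 2) ^ 2 * (a ^ 2 + b ^ 2) :=
      mul_le_mul h5 h3 (by positivity) (by positivity)
    have h7 : 32 * (a ^ 3 * b ^ 3) ≤ (a + b) ^ 4 * a ^ 2 + (a + b) ^ 4 * b ^ 2 := by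
      calc 32 * (a ^ 3 * b ^ 3) = (4 * (a * b)) ^ 2 * (2 * (a * b)) := by ring
        _ ≤ ((a + b) ^ 2) ^ 2 * (a ^ 2 + b ^ 2) := h6
        _ = (a + b) ^ 4 * a ^ 2 + (a + b) ^ 4 * b ^ 2 := by ring
    have h8 := mul_le_mul_of_nonneg_left h7 h1
    calc 32 * (‖T x.1 x.2‖ ^ 2 * (a ^ 3 * b ^ 3)) = ‖T x.1 x.2‖ ^ 2 * (32 * (a ^ 3 * b ^ 3)) := by ring
      _ ≤ ‖T x.1 x.2‖ ^ 2 * ((a + b) ^ 4 * a ^ 2 + (a + b) ^ 4 * b ^ 2) := h8
      _ = _ := by ring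
  rw [← Finset.mul_sum] at hlow
  have hre : ∑ a ∈ Finset.Icc 1 N, ∑ b ∈ Finset.Icc 1 N,
      ((cf (EE F H) (2 * (a : ℤ)) (2 * (b : ℤ)) (-(2 * a) - 2 * b)).re) ^ 2 *
        ((a : ℝ) ^ 3 * (b : ℝ) ^ 3) ≤
      ∑ x ∈ P, ‖T x.1 x.2‖ ^ 2 * ((x.1 : ℝ) ^ 3 * (x.2 : ℝ) ^ 3) := by
    rw [hP, Finset.sum_product]
    refine Finset.sum_le_sum fun a _ => Finset.sum_le_sum fun b _ => ?_
    rw [← hT]
    exact mul_le_mul_of_nonneg_right (S05_re_sq _) (by positivity)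
  have hfin : ∑ x ∈ P, ‖T x.1 x.2‖ ^ 2 * ((x.1 : ℝ) ^ 3 * (x.2 : ℝ) ^ 3) ≤ (151 / 10) ^ 2 := by
    nlinarith
  exact hre.trans hfin

end Pool.Agent.Lib.MP_230119_an.EX
end

section

/-!
# The second part of the error
-/

set_option autoImplicit false

open Set Filter Topology

namespace Pool.Agent.Lib.MP_230119_an.EX

theorem B05b_SC : (0 : ℝ) < (SC : ℝ) := by norm_num [SC]

theorem B05b_LI : (0 : ℝ) < (LI : ℝ) := by norm_num [LI]

/-- `evl` of the derivative of the primitive -/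
theorem B05b_evl {g : List ℤ × List ℤ}
    (h1 : eqL (derP (intP g)).1 (smulP LI (mulP [2, -1] g)).1 = true)
    (h2 : eqL (derP (intP g)).2 (smulP LI (mulP [2, -1] g)).2 = true) (x : ℝ) :
    evl (derP (intP g)) x = LI * ((2 - x) * evl g x) := by
  have e : derP (intP g) = smulP LI (mulP [2, -1] g) :=
    Prod.ext (eqL_sound _ _ h1) (eqL_sound _ _ h2)
  rw [e, evl_smulP, evl_mulP]
  have e2 : ev [2, -1] x = 2 - x := by
    simp only [ev]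
    push_cast
    ring
  rw [e2]

/-- the derivative of the second part of the error -/
theorem B05b_der {G u : ℝ → ℝ} (h : GF G u) {g : List ℤ × List ℤ}
    (h1 : eqL (derP (intP g)).1 (smulP LI (mulP [2, -1] g)).1 = true)
    (h2 : eqL (derP (intP g)).2 (smulP LI (mulP [2, -1] g)).2 = true)
    (h0 : hdL (intP g).1 = 0) {x : ℝ} (hx : x ∈ Ioo (-1 : ℝ) 8) (hx0 : x ≠ 0) :
    HasDerivAt (fun x => u x - 8 - evl (intP g) x / (SC * LI))
      ((2 - x) * (G x - evl g x / SC)) x := by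
  have h3 := hasDerivAt_evl (intP g) h0 hx0
  rw [B05b_evl h1 h2] at h3
  refine (((h.hu x hx hx0).sub_const 8).sub (h3.div_const ((SC : ℝ) * LI))).congr_deriv ?_
  have := B05b_SC.ne'
  have := B05b_LI.ne'
  field_simp

/-- the limit of the second part of the error -/
theorem B05b_lim {G u : ℝ → ℝ} (h : GF G u) {g : List ℤ × List ℤ}
    (h0 : hdL (intP g).1 = 0) (h00 : hdL (intP g).2 = 0) :
    Tendsto (fun x => u x - 8 - evl (intP g) x / (SC * LI)) (𝓝[≠] 0) (𝓝 0) := by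
  have h3 := tendsto_evl (intP g) h0
  rw [h00] at h3
  have h4 := (h.lim0.sub_const 8).sub (h3.div_const ((SC : ℝ) * LI))
  simpa using h4

/-- growth -/
theorem B05b_gr {f f' B B' : ℝ → ℝ} {a b : ℝ} (hab : a ≤ b)
    (hf : ∀ x ∈ Icc a b, HasDerivAt f (f' x) x) (hB : ∀ x, HasDerivAt B (B' x) x)
    (hbd : ∀ x ∈ Icc a b, |f' x| ≤ B' x) : |f b - f a| ≤ B b - B a := by
  have h1 := image_norm_le_of_norm_deriv_right_le_deriv_boundary (a := a) (b := b)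
    (f := fun x => f x - f a) (f' := f') (B := fun x => B x - B a) (B' := B')
    (fun x hx => ((hf x hx).continuousAt.sub continuousAt_const).continuousWithinAt)
    (fun x hx => ((hf x ⟨hx.1, hx.2.le⟩).sub_const (f a)).hasDerivWithinAt)
    (by simp) (fun x => (hB x).sub_const (B a))
    (fun x hx => by
      rw [Real.norm_eq_abs]
      exact hbd x ⟨hx.1, hx.2.le⟩)
    (right_mem_Icc.2 hab)
  simpa [Real.norm_eq_abs] using h1

/-- a function on `(0,8)` with limit `0` at `0` whose derivative is `≤ C |2-x|` -/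
theorem B05b_pos {f f' : ℝ → ℝ} {C : ℝ} (hC : 0 ≤ C)
    (hf : ∀ x ∈ Ioo (0 : ℝ) 8, HasDerivAt f ((2 - x) * f' x) x)
    (hl : Tendsto f (𝓝[>] 0) (𝓝 0)) (hb : ∀ x ∈ Ioo (0 : ℝ) 8, |f' x| ≤ C) :
    ∀ x ∈ Ioo (0 : ℝ) 8, |f x| ≤ 20 * C := by
  have hB1 : ∀ x : ℝ, HasDerivAt (fun x : ℝ => C * (2 * x - x ^ 2 / 2)) (C * (2 - x)) x := by
    intro x
    have h1 : HasDerivAt (fun x : ℝ => 2 * x - x ^ 2 / 2) (2 * 1 - (2 : ℕ) * x ^ (2 - 1) / 2) x :=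
      ((hasDerivAt_id x).const_mul 2).sub ((hasDerivAt_pow 2 x).div_const 2)
    refine (h1.const_mul C).congr_deriv ?_
    norm_num
  have hB2 : ∀ x : ℝ, HasDerivAt (fun x : ℝ => C * (x ^ 2 / 2 - 2 * x)) (C * (x - 2)) x := by
    intro x
    have h1 : HasDerivAt (fun x : ℝ => x ^ 2 / 2 - 2 * x) ((2 : ℕ) * x ^ (2 - 1) / 2 - 2 * 1) x :=
      ((hasDerivAt_pow 2 x).div_const 2).sub ((hasDerivAt_id x).const_mul 2)
    refine (h1.const_mul C).congr_deriv ?_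
    norm_num
  -- the part below `2`
  have s1 : ∀ x ∈ Ioc (0 : ℝ) 2, |f x| ≤ C * (2 * x - x ^ 2 / 2) := by
    intro x hx
    have s0 : ∀ δ ∈ Ioo (0 : ℝ) x, |f x - f δ| ≤ C * (2 * x - x ^ 2 / 2) - C * (2 * δ - δ ^ 2 / 2) := by
      intro δ hδ
      refine B05b_gr (f' := fun x => (2 - x) * f' x) hδ.2.le (fun y hy => hf y ⟨by linarith [hy.1, hδ.1], by linarith [hy.2, hx.2]⟩)
        hB1 (fun y hy => ?_)
      have hy2 : 0 ≤ 2 - y := by linarith [hy.2, hx.2]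
      have := hb y ⟨by linarith [hy.1, hδ.1], by linarith [hy.2, hx.2]⟩
      rw [abs_mul, abs_of_nonneg hy2, mul_comm C]
      exact mul_le_mul_of_nonneg_left this hy2
    have hlim1 : Tendsto (fun δ : ℝ => |f x - f δ|) (𝓝[>] 0) (𝓝 |f x - 0|) :=
      (tendsto_const_nhds.sub hl).abs
    rw [sub_zero] at hlim1
    refine le_of_tendsto hlim1 ?_
    filter_upwards [Ioo_mem_nhdsGT hx.1] with δ hδ
    refine (s0 δ hδ).trans ?_
    have : 0 ≤ C * (2 * δ - δ ^ 2 / 2) := by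
      refine mul_nonneg hC ?_
      nlinarith [hδ.1, hδ.2, hx.2]
    linarith
  intro x hx
  rcases le_or_gt x 2 with hx2 | hx2
  · refine (s1 x ⟨hx.1, hx2⟩).trans ?_
    have : 2 * x - x ^ 2 / 2 ≤ 20 := by nlinarith [hx.1]
    nlinarith
  · have h2 := s1 2 ⟨by norm_num, le_refl _⟩
    have h3 : |f x - f 2| ≤ C * (x ^ 2 / 2 - 2 * x) - C * ((2 : ℝ) ^ 2 / 2 - 2 * 2) := by
      refine B05b_gr (f' := fun x => (2 - x) * f' x) hx2.le (fun y hy => hf y ⟨by linarith [hy.1], by linarith [hy.2, hx.2]⟩)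
        hB2 (fun y hy => ?_)
      have hy2 : 2 - y ≤ 0 := by linarith [hy.1]
      have := hb y ⟨by linarith [hy.1], by linarith [hy.2, hx.2]⟩
      rw [abs_mul, abs_of_nonpos hy2, mul_comm C]
      have h5 := mul_le_mul_of_nonneg_left this (neg_nonneg.2 hy2)
      linarith
    have h4 : |f x| ≤ |f x - f 2| + |f 2| := by
      have := abs_add_le (f x - f 2) (f 2)
      simpa using this
    have h5 : x ^ 2 / 2 - 2 * x ≤ 16 := by nlinarith [hx.2, hx.1]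
    have h6 : C * (x ^ 2 / 2 - 2 * x) ≤ C * 16 := mul_le_mul_of_nonneg_left h5 hC
    nlinarith

/-- a function on `(-1,0)` with limit `0` at `0` whose derivative is `≤ C |2-x|` -/
theorem B05b_neg {f f' : ℝ → ℝ} {C : ℝ} (hC : 0 ≤ C)
    (hf : ∀ x ∈ Ioo (-1 : ℝ) 0, HasDerivAt f ((2 - x) * f' x) x)
    (hl : Tendsto f (𝓝[<] 0) (𝓝 0)) (hb : ∀ x ∈ Ioo (-1 : ℝ) 0, |f' x| ≤ C) :
    ∀ x ∈ Ioo (-1 : ℝ) 0, |f x| ≤ 3 * C := by
  have hB1 : ∀ x : ℝ, HasDerivAt (fun x : ℝ => C * (3 * x)) (C * 3) x := by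
    intro x
    have h1 : HasDerivAt (fun x : ℝ => 3 * x) (3 * 1) x := (hasDerivAt_id x).const_mul 3
    refine (h1.const_mul C).congr_deriv ?_
    norm_num
  intro x hx
  have s0 : ∀ δ ∈ Ioo x (0 : ℝ), |f δ - f x| ≤ C * (3 * δ) - C * (3 * x) := by
    intro δ hδ
    refine B05b_gr (f' := fun x => (2 - x) * f' x) hδ.1.le (fun y hy => hf y ⟨by linarith [hy.1, hx.1], by linarith [hy.2, hδ.2]⟩)
      hB1 (fun y hy => ?_)
    have hy2 : 0 ≤ 2 - y := by linarith [hy.2, hδ.2]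
    have hy3 : 2 - y ≤ 3 := by linarith [hy.1, hx.1]
    have := hb y ⟨by linarith [hy.1, hx.1], by linarith [hy.2, hδ.2]⟩
    rw [abs_mul, abs_of_nonneg hy2, mul_comm C]
    exact mul_le_mul hy3 this (abs_nonneg _) (by norm_num)
  have hlim1 : Tendsto (fun δ : ℝ => |f δ - f x|) (𝓝[<] 0) (𝓝 |0 - f x|) :=
    (hl.sub tendsto_const_nhds).abs
  rw [zero_sub, abs_neg] at hlim1
  refine le_of_tendsto hlim1 ?_
  filter_upwards [Ioo_mem_nhdsLT hx.2] with δ hδ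
  refine (s0 δ hδ).trans ?_
  have h5 : C * (3 * δ) - C * (3 * x) = C * (3 * (δ - x)) := by ring
  rw [h5]
  have h6 : 3 * (δ - x) ≤ 3 := by linarith [hδ.2, hx.1]
  linarith [mul_le_mul_of_nonneg_left h6 hC]

/-- the second part of the error on `(0,8)`: `ε = u - 8 - ∫ (2-t) g^+` -/
theorem eps_pos {G u : ℝ → ℝ} (h : GF G u) :
    (∀ x ∈ Ioo (0 : ℝ) 8, HasDerivAt (fun x => u x - 8 - evl (intP gp) x / (SC * LI))
      ((2 - x) * (G x - evl gp x / SC)) x) ∧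
    Tendsto (fun x => u x - 8 - evl (intP gp) x / (SC * LI)) (𝓝[>] 0) (𝓝 0) ∧
    (∀ x ∈ Ioo (0 : ℝ) 8, |u x - 8 - evl (intP gp) x / (SC * LI)| ≤ 20 * (Cp 0 / SC)) := by
  obtain ⟨c1, c2, -, -, c5, c6, -, -, -, -, -, -, -, -⟩ := int_cert
  have hd : ∀ x ∈ Ioo (0 : ℝ) 8, HasDerivAt (fun x => u x - 8 - evl (intP gp) x / (SC * LI))
      ((2 - x) * (G x - evl gp x / SC)) x := fun x hx =>
    B05b_der h c1 c2 c5 ⟨by linarith [hx.1], hx.2⟩ hx.1.ne'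
  have hl : Tendsto (fun x => u x - 8 - evl (intP gp) x / (SC * LI)) (𝓝[>] 0) (𝓝 0) :=
    (B05b_lim h c5 c6).mono_left (nhdsWithin_mono _ (fun x hx => ne_of_gt hx))
  refine ⟨hd, hl, ?_⟩
  obtain ⟨v, hv0, -, hvb⟩ := e2_pos h
  refine B05b_pos ?_ hd hl (fun x hx => ?_)
  · have : (0 : ℝ) ≤ (Cp 0 : ℝ) := by norm_num [Cp]
    exact div_nonneg this B05b_SC.le
  · have := hvb 0 (by norm_num) x hx
    rw [pow_zero, mul_one, hv0] at this
    exact this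

theorem eps_neg {G u : ℝ → ℝ} (h : GF G u) :
    (∀ x ∈ Ioo (-1 : ℝ) 0, HasDerivAt (fun x => u x - 8 - evl (intP gm) x / (SC * LI))
      ((2 - x) * (G x - evl gm x / SC)) x) ∧
    Tendsto (fun x => u x - 8 - evl (intP gm) x / (SC * LI)) (𝓝[<] 0) (𝓝 0) ∧
    (∀ x ∈ Ioo (-1 : ℝ) 0, |u x - 8 - evl (intP gm) x / (SC * LI)| ≤ 3 * (Cm 0 / SC)) := by
  obtain ⟨-, -, c3, c4, -, -, c7, c8, -, -, -, -, -, -⟩ := int_cert
  have hd : ∀ x ∈ Ioo (-1 : ℝ) 0, HasDerivAt (fun x => u x - 8 - evl (intP gm) x / (SC * LI))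
      ((2 - x) * (G x - evl gm x / SC)) x := fun x hx =>
    B05b_der h c3 c4 c7 ⟨hx.1, by linarith [hx.2]⟩ hx.2.ne
  have hl : Tendsto (fun x => u x - 8 - evl (intP gm) x / (SC * LI)) (𝓝[<] 0) (𝓝 0) :=
    (B05b_lim h c7 c8).mono_left (nhdsWithin_mono _ (fun x hx => ne_of_lt hx))
  refine ⟨hd, hl, ?_⟩
  obtain ⟨v, hv0, -, hvb⟩ := e2_neg h
  refine B05b_neg ?_ hd hl (fun x hx => ?_)
  · have : (0 : ℝ) ≤ (Cm 0 : ℝ) := by norm_num [Cm]
    exact div_nonneg this B05b_SC.le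
  · have := hvb 0 (by norm_num) x hx
    rw [hv0] at this
    exact this

end Pool.Agent.Lib.MP_230119_an.EX
end
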