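import Pool.Agent.Lib.MP_230119_an.Mg.G001

section

/-!
# Certificates (part 4)
-/

set_option autoImplicit false
set_option maxRecDepth 100000

namespace Pool.Agent.Lib.MP_230119_an.EX

/-- F2 -/
def d_fp21 : List ℤ × List ℤ := Fp2 1
/-- bound -/
def m_fp21 : List ℤ := [6 * SC / 10]

theorem z_fp21 : chkPre 10 18 10 d_fp21.1 d_fp21.2 m_fp21 = true := by decide +kernel
theorem s_fp21_0 : chkSeg 10 18 10 0 d_fp21.1 d_fp21.2 m_fp21 = true := by decide +kernel
theorem s_fp21_1 : chkSeg 10 18 10 1 d_fp21.1 d_fp21.2 m_fp21 = true := by decide +kernel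
theorem s_fp21_2 : chkSeg 10 18 10 2 d_fp21.1 d_fp21.2 m_fp21 = true := by decide +kernel
theorem s_fp21_3 : chkSeg 10 18 10 3 d_fp21.1 d_fp21.2 m_fp21 = true := by decide +kernel
theorem s_fp21_4 : chkSeg 10 18 10 4 d_fp21.1 d_fp21.2 m_fp21 = true := by decide +kernel
theorem s_fp21_5 : chkSeg 10 18 10 5 d_fp21.1 d_fp21.2 m_fp21 = true := by decide +kernel
theorem s_fp21_6 : chkSeg 10 18 10 6 d_fp21.1 d_fp21.2 m_fp21 = true := by decide +kernel
theorem s_fp21_7 : chkSeg 10 18 10 7 d_fp21.1 d_fp21.2 m_fp21 = true := by decide +kernel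
theorem s_fp21_8 : chkSeg 10 18 10 8 d_fp21.1 d_fp21.2 m_fp21 = true := by decide +kernel
theorem s_fp21_9 : chkSeg 10 18 10 9 d_fp21.1 d_fp21.2 m_fp21 = true := by decide +kernel
theorem s_fp21_10 : chkSeg 10 18 10 10 d_fp21.1 d_fp21.2 m_fp21 = true := by decide +kernel
theorem s_fp21_11 : chkSeg 10 18 10 11 d_fp21.1 d_fp21.2 m_fp21 = true := by decide +kernel
theorem s_fp21_12 : chkSeg 10 18 10 12 d_fp21.1 d_fp21.2 m_fp21 = true := by decide +kernel

theorem c_fp21 : chkAll 10 18 10 13 d_fp21.1 d_fp21.2 m_fp21 = true := by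
  refine chkAll_of _ _ _ _ _ _ _ z_fp21 ?_
  intro i hi
  interval_cases i
  · exact s_fp21_0
  · exact s_fp21_1
  · exact s_fp21_2
  · exact s_fp21_3
  · exact s_fp21_4
  · exact s_fp21_5
  · exact s_fp21_6
  · exact s_fp21_7
  · exact s_fp21_8
  · exact s_fp21_9
  · exact s_fp21_10
  · exact s_fp21_11
  · exact s_fp21_12

/-- F2 -/
def d_fp22 : List ℤ × List ℤ := Fp2 2
/-- bound -/
def m_fp22 : List ℤ := [14 * SC / 10]

theorem z_fp22 : chkPre 10 18 10 d_fp22.1 d_fp22.2 m_fp22 = true := by decide +kernel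
theorem s_fp22_0 : chkSeg 10 18 10 0 d_fp22.1 d_fp22.2 m_fp22 = true := by decide +kernel
theorem s_fp22_1 : chkSeg 10 18 10 1 d_fp22.1 d_fp22.2 m_fp22 = true := by decide +kernel
theorem s_fp22_2 : chkSeg 10 18 10 2 d_fp22.1 d_fp22.2 m_fp22 = true := by decide +kernel
theorem s_fp22_3 : chkSeg 10 18 10 3 d_fp22.1 d_fp22.2 m_fp22 = true := by decide +kernel
theorem s_fp22_4 : chkSeg 10 18 10 4 d_fp22.1 d_fp22.2 m_fp22 = true := by decide +kernel
theorem s_fp22_5 : chkSeg 10 18 10 5 d_fp22.1 d_fp22.2 m_fp22 = true := by decide +kernel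
theorem s_fp22_6 : chkSeg 10 18 10 6 d_fp22.1 d_fp22.2 m_fp22 = true := by decide +kernel
theorem s_fp22_7 : chkSeg 10 18 10 7 d_fp22.1 d_fp22.2 m_fp22 = true := by decide +kernel
theorem s_fp22_8 : chkSeg 10 18 10 8 d_fp22.1 d_fp22.2 m_fp22 = true := by decide +kernel
theorem s_fp22_9 : chkSeg 10 18 10 9 d_fp22.1 d_fp22.2 m_fp22 = true := by decide +kernel
theorem s_fp22_10 : chkSeg 10 18 10 10 d_fp22.1 d_fp22.2 m_fp22 = true := by decide +kernel
theorem s_fp22_11 : chkSeg 10 18 10 11 d_fp22.1 d_fp22.2 m_fp22 = true := by decide +kernel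
theorem s_fp22_12 : chkSeg 10 18 10 12 d_fp22.1 d_fp22.2 m_fp22 = true := by decide +kernel

theorem c_fp22 : chkAll 10 18 10 13 d_fp22.1 d_fp22.2 m_fp22 = true := by
  refine chkAll_of _ _ _ _ _ _ _ z_fp22 ?_
  intro i hi
  interval_cases i
  · exact s_fp22_0
  · exact s_fp22_1
  · exact s_fp22_2
  · exact s_fp22_3
  · exact s_fp22_4
  · exact s_fp22_5
  · exact s_fp22_6
  · exact s_fp22_7
  · exact s_fp22_8
  · exact s_fp22_9
  · exact s_fp22_10
  · exact s_fp22_11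
  · exact s_fp22_12

/-- F2 -/
def d_fp23 : List ℤ × List ℤ := Fp2 3
/-- bound -/
def m_fp23 : List ℤ := [42 * SC / 10]

theorem z_fp23 : chkPre 10 18 10 d_fp23.1 d_fp23.2 m_fp23 = true := by decide +kernel
theorem s_fp23_0 : chkSeg 10 18 10 0 d_fp23.1 d_fp23.2 m_fp23 = true := by decide +kernel
theorem s_fp23_1 : chkSeg 10 18 10 1 d_fp23.1 d_fp23.2 m_fp23 = true := by decide +kernel
theorem s_fp23_2 : chkSeg 10 18 10 2 d_fp23.1 d_fp23.2 m_fp23 = true := by decide +kernel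
theorem s_fp23_3 : chkSeg 10 18 10 3 d_fp23.1 d_fp23.2 m_fp23 = true := by decide +kernel
theorem s_fp23_4 : chkSeg 10 18 10 4 d_fp23.1 d_fp23.2 m_fp23 = true := by decide +kernel
theorem s_fp23_5 : chkSeg 10 18 10 5 d_fp23.1 d_fp23.2 m_fp23 = true := by decide +kernel
theorem s_fp23_6 : chkSeg 10 18 10 6 d_fp23.1 d_fp23.2 m_fp23 = true := by decide +kernel
theorem s_fp23_7 : chkSeg 10 18 10 7 d_fp23.1 d_fp23.2 m_fp23 = true := by decide +kernel
theorem s_fp23_8 : chkSeg 10 18 10 8 d_fp23.1 d_fp23.2 m_fp23 = true := by decide +kernel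
theorem s_fp23_9 : chkSeg 10 18 10 9 d_fp23.1 d_fp23.2 m_fp23 = true := by decide +kernel
theorem s_fp23_10 : chkSeg 10 18 10 10 d_fp23.1 d_fp23.2 m_fp23 = true := by decide +kernel
theorem s_fp23_11 : chkSeg 10 18 10 11 d_fp23.1 d_fp23.2 m_fp23 = true := by decide +kernel
theorem s_fp23_12 : chkSeg 10 18 10 12 d_fp23.1 d_fp23.2 m_fp23 = true := by decide +kernel

theorem c_fp23 : chkAll 10 18 10 13 d_fp23.1 d_fp23.2 m_fp23 = true := by
  refine chkAll_of _ _ _ _ _ _ _ z_fp23 ?_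
  intro i hi
  interval_cases i
  · exact s_fp23_0
  · exact s_fp23_1
  · exact s_fp23_2
  · exact s_fp23_3
  · exact s_fp23_4
  · exact s_fp23_5
  · exact s_fp23_6
  · exact s_fp23_7
  · exact s_fp23_8
  · exact s_fp23_9
  · exact s_fp23_10
  · exact s_fp23_11
  · exact s_fp23_12

end Pool.Agent.Lib.MP_230119_an.EX
end

section

/-!
# Certificates (part 2)
-/

set_option autoImplicit false
set_option maxRecDepth 100000

namespace Pool.Agent.Lib.MP_230119_an.EX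

/-- F1 -/
def d_fp11 : List ℤ × List ℤ := Fp1 1
/-- bound -/
def m_fp11 : List ℤ := [8 * (SC * LI)]

theorem z_fp11 : chkPre 10 18 10 d_fp11.1 d_fp11.2 m_fp11 = true := by decide +kernel
theorem s_fp11_0 : chkSeg 10 18 10 0 d_fp11.1 d_fp11.2 m_fp11 = true := by decide +kernel
theorem s_fp11_1 : chkSeg 10 18 10 1 d_fp11.1 d_fp11.2 m_fp11 = true := by decide +kernel
theorem s_fp11_2 : chkSeg 10 18 10 2 d_fp11.1 d_fp11.2 m_fp11 = true := by decide +kernel
theorem s_fp11_3 : chkSeg 10 18 10 3 d_fp11.1 d_fp11.2 m_fp11 = true := by decide +kernel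
theorem s_fp11_4 : chkSeg 10 18 10 4 d_fp11.1 d_fp11.2 m_fp11 = true := by decide +kernel
theorem s_fp11_5 : chkSeg 10 18 10 5 d_fp11.1 d_fp11.2 m_fp11 = true := by decide +kernel
theorem s_fp11_6 : chkSeg 10 18 10 6 d_fp11.1 d_fp11.2 m_fp11 = true := by decide +kernel
theorem s_fp11_7 : chkSeg 10 18 10 7 d_fp11.1 d_fp11.2 m_fp11 = true := by decide +kernel
theorem s_fp11_8 : chkSeg 10 18 10 8 d_fp11.1 d_fp11.2 m_fp11 = true := by decide +kernel
theorem s_fp11_9 : chkSeg 10 18 10 9 d_fp11.1 d_fp11.2 m_fp11 = true := by decide +kernel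
theorem s_fp11_10 : chkSeg 10 18 10 10 d_fp11.1 d_fp11.2 m_fp11 = true := by decide +kernel
theorem s_fp11_11 : chkSeg 10 18 10 11 d_fp11.1 d_fp11.2 m_fp11 = true := by decide +kernel
theorem s_fp11_12 : chkSeg 10 18 10 12 d_fp11.1 d_fp11.2 m_fp11 = true := by decide +kernel

theorem c_fp11 : chkAll 10 18 10 13 d_fp11.1 d_fp11.2 m_fp11 = true := by
  refine chkAll_of _ _ _ _ _ _ _ z_fp11 ?_
  intro i hi
  interval_cases i
  · exact s_fp11_0
  · exact s_fp11_1
  · exact s_fp11_2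
  · exact s_fp11_3
  · exact s_fp11_4
  · exact s_fp11_5
  · exact s_fp11_6
  · exact s_fp11_7
  · exact s_fp11_8
  · exact s_fp11_9
  · exact s_fp11_10
  · exact s_fp11_11
  · exact s_fp11_12

/-- F1 -/
def d_fp12 : List ℤ × List ℤ := Fp1 2
/-- bound -/
def m_fp12 : List ℤ := [12 * (SC * LI)]

theorem z_fp12 : chkPre 10 18 10 d_fp12.1 d_fp12.2 m_fp12 = true := by decide +kernel
theorem s_fp12_0 : chkSeg 10 18 10 0 d_fp12.1 d_fp12.2 m_fp12 = true := by decide +kernel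
theorem s_fp12_1 : chkSeg 10 18 10 1 d_fp12.1 d_fp12.2 m_fp12 = true := by decide +kernel
theorem s_fp12_2 : chkSeg 10 18 10 2 d_fp12.1 d_fp12.2 m_fp12 = true := by decide +kernel
theorem s_fp12_3 : chkSeg 10 18 10 3 d_fp12.1 d_fp12.2 m_fp12 = true := by decide +kernel
theorem s_fp12_4 : chkSeg 10 18 10 4 d_fp12.1 d_fp12.2 m_fp12 = true := by decide +kernel
theorem s_fp12_5 : chkSeg 10 18 10 5 d_fp12.1 d_fp12.2 m_fp12 = true := by decide +kernel
theorem s_fp12_6 : chkSeg 10 18 10 6 d_fp12.1 d_fp12.2 m_fp12 = true := by decide +kernel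
theorem s_fp12_7 : chkSeg 10 18 10 7 d_fp12.1 d_fp12.2 m_fp12 = true := by decide +kernel
theorem s_fp12_8 : chkSeg 10 18 10 8 d_fp12.1 d_fp12.2 m_fp12 = true := by decide +kernel
theorem s_fp12_9 : chkSeg 10 18 10 9 d_fp12.1 d_fp12.2 m_fp12 = true := by decide +kernel
theorem s_fp12_10 : chkSeg 10 18 10 10 d_fp12.1 d_fp12.2 m_fp12 = true := by decide +kernel
theorem s_fp12_11 : chkSeg 10 18 10 11 d_fp12.1 d_fp12.2 m_fp12 = true := by decide +kernel
theorem s_fp12_12 : chkSeg 10 18 10 12 d_fp12.1 d_fp12.2 m_fp12 = true := by decide +kernel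

theorem c_fp12 : chkAll 10 18 10 13 d_fp12.1 d_fp12.2 m_fp12 = true := by
  refine chkAll_of _ _ _ _ _ _ _ z_fp12 ?_
  intro i hi
  interval_cases i
  · exact s_fp12_0
  · exact s_fp12_1
  · exact s_fp12_2
  · exact s_fp12_3
  · exact s_fp12_4
  · exact s_fp12_5
  · exact s_fp12_6
  · exact s_fp12_7
  · exact s_fp12_8
  · exact s_fp12_9
  · exact s_fp12_10
  · exact s_fp12_11
  · exact s_fp12_12

end Pool.Agent.Lib.MP_230119_an.EX
end
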