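import Pool.Agent.Lib.MP_230119_an.LA3
import Pool.Agent.Lib.MP_230119_an.SGDef2

section

/-!
# The moments of `G`
-/

set_option autoImplicit false

open MeasureTheory Set Filter Topology

namespace Pool.Agent.Lib.MP_230119_an.LA

theorem integrable_Gf : IntegrableOn Gf (Icc (-1 : ℝ) 8) := by
  obtain ⟨C, _, hC⟩ := Gf_log_bound
  have h1 : IntegrableOn (fun x => C * (1 + |Real.log x|)) (Icc (-1 : ℝ) 8) := by
    have h2 : IntervalIntegrable Real.log volume (-1) 8 := intervalIntegral.intervalIntegrable_log'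
    rw [intervalIntegrable_iff_integrableOn_Icc_of_le (by norm_num)] at h2
    have h3 : IntegrableOn (fun _ : ℝ => (1 : ℝ)) (Icc (-1 : ℝ) 8) := by
      exact integrableOn_const (by simp)
    exact (h3.add h2.abs).const_mul C
  refine Integrable.mono' h1 measurable_Gf.aestronglyMeasurable ?_
  have h0 : ∀ᵐ x : ℝ, x ≠ 0 := by
    rw [ae_iff]
    simp
  filter_upwards [ae_restrict_mem measurableSet_Icc, ae_restrict_of_ae h0] with x hx hx0
  exact hC x hx hx0

theorem integrable_uf : IntegrableOn uf (Icc (-1 : ℝ) 8) := by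
  obtain ⟨C, hC⟩ := uf_bound
  refine Measure.integrableOn_of_bounded (M := C) (by simp) measurable_uf.aestronglyMeasurable ?_
  filter_upwards [ae_restrict_mem measurableSet_Icc] with x hx
  exact hC x hx

theorem hasDerivAt_Gf' {x : ℝ} (hx : x ∈ Ioo (-1 : ℝ) 8) (hx0 : x ≠ 0) :
    HasDerivAt Gf (uf x / pL x) x := by
  have h := hasDerivAt_Gf hx hx0
  have hp : pL x ≠ 0 := by
    unfold pL
    have h1 : x + 1 ≠ 0 := by linarith [hx.1]
    have h2 : x - 8 ≠ 0 := by linarith [hx.2]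
    positivity
  refine h.congr_deriv ?_
  unfold uf
  field_simp

theorem hasDerivAt_pL (x : ℝ) : HasDerivAt pL (3 * x ^ 2 - 14 * x - 8) x := by
  unfold pL
  have h := (((hasDerivAt_id x).mul ((hasDerivAt_id x).add_const 1)).mul
    ((hasDerivAt_id x).sub_const 8))
  refine h.congr_deriv ?_
  simp only [id, Pi.mul_apply]
  ring

theorem pL_ne {x : ℝ} (hx : x ∈ Ioo (-1 : ℝ) 8) (hx0 : x ≠ 0) : pL x ≠ 0 := by
  unfold pL
  have h1 : x + 1 ≠ 0 := by linarith [hx.1]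
  have h2 : x - 8 ≠ 0 := by linarith [hx.2]
  positivity

/-- `p G` tends to `0` at the zeros of `p` -/
theorem pG_lim {s : Set ℝ} {x0 : ℝ} (hx0 : pL x0 = 0)
    (hs : ∀ᶠ x in 𝓝[s] x0, -1 ≤ x ∧ x ≤ 9 ∧ 1 / 2 ≤ |x|) :
    Tendsto (fun x => pL x * Gf x) (𝓝[s] x0) (𝓝 0) := by
  obtain ⟨C, hC⟩ := Gf_bound (δ := 1 / 2) (by norm_num) (by norm_num)
  have h1 : Tendsto (fun x => |pL x| * C) (𝓝[s] x0) (𝓝 (|pL x0| * C)) := by
    have : Continuous fun x => |pL x| * C := by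
      have := continuous_pL
      fun_prop
    exact this.continuousAt.continuousWithinAt
  rw [hx0, abs_zero, zero_mul] at h1
  refine squeeze_zero_norm' ?_ h1
  filter_upwards [hs] with x hx
  rw [norm_mul, Real.norm_eq_abs, Real.norm_eq_abs]
  have := (hC x hx.1 hx.2.1 hx.2.2).1
  gcongr

theorem ev_left : ∀ᶠ x : ℝ in 𝓝[>] (-1 : ℝ), -1 ≤ x ∧ x ≤ 9 ∧ 1 / 2 ≤ |x| := by
  have h1 : ∀ᶠ x : ℝ in 𝓝[>] (-1 : ℝ), x ∈ Ioo (-1 : ℝ) (-(1 / 2)) :=
    Ioo_mem_nhdsGT (by norm_num)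
  filter_upwards [h1] with x hx
  refine ⟨hx.1.le, by linarith [hx.2], ?_⟩
  rw [abs_of_neg (by linarith [hx.2])]
  linarith [hx.2]

theorem ev_right : ∀ᶠ x : ℝ in 𝓝[<] (8 : ℝ), -1 ≤ x ∧ x ≤ 9 ∧ 1 / 2 ≤ |x| := by
  have h1 : ∀ᶠ x : ℝ in 𝓝[<] (8 : ℝ), x ∈ Ioo (1 : ℝ) 8 := Ioo_mem_nhdsLT (by norm_num)
  filter_upwards [h1] with x hx
  refine ⟨by linarith [hx.1], by linarith [hx.2], ?_⟩
  rw [abs_of_pos (by linarith [hx.1])]
  linarith [hx.1]

theorem pG_zero : Tendsto (fun x => pL x * Gf x) (𝓝[≠] 0) (𝓝 0) := by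
  have h1 : Tendsto (fun x : ℝ => |(x + 1) * (x - 8)|) (𝓝[≠] 0) (𝓝 8) := by
    have h4 : Continuous fun x : ℝ => |(x + 1) * (x - 8)| := by fun_prop
    have := (h4.tendsto 0).mono_left (nhdsWithin_le_nhds (s := {0}ᶜ))
    have e : |((0 : ℝ) + 1) * (0 - 8)| = 8 := by norm_num
    rwa [e] at this
  have h2 := h1.mul absG_zero
  rw [mul_zero] at h2
  refine squeeze_zero_norm (fun x => ?_) h2
  unfold pL
  rw [norm_mul, Real.norm_of_nonneg (Gf_nonneg x), Real.norm_eq_abs, abs_mul, abs_mul, abs_mul]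
  apply le_of_eq
  ring

/-- integration of a derivative over `[-1,8]` with a jump at `0` -/
theorem int_jump {F f : ℝ → ℝ} {a m b : ℝ} (hd : ∀ x ∈ Ioo (-1 : ℝ) 8, x ≠ 0 → HasDerivAt F (f x) x)
    (hi : IntegrableOn f (Icc (-1 : ℝ) 8)) (ha : Tendsto F (𝓝[>] (-1)) (𝓝 a))
    (hm : Tendsto F (𝓝[≠] 0) (𝓝 m)) (hb : Tendsto F (𝓝[<] 8) (𝓝 b)) :
    ∫ x in Icc (-1 : ℝ) 8, f x = b - a := by
  have hI : IntervalIntegrable f volume (-1) 8 := by
    rw [intervalIntegrable_iff_integrableOn_Icc_of_le (by norm_num)]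
    exact hi
  have h1 : IntervalIntegrable f volume (-1) 0 := by
    rw [intervalIntegrable_iff_integrableOn_Icc_of_le (by norm_num)]
    exact hi.mono_set (Icc_subset_Icc_right (by norm_num))
  have h2 : IntervalIntegrable f volume 0 8 := by
    rw [intervalIntegrable_iff_integrableOn_Icc_of_le (by norm_num)]
    exact hi.mono_set (Icc_subset_Icc_left (by norm_num))
  rw [integral_Icc_eq_integral_Ioc, ← intervalIntegral.integral_of_le (by norm_num),
    ← intervalIntegral.integral_add_adjacent_intervals h1 h2]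
  have hl : Tendsto F (𝓝[<] 0) (𝓝 m) := hm.mono_left (nhdsWithin_mono _ fun x hx => ne_of_lt hx)
  have hr : Tendsto F (𝓝[>] 0) (𝓝 m) := hm.mono_left (nhdsWithin_mono _ fun x hx => ne_of_gt hx)
  rw [intervalIntegral.integral_eq_sub_of_hasDerivAt_of_tendsto (by norm_num)
    (fun x hx => hd x ⟨hx.1, by linarith [hx.2]⟩ (ne_of_lt hx.2)) h1 ha hl,
    intervalIntegral.integral_eq_sub_of_hasDerivAt_of_tendsto (by norm_num)
    (fun x hx => hd x ⟨by linarith [hx.1], hx.2⟩ (ne_of_gt hx.1)) h2 hr hb]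
  ring

section
variable {φ φ1 φ2 : ℝ → ℝ}

/-- first moment identity -/
theorem momG1 (hc : Continuous φ) (hc1 : Continuous φ1) (hc2 : Continuous φ2)
    (h1 : ∀ x, HasDerivAt φ (φ1 x) x) (h2 : ∀ x, HasDerivAt φ1 (φ2 x) x) :
    ∫ x in Icc (-1 : ℝ) 8, (pL x * φ2 x + (3 * x ^ 2 - 14 * x - 8) * φ1 x + (x - 2) * φ x) * Gf x =
      0 := by
  have hi : IntegrableOn (fun x => (pL x * φ2 x + (3 * x ^ 2 - 14 * x - 8) * φ1 x +
      (x - 2) * φ x) * Gf x) (Icc (-1 : ℝ) 8) := by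
    refine integrable_Gf.continuousOn_mul ?_ isCompact_Icc
    have := continuous_pL
    fun_prop
  have hlim : ∀ {s : Set ℝ} {x0 l : ℝ}, Tendsto (fun x => pL x * Gf x) (𝓝[s] x0) (𝓝 0) →
      Tendsto uf (𝓝[s] x0) (𝓝 l) →
      Tendsto (fun x => φ1 x * (pL x * Gf x) - φ x * uf x) (𝓝[s] x0) (𝓝 (φ1 x0 * 0 - φ x0 * l)) := by
    intro s x0 l g1 g2
    exact (((hc1.tendsto x0).mono_left nhdsWithin_le_nhds).mul g1).sub
      (((hc.tendsto x0).mono_left nhdsWithin_le_nhds).mul g2)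
  rw [int_jump (F := fun x => φ1 x * (pL x * Gf x) - φ x * uf x) (fun x hx hx0 => ?_) hi
    (hlim (pG_lim (by unfold pL; norm_num) ev_left) uf_lim_left) (hlim pG_zero uf_lim_zero)
    (hlim (pG_lim (by unfold pL; norm_num) ev_right) uf_lim_right)]
  · ring
  · have hG := hasDerivAt_Gf' hx hx0
    have hu := hasDerivAt_uf hx hx0
    have hp := hasDerivAt_pL x
    have hne := pL_ne hx hx0
    have h := ((h2 x).mul (hp.mul hG)).sub ((h1 x).mul hu)
    refine h.congr_deriv ?_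
    simp only [Pi.mul_apply]
    field_simp
    ring

/-- second moment identity -/
theorem momG2 (hc : Continuous φ) (hc1 : Continuous φ1) (h1 : ∀ x, HasDerivAt φ (φ1 x) x) :
    ∫ x in Icc (-1 : ℝ) 8, φ x * uf x =
      -∫ x in Icc (-1 : ℝ) 8, (pL x * φ1 x + (3 * x ^ 2 - 14 * x - 8) * φ x) * Gf x := by
  have hi1 : IntegrableOn (fun x => (pL x * φ1 x + (3 * x ^ 2 - 14 * x - 8) * φ x) * Gf x)
      (Icc (-1 : ℝ) 8) := by
    refine integrable_Gf.continuousOn_mul ?_ isCompact_Icc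
    have := continuous_pL
    fun_prop
  have hi2 : IntegrableOn (fun x => φ x * uf x) (Icc (-1 : ℝ) 8) :=
    integrable_uf.continuousOn_mul hc.continuousOn isCompact_Icc
  have hlim : ∀ {s : Set ℝ} {x0 : ℝ}, Tendsto (fun x => pL x * Gf x) (𝓝[s] x0) (𝓝 0) →
      Tendsto (fun x => φ x * (pL x * Gf x)) (𝓝[s] x0) (𝓝 (φ x0 * 0)) := by
    intro s x0 g1
    exact ((hc.tendsto x0).mono_left nhdsWithin_le_nhds).mul g1
  have h := int_jump (F := fun x => φ x * (pL x * Gf x)) (f := fun x => φ x * uf x +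
    (pL x * φ1 x + (3 * x ^ 2 - 14 * x - 8) * φ x) * Gf x) (fun x hx hx0 => ?_) (hi2.add hi1)
    (hlim (pG_lim (by unfold pL; norm_num) ev_left)) (hlim pG_zero)
    (hlim (pG_lim (by unfold pL; norm_num) ev_right))
  · rw [integral_add hi2 hi1] at h
    linarith
  · have hG := hasDerivAt_Gf' hx hx0
    have hp := hasDerivAt_pL x
    have hne := pL_ne hx hx0
    have h := ((h1 x).mul (hp.mul hG))
    refine h.congr_deriv ?_
    simp only [Pi.mul_apply]
    field_simp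
    ring

end

end Pool.Agent.Lib.MP_230119_an.LA
end

section

set_option autoImplicit false

open MeasureTheory Set Filter Topology
open scoped ENNReal

namespace Pool.Agent.Lib.MP_230119_an

theorem sg01_gw_eq {R : ℝ} (x : ℝ × ℝ) :
    gw R x = Real.exp (-(1 / (2 * R ^ 2)) * x.1 ^ 2) * Real.exp (-(1 / (2 * R ^ 2)) * x.2 ^ 2) := by
  unfold gw sq
  rw [← Real.exp_add]
  congr 1
  ring

theorem integrable_gw {R : ℝ} (hR : 0 < R) : Integrable (gw R) := by
  have hb : 0 < 1 / (2 * R ^ 2) := by positivity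
  have h := (integrable_exp_neg_mul_sq hb).mul_prod (integrable_exp_neg_mul_sq hb)
  refine h.congr (Eventually.of_forall fun x => ?_)
  exact (sg01_gw_eq x).symm

theorem gauss_ft {R : ℝ} (hR : 0 < R) (v : ℝ × ℝ) :
    ∫ x : ℝ × ℝ, (gw R x : ℂ) * ph x v = ((2 * Real.pi * gk R v : ℝ) : ℂ) := by
  set b : ℂ := ((1 / (2 * R ^ 2) : ℝ) : ℂ) with hbdef
  have hb0 : (0 : ℝ) < 1 / (2 * R ^ 2) := by positivity
  have hb : 0 < b.re := by rw [hbdef, Complex.ofReal_re]; exact hb0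
  have e1 : ∀ x : ℝ × ℝ, (gw R x : ℂ) * ph x v =
      (Complex.exp (Complex.I * ((-v.1 : ℝ) : ℂ) * x.1) * Complex.exp (-b * x.1 ^ 2)) *
      (Complex.exp (Complex.I * ((-v.2 : ℝ) : ℂ) * x.2) * Complex.exp (-b * x.2 ^ 2)) := by
    intro x
    rw [sg01_gw_eq]
    unfold ph dt
    push_cast
    rw [← Complex.exp_add, ← Complex.exp_add, ← Complex.exp_add, ← Complex.exp_add, ← Complex.exp_add]
    congr 1
    rw [hbdef]
    push_cast
    ring
  simp_rw [e1]
  have e2 := integral_prod_mul (μ := (volume : Measure ℝ)) (ν := (volume : Measure ℝ))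
    (fun x : ℝ => Complex.exp (Complex.I * ((-v.1 : ℝ) : ℂ) * x) * Complex.exp (-b * x ^ 2))
    (fun x : ℝ => Complex.exp (Complex.I * ((-v.2 : ℝ) : ℂ) * x) * Complex.exp (-b * x ^ 2))
  rw [← Measure.volume_eq_prod] at e2
  rw [e2, fourierIntegral_gaussian hb, fourierIntegral_gaussian hb]
  have e3 : ((Real.pi : ℂ) / b) ^ (1 / 2 : ℂ) * ((Real.pi : ℂ) / b) ^ (1 / 2 : ℂ) =
      ((2 * Real.pi * R ^ 2 : ℝ) : ℂ) := by
    have hne : (Real.pi : ℂ) / b ≠ 0 := by
      apply div_ne_zero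
      · exact_mod_cast Real.pi_ne_zero
      · intro h; rw [h] at hb; simp at hb
    rw [← Complex.cpow_add _ _ hne]
    have : (1 / 2 : ℂ) + 1 / 2 = 1 := by norm_num
    rw [this, Complex.cpow_one, hbdef]
    have hR0 : (R : ℂ) ≠ 0 := by exact_mod_cast hR.ne'
    push_cast
    field_simp
  calc _ = (((Real.pi : ℂ) / b) ^ (1 / 2 : ℂ) * ((Real.pi : ℂ) / b) ^ (1 / 2 : ℂ)) *
        (Complex.exp (-((-v.1 : ℝ) : ℂ) ^ 2 / (4 * b)) *
          Complex.exp (-((-v.2 : ℝ) : ℂ) ^ 2 / (4 * b))) := by ring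
    _ = _ := by
      rw [e3, ← Complex.exp_add]
      unfold gk sq
      push_cast
      rw [show -(-(v.1 : ℂ)) ^ 2 / (4 * b) + -(-(v.2 : ℂ)) ^ 2 / (4 * b) =
        -((R : ℂ) ^ 2 * ((v.1 : ℂ) ^ 2 + (v.2 : ℂ) ^ 2) / 2) by
          rw [hbdef]
          have hR0 : (R : ℂ) ≠ 0 := by exact_mod_cast hR.ne'
          push_cast
          field_simp
          ring]
      ring

theorem lintegral_gk {R : ℝ} (hR : 0 < R) :
    ∫⁻ v : ℝ × ℝ, ENNReal.ofReal (gk R v) = ENNReal.ofReal (2 * Real.pi) := by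
  have hb : 0 < R ^ 2 / 2 := by positivity
  have e1 : ∀ v : ℝ × ℝ, gk R v = (R ^ 2 * Real.exp (-(R ^ 2 / 2) * v.1 ^ 2)) *
      Real.exp (-(R ^ 2 / 2) * v.2 ^ 2) := by
    intro v
    unfold gk sq
    rw [mul_assoc, ← Real.exp_add]
    congr 2
    ring
  have hint : Integrable (gk R) := by
    have h := ((integrable_exp_neg_mul_sq hb).const_mul (R ^ 2)).mul_prod
      (integrable_exp_neg_mul_sq hb)
    refine h.congr (Eventually.of_forall fun x => ?_)
    exact (e1 x).symm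
  rw [← ofReal_integral_eq_lintegral_ofReal hint (Eventually.of_forall fun v => gk_nonneg R v)]
  congr 1
  simp_rw [e1]
  have e2 := integral_prod_mul (μ := (volume : Measure ℝ)) (ν := (volume : Measure ℝ))
    (fun x : ℝ => R ^ 2 * Real.exp (-(R ^ 2 / 2) * x ^ 2))
    (fun x : ℝ => Real.exp (-(R ^ 2 / 2) * x ^ 2))
  rw [← Measure.volume_eq_prod] at e2
  rw [e2, integral_const_mul, integral_gaussian]
  have e3 : √(Real.pi / (R ^ 2 / 2)) * √(Real.pi / (R ^ 2 / 2)) = Real.pi / (R ^ 2 / 2) :=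
    Real.mul_self_sqrt (by positivity)
  rw [mul_assoc, e3]
  field_simp

end Pool.Agent.Lib.MP_230119_an
end

section

set_option autoImplicit false

open MeasureTheory Set Filter Topology
open scoped ENNReal

namespace Pool.Agent.Lib.MP_230119_an

theorem gauss_bil {α β : Type*} [MeasurableSpace α] [MeasurableSpace β] {μ : Measure α}
    {ν : Measure β} [SFinite μ] [SFinite ν] {Φ : α → ℝ × ℝ} {Ψ : β → ℝ × ℝ}
    (hΦ : Measurable Φ) (hΨ : Measurable Ψ) {H : α → ℂ} {K : β → ℂ}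
    (hH : Integrable H μ) (hK : Integrable K ν) {R : ℝ} (hR : 0 < R) :
    ∫ x, tr μ Φ H x * (starRingEnd ℂ) (tr ν Ψ K x) * (gw R x : ℂ) =
      ((2 * Real.pi : ℝ) : ℂ) * ∫ p : α × β, H p.1 * (starRingEnd ℂ) (K p.2) *
        (gk R (Φ p.1 - Ψ p.2) : ℂ) ∂(μ.prod ν) := by
  have hK' : Integrable (fun y => (starRingEnd ℂ) (K y)) ν := by
    refine (integrable_norm_iff ?_).1 ?_
    · exact Complex.continuous_conj.comp_aestronglyMeasurable hK.aestronglyMeasurable
    · simpa using hK.norm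
  -- step 1
  have h1 : ∀ x, tr μ Φ H x * (starRingEnd ℂ) (tr ν Ψ K x) =
      ∫ p : α × β, H p.1 * (starRingEnd ℂ) (K p.2) * ph x (Φ p.1 - Ψ p.2) ∂(μ.prod ν) := by
    intro x
    have e1 : (starRingEnd ℂ) (tr ν Ψ K x) =
        ∫ y, (starRingEnd ℂ) (K y) * ph x (-(Ψ y)) ∂ν := by
      unfold tr
      rw [← integral_conj]
      refine integral_congr_ae (Eventually.of_forall fun y => ?_)
      simp only [map_mul, ph_neg_right]
    rw [e1]
    unfold tr
    rw [← integral_prod_mul]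
    refine integral_congr_ae (Eventually.of_forall fun p => ?_)
    simp only [sub_eq_add_neg, ph_add_right]
    ring
  -- step 2
  have hint : Integrable (Function.uncurry fun (x : ℝ × ℝ) (p : α × β) =>
      (gw R x : ℂ) * (H p.1 * (starRingEnd ℂ) (K p.2)) * ph x (Φ p.1 - Ψ p.2))
      (volume.prod (μ.prod ν)) := by
    have hg : Integrable (fun x : ℝ × ℝ => (gw R x : ℂ)) := (integrable_gw hR).ofReal
    have hHK : Integrable (fun p : α × β => H p.1 * (starRingEnd ℂ) (K p.2)) (μ.prod ν) :=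
      hH.mul_prod hK'
    have h2 : Integrable (fun z : (ℝ × ℝ) × (α × β) =>
        (gw R z.1 : ℂ) * (H z.2.1 * (starRingEnd ℂ) (K z.2.2))) (volume.prod (μ.prod ν)) :=
      hg.mul_prod hHK
    refine h2.mul_bdd (c := 1) ?_ (Eventually.of_forall fun y => (norm_ph _ _).le)
    have hm : Measurable fun z : (ℝ × ℝ) × (α × β) => (z.1, Φ z.2.1 - Ψ z.2.2) := by
      have a1 : Measurable fun z : (ℝ × ℝ) × (α × β) => Φ z.2.1 :=
        hΦ.comp (measurable_fst.comp measurable_snd)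
      have a2 : Measurable fun z : (ℝ × ℝ) × (α × β) => Ψ z.2.2 :=
        hΨ.comp (measurable_snd.comp measurable_snd)
      exact measurable_fst.prodMk (a1.sub a2)
    exact (continuous_ph.measurable.comp hm).aestronglyMeasurable
  calc ∫ x, tr μ Φ H x * (starRingEnd ℂ) (tr ν Ψ K x) * (gw R x : ℂ)
      = ∫ x, ∫ p : α × β, (gw R x : ℂ) * (H p.1 * (starRingEnd ℂ) (K p.2)) *
          ph x (Φ p.1 - Ψ p.2) ∂(μ.prod ν) := by
        refine integral_congr_ae (Eventually.of_forall fun x => ?_)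
        simp only
        rw [h1, mul_comm, ← integral_const_mul]
        refine integral_congr_ae (Eventually.of_forall fun p => ?_)
        simp only
        ring
    _ = ∫ p : α × β, (∫ x, (gw R x : ℂ) * (H p.1 * (starRingEnd ℂ) (K p.2)) *
          ph x (Φ p.1 - Ψ p.2)) ∂(μ.prod ν) := integral_integral_swap hint
    _ = _ := by
        rw [← integral_const_mul]
        refine integral_congr_ae (Eventually.of_forall fun p => ?_)
        simp only
        have e2 : ∫ x, (gw R x : ℂ) * (H p.1 * (starRingEnd ℂ) (K p.2)) *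
            ph x (Φ p.1 - Ψ p.2) = (H p.1 * (starRingEnd ℂ) (K p.2)) *
            ∫ x, (gw R x : ℂ) * ph x (Φ p.1 - Ψ p.2) := by
          rw [← integral_const_mul]
          refine integral_congr_ae (Eventually.of_forall fun x => ?_)
          simp only
          ring
        rw [e2, gauss_ft hR]
        push_cast
        ring

end Pool.Agent.Lib.MP_230119_an
end

section

set_option autoImplicit false

open MeasureTheory Set Filter Topology
open scoped ENNReal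

namespace Pool.Agent.Lib.MP_230119_an

/-- the cube of the circle -/
private noncomputable def sg11_m3 : Measure (Fin 3 → ℝ) := Measure.pi fun _ => mc

private instance : IsFiniteMeasure sg11_m3 := by unfold sg11_m3; infer_instance

private noncomputable def sg11_Ph (θ : Fin 3 → ℝ) : ℝ × ℝ := ∑ i, om (θ i)

private noncomputable def sg11_H (f : ℝ → ℂ) (θ : Fin 3 → ℝ) : ℂ := ∏ i, f (θ i)

private theorem sg11_Ph_cont : Continuous sg11_Ph := by
  unfold sg11_Ph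
  fun_prop

private theorem sg11_H_int {f : ℝ → ℂ} (hf : Integrable f mc) : Integrable (sg11_H f) sg11_m3 :=
  Integrable.fintype_prod (f := fun _ => f) (fun _ => hf)

private theorem sg11_tr (f : ℝ → ℂ) (x : ℝ × ℝ) :
    tr sg11_m3 sg11_Ph (sg11_H f) x = ex f x ^ 3 := by
  unfold tr ex sg11_m3
  have h := integral_fintype_prod_eq_pow (ι := Fin 3) (μ := mc) (fun θ => f θ * ph x (om θ))
  rw [Fintype.card_fin] at h
  unfold tr
  rw [← h]
  refine integral_congr_ae (Eventually.of_forall fun θ => ?_)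
  simp only [sg11_H, sg11_Ph, Fin.prod_univ_three, Fin.sum_univ_three, ph_add_right]
  ring

/-- the splitting of the six coordinates -/
private theorem sg11_split (F : (Fin 3 → ℝ) × (Fin 3 → ℝ) → ℝ≥0∞) :
    ∫⁻ p, F p ∂(sg11_m3.prod sg11_m3) =
      ∫⁻ θ : Fin 6 → ℝ, F (fun i => θ (Fin.castAdd 3 i), fun i => θ (Fin.natAdd 3 i))
        ∂(Measure.pi fun _ => mc) := by
  have h1 := measurePreserving_sumPiEquivProdPi (X := fun _ : Fin 3 ⊕ Fin 3 => ℝ) (fun _ => mc)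
  have h2 := (measurePreserving_piCongrLeft (α := fun _ : Fin 6 => ℝ) (fun _ => mc)
    (finSumFinEquiv : Fin 3 ⊕ Fin 3 ≃ Fin 6)).symm
  have h3 := h1.comp h2
  have h4 : MeasurePreserving (⇑((MeasurableEquiv.piCongrLeft (fun _ : Fin 6 => ℝ)
      (finSumFinEquiv : Fin 3 ⊕ Fin 3 ≃ Fin 6)).symm.trans
      (MeasurableEquiv.sumPiEquivProdPi (fun _ : Fin 3 ⊕ Fin 3 => ℝ))))
      (Measure.pi fun _ => mc) (sg11_m3.prod sg11_m3) := h3
  have h5 := h4.lintegral_comp_emb (MeasurableEquiv.measurableEmbedding _) F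
  rw [← h5]
  refine lintegral_congr fun θ => ?_
  congr 1

private noncomputable def sg11_F (f : ℝ → ℂ) (R : ℝ) (p : (Fin 3 → ℝ) × (Fin 3 → ℝ)) : ℂ :=
  sg11_H f p.1 * (starRingEnd ℂ) (sg11_H f p.2) * (gk R (sg11_Ph p.1 - sg11_Ph p.2) : ℂ)

private theorem sg11_gk_le (R : ℝ) (v : ℝ × ℝ) : gk R v ≤ R ^ 2 := by
  unfold gk
  have h1 : Real.exp (-(R ^ 2 * sq v / 2)) ≤ 1 := by
    rw [Real.exp_le_one_iff]
    have := mul_nonneg (pow_two_nonneg R) (sq_nonneg' v)
    linarith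
  nlinarith [pow_two_nonneg R]

private theorem sg11_F_int {f : ℝ → ℂ} (hf : Integrable f mc) (R : ℝ) :
    Integrable (sg11_F f R) (sg11_m3.prod sg11_m3) := by
  have h1 : Integrable (fun p : (Fin 3 → ℝ) × (Fin 3 → ℝ) =>
      sg11_H f p.1 * (starRingEnd ℂ) (sg11_H f p.2)) (sg11_m3.prod sg11_m3) := by
    have h0 : Integrable (fun θ => (starRingEnd ℂ) (sg11_H f θ)) sg11_m3 :=
      (Complex.conjCLE : ℂ →L[ℝ] ℂ).integrable_comp (sg11_H_int hf)
    exact (sg11_H_int hf).mul_prod h0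
  refine h1.mul_bdd (c := R ^ 2) ?_ (Eventually.of_forall fun p => ?_)
  · have h2 : Continuous fun p : (Fin 3 → ℝ) × (Fin 3 → ℝ) =>
        ((gk R (sg11_Ph p.1 - sg11_Ph p.2) : ℝ) : ℂ) := by
      have := sg11_Ph_cont
      have := continuous_gk R
      fun_prop
    exact h2.aestronglyMeasurable
  · rw [Complex.norm_real, Real.norm_of_nonneg (gk_nonneg _ _)]
    exact sg11_gk_le _ _

private theorem sg11_enorm_conj (z : ℂ) : ‖(starRingEnd ℂ) z‖ₑ = ‖z‖ₑ := by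
  rw [← ofReal_norm, RCLike.norm_conj, ofReal_norm]

private theorem sg11_enorm_gk (R : ℝ) (v : ℝ × ℝ) :
    ‖((gk R v : ℝ) : ℂ)‖ₑ = ENNReal.ofReal (gk R v) := by
  rw [← ofReal_norm, Complex.norm_real, Real.norm_of_nonneg (gk_nonneg _ _)]

private theorem sg11_L6 {f : ℝ → ℂ} (hf : Integrable f mc) (R : ℝ) :
    L6 R (six f) = ∫⁻ p, ‖sg11_F f R p‖ₑ ∂(sg11_m3.prod sg11_m3) := by
  have hT : MeasurePreserving (fun p : (Fin 3 → ℝ) × (Fin 3 → ℝ) => (p.1, fun i => ap (p.2 i)))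
      (sg11_m3.prod sg11_m3) (sg11_m3.prod sg11_m3) := by
    have h1 : MeasurePreserving (fun (θ : Fin 3 → ℝ) (i : Fin 3) => ap (θ i)) sg11_m3 sg11_m3 :=
      measurePreserving_pi (fun _ => mc) (fun _ => mc) (fun _ => measurePreserving_ap)
    exact (MeasurePreserving.id sg11_m3).prod h1
  have h2 : ∫⁻ p, ‖sg11_F f R p‖ₑ ∂(sg11_m3.prod sg11_m3) =
      ∫⁻ p, ‖sg11_F f R (p.1, fun i => ap (p.2 i))‖ₑ ∂(sg11_m3.prod sg11_m3) := by
    have h3 : AEMeasurable (fun p => ‖sg11_F f R p‖ₑ) ((sg11_m3.prod sg11_m3).map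
        (fun p : (Fin 3 → ℝ) × (Fin 3 → ℝ) => (p.1, fun i => ap (p.2 i)))) := by
      rw [hT.map_eq]
      exact (sg11_F_int hf R).aestronglyMeasurable.enorm
    have h4 := lintegral_map' h3 hT.measurable.aemeasurable
    rw [hT.map_eq] at h4
    exact h4
  rw [h2, sg11_split (fun p => ‖sg11_F f R (p.1, fun i => ap (p.2 i))‖ₑ)]
  unfold L6
  refine lintegral_congr fun θ => ?_
  have e1 : (∏ i : Fin 6, six f i (θ i)) =
      ‖sg11_H f (fun i => θ (Fin.castAdd 3 i))‖ₑ *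
        ‖(starRingEnd ℂ) (sg11_H f (fun i => ap (θ (Fin.natAdd 3 i))))‖ₑ := by
    rw [sg11_enorm_conj]
    have := Fin.prod_univ_add (a := 3) (b := 3) (fun i : Fin (3 + 3) => six f i (θ i))
    rw [this]
    congr 1
    · simp only [sg11_H, Fin.prod_univ_three, enorm_mul]
      simp [six]
    · simp only [sg11_H, Fin.prod_univ_three, enorm_mul]
      simp [six]
  have e2 : (∑ i : Fin 6, om (θ i)) = sg11_Ph (fun i => θ (Fin.castAdd 3 i)) -
      sg11_Ph (fun i => ap (θ (Fin.natAdd 3 i))) := by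
    have := Fin.sum_univ_add (a := 3) (b := 3) (fun i : Fin (3 + 3) => om (θ i))
    rw [this]
    simp only [sg11_Ph, om_ap, Finset.sum_neg_distrib, sub_neg_eq_add]
  rw [e1, e2]
  simp only [sg11_F, enorm_mul, sg11_enorm_gk]

private theorem sg11_gw_int {R : ℝ} (hR : 0 < R) : Integrable (gw R) := integrable_gw hR

private theorem sg11_lhs {f : ℝ → ℂ} (hf : Integrable f mc) {R : ℝ} (hR : 0 < R) :
    ∫⁻ x, ‖ex f x‖ₑ ^ 6 * ENNReal.ofReal (gw R x) =
      ENNReal.ofReal (2 * Real.pi) * ‖∫ p, sg11_F f R p ∂(sg11_m3.prod sg11_m3)‖ₑ := by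
  have hC : ∀ x, ‖ex f x‖ ≤ ∫ y, ‖f y‖ ∂mc := fun x => norm_tr_le x
  set C : ℝ := ∫ y, ‖f y‖ ∂mc with hCdef
  have hi : Integrable (fun x => ‖ex f x‖ ^ 6 * gw R x) := by
    refine (integrable_gw hR).bdd_mul (c := C ^ 6) ?_ (Eventually.of_forall fun x => ?_)
    · exact ((continuous_ex hf).norm.pow 6).aestronglyMeasurable
    · rw [norm_pow, norm_norm]
      exact pow_le_pow_left₀ (norm_nonneg _) (hC x) 6
  have h1 : ∫⁻ x, ‖ex f x‖ₑ ^ 6 * ENNReal.ofReal (gw R x) =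
      ENNReal.ofReal (∫ x, ‖ex f x‖ ^ 6 * gw R x) := by
    rw [ofReal_integral_eq_lintegral_ofReal hi (Eventually.of_forall fun x =>
      mul_nonneg (by positivity) (gw_pos R x).le)]
    refine lintegral_congr fun x => ?_
    rw [ENNReal.ofReal_mul (by positivity), ENNReal.ofReal_pow (norm_nonneg _),
      ofReal_norm]
  have h2 := gauss_bil (μ := sg11_m3) (ν := sg11_m3) sg11_Ph_cont.measurable
    sg11_Ph_cont.measurable (sg11_H_int hf) (sg11_H_int hf) hR
  have h3 : ∫ x, tr sg11_m3 sg11_Ph (sg11_H f) x *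
      (starRingEnd ℂ) (tr sg11_m3 sg11_Ph (sg11_H f) x) * (gw R x : ℂ) =
      ((∫ x, ‖ex f x‖ ^ 6 * gw R x : ℝ) : ℂ) := by
    rw [← integral_complex_ofReal]
    refine integral_congr_ae (Eventually.of_forall fun x => ?_)
    simp only
    rw [sg11_tr, Complex.mul_conj, Complex.normSq_eq_norm_sq, norm_pow]
    push_cast
    ring
  rw [h3] at h2
  have h4 : ∫ x, ‖ex f x‖ ^ 6 * gw R x =
      2 * Real.pi * ‖∫ p, sg11_F f R p ∂(sg11_m3.prod sg11_m3)‖ := by
    have h5 : ‖((∫ x, ‖ex f x‖ ^ 6 * gw R x : ℝ) : ℂ)‖ = ∫ x, ‖ex f x‖ ^ 6 * gw R x := by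
      rw [Complex.norm_real, Real.norm_of_nonneg]
      exact integral_nonneg fun x => mul_nonneg (by positivity) (gw_pos R x).le
    rw [← h5, h2, norm_mul, Complex.norm_real, Real.norm_of_nonneg (by positivity)]
    rfl
  rw [h1, h4, ENNReal.ofReal_mul (by positivity), ofReal_norm]

theorem expand_le {f : ℝ → ℂ} (hf : MemLp f 2 mc) {R : ℝ} (hR : 0 < R) :
    ∫⁻ x, ‖ex f x‖ₑ ^ 6 * ENNReal.ofReal (gw R x) ≤
      ENNReal.ofReal (2 * Real.pi) * L6 R (six f) := by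
  have hf1 := integrable_of_memLp hf
  rw [sg11_lhs hf1 hR, sg11_L6 hf1 R]
  gcongr
  exact enorm_integral_le_lintegral_enorm _

theorem expand_ge {u : ℝ → ℝ} (hu0 : ∀ θ, 0 ≤ u θ) (hu : MemLp (fun θ => (u θ : ℂ)) 2 mc)
    (hev : ∀ θ ∈ Ioc 0 (2 * Real.pi), u (ap θ) = u θ) {R : ℝ} (hR : 0 < R) :
    ENNReal.ofReal (2 * Real.pi) * L6 R (fun _ θ => ENNReal.ofReal (u θ)) ≤
      J (fun θ => (u θ : ℂ)) := by
  have hf1 := integrable_of_memLp hu
  have h1 : L6 R (fun _ θ => ENNReal.ofReal (u θ)) = L6 R (six fun θ => (u θ : ℂ)) := by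
    unfold L6
    refine lintegral_congr_ae ?_
    have h2 : ∀ᵐ θ : Fin 6 → ℝ ∂(Measure.pi fun _ => mc), ∀ i, θ i ∈ Ioc 0 (2 * Real.pi) := by
      rw [ae_all_iff]
      intro i
      have h3 : ∀ᵐ t ∂mc, t ∈ Ioc 0 (2 * Real.pi) := by
        unfold mc
        exact ae_restrict_mem measurableSet_Ioc
      exact (Measure.quasiMeasurePreserving_eval (μ := fun _ : Fin 6 => mc) i).ae h3
    filter_upwards [h2] with θ hθ
    congr 1
    refine Finset.prod_congr rfl fun i _ => ?_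
    unfold six
    split_ifs
    · rw [← ofReal_norm, Complex.norm_real, Real.norm_of_nonneg (hu0 _)]
    · rw [← ofReal_norm, Complex.norm_real, Real.norm_of_nonneg (hu0 _), hev _ (hθ i)]
  have h4 : ∫⁻ p, ‖sg11_F (fun θ => (u θ : ℂ)) R p‖ₑ ∂(sg11_m3.prod sg11_m3) =
      ‖∫ p, sg11_F (fun θ => (u θ : ℂ)) R p ∂(sg11_m3.prod sg11_m3)‖ₑ := by
    have h5 : ∀ p, sg11_F (fun θ => (u θ : ℂ)) R p = ((‖sg11_F (fun θ => (u θ : ℂ)) R p‖ : ℝ) : ℂ) := by
      intro p
      have h6 : sg11_F (fun θ => (u θ : ℂ)) R p =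
          (((∏ i, u (p.1 i)) * (∏ i, u (p.2 i)) * gk R (sg11_Ph p.1 - sg11_Ph p.2) : ℝ) : ℂ) := by
        simp only [sg11_F, sg11_H]
        rw [← Complex.ofReal_prod, ← Complex.ofReal_prod, Complex.conj_ofReal]
        push_cast
        ring
      rw [h6, Complex.norm_real, Real.norm_of_nonneg]
      exact mul_nonneg (mul_nonneg (Finset.prod_nonneg fun _ _ => hu0 _)
        (Finset.prod_nonneg fun _ _ => hu0 _)) (gk_nonneg _ _)
    have h7 : ∫ p, sg11_F (fun θ => (u θ : ℂ)) R p ∂(sg11_m3.prod sg11_m3) =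
        ((∫ p, ‖sg11_F (fun θ => (u θ : ℂ)) R p‖ ∂(sg11_m3.prod sg11_m3) : ℝ) : ℂ) := by
      rw [← integral_complex_ofReal]
      exact integral_congr_ae (Eventually.of_forall fun p => h5 p)
    rw [h7, ← ofReal_norm, Complex.norm_real,
      Real.norm_of_nonneg (integral_nonneg fun p => norm_nonneg _),
      ofReal_integral_norm_eq_lintegral_enorm (sg11_F_int hf1 R)]
  rw [h1, sg11_L6 hf1 R, h4, ← sg11_lhs hf1 hR]
  unfold J
  refine lintegral_mono fun x => ?_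
  refine mul_le_of_le_one_right bot_le ?_
  rw [ENNReal.ofReal_le_one]
  unfold gw
  rw [Real.exp_le_one_iff]
  have := sq_nonneg' x
  have h8 : 0 ≤ sq x / (2 * R ^ 2) := by positivity
  linarith

end Pool.Agent.Lib.MP_230119_an
end

section

set_option autoImplicit false

open MeasureTheory Set Filter Topology
open scoped ENNReal

namespace Pool.Agent.Lib.MP_230119_an

theorem sg14b_aux {x y : ℝ} (hx0 : 0 ≤ x) (hy0 : 0 ≤ y) :
    x * y - 1 ≤ Real.sqrt (max (x ^ 2 - 1) 0 * max (y ^ 2 - 1) 0) + |x - y| := by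
  have habs := abs_nonneg (x - y)
  have hs := Real.sqrt_nonneg (max (x ^ 2 - 1) 0 * max (y ^ 2 - 1) 0)
  rcases le_or_gt 1 x with hx | hx
  · rcases le_or_gt 1 y with hy | hy
    · have h1 : max (x ^ 2 - 1) 0 = x ^ 2 - 1 := max_eq_left (by nlinarith)
      have h2 : max (y ^ 2 - 1) 0 = y ^ 2 - 1 := max_eq_left (by nlinarith)
      rw [h1, h2] at hs ⊢
      have hA : 0 ≤ (x ^ 2 - 1) * (y ^ 2 - 1) := mul_nonneg (by nlinarith) (by nlinarith)
      have h3 := Real.sq_sqrt hA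
      have h4 : |x - y| ^ 2 = (x - y) ^ 2 := sq_abs _
      refine (abs_le_of_sq_le_sq' ?_ (by positivity)).2
      nlinarith [mul_nonneg hs habs]
    · have h1 : x * y - 1 ≤ x - y := by nlinarith
      have h2 := le_abs_self (x - y)
      linarith
  · rcases le_or_gt 1 y with hy | hy
    · have h1 : x * y - 1 ≤ y - x := by nlinarith
      have h2 := neg_abs_le (x - y)
      linarith
    · nlinarith

theorem weight_pointwise (Y Z : ℝ × ℝ) (hY : sq Y ≤ 9) (hZ : sq Z ≤ 9) :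
    (sq Y + sq Z) / 2 - 1 ≤ Real.sqrt (max (sq Y - 1) 0 * max (sq Z - 1) 0) +
      4 * Real.sqrt (sq (Y + Z)) := by
  set x := Real.sqrt (sq Y) with hx
  set y := Real.sqrt (sq Z) with hy
  set t := Real.sqrt (sq (Y + Z)) with ht
  have hx0 : 0 ≤ x := Real.sqrt_nonneg _
  have hy0 : 0 ≤ y := Real.sqrt_nonneg _
  have ht0 : 0 ≤ t := Real.sqrt_nonneg _
  have hx2 : x ^ 2 = sq Y := Real.sq_sqrt (sq_nonneg' _)
  have hy2 : y ^ 2 = sq Z := Real.sq_sqrt (sq_nonneg' _)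
  have ht2 : t ^ 2 = sq (Y + Z) := Real.sq_sqrt (sq_nonneg' _)
  have hcs : -(x * y) ≤ Y.1 * Z.1 + Y.2 * Z.2 := by
    have h1 : (Y.1 * Z.1 + Y.2 * Z.2) ^ 2 ≤ (x * y) ^ 2 := by
      rw [mul_pow, hx2, hy2]
      unfold sq
      nlinarith [sq_nonneg (Y.1 * Z.2 - Y.2 * Z.1)]
    have h2 := abs_le_of_sq_le_sq' h1 (mul_nonneg hx0 hy0)
    exact h2.1
  have htri : |x - y| ≤ t := by
    apply abs_le_of_sq_le_sq _ ht0
    rw [ht2]
    have h1 : sq (Y + Z) = x ^ 2 + y ^ 2 + 2 * (Y.1 * Z.1 + Y.2 * Z.2) := by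
      rw [hx2, hy2]
      unfold sq
      simp only [Prod.fst_add, Prod.snd_add]
      ring
    rw [h1]
    nlinarith
  have hx3 : x ≤ 3 := by nlinarith
  have hy3 : y ≤ 3 := by nlinarith
  have habs := abs_nonneg (x - y)
  have h3 : |x - y| ≤ 3 := by
    rw [abs_le]
    constructor <;> linarith
  have h4 : (x - y) ^ 2 ≤ 3 * |x - y| := by
    rw [← sq_abs]
    nlinarith
  have haux := sg14b_aux hx0 hy0
  rw [← hx2, ← hy2]
  nlinarith

theorem gk_mul_le {R : ℝ} (hR : 0 < R) (v : ℝ × ℝ) :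
    4 * Real.sqrt (sq v) * gk R v ≤ 8 / R * gk (R / Real.sqrt 2) v := by
  set m := Real.sqrt (sq v) with hm
  have hm0 : 0 ≤ m := Real.sqrt_nonneg _
  have hm2 : m ^ 2 = sq v := Real.sq_sqrt (sq_nonneg' _)
  have h2 : (R / Real.sqrt 2) ^ 2 = R ^ 2 / 2 := by
    rw [div_pow, Real.sq_sqrt (by norm_num)]
  unfold gk
  rw [h2, ← hm2]
  have he : Real.exp (-(R ^ 2 * m ^ 2 / 2)) =
      Real.exp (-(R ^ 2 / 2 * m ^ 2 / 2)) * Real.exp (-((R * m) ^ 2 / 4)) := by
    rw [← Real.exp_add]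
    congr 1
    ring
  have hs : (R * m) * Real.exp (-((R * m) ^ 2 / 4)) ≤ 1 := by
    rw [Real.exp_neg, ← div_eq_mul_inv, div_le_one (Real.exp_pos _)]
    have h3 := Real.add_one_le_exp ((R * m) ^ 2 / 4)
    nlinarith [sq_nonneg (R * m / 2 - 1)]
  rw [he]
  have hE : 0 < Real.exp (-(R ^ 2 / 2 * m ^ 2 / 2)) := Real.exp_pos _
  calc 4 * m * (R ^ 2 * (Real.exp (-(R ^ 2 / 2 * m ^ 2 / 2)) * Real.exp (-((R * m) ^ 2 / 4))))
      = (4 * R * Real.exp (-(R ^ 2 / 2 * m ^ 2 / 2))) *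
          ((R * m) * Real.exp (-((R * m) ^ 2 / 4))) := by ring
    _ ≤ (4 * R * Real.exp (-(R ^ 2 / 2 * m ^ 2 / 2))) * 1 := by gcongr
    _ = 8 / R * (R ^ 2 / 2 * Real.exp (-(R ^ 2 / 2 * m ^ 2 / 2))) := by
        field_simp
        ring

end Pool.Agent.Lib.MP_230119_an
end

section

set_option autoImplicit false

open MeasureTheory Set Filter Topology
open scoped ENNReal

namespace Pool.Agent.Lib.MP_230119_an

private lemma sg03_amgm (a b : NNReal) :
    ((a : ℝ≥0∞) * b) ≤ (1 / 2 : NNReal) * (a : ℝ≥0∞) ^ 2 + (1 / 2 : NNReal) * (b : ℝ≥0∞) ^ 2 := by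
  norm_cast
  rw [← NNReal.coe_le_coe]
  push_cast
  nlinarith [sq_nonneg ((a : ℝ) - b)]

private lemma sg03_step {α : Type*} [MeasurableSpace α] {ν : Measure α} [SFinite ν]
    {Φ : α → ℝ × ℝ}
    (hΦ : Measurable Φ) {H : α → ℂ} (hH : Integrable H ν) {B : ℝ≥0∞} {R : ℝ} (hR : 0 < R)
    (hB : ∀ Y : ℝ × ℝ, ∫⁻ y, ENNReal.ofReal (gk R (Y - Φ y)) ∂ν ≤ B) :
    ∫⁻ x, ‖tr ν Φ H x‖ₑ ^ 2 * ENNReal.ofReal (gw R x) ≤
      ENNReal.ofReal (2 * Real.pi) * B * ∫⁻ y, ‖H y‖ₑ ^ 2 ∂ν := by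
  have hcont := continuous_tr hΦ hH
  -- the left side as a Bochner integral
  have hint : Integrable (fun x => ‖tr ν Φ H x‖ ^ 2 * gw R x) := by
    refine (integrable_gw hR).bdd_mul (c := (∫ y, ‖H y‖ ∂ν) ^ 2) ?_ ?_
    · exact (hcont.norm.pow 2).aestronglyMeasurable
    · refine Eventually.of_forall fun x => ?_
      rw [Real.norm_of_nonneg (by positivity)]
      exact pow_le_pow_left₀ (norm_nonneg _) (norm_tr_le x) 2
  have hL : ∫⁻ x, ‖tr ν Φ H x‖ₑ ^ 2 * ENNReal.ofReal (gw R x) =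
      ENNReal.ofReal (∫ x, ‖tr ν Φ H x‖ ^ 2 * gw R x) := by
    rw [ofReal_integral_eq_lintegral_ofReal hint
      (Eventually.of_forall fun x => mul_nonneg (by positivity) (gw_pos R x).le)]
    refine lintegral_congr fun x => ?_
    rw [ENNReal.ofReal_mul (by positivity), ENNReal.ofReal_pow (norm_nonneg _), ofReal_norm]
  have hC : ((∫ x, ‖tr ν Φ H x‖ ^ 2 * gw R x : ℝ) : ℂ) =
      ((2 * Real.pi : ℝ) : ℂ) * ∫ p : α × α, H p.1 * (starRingEnd ℂ) (H p.2) *
        (gk R (Φ p.1 - Φ p.2) : ℂ) ∂(ν.prod ν) := by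
    rw [← gauss_bil hΦ hΦ hH hH hR, ← integral_complex_ofReal]
    refine integral_congr_ae (Eventually.of_forall fun x => ?_)
    simp only
    rw [Complex.mul_conj, Complex.normSq_eq_norm_sq]
    push_cast
    ring
  have h1 : ENNReal.ofReal (∫ x, ‖tr ν Φ H x‖ ^ 2 * gw R x) ≤
      ENNReal.ofReal (2 * Real.pi) * ∫⁻ p : α × α, ‖H p.1‖ₑ * ‖H p.2‖ₑ *
        ENNReal.ofReal (gk R (Φ p.1 - Φ p.2)) ∂(ν.prod ν) := by
    have e1 : ENNReal.ofReal (∫ x, ‖tr ν Φ H x‖ ^ 2 * gw R x) ≤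
        ‖((∫ x, ‖tr ν Φ H x‖ ^ 2 * gw R x : ℝ) : ℂ)‖ₑ := by
      rw [← ofReal_norm, Complex.norm_real]
      exact ENNReal.ofReal_le_ofReal (le_abs_self _)
    refine e1.trans ?_
    rw [hC, enorm_mul, ← ofReal_norm (((2 * Real.pi : ℝ) : ℂ)), Complex.norm_real,
      Real.norm_of_nonneg (by positivity)]
    refine mul_le_mul_right ?_ _
    refine (enorm_integral_le_lintegral_enorm _).trans (le_of_eq ?_)
    refine lintegral_congr fun p => ?_
    rw [enorm_mul, enorm_mul, ← ofReal_norm ((gk R (Φ p.1 - Φ p.2) : ℝ) : ℂ),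
      Complex.norm_real, Real.norm_of_nonneg (gk_nonneg _ _)]
    congr 2
    rw [← ofReal_norm, ← ofReal_norm]
    congr 1
    exact RCLike.norm_conj _
  have hHm : AEMeasurable (fun y => ‖H y‖ₑ) ν := hH.1.enorm
  have hf1 : AEMeasurable (fun p : α × α => ‖H p.1‖ₑ) (ν.prod ν) :=
    hHm.comp_quasiMeasurePreserving Measure.quasiMeasurePreserving_fst
  have hf2 : AEMeasurable (fun p : α × α => ‖H p.2‖ₑ) (ν.prod ν) :=
    hHm.comp_quasiMeasurePreserving Measure.quasiMeasurePreserving_snd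
  have hg : Measurable (fun p : α × α => ENNReal.ofReal (gk R (Φ p.1 - Φ p.2))) := by
    have : Measurable (fun p : α × α => Φ p.1 - Φ p.2) :=
      (hΦ.comp measurable_fst).sub (hΦ.comp measurable_snd)
    exact ENNReal.measurable_ofReal.comp ((continuous_gk R).measurable.comp this)
  have hm1 : AEMeasurable (fun p : α × α => ‖H p.1‖ₑ ^ 2 *
      ENNReal.ofReal (gk R (Φ p.1 - Φ p.2))) (ν.prod ν) := (hf1.pow_const 2).mul hg.aemeasurable
  have hm2 : AEMeasurable (fun p : α × α => ‖H p.2‖ₑ ^ 2 *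
      ENNReal.ofReal (gk R (Φ p.1 - Φ p.2))) (ν.prod ν) := (hf2.pow_const 2).mul hg.aemeasurable
  have h2 : ∫⁻ p : α × α, ‖H p.1‖ₑ ^ 2 * ENNReal.ofReal (gk R (Φ p.1 - Φ p.2)) ∂(ν.prod ν) ≤
      B * ∫⁻ y, ‖H y‖ₑ ^ 2 ∂ν := by
    rw [lintegral_prod _ hm1]
    rw [← lintegral_const_mul'' B (hHm.pow_const 2)]
    refine lintegral_mono fun y => ?_
    simp only
    rw [lintegral_const_mul _ (by
      exact ENNReal.measurable_ofReal.comp ((continuous_gk R).measurable.comp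
        (measurable_const.sub hΦ))), mul_comm]
    exact mul_le_mul_left (hB (Φ y)) _
  have h3 : ∫⁻ p : α × α, ‖H p.2‖ₑ ^ 2 * ENNReal.ofReal (gk R (Φ p.1 - Φ p.2)) ∂(ν.prod ν) ≤
      B * ∫⁻ y, ‖H y‖ₑ ^ 2 ∂ν := by
    rw [lintegral_prod_symm _ hm2]
    rw [← lintegral_const_mul'' B (hHm.pow_const 2)]
    refine lintegral_mono fun y => ?_
    simp only
    rw [lintegral_const_mul _ (by
      exact ENNReal.measurable_ofReal.comp ((continuous_gk R).measurable.comp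
        (hΦ.sub measurable_const))), mul_comm]
    refine mul_le_mul_left ?_ _
    refine le_trans (le_of_eq ?_) (hB (Φ y))
    refine lintegral_congr fun x => ?_
    rw [← gk_neg, neg_sub]
  rw [hL]
  refine h1.trans ?_
  rw [mul_assoc]
  refine mul_le_mul_right ?_ _
  calc ∫⁻ p : α × α, ‖H p.1‖ₑ * ‖H p.2‖ₑ * ENNReal.ofReal (gk R (Φ p.1 - Φ p.2)) ∂(ν.prod ν)
      ≤ ∫⁻ p : α × α, ((1 / 2 : NNReal) * (‖H p.1‖ₑ ^ 2 * ENNReal.ofReal (gk R (Φ p.1 - Φ p.2)))
        + (1 / 2 : NNReal) * (‖H p.2‖ₑ ^ 2 * ENNReal.ofReal (gk R (Φ p.1 - Φ p.2))))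
          ∂(ν.prod ν) := by
        refine lintegral_mono fun p => ?_
        simp only
        rw [← mul_assoc, ← mul_assoc, ← add_mul]
        exact mul_le_mul_left (sg03_amgm ‖H p.1‖₊ ‖H p.2‖₊) _
    _ = (1 / 2 : NNReal) * (∫⁻ p : α × α, ‖H p.1‖ₑ ^ 2 * ENNReal.ofReal (gk R (Φ p.1 - Φ p.2))
          ∂(ν.prod ν)) + (1 / 2 : NNReal) * (∫⁻ p : α × α, ‖H p.2‖ₑ ^ 2 *
            ENNReal.ofReal (gk R (Φ p.1 - Φ p.2)) ∂(ν.prod ν)) := by
        rw [lintegral_add_left' (hm1.const_mul _),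
          lintegral_const_mul'' _ hm1, lintegral_const_mul'' _ hm2]
    _ ≤ (1 / 2 : NNReal) * (B * ∫⁻ y, ‖H y‖ₑ ^ 2 ∂ν) +
          (1 / 2 : NNReal) * (B * ∫⁻ y, ‖H y‖ₑ ^ 2 ∂ν) := by gcongr
    _ = B * ∫⁻ y, ‖H y‖ₑ ^ 2 ∂ν := by
        rw [← add_mul]
        have : ((1 / 2 : NNReal) : ℝ≥0∞) + ((1 / 2 : NNReal) : ℝ≥0∞) = 1 := by
          norm_cast
          rw [← NNReal.coe_inj]
          push_cast
          norm_num
        rw [this, one_mul]

theorem tt_star {α : Type*} [MeasurableSpace α] {ν : Measure α} [SFinite ν] {Φ : α → ℝ × ℝ}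
    (hΦ : Measurable Φ) {H : α → ℂ} (hH : Integrable H ν) {B : ℝ≥0∞}
    (hB : ∀ R : ℝ, 1 ≤ R → ∀ Y : ℝ × ℝ, ∫⁻ y, ENNReal.ofReal (gk R (Y - Φ y)) ∂ν ≤ B) :
    ∫⁻ x, ‖tr ν Φ H x‖ₑ ^ 2 ≤ ENNReal.ofReal (2 * Real.pi) * B * ∫⁻ y, ‖H y‖ₑ ^ 2 ∂ν := by
  have hcont := continuous_tr hΦ hH
  have hstep : ∀ n : ℕ, ∫⁻ x, ‖tr ν Φ H x‖ₑ ^ 2 * ENNReal.ofReal (gw (n + 1) x) ≤
      ENNReal.ofReal (2 * Real.pi) * B * ∫⁻ y, ‖H y‖ₑ ^ 2 ∂ν := fun n =>
    sg03_step hΦ hH (by positivity) (hB _ (by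
      have : (0 : ℝ) ≤ n := Nat.cast_nonneg n
      linarith))
  have hlim : ∀ x : ℝ × ℝ, Tendsto (fun n : ℕ => ‖tr ν Φ H x‖ₑ ^ 2 *
      ENNReal.ofReal (gw (n + 1) x)) atTop (𝓝 (‖tr ν Φ H x‖ₑ ^ 2)) := by
    intro x
    have h1 : Tendsto (fun n : ℕ => gw ((n : ℝ) + 1) x) atTop (𝓝 1) := by
      unfold gw
      have h2 : Tendsto (fun n : ℕ => 2 * ((n : ℝ) + 1) ^ 2) atTop atTop := by
        have h3 : Tendsto (fun n : ℕ => (n : ℝ) + 1) atTop atTop :=
          tendsto_atTop_add_const_right _ _ tendsto_natCast_atTop_atTop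
        exact ((tendsto_pow_atTop (by norm_num : (2 : ℕ) ≠ 0)).comp h3).const_mul_atTop
          (by norm_num)
      have h4 : Tendsto (fun n : ℕ => -(sq x / (2 * ((n : ℝ) + 1) ^ 2))) atTop (𝓝 (-0)) :=
        (h2.const_div_atTop (sq x)).neg
      have h5 := (Real.continuous_exp.tendsto (-0)).comp h4
      simpa [Function.comp_def] using h5
    have h6 := ENNReal.tendsto_ofReal h1
    have h7 := ENNReal.Tendsto.const_mul (a := ‖tr ν Φ H x‖ₑ ^ 2) h6
      (Or.inr (ENNReal.pow_ne_top (by simp)))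
    simpa using h7
  calc ∫⁻ x, ‖tr ν Φ H x‖ₑ ^ 2
      = ∫⁻ x, liminf (fun n : ℕ => ‖tr ν Φ H x‖ₑ ^ 2 * ENNReal.ofReal (gw (n + 1) x)) atTop :=
        lintegral_congr fun x => (hlim x).liminf_eq.symm
    _ ≤ liminf (fun n : ℕ => ∫⁻ x, ‖tr ν Φ H x‖ₑ ^ 2 * ENNReal.ofReal (gw (n + 1) x)) atTop :=
        lintegral_liminf_le fun n => (hcont.enorm.measurable.pow_const 2).mul
          (ENNReal.measurable_ofReal.comp (continuous_gw _).measurable)
    _ ≤ ENNReal.ofReal (2 * Real.pi) * B * ∫⁻ y, ‖H y‖ₑ ^ 2 ∂ν := by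
        refine (liminf_le_liminf (Eventually.of_forall hstep)).trans ?_
        simp

end Pool.Agent.Lib.MP_230119_an
end

section

set_option autoImplicit false

open MeasureTheory Set Filter Topology
open scoped ENNReal

namespace Pool.Agent.Lib.MP_230119_an

/-- The map `(a, c) ↦ om a + om c`. -/
private noncomputable def sg05_G (p : ℝ × ℝ) : ℝ × ℝ := om p.1 + om p.2

/-- Its derivative. -/
private noncomputable def sg05_D (p : ℝ × ℝ) : ℝ × ℝ →L[ℝ] ℝ × ℝ :=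
  (Matrix.toLin (.finTwoProd ℝ) (.finTwoProd ℝ)
    !![-Real.sin p.1, -Real.sin p.2; Real.cos p.1, Real.cos p.2]).toContinuousLinearMap

private lemma sg05_hasFDerivAt (p : ℝ × ℝ) : HasFDerivAt sg05_G (sg05_D p) p := by
  unfold sg05_D
  rw [Matrix.toLin_finTwoProd_toContinuousLinearMap]
  have h : sg05_G = fun p : ℝ × ℝ =>
      (Real.cos p.1 + Real.cos p.2, Real.sin p.1 + Real.sin p.2) := by
    funext p
    simp [sg05_G, om]
  rw [h]
  exact HasFDerivAt.prodMk (𝕜 := ℝ)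
    (((Real.hasDerivAt_cos p.1).comp_hasFDerivAt p hasFDerivAt_fst).add
      ((Real.hasDerivAt_cos p.2).comp_hasFDerivAt p hasFDerivAt_snd))
    (((Real.hasDerivAt_sin p.1).comp_hasFDerivAt p hasFDerivAt_fst).add
      ((Real.hasDerivAt_sin p.2).comp_hasFDerivAt p hasFDerivAt_snd))

private lemma sg05_det (p : ℝ × ℝ) : (sg05_D p).det = -Real.sin (p.1 - p.2) := by
  unfold sg05_D
  simp only [LinearMap.det_toContinuousLinearMap, LinearMap.det_toLin, Matrix.det_fin_two_of,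
    Real.sin_sub]
  ring

private lemma sg05_angle {a b : ℝ} (ha : a ∈ Ioc 0 (2 * Real.pi)) (hb : b ∈ Ioc 0 (2 * Real.pi))
    (h : Real.cos (a - b) = 1) : a = b := by
  have h1 := (Real.cos_eq_one_iff_of_lt_of_lt (x := a - b) (by linarith [ha.1, hb.2])
    (by linarith [ha.2, hb.1])).1 h
  linarith

private lemma sg05_sq (p : ℝ × ℝ) : sq (sg05_G p) = 2 + 2 * Real.cos (p.1 - p.2) := by
  have h1 := Real.sin_sq_add_cos_sq p.1
  have h2 := Real.sin_sq_add_cos_sq p.2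
  simp only [sg05_G, sq, om, Prod.fst_add, Prod.snd_add, Real.cos_sub]
  linear_combination h1 + h2

/-- Algebra: two pairs of unit complex numbers with the same nonzero sum are equal up to
order. -/
private lemma sg05_alg {z w z' w' : ℂ} (hz : z * (starRingEnd ℂ) z = 1)
    (hw : w * (starRingEnd ℂ) w = 1) (hz' : z' * (starRingEnd ℂ) z' = 1)
    (hw' : w' * (starRingEnd ℂ) w' = 1) (hs : z + w = z' + w') (hne : z + w ≠ 0) :
    z = z' ∨ z = w' := by
  have h1 : (starRingEnd ℂ) (z + w) * (z * w) = z + w := by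
    rw [map_add]
    linear_combination w * hz + z * hw
  have h2 : (starRingEnd ℂ) (z + w) * (z' * w') = z + w := by
    rw [hs, map_add]
    linear_combination w' * hz' + z' * hw'
  have h3 : (starRingEnd ℂ) (z + w) ≠ 0 := by
    rwa [Ne, map_eq_zero]
  have h4 : z * w = z' * w' := mul_left_cancel₀ h3 (h1.trans h2.symm)
  have h5 : (z - z') * (z - w') = 0 := by
    linear_combination z * hs - h4
  rcases mul_eq_zero.1 h5 with h | h
  · exact Or.inl (sub_eq_zero.1 h)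
  · exact Or.inr (sub_eq_zero.1 h)

/-- The unit complex number with angle `θ`. -/
private noncomputable def sg05_z (θ : ℝ) : ℂ := ⟨Real.cos θ, Real.sin θ⟩

private lemma sg05_re (θ : ℝ) : (sg05_z θ).re = Real.cos θ := rfl

private lemma sg05_im (θ : ℝ) : (sg05_z θ).im = Real.sin θ := rfl

private lemma sg05_z_mul (θ : ℝ) : sg05_z θ * (starRingEnd ℂ) (sg05_z θ) = 1 := by
  have h := Real.sin_sq_add_cos_sq θ
  apply Complex.ext
  · simp only [sg05_z, Complex.mul_re, Complex.conj_re, Complex.conj_im, Complex.one_re]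
    linear_combination h
  · simp only [sg05_z, Complex.mul_im, Complex.conj_re, Complex.conj_im, Complex.one_im]
    ring

private lemma sg05_z_inj {a b : ℝ} (ha : a ∈ Ioc 0 (2 * Real.pi))
    (hb : b ∈ Ioc 0 (2 * Real.pi)) (h : sg05_z a = sg05_z b) : a = b := by
  apply sg05_angle ha hb
  have h1 : Real.cos a = Real.cos b := by rw [← sg05_re, h, sg05_re]
  have h2 : Real.sin a = Real.sin b := by rw [← sg05_im, h, sg05_im]
  have h3 := Real.sin_sq_add_cos_sq b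
  rw [Real.cos_sub, h1, h2]
  linear_combination h3

/-- The region of integration. -/
private def sg05_A : Set (ℝ × ℝ) :=
  {p | p.1 ∈ Ioc 0 (2 * Real.pi) ∧ p.2 ∈ Ioc 0 (2 * Real.pi) ∧ p.1 < p.2 ∧
    Real.sin (p.1 - p.2) ≠ 0}

private lemma sg05_measA : MeasurableSet sg05_A := by
  have h1 : MeasurableSet {p : ℝ × ℝ | p.1 ∈ Ioc 0 (2 * Real.pi)} :=
    measurable_fst measurableSet_Ioc
  have h2 : MeasurableSet {p : ℝ × ℝ | p.2 ∈ Ioc 0 (2 * Real.pi)} :=
    measurable_snd measurableSet_Ioc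
  have h3 : MeasurableSet {p : ℝ × ℝ | p.1 < p.2} :=
    measurableSet_lt measurable_fst measurable_snd
  have h4 : MeasurableSet {p : ℝ × ℝ | Real.sin (p.1 - p.2) ≠ 0} := by
    have : Measurable fun p : ℝ × ℝ => Real.sin (p.1 - p.2) := by fun_prop
    exact (this (measurableSet_singleton 0)).compl
  exact h1.inter (h2.inter (h3.inter h4))

private lemma sg05_injOn : InjOn sg05_G sg05_A := by
  intro p hp q hq h
  obtain ⟨h1, h2, h3, h4⟩ := hp
  obtain ⟨k1, k2, k3, k4⟩ := hq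
  have e1 : Real.cos p.1 + Real.cos p.2 = Real.cos q.1 + Real.cos q.2 := congrArg Prod.fst h
  have e2 : Real.sin p.1 + Real.sin p.2 = Real.sin q.1 + Real.sin q.2 := congrArg Prod.snd h
  have hs : sg05_z p.1 + sg05_z p.2 = sg05_z q.1 + sg05_z q.2 := by
    apply Complex.ext
    · rw [Complex.add_re, Complex.add_re, sg05_re, sg05_re, sg05_re, sg05_re, e1]
    · rw [Complex.add_im, Complex.add_im, sg05_im, sg05_im, sg05_im, sg05_im, e2]
  have hne : sg05_z p.1 + sg05_z p.2 ≠ 0 := by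
    intro h0
    have f1 : Real.cos p.1 + Real.cos p.2 = 0 := by
      rw [← sg05_re, ← sg05_re, ← Complex.add_re, h0, Complex.zero_re]
    have f2 : Real.sin p.1 + Real.sin p.2 = 0 := by
      rw [← sg05_im, ← sg05_im, ← Complex.add_im, h0, Complex.zero_im]
    apply h4
    rw [Real.sin_sub]
    have g1 : Real.cos p.1 = -Real.cos p.2 := by linarith
    have g2 : Real.sin p.1 = -Real.sin p.2 := by linarith
    rw [g1, g2]
    ring
  rcases sg05_alg (sg05_z_mul _) (sg05_z_mul _) (sg05_z_mul _) (sg05_z_mul _) hs hne with h5 | h5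
  · have h6 : sg05_z p.2 = sg05_z q.2 := by
      rw [h5] at hs
      exact add_left_cancel hs
    exact Prod.ext (sg05_z_inj h1 k1 h5) (sg05_z_inj h2 k2 h6)
  · have h6 : sg05_z p.2 = sg05_z q.1 := by
      rw [h5, add_comm] at hs
      exact add_right_cancel hs
    have g1 := sg05_z_inj h1 k2 h5
    have g2 := sg05_z_inj h2 k1 h6
    exfalso
    linarith

private lemma sg05_image : sg05_G '' sg05_A ⊆ {Z : ℝ × ℝ | sq Z < 4} := by
  rintro Z ⟨p, ⟨h1, h2, h3, h4⟩, rfl⟩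
  rw [Set.mem_ofPred_eq, sg05_sq]
  have h5 : Real.cos (p.1 - p.2) ≠ 1 := fun h => absurd (sg05_angle h1 h2 h) h3.ne
  have h6 := lt_of_le_of_ne (Real.cos_le_one (p.1 - p.2)) h5
  linarith

private lemma sg05_half (Ψ : ℝ × ℝ → ℝ≥0∞) :
    ∫⁻ p in sg05_A, Ψ (om p.1 + om p.2) * ENNReal.ofReal |Real.sin (p.1 - p.2)| ≤
      ∫⁻ Z in {Z : ℝ × ℝ | sq Z < 4}, Ψ Z := by
  have h := lintegral_image_eq_lintegral_abs_det_fderiv_mul (volume : Measure (ℝ × ℝ)) sg05_measA
    (fun p _ => (sg05_hasFDerivAt p).hasFDerivWithinAt) sg05_injOn Ψ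
  calc ∫⁻ p in sg05_A, Ψ (om p.1 + om p.2) * ENNReal.ofReal |Real.sin (p.1 - p.2)|
      = ∫⁻ p in sg05_A, ENNReal.ofReal |(sg05_D p).det| * Ψ (sg05_G p) := by
        refine lintegral_congr fun p => ?_
        rw [sg05_det, abs_neg, mul_comm]
        rfl
    _ = ∫⁻ Z in sg05_G '' sg05_A, Ψ Z := h.symm
    _ ≤ ∫⁻ Z in {Z : ℝ × ℝ | sq Z < 4}, Ψ Z := lintegral_mono_set sg05_image

private lemma sg05_swap_half (Ψ : ℝ × ℝ → ℝ≥0∞) :
    ∫⁻ p in Prod.swap ⁻¹' sg05_A, Ψ (om p.1 + om p.2) * ENNReal.ofReal |Real.sin (p.1 - p.2)| =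
      ∫⁻ p in sg05_A, Ψ (om p.1 + om p.2) * ENNReal.ofReal |Real.sin (p.1 - p.2)| := by
  have hm : MeasurePreserving (Prod.swap : ℝ × ℝ → ℝ × ℝ) volume volume :=
    Measure.measurePreserving_swap
  have hmr := hm.restrict_preimage (s := sg05_A) sg05_measA
  have h := hmr.lintegral_comp_emb (MeasurableEquiv.prodComm (α := ℝ) (β := ℝ)).measurableEmbedding
    (fun p => Ψ (om p.1 + om p.2) * ENNReal.ofReal |Real.sin (p.1 - p.2)|)
  rw [← h]
  refine lintegral_congr fun p => ?_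
  simp only [Prod.fst_swap, Prod.snd_swap]
  rw [add_comm (om p.2) (om p.1), ← neg_sub p.1 p.2, Real.sin_neg, abs_neg]

private lemma sg05_mc : mc.prod mc =
    (volume : Measure (ℝ × ℝ)).restrict (Ioc 0 (2 * Real.pi) ×ˢ Ioc 0 (2 * Real.pi)) := by
  unfold mc
  rw [Measure.prod_restrict]
  rfl

theorem pair_cov_sin {Ψ : ℝ × ℝ → ℝ≥0∞} (hΨ : Measurable Ψ) :
    ∫⁻ p : ℝ × ℝ, Ψ (om p.1 + om p.2) * ENNReal.ofReal |Real.sin (p.1 - p.2)| ∂(mc.prod mc) ≤
      2 * ∫⁻ Z in {Z : ℝ × ℝ | sq Z < 4}, Ψ Z := by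
  obtain ⟨F, hF⟩ : ∃ F : ℝ × ℝ → ℝ≥0∞, F = fun p => Ψ (om p.1 + om p.2) *
    ENNReal.ofReal |Real.sin (p.1 - p.2)| := ⟨_, rfl⟩
  have hle : ∀ p ∈ Ioc 0 (2 * Real.pi) ×ˢ Ioc 0 (2 * Real.pi), F p ≤
      sg05_A.indicator F p + (Prod.swap ⁻¹' sg05_A).indicator F p := by
    intro p hp
    by_cases h0 : Real.sin (p.1 - p.2) = 0
    · have : F p = 0 := by rw [hF]; simp [h0]
      rw [this]
      exact zero_le
    · rcases lt_trichotomy p.1 p.2 with h | h | h
      · have hA : p ∈ sg05_A := ⟨hp.1, hp.2, h, h0⟩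
        rw [indicator_of_mem hA]
        exact le_self_add
      · exfalso
        apply h0
        rw [h]
        simp
      · have hA : p ∈ Prod.swap ⁻¹' sg05_A := by
          refine ⟨hp.2, hp.1, h, ?_⟩
          intro h1
          apply h0
          simp only [Prod.fst_swap, Prod.snd_swap] at h1
          rw [← neg_sub, Real.sin_neg, h1, neg_zero]
        rw [indicator_of_mem hA]
        exact le_add_self
  have hAm : MeasurableSet (Prod.swap ⁻¹' sg05_A : Set (ℝ × ℝ)) := measurable_swap sg05_measA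
  have hFm : Measurable F := by
    rw [hF]
    have h1 : Measurable fun p : ℝ × ℝ => om p.1 + om p.2 := by
      have : Continuous fun p : ℝ × ℝ => om p.1 + om p.2 := by fun_prop
      exact this.measurable
    have h2 : Measurable fun p : ℝ × ℝ => ENNReal.ofReal |Real.sin (p.1 - p.2)| := by
      have : Continuous fun p : ℝ × ℝ => |Real.sin (p.1 - p.2)| := by fun_prop
      exact ENNReal.measurable_ofReal.comp this.measurable
    exact (hΨ.comp h1).mul h2
  calc ∫⁻ p : ℝ × ℝ, Ψ (om p.1 + om p.2) * ENNReal.ofReal |Real.sin (p.1 - p.2)| ∂(mc.prod mc)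
      = ∫⁻ p in Ioc 0 (2 * Real.pi) ×ˢ Ioc 0 (2 * Real.pi), F p := by rw [sg05_mc, hF]
    _ ≤ ∫⁻ p in Ioc 0 (2 * Real.pi) ×ˢ Ioc 0 (2 * Real.pi),
          (sg05_A.indicator F p + (Prod.swap ⁻¹' sg05_A).indicator F p) :=
        setLIntegral_mono' (measurableSet_Ioc.prod measurableSet_Ioc) hle
    _ ≤ ∫⁻ p, (sg05_A.indicator F p + (Prod.swap ⁻¹' sg05_A).indicator F p) :=
        setLIntegral_le_lintegral _ _
    _ = (∫⁻ p in sg05_A, F p) + ∫⁻ p in Prod.swap ⁻¹' sg05_A, F p := by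
        rw [lintegral_add_left (hFm.indicator sg05_measA), lintegral_indicator sg05_measA,
          lintegral_indicator hAm]
    _ = 2 * ∫⁻ p in sg05_A, F p := by
        rw [hF, sg05_swap_half Ψ, two_mul]
    _ ≤ 2 * ∫⁻ Z in {Z : ℝ × ℝ | sq Z < 4}, Ψ Z := by
        rw [hF]
        exact mul_le_mul_right (sg05_half Ψ) 2

private lemma sg05_null : ∀ᵐ p : ℝ × ℝ ∂(mc.prod mc), Real.sin (p.1 - p.2) ≠ 0 := by
  have hm : MeasurableSet {p : ℝ × ℝ | Real.sin (p.1 - p.2) = 0} := by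
    have : Measurable fun p : ℝ × ℝ => Real.sin (p.1 - p.2) := by fun_prop
    exact this (measurableSet_singleton 0)
  have h : (mc.prod mc) {p : ℝ × ℝ | Real.sin (p.1 - p.2) = 0} = 0 := by
    rw [Measure.measure_prod_null hm]
    refine Eventually.of_forall fun x => ?_
    have hc : (Prod.mk x ⁻¹' {p : ℝ × ℝ | Real.sin (p.1 - p.2) = 0}).Countable := by
      refine (countable_range fun n : ℤ => x - n * Real.pi).mono ?_
      intro y hy
      have hy' : Real.sin (x - y) = 0 := hy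
      obtain ⟨n, hn⟩ := Real.sin_eq_zero_iff.1 hy'
      exact ⟨n, by simp only; linarith⟩
    have : mc (Prod.mk x ⁻¹' {p : ℝ × ℝ | Real.sin (p.1 - p.2) = 0}) = 0 := by
      unfold mc
      exact hc.measure_zero _
    exact this
  rw [ae_iff]
  simpa using h

theorem pair_cov {Ψ : ℝ × ℝ → ℝ≥0∞} (hΨ : Measurable Ψ) :
    ∫⁻ p : ℝ × ℝ, Ψ (om p.1 + om p.2) ∂(mc.prod mc) ≤ ∫⁻ Z, Ψ Z * kap Z := by
  have hk : Measurable fun Z : ℝ × ℝ =>
      ENNReal.ofReal (2 / Real.sqrt (sq Z * (4 - sq Z))) := by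
    have : Measurable fun Z : ℝ × ℝ => 2 / Real.sqrt (sq Z * (4 - sq Z)) := by
      have h1 : Measurable sq := continuous_sq.measurable
      fun_prop
    exact ENNReal.measurable_ofReal.comp this
  have h := pair_cov_sin (Ψ := fun Z => Ψ Z * ENNReal.ofReal (2 / Real.sqrt (sq Z * (4 - sq Z))))
    (hΨ.mul hk)
  have hS : MeasurableSet {Z : ℝ × ℝ | sq Z < 4} :=
    measurableSet_lt continuous_sq.measurable measurable_const
  calc ∫⁻ p : ℝ × ℝ, Ψ (om p.1 + om p.2) ∂(mc.prod mc)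
      = ∫⁻ p : ℝ × ℝ, Ψ (om p.1 + om p.2) * ENNReal.ofReal (2 / Real.sqrt
          (sq (om p.1 + om p.2) * (4 - sq (om p.1 + om p.2)))) *
          ENNReal.ofReal |Real.sin (p.1 - p.2)| ∂(mc.prod mc) := by
        refine lintegral_congr_ae ?_
        filter_upwards [sg05_null] with p hp
        have h1 : sq (om p.1 + om p.2) * (4 - sq (om p.1 + om p.2)) =
            (2 * |Real.sin (p.1 - p.2)|) ^ 2 := by
          have h2 : sq (om p.1 + om p.2) = 2 + 2 * Real.cos (p.1 - p.2) := sg05_sq p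
          rw [h2, mul_pow, sq_abs]
          have h3 := Real.sin_sq_add_cos_sq (p.1 - p.2)
          linear_combination (-4) * h3
        have h4 : 0 < |Real.sin (p.1 - p.2)| := abs_pos.2 hp
        rw [h1, Real.sqrt_sq (by positivity), mul_assoc,
          ← ENNReal.ofReal_mul (by positivity)]
        have h5 : 2 / (2 * |Real.sin (p.1 - p.2)|) * |Real.sin (p.1 - p.2)| = 1 := by
          field_simp
        rw [h5, ENNReal.ofReal_one, mul_one]
    _ ≤ 2 * ∫⁻ Z in {Z : ℝ × ℝ | sq Z < 4},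
          Ψ Z * ENNReal.ofReal (2 / Real.sqrt (sq Z * (4 - sq Z))) := h
    _ = ∫⁻ Z, Ψ Z * kap Z := by
        rw [← lintegral_const_mul' _ _ (by norm_num), ← lintegral_indicator hS]
        refine lintegral_congr fun Z => ?_
        by_cases hZ : sq Z < 4
        · rw [indicator_of_mem (show Z ∈ {Z : ℝ × ℝ | sq Z < 4} from hZ)]
          unfold kap
          rw [if_pos hZ, mul_left_comm]
          congr 1
          rw [← ENNReal.ofReal_ofNat 2, ← ENNReal.ofReal_mul (by norm_num)]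
          congr 1
          ring
        · rw [indicator_of_notMem (show Z ∉ {Z : ℝ × ℝ | sq Z < 4} from hZ)]
          unfold kap
          rw [if_neg hZ, mul_zero]

end Pool.Agent.Lib.MP_230119_an
end
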