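import Pool.Agent.Lib.MP_230119_an.SGDef2
import Pool.Agent.Lib.MP_230119_an.Mg.G013

section

set_option autoImplicit false

open MeasureTheory Set Filter Topology
open scoped ENNReal

namespace Pool.Agent.Lib.MP_230119_an

/-- rotation and reflection -/
lemma sg06_periodic (F : ℝ → ℝ≥0∞) (φ : ℝ) :
    ∫⁻ b in Ioc 0 (2 * Real.pi), F (Real.cos (b - φ)) =
      2 * ∫⁻ b in Ioo 0 Real.pi, F (Real.cos b) := by
  have hpi := Real.pi_pos
  have : Fact (0 < 2 * Real.pi) := ⟨by positivity⟩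
  have h1 : ∫⁻ b in Ioc 0 (2 * Real.pi), F (Real.cos (b - φ)) =
      ∫⁻ b in Ioc (-φ) (-φ + 2 * Real.pi), F (Real.cos b) := by
    have := (measurePreserving_sub_right (volume : Measure ℝ) φ).setLIntegral_comp_preimage_emb
      (MeasurableEquiv.subRight φ).measurableEmbedding (fun b => F (Real.cos b))
      (Ioc (-φ) (-φ + 2 * Real.pi))
    rw [← this]
    have e : (fun b : ℝ => b - φ) ⁻¹' Ioc (-φ) (-φ + 2 * Real.pi) = Ioc 0 (2 * Real.pi) := by
      ext b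
      simp only [mem_preimage, mem_Ioc]
      constructor <;> rintro ⟨a, c⟩ <;> constructor <;> linarith
    rw [e]
  let f : AddCircle (2 * Real.pi) → ℝ≥0∞ := fun x => F (Real.Angle.cos x)
  have hf : ∀ b : ℝ, f (b : AddCircle (2 * Real.pi)) = F (Real.cos b) := fun b => rfl
  have h2 : ∫⁻ b in Ioc (-φ) (-φ + 2 * Real.pi), F (Real.cos b) =
      ∫⁻ b in Ioc (-Real.pi) (-Real.pi + 2 * Real.pi), F (Real.cos b) := by
    have a1 := AddCircle.lintegral_preimage (2 * Real.pi) (-φ) f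
    have a2 := AddCircle.lintegral_preimage (2 * Real.pi) (-Real.pi) f
    simp only [hf] at a1 a2
    rw [a1, a2]
  rw [h1, h2, show -Real.pi + 2 * Real.pi = Real.pi by ring,
    ← Ioc_union_Ioc_eq_Ioc (by linarith : -Real.pi ≤ 0) hpi.le,
    lintegral_union measurableSet_Ioc (Set.disjoint_left.2 fun x hx hy => by
      simp only [mem_Ioc] at hx hy; linarith)]
  have h3 : ∫⁻ b in Ioc 0 Real.pi, F (Real.cos b) = ∫⁻ b in Ioo 0 Real.pi, F (Real.cos b) := by
    rw [Measure.restrict_congr_set Ioo_ae_eq_Ioc.symm]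
  have h4 : ∫⁻ b in Ioc (-Real.pi) 0, F (Real.cos b) = ∫⁻ b in Ioo 0 Real.pi, F (Real.cos b) := by
    rw [Measure.restrict_congr_set Ioo_ae_eq_Ioc.symm]
    have := (Measure.measurePreserving_neg (volume : Measure ℝ)).setLIntegral_comp_preimage_emb
      (MeasurableEquiv.neg ℝ).measurableEmbedding (fun b => F (Real.cos b)) (Ioo 0 Real.pi)
    rw [← this]
    have e : (Neg.neg : ℝ → ℝ) ⁻¹' Ioo 0 Real.pi = Ioo (-Real.pi) 0 := by
      ext b
      simp only [mem_preimage, mem_Ioo]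
      constructor <;> rintro ⟨a, c⟩ <;> constructor <;> linarith
    rw [e]
    simp only [Real.cos_neg]
  rw [h3, h4, two_mul]

/-- the kernel as a function of the cosine -/
noncomputable def sg06_K (r c : ℝ) : ℝ≥0∞ :=
  if r ^ 2 + 1 - 2 * r * c < 4 then
    ENNReal.ofReal (4 / Real.sqrt ((r ^ 2 + 1 - 2 * r * c) * (4 - (r ^ 2 + 1 - 2 * r * c)))) else 0

section half

variable {r : ℝ}

/-- parametrisation of the squared distance -/
noncomputable def sg06_q (r s : ℝ) : ℝ := ((r - 1) ^ 2 + 4 * s ^ 2) / (1 + s ^ 2)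

noncomputable def sg06_b (r s : ℝ) : ℝ := Real.arccos ((r ^ 2 + 1 - sg06_q r s) / (2 * r))

lemma sg06_C (h1 : 1 < r) (s : ℝ) :
    1 - ((r ^ 2 + 1 - sg06_q r s) / (2 * r)) ^ 2 =
      (4 * r + (r - 1) * (r + 3) * s ^ 2) * ((3 - r) * (r + 1)) * s ^ 2 /
        (4 * r ^ 2 * (1 + s ^ 2) ^ 2) := by
  have hr : r ≠ 0 := by linarith
  have hu : (1 + s ^ 2 : ℝ) ≠ 0 := by positivity
  unfold sg06_q
  field_simp
  ring

lemma sg06_four_sub (s : ℝ) : 4 - sg06_q r s = (3 - r) * (r + 1) / (1 + s ^ 2) := by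
  have hu : (1 + s ^ 2 : ℝ) ≠ 0 := by positivity
  unfold sg06_q
  field_simp
  ring

lemma sg06_q_deriv (s : ℝ) : HasDerivAt (sg06_q r) (2 * s * ((3 - r) * (r + 1)) / (1 + s ^ 2) ^ 2) s := by
  have hu : (1 + s ^ 2 : ℝ) ≠ 0 := by positivity
  have h1 : HasDerivAt (fun s : ℝ => (r - 1) ^ 2 + 4 * s ^ 2) (4 * (2 * s)) s := by
    simpa using ((hasDerivAt_pow 2 s).const_mul 4).const_add ((r - 1) ^ 2)
  have h2 : HasDerivAt (fun s : ℝ => 1 + s ^ 2) (2 * s) s := by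
    simpa using (hasDerivAt_pow 2 s).const_add 1
  have h3 := h1.div h2 hu
  refine h3.congr_deriv ?_
  field_simp
  ring

lemma sg06_C_pos (h1 : 1 < r) (h3 : r < 3) {s : ℝ} (hs : 0 < s) :
    0 < 1 - ((r ^ 2 + 1 - sg06_q r s) / (2 * r)) ^ 2 := by
  rw [sg06_C h1]
  have a1 : 0 < r - 1 := by linarith
  have a2 : 0 < 3 - r := by linarith
  have a3 : 0 < r := by linarith
  positivity

lemma sg06_b_deriv (h1 : 1 < r) (h3 : r < 3) {s : ℝ} (hs : 0 < s) :
    HasDerivAt (sg06_b r) (2 * Real.sqrt ((3 - r) * (r + 1)) /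
      ((1 + s ^ 2) * Real.sqrt (4 * r + (r - 1) * (r + 3) * s ^ 2))) s := by
  have hr : 0 < r := by linarith
  have a1 : 0 < r - 1 := by linarith
  have a2 : 0 < 3 - r := by linarith
  have hu : (0:ℝ) < 1 + s ^ 2 := by positivity
  set C := (r ^ 2 + 1 - sg06_q r s) / (2 * r) with hC
  have hCpos := sg06_C_pos h1 h3 hs
  rw [← hC] at hCpos
  have hC1 : C ≠ -1 := by rintro h; rw [h] at hCpos; norm_num at hCpos
  have hC2 : C ≠ 1 := by rintro h; rw [h] at hCpos; norm_num at hCpos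
  have hd1 : HasDerivAt (fun s => (r ^ 2 + 1 - sg06_q r s) / (2 * r))
      (-(2 * s * ((3 - r) * (r + 1)) / (1 + s ^ 2) ^ 2) / (2 * r)) s :=
    ((sg06_q_deriv s).const_sub (r ^ 2 + 1)).div_const (2 * r)
  have hd := (Real.hasDerivAt_arccos hC1 hC2).comp s hd1
  refine hd.congr_deriv ?_
  have hB : 0 < 4 * r + (r - 1) * (r + 3) * s ^ 2 := by positivity
  have hE : 0 < (3 - r) * (r + 1) := by positivity
  have hsq : Real.sqrt (1 - C ^ 2) = Real.sqrt (4 * r + (r - 1) * (r + 3) * s ^ 2) *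
      Real.sqrt ((3 - r) * (r + 1)) * s / (2 * r * (1 + s ^ 2)) := by
    rw [hC, sg06_C h1]
    rw [Real.sqrt_eq_iff_mul_self_eq (by positivity) (by positivity)]
    have e1 := Real.mul_self_sqrt hB.le
    have e2 := Real.mul_self_sqrt hE.le
    have : Real.sqrt (4 * r + (r - 1) * (r + 3) * s ^ 2) * Real.sqrt ((3 - r) * (r + 1)) * s /
        (2 * r * (1 + s ^ 2)) * (Real.sqrt (4 * r + (r - 1) * (r + 3) * s ^ 2) *
        Real.sqrt ((3 - r) * (r + 1)) * s / (2 * r * (1 + s ^ 2))) =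
        (Real.sqrt (4 * r + (r - 1) * (r + 3) * s ^ 2) *
          Real.sqrt (4 * r + (r - 1) * (r + 3) * s ^ 2)) *
        (Real.sqrt ((3 - r) * (r + 1)) * Real.sqrt ((3 - r) * (r + 1))) * s ^ 2 /
        (4 * r ^ 2 * (1 + s ^ 2) ^ 2) := by
      field_simp
      ring
    rw [this, e1, e2]
  rw [hsq]
  have e2 := Real.sq_sqrt hE.le
  have hsB : 0 < Real.sqrt (4 * r + (r - 1) * (r + 3) * s ^ 2) := Real.sqrt_pos.2 hB
  have hsE : 0 < Real.sqrt ((3 - r) * (r + 1)) := Real.sqrt_pos.2 hE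
  set sB := Real.sqrt (4 * r + (r - 1) * (r + 3) * s ^ 2)
  set sE := Real.sqrt ((3 - r) * (r + 1))
  rw [← e2]
  field_simp

lemma sg06_mem (h1 : 1 < r) (h3 : r < 3) {b : ℝ} (hb : b ∈ Ioo 0 Real.pi)
    (hq : r ^ 2 + 1 - 2 * r * Real.cos b < 4) : b ∈ sg06_b r '' Ioi 0 := by
  have hr : 0 < r := by linarith
  set q := r ^ 2 + 1 - 2 * r * Real.cos b with hqdef
  have hcos : Real.cos b < 1 := by
    have := Real.cos_lt_cos_of_nonneg_of_le_pi (le_refl 0) hb.2.le hb.1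
    rwa [Real.cos_zero] at this
  have hqe : 0 < q - (r - 1) ^ 2 := by
    rw [hqdef]
    nlinarith
  have h4 : 0 < 4 - q := by linarith
  refine ⟨Real.sqrt ((q - (r - 1) ^ 2) / (4 - q)), Real.sqrt_pos.2 (by positivity), ?_⟩
  have hq' : sg06_q r (Real.sqrt ((q - (r - 1) ^ 2) / (4 - q))) = q := by
    unfold sg06_q
    rw [Real.sq_sqrt (by positivity)]
    have h5 : (3 - r) * (r + 1) ≠ 0 := (mul_pos (by linarith) (by linarith)).ne'
    have h6 : (4 - q) + (q - (r - 1) ^ 2) = (3 - r) * (r + 1) := by ring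
    have h7 : 1 + (q - (r - 1) ^ 2) / (4 - q) = (3 - r) * (r + 1) / (4 - q) := by
      rw [← h6]
      field_simp
    have h8 : (r - 1) ^ 2 + 4 * ((q - (r - 1) ^ 2) / (4 - q)) =
        q * ((3 - r) * (r + 1) / (4 - q)) := by
      rw [← h6]
      field_simp
      ring
    rw [h7, h8, mul_div_assoc, div_self (div_ne_zero h5 h4.ne'), mul_one]
  unfold sg06_b
  rw [hq', hqdef]
  have : (r ^ 2 + 1 - (r ^ 2 + 1 - 2 * r * Real.cos b)) / (2 * r) = Real.cos b := by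
    field_simp
    ring
  rw [this, Real.arccos_cos hb.1.le hb.2.le]

lemma sg06_inj (h1 : 1 < r) (h3 : r < 3) : InjOn (sg06_b r) (Ioi 0) := by
  intro s hs t ht hst
  have hr : 0 < r := by linarith
  have key : ∀ u : ℝ, 0 < u → -1 ≤ (r ^ 2 + 1 - sg06_q r u) / (2 * r) ∧
      (r ^ 2 + 1 - sg06_q r u) / (2 * r) ≤ 1 := by
    intro u hu
    have := sg06_C_pos h1 h3 hu
    constructor <;> nlinarith
  have h := Real.arccos_injOn (key s hs) (key t ht) hst
  have h2 : sg06_q r s = sg06_q r t := by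
    rw [div_left_inj' (by positivity)] at h
    linarith
  have h4 : 4 - sg06_q r s = 4 - sg06_q r t := by rw [h2]
  rw [sg06_four_sub, sg06_four_sub] at h4
  have hE : (3 - r) * (r + 1) ≠ 0 := (mul_pos (by linarith) (by linarith)).ne'
  rw [div_eq_div_iff (by positivity) (by positivity)] at h4
  have h5 : (1 + t ^ 2) = 1 + s ^ 2 := mul_left_cancel₀ hE h4
  have hs' : 0 < s := hs
  have ht' : 0 < t := ht
  nlinarith

/-- the bound of the integrand -/
lemma sg06_integrand (h1 : 1 < r) (h3 : r < 3) {s : ℝ} (hs : 0 < s) {lam : ℝ} (hl : 0 < lam) :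
    ENNReal.ofReal |2 * Real.sqrt ((3 - r) * (r + 1)) /
      ((1 + s ^ 2) * Real.sqrt (4 * r + (r - 1) * (r + 3) * s ^ 2))| *
      sg06_K r (Real.cos (sg06_b r s)) ≤
    ENNReal.ofReal (4 * lam * (1 / (1 + s ^ 2)) +
      4 / lam * (1 / (4 * r * (r - 1) ^ 2 + 4 * (r - 1) * (r + 3) * s ^ 2))) := by
  have hr : 0 < r := by linarith
  have a1 : 0 < r - 1 := by linarith
  have a2 : 0 < 3 - r := by linarith
  have hu : (0:ℝ) < 1 + s ^ 2 := by positivity
  have hcpos := sg06_C_pos h1 h3 hs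
  have hcos : Real.cos (sg06_b r s) = (r ^ 2 + 1 - sg06_q r s) / (2 * r) := by
    unfold sg06_b
    rw [Real.cos_arccos] <;> nlinarith
  have hq : r ^ 2 + 1 - 2 * r * Real.cos (sg06_b r s) = sg06_q r s := by
    rw [hcos]
    field_simp
    ring
  have hE : 0 < (3 - r) * (r + 1) := by positivity
  have hB : 0 < 4 * r + (r - 1) * (r + 3) * s ^ 2 := by positivity
  have hA : 0 < (r - 1) ^ 2 + 4 * s ^ 2 := by positivity
  have h4 : 4 - sg06_q r s = (3 - r) * (r + 1) / (1 + s ^ 2) := sg06_four_sub s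
  have hlt : sg06_q r s < 4 := by
    have : 0 < 4 - sg06_q r s := by rw [h4]; positivity
    linarith
  unfold sg06_K
  rw [hq, if_pos hlt, ← ENNReal.ofReal_mul (abs_nonneg _)]
  refine ENNReal.ofReal_le_ofReal ?_
  rw [abs_of_nonneg (by positivity), h4]
  have hsB : 0 < Real.sqrt (4 * r + (r - 1) * (r + 3) * s ^ 2) := Real.sqrt_pos.2 hB
  have hsE : 0 < Real.sqrt ((3 - r) * (r + 1)) := Real.sqrt_pos.2 hE
  have hsA : 0 < Real.sqrt ((r - 1) ^ 2 + 4 * s ^ 2) := Real.sqrt_pos.2 hA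
  have e1 : Real.sqrt (sg06_q r s * ((3 - r) * (r + 1) / (1 + s ^ 2))) =
      Real.sqrt ((r - 1) ^ 2 + 4 * s ^ 2) * Real.sqrt ((3 - r) * (r + 1)) / (1 + s ^ 2) := by
    rw [Real.sqrt_eq_iff_mul_self_eq (by unfold sg06_q; positivity) (by positivity)]
    have f1 := Real.mul_self_sqrt hA.le
    have f2 := Real.mul_self_sqrt hE.le
    have : Real.sqrt ((r - 1) ^ 2 + 4 * s ^ 2) * Real.sqrt ((3 - r) * (r + 1)) / (1 + s ^ 2) *
      (Real.sqrt ((r - 1) ^ 2 + 4 * s ^ 2) * Real.sqrt ((3 - r) * (r + 1)) / (1 + s ^ 2)) =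
      (Real.sqrt ((r - 1) ^ 2 + 4 * s ^ 2) * Real.sqrt ((r - 1) ^ 2 + 4 * s ^ 2)) *
      (Real.sqrt ((3 - r) * (r + 1)) * Real.sqrt ((3 - r) * (r + 1))) / (1 + s ^ 2) ^ 2 := by
      field_simp
    rw [this, f1, f2]
    unfold sg06_q
    field_simp
  rw [e1]
  have e2 : 2 * Real.sqrt ((3 - r) * (r + 1)) /
      ((1 + s ^ 2) * Real.sqrt (4 * r + (r - 1) * (r + 3) * s ^ 2)) *
      (4 / (Real.sqrt ((r - 1) ^ 2 + 4 * s ^ 2) * Real.sqrt ((3 - r) * (r + 1)) / (1 + s ^ 2))) =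
      8 / (Real.sqrt ((r - 1) ^ 2 + 4 * s ^ 2) * Real.sqrt (4 * r + (r - 1) * (r + 3) * s ^ 2)) := by
    field_simp
    ring
  rw [e2]
  -- compare with the product
  set ell := 4 * r * (r - 1) ^ 2 + 4 * (r - 1) * (r + 3) * s ^ 2 with hell
  have hellp : 0 < ell := by positivity
  have hprod : (1 + s ^ 2) * ell ≤
      ((r - 1) ^ 2 + 4 * s ^ 2) * (4 * r + (r - 1) * (r + 3) * s ^ 2) := by
    have : ((r - 1) ^ 2 + 4 * s ^ 2) * (4 * r + (r - 1) * (r + 3) * s ^ 2) - (1 + s ^ 2) * ell =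
        (4 - (r - 1) ^ 2) ^ 2 * s ^ 2 := by rw [hell]; ring
    nlinarith [sq_nonneg ((4 - (r - 1) ^ 2) * s)]
  have e3 : Real.sqrt ((r - 1) ^ 2 + 4 * s ^ 2) * Real.sqrt (4 * r + (r - 1) * (r + 3) * s ^ 2) =
      Real.sqrt (((r - 1) ^ 2 + 4 * s ^ 2) * (4 * r + (r - 1) * (r + 3) * s ^ 2)) :=
    (Real.sqrt_mul hA.le _).symm
  rw [e3]
  have hpp : 0 < (1 + s ^ 2) * ell := by positivity
  calc 8 / Real.sqrt (((r - 1) ^ 2 + 4 * s ^ 2) * (4 * r + (r - 1) * (r + 3) * s ^ 2))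
      ≤ 8 / Real.sqrt ((1 + s ^ 2) * ell) := by
        apply div_le_div_of_nonneg_left (by norm_num) (Real.sqrt_pos.2 hpp)
        exact Real.sqrt_le_sqrt hprod
    _ ≤ 4 * lam * (1 / (1 + s ^ 2)) + 4 / lam * (1 / ell) := by
        have hx := Real.sq_sqrt hpp.le
        have hxp := Real.sqrt_pos.2 hpp
        set x := Real.sqrt ((1 + s ^ 2) * ell)
        have hk : 4 * lam * (1 / (1 + s ^ 2)) + 4 / lam * (1 / ell) =
            (4 * lam ^ 2 * ell + 4 * (1 + s ^ 2)) / (lam * ((1 + s ^ 2) * ell)) := by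
          field_simp
        rw [hk, ← hx, div_le_div_iff₀ hxp (by positivity)]
        -- 8 * (lam * x^2) ≤ (4 lam² ell + 4 u) x
        have hamgm : 8 * (lam * x) ≤ 4 * lam ^ 2 * ell + 4 * (1 + s ^ 2) := by
          have g1 : 0 ≤ lam ^ 2 * ell := by positivity
          have : (2 * (lam * x)) ^ 2 ≤ (lam ^ 2 * ell + (1 + s ^ 2)) ^ 2 := by
            have : (2 * (lam * x)) ^ 2 = 4 * (lam ^ 2 * ell) * (1 + s ^ 2) := by
              have : (2 * (lam * x)) ^ 2 = 4 * lam ^ 2 * x ^ 2 := by ring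
              rw [this, hx]; ring
            rw [this]
            nlinarith [sq_nonneg (lam ^ 2 * ell - (1 + s ^ 2))]
          have := le_of_sq_le_sq this (by positivity)
          linarith
        nlinarith [hamgm, hxp]

lemma sg06_G (h1 : 1 < r) {lam : ℝ} (hl : 0 < lam) :
    ∫⁻ s in Ioi (0:ℝ), ENNReal.ofReal (4 * lam * (1 / (1 + s ^ 2)) +
      4 / lam * (1 / (4 * r * (r - 1) ^ 2 + 4 * (r - 1) * (r + 3) * s ^ 2))) =
    ENNReal.ofReal (4 * lam * (Real.pi / 2) + 4 / lam * (1 /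
      Real.sqrt (16 * r * (r - 1) ^ 3 * (r + 3)) * (Real.pi / 2))) := by
  have hr : 0 < r := by linarith
  have a1 : 0 < r - 1 := by linarith
  set le := 4 * r * (r - 1) ^ 2 with hle
  set l4 := 4 * (r - 1) * (r + 3) with hl4
  have hlep : 0 < le := by positivity
  have hl4p : 0 < l4 := by positivity
  set k := Real.sqrt (l4 / le) with hk
  have hkp : 0 < k := Real.sqrt_pos.2 (by positivity)
  have hk2 : k ^ 2 = l4 / le := Real.sq_sqrt (by positivity)
  have hw : Real.sqrt (16 * r * (r - 1) ^ 3 * (r + 3)) = le * k := by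
    rw [Real.sqrt_eq_iff_mul_self_eq (by positivity) (by positivity)]
    have : le * k * (le * k) = le ^ 2 * k ^ 2 := by ring
    rw [this, hk2]
    field_simp
    rw [hle, hl4]
    ring
  rw [hw]
  set G : ℝ → ℝ := fun s => 4 * lam * Real.arctan s + 4 / lam * (1 / (le * k) * Real.arctan (k * s))
    with hG
  have hderiv : ∀ s ∈ Ici (0:ℝ), HasDerivAt G (4 * lam * (1 / (1 + s ^ 2)) +
      4 / lam * (1 / (le + l4 * s ^ 2))) s := by
    intro s _
    have d1 := (Real.hasDerivAt_arctan s).const_mul (4 * lam)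
    have d2 : HasDerivAt (fun s => Real.arctan (k * s)) (1 / (1 + (k * s) ^ 2) * k) s := by
      have := (Real.hasDerivAt_arctan (k * s)).comp s ((hasDerivAt_id s).const_mul k)
      simpa [Function.comp_def] using this
    have d3 := (d2.const_mul (1 / (le * k))).const_mul (4 / lam)
    refine (d1.add d3).congr_deriv ?_
    congr 1
    have : 1 + (k * s) ^ 2 = (le + l4 * s ^ 2) / le := by
      rw [mul_pow, hk2]
      field_simp
    rw [this]
    field_simp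
  have hpos : ∀ s ∈ Ioi (0:ℝ), 0 ≤ 4 * lam * (1 / (1 + s ^ 2)) +
      4 / lam * (1 / (le + l4 * s ^ 2)) := fun s _ => by positivity
  have hlim : Tendsto G atTop (𝓝 (4 * lam * (Real.pi / 2) +
      4 / lam * (1 / (le * k) * (Real.pi / 2)))) := by
    have t1 : Tendsto Real.arctan atTop (𝓝 (Real.pi / 2)) :=
      tendsto_nhds_of_tendsto_nhdsWithin Real.tendsto_arctan_atTop
    have t2 : Tendsto (fun s => Real.arctan (k * s)) atTop (𝓝 (Real.pi / 2)) :=
      t1.comp (tendsto_id.const_mul_atTop hkp)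
    exact (t1.const_mul _).add ((t2.const_mul _).const_mul _)
  have hint := integral_Ioi_of_hasDerivAt_of_nonneg' hderiv hpos hlim
  have hI := integrableOn_Ioi_deriv_of_nonneg' hderiv hpos hlim
  rw [← ofReal_integral_eq_lintegral_ofReal hI ((ae_restrict_mem measurableSet_Ioi).mono hpos),
    hint, hG]
  simp

lemma sg06_half (h1 : 1 < r) (h3 : r < 3) {lam : ℝ} (hl : 0 < lam) :
    ∫⁻ b in Ioo 0 Real.pi, sg06_K r (Real.cos b) ≤
    ENNReal.ofReal (4 * lam * (Real.pi / 2) + 4 / lam * (1 /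
      Real.sqrt (16 * r * (r - 1) ^ 3 * (r + 3)) * (Real.pi / 2))) := by
  rw [← sg06_G h1 hl]
  calc ∫⁻ b in Ioo 0 Real.pi, sg06_K r (Real.cos b)
      = ∫⁻ b, (Ioo 0 Real.pi).indicator (fun b => sg06_K r (Real.cos b)) b := by
        rw [lintegral_indicator measurableSet_Ioo]
    _ ≤ ∫⁻ b, (sg06_b r '' Ioi 0).indicator (fun b => sg06_K r (Real.cos b)) b := by
        refine lintegral_mono fun b => ?_
        by_cases hb : b ∈ Ioo 0 Real.pi
        · rw [indicator_of_mem hb]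
          by_cases hq : r ^ 2 + 1 - 2 * r * Real.cos b < 4
          · rw [indicator_of_mem (sg06_mem h1 h3 hb hq)]
          · simp only [sg06_K, if_neg hq]
            exact zero_le
        · rw [indicator_of_notMem hb]
          exact zero_le
    _ ≤ ∫⁻ b in sg06_b r '' Ioi 0, sg06_K r (Real.cos b) := lintegral_indicator_le _ _
    _ = ∫⁻ s in Ioi 0, ENNReal.ofReal |2 * Real.sqrt ((3 - r) * (r + 1)) /
      ((1 + s ^ 2) * Real.sqrt (4 * r + (r - 1) * (r + 3) * s ^ 2))| *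
      sg06_K r (Real.cos (sg06_b r s)) := by
        exact lintegral_image_eq_lintegral_abs_deriv_mul measurableSet_Ioi
          (fun s hs => (sg06_b_deriv h1 h3 hs).hasDerivWithinAt) (sg06_inj h1 h3) _
    _ ≤ _ := by
        refine setLIntegral_mono' measurableSet_Ioi fun s hs => ?_
        exact sg06_integrand h1 h3 hs hl

end half

theorem kap_bound (Y : ℝ × ℝ) :
    ENNReal.ofReal (sq Y - 1) * ∫⁻ b, kap (Y - om b) ∂mc ≤ ENNReal.ofReal pm := by
  rcases le_or_gt (sq Y) 1 with hY | hY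
  · rw [ENNReal.ofReal_of_nonpos (by linarith), zero_mul]
    exact zero_le
  set r := Real.sqrt (sq Y) with hr
  have hr2 : r ^ 2 = sq Y := Real.sq_sqrt (sq_nonneg' Y)
  have hr0 : 0 ≤ r := Real.sqrt_nonneg _
  have hr1 : 1 < r := by nlinarith
  -- polar angle
  obtain ⟨φ, hφ1, hφ2⟩ : ∃ φ : ℝ, Y.1 = r * Real.cos φ ∧ Y.2 = r * Real.sin φ := by
    refine ⟨Complex.arg ⟨Y.1, Y.2⟩, ?_, ?_⟩
    · have := Complex.norm_mul_cos_arg ⟨Y.1, Y.2⟩
      have hn : ‖(⟨Y.1, Y.2⟩ : ℂ)‖ = r := by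
        rw [hr, Complex.norm_def, Complex.normSq_mk]
        congr 1
        unfold sq
        ring
      rw [hn] at this
      exact this.symm
    · have := Complex.norm_mul_sin_arg ⟨Y.1, Y.2⟩
      have hn : ‖(⟨Y.1, Y.2⟩ : ℂ)‖ = r := by
        rw [hr, Complex.norm_def, Complex.normSq_mk]
        congr 1
        unfold sq
        ring
      rw [hn] at this
      exact this.symm
  have hsq : ∀ b, sq (Y - om b) = r ^ 2 + 1 - 2 * r * Real.cos (b - φ) := by
    intro b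
    unfold sq om
    simp only [Prod.fst_sub, Prod.snd_sub]
    rw [hφ1, hφ2, Real.cos_sub]
    nlinarith [Real.sin_sq_add_cos_sq φ, Real.sin_sq_add_cos_sq b]
  have hkap : ∀ b, kap (Y - om b) = sg06_K r (Real.cos (b - φ)) := by
    intro b
    unfold kap sg06_K
    rw [hsq b]
  simp only [hkap]
  unfold mc
  rw [sg06_periodic (sg06_K r) φ, ← hr2]
  rcases le_or_gt 3 r with h3 | h3
  · have hz : ∀ b, sg06_K r (Real.cos b) = 0 := by
      intro b
      unfold sg06_K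
      rw [if_neg]
      push Not
      nlinarith [Real.cos_le_one b]
    simp only [hz, lintegral_zero, mul_zero]
    exact zero_le
  · set P := 16 * r * (r - 1) ^ 3 * (r + 3) with hP
    have a1 : 0 < r - 1 := by linarith
    have hPp : 0 < P := by positivity
    set w := Real.sqrt P with hw
    have hwp : 0 < w := Real.sqrt_pos.2 hPp
    have hw2 : w ^ 2 = P := Real.sq_sqrt hPp.le
    set sw := Real.sqrt w with hsw
    have hswp : 0 < sw := Real.sqrt_pos.2 hwp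
    have hsw2 : sw ^ 2 = w := Real.sq_sqrt hwp.le
    have hh := sg06_half hr1 h3 (lam := 1 / sw) (by positivity)
    rw [← hP, ← hw] at hh
    have hval : 4 * (1 / sw) * (Real.pi / 2) + 4 / (1 / sw) * (1 / w * (Real.pi / 2)) =
        4 * Real.pi / sw := by
      rw [← hsw2]
      field_simp
      ring
    rw [hval] at hh
    calc ENNReal.ofReal (r ^ 2 - 1) * (2 * ∫⁻ b in Ioo 0 Real.pi, sg06_K r (Real.cos b))
        ≤ ENNReal.ofReal (r ^ 2 - 1) * (2 * ENNReal.ofReal (4 * Real.pi / sw)) := by gcongr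
      _ = ENNReal.ofReal ((r ^ 2 - 1) * (2 * (4 * Real.pi / sw))) := by
          rw [ENNReal.ofReal_mul (by nlinarith), ENNReal.ofReal_mul (by norm_num)]
          norm_num
      _ ≤ ENNReal.ofReal pm := by
          refine ENNReal.ofReal_le_ofReal ?_
          unfold pm
          have h3p : 0 < Real.sqrt 3 := Real.sqrt_pos.2 (by norm_num)
          have h32 : Real.sqrt 3 ^ 2 = 3 := Real.sq_sqrt (by norm_num)
          have hpoly : 9 * (r ^ 2 - 1) ^ 4 ≤ 16 * P := by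
            have e : 16 * P - 9 * (r ^ 2 - 1) ^ 4 = (r - 1) ^ 3 * ((3 - r) *
                (9 * r ^ 4 + 54 * r ^ 3 + 180 * r ^ 2 + 266 * r + 3)) := by
              rw [hP]; ring
            have : 0 ≤ (r - 1) ^ 3 * ((3 - r) *
                (9 * r ^ 4 + 54 * r ^ 3 + 180 * r ^ 2 + 266 * r + 3)) := by
              have : 0 < 3 - r := by linarith
              positivity
            linarith
          have h5 : 3 * (r ^ 2 - 1) ^ 2 ≤ 4 * w := by
            have : (3 * (r ^ 2 - 1) ^ 2) ^ 2 ≤ (4 * w) ^ 2 := by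
              have e1 : (3 * (r ^ 2 - 1) ^ 2) ^ 2 = 9 * (r ^ 2 - 1) ^ 4 := by ring
              have e2 : (4 * w) ^ 2 = 16 * P := by rw [mul_pow, hw2]; ring
              rw [e1, e2]
              exact hpoly
            exact le_of_sq_le_sq this (by positivity)
          have h6 : Real.sqrt 3 * (r ^ 2 - 1) ≤ 2 * sw := by
            have : (Real.sqrt 3 * (r ^ 2 - 1)) ^ 2 ≤ (2 * sw) ^ 2 := by
              rw [mul_pow, mul_pow, h32, hsw2]
              linarith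
            exact le_of_sq_le_sq this (by positivity)
          have h7 : (r ^ 2 - 1) * (2 * (4 * Real.pi / sw)) =
              8 * Real.pi * (r ^ 2 - 1) / sw := by
            ring
          rw [h7, div_le_div_iff₀ hswp h3p]
          have hpi := Real.pi_pos
          nlinarith [mul_le_mul_of_nonneg_left h6 hpi.le]

end Pool.Agent.Lib.MP_230119_an
end

section

set_option autoImplicit false

open MeasureTheory Set Filter Topology
open scoped ENNReal

namespace Pool.Agent.Lib.MP_230119_an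

private lemma sg07_measurable_kap : Measurable kap := by
  unfold kap
  refine Measurable.ite (measurableSet_lt continuous_sq.measurable measurable_const) ?_
    measurable_const
  have := continuous_sq.measurable
  fun_prop

theorem triple_density {R : ℝ} (hR : 0 < R) (Y : ℝ × ℝ) :
    ∫⁻ p : ℝ × ℝ × ℝ, ENNReal.ofReal (sq (om p.1 + om p.2.1 + om p.2.2) - 1) *
      ENNReal.ofReal (gk R (Y - (om p.1 + om p.2.1 + om p.2.2))) ∂(mc.prod (mc.prod mc)) ≤
      ENNReal.ofReal (2 * Real.pi * pm) := by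
  obtain ⟨F, hF⟩ : ∃ F : ℝ × ℝ → ℝ≥0∞, F = fun W =>
    ENNReal.ofReal (sq W - 1) * ENNReal.ofReal (gk R (Y - W)) := ⟨_, rfl⟩
  have hgk := (continuous_gk R).measurable
  have hsq := continuous_sq.measurable
  have hom := continuous_om.measurable
  have hFm : Measurable F := by
    rw [hF]; fun_prop
  have hkm := sg07_measurable_kap
  have h0 : ∫⁻ p : ℝ × ℝ × ℝ, ENNReal.ofReal (sq (om p.1 + om p.2.1 + om p.2.2) - 1) *
      ENNReal.ofReal (gk R (Y - (om p.1 + om p.2.1 + om p.2.2))) ∂(mc.prod (mc.prod mc)) =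
      ∫⁻ p : ℝ × ℝ × ℝ, F (om p.1 + om p.2.1 + om p.2.2) ∂(mc.prod (mc.prod mc)) := by
    rw [hF]
  rw [h0, lintegral_prod _ (by
    have : Measurable fun p : ℝ × ℝ × ℝ => F (om p.1 + om p.2.1 + om p.2.2) :=
      hFm.comp (by fun_prop)
    exact this.aemeasurable)]
  have h1 : ∀ b : ℝ, ∫⁻ q : ℝ × ℝ, F (om b + om q.1 + om q.2) ∂(mc.prod mc) ≤
      ∫⁻ W, F W * kap (W - om b) := by
    intro b
    have e1 := pair_cov (Ψ := fun Z => F (om b + Z)) (hFm.comp (by fun_prop))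
    have e2 := lintegral_sub_right_eq_self (μ := (volume : Measure (ℝ × ℝ)))
      (fun Z => F (om b + Z) * kap Z) (om b)
    calc ∫⁻ q : ℝ × ℝ, F (om b + om q.1 + om q.2) ∂(mc.prod mc)
        = ∫⁻ q : ℝ × ℝ, F (om b + (om q.1 + om q.2)) ∂(mc.prod mc) := by
          refine lintegral_congr fun q => ?_
          rw [add_assoc]
      _ ≤ ∫⁻ Z, F (om b + Z) * kap Z := e1
      _ = ∫⁻ W, F (om b + (W - om b)) * kap (W - om b) := e2.symm
      _ = ∫⁻ W, F W * kap (W - om b) := by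
          refine lintegral_congr fun W => ?_
          rw [add_sub_cancel]
  have h2 : ∀ W : ℝ × ℝ, F W * ∫⁻ b, kap (W - om b) ∂mc ≤
      ENNReal.ofReal pm * ENNReal.ofReal (gk R (Y - W)) := by
    intro W
    have e := kap_bound W
    calc F W * ∫⁻ b, kap (W - om b) ∂mc
        = (ENNReal.ofReal (sq W - 1) * ∫⁻ b, kap (W - om b) ∂mc) *
            ENNReal.ofReal (gk R (Y - W)) := by
          rw [hF]; ring
      _ ≤ _ := by gcongr
  calc ∫⁻ b, ∫⁻ q : ℝ × ℝ, F (om b + om q.1 + om q.2) ∂(mc.prod mc) ∂mc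
      ≤ ∫⁻ b, (∫⁻ W : ℝ × ℝ, F W * kap (W - om b)) ∂mc := lintegral_mono fun b => h1 b
    _ = ∫⁻ W, ∫⁻ b, F W * kap (W - om b) ∂mc := by
        refine lintegral_lintegral_swap ?_
        have : Measurable fun p : ℝ × (ℝ × ℝ) => F p.2 * kap (p.2 - om p.1) :=
          (hFm.comp measurable_snd).mul (hkm.comp (by fun_prop))
        exact this.aemeasurable
    _ = ∫⁻ W, F W * ∫⁻ b, kap (W - om b) ∂mc := by
        refine lintegral_congr fun W => ?_
        exact lintegral_const_mul _ (hkm.comp (by fun_prop))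
    _ ≤ ∫⁻ W, ENNReal.ofReal pm * ENNReal.ofReal (gk R (Y - W)) := lintegral_mono h2
    _ = ENNReal.ofReal pm * ∫⁻ W, ENNReal.ofReal (gk R (Y - W)) :=
        lintegral_const_mul _ (by fun_prop)
    _ = ENNReal.ofReal pm * ENNReal.ofReal (2 * Real.pi) := by
        rw [lintegral_sub_left_eq_self (fun W => ENNReal.ofReal (gk R W)) Y, lintegral_gk hR]
    _ = ENNReal.ofReal (2 * Real.pi * pm) := by
        rw [← ENNReal.ofReal_mul pm_pos.le, mul_comm]

end Pool.Agent.Lib.MP_230119_an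
end

section

set_option autoImplicit false

open MeasureTheory Set Filter Topology
open scoped ENNReal

namespace Pool.Agent.Lib.MP_230119_an

lemma sg08_ex_eq {S : Set ℝ} {h : ℝ → ℂ} (s : ∀ θ, θ ∉ S → h θ = 0)
    (x : ℝ × ℝ) : ex h x = ∫ θ, h θ * ph x (om θ) ∂(mc.restrict S) := by
  unfold ex tr
  rw [setIntegral_eq_integral_of_forall_compl_eq_zero]
  intro θ hθ
  rw [s θ hθ, zero_mul]

lemma sg08_tr_eq (μ : Measure ℝ) [SFinite μ] (h₁ h₂ h₃ : ℝ → ℂ) (x : ℝ × ℝ) :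
    tr (μ.prod (μ.prod μ)) (fun p => om p.1 + om p.2.1 + om p.2.2)
      (fun p => h₁ p.1 * (h₂ p.2.1 * h₃ p.2.2)) x =
      (∫ θ, h₁ θ * ph x (om θ) ∂μ) * ((∫ θ, h₂ θ * ph x (om θ) ∂μ) *
        (∫ θ, h₃ θ * ph x (om θ) ∂μ)) := by
  unfold tr
  rw [← integral_prod_mul (fun θ => h₂ θ * ph x (om θ)) (fun θ => h₃ θ * ph x (om θ)),
    ← integral_prod_mul (fun θ => h₁ θ * ph x (om θ))
      (fun q : ℝ × ℝ => (h₂ q.1 * ph x (om q.1)) * (h₃ q.2 * ph x (om q.2)))]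
  refine integral_congr_ae (Eventually.of_forall fun p => ?_)
  simp only [ph_add_right]
  ring

lemma sg08_meas : Measurable fun p : ℝ × ℝ × ℝ => om p.1 + om p.2.1 + om p.2.2 := by
  have := continuous_om
  exact (by fun_prop : Continuous fun p : ℝ × ℝ × ℝ => om p.1 + om p.2.1 + om p.2.2).measurable

theorem near_triple {S : Set ℝ} (hS : MeasurableSet S) {w : ℝ} (hw : 0 < w)
    (hc : ∀ a ∈ S, ∀ b ∈ S, ∀ c ∈ S, w ≤ sq (om a + om b + om c) - 1) {h₁ h₂ h₃ : ℝ → ℂ}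
    (m₁ : MemLp h₁ 2 mc) (m₂ : MemLp h₂ 2 mc) (m₃ : MemLp h₃ 2 mc)
    (s₁ : ∀ θ, θ ∉ S → h₁ θ = 0) (s₂ : ∀ θ, θ ∉ S → h₂ θ = 0) (s₃ : ∀ θ, θ ∉ S → h₃ θ = 0) :
    ∫⁻ x, (‖ex h₁ x‖ₑ * ‖ex h₂ x‖ₑ * ‖ex h₃ x‖ₑ) ^ 2 ≤
      ENNReal.ofReal ((2 * Real.pi) ^ 2 * (pm / w)) * (N2 h₁ * N2 h₂ * N2 h₃) := by
  set μ : Measure ℝ := mc.restrict S with hμ
  have i₁ : Integrable h₁ μ := (integrable_of_memLp m₁).restrict
  have i₂ : Integrable h₂ μ := (integrable_of_memLp m₂).restrict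
  have i₃ : Integrable h₃ μ := (integrable_of_memLp m₃).restrict
  have hH : Integrable (fun p : ℝ × ℝ × ℝ => h₁ p.1 * (h₂ p.2.1 * h₃ p.2.2))
      (μ.prod (μ.prod μ)) := i₁.mul_prod (i₂.mul_prod i₃)
  have hB : ∀ R : ℝ, 1 ≤ R → ∀ Y : ℝ × ℝ,
      ∫⁻ p : ℝ × ℝ × ℝ, ENNReal.ofReal (gk R (Y - (om p.1 + om p.2.1 + om p.2.2)))
        ∂(μ.prod (μ.prod μ)) ≤ ENNReal.ofReal (1 / w) * ENNReal.ofReal (2 * Real.pi * pm) := by
    intro R hR Y
    have hν : μ.prod (μ.prod μ) = (mc.prod (mc.prod mc)).restrict (S ×ˢ (S ×ˢ S)) := by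
      rw [hμ, Measure.prod_restrict, Measure.prod_restrict]
    rw [hν]
    calc ∫⁻ p : ℝ × ℝ × ℝ in S ×ˢ (S ×ˢ S),
          ENNReal.ofReal (gk R (Y - (om p.1 + om p.2.1 + om p.2.2))) ∂(mc.prod (mc.prod mc))
        ≤ ∫⁻ p : ℝ × ℝ × ℝ in S ×ˢ (S ×ˢ S), ENNReal.ofReal (1 / w) *
          (ENNReal.ofReal (sq (om p.1 + om p.2.1 + om p.2.2) - 1) *
            ENNReal.ofReal (gk R (Y - (om p.1 + om p.2.1 + om p.2.2))))
            ∂(mc.prod (mc.prod mc)) := by
          refine setLIntegral_mono' (hS.prod (hS.prod hS)) ?_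
          rintro ⟨a, b, c⟩ ⟨ha, hb, hcc⟩
          simp only at ha hb hcc ⊢
          have h1 := hc a ha b hb c hcc
          rw [← ENNReal.ofReal_mul (by linarith), ← ENNReal.ofReal_mul (by positivity)]
          refine ENNReal.ofReal_le_ofReal ?_
          have h2 : 1 ≤ 1 / w * (sq (om a + om b + om c) - 1) := by
            rw [one_div, inv_mul_eq_div, le_div_iff₀ hw]
            linarith
          have h3 := gk_nonneg R (Y - (om a + om b + om c))
          nlinarith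
      _ = ENNReal.ofReal (1 / w) * ∫⁻ p : ℝ × ℝ × ℝ in S ×ˢ (S ×ˢ S),
          (ENNReal.ofReal (sq (om p.1 + om p.2.1 + om p.2.2) - 1) *
            ENNReal.ofReal (gk R (Y - (om p.1 + om p.2.1 + om p.2.2))))
            ∂(mc.prod (mc.prod mc)) := by
          rw [lintegral_const_mul' _ _ ENNReal.ofReal_ne_top]
      _ ≤ ENNReal.ofReal (1 / w) * ENNReal.ofReal (2 * Real.pi * pm) := by
          gcongr
          exact (setLIntegral_le_lintegral _ _).trans (triple_density (by linarith) Y)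
  have key := tt_star (Φ := fun p : ℝ × ℝ × ℝ => om p.1 + om p.2.1 + om p.2.2)
    sg08_meas hH hB
  have hleft : ∀ x, ‖tr (μ.prod (μ.prod μ)) (fun p : ℝ × ℝ × ℝ => om p.1 + om p.2.1 + om p.2.2)
      (fun p : ℝ × ℝ × ℝ => h₁ p.1 * (h₂ p.2.1 * h₃ p.2.2)) x‖ₑ ^ 2 =
      (‖ex h₁ x‖ₑ * ‖ex h₂ x‖ₑ * ‖ex h₃ x‖ₑ) ^ 2 := by
    intro x
    rw [sg08_tr_eq, ← sg08_ex_eq s₁, ← sg08_ex_eq s₂, ← sg08_ex_eq s₃, enorm_mul, enorm_mul,
      mul_assoc]
  simp only [hleft] at key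
  refine key.trans ?_
  have hright : ∫⁻ p : ℝ × ℝ × ℝ, ‖h₁ p.1 * (h₂ p.2.1 * h₃ p.2.2)‖ₑ ^ 2 ∂(μ.prod (μ.prod μ)) ≤
      N2 h₁ * N2 h₂ * N2 h₃ := by
    have e1 : ∫⁻ p : ℝ × ℝ × ℝ, ‖h₁ p.1 * (h₂ p.2.1 * h₃ p.2.2)‖ₑ ^ 2 ∂(μ.prod (μ.prod μ)) =
        (∫⁻ θ, ‖h₁ θ‖ₑ ^ 2 ∂μ) * ((∫⁻ θ, ‖h₂ θ‖ₑ ^ 2 ∂μ) * (∫⁻ θ, ‖h₃ θ‖ₑ ^ 2 ∂μ)) := by
      have a₁ : AEMeasurable (fun θ => ‖h₁ θ‖ₑ ^ 2) μ := i₁.aestronglyMeasurable.enorm.pow_const 2
      have a₂ : AEMeasurable (fun θ => ‖h₂ θ‖ₑ ^ 2) μ := i₂.aestronglyMeasurable.enorm.pow_const 2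
      have a₃ : AEMeasurable (fun θ => ‖h₃ θ‖ₑ ^ 2) μ := i₃.aestronglyMeasurable.enorm.pow_const 2
      rw [← lintegral_prod_mul a₂ a₃]
      have a₂₃ : AEMeasurable (fun q : ℝ × ℝ => ‖h₂ q.1‖ₑ ^ 2 * ‖h₃ q.2‖ₑ ^ 2) (μ.prod μ) :=
        (a₂.comp_fst).mul (a₃.comp_snd)
      rw [← lintegral_prod_mul a₁ a₂₃]
      refine lintegral_congr fun p => ?_
      rw [enorm_mul, enorm_mul, mul_pow, mul_pow]
    rw [e1, ← mul_assoc]
    unfold N2
    gcongr <;> exact Measure.restrict_le_self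
  calc ENNReal.ofReal (2 * Real.pi) *
        (ENNReal.ofReal (1 / w) * ENNReal.ofReal (2 * Real.pi * pm)) *
        ∫⁻ p : ℝ × ℝ × ℝ, ‖h₁ p.1 * (h₂ p.2.1 * h₃ p.2.2)‖ₑ ^ 2 ∂(μ.prod (μ.prod μ))
      ≤ ENNReal.ofReal (2 * Real.pi) *
        (ENNReal.ofReal (1 / w) * ENNReal.ofReal (2 * Real.pi * pm)) *
        (N2 h₁ * N2 h₂ * N2 h₃) := by gcongr
    _ = _ := by
      congr 1
      have hpm := pm_pos
      rw [← ENNReal.ofReal_mul (by positivity), ← ENNReal.ofReal_mul (by positivity)]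
      congr 1
      field_simp

end Pool.Agent.Lib.MP_230119_an
end
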