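import Pool.Agent.Lib.MP_230119_an.Mg.G003
import Pool.Agent.Lib.MP_230119_an.Mg.G008
import Pool.Agent.Lib.MP_230119_an.Mg.G009
import Pool.Agent.Lib.MP_230119_an.Mg.G004
import Pool.Agent.Lib.MP_230119_an.Mg.G011
import Pool.Agent.Lib.MP_230119_an.SGDef2
import Pool.Agent.Lib.MP_230119_an.SG10
import Pool.Agent.Lib.MP_230119_an.STDef
import Pool.Agent.Lib.MP_230119_an.Mg.G013

section

/-!
# F2 on (0,8)
-/

set_option autoImplicit false

open Set Filter Topology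

namespace Pool.Agent.Lib.MP_230119_an.EX

theorem B05e_heads : hdL (derN 0 (FL2 ep)).1 = 0 ∧ hdL (derN 1 (FL2 ep)).1 = 0 ∧
    hdL (derN 2 (FL2 ep)).1 = 0 ∧ hdL (derN 0 (FL2 ep)).2 = 0 ∧ hdL (derN 1 (FL2 ep)).2 = 0 ∧
    hdL (derN 2 (FL2 ep)).2 = 160 * (hdL gp.2 - hdL gt.2) ∧
    hdL (derN 0 (FL2 em)).1 = 0 ∧ hdL (derN 1 (FL2 em)).1 = 0 ∧
    hdL (derN 2 (FL2 em)).1 = 0 ∧ hdL (derN 0 (FL2 em)).2 = 0 ∧ hdL (derN 1 (FL2 em)).2 = 0 ∧
    hdL (derN 2 (FL2 em)).2 = 160 * (hdL gm.2 - hdL gt.2) := by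
  decide +kernel

/-- derivatives of `N v0 + evl f/D` -/
theorem B05e_chain {α β D : ℝ} (h0 : (0 : ℝ) ∉ Ioo α β) {v : ℕ → ℝ → ℝ}
    (hv : ∀ j ≤ 2, ∀ x ∈ Ioo α β, HasDerivAt (v j) (v (j + 1) x) x) {f : List ℤ × List ℤ}
    (h1 : hdL (derN 0 f).1 = 0) (h2 : hdL (derN 1 f).1 = 0) (h3 : hdL (derN 2 f).1 = 0) :
    ∀ x ∈ Ioo α β,
      HasDerivAt (fun x => (80 * x ^ 2 - 10 * x ^ 3) * v 0 x + evl (derN 0 f) x / D)
        ((160 * x - 30 * x ^ 2) * v 0 x + (80 * x ^ 2 - 10 * x ^ 3) * v 1 x + evl (derN 1 f) x / D) x ∧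
      HasDerivAt (fun x => (160 * x - 30 * x ^ 2) * v 0 x + (80 * x ^ 2 - 10 * x ^ 3) * v 1 x
          + evl (derN 1 f) x / D)
        ((160 - 60 * x) * v 0 x + 2 * (160 * x - 30 * x ^ 2) * v 1 x
          + (80 * x ^ 2 - 10 * x ^ 3) * v 2 x + evl (derN 2 f) x / D) x ∧
      HasDerivAt (fun x => (160 - 60 * x) * v 0 x + 2 * (160 * x - 30 * x ^ 2) * v 1 x
          + (80 * x ^ 2 - 10 * x ^ 3) * v 2 x + evl (derN 2 f) x / D)
        (-60 * v 0 x + 3 * (160 - 60 * x) * v 1 x + 3 * (160 * x - 30 * x ^ 2) * v 2 x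
          + (80 * x ^ 2 - 10 * x ^ 3) * v 3 x + evl (derN 3 f) x / D) x := by
  intro x hx
  have hx0 : x ≠ 0 := fun h => h0 (h ▸ hx)
  have d0 := hv 0 (by norm_num) x hx
  have d1 := hv 1 (by norm_num) x hx
  have d2 := hv 2 (by norm_num) x hx
  have e0 := (hasDerivAt_evl (derN 0 f) h1 hx0).div_const D
  have e1 := (hasDerivAt_evl (derN 1 f) h2 hx0).div_const D
  have e2 := (hasDerivAt_evl (derN 2 f) h3 hx0).div_const D
  rw [← derN_succ] at e0 e1 e2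
  have hN : HasDerivAt (fun x : ℝ => 80 * x ^ 2 - 10 * x ^ 3) (160 * x - 30 * x ^ 2) x := by
    refine (((hasDerivAt_pow 2 x).const_mul 80).sub ((hasDerivAt_pow 3 x).const_mul 10)).congr_deriv ?_
    norm_num; ring
  have hN1 : HasDerivAt (fun x : ℝ => 160 * x - 30 * x ^ 2) (160 - 60 * x) x := by
    refine (((hasDerivAt_id x).const_mul 160).sub ((hasDerivAt_pow 2 x).const_mul 30)).congr_deriv ?_
    norm_num; ring
  have hN2 : HasDerivAt (fun x : ℝ => 160 - 60 * x) (-60) x := by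
    refine (((hasDerivAt_id x).const_mul 60).const_sub 160).congr_deriv ?_
    norm_num
  refine ⟨?_, ?_, ?_⟩
  · refine ((hN.mul d0).add e0).congr_deriv ?_
    ring
  · refine (((hN1.mul d0).add (hN.mul d1)).add e1).congr_deriv ?_
    ring
  · have h4 := ((hN2.mul d0).add ((hN1.const_mul 2).mul d1)).add (hN.mul d2)
    refine (h4.add e2).congr_deriv ?_
    ring

theorem B05e_eq (G : ℝ → ℝ) {g : List ℤ × List ℤ} {v0 : ℝ → ℝ}
    (h : ∀ x, v0 x = G x - evl g x / SC) (x : ℝ) :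
    FF2 G x = (80 * x ^ 2 - 10 * x ^ 3) * v0 x + evl (derN 0 (FL2 (addP g (smulP (-1) gt)))) x / SC := by
  have hs : (SC : ℝ) ≠ 0 := by norm_num [SC]
  show 10 * x ^ 2 * (8 - x) * (G x - tg x) = _
  have e1 : evl (derN 0 (FL2 (addP g (smulP (-1) gt)))) x
      = (80 * x ^ 2 - 10 * x ^ 3) * (evl g x - evl gt x) := by
    show evl (mulP NL (addP g (smulP (-1) gt))) x = _
    rw [evl_mulP, evl_addP, evl_smulP]
    simp only [NL, ev]
    push_cast
    ring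
  rw [e1, h, tg]
  field_simp
  ring

/-- limits -/
theorem B05e_lim {G : ℝ → ℝ} {L : ℝ}
    (hL : Tendsto (fun x => G x + Real.log |x|) (𝓝[≠] 0) (𝓝 L)) {g : List ℤ × List ℤ}
    (hg : hdL g.1 = -SC) : Tendsto (fun x => G x - evl g x / SC) (𝓝[≠] 0) (𝓝 (L - hdL g.2 / SC)) := by
  have hs : (SC : ℝ) ≠ 0 := by norm_num [SC]
  have h1 := (tendsto_evl_log g hg).div_const (SC : ℝ)
  refine (hL.sub h1).congr fun x => ?_
  field_simp
  ring

theorem B05e_term {P v κ C y : ℝ} (hκ : 0 ≤ κ) (hP : |P| ≤ κ * y) (hv : |v| * y ≤ C) :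
    |P * v| ≤ κ * C := by
  rw [abs_mul]
  calc |P| * |v| ≤ κ * y * |v| := mul_le_mul_of_nonneg_right hP (abs_nonneg v)
    _ = κ * (|v| * y) := by ring
    _ ≤ κ * C := mul_le_mul_of_nonneg_left hv hκ

/-- limits of products with bounded functions -/
theorem B05e_zero {l : Filter ℝ} {P v : ℝ → ℝ} {B : ℝ} (hP : Tendsto P l (𝓝 0))
    (hv : ∀ᶠ x in l, |v x| ≤ B) : Tendsto (fun x => P x * v x) l (𝓝 0) := by
  refine squeeze_zero_norm' (a := fun x => |P x| * B) ?_ ?_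
  · filter_upwards [hv] with x hx
    rw [Real.norm_eq_abs, abs_mul]
    exact mul_le_mul_of_nonneg_left hx (abs_nonneg _)
  · have := hP.abs.mul_const B
    simpa using this

theorem F2_pos {G u : ℝ → ℝ} (h : GF G u) {L : ℝ}
    (hL : Tendsto (fun x => G x + Real.log |x|) (𝓝[≠] 0) (𝓝 L)) :
    ∃ A1 A2 A3 : ℝ → ℝ,
      (∀ x ∈ Ioo (0 : ℝ) 8, HasDerivAt (FF2 G) (A1 x) x ∧ HasDerivAt A1 (A2 x) x ∧
        HasDerivAt A2 (A3 x) x ∧ |FF2 G x| ≤ 1 / 2 ∧ |A1 x| ≤ 1 ∧ |A2 x| ≤ 2 ∧ |A3 x| ≤ 5) ∧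
      Tendsto (FF2 G) (𝓝[>] 0) (𝓝 0) ∧ Tendsto A1 (𝓝[>] 0) (𝓝 0) ∧
      Tendsto A2 (𝓝[>] 0) (𝓝 (160 * (L - hdL gt.2 / SC))) := by
  obtain ⟨v, hv0, hvd, hvb⟩ := e2_pos h
  obtain ⟨p0, p1, p2, q0, q1, q2, _⟩ := B05e_heads
  have hs : (0 : ℝ) < (SC : ℝ) := by norm_num [SC]
  have hn0 : (0 : ℝ) ∉ Ioo (0 : ℝ) 8 := fun h => lt_irrefl _ h.1
  have hch := B05e_chain (D := SC) hn0 hvd (f := FL2 ep) p0 p1 p2
  have heq : FF2 G = fun x => (80 * x ^ 2 - 10 * x ^ 3) * v 0 x + evl (derN 0 (FL2 ep)) x / SC := by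
    funext x
    exact B05e_eq G hv0 x
  have c0 : (Cp 0 : ℝ) / SC = 7 / 50000 := by norm_num [Cp, SC]
  have c1 : (Cp 1 : ℝ) / SC = 9 / 25000 := by norm_num [Cp, SC]
  have c2 : (Cp 2 : ℝ) / SC = 23 / 10000 := by norm_num [Cp, SC]
  have c3 : (Cp 3 : ℝ) / SC = 37 / 1000 := by norm_num [Cp, SC]
  have b0 : ∀ x ∈ Ioo (0 : ℝ) 8, |v 0 x| * (1 : ℝ) ≤ 7 / 50000 := by
    intro x hx
    have := hvb 0 (by norm_num) x hx
    rw [c0] at this
    simpa using this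
  have b1 : ∀ x ∈ Ioo (0 : ℝ) 8, |v 1 x| * (1 + x) ≤ 9 / 25000 := by
    intro x hx
    have := hvb 1 (by norm_num) x hx
    rw [c1] at this
    simpa using this
  have b2 : ∀ x ∈ Ioo (0 : ℝ) 8, |v 2 x| * (1 + x) ^ 2 ≤ 23 / 10000 := by
    intro x hx
    have := hvb 2 (by norm_num) x hx
    rwa [c2] at this
  have b3 : ∀ x ∈ Ioo (0 : ℝ) 8, |v 3 x| * (1 + x) ^ 3 ≤ 37 / 1000 := by
    intro x hx
    have := hvb 3 (by norm_num) x hx
    rwa [c3] at this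
  have f0 : ∀ x ∈ Ioo (0 : ℝ) 8, |evl (derN 0 (FL2 ep)) x / SC| ≤ 3 / 10 := by
    intro x hx
    have h1 := chk_pos (f := derN 0 (FL2 ep)) c_fp20 (by norm_num) hx.1 hx.2.le
    rw [abs_div, abs_of_pos hs, div_le_iff₀ hs]
    refine h1.trans (le_of_eq ?_)
    norm_num [m_fp20, ev, SC]
  have f1 : ∀ x ∈ Ioo (0 : ℝ) 8, |evl (derN 1 (FL2 ep)) x / SC| ≤ 6 / 10 := by
    intro x hx
    have h1 := chk_pos (f := derN 1 (FL2 ep)) c_fp21 (by norm_num) hx.1 hx.2.le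
    rw [abs_div, abs_of_pos hs, div_le_iff₀ hs]
    refine h1.trans (le_of_eq ?_)
    norm_num [m_fp21, ev, SC]
  have f2 : ∀ x ∈ Ioo (0 : ℝ) 8, |evl (derN 2 (FL2 ep)) x / SC| ≤ 14 / 10 := by
    intro x hx
    have h1 := chk_pos (f := derN 2 (FL2 ep)) c_fp22 (by norm_num) hx.1 hx.2.le
    rw [abs_div, abs_of_pos hs, div_le_iff₀ hs]
    refine h1.trans (le_of_eq ?_)
    norm_num [m_fp22, ev, SC]
  have f3 : ∀ x ∈ Ioo (0 : ℝ) 8, |evl (derN 3 (FL2 ep)) x / SC| ≤ 42 / 10 := by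
    intro x hx
    have h1 := chk_pos (f := derN 3 (FL2 ep)) c_fp23 (by norm_num) hx.1 hx.2.le
    rw [abs_div, abs_of_pos hs, div_le_iff₀ hs]
    refine h1.trans (le_of_eq ?_)
    norm_num [m_fp23, ev, SC]
  have hIoo : Ioo (0 : ℝ) 8 ∈ 𝓝[>] (0 : ℝ) := Ioo_mem_nhdsGT (by norm_num)
  have lv0 : Tendsto (v 0) (𝓝[>] 0) (𝓝 (L - hdL gp.2 / SC)) := by
    have h1 := (B05e_lim hL (g := gp) heads.2.2.2.2.2.2.2.2.1).mono_left
      (nhdsWithin_mono 0 (fun x (hx : 0 < x) => hx.ne') : 𝓝[>] (0 : ℝ) ≤ 𝓝[≠] 0)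
    refine h1.congr fun x => ?_
    rw [hv0]
  have le0 : ∀ j, hdL (derN j (FL2 ep)).1 = 0 →
      Tendsto (fun x => evl (derN j (FL2 ep)) x / SC) (𝓝[>] 0) (𝓝 (hdL (derN j (FL2 ep)).2 / SC)) := by
    intro j hj
    exact ((tendsto_evl _ hj).mono_left
      (nhdsWithin_mono 0 (fun x (hx : 0 < x) => hx.ne') : 𝓝[>] (0 : ℝ) ≤ 𝓝[≠] 0)).div_const _
  have cont : ∀ (P : ℝ → ℝ), Continuous P → Tendsto P (𝓝[>] 0) (𝓝 (P 0)) := fun P hP =>
    hP.continuousAt.tendsto.mono_left nhdsWithin_le_nhds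
  have cont0 : ∀ (P : ℝ → ℝ), Continuous P → P 0 = 0 → Tendsto P (𝓝[>] 0) (𝓝 0) := fun P hP h0 => by
    have := cont P hP
    rwa [h0] at this
  have bv : ∀ j ≤ 3, ∃ B : ℝ, ∀ᶠ x in 𝓝[>] (0 : ℝ), |v j x| ≤ B := by
    intro j hj
    refine ⟨Cp j / SC, ?_⟩
    filter_upwards [hIoo] with x hx
    have h1 := hvb j hj x hx
    have h2 : (1 : ℝ) ≤ (1 + x) ^ j := one_le_pow₀ (by linarith [hx.1])
    nlinarith [abs_nonneg (v j x)]
  refine ⟨fun x => (160 * x - 30 * x ^ 2) * v 0 x + (80 * x ^ 2 - 10 * x ^ 3) * v 1 x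
      + evl (derN 1 (FL2 ep)) x / SC,
    fun x => (160 - 60 * x) * v 0 x + 2 * (160 * x - 30 * x ^ 2) * v 1 x
      + (80 * x ^ 2 - 10 * x ^ 3) * v 2 x + evl (derN 2 (FL2 ep)) x / SC,
    fun x => -60 * v 0 x + 3 * (160 - 60 * x) * v 1 x + 3 * (160 * x - 30 * x ^ 2) * v 2 x
      + (80 * x ^ 2 - 10 * x ^ 3) * v 3 x + evl (derN 3 (FL2 ep)) x / SC, ?_, ?_, ?_, ?_⟩
  rotate_left
  · rw [heq]
    have h1 := (cont (fun x => 80 * x ^ 2 - 10 * x ^ 3) (by fun_prop)).mul lv0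
    have h2 := h1.add (le0 0 p0)
    rw [q0] at h2
    simpa using h2
  · obtain ⟨B1, hB1⟩ := bv 1 (by norm_num)
    have h1 := (cont (fun x => 160 * x - 30 * x ^ 2) (by fun_prop)).mul lv0
    have h2 := B05e_zero (l := 𝓝[>] (0 : ℝ)) (P := fun x => 80 * x ^ 2 - 10 * x ^ 3)
      (cont0 (fun x => 80 * x ^ 2 - 10 * x ^ 3) (by fun_prop) (by norm_num)) hB1
    have h3 := (h1.add h2).add (le0 1 p1)
    rw [q1] at h3
    simpa using h3
  · obtain ⟨B1, hB1⟩ := bv 1 (by norm_num)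
    obtain ⟨B2, hB2⟩ := bv 2 (by norm_num)
    have h1 := (cont (fun x => 160 - 60 * x) (by fun_prop)).mul lv0
    have h2 := B05e_zero (l := 𝓝[>] (0 : ℝ)) (P := fun x => 2 * (160 * x - 30 * x ^ 2))
      (cont0 (fun x => 2 * (160 * x - 30 * x ^ 2)) (by fun_prop) (by norm_num)) hB1
    have h3 := B05e_zero (l := 𝓝[>] (0 : ℝ)) (P := fun x => 80 * x ^ 2 - 10 * x ^ 3)
      (cont0 (fun x => 80 * x ^ 2 - 10 * x ^ 3) (by fun_prop) (by norm_num)) hB2
    have h4 := ((h1.add h2).add h3).add (le0 2 p2)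
    rw [q2] at h4
    have e : (160 - 60 * (0 : ℝ)) * (L - (hdL gp.2 : ℝ) / SC) + 0 + 0
        + ((160 * (hdL gp.2 - hdL gt.2) : ℤ) : ℝ) / SC = 160 * (L - hdL gt.2 / SC) := by
      push_cast
      field_simp
      ring
    rw [← e]
    exact h4
  · intro x hx
    obtain ⟨h1, h2, h3⟩ := hch x hx
    obtain ⟨hx0, hx8⟩ := hx
    have hx' : x ∈ Ioo (0 : ℝ) 8 := ⟨hx0, hx8⟩
    have hN0 : 0 ≤ 80 * x ^ 2 - 10 * x ^ 3 := by nlinarith [mul_nonneg (sq_nonneg x) (sub_nonneg.2 hx8.le)]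
    refine ⟨by rw [heq]; exact h1, h2, h3, ?_, ?_, ?_, ?_⟩
    · rw [heq]
      have t1 := B05e_term (P := 80 * x ^ 2 - 10 * x ^ 3) (κ := 759) (by norm_num)
        (by rw [abs_of_nonneg hN0]; nlinarith [mul_nonneg (sq_nonneg (x - 16 / 3)) (by linarith : (0:ℝ) ≤ x + 8 / 3)]) (b0 x hx')
      have t2 := f0 x hx'
      have := abs_add_le ((80 * x ^ 2 - 10 * x ^ 3) * v 0 x) (evl (derN 0 (FL2 ep)) x / SC)
      simp only
      linarith
    · have t1 := B05e_term (P := 160 * x - 30 * x ^ 2) (κ := 640) (by norm_num)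
        (by rw [abs_le]; constructor <;> nlinarith) (b0 x hx')
      have t2 := B05e_term (P := 80 * x ^ 2 - 10 * x ^ 3) (κ := 130) (by norm_num)
        (by rw [abs_of_nonneg hN0]; nlinarith [mul_nonneg (sq_nonneg (x - 13 / 3)) (by linarith : (0:ℝ) ≤ x + 2 / 3)]) (b1 x hx')
      have t3 := f1 x hx'
      have t4 := abs_add_le ((160 * x - 30 * x ^ 2) * v 0 x + (80 * x ^ 2 - 10 * x ^ 3) * v 1 x)
        (evl (derN 1 (FL2 ep)) x / SC)
      have t5 := abs_add_le ((160 * x - 30 * x ^ 2) * v 0 x) ((80 * x ^ 2 - 10 * x ^ 3) * v 1 x)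
      linarith
    · have t1 := B05e_term (P := 160 - 60 * x) (κ := 320) (by norm_num)
        (by rw [abs_le]; constructor <;> linarith) (b0 x hx')
      have t2 := B05e_term (P := 2 * (160 * x - 30 * x ^ 2)) (κ := 143) (by norm_num)
        (by rw [abs_le]; constructor <;> nlinarith [sq_nonneg (x - 3 / 2), mul_nonneg hx0.le (sub_nonneg.2 hx8.le)]) (b1 x hx')
      have t3 := B05e_term (P := 80 * x ^ 2 - 10 * x ^ 3) (κ := 29) (by norm_num)
        (by rw [abs_of_nonneg hN0]; nlinarith [mul_nonneg (sq_nonneg (x - 2.678)) hx0.le, sq_nonneg (x - 2.678)]) (b2 x hx')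
      have t4 := f2 x hx'
      have t5 := abs_add_le ((160 - 60 * x) * v 0 x + 2 * (160 * x - 30 * x ^ 2) * v 1 x
          + (80 * x ^ 2 - 10 * x ^ 3) * v 2 x) (evl (derN 2 (FL2 ep)) x / SC)
      have t6 := abs_add_le ((160 - 60 * x) * v 0 x + 2 * (160 * x - 30 * x ^ 2) * v 1 x)
        ((80 * x ^ 2 - 10 * x ^ 3) * v 2 x)
      have t7 := abs_add_le ((160 - 60 * x) * v 0 x) (2 * (160 * x - 30 * x ^ 2) * v 1 x)
      linarith
    · have t1 := B05e_term (P := (-60 : ℝ)) (κ := 60) (y := 1) (by norm_num) (by norm_num) (b0 x hx')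
      have t2 := B05e_term (P := 3 * (160 - 60 * x)) (κ := 480) (by norm_num)
        (by rw [abs_le]; constructor <;> nlinarith) (b1 x hx')
      have t3 := B05e_term (P := 3 * (160 * x - 30 * x ^ 2)) (κ := 102) (by norm_num)
        (by rw [abs_le]; constructor <;> nlinarith [sq_nonneg (x - 23 / 32)]) (b2 x hx')
      have t4 := B05e_term (P := 80 * x ^ 2 - 10 * x ^ 3) (κ := 47 / 5) (by norm_num)
        (by rw [abs_of_nonneg hN0]; nlinarith [mul_nonneg (sq_nonneg (x - 1.43)) hx0.le, sq_nonneg (x - 1.43)]) (b3 x hx')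
      have t5 := f3 x hx'
      have t6 := abs_add_le (-60 * v 0 x + 3 * (160 - 60 * x) * v 1 x
          + 3 * (160 * x - 30 * x ^ 2) * v 2 x + (80 * x ^ 2 - 10 * x ^ 3) * v 3 x)
        (evl (derN 3 (FL2 ep)) x / SC)
      have t7 := abs_add_le (-60 * v 0 x + 3 * (160 - 60 * x) * v 1 x
          + 3 * (160 * x - 30 * x ^ 2) * v 2 x) ((80 * x ^ 2 - 10 * x ^ 3) * v 3 x)
      have t8 := abs_add_le (-60 * v 0 x + 3 * (160 - 60 * x) * v 1 x)
        (3 * (160 * x - 30 * x ^ 2) * v 2 x)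
      have t9 := abs_add_le (-60 * v 0 x) (3 * (160 - 60 * x) * v 1 x)
      linarith

end Pool.Agent.Lib.MP_230119_an.EX
end

section

/-!
# F1 on (0,8)
-/

set_option autoImplicit false

open Set Filter Topology

namespace Pool.Agent.Lib.MP_230119_an.EX

theorem B05c_heads : hdL (derN 0 (FL1 ep)).1 = 0 ∧ hdL (derN 1 (FL1 ep)).1 = 0 ∧
    hdL (derN 2 (FL1 ep)).1 = 0 ∧ hdL (derN 0 (FL1 ep)).2 = 0 ∧ hdL (derN 1 (FL1 ep)).2 = 0 ∧
    hdL (derN 2 (FL1 ep)).2 = 1120 * LI * (hdL gp.2 - hdL gt.2) ∧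
    hdL (derN 0 (FL1 em)).1 = 0 ∧ hdL (derN 1 (FL1 em)).1 = 0 ∧
    hdL (derN 2 (FL1 em)).1 = 0 ∧ hdL (derN 0 (FL1 em)).2 = 0 ∧ hdL (derN 1 (FL1 em)).2 = 0 ∧
    hdL (derN 2 (FL1 em)).2 = 1120 * LI * (hdL gm.2 - hdL gt.2) := by
  decide +kernel

/-- derivatives of `M1 v0 + M2 e + evl f/D` -/
theorem B05c_chain {α β D : ℝ} (h0 : (0 : ℝ) ∉ Ioo α β) {v : ℕ → ℝ → ℝ}
    (hv : ∀ j ≤ 2, ∀ x ∈ Ioo α β, HasDerivAt (v j) (v (j + 1) x) x) {e : ℝ → ℝ}
    (he : ∀ x ∈ Ioo α β, HasDerivAt e ((2 - x) * v 0 x) x) {f : List ℤ × List ℤ}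
    (h1 : hdL (derN 0 f).1 = 0) (h2 : hdL (derN 1 f).1 = 0) (h3 : hdL (derN 2 f).1 = 0) :
    ∀ x ∈ Ioo α β,
      HasDerivAt (fun x => (560 * x ^ 2 - 90 * x ^ 3 + 15 * x ^ 4 - x ^ 5) * v 0 x
          + (40 * x ^ 2 - 5 * x ^ 3) * e x + evl (derN 0 f) x / D)
        ((1120 * x - 190 * x ^ 2 + 10 * x ^ 3) * v 0 x
          + (560 * x ^ 2 - 90 * x ^ 3 + 15 * x ^ 4 - x ^ 5) * v 1 x
          + (80 * x - 15 * x ^ 2) * e x + evl (derN 1 f) x / D) x ∧
      HasDerivAt (fun x => (1120 * x - 190 * x ^ 2 + 10 * x ^ 3) * v 0 x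
          + (560 * x ^ 2 - 90 * x ^ 3 + 15 * x ^ 4 - x ^ 5) * v 1 x
          + (80 * x - 15 * x ^ 2) * e x + evl (derN 1 f) x / D)
        ((1120 - 220 * x - 80 * x ^ 2 + 15 * x ^ 3) * v 0 x
          + (2240 * x - 460 * x ^ 2 + 70 * x ^ 3 - 5 * x ^ 4) * v 1 x
          + (560 * x ^ 2 - 90 * x ^ 3 + 15 * x ^ 4 - x ^ 5) * v 2 x
          + (80 - 30 * x) * e x + evl (derN 2 f) x / D) x ∧
      HasDerivAt (fun x => (1120 - 220 * x - 80 * x ^ 2 + 15 * x ^ 3) * v 0 x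
          + (2240 * x - 460 * x ^ 2 + 70 * x ^ 3 - 5 * x ^ 4) * v 1 x
          + (560 * x ^ 2 - 90 * x ^ 3 + 15 * x ^ 4 - x ^ 5) * v 2 x
          + (80 - 30 * x) * e x + evl (derN 2 f) x / D)
        ((-60 - 300 * x + 75 * x ^ 2) * v 0 x
          + (3360 - 1140 * x + 130 * x ^ 2 - 5 * x ^ 3) * v 1 x
          + (3360 * x - 730 * x ^ 2 + 130 * x ^ 3 - 10 * x ^ 4) * v 2 x
          + (560 * x ^ 2 - 90 * x ^ 3 + 15 * x ^ 4 - x ^ 5) * v 3 x
          + -30 * e x + evl (derN 3 f) x / D) x := by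
  intro x hx
  have hx0 : x ≠ 0 := fun h => h0 (h ▸ hx)
  have d0 := hv 0 (by norm_num) x hx
  have d1 := hv 1 (by norm_num) x hx
  have d2 := hv 2 (by norm_num) x hx
  have de := he x hx
  have e0 := (hasDerivAt_evl (derN 0 f) h1 hx0).div_const D
  have e1 := (hasDerivAt_evl (derN 1 f) h2 hx0).div_const D
  have e2 := (hasDerivAt_evl (derN 2 f) h3 hx0).div_const D
  rw [← derN_succ] at e0 e1 e2
  have q2 := hasDerivAt_pow 2 x
  have q3 := hasDerivAt_pow 3 x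
  have q4 := hasDerivAt_pow 4 x
  have q5 := hasDerivAt_pow 5 x
  have qi := hasDerivAt_id x
  have hM1 : HasDerivAt (fun x : ℝ => 560 * x ^ 2 - 90 * x ^ 3 + 15 * x ^ 4 - x ^ 5)
      (1120 * x - 270 * x ^ 2 + 60 * x ^ 3 - 5 * x ^ 4) x := by
    refine ((((q2.const_mul 560).sub (q3.const_mul 90)).add (q4.const_mul 15)).sub q5).congr_deriv ?_
    norm_num; ring
  have hM2 : HasDerivAt (fun x : ℝ => 40 * x ^ 2 - 5 * x ^ 3) (80 * x - 15 * x ^ 2) x := by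
    refine ((q2.const_mul 40).sub (q3.const_mul 5)).congr_deriv ?_
    norm_num; ring
  have hM2' : HasDerivAt (fun x : ℝ => 80 * x - 15 * x ^ 2) (80 - 30 * x) x := by
    refine ((qi.const_mul 80).sub (q2.const_mul 15)).congr_deriv ?_
    norm_num; ring
  have hM2'' : HasDerivAt (fun x : ℝ => 80 - 30 * x) (-30) x := by
    refine ((qi.const_mul 30).const_sub 80).congr_deriv ?_
    norm_num
  have h10 : HasDerivAt (fun x : ℝ => 1120 * x - 190 * x ^ 2 + 10 * x ^ 3)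
      (1120 - 380 * x + 30 * x ^ 2) x := by
    refine (((qi.const_mul 1120).sub (q2.const_mul 190)).add (q3.const_mul 10)).congr_deriv ?_
    norm_num; ring
  have h20 : HasDerivAt (fun x : ℝ => 1120 - 220 * x - 80 * x ^ 2 + 15 * x ^ 3)
      (-220 - 160 * x + 45 * x ^ 2) x := by
    refine ((((qi.const_mul 220).const_sub 1120).sub (q2.const_mul 80)).add
      (q3.const_mul 15)).congr_deriv ?_
    norm_num; ring
  have h21 : HasDerivAt (fun x : ℝ => 2240 * x - 460 * x ^ 2 + 70 * x ^ 3 - 5 * x ^ 4)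
      (2240 - 920 * x + 210 * x ^ 2 - 20 * x ^ 3) x := by
    refine ((((qi.const_mul 2240).sub (q2.const_mul 460)).add (q3.const_mul 70)).sub
      (q4.const_mul 5)).congr_deriv ?_
    norm_num; ring
  refine ⟨?_, ?_, ?_⟩
  · refine (((hM1.mul d0).add (hM2.mul de)).add e0).congr_deriv ?_
    ring
  · refine ((((h10.mul d0).add (hM1.mul d1)).add (hM2'.mul de)).add e1).congr_deriv ?_
    ring
  · refine (((((h20.mul d0).add (h21.mul d1)).add (hM1.mul d2)).add (hM2''.mul de)).add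
      e2).congr_deriv ?_
    ring

theorem B05c_eq (G u : ℝ → ℝ) {g : List ℤ × List ℤ} {v0 e : ℝ → ℝ}
    (h : ∀ x, v0 x = G x - evl g x / SC) (he : ∀ x, e x = u x - 8 - evl (intP g) x / (SC * LI))
    (h1 : eqL (intP (addP g (smulP (-1) gt))).1 (addP (intP g) (smulP (-1) (intP gt))).1 = true)
    (h2 : eqL (intP (addP g (smulP (-1) gt))).2 (addP (intP g) (smulP (-1) (intP gt))).2 = true)
    (x : ℝ) :
    FF1 G u x = (560 * x ^ 2 - 90 * x ^ 3 + 15 * x ^ 4 - x ^ 5) * v0 x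
      + (40 * x ^ 2 - 5 * x ^ 3) * e x
      + evl (derN 0 (FL1 (addP g (smulP (-1) gt)))) x / (SC * LI) := by
  have hs : (SC : ℝ) ≠ 0 := B05b_SC.ne'
  have hl : (LI : ℝ) ≠ 0 := B05b_LI.ne'
  have hi : intP (addP g (smulP (-1) gt)) = addP (intP g) (smulP (-1) (intP gt)) :=
    Prod.ext (eqL_sound _ _ h1) (eqL_sound _ _ h2)
  show x ^ 2 * (560 - 90 * x + 15 * x ^ 2 - x ^ 3) * (G x - tg x)
    + 5 * x ^ 2 * (8 - x) * (u x - tu x) = _
  have m1 : ev M1L x = 560 * x ^ 2 - 90 * x ^ 3 + 15 * x ^ 4 - x ^ 5 := by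
    simp only [M1L, ev]
    push_cast
    ring
  have m2 : ev M2L x = 40 * x ^ 2 - 5 * x ^ 3 := by
    simp only [M2L, ev]
    push_cast
    ring
  have e1 : evl (derN 0 (FL1 (addP g (smulP (-1) gt)))) x
      = LI * ((560 * x ^ 2 - 90 * x ^ 3 + 15 * x ^ 4 - x ^ 5) * (evl g x - evl gt x))
        + (40 * x ^ 2 - 5 * x ^ 3) * (evl (intP g) x - evl (intP gt) x) := by
    show evl (addP (smulP LI (mulP M1L (addP g (smulP (-1) gt))))
      (mulP M2L (intP (addP g (smulP (-1) gt))))) x = _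
    rw [hi, evl_addP, evl_smulP, evl_mulP, evl_mulP, evl_addP, evl_smulP, evl_addP, evl_smulP,
      m1, m2]
    push_cast
    ring
  rw [e1, h, he, tg, tu]
  field_simp
  ring

/-- a polynomial bound -/
theorem B05c_pol (P M : List ℤ) (h : chkAll 10 10 10 13 [] P M = true) {x : ℝ}
    (hx : x ∈ Ioo (0 : ℝ) 8) : |ev P x| ≤ ev M x := by
  have h1 := chk_pos (f := ([], P)) h (by norm_num) hx.1 hx.2.le
  simpa [evl, ev] using h1

theorem B05c_m1 {x : ℝ} (hx : x ∈ Ioo (0 : ℝ) 8) :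
    |560 * x ^ 2 - 90 * x ^ 3 + 15 * x ^ 4 - x ^ 5| ≤ 2049 * (1 + x) := by
  have h := B05c_pol [0, 0, 560, -90, 15, -1] [2049, 2049] (by decide +kernel) hx
  simp only [ev] at h
  push_cast at h
  ring_nf at h ⊢
  exact h

theorem B05c_m1b {x : ℝ} (hx : x ∈ Ioo (0 : ℝ) 8) :
    |560 * x ^ 2 - 90 * x ^ 3 + 15 * x ^ 4 - x ^ 5| ≤ 253 * (1 + x) ^ 2 := by
  have h := B05c_pol [0, 0, 560, -90, 15, -1] [253, 506, 253] (by decide +kernel) hx
  simp only [ev] at h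
  push_cast at h
  ring_nf at h ⊢
  exact h

theorem B05c_m1c {x : ℝ} (hx : x ∈ Ioo (0 : ℝ) 8) :
    |560 * x ^ 2 - 90 * x ^ 3 + 15 * x ^ 4 - x ^ 5| ≤ 66 * (1 + x) ^ 3 := by
  have h := B05c_pol [0, 0, 560, -90, 15, -1] [66, 198, 198, 66] (by decide +kernel) hx
  simp only [ev] at h
  push_cast at h
  ring_nf at h ⊢
  exact h

theorem B05c_p10 {x : ℝ} (hx : x ∈ Ioo (0 : ℝ) 8) :
    |1120 * x - 190 * x ^ 2 + 10 * x ^ 3| ≤ 2110 * 1 := by
  have h := B05c_pol [0, 1120, -190, 10] [2110] (by decide +kernel) hx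
  simp only [ev] at h
  push_cast at h
  ring_nf at h ⊢
  exact h

theorem B05c_p20 {x : ℝ} (hx : x ∈ Ioo (0 : ℝ) 8) :
    |1120 - 220 * x - 80 * x ^ 2 + 15 * x ^ 3| ≤ 1921 * 1 := by
  have h := B05c_pol [1120, -220, -80, 15] [1921] (by decide +kernel) hx
  simp only [ev] at h
  push_cast at h
  ring_nf at h ⊢
  exact h

theorem B05c_p21 {x : ℝ} (hx : x ∈ Ioo (0 : ℝ) 8) :
    |2240 * x - 460 * x ^ 2 + 70 * x ^ 3 - 5 * x ^ 4| ≤ 1042 * (1 + x) := by
  have h := B05c_pol [0, 2240, -460, 70, -5] [1042, 1042] (by decide +kernel) hx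
  simp only [ev] at h
  push_cast at h
  ring_nf at h ⊢
  exact h

theorem B05c_p30 {x : ℝ} (hx : x ∈ Ioo (0 : ℝ) 8) :
    |-60 - 300 * x + 75 * x ^ 2| ≤ 2341 * 1 := by
  have h := B05c_pol [-60, -300, 75] [2341] (by decide +kernel) hx
  simp only [ev] at h
  push_cast at h
  ring_nf at h ⊢
  exact h

theorem B05c_p31 {x : ℝ} (hx : x ∈ Ioo (0 : ℝ) 8) :
    |3360 - 1140 * x + 130 * x ^ 2 - 5 * x ^ 3| ≤ 3361 * (1 + x) := by
  have h := B05c_pol [3360, -1140, 130, -5] [3361, 3361] (by decide +kernel) hx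
  simp only [ev] at h
  push_cast at h
  ring_nf at h ⊢
  exact h

theorem B05c_p32 {x : ℝ} (hx : x ∈ Ioo (0 : ℝ) 8) :
    |3360 * x - 730 * x ^ 2 + 130 * x ^ 3 - 10 * x ^ 4| ≤ 707 * (1 + x) ^ 2 := by
  have h := B05c_pol [0, 3360, -730, 130, -10] [707, 1414, 707] (by decide +kernel) hx
  simp only [ev] at h
  push_cast at h
  ring_nf at h ⊢
  exact h

/-- triangle inequalities -/
theorem B05c_tri4 (a b c d : ℝ) : |a + b + c + d| ≤ |a| + |b| + |c| + |d| := by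
  have h1 := abs_add_le (a + b + c) d
  have h2 := abs_add_le (a + b) c
  have h3 := abs_add_le a b
  linarith

theorem B05c_tri5 (a b c d e : ℝ) : |a + b + c + d + e| ≤ |a| + |b| + |c| + |d| + |e| := by
  have h1 := abs_add_le (a + b + c + d) e
  have h2 := B05c_tri4 a b c d
  linarith

theorem B05c_tri6 (a b c d e f : ℝ) :
    |a + b + c + d + e + f| ≤ |a| + |b| + |c| + |d| + |e| + |f| := by
  have h1 := abs_add_le (a + b + c + d + e) f
  have h2 := B05c_tri5 a b c d e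
  linarith

theorem F1_pos {G u : ℝ → ℝ} (h : GF G u) {L : ℝ}
    (hL : Tendsto (fun x => G x + Real.log |x|) (𝓝[≠] 0) (𝓝 L)) :
    ∃ A1 A2 A3 : ℝ → ℝ,
      (∀ x ∈ Ioo (0 : ℝ) 8, HasDerivAt (FF1 G u) (A1 x) x ∧ HasDerivAt A1 (A2 x) x ∧
        HasDerivAt A2 (A3 x) x ∧ |A1 x| ≤ 10 ∧ |A2 x| ≤ 14 ∧ |A3 x| ≤ 35) ∧
      Tendsto (FF1 G u) (𝓝[>] 0) (𝓝 0) ∧ Tendsto A1 (𝓝[>] 0) (𝓝 0) ∧
      Tendsto A2 (𝓝[>] 0) (𝓝 (1120 * (L - hdL gt.2 / SC))) := by
  obtain ⟨v, hv0, hvd, hvb⟩ := e2_pos h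
  obtain ⟨ed, el, eb⟩ := eps_pos h
  obtain ⟨p0, p1, p2, q0, q1, q2, _⟩ := B05c_heads
  obtain ⟨_, _, _, _, _, _, _, _, _, _, i1, i2, _, _⟩ := int_cert
  have hs : (0 : ℝ) < (SC : ℝ) := B05b_SC
  have hl : (0 : ℝ) < (LI : ℝ) := B05b_LI
  have hsl : (0 : ℝ) < (SC : ℝ) * LI := mul_pos hs hl
  set e : ℝ → ℝ := fun x => u x - 8 - evl (intP gp) x / (SC * LI) with hedef
  have hn0 : (0 : ℝ) ∉ Ioo (0 : ℝ) 8 := fun h => lt_irrefl _ h.1
  have hch := B05c_chain (D := SC * LI) hn0 hvd (e := e) (fun x hx => by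
    rw [hv0]; exact ed x hx) (f := FL1 ep) p0 p1 p2
  have heq : FF1 G u = fun x => (560 * x ^ 2 - 90 * x ^ 3 + 15 * x ^ 4 - x ^ 5) * v 0 x
      + (40 * x ^ 2 - 5 * x ^ 3) * e x + evl (derN 0 (FL1 ep)) x / (SC * LI) := by
    funext x
    exact B05c_eq G u hv0 (fun _ => rfl) i1 i2 x
  have c0 : (Cp 0 : ℝ) / SC = 7 / 50000 := by norm_num [Cp, SC]
  have c1 : (Cp 1 : ℝ) / SC = 9 / 25000 := by norm_num [Cp, SC]
  have c2 : (Cp 2 : ℝ) / SC = 23 / 10000 := by norm_num [Cp, SC]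
  have c3 : (Cp 3 : ℝ) / SC = 37 / 1000 := by norm_num [Cp, SC]
  have b0 : ∀ x ∈ Ioo (0 : ℝ) 8, |v 0 x| * (1 : ℝ) ≤ 7 / 50000 := by
    intro x hx
    have := hvb 0 (by norm_num) x hx
    rw [c0] at this
    simpa using this
  have b1 : ∀ x ∈ Ioo (0 : ℝ) 8, |v 1 x| * (1 + x) ≤ 9 / 25000 := by
    intro x hx
    have := hvb 1 (by norm_num) x hx
    rw [c1] at this
    simpa using this
  have b2 : ∀ x ∈ Ioo (0 : ℝ) 8, |v 2 x| * (1 + x) ^ 2 ≤ 23 / 10000 := by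
    intro x hx
    have := hvb 2 (by norm_num) x hx
    rwa [c2] at this
  have b3 : ∀ x ∈ Ioo (0 : ℝ) 8, |v 3 x| * (1 + x) ^ 3 ≤ 37 / 1000 := by
    intro x hx
    have := hvb 3 (by norm_num) x hx
    rwa [c3] at this
  have be : ∀ x ∈ Ioo (0 : ℝ) 8, |e x| * (1 : ℝ) ≤ 7 / 2500 := by
    intro x hx
    have := eb x hx
    rw [c0] at this
    rw [mul_one]
    refine this.trans (le_of_eq ?_)
    norm_num
  have f1 : ∀ x ∈ Ioo (0 : ℝ) 8, |evl (derN 1 (FL1 ep)) x / (SC * LI)| ≤ 8 := by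
    intro x hx
    have h1 := chk_pos (f := derN 1 (FL1 ep)) c_fp11 (by norm_num) hx.1 hx.2.le
    rw [abs_div, abs_of_pos hsl, div_le_iff₀ hsl]
    refine h1.trans (le_of_eq ?_)
    simp only [m_fp11, ev]
    push_cast
    ring
  have f2 : ∀ x ∈ Ioo (0 : ℝ) 8, |evl (derN 2 (FL1 ep)) x / (SC * LI)| ≤ 12 := by
    intro x hx
    have h1 := chk_pos (f := derN 2 (FL1 ep)) c_fp12 (by norm_num) hx.1 hx.2.le
    rw [abs_div, abs_of_pos hsl, div_le_iff₀ hsl]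
    refine h1.trans (le_of_eq ?_)
    simp only [m_fp12, ev]
    push_cast
    ring
  have f3 : ∀ x ∈ Ioo (0 : ℝ) 8, |evl (derN 3 (FL1 ep)) x / (SC * LI)| ≤ 29 := by
    intro x hx
    have h1 := chk_pos (f := derN 3 (FL1 ep)) c_fp13 (by norm_num) hx.1 hx.2.le
    rw [abs_div, abs_of_pos hsl, div_le_iff₀ hsl]
    refine h1.trans (le_of_eq ?_)
    simp only [m_fp13, ev]
    push_cast
    ring
  have hIoo : Ioo (0 : ℝ) 8 ∈ 𝓝[>] (0 : ℝ) := Ioo_mem_nhdsGT (by norm_num)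
  have lv0 : Tendsto (v 0) (𝓝[>] 0) (𝓝 (L - hdL gp.2 / SC)) := by
    have h1 := (B05e_lim hL (g := gp) heads.2.2.2.2.2.2.2.2.1).mono_left
      (nhdsWithin_mono 0 (fun x (hx : 0 < x) => hx.ne') : 𝓝[>] (0 : ℝ) ≤ 𝓝[≠] 0)
    refine h1.congr fun x => ?_
    rw [hv0]
  have le0 : ∀ j, hdL (derN j (FL1 ep)).1 = 0 →
      Tendsto (fun x => evl (derN j (FL1 ep)) x / (SC * LI)) (𝓝[>] 0)
        (𝓝 (hdL (derN j (FL1 ep)).2 / (SC * LI))) := by
    intro j hj
    exact ((tendsto_evl _ hj).mono_left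
      (nhdsWithin_mono 0 (fun x (hx : 0 < x) => hx.ne') : 𝓝[>] (0 : ℝ) ≤ 𝓝[≠] 0)).div_const _
  have cont : ∀ (P : ℝ → ℝ), Continuous P → Tendsto P (𝓝[>] 0) (𝓝 (P 0)) := fun P hP =>
    hP.continuousAt.tendsto.mono_left nhdsWithin_le_nhds
  have cont0 : ∀ (P : ℝ → ℝ), Continuous P → P 0 = 0 → Tendsto P (𝓝[>] 0) (𝓝 0) := fun P hP h0 => by
    have := cont P hP
    rwa [h0] at this
  have bv : ∀ j ≤ 3, ∃ B : ℝ, ∀ᶠ x in 𝓝[>] (0 : ℝ), |v j x| ≤ B := by
    intro j hj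
    refine ⟨Cp j / SC, ?_⟩
    filter_upwards [hIoo] with x hx
    have h1 := hvb j hj x hx
    have h2 : (1 : ℝ) ≤ (1 + x) ^ j := one_le_pow₀ (by linarith [hx.1])
    nlinarith [abs_nonneg (v j x)]
  refine ⟨fun x => (1120 * x - 190 * x ^ 2 + 10 * x ^ 3) * v 0 x
          + (560 * x ^ 2 - 90 * x ^ 3 + 15 * x ^ 4 - x ^ 5) * v 1 x
          + (80 * x - 15 * x ^ 2) * e x + evl (derN 1 (FL1 ep)) x / (SC * LI),
    fun x => (1120 - 220 * x - 80 * x ^ 2 + 15 * x ^ 3) * v 0 x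
          + (2240 * x - 460 * x ^ 2 + 70 * x ^ 3 - 5 * x ^ 4) * v 1 x
          + (560 * x ^ 2 - 90 * x ^ 3 + 15 * x ^ 4 - x ^ 5) * v 2 x
          + (80 - 30 * x) * e x + evl (derN 2 (FL1 ep)) x / (SC * LI),
    fun x => (-60 - 300 * x + 75 * x ^ 2) * v 0 x
          + (3360 - 1140 * x + 130 * x ^ 2 - 5 * x ^ 3) * v 1 x
          + (3360 * x - 730 * x ^ 2 + 130 * x ^ 3 - 10 * x ^ 4) * v 2 x
          + (560 * x ^ 2 - 90 * x ^ 3 + 15 * x ^ 4 - x ^ 5) * v 3 x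
          + -30 * e x + evl (derN 3 (FL1 ep)) x / (SC * LI), ?_, ?_, ?_, ?_⟩
  rotate_left
  · rw [heq]
    have h1 := (cont (fun x => 560 * x ^ 2 - 90 * x ^ 3 + 15 * x ^ 4 - x ^ 5) (by fun_prop)).mul lv0
    have h1' := (cont (fun x => 40 * x ^ 2 - 5 * x ^ 3) (by fun_prop)).mul el
    have h2 := (h1.add h1').add (le0 0 p0)
    rw [q0] at h2
    simpa using h2
  · obtain ⟨B1, hB1⟩ := bv 1 (by norm_num)
    have h1 := (cont (fun x => 1120 * x - 190 * x ^ 2 + 10 * x ^ 3) (by fun_prop)).mul lv0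
    have h1' := (cont (fun x => 80 * x - 15 * x ^ 2) (by fun_prop)).mul el
    have h2 := B05e_zero (l := 𝓝[>] (0 : ℝ)) (P := fun x => 560 * x ^ 2 - 90 * x ^ 3 + 15 * x ^ 4 - x ^ 5)
      (cont0 (fun x => 560 * x ^ 2 - 90 * x ^ 3 + 15 * x ^ 4 - x ^ 5) (by fun_prop) (by norm_num)) hB1
    have h3 := ((h1.add h2).add h1').add (le0 1 p1)
    rw [q1] at h3
    simpa using h3
  · obtain ⟨B1, hB1⟩ := bv 1 (by norm_num)
    obtain ⟨B2, hB2⟩ := bv 2 (by norm_num)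
    have h1 := (cont (fun x => 1120 - 220 * x - 80 * x ^ 2 + 15 * x ^ 3) (by fun_prop)).mul lv0
    have h1' := (cont (fun x => 80 - 30 * x) (by fun_prop)).mul el
    have h2 := B05e_zero (l := 𝓝[>] (0 : ℝ)) (P := fun x => 2240 * x - 460 * x ^ 2 + 70 * x ^ 3 - 5 * x ^ 4)
      (cont0 (fun x => 2240 * x - 460 * x ^ 2 + 70 * x ^ 3 - 5 * x ^ 4) (by fun_prop) (by norm_num)) hB1
    have h3 := B05e_zero (l := 𝓝[>] (0 : ℝ)) (P := fun x => 560 * x ^ 2 - 90 * x ^ 3 + 15 * x ^ 4 - x ^ 5)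
      (cont0 (fun x => 560 * x ^ 2 - 90 * x ^ 3 + 15 * x ^ 4 - x ^ 5) (by fun_prop) (by norm_num)) hB2
    have h4 := (((h1.add h2).add h3).add h1').add (le0 2 p2)
    rw [q2] at h4
    have e : (1120 - 220 * (0 : ℝ) - 80 * 0 ^ 2 + 15 * 0 ^ 3) * (L - (hdL gp.2 : ℝ) / SC) + 0 + 0
        + (80 - 30 * (0 : ℝ)) * 0
        + ((1120 * LI * (hdL gp.2 - hdL gt.2) : ℤ) : ℝ) / (SC * LI) = 1120 * (L - hdL gt.2 / SC) := by
      push_cast
      field_simp
      ring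
    rw [← e]
    exact h4
  · intro x hx
    obtain ⟨h1, h2, h3⟩ := hch x hx
    refine ⟨by rw [heq]; exact h1, h2, h3, ?_, ?_, ?_⟩
    · have t1 := B05e_term (by norm_num) (B05c_p10 hx) (b0 x hx)
      have t2 := B05e_term (by norm_num) (B05c_m1 hx) (b1 x hx)
      have t3 := B05e_term (P := 80 * x - 15 * x ^ 2) (κ := 320) (by norm_num)
        (by rw [abs_le]; constructor <;> nlinarith [hx.1, hx.2, mul_nonneg hx.1.le (sub_nonneg.2 hx.2.le)])
        (be x hx)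
      have t4 := f1 x hx
      have t5 := B05c_tri4 ((1120 * x - 190 * x ^ 2 + 10 * x ^ 3) * v 0 x)
          ((560 * x ^ 2 - 90 * x ^ 3 + 15 * x ^ 4 - x ^ 5) * v 1 x)
          ((80 * x - 15 * x ^ 2) * e x) (evl (derN 1 (FL1 ep)) x / (SC * LI))
      linarith
    · have t1 := B05e_term (by norm_num) (B05c_p20 hx) (b0 x hx)
      have t2 := B05e_term (by norm_num) (B05c_p21 hx) (b1 x hx)
      have t3 := B05e_term (by norm_num) (B05c_m1b hx) (b2 x hx)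
      have t4 := B05e_term (P := 80 - 30 * x) (κ := 160) (by norm_num)
        (by rw [abs_le]; constructor <;> linarith [hx.1, hx.2]) (be x hx)
      have t5 := f2 x hx
      have t6 := B05c_tri5 ((1120 - 220 * x - 80 * x ^ 2 + 15 * x ^ 3) * v 0 x)
          ((2240 * x - 460 * x ^ 2 + 70 * x ^ 3 - 5 * x ^ 4) * v 1 x)
          ((560 * x ^ 2 - 90 * x ^ 3 + 15 * x ^ 4 - x ^ 5) * v 2 x)
          ((80 - 30 * x) * e x) (evl (derN 2 (FL1 ep)) x / (SC * LI))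
      linarith
    · have t1 := B05e_term (by norm_num) (B05c_p30 hx) (b0 x hx)
      have t2 := B05e_term (by norm_num) (B05c_p31 hx) (b1 x hx)
      have t3 := B05e_term (by norm_num) (B05c_p32 hx) (b2 x hx)
      have t4 := B05e_term (by norm_num) (B05c_m1c hx) (b3 x hx)
      have t5 := B05e_term (P := (-30 : ℝ)) (κ := 30) (by norm_num) (by norm_num) (be x hx)
      have t6 := f3 x hx
      have t7 := B05c_tri6 ((-60 - 300 * x + 75 * x ^ 2) * v 0 x)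
          ((3360 - 1140 * x + 130 * x ^ 2 - 5 * x ^ 3) * v 1 x)
          ((3360 * x - 730 * x ^ 2 + 130 * x ^ 3 - 10 * x ^ 4) * v 2 x)
          ((560 * x ^ 2 - 90 * x ^ 3 + 15 * x ^ 4 - x ^ 5) * v 3 x)
          (-30 * e x) (evl (derN 3 (FL1 ep)) x / (SC * LI))
      linarith

end Pool.Agent.Lib.MP_230119_an.EX
end

section

/-!
# F2 on (-1,0)
-/

set_option autoImplicit false

open Set Filter Topology

namespace Pool.Agent.Lib.MP_230119_an.EX

theorem F2_neg {G u : ℝ → ℝ} (h : GF G u) {L : ℝ}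
    (hL : Tendsto (fun x => G x + Real.log |x|) (𝓝[≠] 0) (𝓝 L)) :
    ∃ A1 A2 A3 : ℝ → ℝ,
      (∀ x ∈ Ioo (-1 : ℝ) 0, HasDerivAt (FF2 G) (A1 x) x ∧ HasDerivAt A1 (A2 x) x ∧
        HasDerivAt A2 (A3 x) x ∧ |FF2 G x| ≤ 1 / 2 ∧ |A1 x| ≤ 1 ∧ |A2 x| ≤ 2 ∧ |A3 x| ≤ 5) ∧
      Tendsto (FF2 G) (𝓝[<] 0) (𝓝 0) ∧ Tendsto A1 (𝓝[<] 0) (𝓝 0) ∧
      Tendsto A2 (𝓝[<] 0) (𝓝 (160 * (L - hdL gt.2 / SC))) := by
  obtain ⟨v, hv0, hvd, hvb⟩ := e2_neg h
  obtain ⟨_, _, _, _, _, _, p0, p1, p2, q0, q1, q2⟩ := B05e_heads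
  have hs : (0 : ℝ) < (SC : ℝ) := by norm_num [SC]
  have hn0 : (0 : ℝ) ∉ Ioo (-1 : ℝ) 0 := fun h => lt_irrefl _ h.2
  have hch := B05e_chain (D := SC) hn0 hvd (f := FL2 em) p0 p1 p2
  have heq : FF2 G = fun x => (80 * x ^ 2 - 10 * x ^ 3) * v 0 x + evl (derN 0 (FL2 em)) x / SC := by
    funext x
    exact B05e_eq G hv0 x
  have c0 : (Cm 0 : ℝ) / SC = 3 / 1000000 := by norm_num [Cm, SC]
  have c1 : (Cm 1 : ℝ) / SC = 6 / 1000000 := by norm_num [Cm, SC]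
  have c2 : (Cm 2 : ℝ) / SC = 4 / 100000 := by norm_num [Cm, SC]
  have c3 : (Cm 3 : ℝ) / SC = 1 / 1000 := by norm_num [Cm, SC]
  have b0 : ∀ x ∈ Ioo (-1 : ℝ) 0, |v 0 x| * (1 : ℝ) ≤ 3 / 1000000 := by
    intro x hx
    have := hvb 0 (by norm_num) x hx
    rw [c0] at this
    simpa using this
  have b1 : ∀ x ∈ Ioo (-1 : ℝ) 0, |v 1 x| * (1 : ℝ) ≤ 6 / 1000000 := by
    intro x hx
    have := hvb 1 (by norm_num) x hx
    rw [c1] at this
    simpa using this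
  have b2 : ∀ x ∈ Ioo (-1 : ℝ) 0, |v 2 x| * (1 : ℝ) ≤ 4 / 100000 := by
    intro x hx
    have := hvb 2 (by norm_num) x hx
    rw [c2] at this
    simpa using this
  have b3 : ∀ x ∈ Ioo (-1 : ℝ) 0, |v 3 x| * (1 : ℝ) ≤ 1 / 1000 := by
    intro x hx
    have := hvb 3 (by norm_num) x hx
    rw [c3] at this
    simpa using this
  have f0 : ∀ x ∈ Ioo (-1 : ℝ) 0, |evl (derN 0 (FL2 em)) x / SC| ≤ 1 / 10 := by
    intro x hx
    have h1 := chk_neg (f := derN 0 (FL2 em)) c_fm20 (by norm_num) hx.2 hx.1.le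
    rw [abs_div, abs_of_pos hs, div_le_iff₀ hs]
    refine h1.trans (le_of_eq ?_)
    norm_num [m_fm20, ev, SC]
  have f1 : ∀ x ∈ Ioo (-1 : ℝ) 0, |evl (derN 1 (FL2 em)) x / SC| ≤ 3 / 10 := by
    intro x hx
    have h1 := chk_neg (f := derN 1 (FL2 em)) c_fm21 (by norm_num) hx.2 hx.1.le
    rw [abs_div, abs_of_pos hs, div_le_iff₀ hs]
    refine h1.trans (le_of_eq ?_)
    norm_num [m_fm21, ev, SC]
  have f2 : ∀ x ∈ Ioo (-1 : ℝ) 0, |evl (derN 2 (FL2 em)) x / SC| ≤ 14 / 10 := by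
    intro x hx
    have h1 := chk_neg (f := derN 2 (FL2 em)) c_fm22 (by norm_num) hx.2 hx.1.le
    rw [abs_div, abs_of_pos hs, div_le_iff₀ hs]
    refine h1.trans (le_of_eq ?_)
    norm_num [m_fm22, ev, SC]
  have f3 : ∀ x ∈ Ioo (-1 : ℝ) 0, |evl (derN 3 (FL2 em)) x / SC| ≤ 40 / 10 := by
    intro x hx
    have h1 := chk_neg (f := derN 3 (FL2 em)) c_fm23 (by norm_num) hx.2 hx.1.le
    rw [abs_div, abs_of_pos hs, div_le_iff₀ hs]
    refine h1.trans (le_of_eq ?_)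
    norm_num [m_fm23, ev, SC]
  have hIoo : Ioo (-1 : ℝ) 0 ∈ 𝓝[<] (0 : ℝ) := Ioo_mem_nhdsLT (by norm_num)
  have lv0 : Tendsto (v 0) (𝓝[<] 0) (𝓝 (L - hdL gm.2 / SC)) := by
    have h1 := (B05e_lim hL (g := gm) heads.2.2.2.2.2.2.2.2.2.1).mono_left
      (nhdsWithin_mono 0 (fun x (hx : x < 0) => hx.ne) : 𝓝[<] (0 : ℝ) ≤ 𝓝[≠] 0)
    refine h1.congr fun x => ?_
    rw [hv0]
  have le0 : ∀ j, hdL (derN j (FL2 em)).1 = 0 →
      Tendsto (fun x => evl (derN j (FL2 em)) x / SC) (𝓝[<] 0) (𝓝 (hdL (derN j (FL2 em)).2 / SC)) := by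
    intro j hj
    exact ((tendsto_evl _ hj).mono_left
      (nhdsWithin_mono 0 (fun x (hx : x < 0) => hx.ne) : 𝓝[<] (0 : ℝ) ≤ 𝓝[≠] 0)).div_const _
  have cont : ∀ (P : ℝ → ℝ), Continuous P → Tendsto P (𝓝[<] 0) (𝓝 (P 0)) := fun P hP =>
    hP.continuousAt.tendsto.mono_left nhdsWithin_le_nhds
  have cont0 : ∀ (P : ℝ → ℝ), Continuous P → P 0 = 0 → Tendsto P (𝓝[<] 0) (𝓝 0) := fun P hP h0 => by
    have := cont P hP
    rwa [h0] at this
  have bv : ∀ j ≤ 3, ∃ B : ℝ, ∀ᶠ x in 𝓝[<] (0 : ℝ), |v j x| ≤ B := by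
    intro j hj
    refine ⟨Cm j / SC, ?_⟩
    filter_upwards [hIoo] with x hx
    exact hvb j hj x hx
  refine ⟨fun x => (160 * x - 30 * x ^ 2) * v 0 x + (80 * x ^ 2 - 10 * x ^ 3) * v 1 x
      + evl (derN 1 (FL2 em)) x / SC,
    fun x => (160 - 60 * x) * v 0 x + 2 * (160 * x - 30 * x ^ 2) * v 1 x
      + (80 * x ^ 2 - 10 * x ^ 3) * v 2 x + evl (derN 2 (FL2 em)) x / SC,
    fun x => -60 * v 0 x + 3 * (160 - 60 * x) * v 1 x + 3 * (160 * x - 30 * x ^ 2) * v 2 x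
      + (80 * x ^ 2 - 10 * x ^ 3) * v 3 x + evl (derN 3 (FL2 em)) x / SC, ?_, ?_, ?_, ?_⟩
  rotate_left
  · rw [heq]
    have h1 := (cont (fun x => 80 * x ^ 2 - 10 * x ^ 3) (by fun_prop)).mul lv0
    have h2 := h1.add (le0 0 p0)
    rw [q0] at h2
    simpa using h2
  · obtain ⟨B1, hB1⟩ := bv 1 (by norm_num)
    have h1 := (cont (fun x => 160 * x - 30 * x ^ 2) (by fun_prop)).mul lv0
    have h2 := B05e_zero (l := 𝓝[<] (0 : ℝ)) (P := fun x => 80 * x ^ 2 - 10 * x ^ 3)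
      (cont0 (fun x => 80 * x ^ 2 - 10 * x ^ 3) (by fun_prop) (by norm_num)) hB1
    have h3 := (h1.add h2).add (le0 1 p1)
    rw [q1] at h3
    simpa using h3
  · obtain ⟨B1, hB1⟩ := bv 1 (by norm_num)
    obtain ⟨B2, hB2⟩ := bv 2 (by norm_num)
    have h1 := (cont (fun x => 160 - 60 * x) (by fun_prop)).mul lv0
    have h2 := B05e_zero (l := 𝓝[<] (0 : ℝ)) (P := fun x => 2 * (160 * x - 30 * x ^ 2))
      (cont0 (fun x => 2 * (160 * x - 30 * x ^ 2)) (by fun_prop) (by norm_num)) hB1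
    have h3 := B05e_zero (l := 𝓝[<] (0 : ℝ)) (P := fun x => 80 * x ^ 2 - 10 * x ^ 3)
      (cont0 (fun x => 80 * x ^ 2 - 10 * x ^ 3) (by fun_prop) (by norm_num)) hB2
    have h4 := ((h1.add h2).add h3).add (le0 2 p2)
    rw [q2] at h4
    have e : (160 - 60 * (0 : ℝ)) * (L - (hdL gm.2 : ℝ) / SC) + 0 + 0
        + ((160 * (hdL gm.2 - hdL gt.2) : ℤ) : ℝ) / SC = 160 * (L - hdL gt.2 / SC) := by
      push_cast
      field_simp
      ring
    rw [← e]
    exact h4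
  · intro x hx
    obtain ⟨h1, h2, h3⟩ := hch x hx
    have hx0 : -1 < x := hx.1
    have hx8 : x < 0 := hx.2
    have hx2 : x ^ 2 ≤ 1 := by nlinarith
    have hx2' : 0 ≤ x ^ 2 := sq_nonneg x
    have hx3 : -1 ≤ x ^ 3 := by nlinarith
    have hx3' : x ^ 3 ≤ 0 := by nlinarith
    have hN : |80 * x ^ 2 - 10 * x ^ 3| ≤ 90 * 1 := by rw [abs_le]; constructor <;> linarith
    have hN1 : |160 * x - 30 * x ^ 2| ≤ 190 * 1 := by rw [abs_le]; constructor <;> linarith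
    have hN1b : |2 * (160 * x - 30 * x ^ 2)| ≤ 380 * 1 := by rw [abs_le]; constructor <;> linarith
    have hN1c : |3 * (160 * x - 30 * x ^ 2)| ≤ 570 * 1 := by rw [abs_le]; constructor <;> linarith
    have hN2 : |160 - 60 * x| ≤ 220 * 1 := by rw [abs_le]; constructor <;> linarith
    have hN2b : |3 * (160 - 60 * x)| ≤ 660 * 1 := by rw [abs_le]; constructor <;> linarith
    refine ⟨by rw [heq]; exact h1, h2, h3, ?_, ?_, ?_, ?_⟩
    · rw [heq]
      have t1 := B05e_term (by norm_num) hN (b0 x hx)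
      have t2 := f0 x hx
      have := abs_add_le ((80 * x ^ 2 - 10 * x ^ 3) * v 0 x) (evl (derN 0 (FL2 em)) x / SC)
      simp only
      linarith
    · have t1 := B05e_term (by norm_num) hN1 (b0 x hx)
      have t2 := B05e_term (by norm_num) hN (b1 x hx)
      have t3 := f1 x hx
      have t4 := abs_add_le ((160 * x - 30 * x ^ 2) * v 0 x + (80 * x ^ 2 - 10 * x ^ 3) * v 1 x)
        (evl (derN 1 (FL2 em)) x / SC)
      have t5 := abs_add_le ((160 * x - 30 * x ^ 2) * v 0 x) ((80 * x ^ 2 - 10 * x ^ 3) * v 1 x)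
      linarith
    · have t1 := B05e_term (by norm_num) hN2 (b0 x hx)
      have t2 := B05e_term (by norm_num) hN1b (b1 x hx)
      have t3 := B05e_term (by norm_num) hN (b2 x hx)
      have t4 := f2 x hx
      have t5 := abs_add_le ((160 - 60 * x) * v 0 x + 2 * (160 * x - 30 * x ^ 2) * v 1 x
          + (80 * x ^ 2 - 10 * x ^ 3) * v 2 x) (evl (derN 2 (FL2 em)) x / SC)
      have t6 := abs_add_le ((160 - 60 * x) * v 0 x + 2 * (160 * x - 30 * x ^ 2) * v 1 x)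
        ((80 * x ^ 2 - 10 * x ^ 3) * v 2 x)
      have t7 := abs_add_le ((160 - 60 * x) * v 0 x) (2 * (160 * x - 30 * x ^ 2) * v 1 x)
      linarith
    · have t1 := B05e_term (P := (-60 : ℝ)) (κ := 60) (y := 1) (by norm_num) (by norm_num) (b0 x hx)
      have t2 := B05e_term (by norm_num) hN2b (b1 x hx)
      have t3 := B05e_term (by norm_num) hN1c (b2 x hx)
      have t4 := B05e_term (by norm_num) hN (b3 x hx)
      have t5 := f3 x hx
      have t6 := abs_add_le (-60 * v 0 x + 3 * (160 - 60 * x) * v 1 x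
          + 3 * (160 * x - 30 * x ^ 2) * v 2 x + (80 * x ^ 2 - 10 * x ^ 3) * v 3 x)
        (evl (derN 3 (FL2 em)) x / SC)
      have t7 := abs_add_le (-60 * v 0 x + 3 * (160 - 60 * x) * v 1 x
          + 3 * (160 * x - 30 * x ^ 2) * v 2 x) ((80 * x ^ 2 - 10 * x ^ 3) * v 3 x)
      have t8 := abs_add_le (-60 * v 0 x + 3 * (160 - 60 * x) * v 1 x)
        (3 * (160 * x - 30 * x ^ 2) * v 2 x)
      have t9 := abs_add_le (-60 * v 0 x) (3 * (160 - 60 * x) * v 1 x)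
      linarith

end Pool.Agent.Lib.MP_230119_an.EX
end

section

set_option autoImplicit false

open MeasureTheory Set Filter Topology
open scoped ENNReal

namespace Pool.Agent.Lib.MP_230119_an

theorem J_one_ne_top : J (fun _ => (1 : ℂ)) ≠ ∞ := by
  obtain ⟨C, _, hC⟩ := crude
  have hm : MemLp (fun _ : ℝ => (1 : ℂ)) 2 mc := memLp_const _
  refine ne_top_of_le_ne_top ?_ (hC _ hm)
  exact ENNReal.mul_ne_top ENNReal.ofReal_ne_top (ENNReal.pow_ne_top (N2_ne_top hm))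

private theorem sg28_sq_int (a b : ℝ) :
    ∫ θ in (0 : ℝ)..2 * Real.pi, (1 - (a * Real.cos θ + b * Real.sin θ) ^ 2 / 2) =
      2 * Real.pi * (1 - (a ^ 2 + b ^ 2) / 4) := by
  have hder : ∀ θ ∈ Set.uIcc (0 : ℝ) (2 * Real.pi), HasDerivAt (fun θ : ℝ => θ -
      (a ^ 2 * (θ + Real.sin θ * Real.cos θ) + 2 * a * b * Real.sin θ ^ 2 +
        b ^ 2 * (θ - Real.sin θ * Real.cos θ)) / 4)
      (1 - (a * Real.cos θ + b * Real.sin θ) ^ 2 / 2) θ := by
    intro θ _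
    have hs := Real.hasDerivAt_sin θ
    have hc := Real.hasDerivAt_cos θ
    have hid := hasDerivAt_id θ
    have h1 := ((((hid.add (hs.mul hc)).const_mul (a ^ 2)).add
      ((hs.pow 2).const_mul (2 * a * b))).add ((hid.sub (hs.mul hc)).const_mul (b ^ 2))).div_const 4
    have h2 := hid.sub h1
    refine h2.congr_deriv ?_
    have h3 := Real.sin_sq_add_cos_sq θ
    simp only [Nat.cast_ofNat, Nat.add_one_sub_one, pow_one]
    have h4 : Real.cos θ ^ 2 = 1 - Real.sin θ ^ 2 := by linarith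
    ring_nf
    rw [h4]
    ring
  rw [intervalIntegral.integral_eq_sub_of_hasDerivAt hder]
  · simp only [Real.sin_two_pi, Real.cos_two_pi, Real.sin_zero, Real.cos_zero]
    ring
  · exact (by fun_prop : Continuous fun θ : ℝ =>
      (1 - (a * Real.cos θ + b * Real.sin θ) ^ 2 / 2)).intervalIntegrable _ _

private theorem sg28_ex_lower (x : ℝ × ℝ) :
    2 * Real.pi * (1 - sq x / 4) ≤ ‖ex (fun _ => (1 : ℂ)) x‖ := by
  have hint : Integrable (fun θ : ℝ => (1 : ℂ) * ph x (om θ)) mc :=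
    integrable_tr continuous_om.measurable (integrable_const _) x
  have h1 : (ex (fun _ => (1 : ℂ)) x).re = ∫ θ, Real.cos (dt x (om θ)) ∂mc := by
    unfold ex tr
    have h2 := integral_re hint
    simp only [RCLike.re_to_complex] at h2
    rw [← h2]
    refine integral_congr_ae (Eventually.of_forall fun θ => ?_)
    simp only [one_mul]
    unfold ph
    have : -(Complex.I * ((dt x (om θ) : ℝ) : ℂ)) = ((-(dt x (om θ)) : ℝ) : ℂ) * Complex.I := by
      push_cast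
      ring
    rw [this, Complex.exp_ofReal_mul_I_re, Real.cos_neg]
  have h2 : ∫ θ, (1 - (x.1 * Real.cos θ + x.2 * Real.sin θ) ^ 2 / 2) ∂mc ≤
      ∫ θ, Real.cos (dt x (om θ)) ∂mc := by
    apply integral_mono
    · exact (by fun_prop : Continuous fun θ : ℝ =>
        (1 - (x.1 * Real.cos θ + x.2 * Real.sin θ) ^ 2 / 2)).integrableOn_Ioc
    · have hc : Continuous fun θ : ℝ => Real.cos (dt x (om θ)) := by
        unfold dt om
        fun_prop
      exact hc.integrableOn_Ioc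
    · intro θ
      exact Real.one_sub_sq_div_two_le_cos
  have h3 : ∫ θ, (1 - (x.1 * Real.cos θ + x.2 * Real.sin θ) ^ 2 / 2) ∂mc =
      2 * Real.pi * (1 - sq x / 4) := by
    unfold mc
    rw [← intervalIntegral.integral_of_le (by positivity), sg28_sq_int]
    rfl
  rw [← h3]
  refine h2.trans ?_
  rw [← h1]
  exact Complex.re_le_norm _

private theorem sg28_radial :
    ∫ r in (0 : ℝ)..2, 2 * Real.pi * (r * (2 * Real.pi * (1 - r ^ 2 / 4)) ^ 6) =
      (2 * Real.pi) ^ 7 * (2 / 7) := by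
  have hder : ∀ r ∈ Set.uIcc (0 : ℝ) 2, HasDerivAt
      (fun r : ℝ => -((2 * Real.pi) ^ 7 * (2 / 7) * (1 - r ^ 2 / 4) ^ 7))
      (2 * Real.pi * (r * (2 * Real.pi * (1 - r ^ 2 / 4)) ^ 6)) r := by
    intro r _
    have h1 : HasDerivAt (fun r : ℝ => 1 - r ^ 2 / 4) (-(r / 2)) r := by
      have := (((hasDerivAt_id r).pow 2).div_const 4).const_sub 1
      refine this.congr_deriv ?_
      simp
      ring
    have h2 := ((h1.pow 7).const_mul ((2 * Real.pi) ^ 7 * (2 / 7))).neg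
    refine h2.congr_deriv ?_
    simp only [Nat.cast_ofNat, Nat.add_one_sub_one]
    ring
  rw [intervalIntegral.integral_eq_sub_of_hasDerivAt hder]
  · norm_num
  · exact (by fun_prop : Continuous fun r : ℝ =>
      2 * Real.pi * (r * (2 * Real.pi * (1 - r ^ 2 / 4)) ^ 6)).intervalIntegrable _ _

/-- the radial profile -/
private noncomputable def sg28_h (r : ℝ) : ℝ := (2 * Real.pi * max 0 (1 - r ^ 2 / 4)) ^ 6

private theorem sg28_h_nonneg (r : ℝ) : 0 ≤ sg28_h r := by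
  unfold sg28_h
  positivity

private theorem sg28_h_cont : Continuous sg28_h := by
  unfold sg28_h
  fun_prop

private theorem sg28_J_lower :
    ∫⁻ x : ℝ × ℝ, ENNReal.ofReal (sg28_h (Real.sqrt (sq x))) ≤ J (fun _ => (1 : ℂ)) := by
  unfold J
  apply lintegral_mono
  intro x
  simp only
  rw [← ofReal_norm, ← ENNReal.ofReal_pow (norm_nonneg _)]
  apply ENNReal.ofReal_le_ofReal
  unfold sg28_h
  rw [Real.sq_sqrt (sq_nonneg' x)]
  apply pow_le_pow_left₀ (by positivity)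
  rcases le_or_gt 0 (1 - sq x / 4) with h | h
  · rw [max_eq_right h]
    exact sg28_ex_lower x
  · rw [max_eq_left h.le, mul_zero]
    exact norm_nonneg _

private theorem sg28_polar : ENNReal.ofReal ((2 * Real.pi) ^ 7 * (2 / 7)) ≤
    ∫⁻ x : ℝ × ℝ, ENNReal.ofReal (sg28_h (Real.sqrt (sq x))) := by
  rw [← lintegral_comp_polarCoord_symm]
  have h1 : ∫⁻ p in polarCoord.target, ENNReal.ofReal p.1 •
      ENNReal.ofReal (sg28_h (Real.sqrt (sq (polarCoord.symm p)))) =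
      ∫⁻ p in Ioi (0 : ℝ) ×ˢ Ioo (-Real.pi) Real.pi, ENNReal.ofReal (p.1 * sg28_h p.1) := by
    rw [polarCoord_target]
    apply setLIntegral_congr_fun (measurableSet_Ioi.prod measurableSet_Ioo)
    intro p hp
    have hp1 : 0 < p.1 := hp.1
    have h2 : sq (polarCoord.symm p) = p.1 ^ 2 := by
      simp only [polarCoord_symm_apply, sq]
      have := Real.sin_sq_add_cos_sq p.2
      nlinarith
    simp only
    rw [h2, Real.sqrt_sq hp1.le, smul_eq_mul, ← ENNReal.ofReal_mul hp1.le]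
  rw [h1]
  have h2 : (volume : Measure (ℝ × ℝ)).restrict (Ioi (0 : ℝ) ×ˢ Ioo (-Real.pi) Real.pi) =
      (volume.restrict (Ioi (0 : ℝ))).prod (volume.restrict (Ioo (-Real.pi) Real.pi)) := by
    rw [Measure.volume_eq_prod, Measure.prod_restrict]
  have hc : Continuous fun p : ℝ × ℝ => p.1 * sg28_h p.1 :=
    continuous_fst.mul (sg28_h_cont.comp continuous_fst)
  rw [h2, lintegral_prod _ hc.measurable.ennreal_ofReal.aemeasurable]
  simp only [lintegral_const, Measure.restrict_apply_univ, Real.volume_Ioo]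
  have hsub : Ioc (0 : ℝ) 2 ⊆ Ioi 0 := fun x hx => hx.1
  refine le_trans ?_ (lintegral_mono_set hsub)
  have h3 : ∫⁻ r in Ioc (0 : ℝ) 2, ENNReal.ofReal (r * sg28_h r) *
      ENNReal.ofReal (Real.pi - -Real.pi) =
      ∫⁻ r in Ioc (0 : ℝ) 2, ENNReal.ofReal
        (2 * Real.pi * (r * (2 * Real.pi * (1 - r ^ 2 / 4)) ^ 6)) := by
    apply setLIntegral_congr_fun measurableSet_Ioc
    intro r hr
    have hr0 : 0 < r := hr.1
    have hr2 : r ≤ 2 := hr.2
    have h4 : sg28_h r = (2 * Real.pi * (1 - r ^ 2 / 4)) ^ 6 := by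
      unfold sg28_h
      rw [max_eq_right (by nlinarith)]
    simp only
    rw [← ENNReal.ofReal_mul (mul_nonneg hr0.le (sg28_h_nonneg r)), h4]
    congr 1
    ring
  rw [h3, ← ofReal_integral_eq_lintegral_ofReal]
  · rw [← intervalIntegral.integral_of_le (by norm_num), sg28_radial]
  · exact (by fun_prop : Continuous fun r : ℝ =>
      2 * Real.pi * (r * (2 * Real.pi * (1 - r ^ 2 / 4)) ^ 6)).integrableOn_Ioc
  · filter_upwards [ae_restrict_mem measurableSet_Ioc] with r hr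
    have hr0 : 0 < r := hr.1
    positivity

theorem lambda_lower : (2 * Real.pi) ^ 7 * (2 / 7) ≤ Lam := by
  unfold Lam
  rw [← ENNReal.ofReal_le_iff_le_toReal J_one_ne_top]
  exact sg28_polar.trans sg28_J_lower

theorem Kst_lt_Cc : Kst < Cc := by
  have h1 := lambda_lower
  have hpi := Real.pi_gt_d2
  have h3 : (1.732 : ℝ) < Real.sqrt 3 := by
    rw [Real.lt_sqrt (by norm_num)]
    norm_num
  unfold Kst Cc
  rw [lt_div_iff₀ (by positivity)]
  refine lt_of_lt_of_le ?_ h1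
  have h4 : 5 * Real.pi / Real.sqrt 3 < (2 * Real.pi) ^ 2 * (2 / 7) := by
    rw [div_lt_iff₀ (by positivity)]
    nlinarith [mul_pos Real.pi_pos Real.pi_pos, mul_pos (mul_pos Real.pi_pos Real.pi_pos)
      (sub_pos.2 h3)]
  calc (2 * Real.pi) ^ 2 * (5 * Real.pi / Real.sqrt 3) * (2 * Real.pi) ^ 3
      < (2 * Real.pi) ^ 2 * ((2 * Real.pi) ^ 2 * (2 / 7)) * (2 * Real.pi) ^ 3 := by gcongr
    _ = (2 * Real.pi) ^ 7 * (2 / 7) := by ring

theorem four_Kst_lt : 4 * (4 * Kst) < 13 * Cc := by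
  have h1 := lambda_lower
  have hpi := Real.pi_gt_d2
  have h3 : (1.732 : ℝ) < Real.sqrt 3 := by
    rw [Real.lt_sqrt (by norm_num)]
    norm_num
  unfold Kst Cc
  rw [← mul_div_assoc (13 : ℝ), lt_div_iff₀ (by positivity)]
  refine lt_of_lt_of_le ?_ (mul_le_mul_of_nonneg_left h1 (by norm_num : (0 : ℝ) ≤ 13))
  have h4 : 16 * (5 * Real.pi / Real.sqrt 3) < 13 * ((2 * Real.pi) ^ 2 * (2 / 7)) := by
    rw [← mul_div_assoc, div_lt_iff₀ (by positivity)]
    nlinarith [mul_pos Real.pi_pos Real.pi_pos, mul_pos (mul_pos Real.pi_pos Real.pi_pos)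
      (sub_pos.2 h3)]
  calc 4 * (4 * ((2 * Real.pi) ^ 2 * (5 * Real.pi / Real.sqrt 3))) * (2 * Real.pi) ^ 3
      = (2 * Real.pi) ^ 2 * (16 * (5 * Real.pi / Real.sqrt 3)) * (2 * Real.pi) ^ 3 := by ring
    _ < (2 * Real.pi) ^ 2 * (13 * ((2 * Real.pi) ^ 2 * (2 / 7))) * (2 * Real.pi) ^ 3 := by gcongr
    _ = 13 * ((2 * Real.pi) ^ 7 * (2 / 7)) := by ring

end Pool.Agent.Lib.MP_230119_an
end

section

/-!
# Basic facts on the six-fold integral `I6`
-/

set_option autoImplicit false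

open MeasureTheory Set Filter Topology
open scoped ENNReal

namespace Pool.Agent.Lib.MP_230119_an

/-- almost every point of the product measure lies in the cube -/
theorem st_ae_cube : ∀ᵐ θ : Fin 6 → ℝ ∂(Measure.pi fun _ => mc),
    ∀ i, θ i ∈ Icc 0 (2 * Real.pi) := by
  rw [ae_all_iff]
  intro i
  have h3 : ∀ᵐ t ∂mc, t ∈ Icc 0 (2 * Real.pi) := by
    unfold mc
    filter_upwards [ae_restrict_mem (μ := volume) measurableSet_Ioc] with t ht
    exact Ioc_subset_Icc_self ht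
  exact (Measure.quasiMeasurePreserving_eval (μ := fun _ : Fin 6 => mc) i).ae h3

theorem st_bdd {g : (Fin 6 → ℝ) → ℝ} (hg : Continuous g) :
    ∃ C : ℝ, ∀ θ : Fin 6 → ℝ, (∀ i, θ i ∈ Icc 0 (2 * Real.pi)) → ‖g θ‖ ≤ C := by
  have hK : IsCompact (Set.pi univ fun _ : Fin 6 => Icc (0 : ℝ) (2 * Real.pi)) :=
    isCompact_univ_pi fun _ => isCompact_Icc
  obtain ⟨C, hC⟩ := hK.exists_bound_of_continuousOn hg.continuousOn
  exact ⟨C, fun θ hθ => hC θ fun i _ => hθ i⟩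

theorem st_integrable {g : (Fin 6 → ℝ) → ℝ} (hg : Continuous g) :
    Integrable g (Measure.pi fun _ : Fin 6 => mc) := by
  obtain ⟨C, hC⟩ := st_bdd hg
  refine Integrable.of_bound hg.aestronglyMeasurable C ?_
  filter_upwards [st_ae_cube] with θ hθ
  exact hC θ hθ

theorem st_cont_gk (R : ℝ) : Continuous fun θ : Fin 6 → ℝ => gk R (∑ i, om (θ i)) := by
  refine (continuous_gk R).comp ?_
  exact continuous_finsetSum _ fun i _ => continuous_om.comp (continuous_apply i)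

theorem i6_integrable {φ : (Fin 6 → ℝ) → ℝ} (hφ : Continuous φ) (R : ℝ) :
    Integrable (fun θ : Fin 6 → ℝ => φ θ * gk R (∑ i, om (θ i))) (Measure.pi fun _ => mc) :=
  st_integrable (hφ.mul (st_cont_gk R))

theorem i6_add {φ ψ : (Fin 6 → ℝ) → ℝ} (hφ : Continuous φ) (hψ : Continuous ψ) (R : ℝ) :
    I6 R (fun θ => φ θ + ψ θ) = I6 R φ + I6 R ψ := by
  unfold I6
  rw [← integral_add (i6_integrable hφ R) (i6_integrable hψ R)]
  refine integral_congr_ae (Eventually.of_forall fun θ => ?_)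
  simp only
  ring

theorem i6_const_mul (c : ℝ) (φ : (Fin 6 → ℝ) → ℝ) (R : ℝ) :
    I6 R (fun θ => c * φ θ) = c * I6 R φ := by
  unfold I6
  rw [← integral_const_mul]
  refine integral_congr_ae (Eventually.of_forall fun θ => ?_)
  simp only
  ring

theorem i6_mono {φ ψ : (Fin 6 → ℝ) → ℝ} (hφ : Continuous φ) (hψ : Continuous ψ)
    (h : ∀ θ, φ θ ≤ ψ θ) (R : ℝ) : I6 R φ ≤ I6 R ψ := by
  unfold I6
  refine integral_mono (i6_integrable hφ R) (i6_integrable hψ R) fun θ => ?_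
  exact mul_le_mul_of_nonneg_right (h θ) (gk_nonneg _ _)

theorem i6_nonneg {φ : (Fin 6 → ℝ) → ℝ} (h : ∀ θ, 0 ≤ φ θ) (R : ℝ) : 0 ≤ I6 R φ := by
  unfold I6
  exact integral_nonneg fun θ => mul_nonneg (h θ) (gk_nonneg _ _)

theorem i6_sum {ι : Type*} (s : Finset ι) {φ : ι → (Fin 6 → ℝ) → ℝ}
    (hφ : ∀ i ∈ s, Continuous (φ i)) (R : ℝ) :
    I6 R (fun θ => ∑ i ∈ s, φ i θ) = ∑ i ∈ s, I6 R (φ i) := by
  unfold I6
  rw [← integral_finsetSum s fun i hi => i6_integrable (hφ i hi) R]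
  refine integral_congr_ae (Eventually.of_forall fun θ => ?_)
  simp only [Finset.sum_mul]

theorem i6_perm (σ : Equiv.Perm (Fin 6)) (R : ℝ) (φ : (Fin 6 → ℝ) → ℝ) :
    I6 R (fun θ => φ (fun i => θ (σ i))) = I6 R φ := by
  have hp := (measurePreserving_piCongrLeft (fun _ : Fin 6 => mc) σ).symm
  have h := hp.integral_comp (MeasurableEquiv.measurableEmbedding _)
    (fun θ : Fin 6 → ℝ => φ θ * gk R (∑ i, om (θ i)))
  unfold I6
  rw [← h]
  refine integral_congr_ae (Eventually.of_forall fun θ => ?_)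
  have e : ∀ i, (MeasurableEquiv.piCongrLeft (fun _ : Fin 6 => ℝ) σ).symm θ i = θ (σ i) := by
    intro i
    rfl
  simp only
  have e2 : (MeasurableEquiv.piCongrLeft (fun _ : Fin 6 => ℝ) σ).symm θ = fun i => θ (σ i) := by
    funext i
    exact e i
  rw [e2]
  congr 2
  exact (Equiv.sum_comp σ fun i => om (θ i)).symm

/-- `L6` of nonnegative continuous functions -/
theorem l6_eq {f : ℝ → ℝ} (hf : Continuous f) (h0 : ∀ θ, 0 ≤ f θ) (R : ℝ) :
    L6 R (fun _ θ => ENNReal.ofReal (f θ)) = ENNReal.ofReal (I6 R fun θ => ∏ i, f (θ i)) := by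
  have hc : Continuous fun θ : Fin 6 → ℝ => ∏ i, f (θ i) :=
    continuous_finsetProd _ fun i _ => hf.comp (continuous_apply i)
  unfold L6 I6
  rw [ofReal_integral_eq_lintegral_ofReal (i6_integrable hc R)
    (Eventually.of_forall fun θ => mul_nonneg (Finset.prod_nonneg fun i _ => h0 _) (gk_nonneg _ _))]
  refine lintegral_congr fun θ => ?_
  rw [ENNReal.ofReal_mul (Finset.prod_nonneg fun i _ => h0 _),
    ENNReal.ofReal_prod_of_nonneg fun i _ => h0 _]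

/-- lower bound for `J` of an even nonnegative continuous function -/
theorem i6_le_J {f : ℝ → ℝ} (hf : Continuous f) (h0 : ∀ θ, 0 ≤ f θ)
    (hp : ∀ θ, f (θ + Real.pi) = f θ) {R : ℝ} (hR : 0 < R) :
    ENNReal.ofReal (2 * Real.pi * I6 R fun θ => ∏ i, f (θ i)) ≤ J fun θ => (f θ : ℂ) := by
  have hpi := Real.pi_pos
  obtain ⟨C, hC⟩ := (isCompact_Icc : IsCompact (Icc (0 : ℝ) (2 * Real.pi))).exists_bound_of_continuousOn
    hf.continuousOn
  have hm : MemLp (fun θ => (f θ : ℂ)) 2 mc := by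
    refine MemLp.of_bound (C := C) (Complex.continuous_ofReal.comp hf).aestronglyMeasurable ?_
    unfold mc
    filter_upwards [ae_restrict_mem (μ := volume) measurableSet_Ioc] with t ht
    rw [Complex.norm_real]
    exact hC t (Ioc_subset_Icc_self ht)
  have hev : ∀ θ ∈ Ioc 0 (2 * Real.pi), f (ap θ) = f θ := by
    intro θ _
    unfold ap
    split_ifs
    · exact hp θ
    · have := hp (θ - Real.pi)
      rw [sub_add_cancel] at this
      exact this.symm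
  have h := expand_ge h0 hm hev hR
  rw [l6_eq hf h0, ← ENNReal.ofReal_mul (by positivity)] at h
  exact h

/-- upper bound for `J` of an even nonnegative continuous function -/
theorem J_le_liminf {f : ℝ → ℝ} (hf : Continuous f) (h0 : ∀ θ, 0 ≤ f θ)
    (hp : ∀ θ, f (θ + Real.pi) = f θ) {c : ℝ}
    (h : ∀ ε > 0, ∀ᶠ n : ℕ in atTop, I6 ((n : ℝ) + 1) (fun θ => ∏ i, f (θ i)) ≤ c + ε) :
    J (fun θ => (f θ : ℂ)) ≤ ENNReal.ofReal (2 * Real.pi * c) := by
  have hpi := Real.pi_pos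
  obtain ⟨C, hC⟩ := (isCompact_Icc : IsCompact (Icc (0 : ℝ) (2 * Real.pi))).exists_bound_of_continuousOn
    hf.continuousOn
  have hm : MemLp (fun θ => (f θ : ℂ)) 2 mc := by
    refine MemLp.of_bound (C := C) (Complex.continuous_ofReal.comp hf).aestronglyMeasurable ?_
    unfold mc
    filter_upwards [ae_restrict_mem (μ := volume) measurableSet_Ioc] with t ht
    rw [Complex.norm_real]
    exact hC t (Ioc_subset_Icc_self ht)
  have hev : ∀ θ, f (ap θ) = f θ := by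
    intro θ
    unfold ap
    split_ifs
    · exact hp θ
    · have := hp (θ - Real.pi)
      rw [sub_add_cancel] at this
      exact this.symm
  have hcont := continuous_ex (integrable_of_memLp hm)
  have hsix : six (fun θ => (f θ : ℂ)) = fun _ θ => ENNReal.ofReal (f θ) := by
    funext i θ
    have e : ∀ t : ℝ, ‖(f t : ℂ)‖ₑ = ENNReal.ofReal (f t) := by
      intro t
      rw [← ofReal_norm, Complex.norm_real, Real.norm_of_nonneg (h0 t)]
    unfold six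
    split_ifs
    · exact e θ
    · rw [e, hev]
  have hexp : ∀ n : ℕ, ∫⁻ x, ‖ex (fun θ => (f θ : ℂ)) x‖ₑ ^ 6 * ENNReal.ofReal (gw ((n : ℝ) + 1) x) ≤
      ENNReal.ofReal (2 * Real.pi * I6 ((n : ℝ) + 1) fun θ => ∏ i, f (θ i)) := by
    intro n
    have hR : (0 : ℝ) < (n : ℝ) + 1 := by positivity
    have := expand_le hm hR
    rw [hsix, l6_eq hf h0, ← ENNReal.ofReal_mul (by positivity)] at this
    exact this
  have h1 : J (fun θ => (f θ : ℂ)) ≤ liminf (fun n : ℕ => ∫⁻ x, ‖ex (fun θ => (f θ : ℂ)) x‖ₑ ^ 6 *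
      ENNReal.ofReal (gw ((n : ℝ) + 1) x)) atTop := by
    have hlim : ∀ x, Tendsto (fun n : ℕ => ‖ex (fun θ => (f θ : ℂ)) x‖ₑ ^ 6 *
        ENNReal.ofReal (gw ((n : ℝ) + 1) x)) atTop (𝓝 (‖ex (fun θ => (f θ : ℂ)) x‖ₑ ^ 6)) := by
      intro x
      have h2 : Tendsto (fun n : ℕ => ENNReal.ofReal (gw ((n : ℝ) + 1) x)) atTop (𝓝 1) := by
        have h3 : Tendsto (fun n : ℕ => gw ((n : ℝ) + 1) x) atTop (𝓝 1) := by
          unfold gw
          have h1 : Tendsto (fun n : ℕ => ((n : ℝ) + 1)) atTop atTop :=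
            tendsto_atTop_add_const_right _ _ tendsto_natCast_atTop_atTop
          have h2 : Tendsto (fun n : ℕ => 2 * ((n : ℝ) + 1) ^ 2) atTop atTop :=
            Tendsto.const_mul_atTop (by norm_num) ((tendsto_pow_atTop (by norm_num)).comp h1)
          have h3 : Tendsto (fun n : ℕ => -(sq x / (2 * ((n : ℝ) + 1) ^ 2))) atTop (𝓝 0) := by
            simpa using (h2.const_div_atTop (sq x)).neg
          simpa [Function.comp_def] using (Real.continuous_exp.tendsto _).comp h3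
        simpa [Function.comp_def] using (ENNReal.continuous_ofReal.tendsto _).comp h3
      have h4 := ENNReal.Tendsto.const_mul (a := ‖ex (fun θ => (f θ : ℂ)) x‖ₑ ^ 6) h2
        (Or.inl one_ne_zero)
      simpa using h4
    calc J (fun θ => (f θ : ℂ)) = ∫⁻ x, liminf (fun n : ℕ => ‖ex (fun θ => (f θ : ℂ)) x‖ₑ ^ 6 *
          ENNReal.ofReal (gw ((n : ℝ) + 1) x)) atTop := by
          unfold J
          refine lintegral_congr fun x => ?_
          exact (hlim x).liminf_eq.symm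
      _ ≤ _ := lintegral_liminf_le fun n => by
          have hg := continuous_gw ((n : ℝ) + 1)
          fun_prop
  refine h1.trans ?_
  refine ENNReal.le_of_forall_pos_le_add fun ε hε _ => ?_
  have hε' : (0 : ℝ) < ε / (2 * Real.pi) := by positivity
  refine (Filter.liminf_le_of_frequently_le' ?_)
  refine Eventually.frequently ?_
  filter_upwards [h _ hε'] with n hn
  refine (hexp n).trans ?_
  have e : ENNReal.ofReal (2 * Real.pi * c) + (ε : ℝ≥0∞) ≥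
      ENNReal.ofReal (2 * Real.pi * c + ε) := by
    have := ENNReal.ofReal_add_le (p := 2 * Real.pi * c) (q := (ε : ℝ))
    rwa [ENNReal.ofReal_coe_nnreal] at this
  refine le_trans (ENNReal.ofReal_le_ofReal ?_) e
  have : 2 * Real.pi * (I6 ((n : ℝ) + 1) fun θ => ∏ i, f (θ i)) ≤
      2 * Real.pi * (c + ε / (2 * Real.pi)) := by gcongr
  refine this.trans (le_of_eq ?_)
  field_simp

/-- the six-fold integral of `1` is bounded -/
theorem i6_one_bdd : ∃ B : ℝ, 0 < B ∧ ∀ R : ℝ, 0 < R → I6 R (fun _ => 1) ≤ B := by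
  have hpi := Real.pi_pos
  have hne := J_one_ne_top
  refine ⟨(J fun _ => (1 : ℂ)).toReal / (2 * Real.pi) + 1, by positivity, fun R hR => ?_⟩
  have h := i6_le_J (f := fun _ => 1) continuous_const (fun _ => zero_le_one) (fun _ => rfl) hR
  simp only [Finset.prod_const_one, Complex.ofReal_one] at h
  have h2 := (ENNReal.ofReal_le_iff_le_toReal hne).1 h
  have h3 : I6 R (fun _ => 1) ≤ (J fun _ => (1 : ℂ)).toReal / (2 * Real.pi) := by
    rw [le_div_iff₀ (by positivity)]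
    linarith
  linarith

end Pool.Agent.Lib.MP_230119_an
end

section

/-!
# LEMMA G: continuous functions vanishing on closed hexagons
-/

set_option autoImplicit false

open MeasureTheory Set Filter Topology
open scoped ENNReal

namespace Pool.Agent.Lib.MP_230119_an

theorem i6_mono' {φ ψ : (Fin 6 → ℝ) → ℝ} (hφ : Continuous φ) (hψ : Continuous ψ)
    (h : ∀ θ : Fin 6 → ℝ, (∀ i, θ i ∈ Icc 0 (2 * Real.pi)) → φ θ ≤ ψ θ) (R : ℝ) :
    I6 R φ ≤ I6 R ψ := by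
  unfold I6
  refine integral_mono_ae (i6_integrable hφ R) (i6_integrable hψ R) ?_
  filter_upwards [st_ae_cube] with θ hθ
  exact mul_le_mul_of_nonneg_right (h θ hθ) (gk_nonneg _ _)

theorem st_cont_sum : Continuous fun θ : Fin 6 → ℝ => ∑ i, om (θ i) :=
  continuous_finsetSum _ fun i _ => continuous_om.comp (continuous_apply i)

theorem i6_sqrt_le {B : ℝ} (hB : ∀ R : ℝ, 0 < R → I6 R (fun _ => 1) ≤ B) {R : ℝ} (hR : 0 < R) :
    I6 R (fun θ => 4 * Real.sqrt (sq (∑ i, om (θ i)))) ≤ 8 / R * B := by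
  have h2 : (0 : ℝ) < R / Real.sqrt 2 := by positivity
  have h1 : I6 R (fun θ => 4 * Real.sqrt (sq (∑ i, om (θ i)))) ≤
      8 / R * I6 (R / Real.sqrt 2) (fun _ => 1) := by
    have hc : Continuous fun θ : Fin 6 → ℝ => 4 * Real.sqrt (sq (∑ i, om (θ i))) :=
      continuous_const.mul (Real.continuous_sqrt.comp (continuous_sq.comp st_cont_sum))
    unfold I6
    rw [← integral_const_mul]
    refine integral_mono (i6_integrable hc R) ?_ fun θ => ?_
    · have := (i6_integrable (φ := fun _ => (1 : ℝ)) continuous_const (R / Real.sqrt 2)).const_mul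
        (8 / R)
      exact this
    · simp only [one_mul]
      exact gk_mul_le hR _
  refine h1.trans ?_
  have := hB _ h2
  gcongr

/-- a continuous function which vanishes on closed hexagons -/
theorem st_compact {φ : (Fin 6 → ℝ) → ℝ} (hφ : Continuous φ)
    (h0 : ∀ θ, ∑ i, om (θ i) = 0 → φ θ = 0) {ε : ℝ} (hε : 0 < ε) :
    ∃ C : ℝ, 0 < C ∧ ∀ θ : Fin 6 → ℝ, (∀ i, θ i ∈ Icc 0 (2 * Real.pi)) →
      |φ θ| ≤ ε + C * (4 * Real.sqrt (sq (∑ i, om (θ i)))) := by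
  obtain ⟨C0, hC0⟩ := st_bdd hφ
  have hK : IsCompact (Set.pi univ fun _ : Fin 6 => Icc (0 : ℝ) (2 * Real.pi)) :=
    isCompact_univ_pi fun _ => isCompact_Icc
  have hcl : IsClosed {θ : Fin 6 → ℝ | ε ≤ |φ θ|} := isClosed_le continuous_const hφ.abs
  have hK2 := hK.inter_right hcl
  have hs : Continuous fun θ : Fin 6 → ℝ => Real.sqrt (sq (∑ i, om (θ i))) :=
    Real.continuous_sqrt.comp (continuous_sq.comp st_cont_sum)
  rcases (Set.pi univ (fun _ : Fin 6 => Icc (0 : ℝ) (2 * Real.pi)) ∩ {θ : Fin 6 → ℝ | ε ≤ |φ θ|}).eq_empty_or_nonempty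
    with he | hne
  · refine ⟨1, one_pos, fun θ hθ => ?_⟩
    have h1 : |φ θ| < ε := by
      by_contra hcon
      push Not at hcon
      have : θ ∈ (Set.pi univ (fun _ : Fin 6 => Icc (0 : ℝ) (2 * Real.pi)) ∩
          {θ : Fin 6 → ℝ | ε ≤ |φ θ|}) := ⟨fun i _ => hθ i, hcon⟩
      rw [he] at this
      exact this
    have := Real.sqrt_nonneg (sq (∑ i, om (θ i)))
    nlinarith
  · obtain ⟨θ0, hθ0, hmin⟩ := hK2.exists_isMinOn hne hs.continuousOn
    have hpos : 0 < Real.sqrt (sq (∑ i, om (θ0 i))) := by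
      rcases (Real.sqrt_nonneg (sq (∑ i, om (θ0 i)))).lt_or_eq with h | h
      · exact h
      · exfalso
        have h1 : sq (∑ i, om (θ0 i)) = 0 := by
          have := (Real.sqrt_eq_zero (sq_nonneg' (∑ i, om (θ0 i)))).1 h.symm
          exact this
        have h2 : ∑ i, om (θ0 i) = 0 := by
          unfold sq at h1
          have h3 : (∑ i, om (θ0 i)).1 = 0 := by nlinarith [sq_nonneg (∑ i, om (θ0 i)).2]
          have h4 : (∑ i, om (θ0 i)).2 = 0 := by nlinarith [sq_nonneg (∑ i, om (θ0 i)).1]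
          exact Prod.ext h3 h4
        have h3 := h0 θ0 h2
        have h4 : ε ≤ |φ θ0| := hθ0.2
        rw [h3, abs_zero] at h4
        linarith
    set δ := Real.sqrt (sq (∑ i, om (θ0 i))) with hδ
    have hC0' : 0 ≤ |C0| := abs_nonneg _
    refine ⟨(|C0| + 1) / δ, by positivity, fun θ hθ => ?_⟩
    have hs0 := Real.sqrt_nonneg (sq (∑ i, om (θ i)))
    by_cases hc : ε ≤ |φ θ|
    · have h1 : δ ≤ Real.sqrt (sq (∑ i, om (θ i))) := hmin ⟨fun i _ => hθ i, hc⟩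
      have h2 : |φ θ| ≤ |C0| := (hC0 θ hθ).trans (le_abs_self _)
      have h3 : (|C0| + 1) / δ * (4 * δ) ≤ (|C0| + 1) / δ * (4 * Real.sqrt (sq (∑ i, om (θ i)))) := by
        gcongr
      have h4 : (|C0| + 1) / δ * (4 * δ) = 4 * (|C0| + 1) := by field_simp
      linarith
    · push Not at hc
      have : 0 ≤ (|C0| + 1) / δ * (4 * Real.sqrt (sq (∑ i, om (θ i)))) := by positivity
      linarith

/-- LEMMA G -/
theorem lemmaG {φ : (Fin 6 → ℝ) → ℝ} (hφ : Continuous φ)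
    (h0 : ∀ θ, ∑ i, om (θ i) = 0 → φ θ = 0) :
    ∀ ε > 0, ∀ᶠ n : ℕ in atTop, I6 ((n : ℝ) + 1) (fun θ => |φ θ|) ≤ ε := by
  intro ε hε
  obtain ⟨B, hB0, hB⟩ := i6_one_bdd
  obtain ⟨C, hC, hle⟩ := st_compact hφ h0 (ε := ε / (2 * B)) (by positivity)
  have hlim : Tendsto (fun n : ℕ => C * (8 / ((n : ℝ) + 1) * B)) atTop (𝓝 0) := by
    have h1 : Tendsto (fun n : ℕ => ((n : ℝ) + 1)) atTop atTop :=
      tendsto_atTop_add_const_right _ _ tendsto_natCast_atTop_atTop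
    have h2 := h1.const_div_atTop 8
    have h3 := (h2.mul_const B).const_mul C
    simpa using h3
  have hev := hlim.eventually (ge_mem_nhds (show (0 : ℝ) < ε / 2 by positivity))
  filter_upwards [hev] with n hn
  have hR : (0 : ℝ) < (n : ℝ) + 1 := by positivity
  have hc1 : Continuous fun θ : Fin 6 → ℝ => C * (4 * Real.sqrt (sq (∑ i, om (θ i)))) :=
    continuous_const.mul (continuous_const.mul
      (Real.continuous_sqrt.comp (continuous_sq.comp st_cont_sum)))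
  have h1 : I6 ((n : ℝ) + 1) (fun θ => |φ θ|) ≤
      I6 ((n : ℝ) + 1) (fun θ => ε / (2 * B) * 1 + C * (4 * Real.sqrt (sq (∑ i, om (θ i))))) := by
    refine i6_mono' hφ.abs (by fun_prop) (fun θ hθ => ?_) _
    rw [mul_one]
    exact hle θ hθ
  rw [i6_add (φ := fun _ => ε / (2 * B) * 1) continuous_const hc1,
    i6_const_mul (ε / (2 * B)) (fun _ => 1),
    i6_const_mul C (fun θ : Fin 6 → ℝ => 4 * Real.sqrt (sq (∑ i, om (θ i))))] at h1
  have h2 := hB _ hR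
  have h3 := i6_sqrt_le hB hR
  have h4 : ε / (2 * B) * I6 ((n : ℝ) + 1) (fun _ => 1) ≤ ε / (2 * B) * B := by gcongr
  have h5 : ε / (2 * B) * B = ε / 2 := by field_simp
  have h6 : C * I6 ((n : ℝ) + 1) (fun θ => 4 * Real.sqrt (sq (∑ i, om (θ i)))) ≤
      C * (8 / ((n : ℝ) + 1) * B) := by gcongr
  linarith

/-- two continuous functions which agree on closed hexagons -/
theorem lemmaG2 {φ ψ : (Fin 6 → ℝ) → ℝ} (hφ : Continuous φ) (hψ : Continuous ψ)
    (h0 : ∀ θ, ∑ i, om (θ i) = 0 → φ θ = ψ θ) :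
    ∀ ε > 0, ∀ᶠ n : ℕ in atTop, |I6 ((n : ℝ) + 1) φ - I6 ((n : ℝ) + 1) ψ| ≤ ε := by
  intro ε hε
  have hd : Continuous fun θ : Fin 6 → ℝ => |φ θ - ψ θ| := (hφ.sub hψ).abs
  filter_upwards [lemmaG (φ := fun θ => φ θ - ψ θ) (hφ.sub hψ)
    (fun θ hθ => by simp [h0 θ hθ]) ε hε] with n hn
  have h1 : I6 ((n : ℝ) + 1) φ ≤ I6 ((n : ℝ) + 1) (fun θ => ψ θ + |φ θ - ψ θ|) :=
    i6_mono hφ (hψ.add hd) (fun θ => by
      show φ θ ≤ ψ θ + |φ θ - ψ θ|
      linarith [le_abs_self (φ θ - ψ θ)]) _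
  have h2 : I6 ((n : ℝ) + 1) ψ ≤ I6 ((n : ℝ) + 1) (fun θ => φ θ + |φ θ - ψ θ|) :=
    i6_mono hψ (hφ.add hd) (fun θ => by
      show ψ θ ≤ φ θ + |φ θ - ψ θ|
      linarith [neg_abs_le (φ θ - ψ θ)]) _
  rw [i6_add hψ hd] at h1
  rw [i6_add hφ hd] at h2
  rw [abs_le]
  constructor <;> linarith

end Pool.Agent.Lib.MP_230119_an
end

section

/-!
# The weights and the AM-GM step
-/

set_option autoImplicit false

open MeasureTheory Set Filter Topology
open scoped ENNReal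

namespace Pool.Agent.Lib.MP_230119_an

theorem sq_three (a b c : ℝ) : sq (om a + om b + om c) = 1 + rho a b c := by
  unfold rho
  simp only [sq, om, Prod.fst_add, Prod.snd_add, Real.cos_sub]
  have h1 := Real.cos_sq_add_sin_sq a
  have h2 := Real.cos_sq_add_sin_sq b
  have h3 := Real.cos_sq_add_sin_sq c
  linear_combination h1 + h2 + h3

theorem rho_ge (a b c : ℝ) : -1 ≤ rho a b c := by
  have := sq_nonneg' (om a + om b + om c)
  rw [sq_three] at this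
  linarith

theorem rho_le (a b c : ℝ) : rho a b c ≤ 8 := by
  unfold rho
  have h1 := Real.cos_le_one (a - b)
  have h2 := Real.cos_le_one (b - c)
  have h3 := Real.cos_le_one (c - a)
  linarith

theorem p3_nonneg {s : ℝ} (h0 : 0 ≤ s) (h9 : s ≤ 9) : 0 ≤ p3 s := by
  unfold p3
  nlinarith [mul_nonneg h0 (sq_nonneg (s - 9)), mul_nonneg h0 (sub_nonneg.2 h9)]

theorem DD_nonneg (a b c : ℝ) : 0 ≤ DD a b c := sq_nonneg _

theorem wT_nonneg (a b c a' b' c' : ℝ) : 0 ≤ wT a b c a' b' c' := by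
  unfold wT
  have h1 := rho_ge a b c
  have h2 := rho_le a b c
  have h3 := p3_nonneg (s := 1 + rho a b c) (by linarith) (by linarith)
  have h4 := DD_nonneg a b c
  have h5 := DD_nonneg a' b' c'
  have h6 : 0 ≤ 8 - rho a b c := by linarith
  positivity

@[fun_prop]
theorem continuous_rho : Continuous fun p : ℝ × ℝ × ℝ => rho p.1 p.2.1 p.2.2 := by
  unfold rho
  fun_prop

@[fun_prop]
theorem continuous_DD : Continuous fun p : ℝ × ℝ × ℝ => DD p.1 p.2.1 p.2.2 := by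
  unfold DD
  fun_prop

@[fun_prop]
theorem continuous_chi : Continuous fun p : ℝ × ℝ × ℝ => chi p.1 p.2.1 p.2.2 := by
  unfold chi
  fun_prop

/-- the weight of the first split -/
noncomputable def w0 (θ : Fin 6 → ℝ) : ℝ := wT (θ 0) (θ 1) (θ 2) (θ 3) (θ 4) (θ 5)

/-- the weight of the complementary triple -/
noncomputable def w0' (θ : Fin 6 → ℝ) : ℝ := wT (θ 3) (θ 4) (θ 5) (θ 0) (θ 1) (θ 2)

def hA (h : ℝ → ℝ) (θ : Fin 6 → ℝ) : ℝ := h (θ 0) * h (θ 1) * h (θ 2)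

def hB (h : ℝ → ℝ) (θ : Fin 6 → ℝ) : ℝ := h (θ 3) * h (θ 4) * h (θ 5)

theorem continuous_w0 : Continuous w0 := by
  unfold w0 wT rho DD p3
  fun_prop

theorem continuous_w0' : Continuous w0' := by
  unfold w0' wT rho DD p3
  fun_prop

theorem continuous_hA {h : ℝ → ℝ} (hh : Continuous h) : Continuous (hA h) := by
  unfold hA
  fun_prop

theorem continuous_hB {h : ℝ → ℝ} (hh : Continuous h) : Continuous (hB h) := by
  unfold hB
  fun_prop

theorem w0_eq {θ : Fin 6 → ℝ} (h : ∑ i, om (θ i) = 0) : w0 θ = w0' θ := by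
  have h1 : om (θ 0) + om (θ 1) + om (θ 2) = -(om (θ 3) + om (θ 4) + om (θ 5)) := by
    rw [Fin.sum_univ_six] at h
    rw [eq_neg_iff_add_eq_zero]
    rw [← h]
    abel
  have h2 : rho (θ 0) (θ 1) (θ 2) = rho (θ 3) (θ 4) (θ 5) := by
    have e1 := sq_three (θ 0) (θ 1) (θ 2)
    have e2 := sq_three (θ 3) (θ 4) (θ 5)
    rw [h1, sq_neg, e2] at e1
    linarith
  unfold w0 w0' wT
  rw [h2]
  ring

/-- the permutation of a split -/
noncomputable def sp (k : Fin 10) : Equiv.Perm (Fin 6) :=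
  Equiv.ofBijective (spl k) (by revert k; decide)

theorem sp_apply (k : Fin 10) (i : Fin 6) : sp k i = spl k i := rfl

/-- the swap of the two triples -/
def swp : Equiv.Perm (Fin 6) where
  toFun := ![3, 4, 5, 0, 1, 2]
  invFun := ![3, 4, 5, 0, 1, 2]
  left_inv := by decide
  right_inv := by decide

theorem wk_eq (θ : Fin 6 → ℝ) (k : Fin 10) : wk θ k = w0 (fun i => θ (sp k i)) := rfl

theorem w0_swp (θ : Fin 6 → ℝ) : w0 (fun i => θ (swp i)) = w0' θ := rfl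

theorem hA_swp (h : ℝ → ℝ) (θ : Fin 6 → ℝ) : hA h (fun i => θ (swp i)) = hB h θ := rfl

theorem sum_perm (σ : Equiv.Perm (Fin 6)) (θ : Fin 6 → ℝ) :
    ∑ i, om (θ (σ i)) = ∑ i, om (θ i) := Equiv.sum_comp σ fun i => om (θ i)

theorem prod_perm (σ : Equiv.Perm (Fin 6)) (f : ℝ → ℝ) (θ : Fin 6 → ℝ) :
    ∏ i, f (θ (σ i)) = ∏ i, f (θ i) := Equiv.prod_comp σ fun i => f (θ i)

theorem cont_perm {φ : (Fin 6 → ℝ) → ℝ} (hφ : Continuous φ) (σ : Equiv.Perm (Fin 6)) :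
    Continuous fun θ : Fin 6 → ℝ => φ (fun i => θ (σ i)) :=
  hφ.comp (continuous_pi fun i => continuous_apply (σ i))

/-- the sum of the weights -/
noncomputable def WW (θ : Fin 6 → ℝ) : ℝ :=
  ∑ k : Fin 10, (w0 (fun i => θ (sp k i)) + w0' (fun i => θ (sp k i))) / 2

theorem continuous_WW : Continuous WW := by
  unfold WW
  refine continuous_finsetSum _ fun k _ => ?_
  exact ((cont_perm continuous_w0 (sp k)).add (cont_perm continuous_w0' (sp k))).div_const 2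

theorem WW_eq_one (hW : LemmaW) {θ : Fin 6 → ℝ} (h : ∑ i, om (θ i) = 0) : WW θ = 1 := by
  rw [← hW θ h]
  unfold WW
  refine Finset.sum_congr rfl fun k _ => ?_
  rw [wk_eq]
  have : ∑ i, om ((fun i => θ (sp k i)) i) = 0 := by
    rw [← h]
    exact sum_perm (sp k) θ
  rw [← w0_eq this]
  ring

/-- AM-GM for one split -/
theorem amgm_split {f : ℝ → ℝ} (θ : Fin 6 → ℝ) :
    ∏ i, f (θ i) ≤ (hA (fun t => f t ^ 2) θ + hB (fun t => f t ^ 2) θ) / 2 := by
  rw [Fin.prod_univ_six]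
  unfold hA hB
  nlinarith [sq_nonneg (f (θ 0) * f (θ 1) * f (θ 2) - f (θ 3) * f (θ 4) * f (θ 5))]

theorem w0_nonneg (θ : Fin 6 → ℝ) : 0 ≤ w0 θ := wT_nonneg _ _ _ _ _ _

theorem w0'_nonneg (θ : Fin 6 → ℝ) : 0 ≤ w0' θ := wT_nonneg _ _ _ _ _ _

theorem amgm_all {f : ℝ → ℝ} (θ : Fin 6 → ℝ) :
    (∏ i, f (θ i)) * WW θ ≤ ∑ k : Fin 10,
      (1 / 4 : ℝ) * ((fun θ' : Fin 6 → ℝ => (w0 θ' + w0' θ') *
        (hA (fun t => f t ^ 2) θ' + hB (fun t => f t ^ 2) θ')) (fun i => θ (sp k i))) := by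
  unfold WW
  rw [Finset.mul_sum]
  refine Finset.sum_le_sum fun k _ => ?_
  rw [← prod_perm (sp k) f θ]
  have h1 := amgm_split (f := f) (fun i => θ (sp k i))
  have h2 := w0_nonneg (fun i => θ (sp k i))
  have h3 := w0'_nonneg (fun i => θ (sp k i))
  simp only at h1 ⊢
  nlinarith [mul_le_mul_of_nonneg_left h1 (add_nonneg h2 h3)]

section
variable {h : ℝ → ℝ}

theorem i6_w0'_hB (R : ℝ) :
    I6 R (fun θ => w0' θ * hB h θ) = I6 R (fun θ => w0 θ * hA h θ) := by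
  rw [← i6_perm swp R (fun θ => w0 θ * hA h θ)]
  rfl

theorem i6_w0'_hA (R : ℝ) :
    I6 R (fun θ => w0' θ * hA h θ) = I6 R (fun θ => w0 θ * hB h θ) := by
  rw [← i6_perm swp R (fun θ => w0 θ * hB h θ)]
  rfl

theorem i6_all (hh : Continuous h) (R : ℝ) :
    I6 R (fun θ => (w0 θ + w0' θ) * (hA h θ + hB h θ)) =
      2 * I6 R (fun θ => w0 θ * hA h θ) + 2 * I6 R (fun θ => w0 θ * hB h θ) := by
  have e : (fun θ => (w0 θ + w0' θ) * (hA h θ + hB h θ)) = fun θ =>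
      (w0 θ * hA h θ + w0 θ * hB h θ) + (w0' θ * hA h θ + w0' θ * hB h θ) := by
    funext θ
    ring
  have c1 : Continuous fun θ => w0 θ * hA h θ := continuous_w0.mul (continuous_hA hh)
  have c2 : Continuous fun θ => w0 θ * hB h θ := continuous_w0.mul (continuous_hB hh)
  have c3 : Continuous fun θ => w0' θ * hA h θ := continuous_w0'.mul (continuous_hA hh)
  have c4 : Continuous fun θ => w0' θ * hB h θ := continuous_w0'.mul (continuous_hB hh)
  have c12 : Continuous fun θ => w0 θ * hA h θ + w0 θ * hB h θ := c1.add c2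
  have c34 : Continuous fun θ => w0' θ * hA h θ + w0' θ * hB h θ := c3.add c4
  rw [e, i6_add c12 c34, i6_add c1 c2, i6_add c3 c4, i6_w0'_hB, i6_w0'_hA]
  ring

end

/-- the AM-GM step -/
theorem st03_upper {f : ℝ → ℝ} (hf : Continuous f) (hW : LemmaW) :
    ∀ ε > 0, ∀ᶠ n : ℕ in atTop, I6 ((n : ℝ) + 1) (fun θ => ∏ i, f (θ i)) ≤
      10 * I6 ((n : ℝ) + 1) (fun θ => w0 θ * hA (fun t => f t ^ 2) θ) + ε := by
  intro ε hε
  have hh : Continuous fun t => f t ^ 2 := hf.pow 2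
  have hc : Continuous fun θ : Fin 6 → ℝ => ∏ i, f (θ i) :=
    continuous_finsetProd _ fun i _ => hf.comp (continuous_apply i)
  have c1 := continuous_w0.mul (continuous_hB hh)
  have c1' := continuous_w0'.mul (continuous_hB hh)
  have c2 := continuous_w0.mul (continuous_hA hh)
  -- the two limits agree
  have h1 := lemmaG2 (φ := fun θ => w0 θ * hB (fun t => f t ^ 2) θ)
    (ψ := fun θ => w0' θ * hB (fun t => f t ^ 2) θ) c1 c1'
    (fun θ hθ => by rw [w0_eq hθ]) (ε / 10) (by positivity)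
  have h2 := lemmaG2 (φ := fun θ => ∏ i, f (θ i)) (ψ := fun θ => (∏ i, f (θ i)) * WW θ) hc
    (hc.mul continuous_WW) (fun θ hθ => by rw [WW_eq_one hW hθ, mul_one]) (ε / 2)
    (by positivity)
  filter_upwards [h1, h2] with n hn1 hn2
  rw [i6_w0'_hB] at hn1
  have hF : Continuous fun θ' : Fin 6 → ℝ => (w0 θ' + w0' θ') *
      (hA (fun t => f t ^ 2) θ' + hB (fun t => f t ^ 2) θ') :=
    (continuous_w0.add continuous_w0').mul ((continuous_hA hh).add (continuous_hB hh))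
  have hk : ∀ k : Fin 10, Continuous fun θ : Fin 6 → ℝ => (1 / 4 : ℝ) *
      ((fun θ' : Fin 6 → ℝ => (w0 θ' + w0' θ') *
        (hA (fun t => f t ^ 2) θ' + hB (fun t => f t ^ 2) θ')) (fun i => θ (sp k i))) := by
    intro k
    exact continuous_const.mul (cont_perm hF (sp k))
  have h3 : I6 ((n : ℝ) + 1) (fun θ => (∏ i, f (θ i)) * WW θ) ≤
      I6 ((n : ℝ) + 1) (fun θ => ∑ k : Fin 10, (1 / 4 : ℝ) *
      ((fun θ' : Fin 6 → ℝ => (w0 θ' + w0' θ') *
        (hA (fun t => f t ^ 2) θ' + hB (fun t => f t ^ 2) θ')) (fun i => θ (sp k i)))) :=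
    i6_mono (hc.mul continuous_WW) (continuous_finsetSum _ fun k _ => hk k)
      (fun θ => amgm_all θ) _
  rw [i6_sum Finset.univ fun k _ => hk k] at h3
  have h4 : ∀ k : Fin 10, I6 ((n : ℝ) + 1) (fun θ => (1 / 4 : ℝ) *
      ((fun θ' : Fin 6 → ℝ => (w0 θ' + w0' θ') *
        (hA (fun t => f t ^ 2) θ' + hB (fun t => f t ^ 2) θ')) (fun i => θ (sp k i)))) =
      1 / 4 * (2 * I6 ((n : ℝ) + 1) (fun θ => w0 θ * hA (fun t => f t ^ 2) θ) +
        2 * I6 ((n : ℝ) + 1) (fun θ => w0 θ * hB (fun t => f t ^ 2) θ)) := by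
    intro k
    rw [i6_const_mul, i6_perm (sp k) _ (fun θ' : Fin 6 → ℝ => (w0 θ' + w0' θ') *
        (hA (fun t => f t ^ 2) θ' + hB (fun t => f t ^ 2) θ')), i6_all hh]
  rw [Finset.sum_congr rfl fun k _ => h4 k] at h3
  rw [Finset.sum_const, Finset.card_univ, Fintype.card_fin, nsmul_eq_mul] at h3
  have h5 := (abs_le.1 hn1).2
  have h6 := (abs_le.1 hn2).2
  push_cast at h3
  linarith

/-- the case of the constant function -/
theorem st03_one (hW : LemmaW) :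
    ∀ ε > 0, ∀ᶠ n : ℕ in atTop, 10 * I6 ((n : ℝ) + 1) (fun θ => w0 θ * hA (fun _ => 1) θ) ≤
      I6 ((n : ℝ) + 1) (fun _ => 1) + ε := by
  intro ε hε
  have h2 := lemmaG2 (φ := WW) (ψ := fun _ => 1) continuous_WW continuous_const
    (fun θ hθ => WW_eq_one hW hθ) ε hε
  filter_upwards [h2] with n hn
  have hk : ∀ k : Fin 10, Continuous fun θ : Fin 6 → ℝ =>
      (w0 (fun i => θ (sp k i)) + w0' (fun i => θ (sp k i))) / 2 := fun k =>
    ((cont_perm continuous_w0 (sp k)).add (cont_perm continuous_w0' (sp k))).div_const 2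
  have h3 : I6 ((n : ℝ) + 1) WW = 10 * I6 ((n : ℝ) + 1) (fun θ => w0 θ * hA (fun _ => 1) θ) := by
    unfold WW
    rw [i6_sum Finset.univ fun k _ => hk k]
    have h4 : ∀ k : Fin 10, I6 ((n : ℝ) + 1) (fun θ =>
        (w0 (fun i => θ (sp k i)) + w0' (fun i => θ (sp k i))) / 2) =
        I6 ((n : ℝ) + 1) (fun θ => w0 θ * hA (fun _ => 1) θ) := by
      intro k
      have e : (fun θ : Fin 6 → ℝ => (w0 (fun i => θ (sp k i)) + w0' (fun i => θ (sp k i))) / 2) =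
          fun θ : Fin 6 → ℝ => (1 / 2 : ℝ) * ((fun θ' => w0 θ' + w0' θ') (fun i => θ (sp k i))) := by
        funext θ
        simp only
        ring
      rw [e, i6_const_mul, i6_perm (sp k) _ (fun θ' => w0 θ' + w0' θ'),
        i6_add continuous_w0 continuous_w0']
      have e1 : (fun θ : Fin 6 → ℝ => w0 θ * hA (fun _ => 1) θ) = w0 := by
        funext θ
        unfold hA
        ring
      have e2 : I6 ((n : ℝ) + 1) w0' = I6 ((n : ℝ) + 1) w0 := by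
        have := i6_w0'_hB (h := fun _ => 1) ((n : ℝ) + 1)
        rw [e1] at this
        rw [← this]
        congr 1
        funext θ
        unfold hB
        ring
      rw [e1, e2]
      have e3 : I6 ((n : ℝ) + 1) (fun θ => w0 θ) = I6 ((n : ℝ) + 1) w0 := rfl
      have e4 : I6 ((n : ℝ) + 1) (fun θ => w0' θ) = I6 ((n : ℝ) + 1) w0' := rfl
      ring
    rw [Finset.sum_congr rfl fun k _ => h4 k, Finset.sum_const, Finset.card_univ,
      Fintype.card_fin, nsmul_eq_mul]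
    norm_num
  rw [h3] at hn
  have := (abs_le.1 hn).2
  linarith

end Pool.Agent.Lib.MP_230119_an
end
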