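import Pool.Agent.Lib.MP_230119_an.SGDef2
import Pool.Agent.Lib.MP_230119_an.Mg.G013

section

set_option autoImplicit false

open MeasureTheory Set Filter Topology
open scoped ENNReal

namespace Pool.Agent.Lib.MP_230119_an

/-- `L6` is invariant under permutations of its six arguments. -/
theorem sg13_L6_perm (R : ℝ) (u : Fin 6 → ℝ → ℝ≥0∞) (σ : Equiv.Perm (Fin 6)) :
    L6 R (fun i => u (σ i)) = L6 R u := by
  have hp := measurePreserving_piCongrLeft (fun _ : Fin 6 => mc) σ
  have h := hp.lintegral_comp_emb (MeasurableEquiv.measurableEmbedding _)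
    (fun θ : Fin 6 → ℝ => (∏ i, u i (θ i)) * ENNReal.ofReal (gk R (∑ i, om (θ i))))
  unfold L6
  rw [← h]
  refine lintegral_congr fun θ => ?_
  have hval : ∀ i, (MeasurableEquiv.piCongrLeft (fun _ : Fin 6 => ℝ) σ) θ (σ i) = θ i := by
    intro i
    exact Equiv.piCongrLeft_apply_apply (fun _ : Fin 6 => ℝ) σ θ i
  congr 1
  · rw [← Equiv.prod_comp σ (fun i => u i
      ((MeasurableEquiv.piCongrLeft (fun _ : Fin 6 => ℝ) σ) θ i))]
    refine Finset.prod_congr rfl fun i _ => ?_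
    rw [hval i]
  · congr 2
    rw [← Equiv.sum_comp σ (fun i => om
      ((MeasurableEquiv.piCongrLeft (fun _ : Fin 6 => ℝ) σ) θ i))]
    refine Finset.sum_congr rfl fun i _ => ?_
    rw [hval i]

theorem sg13_aemeas {R : ℝ} {u : Fin 6 → ℝ → ℝ≥0∞} (hu : ∀ k, AEMeasurable (u k) mc) :
    AEMeasurable (fun θ : Fin 6 → ℝ => (∏ i, u i (θ i)) *
      ENNReal.ofReal (gk R (∑ i, om (θ i)))) (Measure.pi fun _ => mc) := by
  refine AEMeasurable.mul ?_ ?_
  · refine Finset.aemeasurable_fun_prod _ fun i _ => ?_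
    exact (hu i).comp_quasiMeasurePreserving
      (Measure.quasiMeasurePreserving_eval (μ := fun _ : Fin 6 => mc) i)
  · have h : Continuous fun θ : Fin 6 → ℝ => gk R (∑ i, om (θ i)) :=
      (continuous_gk R).comp (by fun_prop)
    exact h.measurable.ennreal_ofReal.aemeasurable

theorem sg13_step {R : ℝ} {u v : Fin 6 → ℝ → ℝ≥0∞} {F F' s : ℝ → ℝ≥0∞} {i j : Fin 6}
    (hij : i ≠ j) (hu : ∀ k, AEMeasurable (u k) mc)
    (hFs : ∀ a b, F a * F' b + F' a * F b ≤ 2 * (s a * s b))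
    (hui : u i = F) (huj : u j = F') (hvi : v i = s) (hvj : v j = s)
    (hv : ∀ k, k ≠ i → k ≠ j → v k = u k) : L6 R u ≤ L6 R v := by
  have h1 := sg13_L6_perm R u (Equiv.swap i j)
  have h2 : 2 * L6 R u ≤ 2 * L6 R v := by
    calc 2 * L6 R u = L6 R u + L6 R (fun k => u (Equiv.swap i j k)) := by rw [h1, two_mul]
      _ = ∫⁻ θ : Fin 6 → ℝ, ((∏ k, u k (θ k)) * ENNReal.ofReal (gk R (∑ k, om (θ k))) +
            (∏ k, u (Equiv.swap i j k) (θ k)) * ENNReal.ofReal (gk R (∑ k, om (θ k))))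
            ∂(Measure.pi fun _ => mc) := by
          unfold L6
          rw [lintegral_add_left' (sg13_aemeas hu)]
      _ ≤ ∫⁻ θ : Fin 6 → ℝ, 2 * ((∏ k, v k (θ k)) * ENNReal.ofReal (gk R (∑ k, om (θ k))))
            ∂(Measure.pi fun _ => mc) := by
          refine lintegral_mono fun θ => ?_
          have hji : j ∈ (Finset.univ : Finset (Fin 6)).erase i :=
            Finset.mem_erase.2 ⟨hij.symm, Finset.mem_univ _⟩
          have dec : ∀ w : Fin 6 → ℝ≥0∞, ∏ k, w k =
              w i * (w j * ∏ k ∈ (Finset.univ.erase i).erase j, w k) := by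
            intro w
            rw [Finset.mul_prod_erase _ _ hji, Finset.mul_prod_erase _ _ (Finset.mem_univ i)]
          rw [← add_mul, ← mul_assoc 2]
          refine mul_le_mul_left ?_ _
          rw [dec (fun k => u k (θ k)), dec (fun k => u (Equiv.swap i j k) (θ k)),
            dec (fun k => v k (θ k))]
          have e1 : ∏ k ∈ (Finset.univ.erase i).erase j, u (Equiv.swap i j k) (θ k) =
              ∏ k ∈ (Finset.univ.erase i).erase j, u k (θ k) := by
            refine Finset.prod_congr rfl fun k hk => ?_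
            simp only [Finset.mem_erase, Finset.mem_univ, and_true] at hk
            rw [Equiv.swap_apply_of_ne_of_ne hk.2 hk.1]
          have e2 : ∏ k ∈ (Finset.univ.erase i).erase j, v k (θ k) =
              ∏ k ∈ (Finset.univ.erase i).erase j, u k (θ k) := by
            refine Finset.prod_congr rfl fun k hk => ?_
            simp only [Finset.mem_erase, Finset.mem_univ, and_true] at hk
            rw [hv k hk.2 hk.1]
          rw [e1, e2, Equiv.swap_apply_left, Equiv.swap_apply_right, hui, huj, hvi, hvj]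
          set P := ∏ k ∈ (Finset.univ.erase i).erase j, u k (θ k)
          calc F (θ i) * (F' (θ j) * P) + F' (θ i) * (F (θ j) * P)
              = (F (θ i) * F' (θ j) + F' (θ i) * F (θ j)) * P := by ring
            _ ≤ (2 * (s (θ i) * s (θ j))) * P := mul_le_mul_left (hFs _ _) _
            _ = 2 * (s (θ i) * (s (θ j) * P)) := by ring
      _ = 2 * L6 R v := by
          unfold L6
          rw [lintegral_const_mul' _ _ (by norm_num)]
  rwa [ENNReal.mul_le_mul_iff_right (by norm_num) (by norm_num)] at h2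

theorem sg13_point (f : ℝ → ℂ) (a b : ℝ) :
    ‖f a‖ₑ * ‖f (ap b)‖ₑ + ‖f (ap a)‖ₑ * ‖f b‖ₑ ≤
      2 * (ENNReal.ofReal (sharp f a) * ENNReal.ofReal (sharp f b)) := by
  have key : ‖f a‖ * ‖f (ap b)‖ + ‖f (ap a)‖ * ‖f b‖ ≤ 2 * (sharp f a * sharp f b) := by
    unfold sharp
    rw [← Real.sqrt_mul (by positivity)]
    have : 2 * Real.sqrt ((‖f a‖ ^ 2 + ‖f (ap a)‖ ^ 2) / 2 * ((‖f b‖ ^ 2 + ‖f (ap b)‖ ^ 2) / 2)) =
        Real.sqrt ((‖f a‖ ^ 2 + ‖f (ap a)‖ ^ 2) * (‖f b‖ ^ 2 + ‖f (ap b)‖ ^ 2)) := by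
      rw [show (2 : ℝ) = Real.sqrt 4 by
        rw [show (4 : ℝ) = 2 ^ 2 by norm_num]; exact (Real.sqrt_sq (by norm_num)).symm,
        ← Real.sqrt_mul (by norm_num)]
      congr 1
      rw [show Real.sqrt 4 = 2 by
        rw [show (4 : ℝ) = 2 ^ 2 by norm_num]; exact Real.sqrt_sq (by norm_num)]
      ring
    rw [this]
    apply Real.le_sqrt_of_sq_le
    nlinarith [sq_nonneg (‖f a‖ * ‖f b‖ - ‖f (ap a)‖ * ‖f (ap b)‖)]
  have e : ∀ x y : ℂ, ‖x‖ₑ * ‖y‖ₑ = ENNReal.ofReal (‖x‖ * ‖y‖) := by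
    intro x y
    rw [ENNReal.ofReal_mul (norm_nonneg _), ofReal_norm, ofReal_norm]
  rw [e, e, ← ENNReal.ofReal_add (by positivity) (by positivity),
    ← ENNReal.ofReal_mul (show 0 ≤ sharp f a from Real.sqrt_nonneg _),
    show (2 : ℝ≥0∞) = ENNReal.ofReal 2 by norm_num, ← ENNReal.ofReal_mul (by norm_num)]
  exact ENNReal.ofReal_le_ofReal key

theorem sg13_three {R : ℝ} {F F' s : ℝ → ℝ≥0∞} (hF : AEMeasurable F mc)
    (hF' : AEMeasurable F' mc) (hs : AEMeasurable s mc)
    (hFs : ∀ a b, F a * F' b + F' a * F b ≤ 2 * (s a * s b)) :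
    L6 R ![F, F, F, F', F', F'] ≤ L6 R (fun _ => s) := by
  have h3 : (fun _ : Fin 6 => s) = ![s, s, s, s, s, s] := by
    funext k
    fin_cases k <;> rfl
  calc L6 R ![F, F, F, F', F', F'] ≤ L6 R ![s, F, F, s, F', F'] := by
        refine sg13_step (i := 0) (j := 3) (by decide) ?_ hFs rfl rfl rfl rfl ?_
        · intro k; fin_cases k <;> first | exact hF | exact hF' | exact hs
        · intro k h1 h2
          fin_cases k <;> first | exact absurd rfl h1 | exact absurd rfl h2 | rfl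
    _ ≤ L6 R ![s, s, F, s, s, F'] := by
        refine sg13_step (i := 1) (j := 4) (by decide) ?_ hFs rfl rfl rfl rfl ?_
        · intro k; fin_cases k <;> first | exact hF | exact hF' | exact hs
        · intro k h1 h2
          fin_cases k <;> first | exact absurd rfl h1 | exact absurd rfl h2 | rfl
    _ ≤ L6 R ![s, s, s, s, s, s] := by
        refine sg13_step (i := 2) (j := 5) (by decide) ?_ hFs rfl rfl rfl rfl ?_
        · intro k; fin_cases k <;> first | exact hF | exact hF' | exact hs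
        · intro k h1 h2
          fin_cases k <;> first | exact absurd rfl h1 | exact absurd rfl h2 | rfl
    _ = L6 R (fun _ => s) := by rw [h3]

theorem symm_le {f : ℝ → ℂ} (hf : MemLp f 2 mc) (R : ℝ) :
    L6 R (six f) ≤ L6 R (fun _ θ => ENNReal.ofReal (sharp f θ)) := by
  have hfm : AEStronglyMeasurable f mc := hf.aestronglyMeasurable
  have hfm' : AEStronglyMeasurable (fun θ => f (ap θ)) mc :=
    hfm.comp_measurePreserving measurePreserving_ap
  have hF : AEMeasurable (fun θ => ‖f θ‖ₑ) mc := hfm.enorm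
  have hF' : AEMeasurable (fun θ => ‖f (ap θ)‖ₑ) mc := hfm'.enorm
  have hs : AEMeasurable (fun θ => ENNReal.ofReal (sharp f θ)) mc := by
    have h1 : AEMeasurable (fun θ => ‖f θ‖) mc := hfm.norm.aemeasurable
    have h2 : AEMeasurable (fun θ => ‖f (ap θ)‖) mc := hfm'.norm.aemeasurable
    have h3 : AEMeasurable (fun θ => sharp f θ) mc := by
      unfold sharp
      exact Real.continuous_sqrt.measurable.comp_aemeasurable
        (((h1.pow_const 2).add (h2.pow_const 2)).div_const 2)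
    exact h3.ennreal_ofReal
  have h0 : six f = ![fun θ => ‖f θ‖ₑ, fun θ => ‖f θ‖ₑ, fun θ => ‖f θ‖ₑ,
      fun θ => ‖f (ap θ)‖ₑ, fun θ => ‖f (ap θ)‖ₑ, fun θ => ‖f (ap θ)‖ₑ] := by
    funext k
    fin_cases k <;> simp [six] <;> rfl
  rw [h0]
  exact sg13_three hF hF' hs fun a b => sg13_point f a b

end Pool.Agent.Lib.MP_230119_an
end

section

set_option autoImplicit false

open MeasureTheory Set Filter Topology
open scoped ENNReal

namespace Pool.Agent.Lib.MP_230119_an

theorem sg12_memLp_ap {f : ℝ → ℂ} (hf : MemLp f 2 mc) : MemLp (fun θ => f (ap θ)) 2 mc :=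
  hf.comp_measurePreserving measurePreserving_ap

theorem sg12_sharp_nonneg (f : ℝ → ℂ) (θ : ℝ) : 0 ≤ sharp f θ := Real.sqrt_nonneg _

theorem memLp_sharp {f : ℝ → ℂ} (hf : MemLp f 2 mc) :
    MemLp (fun θ => (sharp f θ : ℂ)) 2 mc := by
  have h1 := hf.norm
  have h2 := (sg12_memLp_ap hf).norm
  have hm : AEMeasurable (fun θ => (sharp f θ : ℂ)) mc := by
    unfold sharp
    have a1 : AEMeasurable (fun θ => ‖f θ‖) mc := h1.aestronglyMeasurable.aemeasurable
    have a2 : AEMeasurable (fun θ => ‖f (ap θ)‖) mc := h2.aestronglyMeasurable.aemeasurable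
    exact Complex.measurable_ofReal.comp_aemeasurable
      (Real.continuous_sqrt.measurable.comp_aemeasurable
        (((a1.pow_const 2).add (a2.pow_const 2)).div_const 2))
  refine (h1.add h2).of_le hm.aestronglyMeasurable (Eventually.of_forall fun θ => ?_)
  rw [Complex.norm_real, Real.norm_of_nonneg (sg12_sharp_nonneg f θ)]
  have h3 : 0 ≤ ‖f θ‖ := norm_nonneg _
  have h4 : 0 ≤ ‖f (ap θ)‖ := norm_nonneg _
  simp only [Pi.add_apply]
  rw [Real.norm_of_nonneg (by positivity)]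
  unfold sharp
  rw [Real.sqrt_le_left (by positivity)]
  nlinarith [mul_nonneg h3 h4]

theorem N2_sharp {f : ℝ → ℂ} (hf : MemLp f 2 mc) : N2 (fun θ => (sharp f θ : ℂ)) = N2 f := by
  have h1 : ∀ θ, ‖(sharp f θ : ℂ)‖ₑ ^ 2 = (‖f θ‖ₑ ^ 2 + ‖f (ap θ)‖ₑ ^ 2) / 2 := by
    intro θ
    have e : ∀ z : ℂ, ‖z‖ₑ ^ 2 = ENNReal.ofReal (‖z‖ ^ 2) := by
      intro z
      rw [ENNReal.ofReal_pow (norm_nonneg _), ofReal_norm]
    rw [e, e, e, Complex.norm_real, Real.norm_of_nonneg (sg12_sharp_nonneg f θ)]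
    unfold sharp
    rw [Real.sq_sqrt (by positivity), ENNReal.ofReal_div_of_pos (by norm_num),
      ENNReal.ofReal_add (by positivity) (by positivity)]
    norm_num
  have hm : AEMeasurable (fun θ => ‖f θ‖ₑ ^ 2) mc :=
    hf.aestronglyMeasurable.enorm.pow_const 2
  have h2 : ∫⁻ θ, ‖f (ap θ)‖ₑ ^ 2 ∂mc = ∫⁻ θ, ‖f θ‖ₑ ^ 2 ∂mc := by
    have h3 := lintegral_map' (μ := mc) (f := fun θ => ‖f θ‖ₑ ^ 2) (g := ap)
      (by rw [measurePreserving_ap.map_eq]; exact hm) measurable_ap.aemeasurable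
    rw [measurePreserving_ap.map_eq] at h3
    exact h3.symm
  unfold N2
  simp_rw [h1, div_eq_mul_inv]
  rw [lintegral_mul_const'' _ (by
    exact hm.add ((sg12_memLp_ap hf).aestronglyMeasurable.enorm.pow_const 2)),
    lintegral_add_left' hm, h2, ← two_mul, mul_assoc, mul_comm, mul_assoc,
    ENNReal.inv_mul_cancel (by norm_num) (by norm_num), mul_one]

theorem sharp_ap (f : ℝ → ℂ) {θ : ℝ} (hθ : θ ∈ Ioc 0 (2 * Real.pi)) :
    sharp f (ap θ) = sharp f θ := by
  unfold sharp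
  rw [ap_ap hθ, add_comm]

theorem J_le_sharp {f : ℝ → ℂ} (hf : MemLp f 2 mc) :
    J f ≤ J (fun θ => (sharp f θ : ℂ)) := by
  have hstep : ∀ n : ℕ, ∫⁻ x, ‖ex f x‖ₑ ^ 6 * ENNReal.ofReal (gw ((n : ℝ) + 1) x) ≤
      J (fun θ => (sharp f θ : ℂ)) := by
    intro n
    have hR : (0 : ℝ) < (n : ℝ) + 1 := by positivity
    calc ∫⁻ x, ‖ex f x‖ₑ ^ 6 * ENNReal.ofReal (gw ((n : ℝ) + 1) x)
        ≤ ENNReal.ofReal (2 * Real.pi) * L6 ((n : ℝ) + 1) (six f) := expand_le hf hR
      _ ≤ ENNReal.ofReal (2 * Real.pi) *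
          L6 ((n : ℝ) + 1) (fun _ θ => ENNReal.ofReal (sharp f θ)) := by
          gcongr
          exact symm_le hf _
      _ ≤ _ := expand_ge (sg12_sharp_nonneg f) (memLp_sharp hf) (fun θ hθ => sharp_ap f hθ) hR
  have hlim : ∀ x : ℝ × ℝ, Tendsto
      (fun n : ℕ => ‖ex f x‖ₑ ^ 6 * ENNReal.ofReal (gw ((n : ℝ) + 1) x)) atTop
      (𝓝 (‖ex f x‖ₑ ^ 6)) := by
    intro x
    have h1 : Tendsto (fun n : ℕ => gw ((n : ℝ) + 1) x) atTop (𝓝 1) := by
      unfold gw
      have h2 : Tendsto (fun n : ℕ => -(sq x / (2 * ((n : ℝ) + 1) ^ 2))) atTop (𝓝 0) := by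
        have h3 : Tendsto (fun n : ℕ => 2 * ((n : ℝ) + 1) ^ 2) atTop atTop := by
          apply Tendsto.const_mul_atTop (by norm_num)
          exact (tendsto_pow_atTop (by norm_num)).comp
            (tendsto_atTop_add_const_right _ _ tendsto_natCast_atTop_atTop)
        have h4 := (h3.const_div_atTop (sq x)).neg
        simpa using h4
      have h5 := (Real.continuous_exp.tendsto 0).comp h2
      rw [Real.exp_zero] at h5
      exact h5
    have h6 : Tendsto (fun n : ℕ => ENNReal.ofReal (gw ((n : ℝ) + 1) x)) atTop (𝓝 1) := by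
      have := ENNReal.tendsto_ofReal h1
      simpa using this
    have h7 := ENNReal.Tendsto.const_mul (a := ‖ex f x‖ₑ ^ 6) h6 (Or.inl one_ne_zero)
    simpa using h7
  have hcont := continuous_ex (integrable_of_memLp hf)
  calc J f = ∫⁻ x, liminf
        (fun n : ℕ => ‖ex f x‖ₑ ^ 6 * ENNReal.ofReal (gw ((n : ℝ) + 1) x)) atTop := by
        unfold J
        refine lintegral_congr fun x => ?_
        exact (hlim x).liminf_eq.symm
    _ ≤ liminf (fun n : ℕ => ∫⁻ x, ‖ex f x‖ₑ ^ 6 * ENNReal.ofReal (gw ((n : ℝ) + 1) x)) atTop := by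
        apply lintegral_liminf_le
        intro n
        exact (hcont.enorm.measurable.pow_const 6).mul
          (continuous_gw _).measurable.ennreal_ofReal
    _ ≤ liminf (fun _ : ℕ => J (fun θ => (sharp f θ : ℂ))) atTop :=
        liminf_le_liminf (Eventually.of_forall hstep)
    _ = _ := liminf_const _

end Pool.Agent.Lib.MP_230119_an
end
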