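import Pool.Agent.Lib.MP_230119_an.Mg.G004
import Pool.Agent.Lib.MP_230119_an.Mg.G010
import Pool.Agent.Lib.MP_230119_an.Mg.G011
import Pool.Agent.Lib.MP_230119_an.Mg.G003
import Pool.Agent.Lib.MP_230119_an.Mg.G008
import Pool.Agent.Lib.MP_230119_an.ST04d
import Pool.Agent.Lib.MP_230119_an.Mg.G013
import Pool.Agent.Lib.MP_230119_an.Mg.G016

section

/-!
# F1 on (-1,0)
-/

set_option autoImplicit false

open Set Filter Topology

namespace Pool.Agent.Lib.MP_230119_an.EX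

theorem F1_neg {G u : ℝ → ℝ} (h : GF G u) {L : ℝ}
    (hL : Tendsto (fun x => G x + Real.log |x|) (𝓝[≠] 0) (𝓝 L)) :
    ∃ A1 A2 A3 : ℝ → ℝ,
      (∀ x ∈ Ioo (-1 : ℝ) 0, HasDerivAt (FF1 G u) (A1 x) x ∧ HasDerivAt A1 (A2 x) x ∧
        HasDerivAt A2 (A3 x) x ∧ |A1 x| ≤ 10 ∧ |A2 x| ≤ 14 ∧ |A3 x| ≤ 35) ∧
      Tendsto (FF1 G u) (𝓝[<] 0) (𝓝 0) ∧ Tendsto A1 (𝓝[<] 0) (𝓝 0) ∧
      Tendsto A2 (𝓝[<] 0) (𝓝 (1120 * (L - hdL gt.2 / SC))) := by
  obtain ⟨v, hv0, hvd, hvb⟩ := e2_neg h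
  obtain ⟨ed, el, eb⟩ := eps_neg h
  obtain ⟨_, _, _, _, _, _, p0, p1, p2, q0, q1, q2⟩ := B05c_heads
  obtain ⟨_, _, _, _, _, _, _, _, _, _, _, _, i1, i2⟩ := int_cert
  have hs : (0 : ℝ) < (SC : ℝ) := B05b_SC
  have hl : (0 : ℝ) < (LI : ℝ) := B05b_LI
  have hsl : (0 : ℝ) < (SC : ℝ) * LI := mul_pos hs hl
  set e : ℝ → ℝ := fun x => u x - 8 - evl (intP gm) x / (SC * LI) with hedef
  have hn0 : (0 : ℝ) ∉ Ioo (-1 : ℝ) 0 := fun h => lt_irrefl _ h.2
  have hch := B05c_chain (D := SC * LI) hn0 hvd (e := e) (fun x hx => by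
    rw [hv0]; exact ed x hx) (f := FL1 em) p0 p1 p2
  have heq : FF1 G u = fun x => (560 * x ^ 2 - 90 * x ^ 3 + 15 * x ^ 4 - x ^ 5) * v 0 x
      + (40 * x ^ 2 - 5 * x ^ 3) * e x + evl (derN 0 (FL1 em)) x / (SC * LI) := by
    funext x
    exact B05c_eq G u hv0 (fun _ => rfl) i1 i2 x
  have c0 : (Cm 0 : ℝ) / SC = 3 / 1000000 := by norm_num [Cm, SC]
  have c1 : (Cm 1 : ℝ) / SC = 6 / 1000000 := by norm_num [Cm, SC]
  have c2 : (Cm 2 : ℝ) / SC = 4 / 100000 := by norm_num [Cm, SC]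
  have c3 : (Cm 3 : ℝ) / SC = 1 / 1000 := by norm_num [Cm, SC]
  have b0 : ∀ x ∈ Ioo (-1 : ℝ) 0, |v 0 x| * (1 : ℝ) ≤ 3 / 1000000 := by
    intro x hx
    have := hvb 0 (by norm_num) x hx
    rw [c0] at this
    simpa using this
  have b1 : ∀ x ∈ Ioo (-1 : ℝ) 0, |v 1 x| * (1 : ℝ) ≤ 6 / 1000000 := by
    intro x hx
    have := hvb 1 (by norm_num) x hx
    rw [c1] at this
    simpa using this
  have b2 : ∀ x ∈ Ioo (-1 : ℝ) 0, |v 2 x| * (1 : ℝ) ≤ 4 / 100000 := by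
    intro x hx
    have := hvb 2 (by norm_num) x hx
    rw [c2] at this
    simpa using this
  have b3 : ∀ x ∈ Ioo (-1 : ℝ) 0, |v 3 x| * (1 : ℝ) ≤ 1 / 1000 := by
    intro x hx
    have := hvb 3 (by norm_num) x hx
    rw [c3] at this
    simpa using this
  have be : ∀ x ∈ Ioo (-1 : ℝ) 0, |e x| * (1 : ℝ) ≤ 9 / 1000000 := by
    intro x hx
    have := eb x hx
    rw [c0] at this
    rw [mul_one]
    refine this.trans (le_of_eq ?_)
    norm_num
  have f1 : ∀ x ∈ Ioo (-1 : ℝ) 0, |evl (derN 1 (FL1 em)) x / (SC * LI)| ≤ 2 := by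
    intro x hx
    have h1 := chk_neg (f := derN 1 (FL1 em)) c_fm11 (by norm_num) hx.2 hx.1.le
    rw [abs_div, abs_of_pos hsl, div_le_iff₀ hsl]
    refine h1.trans (le_of_eq ?_)
    simp only [m_fm11, ev]
    push_cast
    ring
  have f2 : ∀ x ∈ Ioo (-1 : ℝ) 0, |evl (derN 2 (FL1 em)) x / (SC * LI)| ≤ 10 := by
    intro x hx
    have h1 := chk_neg (f := derN 2 (FL1 em)) c_fm12 (by norm_num) hx.2 hx.1.le
    rw [abs_div, abs_of_pos hsl, div_le_iff₀ hsl]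
    refine h1.trans (le_of_eq ?_)
    simp only [m_fm12, ev]
    push_cast
    ring
  have f3 : ∀ x ∈ Ioo (-1 : ℝ) 0, |evl (derN 3 (FL1 em)) x / (SC * LI)| ≤ 26 := by
    intro x hx
    have h1 := chk_neg (f := derN 3 (FL1 em)) c_fm13 (by norm_num) hx.2 hx.1.le
    rw [abs_div, abs_of_pos hsl, div_le_iff₀ hsl]
    refine h1.trans (le_of_eq ?_)
    simp only [m_fm13, ev]
    push_cast
    ring
  have hIoo : Ioo (-1 : ℝ) 0 ∈ 𝓝[<] (0 : ℝ) := Ioo_mem_nhdsLT (by norm_num)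
  have lv0 : Tendsto (v 0) (𝓝[<] 0) (𝓝 (L - hdL gm.2 / SC)) := by
    have h1 := (B05e_lim hL (g := gm) heads.2.2.2.2.2.2.2.2.2.1).mono_left
      (nhdsWithin_mono 0 (fun x (hx : x < 0) => hx.ne) : 𝓝[<] (0 : ℝ) ≤ 𝓝[≠] 0)
    refine h1.congr fun x => ?_
    rw [hv0]
  have le0 : ∀ j, hdL (derN j (FL1 em)).1 = 0 →
      Tendsto (fun x => evl (derN j (FL1 em)) x / (SC * LI)) (𝓝[<] 0)
        (𝓝 (hdL (derN j (FL1 em)).2 / (SC * LI))) := by
    intro j hj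
    exact ((tendsto_evl _ hj).mono_left
      (nhdsWithin_mono 0 (fun x (hx : x < 0) => hx.ne) : 𝓝[<] (0 : ℝ) ≤ 𝓝[≠] 0)).div_const _
  have cont : ∀ (P : ℝ → ℝ), Continuous P → Tendsto P (𝓝[<] 0) (𝓝 (P 0)) := fun P hP =>
    hP.continuousAt.tendsto.mono_left nhdsWithin_le_nhds
  have cont0 : ∀ (P : ℝ → ℝ), Continuous P → P 0 = 0 → Tendsto P (𝓝[<] 0) (𝓝 0) := fun P hP h0 => by
    have := cont P hP
    rwa [h0] at this
  have bv : ∀ j ≤ 3, ∃ B : ℝ, ∀ᶠ x in 𝓝[<] (0 : ℝ), |v j x| ≤ B := by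
    intro j hj
    refine ⟨Cm j / SC, ?_⟩
    filter_upwards [hIoo] with x hx
    exact hvb j hj x hx
  refine ⟨fun x => (1120 * x - 190 * x ^ 2 + 10 * x ^ 3) * v 0 x
          + (560 * x ^ 2 - 90 * x ^ 3 + 15 * x ^ 4 - x ^ 5) * v 1 x
          + (80 * x - 15 * x ^ 2) * e x + evl (derN 1 (FL1 em)) x / (SC * LI),
    fun x => (1120 - 220 * x - 80 * x ^ 2 + 15 * x ^ 3) * v 0 x
          + (2240 * x - 460 * x ^ 2 + 70 * x ^ 3 - 5 * x ^ 4) * v 1 x
          + (560 * x ^ 2 - 90 * x ^ 3 + 15 * x ^ 4 - x ^ 5) * v 2 x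
          + (80 - 30 * x) * e x + evl (derN 2 (FL1 em)) x / (SC * LI),
    fun x => (-60 - 300 * x + 75 * x ^ 2) * v 0 x
          + (3360 - 1140 * x + 130 * x ^ 2 - 5 * x ^ 3) * v 1 x
          + (3360 * x - 730 * x ^ 2 + 130 * x ^ 3 - 10 * x ^ 4) * v 2 x
          + (560 * x ^ 2 - 90 * x ^ 3 + 15 * x ^ 4 - x ^ 5) * v 3 x
          + -30 * e x + evl (derN 3 (FL1 em)) x / (SC * LI), ?_, ?_, ?_, ?_⟩
  rotate_left
  · rw [heq]
    have h1 := (cont (fun x => 560 * x ^ 2 - 90 * x ^ 3 + 15 * x ^ 4 - x ^ 5) (by fun_prop)).mul lv0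
    have h1' := (cont (fun x => 40 * x ^ 2 - 5 * x ^ 3) (by fun_prop)).mul el
    have h2 := (h1.add h1').add (le0 0 p0)
    rw [q0] at h2
    simpa using h2
  · obtain ⟨B1, hB1⟩ := bv 1 (by norm_num)
    have h1 := (cont (fun x => 1120 * x - 190 * x ^ 2 + 10 * x ^ 3) (by fun_prop)).mul lv0
    have h1' := (cont (fun x => 80 * x - 15 * x ^ 2) (by fun_prop)).mul el
    have h2 := B05e_zero (l := 𝓝[<] (0 : ℝ)) (P := fun x => 560 * x ^ 2 - 90 * x ^ 3 + 15 * x ^ 4 - x ^ 5)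
      (cont0 (fun x => 560 * x ^ 2 - 90 * x ^ 3 + 15 * x ^ 4 - x ^ 5) (by fun_prop) (by norm_num)) hB1
    have h3 := ((h1.add h2).add h1').add (le0 1 p1)
    rw [q1] at h3
    simpa using h3
  · obtain ⟨B1, hB1⟩ := bv 1 (by norm_num)
    obtain ⟨B2, hB2⟩ := bv 2 (by norm_num)
    have h1 := (cont (fun x => 1120 - 220 * x - 80 * x ^ 2 + 15 * x ^ 3) (by fun_prop)).mul lv0
    have h1' := (cont (fun x => 80 - 30 * x) (by fun_prop)).mul el
    have h2 := B05e_zero (l := 𝓝[<] (0 : ℝ)) (P := fun x => 2240 * x - 460 * x ^ 2 + 70 * x ^ 3 - 5 * x ^ 4)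
      (cont0 (fun x => 2240 * x - 460 * x ^ 2 + 70 * x ^ 3 - 5 * x ^ 4) (by fun_prop) (by norm_num)) hB1
    have h3 := B05e_zero (l := 𝓝[<] (0 : ℝ)) (P := fun x => 560 * x ^ 2 - 90 * x ^ 3 + 15 * x ^ 4 - x ^ 5)
      (cont0 (fun x => 560 * x ^ 2 - 90 * x ^ 3 + 15 * x ^ 4 - x ^ 5) (by fun_prop) (by norm_num)) hB2
    have h4 := (((h1.add h2).add h3).add h1').add (le0 2 p2)
    rw [q2] at h4
    have e : (1120 - 220 * (0 : ℝ) - 80 * 0 ^ 2 + 15 * 0 ^ 3) * (L - (hdL gm.2 : ℝ) / SC) + 0 + 0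
        + (80 - 30 * (0 : ℝ)) * 0
        + ((1120 * LI * (hdL gm.2 - hdL gt.2) : ℤ) : ℝ) / (SC * LI) = 1120 * (L - hdL gt.2 / SC) := by
      push_cast
      field_simp
      ring
    rw [← e]
    exact h4
  · intro x hx
    obtain ⟨h1, h2, h3⟩ := hch x hx
    have hx0 : -1 < x := hx.1
    have hx8 : x < 0 := hx.2
    have hx2 : x ^ 2 ≤ 1 := by nlinarith
    have hx2' : 0 ≤ x ^ 2 := sq_nonneg x
    have hx3 : -1 ≤ x ^ 3 := by nlinarith
    have hx3' : x ^ 3 ≤ 0 := by nlinarith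
    have hx4 : x ^ 4 ≤ 1 := by nlinarith
    have hx4' : 0 ≤ x ^ 4 := by positivity
    have hx5 : -1 ≤ x ^ 5 := by nlinarith
    have hx5' : x ^ 5 ≤ 0 := by nlinarith
    have m1 : |560 * x ^ 2 - 90 * x ^ 3 + 15 * x ^ 4 - x ^ 5| ≤ 666 * 1 := by
      rw [abs_le]; constructor <;> linarith
    have p10 : |1120 * x - 190 * x ^ 2 + 10 * x ^ 3| ≤ 1320 * 1 := by
      rw [abs_le]; constructor <;> linarith
    have p20 : |1120 - 220 * x - 80 * x ^ 2 + 15 * x ^ 3| ≤ 1500 * 1 := by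
      rw [abs_le]; constructor <;> linarith
    have p21 : |2240 * x - 460 * x ^ 2 + 70 * x ^ 3 - 5 * x ^ 4| ≤ 3000 * 1 := by
      rw [abs_le]; constructor <;> linarith
    have p30 : |-60 - 300 * x + 75 * x ^ 2| ≤ 500 * 1 := by
      rw [abs_le]; constructor <;> linarith
    have p31 : |3360 - 1140 * x + 130 * x ^ 2 - 5 * x ^ 3| ≤ 5000 * 1 := by
      rw [abs_le]; constructor <;> linarith
    have p32 : |3360 * x - 730 * x ^ 2 + 130 * x ^ 3 - 10 * x ^ 4| ≤ 5000 * 1 := by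
      rw [abs_le]; constructor <;> linarith
    have e1 : |80 * x - 15 * x ^ 2| ≤ 100 * 1 := by rw [abs_le]; constructor <;> linarith
    have e2 : |80 - 30 * x| ≤ 120 * 1 := by rw [abs_le]; constructor <;> linarith
    refine ⟨by rw [heq]; exact h1, h2, h3, ?_, ?_, ?_⟩
    · have t1 := B05e_term (by norm_num) p10 (b0 x hx)
      have t2 := B05e_term (by norm_num) m1 (b1 x hx)
      have t3 := B05e_term (by norm_num) e1 (be x hx)
      have t4 := f1 x hx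
      have t5 := B05c_tri4 ((1120 * x - 190 * x ^ 2 + 10 * x ^ 3) * v 0 x)
          ((560 * x ^ 2 - 90 * x ^ 3 + 15 * x ^ 4 - x ^ 5) * v 1 x)
          ((80 * x - 15 * x ^ 2) * e x) (evl (derN 1 (FL1 em)) x / (SC * LI))
      linarith
    · have t1 := B05e_term (by norm_num) p20 (b0 x hx)
      have t2 := B05e_term (by norm_num) p21 (b1 x hx)
      have t3 := B05e_term (by norm_num) m1 (b2 x hx)
      have t4 := B05e_term (by norm_num) e2 (be x hx)
      have t5 := f2 x hx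
      have t6 := B05c_tri5 ((1120 - 220 * x - 80 * x ^ 2 + 15 * x ^ 3) * v 0 x)
          ((2240 * x - 460 * x ^ 2 + 70 * x ^ 3 - 5 * x ^ 4) * v 1 x)
          ((560 * x ^ 2 - 90 * x ^ 3 + 15 * x ^ 4 - x ^ 5) * v 2 x)
          ((80 - 30 * x) * e x) (evl (derN 2 (FL1 em)) x / (SC * LI))
      linarith
    · have t1 := B05e_term (by norm_num) p30 (b0 x hx)
      have t2 := B05e_term (by norm_num) p31 (b1 x hx)
      have t3 := B05e_term (by norm_num) p32 (b2 x hx)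
      have t4 := B05e_term (by norm_num) m1 (b3 x hx)
      have t5 := B05e_term (P := (-30 : ℝ)) (κ := 30) (by norm_num) (by norm_num) (be x hx)
      have t6 := f3 x hx
      have t7 := B05c_tri6 ((-60 - 300 * x + 75 * x ^ 2) * v 0 x)
          ((3360 - 1140 * x + 130 * x ^ 2 - 5 * x ^ 3) * v 1 x)
          ((3360 * x - 730 * x ^ 2 + 130 * x ^ 3 - 10 * x ^ 4) * v 2 x)
          ((560 * x ^ 2 - 90 * x ^ 3 + 15 * x ^ 4 - x ^ 5) * v 3 x)
          (-30 * e x) (evl (derN 3 (FL1 em)) x / (SC * LI))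
      linarith

end Pool.Agent.Lib.MP_230119_an.EX
end

section

/-!
# The functions F1, F2
-/

set_option autoImplicit false

open Set Filter Topology

namespace Pool.Agent.Lib.MP_230119_an.EX

theorem b05g_ev (l : List ℤ) : Measurable (ev l) := by
  induction l with
  | nil =>
    have h : ev [] = fun _ => 0 := by
      funext x
      rfl
    rw [h]
    exact measurable_const
  | cons c l ih =>
    have h : ev (c :: l) = fun x => (c : ℝ) + x * ev l x := by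
      funext x
      rfl
    rw [h]
    exact measurable_const.add (measurable_id.mul ih)

theorem b05g_evl (f : List ℤ × List ℤ) : Measurable (evl f) := by
  unfold evl
  exact ((b05g_ev f.1).mul (Real.measurable_log.comp measurable_norm)).add (b05g_ev f.2)

theorem b05g_tg : Measurable tg := by
  unfold tg
  exact (b05g_evl gt).div_const _

theorem b05g_tu : Measurable tu := by
  unfold tu
  exact measurable_const.add ((b05g_evl (intP gt)).div_const _)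

theorem b05g_FF1 {G u : ℝ → ℝ} (h : GF G u) : Measurable (FF1 G u) := by
  have hG := h.measG
  have hu := h.measU
  have h1 := b05g_tg
  have h2 := b05g_tu
  unfold FF1
  fun_prop

theorem b05g_FF2 {G u : ℝ → ℝ} (h : GF G u) : Measurable (FF2 G) := by
  have hG := h.measG
  have h1 := b05g_tg
  unfold FF2
  fun_prop

/-- gluing of derivatives off `0` -/
theorem b05g_der {A Ap Am A' Ap' Am' : ℝ → ℝ}
    (hA : ∀ x, A x = if 0 < x then Ap x else Am x)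
    (hA' : ∀ x, A' x = if 0 < x then Ap' x else Am' x)
    (hp : ∀ x ∈ Ioo (0 : ℝ) 8, HasDerivAt Ap (Ap' x) x)
    (hm : ∀ x ∈ Ioo (-1 : ℝ) 0, HasDerivAt Am (Am' x) x) :
    ∀ x ∈ Ioo (-1 : ℝ) 8, x ≠ 0 → HasDerivAt A (A' x) x := by
  intro x hx hx0
  rcases lt_or_gt_of_ne hx0 with h | h
  · rw [hA', if_neg (not_lt.mpr h.le)]
    refine (hm x ⟨hx.1, h⟩).congr_of_eventuallyEq ?_
    filter_upwards [Iio_mem_nhds h] with y hy
    rw [hA, if_neg (not_lt.mpr (le_of_lt hy))]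
  · rw [hA', if_pos h]
    refine (hp x ⟨h, hx.2⟩).congr_of_eventuallyEq ?_
    filter_upwards [Ioi_mem_nhds h] with y hy
    rw [hA, if_pos (mem_Ioi.mp hy)]

theorem b05g_lim {A Ap Am : ℝ → ℝ} {a : ℝ}
    (hA : ∀ x, A x = if 0 < x then Ap x else Am x)
    (hp : Tendsto Ap (𝓝[>] 0) (𝓝 a)) (hm : Tendsto Am (𝓝[<] 0) (𝓝 a)) :
    Tendsto A (𝓝[≠] 0) (𝓝 a) := by
  rw [← nhdsLT_sup_nhdsGT, tendsto_sup]
  constructor
  · refine hm.congr' ?_
    filter_upwards [self_mem_nhdsWithin] with y hy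
    rw [hA, if_neg (not_lt.mpr (le_of_lt hy))]
  · refine hp.congr' ?_
    filter_upwards [self_mem_nhdsWithin] with y hy
    rw [hA, if_pos (mem_Ioi.mp hy)]

theorem b05g_bd {A Ap Am : ℝ → ℝ} {S : ℝ}
    (hA : ∀ x, A x = if 0 < x then Ap x else Am x)
    (hp : ∀ x ∈ Ioo (0 : ℝ) 8, |Ap x| ≤ S) (hm : ∀ x ∈ Ioo (-1 : ℝ) 0, |Am x| ≤ S) :
    ∀ x ∈ Ioo (-1 : ℝ) 8, x ≠ 0 → |A x| ≤ S := by
  intro x hx hx0
  rcases lt_or_gt_of_ne hx0 with h | h
  · rw [hA, if_neg (not_lt.mpr h.le)]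
    exact hm x ⟨hx.1, h⟩
  · rw [hA, if_pos h]
    exact hp x ⟨h, hx.2⟩

theorem b05g_self (F : ℝ → ℝ) : ∀ x, F x = if 0 < x then F x else F x := by
  intro x
  split_ifs <;> rfl

theorem b05g_size_pos {F F' : ℝ → ℝ} (hd : ∀ x ∈ Ioo (0 : ℝ) 8, HasDerivAt F (F' x) x)
    (hb : ∀ x ∈ Ioo (0 : ℝ) 8, |F' x| ≤ 10) (h0 : Tendsto F (𝓝[>] 0) (𝓝 0)) :
    ∀ x ∈ Ioo (0 : ℝ) 8, |F x| ≤ 80 := by
  intro x hx
  have h1 : ∀ y ∈ Ioo (0 : ℝ) 8, |F x - F y| ≤ 80 := by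
    intro y hy
    have h2 := (convex_Ioo (0 : ℝ) 8).norm_image_sub_le_of_norm_hasDerivWithin_le
      (f := F) (f' := F') (C := 10) (fun z hz => (hd z hz).hasDerivWithinAt)
      (fun z hz => by rw [Real.norm_eq_abs]; exact hb z hz) hy hx
    rw [Real.norm_eq_abs, Real.norm_eq_abs] at h2
    have h3 : |x - y| ≤ 8 := by
      rw [abs_le]
      constructor
      · linarith [hx.1, hy.2]
      · linarith [hx.2, hy.1]
    linarith
  have h2 : Tendsto (fun y => |F x - F y|) (𝓝[>] 0) (𝓝 |F x - 0|) :=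
    (tendsto_const_nhds.sub h0).abs
  rw [sub_zero] at h2
  refine le_of_tendsto h2 ?_
  filter_upwards [Ioo_mem_nhdsGT (show (0 : ℝ) < 8 by norm_num)] with y hy
  exact h1 y hy

theorem b05g_size_neg {F F' : ℝ → ℝ} (hd : ∀ x ∈ Ioo (-1 : ℝ) 0, HasDerivAt F (F' x) x)
    (hb : ∀ x ∈ Ioo (-1 : ℝ) 0, |F' x| ≤ 10) (h0 : Tendsto F (𝓝[<] 0) (𝓝 0)) :
    ∀ x ∈ Ioo (-1 : ℝ) 0, |F x| ≤ 80 := by
  intro x hx
  have h1 : ∀ y ∈ Ioo (-1 : ℝ) 0, |F x - F y| ≤ 80 := by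
    intro y hy
    have h2 := (convex_Ioo (-1 : ℝ) 0).norm_image_sub_le_of_norm_hasDerivWithin_le
      (f := F) (f' := F') (C := 10) (fun z hz => (hd z hz).hasDerivWithinAt)
      (fun z hz => by rw [Real.norm_eq_abs]; exact hb z hz) hy hx
    rw [Real.norm_eq_abs, Real.norm_eq_abs] at h2
    have h3 : |x - y| ≤ 8 := by
      rw [abs_le]
      constructor
      · linarith [hx.1, hy.2]
      · linarith [hx.2, hy.1]
    linarith
  have h2 : Tendsto (fun y => |F x - F y|) (𝓝[<] 0) (𝓝 |F x - 0|) :=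
    (tendsto_const_nhds.sub h0).abs
  rw [sub_zero] at h2
  refine le_of_tendsto h2 ?_
  filter_upwards [Ioo_mem_nhdsLT (show (-1 : ℝ) < 0 by norm_num)] with y hy
  exact h1 y hy

/-- the result for `F1` -/
theorem F1_C3b {G u : ℝ → ℝ} (h : GF G u) :
    ∃ (F F1 F2 F3 : ℝ → ℝ) (S0 : ℝ), (∀ x, x ≠ 0 → F x = FF1 G u x) ∧
      C3b F F1 F2 F3 S0 10 14 35 := by
  obtain ⟨L, hL⟩ := h.limL
  obtain ⟨P1, P2, P3, hp, hp0, hp1, hp2⟩ := F1_pos h hL
  obtain ⟨M1, M2, M3, hm, hm0, hm1, hm2⟩ := F1_neg h hL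
  obtain ⟨G0, G1, G2, G3, hG, hC⟩ := glue (F := FF1 G u)
    (A1 := fun x => if 0 < x then P1 x else M1 x)
    (A2 := fun x => if 0 < x then P2 x else M2 x)
    (A3 := fun x => if 0 < x then P3 x else M3 x)
    (S0 := 80) (S1 := 10) (S2 := 14) (S3 := 35) (b05g_FF1 h)
    (b05g_der (b05g_self _) (fun _ => rfl) (fun x hx => (hp x hx).1) (fun x hx => (hm x hx).1))
    (b05g_der (fun _ => rfl) (fun _ => rfl) (fun x hx => (hp x hx).2.1)
      (fun x hx => (hm x hx).2.1))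
    (b05g_der (fun _ => rfl) (fun _ => rfl) (fun x hx => (hp x hx).2.2.1)
      (fun x hx => (hm x hx).2.2.1))
    (b05g_bd (b05g_self _)
      (b05g_size_pos (fun x hx => (hp x hx).1) (fun x hx => (hp x hx).2.2.2.1) hp0)
      (b05g_size_neg (fun x hx => (hm x hx).1) (fun x hx => (hm x hx).2.2.2.1) hm0))
    (b05g_bd (fun _ => rfl) (fun x hx => (hp x hx).2.2.2.1) (fun x hx => (hm x hx).2.2.2.1))
    (b05g_bd (fun _ => rfl) (fun x hx => (hp x hx).2.2.2.2.1) (fun x hx => (hm x hx).2.2.2.2.1))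
    (b05g_bd (fun _ => rfl) (fun x hx => (hp x hx).2.2.2.2.2) (fun x hx => (hm x hx).2.2.2.2.2))
    (b05g_lim (b05g_self _) hp0 hm0) (b05g_lim (fun _ => rfl) hp1 hm1)
    (b05g_lim (fun _ => rfl) hp2 hm2)
  exact ⟨G0, G1, G2, G3, 80, hG, hC⟩

/-- the result for `F2` -/
theorem F2_C3b {G u : ℝ → ℝ} (h : GF G u) :
    ∃ F F1 F2 F3 : ℝ → ℝ, (∀ x, x ≠ 0 → F x = FF2 G x) ∧
      C3b F F1 F2 F3 (1 / 2) 1 2 5 := by
  obtain ⟨L, hL⟩ := h.limL
  obtain ⟨P1, P2, P3, hp, hp0, hp1, hp2⟩ := F2_pos h hL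
  obtain ⟨M1, M2, M3, hm, hm0, hm1, hm2⟩ := F2_neg h hL
  exact glue (F := FF2 G)
    (A1 := fun x => if 0 < x then P1 x else M1 x)
    (A2 := fun x => if 0 < x then P2 x else M2 x)
    (A3 := fun x => if 0 < x then P3 x else M3 x)
    (S0 := 1 / 2) (S1 := 1) (S2 := 2) (S3 := 5) (b05g_FF2 h)
    (b05g_der (b05g_self _) (fun _ => rfl) (fun x hx => (hp x hx).1) (fun x hx => (hm x hx).1))
    (b05g_der (fun _ => rfl) (fun _ => rfl) (fun x hx => (hp x hx).2.1)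
      (fun x hx => (hm x hx).2.1))
    (b05g_der (fun _ => rfl) (fun _ => rfl) (fun x hx => (hp x hx).2.2.1)
      (fun x hx => (hm x hx).2.2.1))
    (b05g_bd (b05g_self _) (fun x hx => (hp x hx).2.2.2.1) (fun x hx => (hm x hx).2.2.2.1))
    (b05g_bd (fun _ => rfl) (fun x hx => (hp x hx).2.2.2.2.1) (fun x hx => (hm x hx).2.2.2.2.1))
    (b05g_bd (fun _ => rfl) (fun x hx => (hp x hx).2.2.2.2.2.1)
      (fun x hx => (hm x hx).2.2.2.2.2.1))
    (b05g_bd (fun _ => rfl) (fun x hx => (hp x hx).2.2.2.2.2.2)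
      (fun x hx => (hm x hx).2.2.2.2.2.2))
    (b05g_lim (b05g_self _) hp0 hm0) (b05g_lim (fun _ => rfl) hp1 hm1)
    (b05g_lim (fun _ => rfl) hp2 hm2)

end Pool.Agent.Lib.MP_230119_an.EX
end

section

/-!
# Splitting of the coefficients of the kernel
-/

set_option autoImplicit false

open Set Filter Topology MeasureTheory

namespace Pool.Agent.Lib.MP_230119_an.EX

theorem S06a_int_ch {Φ : ℝ × ℝ × ℝ → ℝ} (h : Integrable Φ mc3) (p q r : ℤ) :
    Integrable (fun z => ((Φ z : ℝ) : ℂ) * ch p q r z) mc3 := by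
  have hc : Continuous (ch p q r) := by
    unfold ch
    fun_prop
  refine Integrable.mul_bdd (c := 1) h.ofReal hc.aestronglyMeasurable (ae_of_all _ fun z => ?_)
  unfold ch
  rw [Complex.norm_exp_ofReal_mul_I]

/-- splitting of the coefficients of the kernel -/
theorem cf_split {G u F H : ℝ → ℝ} (h : GF G u) (hF : ∀ x, x ≠ 0 → F x = FF1 G u x)
    (hH : ∀ x, x ≠ 0 → H x = FF2 G x)
    (hint : Integrable (fun z : ℝ × ℝ × ℝ => EE F H z.1 z.2.1 z.2.2) mc3) (p q r : ℤ) :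
    cf (KK G u) p q r = cf KX p q r + cf (EE F H) p q r := by
  have hae : ∀ᵐ z ∂mc3, KK G u z.1 z.2.1 z.2.2 =
      KX z.1 z.2.1 z.2.2 + EE F H z.1 z.2.1 z.2.2 := by
    filter_upwards [rho_mem_ae] with z hz
    unfold KK KX EE
    rw [hF _ hz.2, hH _ hz.2]
    unfold K0 FF1 FF2
    ring
  have hKX : Integrable (fun z : ℝ × ℝ × ℝ => KX z.1 z.2.1 z.2.2) mc3 := by
    refine ((KK_integrable h).sub hint).congr ?_
    filter_upwards [hae] with z hz
    rw [Pi.sub_apply, hz]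
    ring
  unfold cf cfC
  rw [← add_div, ← integral_add (S06a_int_ch hKX _ _ _) (S06a_int_ch hint _ _ _)]
  congr 1
  refine integral_congr_ae ?_
  filter_upwards [hae] with z hz
  simp only [hz]
  push_cast
  ring

end Pool.Agent.Lib.MP_230119_an.EX
end

section

/-!
# The moments of `rho` (integration by parts on the torus)
-/

set_option autoImplicit false

open MeasureTheory Set Filter Topology

namespace Pool.Agent.Lib.MP_230119_an.LA

open Pool.Agent.Lib.MP_230119_an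

/-- the sum of the sines -/
noncomputable def Ag (a b c : ℝ) : ℝ := Real.sin (a - b) + Real.sin (a - c)

noncomputable def Cg (a b c : ℝ) : ℝ := Real.cos (a - b) + Real.cos (a - c)

noncomputable def Eg (a b c : ℝ) : ℝ := 3 * rho a b c - 4 - 4 * Cg a b c

/-- half of the squared gradient -/
noncomputable def gr (a b c : ℝ) : ℝ := 2 * (Ag a b c ^ 2 + Ag b c a ^ 2 + Ag c a b ^ 2)

theorem hasDerivAt_rho (a b c : ℝ) : HasDerivAt (fun a => rho a b c) (-(2 * Ag a b c)) a := by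
  unfold rho Ag
  have h1 : HasDerivAt (fun a => Real.cos (a - b)) (-Real.sin (a - b) * 1) a :=
    ((hasDerivAt_id a).sub_const b).cos
  have h2 : HasDerivAt (fun a => Real.cos (c - a)) (-Real.sin (c - a) * (-1)) a :=
    ((hasDerivAt_id a).const_sub c).cos
  have h := ((((h1.add (hasDerivAt_const a (Real.cos (b - c)))).add h2).const_mul 2).const_add 2)
  refine h.congr_deriv ?_
  have e : Real.sin (c - a) = -Real.sin (a - c) := by rw [← Real.sin_neg, neg_sub]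
  rw [e]
  ring

theorem hasDerivAt_Ag (a b c : ℝ) : HasDerivAt (fun a => Ag a b c) (Cg a b c) a := by
  unfold Ag Cg
  have h1 : HasDerivAt (fun a => Real.sin (a - b)) (Real.cos (a - b) * 1) a :=
    ((hasDerivAt_id a).sub_const b).sin
  have h2 : HasDerivAt (fun a => Real.sin (a - c)) (Real.cos (a - c) * 1) a :=
    ((hasDerivAt_id a).sub_const c).sin
  refine (h1.add h2).congr_deriv ?_
  ring

theorem hasDerivAt_Cg (a b c : ℝ) : HasDerivAt (fun a => Cg a b c) (-Ag a b c) a := by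
  unfold Ag Cg
  have h1 : HasDerivAt (fun a => Real.cos (a - b)) (-Real.sin (a - b) * 1) a :=
    ((hasDerivAt_id a).sub_const b).cos
  have h2 : HasDerivAt (fun a => Real.cos (a - c)) (-Real.sin (a - c) * 1) a :=
    ((hasDerivAt_id a).sub_const c).cos
  refine (h1.add h2).congr_deriv ?_
  ring

theorem hasDerivAt_Eg (a b c : ℝ) : HasDerivAt (fun a => Eg a b c) (-(2 * Ag a b c)) a := by
  unfold Eg
  have h := (((hasDerivAt_rho a b c).const_mul 3).sub_const 4).sub ((hasDerivAt_Cg a b c).const_mul 4)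
  refine h.congr_deriv ?_
  ring

theorem trig1 (cx sx cy sy : ℝ) (hx : cx ^ 2 + sx ^ 2 = 1) (hy : cy ^ 2 + sy ^ 2 = 1) :
    -- x = a - b, y = b - c
    (cx + (cx * cy - sx * sy)) ^ 2 + (sx + (sx * cy + cx * sy)) ^ 2 = 2 + 2 * cy := by
  grind

/-- polynomial form of the identities -/
theorem grad_poly (cx sx cy sy : ℝ) (hx : cx ^ 2 + sx ^ 2 = 1) (hy : cy ^ 2 + sy ^ 2 = 1) :
    2 * ((sx + (sx * cy + cx * sy)) ^ 2 + (sy - sx) ^ 2 + ((sx * cy + cx * sy) + sy) ^ 2) =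
      (sx + sy - (sx * cy + cx * sy)) ^ 2 -
      3 / 4 * (2 + 2 * (cx + cy + (cx * cy - sx * sy))) * ((2 + 2 * (cx + cy + (cx * cy - sx * sy))) - 8) := by
  grind

theorem p_poly (cx sx cy sy : ℝ) (hx : cx ^ 2 + sx ^ 2 = 1) (hy : cy ^ 2 + sy ^ 2 = 1) :
    -2 * ((sx + (sx * cy + cx * sy)) ^ 2 * (3 * (2 + 2 * (cx + cy + (cx * cy - sx * sy))) - 4 -
        4 * (cx + (cx * cy - sx * sy))) +
      (sy - sx) ^ 2 * (3 * (2 + 2 * (cx + cy + (cx * cy - sx * sy))) - 4 - 4 * (cy + cx)) +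
      ((sx * cy + cx * sy) + sy) ^ 2 * (3 * (2 + 2 * (cx + cy + (cx * cy - sx * sy))) - 4 -
        4 * ((cx * cy - sx * sy) + cy))) =
      (2 + 2 * (cx + cy + (cx * cy - sx * sy))) * ((2 + 2 * (cx + cy + (cx * cy - sx * sy))) + 1) *
        ((2 + 2 * (cx + cy + (cx * cy - sx * sy))) - 8) := by
  grind

theorem div_poly (cx sx cy sy : ℝ) (hx : cx ^ 2 + sx ^ 2 = 1) (hy : cy ^ 2 + sy ^ 2 = 1) :
    ((sx + (sx * cy + cx * sy)) ^ 2 + (sy - sx) ^ 2 + ((sx * cy + cx * sy) + sy) ^ 2) +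
      ((cx + (cx * cy - sx * sy)) ^ 2 + (cy + cx) ^ 2 + ((cx * cy - sx * sy) + cy) ^ 2) =
      (2 + 2 * (cx + cy + (cx * cy - sx * sy))) + 4 := by
  grind

/-- the angles in terms of two differences -/
theorem ang (a b c : ℝ) :
    Real.sin (c - a) = -(Real.sin (a - b) * Real.cos (b - c) + Real.cos (a - b) * Real.sin (b - c)) ∧
    Real.cos (c - a) = Real.cos (a - b) * Real.cos (b - c) - Real.sin (a - b) * Real.sin (b - c) ∧
    Real.sin (a - c) = Real.sin (a - b) * Real.cos (b - c) + Real.cos (a - b) * Real.sin (b - c) ∧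
    Real.cos (a - c) = Real.cos (a - b) * Real.cos (b - c) - Real.sin (a - b) * Real.sin (b - c) ∧
    Real.sin (b - a) = -Real.sin (a - b) ∧ Real.cos (b - a) = Real.cos (a - b) ∧
    Real.sin (c - b) = -Real.sin (b - c) ∧ Real.cos (c - b) = Real.cos (b - c) := by
  refine ⟨?_, ?_, ?_, ?_, ?_, ?_, ?_, ?_⟩
  · rw [← Real.sin_add, ← Real.sin_neg]
    congr 1
    ring
  · rw [← Real.cos_add, ← Real.cos_neg]
    congr 1
    ring
  · rw [← Real.sin_add]
    congr 1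
    ring
  · rw [← Real.cos_add]
    congr 1
    ring
  · rw [← Real.sin_neg, neg_sub]
  · rw [← Real.cos_neg, neg_sub]
  · rw [← Real.sin_neg, neg_sub]
  · rw [← Real.cos_neg, neg_sub]

theorem gr_eq (a b c : ℝ) : gr a b c = DD a b c - 3 / 4 * rho a b c * (rho a b c - 8) := by
  obtain ⟨h1, h2, h3, h4, h5, h6, h7, h8⟩ := ang a b c
  have h := grad_poly (Real.cos (a - b)) (Real.sin (a - b)) (Real.cos (b - c)) (Real.sin (b - c))
    (Real.cos_sq_add_sin_sq _) (Real.cos_sq_add_sin_sq _)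
  unfold gr Ag DD rho
  rw [h1, h2, h3, h5, h7]
  linear_combination h

theorem p_eq (a b c : ℝ) : -2 * (Ag a b c ^ 2 * Eg a b c + Ag b c a ^ 2 * Eg b c a +
    Ag c a b ^ 2 * Eg c a b) = pp (rho a b c) := by
  obtain ⟨h1, h2, h3, h4, h5, h6, h7, h8⟩ := ang a b c
  have h := p_poly (Real.cos (a - b)) (Real.sin (a - b)) (Real.cos (b - c)) (Real.sin (b - c))
    (Real.cos_sq_add_sin_sq _) (Real.cos_sq_add_sin_sq _)
  unfold Eg Cg Ag rho pp
  rw [h1, h2, h3, h4, h5, h6, h7, h8]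
  linear_combination h

theorem div_eq (a b c : ℝ) : (Cg a b c * Eg a b c - 2 * Ag a b c ^ 2) +
    (Cg b c a * Eg b c a - 2 * Ag b c a ^ 2) + (Cg c a b * Eg c a b - 2 * Ag c a b ^ 2) =
    (3 * rho a b c ^ 2 - 14 * rho a b c - 8) + gr a b c := by
  obtain ⟨h1, h2, h3, h4, h5, h6, h7, h8⟩ := ang a b c
  have h := div_poly (Real.cos (a - b)) (Real.sin (a - b)) (Real.cos (b - c)) (Real.sin (b - c))
    (Real.cos_sq_add_sin_sq _) (Real.cos_sq_add_sin_sq _)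
  unfold gr Eg Cg Ag rho
  rw [h1, h2, h3, h4, h5, h6, h7, h8]
  linear_combination (-4 : ℝ) * h

theorem C_eq (a b c : ℝ) : Cg a b c + Cg b c a + Cg c a b = rho a b c - 2 := by
  obtain ⟨h1, h2, h3, h4, h5, h6, h7, h8⟩ := ang a b c
  unfold Cg rho
  rw [h2, h4, h6, h8]
  ring

theorem rho_cyc (a b c : ℝ) : rho b c a = rho a b c := by
  unfold rho
  ring

/-- cyclic invariance -/
theorem m3_cyc (F : ℝ × ℝ × ℝ → ℝ) : ∫ p : ℝ × ℝ × ℝ, F (p.2.1, p.2.2, p.1) ∂m3 = ∫ p, F p ∂m3 := by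
  have h1 : MeasurePreserving (⇑(MeasurableEquiv.prodComm : ℝ × (ℝ × ℝ) ≃ᵐ (ℝ × ℝ) × ℝ)) m3
      ((mc.prod mc).prod mc) := Measure.measurePreserving_swap
  have h2 : MeasurePreserving (⇑(MeasurableEquiv.prodAssoc : (ℝ × ℝ) × ℝ ≃ᵐ ℝ × (ℝ × ℝ)))
      ((mc.prod mc).prod mc) m3 := measurePreserving_prodAssoc mc mc mc
  have h3 := h2.comp h1
  exact h3.integral_comp
    ((MeasurableEquiv.prodComm.trans MeasurableEquiv.prodAssoc).measurableEmbedding) F

/-- the integral of a derivative in the first variable -/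
theorem m3_deriv {F f : ℝ × ℝ × ℝ → ℝ} (hf : Continuous f)
    (hd : ∀ a b c, HasDerivAt (fun a => F (a, b, c)) (f (a, b, c)) a)
    (hp : ∀ b c, F (2 * Real.pi, b, c) = F (0, b, c)) : ∫ p, f p ∂m3 = 0 := by
  rw [← m3_cyc, m3_iter (F := fun p : ℝ × ℝ × ℝ => f (p.2.1, p.2.2, p.1)) (by fun_prop),
    ← m3_iter (F := fun p : ℝ × ℝ × ℝ => f (p.2.1, p.2.2, p.1)) (by fun_prop)]
  rw [m3_cyc, ← m3_cyc, ← m3_cyc (fun p : ℝ × ℝ × ℝ => f (p.2.1, p.2.2, p.1)),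
    m3_iter (F := fun p : ℝ × ℝ × ℝ => (fun p : ℝ × ℝ × ℝ => f (p.2.1, p.2.2, p.1))
      (p.2.1, p.2.2, p.1)) (by fun_prop)]
  simp only
  have h1 : ∀ b c : ℝ, ∫ a, f (a, b, c) ∂mc = 0 := by
    intro b c
    rw [mc_eq, intervalIntegral.integral_eq_sub_of_hasDerivAt (f := fun a => F (a, b, c))
      (fun a _ => hd a b c)]
    · rw [hp, sub_self]
    · have : Continuous fun a : ℝ => f (a, b, c) := by fun_prop
      exact this.intervalIntegrable _ _
  simp [h1]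

end Pool.Agent.Lib.MP_230119_an.LA
end

section

/-!
# The law of `rho`
-/

set_option autoImplicit false

open MeasureTheory Set Filter Topology Polynomial

namespace Pool.Agent.Lib.MP_230119_an.LA

open Pool.Agent.Lib.MP_230119_an

theorem pp_eq (x : ℝ) : pp x = pL x := rfl

section
variable {φ φ1 φ2 : ℝ → ℝ}

theorem rho_per (b c : ℝ) : rho (2 * Real.pi) b c = rho 0 b c := by
  unfold rho
  have h1 : Real.cos (2 * Real.pi - b) = Real.cos (0 - b) := by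
    rw [Real.cos_two_pi_sub, zero_sub, Real.cos_neg]
  have h2 : Real.cos (c - 2 * Real.pi) = Real.cos (c - 0) := by
    rw [Real.cos_sub_two_pi, sub_zero]
  rw [h1, h2]

theorem Ag_per (b c : ℝ) : Ag (2 * Real.pi) b c = Ag 0 b c := by
  unfold Ag
  have h1 : ∀ b : ℝ, Real.sin (2 * Real.pi - b) = Real.sin (0 - b) := fun b => by
    rw [Real.sin_two_pi_sub, zero_sub, Real.sin_neg]
  rw [h1, h1]

theorem Cg_per (b c : ℝ) : Cg (2 * Real.pi) b c = Cg 0 b c := by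
  unfold Cg
  have h1 : ∀ b : ℝ, Real.cos (2 * Real.pi - b) = Real.cos (0 - b) := fun b => by
    rw [Real.cos_two_pi_sub, zero_sub, Real.cos_neg]
  rw [h1, h1]

theorem cont_Ag : Continuous fun p : ℝ × ℝ × ℝ => Ag p.1 p.2.1 p.2.2 := by
  unfold Ag
  fun_prop

theorem cont_Cg : Continuous fun p : ℝ × ℝ × ℝ => Cg p.1 p.2.1 p.2.2 := by
  unfold Cg
  fun_prop

theorem cont_Eg : Continuous fun p : ℝ × ℝ × ℝ => Eg p.1 p.2.1 p.2.2 := by
  unfold Eg
  have := cont_Cg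
  have := continuous_rho
  fun_prop

theorem cont_gr : Continuous fun p : ℝ × ℝ × ℝ => gr p.1 p.2.1 p.2.2 := by
  unfold gr Ag
  fun_prop

theorem cyc_sum {f : ℝ × ℝ × ℝ → ℝ} (hf : Continuous f) (h0 : ∫ p, f p ∂m3 = 0) :
    ∫ p : ℝ × ℝ × ℝ, (f p + f (p.2.1, p.2.2, p.1) + f (p.2.2, p.1, p.2.1)) ∂m3 = 0 := by
  have h1 : ∫ p : ℝ × ℝ × ℝ, f (p.2.1, p.2.2, p.1) ∂m3 = 0 := (m3_cyc f).trans h0
  have h2 : ∫ p : ℝ × ℝ × ℝ, f (p.2.2, p.1, p.2.1) ∂m3 = 0 :=
    (m3_cyc (fun p : ℝ × ℝ × ℝ => f (p.2.1, p.2.2, p.1))).trans h1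
  have i1 : Integrable (fun p : ℝ × ℝ × ℝ => f p) m3 := m3_integrable hf
  have i2 : Integrable (fun p : ℝ × ℝ × ℝ => f (p.2.1, p.2.2, p.1)) m3 :=
    m3_integrable (by fun_prop)
  have i3 : Integrable (fun p : ℝ × ℝ × ℝ => f (p.2.2, p.1, p.2.1)) m3 :=
    m3_integrable (by fun_prop)
  have i12 : Integrable (fun p : ℝ × ℝ × ℝ => f p + f (p.2.1, p.2.2, p.1)) m3 := i1.add i2
  rw [integral_add i12 i3, integral_add i1 i2, h0, h1, h2]
  norm_num

/-- first torus identity -/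
theorem torus1 (hc : Continuous φ) (hc1 : Continuous φ1) (h1 : ∀ x, HasDerivAt φ (φ1 x) x) :
    ∫ p : ℝ × ℝ × ℝ, (φ1 (rho p.1 p.2.1 p.2.2) * pp (rho p.1 p.2.1 p.2.2) +
      φ (rho p.1 p.2.1 p.2.2) * ((3 * rho p.1 p.2.1 p.2.2 ^ 2 - 14 * rho p.1 p.2.1 p.2.2 - 8) +
        gr p.1 p.2.1 p.2.2)) ∂m3 = 0 := by
  have hr := continuous_rho
  have hA := cont_Ag
  have hC := cont_Cg
  have hE := cont_Eg
  obtain ⟨f, hf⟩ : ∃ f : ℝ × ℝ × ℝ → ℝ, f = fun p =>
    φ1 (rho p.1 p.2.1 p.2.2) * (-(2 * Ag p.1 p.2.1 p.2.2)) *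
      (Ag p.1 p.2.1 p.2.2 * Eg p.1 p.2.1 p.2.2) + φ (rho p.1 p.2.1 p.2.2) *
      (Cg p.1 p.2.1 p.2.2 * Eg p.1 p.2.1 p.2.2 - 2 * Ag p.1 p.2.1 p.2.2 ^ 2) := ⟨_, rfl⟩
  have hfc : Continuous f := by
    rw [hf]
    fun_prop
  have h0 : ∫ p, f p ∂m3 = 0 := by
    refine m3_deriv (F := fun p => φ (rho p.1 p.2.1 p.2.2) *
      (Ag p.1 p.2.1 p.2.2 * Eg p.1 p.2.1 p.2.2)) hfc (fun a b c => ?_) (fun b c => ?_)
    · have g1 : HasDerivAt (fun a => φ (rho a b c)) (φ1 (rho a b c) * (-(2 * Ag a b c))) a :=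
        (h1 (rho a b c)).comp a (hasDerivAt_rho a b c)
      have g := g1.mul ((hasDerivAt_Ag a b c).mul (hasDerivAt_Eg a b c))
      refine g.congr_deriv ?_
      rw [hf]
      simp only [Pi.mul_apply]
      ring
    · simp only
      unfold Eg
      rw [rho_per, Ag_per, Cg_per]
  rw [← cyc_sum hfc h0]
  refine integral_congr_ae (Eventually.of_forall fun p => ?_)
  simp only
  rw [hf]
  simp only
  rw [rho_cyc p.1 p.2.1 p.2.2, ← rho_cyc p.2.2 p.1 p.2.1]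
  rw [← div_eq, ← p_eq]
  ring

/-- second torus identity -/
theorem torus2 (hc : Continuous φ) (hc1 : Continuous φ1) (h1 : ∀ x, HasDerivAt φ (φ1 x) x) :
    ∫ p : ℝ × ℝ × ℝ, (-(φ1 (rho p.1 p.2.1 p.2.2) * gr p.1 p.2.1 p.2.2) +
      φ (rho p.1 p.2.1 p.2.2) * (rho p.1 p.2.1 p.2.2 - 2)) ∂m3 = 0 := by
  have hr := continuous_rho
  have hA := cont_Ag
  have hC := cont_Cg
  obtain ⟨f, hf⟩ : ∃ f : ℝ × ℝ × ℝ → ℝ, f = fun p =>
    φ1 (rho p.1 p.2.1 p.2.2) * (-(2 * Ag p.1 p.2.1 p.2.2)) * Ag p.1 p.2.1 p.2.2 +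
      φ (rho p.1 p.2.1 p.2.2) * Cg p.1 p.2.1 p.2.2 := ⟨_, rfl⟩
  have hfc : Continuous f := by
    rw [hf]
    fun_prop
  have h0 : ∫ p, f p ∂m3 = 0 := by
    refine m3_deriv (F := fun p => φ (rho p.1 p.2.1 p.2.2) * Ag p.1 p.2.1 p.2.2) hfc
      (fun a b c => ?_) (fun b c => ?_)
    · have g1 : HasDerivAt (fun a => φ (rho a b c)) (φ1 (rho a b c) * (-(2 * Ag a b c))) a :=
        (h1 (rho a b c)).comp a (hasDerivAt_rho a b c)
      have g := g1.mul (hasDerivAt_Ag a b c)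
      refine g.congr_deriv ?_
      rw [hf]
    · simp only
      rw [rho_per, Ag_per]
  rw [← cyc_sum hfc h0]
  refine integral_congr_ae (Eventually.of_forall fun p => ?_)
  simp only
  rw [hf]
  simp only
  rw [rho_cyc p.1 p.2.1 p.2.2, ← rho_cyc p.2.2 p.1 p.2.1]
  rw [← C_eq]
  unfold gr
  ring

/-- the moment identity of `rho` -/
theorem momR1 (hc : Continuous φ) (hc1 : Continuous φ1) (hc2 : Continuous φ2)
    (h1 : ∀ x, HasDerivAt φ (φ1 x) x) (h2 : ∀ x, HasDerivAt φ1 (φ2 x) x) :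
    ∫ p : ℝ × ℝ × ℝ, (fun x => pL x * φ2 x + (3 * x ^ 2 - 14 * x - 8) * φ1 x + (x - 2) * φ x)
      (rho p.1 p.2.1 p.2.2) ∂m3 = 0 := by
  have t1 := torus1 hc1 hc2 h2
  have t2 := torus2 hc hc1 h1
  have hr := continuous_rho
  have hg := cont_gr
  have hpp : Continuous pp := continuous_pL
  have i1 : Integrable (fun p : ℝ × ℝ × ℝ => φ2 (rho p.1 p.2.1 p.2.2) * pp (rho p.1 p.2.1 p.2.2) +
      φ1 (rho p.1 p.2.1 p.2.2) * ((3 * rho p.1 p.2.1 p.2.2 ^ 2 - 14 * rho p.1 p.2.1 p.2.2 - 8) +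
        gr p.1 p.2.1 p.2.2)) m3 := m3_integrable (by fun_prop)
  have i2 : Integrable (fun p : ℝ × ℝ × ℝ => -(φ1 (rho p.1 p.2.1 p.2.2) * gr p.1 p.2.1 p.2.2) +
      φ (rho p.1 p.2.1 p.2.2) * (rho p.1 p.2.1 p.2.2 - 2)) m3 := m3_integrable (by fun_prop)
  have h := integral_add i1 i2
  rw [t1, t2, add_zero] at h
  rw [← h]
  refine integral_congr_ae (Eventually.of_forall fun p => ?_)
  simp only
  rw [pp_eq]
  ring

/-- the gradient identity of `rho` -/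
theorem momR2 (hc : Continuous φ) (hc1 : Continuous φ1) (h1 : ∀ x, HasDerivAt φ (φ1 x) x) :
    ∫ p : ℝ × ℝ × ℝ, φ (rho p.1 p.2.1 p.2.2) * gr p.1 p.2.1 p.2.2 ∂m3 =
      -∫ p : ℝ × ℝ × ℝ, (fun x => pL x * φ1 x + (3 * x ^ 2 - 14 * x - 8) * φ x)
      (rho p.1 p.2.1 p.2.2) ∂m3 := by
  have t1 := torus1 hc hc1 h1
  have hr := continuous_rho
  have hg := cont_gr
  have hp := continuous_pL
  have i1 : Integrable (fun p : ℝ × ℝ × ℝ => φ (rho p.1 p.2.1 p.2.2) * gr p.1 p.2.1 p.2.2) m3 :=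
    m3_integrable (by fun_prop)
  have i2 : Integrable (fun p : ℝ × ℝ × ℝ => (fun x => pL x * φ1 x +
      (3 * x ^ 2 - 14 * x - 8) * φ x) (rho p.1 p.2.1 p.2.2)) m3 := m3_integrable (by fun_prop)
  have h := integral_add i1 i2
  have e : ∫ p : ℝ × ℝ × ℝ, (φ (rho p.1 p.2.1 p.2.2) * gr p.1 p.2.1 p.2.2 +
      (fun x => pL x * φ1 x + (3 * x ^ 2 - 14 * x - 8) * φ x) (rho p.1 p.2.1 p.2.2)) ∂m3 = 0 := by
    rw [← t1]
    refine integral_congr_ae (Eventually.of_forall fun p => ?_)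
    simp only
    rw [pp_eq]
    ring
  rw [e] at h
  linarith

end

/-! ### The moments -/

/-- moments of `rho` -/
noncomputable def mR (k : ℕ) : ℝ := ∫ p : ℝ × ℝ × ℝ, rho p.1 p.2.1 p.2.2 ^ k ∂m3

/-- moments of `G` -/
noncomputable def mG (k : ℕ) : ℝ := ∫ x in Icc (-1 : ℝ) 8, x ^ k * Gf x

theorem d_pow (k : ℕ) (x : ℝ) : HasDerivAt (fun x : ℝ => x ^ k) (k * x ^ (k - 1)) x :=
  hasDerivAt_pow k x

theorem Lpow (k : ℕ) (x : ℝ) : pL x * ((k : ℝ) * (((k - 1 : ℕ) : ℝ) * x ^ (k - 1 - 1))) +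
    (3 * x ^ 2 - 14 * x - 8) * ((k : ℝ) * x ^ (k - 1)) + (x - 2) * x ^ k =
    ((k : ℝ) + 1) ^ 2 * x ^ (k + 1) - (7 * k * (k + 1) + 2) * x ^ k - 8 * (k : ℝ) ^ 2 * x ^ (k - 1) := by
  unfold pL
  rcases k with _ | _ | k
  · simp
  · simp
    ring
  · simp only [Nat.add_sub_cancel]
    push_cast
    ring

theorem rec_R (k : ℕ) : ((k : ℝ) + 1) ^ 2 * mR (k + 1) = (7 * k * (k + 1) + 2) * mR k +
    8 * (k : ℝ) ^ 2 * mR (k - 1) := by
  have h := momR1 (φ := fun x => x ^ k) (φ1 := fun x => (k : ℝ) * x ^ (k - 1))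
    (φ2 := fun x => (k : ℝ) * (((k - 1 : ℕ) : ℝ) * x ^ (k - 1 - 1))) (by fun_prop) (by fun_prop)
    (by fun_prop) (fun x => d_pow k x) (fun x => (d_pow (k - 1) x).const_mul (k : ℝ))
  simp only [Lpow] at h
  have hr := continuous_rho
  have i : ∀ j : ℕ, Integrable (fun p : ℝ × ℝ × ℝ => rho p.1 p.2.1 p.2.2 ^ j) m3 := fun j =>
    m3_integrable (by fun_prop)
  have i12 : Integrable (fun p : ℝ × ℝ × ℝ => ((k : ℝ) + 1) ^ 2 * rho p.1 p.2.1 p.2.2 ^ (k + 1) -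
      (7 * k * (k + 1) + 2) * rho p.1 p.2.1 p.2.2 ^ k) m3 :=
    ((i (k + 1)).const_mul _).sub ((i k).const_mul _)
  rw [integral_sub i12 ((i (k - 1)).const_mul _), integral_sub ((i (k + 1)).const_mul _)
    ((i k).const_mul _), integral_const_mul, integral_const_mul, integral_const_mul] at h
  unfold mR
  linarith

theorem rec_G (k : ℕ) : ((k : ℝ) + 1) ^ 2 * mG (k + 1) = (7 * k * (k + 1) + 2) * mG k +
    8 * (k : ℝ) ^ 2 * mG (k - 1) := by
  have h := momG1 (φ := fun x => x ^ k) (φ1 := fun x => (k : ℝ) * x ^ (k - 1))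
    (φ2 := fun x => (k : ℝ) * (((k - 1 : ℕ) : ℝ) * x ^ (k - 1 - 1))) (by fun_prop) (by fun_prop)
    (by fun_prop) (fun x => d_pow k x) (fun x => (d_pow (k - 1) x).const_mul (k : ℝ))
  simp only [Lpow] at h
  have i : ∀ j : ℕ, IntegrableOn (fun x : ℝ => x ^ j * Gf x) (Icc (-1 : ℝ) 8) := fun j =>
    integrable_Gf.continuousOn_mul (by fun_prop) isCompact_Icc
  have e : (fun x : ℝ => (((k : ℝ) + 1) ^ 2 * x ^ (k + 1) - (7 * k * (k + 1) + 2) * x ^ k -
      8 * (k : ℝ) ^ 2 * x ^ (k - 1)) * Gf x) = fun x : ℝ => (((k : ℝ) + 1) ^ 2 * (x ^ (k + 1) * Gf x) -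
      (7 * k * (k + 1) + 2) * (x ^ k * Gf x)) - 8 * (k : ℝ) ^ 2 * (x ^ (k - 1) * Gf x) := by
    funext x
    ring
  rw [e] at h
  have i12 : IntegrableOn (fun x : ℝ => ((k : ℝ) + 1) ^ 2 * (x ^ (k + 1) * Gf x) -
      (7 * k * (k + 1) + 2) * (x ^ k * Gf x)) (Icc (-1 : ℝ) 8) :=
    ((i (k + 1)).const_mul _).sub ((i k).const_mul _)
  rw [integral_sub i12 ((i (k - 1)).const_mul _), integral_sub ((i (k + 1)).const_mul _)
    ((i k).const_mul _), integral_const_mul, integral_const_mul, integral_const_mul] at h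
  unfold mG
  linarith

/-- the constant -/
noncomputable def cc : ℝ := mR 0 / mG 0

theorem mG0_pos : 0 < mG 0 := by
  unfold mG
  simp only [pow_zero, one_mul]
  rw [setIntegral_pos_iff_support_of_nonneg_ae (Eventually.of_forall fun x => Gf_nonneg x)
    integrable_Gf]
  have h1 : Ioo (1 : ℝ) 8 ⊆ (Function.support Gf) ∩ Icc (-1) 8 := by
    intro x hx
    refine ⟨?_, ⟨by linarith [hx.1], hx.2.le⟩⟩
    exact (Gf_pos (by linarith [hx.1]) (by linarith [hx.1] : x ≠ 0)).ne'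
  refine lt_of_lt_of_le ?_ (measure_mono h1)
  rw [Real.volume_Ioo]
  simp

theorem mR0_pos : 0 < mR 0 := by
  unfold mR
  simp only [pow_zero]
  rw [integral_const, smul_eq_mul, mul_one]
  unfold m3 mc
  simp only [Measure.real]
  rw [← univ_prod_univ, Measure.prod_prod, ← univ_prod_univ, Measure.prod_prod]
  simp only [Measure.restrict_apply MeasurableSet.univ, univ_inter, Real.volume_Ioc, sub_zero]
  rw [ENNReal.toReal_mul, ENNReal.toReal_mul, ENNReal.toReal_ofReal (by positivity)]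
  positivity

theorem cc_pos : 0 < cc := div_pos mR0_pos mG0_pos

theorem mom_eq : ∀ k : ℕ, mR k = cc * mG k := by
  have h0 : mR 0 = cc * mG 0 := by
    unfold cc
    have := mG0_pos.ne'
    field_simp
  have hstep : ∀ k : ℕ, mR k = cc * mG k → mR (k - 1) = cc * mG (k - 1) →
      mR (k + 1) = cc * mG (k + 1) := by
    intro k h1 h2
    have a := rec_R k
    have b := rec_G k
    have hk : ((k : ℝ) + 1) ^ 2 ≠ 0 := by positivity
    apply mul_left_cancel₀ hk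
    rw [a, h1, h2]
    linear_combination (-cc) * b
  intro k
  have : mR k = cc * mG k ∧ mR (k + 1) = cc * mG (k + 1) := by
    induction k with
    | zero => exact ⟨h0, hstep 0 h0 h0⟩
    | succ k ih => exact ⟨ih.2, hstep (k + 1) ih.2 ih.1⟩
  exact this.1

/-- the law for polynomials -/
theorem law_poly (q : ℝ[X]) : ∫ p : ℝ × ℝ × ℝ, q.eval (rho p.1 p.2.1 p.2.2) ∂m3 =
    cc * ∫ x in Icc (-1 : ℝ) 8, q.eval x * Gf x := by
  have hr := continuous_rho
  induction q using Polynomial.induction_on' with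
  | add p q hp hq =>
    simp only [eval_add, add_mul]
    have i1 : ∀ q : ℝ[X], Integrable (fun p : ℝ × ℝ × ℝ => q.eval (rho p.1 p.2.1 p.2.2)) m3 :=
      fun q => m3_integrable (q.continuous.comp hr)
    have i2 : ∀ q : ℝ[X], IntegrableOn (fun x : ℝ => q.eval x * Gf x) (Icc (-1 : ℝ) 8) :=
      fun q => integrable_Gf.continuousOn_mul q.continuous.continuousOn isCompact_Icc
    rw [integral_add (i1 p) (i1 q), integral_add (i2 p) (i2 q), hp, hq]
    ring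
  | monomial n a =>
    simp only [eval_monomial, mul_assoc]
    rw [integral_const_mul, integral_const_mul]
    have := mom_eq n
    unfold mR mG at this
    rw [this]
    ring

theorem law_poly2 (q : ℝ[X]) : ∫ p : ℝ × ℝ × ℝ, q.eval (rho p.1 p.2.1 p.2.2) * gr p.1 p.2.1 p.2.2 ∂m3 =
    cc * ∫ x in Icc (-1 : ℝ) 8, q.eval x * uf x := by
  have h1 := momR2 (φ := fun x => q.eval x) (φ1 := fun x => q.derivative.eval x) q.continuous
    q.derivative.continuous (fun x => q.hasDerivAt x)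
  have h2 := momG2 (φ := fun x => q.eval x) (φ1 := fun x => q.derivative.eval x) q.continuous
    q.derivative.continuous (fun x => q.hasDerivAt x)
  rw [h1, h2]
  obtain ⟨r, hr⟩ : ∃ r : ℝ[X], ∀ x : ℝ, r.eval x =
      pL x * q.derivative.eval x + (3 * x ^ 2 - 14 * x - 8) * q.eval x := by
    refine ⟨X * (X + 1) * (X - C 8) * derivative q + (C 3 * X ^ 2 - C 14 * X - C 8) * q, fun x => ?_⟩
    simp only [eval_add, eval_mul, eval_sub, eval_X, eval_one, eval_C, eval_pow]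
    rfl
  have h3 := law_poly r
  simp only [hr] at h3
  rw [h3]
  ring

end Pool.Agent.Lib.MP_230119_an.LA
end

section

/-!
# The law of `rho` for continuous test functions
-/

set_option autoImplicit false

open MeasureTheory Set Filter Topology Polynomial

namespace Pool.Agent.Lib.MP_230119_an.LA

open Pool.Agent.Lib.MP_230119_an

theorem law_ext {w : ℝ × ℝ × ℝ → ℝ} (hw : Continuous w) {g : ℝ → ℝ} {c : ℝ}
    (hg : IntegrableOn g (Icc (-1 : ℝ) 8))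
    (h : ∀ q : ℝ[X], ∫ p : ℝ × ℝ × ℝ, q.eval (rho p.1 p.2.1 p.2.2) * w p ∂m3 =
      c * ∫ x in Icc (-1 : ℝ) 8, q.eval x * g x) {φ : ℝ → ℝ} (hφ : Continuous φ) :
    ∫ p : ℝ × ℝ × ℝ, φ (rho p.1 p.2.1 p.2.2) * w p ∂m3 =
      c * ∫ x in Icc (-1 : ℝ) 8, φ x * g x := by
  have hr := continuous_rho
  obtain ⟨K, hK⟩ : ∃ K : ℝ, K = (∫ p, |w p| ∂m3) + |c| * ∫ x in Icc (-1 : ℝ) 8, |g x| := ⟨_, rfl⟩
  have hwi : Integrable (fun p => |w p|) m3 := m3_integrable hw.abs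
  have hgi : IntegrableOn (fun x => |g x|) (Icc (-1 : ℝ) 8) := hg.abs
  have hK0 : 0 ≤ K := by
    rw [hK]
    have h1 : 0 ≤ ∫ p, |w p| ∂m3 := integral_nonneg fun p => abs_nonneg _
    have h2 : 0 ≤ ∫ x in Icc (-1 : ℝ) 8, |g x| := integral_nonneg fun p => abs_nonneg _
    positivity
  have key : ∀ ε > 0, |(∫ p : ℝ × ℝ × ℝ, φ (rho p.1 p.2.1 p.2.2) * w p ∂m3) -
      c * ∫ x in Icc (-1 : ℝ) 8, φ x * g x| ≤ ε * K := by
    intro ε hε
    obtain ⟨q, hq⟩ := exists_polynomial_near_of_continuousOn (-1) 8 φ hφ.continuousOn ε hε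
    have i1 : Integrable (fun p : ℝ × ℝ × ℝ => φ (rho p.1 p.2.1 p.2.2) * w p) m3 :=
      m3_integrable (by fun_prop)
    have i2 : Integrable (fun p : ℝ × ℝ × ℝ => q.eval (rho p.1 p.2.1 p.2.2) * w p) m3 :=
      m3_integrable ((q.continuous.comp hr).mul hw)
    have j1 : IntegrableOn (fun x => φ x * g x) (Icc (-1 : ℝ) 8) :=
      hg.continuousOn_mul hφ.continuousOn isCompact_Icc
    have j2 : IntegrableOn (fun x => q.eval x * g x) (Icc (-1 : ℝ) 8) :=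
      hg.continuousOn_mul q.continuous.continuousOn isCompact_Icc
    have a1 : |(∫ p : ℝ × ℝ × ℝ, φ (rho p.1 p.2.1 p.2.2) * w p ∂m3) -
        ∫ p : ℝ × ℝ × ℝ, q.eval (rho p.1 p.2.1 p.2.2) * w p ∂m3| ≤ ε * ∫ p, |w p| ∂m3 := by
      rw [← integral_sub i1 i2, ← integral_const_mul, ← Real.norm_eq_abs]
      refine norm_integral_le_of_norm_le (hwi.const_mul ε) (Eventually.of_forall fun p => ?_)
      rw [← sub_mul, norm_mul, Real.norm_eq_abs, Real.norm_eq_abs]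
      refine mul_le_mul_of_nonneg_right ?_ (abs_nonneg _)
      rw [abs_sub_comm]
      exact (hq _ ⟨rho_ge _ _ _, rho_le _ _ _⟩).le
    have a2 : |(∫ x in Icc (-1 : ℝ) 8, q.eval x * g x) - ∫ x in Icc (-1 : ℝ) 8, φ x * g x| ≤
        ε * ∫ x in Icc (-1 : ℝ) 8, |g x| := by
      rw [← integral_sub j2 j1, ← integral_const_mul, ← Real.norm_eq_abs]
      refine norm_integral_le_of_norm_le (hgi.const_mul ε) ?_
      filter_upwards [ae_restrict_mem measurableSet_Icc] with x hx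
      rw [← sub_mul, norm_mul, Real.norm_eq_abs, Real.norm_eq_abs]
      exact mul_le_mul_of_nonneg_right (hq x hx).le (abs_nonneg _)
    have e : (∫ p : ℝ × ℝ × ℝ, φ (rho p.1 p.2.1 p.2.2) * w p ∂m3) -
        c * ∫ x in Icc (-1 : ℝ) 8, φ x * g x =
        ((∫ p : ℝ × ℝ × ℝ, φ (rho p.1 p.2.1 p.2.2) * w p ∂m3) -
          ∫ p : ℝ × ℝ × ℝ, q.eval (rho p.1 p.2.1 p.2.2) * w p ∂m3) +
        c * ((∫ x in Icc (-1 : ℝ) 8, q.eval x * g x) - ∫ x in Icc (-1 : ℝ) 8, φ x * g x) := by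
      rw [h q]
      ring
    rw [e]
    refine (abs_add_le _ _).trans ?_
    rw [abs_mul, hK]
    have a3 : |c| * |(∫ x in Icc (-1 : ℝ) 8, q.eval x * g x) - ∫ x in Icc (-1 : ℝ) 8, φ x * g x| ≤
        |c| * (ε * ∫ x in Icc (-1 : ℝ) 8, |g x|) := by gcongr
    linarith
  have h0 : |(∫ p : ℝ × ℝ × ℝ, φ (rho p.1 p.2.1 p.2.2) * w p ∂m3) -
      c * ∫ x in Icc (-1 : ℝ) 8, φ x * g x| ≤ 0 := by
    refine le_of_forall_pos_le_add fun δ hδ => ?_
    have h1 := key (δ / (K + 1)) (by positivity)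
    rw [zero_add]
    refine h1.trans ?_
    rw [div_mul_eq_mul_div, div_le_iff₀ (by positivity)]
    nlinarith
  exact sub_eq_zero.1 (abs_eq_zero.1 (le_antisymm h0 (abs_nonneg _)))

theorem law1 {φ : ℝ → ℝ} (hφ : Continuous φ) : ∫ p : ℝ × ℝ × ℝ, φ (rho p.1 p.2.1 p.2.2) ∂m3 =
    cc * ∫ x in Icc (-1 : ℝ) 8, φ x * Gf x := by
  have h := law_ext (w := fun _ => 1) continuous_const integrable_Gf (c := cc)
    (fun q => by simp only [mul_one]; exact law_poly q) hφ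
  simpa only [mul_one] using h

theorem law2a {φ : ℝ → ℝ} (hφ : Continuous φ) :
    ∫ p : ℝ × ℝ × ℝ, φ (rho p.1 p.2.1 p.2.2) * gr p.1 p.2.1 p.2.2 ∂m3 =
      cc * ∫ x in Icc (-1 : ℝ) 8, φ x * uf x :=
  law_ext (w := fun p => gr p.1 p.2.1 p.2.2) cont_gr integrable_uf (c := cc)
    (fun q => law_poly2 q) hφ

theorem law2 {φ : ℝ → ℝ} (hφ : Continuous φ) :
    ∫ p : ℝ × ℝ × ℝ, DD p.1 p.2.1 p.2.2 * φ (rho p.1 p.2.1 p.2.2) ∂m3 =
      cc * ∫ x in Icc (-1 : ℝ) 8, φ x * (uf x + 3 / 4 * x * (x - 8) * Gf x) := by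
  have hr := continuous_rho
  have hg := cont_gr
  have h1 := law2a hφ
  have h2 := law1 (φ := fun x => 3 / 4 * x * (x - 8) * φ x) (by fun_prop)
  have i1 : Integrable (fun p : ℝ × ℝ × ℝ => φ (rho p.1 p.2.1 p.2.2) * gr p.1 p.2.1 p.2.2) m3 :=
    m3_integrable (by fun_prop)
  have i2 : Integrable (fun p : ℝ × ℝ × ℝ => (fun x => 3 / 4 * x * (x - 8) * φ x)
      (rho p.1 p.2.1 p.2.2)) m3 := m3_integrable (by fun_prop)
  have j1 : IntegrableOn (fun x => φ x * uf x) (Icc (-1 : ℝ) 8) :=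
    integrable_uf.continuousOn_mul hφ.continuousOn isCompact_Icc
  have j2 : IntegrableOn (fun x => 3 / 4 * x * (x - 8) * φ x * Gf x) (Icc (-1 : ℝ) 8) :=
    integrable_Gf.continuousOn_mul (by fun_prop) isCompact_Icc
  have e1 : ∫ p : ℝ × ℝ × ℝ, DD p.1 p.2.1 p.2.2 * φ (rho p.1 p.2.1 p.2.2) ∂m3 =
      ∫ p : ℝ × ℝ × ℝ, (φ (rho p.1 p.2.1 p.2.2) * gr p.1 p.2.1 p.2.2 +
        (fun x => 3 / 4 * x * (x - 8) * φ x) (rho p.1 p.2.1 p.2.2)) ∂m3 := by
    refine integral_congr_ae (Eventually.of_forall fun p => ?_)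
    simp only
    rw [gr_eq]
    ring
  have e2 : ∫ x in Icc (-1 : ℝ) 8, φ x * (uf x + 3 / 4 * x * (x - 8) * Gf x) =
      ∫ x in Icc (-1 : ℝ) 8, (φ x * uf x + 3 / 4 * x * (x - 8) * φ x * Gf x) := by
    refine integral_congr_ae (Eventually.of_forall fun x => ?_)
    simp only
    ring
  rw [e1, e2, integral_add i1 i2, integral_add j1 j2, h1, h2]
  ring

/-- the data of the law -/
theorem lawData : LawData Gf uf cc where
  c0_pos := cc_pos
  contG := fun x hx hx0 => (hasDerivAt_Gf hx hx0).continuousAt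
  contu := fun x hx hx0 => (hasDerivAt_uf hx hx0).continuousAt
  measG := measurable_Gf
  measu := measurable_uf
  bdG := by
    obtain ⟨C, _, hC⟩ := Gf_log_bound
    exact ⟨C, hC⟩
  bdu := uf_bound
  nonneg := fun x _ => Gf_nonneg x
  law1 := fun φ hφ => law1 hφ
  law2 := fun φ hφ => law2 hφ

end Pool.Agent.Lib.MP_230119_an.LA
end

section

/-!
# The sharp inequality for the modulus of a real even trigonometric polynomial
-/

set_option autoImplicit false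

open MeasureTheory Set Filter Topology
open scoped ENNReal

namespace Pool.Agent.Lib.MP_230119_an

/-- the square of a trigonometric polynomial -/
theorem sq_trig (N : ℕ) (a : ℤ → ℂ) : ∃ b : ℤ → ℂ, ∀ θ : ℝ,
    (∑ k ∈ Finset.Icc (-(N : ℤ)) N, a k * Complex.exp (2 * k * θ * Complex.I)) ^ 2 =
      ∑ k ∈ Finset.Icc (-((2 * N : ℕ) : ℤ)) ((2 * N : ℕ) : ℤ),
        b k * Complex.exp (2 * k * θ * Complex.I) := by
  refine ⟨fun m => ∑ p ∈ (Finset.Icc (-(N : ℤ)) N ×ˢ Finset.Icc (-(N : ℤ)) N).filter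
    (fun p => p.1 + p.2 = m), a p.1 * a p.2, fun θ => ?_⟩
  rw [pow_two, Finset.sum_mul_sum, ← Finset.sum_product']
  rw [← Finset.sum_fiberwise_of_maps_to (s := Finset.Icc (-(N : ℤ)) N ×ˢ Finset.Icc (-(N : ℤ)) N)
    (t := Finset.Icc (-((2 * N : ℕ) : ℤ)) ((2 * N : ℕ) : ℤ)) (g := fun p => p.1 + p.2)]
  · refine Finset.sum_congr rfl fun m _ => ?_
    rw [Finset.sum_mul]
    refine Finset.sum_congr rfl fun p hp => ?_
    have h := (Finset.mem_filter.1 hp).2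
    rw [← h]
    push_cast
    have e : Complex.exp (2 * ((p.1 : ℂ) + p.2) * θ * Complex.I) =
        Complex.exp (2 * p.1 * θ * Complex.I) * Complex.exp (2 * p.2 * θ * Complex.I) := by
      rw [← Complex.exp_add]
      congr 1
      ring
    rw [e]
    ring
  · intro p hp
    rw [Finset.mem_product, Finset.mem_Icc, Finset.mem_Icc] at hp
    rw [Finset.mem_Icc]
    push_cast
    omega

section
variable {G u : ℝ → ℝ} {c0 : ℝ}

/-- lower bound of `J 1` -/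
theorem J_one_ge (hl : LawData G u c0) (hW : LemmaW) :
    2 * Real.pi * (10 * (2 * c0 / 18432 * TK G u (fun _ => 1))) ≤ (J fun _ => (1 : ℂ)).toReal := by
  have hpi := Real.pi_pos
  have h1 := lim_main hl (h := fun _ => 1) continuous_const
  refine le_of_forall_pos_le_add fun ε hε => ?_
  have h2 := ((h1.const_mul 10).const_mul (2 * Real.pi))
  refine le_of_tendsto h2 ?_
  filter_upwards [st03_one hW (ε / (2 * Real.pi)) (by positivity)] with n hn
  have hR : (0 : ℝ) < (n : ℝ) + 1 := by positivity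
  have h3 := i6_le_J (f := fun _ => 1) continuous_const (fun _ => zero_le_one) (fun _ => rfl) hR
  simp only [Finset.prod_const_one, Complex.ofReal_one] at h3
  have h4 := (ENNReal.ofReal_le_iff_le_toReal J_one_ne_top).1 h3
  calc 2 * Real.pi * (10 * I6 ((n : ℝ) + 1) fun θ => w0 θ * hA (fun _ => 1) θ)
      ≤ 2 * Real.pi * (I6 ((n : ℝ) + 1) (fun _ => 1) + ε / (2 * Real.pi)) := by gcongr
    _ = 2 * Real.pi * I6 ((n : ℝ) + 1) (fun _ => 1) + ε := by
      field_simp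
    _ ≤ (J fun _ => (1 : ℂ)).toReal + ε := by linarith

/-- the inequality for `f = |q|` -/
theorem J_trig (hl : LawData G u c0) (hW : LemmaW) (hS : Star G u) {N : ℕ} {a : ℤ → ℂ}
    {q : ℝ → ℝ} (hq : ∀ θ : ℝ, (q θ : ℂ) =
      ∑ k ∈ Finset.Icc (-(N : ℤ)) N, a k * Complex.exp (2 * k * θ * Complex.I)) :
    J (fun θ => ((|q θ| : ℝ) : ℂ)) ≤
      J (fun _ => (1 : ℂ)) * ENNReal.ofReal ((∫ θ, q θ ^ 2 ∂mc) / (2 * Real.pi)) ^ 3 := by
  have hpi := Real.pi_pos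
  have hqc : Continuous q := by
    have h1 : Continuous fun θ : ℝ => (q θ : ℂ) := by
      have h2 : (fun θ : ℝ => (q θ : ℂ)) = fun θ : ℝ =>
          ∑ k ∈ Finset.Icc (-(N : ℤ)) N, a k * Complex.exp (2 * k * θ * Complex.I) := by
        funext θ
        exact hq θ
      rw [h2]
      fun_prop
    have h2 := Complex.continuous_re.comp h1
    simpa [Function.comp_def] using h2
  have hper : ∀ θ, |q (θ + Real.pi)| = |q θ| := by
    intro θ
    have h1 : (q (θ + Real.pi) : ℂ) = (q θ : ℂ) := by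
      rw [hq, hq]
      refine Finset.sum_congr rfl fun k _ => ?_
      congr 1
      have e : 2 * (k : ℂ) * ((θ + Real.pi : ℝ) : ℂ) * Complex.I =
          2 * k * θ * Complex.I + k * (2 * Real.pi * Complex.I) := by
        push_cast
        ring
      rw [e, Complex.exp_add, Complex.exp_int_mul_two_pi_mul_I, mul_one]
    rw [Complex.ofReal_inj] at h1
    rw [h1]
  obtain ⟨b, hb⟩ := sq_trig N a
  have hh : ∀ θ : ℝ, (((q θ) ^ 2 : ℝ) : ℂ) = ∑ k ∈ Finset.Icc (-((2 * N : ℕ) : ℤ)) ((2 * N : ℕ) : ℤ),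
      b k * Complex.exp (2 * k * θ * Complex.I) := by
    intro θ
    rw [← hb θ, ← hq θ]
    push_cast
    rfl
  have hStar := hS (2 * N) b (fun θ => q θ ^ 2) hh (fun θ => sq_nonneg _)
  -- the upper bound
  have hf : Continuous fun θ => |q θ| := hqc.abs
  have hsq : (fun t => |q t| ^ 2) = fun t => q t ^ 2 := by
    funext t
    exact sq_abs _
  have h1 := lim_main hl (h := fun t => q t ^ 2) (hqc.pow 2)
  have h2 : J (fun θ => ((|q θ| : ℝ) : ℂ)) ≤
      ENNReal.ofReal (2 * Real.pi * (10 * (2 * c0 / 18432 * TK G u (fun t => q t ^ 2)))) := by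
    refine J_le_liminf hf (fun θ => abs_nonneg _) hper fun ε hε => ?_
    have h3 := st03_upper (f := fun t => |q t|) hf hW (ε / 2) (by positivity)
    rw [hsq] at h3
    have h4 := (h1.const_mul 10).eventually (Iic_mem_nhds
      (show 10 * (2 * c0 / 18432 * TK G u (fun t => q t ^ 2)) <
        10 * (2 * c0 / 18432 * TK G u (fun t => q t ^ 2)) + ε / 2 by linarith))
    filter_upwards [h3, h4] with n hn1 hn2
    linarith
  have h5 := J_one_ge hl hW
  have hm : 0 ≤ (∫ θ, q θ ^ 2 ∂mc) / (2 * Real.pi) :=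
    div_nonneg (integral_nonneg fun θ => sq_nonneg _) (by positivity)
  have hc0 := hl.c0_pos
  refine h2.trans ?_
  have h6 : 2 * Real.pi * (10 * (2 * c0 / 18432 * TK G u (fun t => q t ^ 2))) ≤
      (J fun _ => (1 : ℂ)).toReal * ((∫ θ, q θ ^ 2 ∂mc) / (2 * Real.pi)) ^ 3 := by
    calc 2 * Real.pi * (10 * (2 * c0 / 18432 * TK G u (fun t => q t ^ 2)))
        ≤ 2 * Real.pi * (10 * (2 * c0 / 18432 * (TK G u (fun _ => 1) *
            ((∫ θ, q θ ^ 2 ∂mc) / (2 * Real.pi)) ^ 3))) := by gcongr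
      _ = 2 * Real.pi * (10 * (2 * c0 / 18432 * TK G u (fun _ => 1))) *
            ((∫ θ, q θ ^ 2 ∂mc) / (2 * Real.pi)) ^ 3 := by ring
      _ ≤ _ := by gcongr
  refine (ENNReal.ofReal_le_ofReal h6).trans (le_of_eq ?_)
  rw [ENNReal.ofReal_mul ENNReal.toReal_nonneg, ENNReal.ofReal_toReal J_one_ne_top,
    ENNReal.ofReal_pow hm]

end

end Pool.Agent.Lib.MP_230119_an
end

section

/-!
# Density of trigonometric polynomials and the full inequality
-/

set_option autoImplicit false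

open MeasureTheory Set Filter Topology
open scoped ENNReal

namespace Pool.Agent.Lib.MP_230119_an

theorem lint_sq {α : Type*} [MeasurableSpace α] (μ : Measure α) (f : α → ℂ) :
    ∫⁻ x, ‖f x‖ₑ ^ 2 ∂μ = eLpNorm f 2 μ ^ 2 := by
  have h2 : eLpNorm f 2 μ ^ (2 : ℝ) = ∫⁻ θ, ‖f θ‖ₑ ^ (2 : ℝ) ∂μ := by
    rw [eLpNorm_eq_lintegral_rpow_enorm_toReal (by norm_num) (by norm_num)]
    rw [← ENNReal.rpow_mul]
    norm_num
  rw [← ENNReal.rpow_two, h2]
  refine lintegral_congr fun x => ?_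
  rw [ENNReal.rpow_two]

/-- trigonometric polynomials are dense in `L²(0, π)` -/
theorem dense_half {v : ℝ → ℂ} (hv : MemLp v 2 (volume.restrict (Ioc 0 Real.pi))) {ε : ℝ}
    (hε : 0 < ε) : ∃ (N : ℕ) (a : ℤ → ℂ), ∫⁻ θ in Ioc 0 Real.pi,
      ‖(∑ k ∈ Finset.Icc (-(N : ℤ)) N, a k * Complex.exp (2 * k * θ * Complex.I)) - v θ‖ₑ ^ 2 ≤
        ENNReal.ofReal ε := by
  have hpi := Real.pi_pos
  have : Fact (0 < Real.pi) := ⟨hpi⟩
  have hv' : MemLp v 2 (volume.restrict (Ioc 0 (0 + Real.pi))) := by rwa [zero_add]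
  have h := hv'.memLp_liftIoc.haarAddCircle
  have hs := hasSum_fourier_series_L2 h.toLp
  obtain ⟨δ, hδ0, hδ⟩ : ∃ δ : ℝ, 0 < δ ∧ Real.pi * δ ^ 2 = ε :=
    ⟨Real.sqrt (ε / Real.pi), Real.sqrt_pos.2 (by positivity), by
      rw [Real.sq_sqrt (by positivity)]
      field_simp⟩
  have hs2 := (Metric.tendsto_atTop.1 hs) δ hδ0
  obtain ⟨s0, hs0⟩ := hs2
  obtain ⟨N, hN⟩ : ∃ N : ℕ, s0 ⊆ Finset.Icc (-(N : ℤ)) N := by
    refine ⟨s0.sup Int.natAbs, fun k hk => ?_⟩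
    have := Finset.le_sup (f := Int.natAbs) hk
    rw [Finset.mem_Icc]
    omega
  have h1 := hs0 _ hN
  obtain ⟨c, hc⟩ : ∃ c : ℤ → ℂ, c = fourierCoeff (h.toLp : AddCircle Real.pi → ℂ) := ⟨_, rfl⟩
  rw [← hc] at h1
  refine ⟨N, c, ?_⟩
  set s := Finset.Icc (-(N : ℤ)) N with hsdef
  obtain ⟨Q, hQ⟩ : ∃ Q : C(AddCircle Real.pi, ℂ), Q = ∑ i ∈ s, c i • fourier i := ⟨_, rfl⟩
  have hP : ∑ i ∈ s, c i • fourierLp 2 i = ContinuousMap.toLp (E := ℂ) 2 AddCircle.haarAddCircle ℂ Q := by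
    rw [hQ, map_sum]
    refine Finset.sum_congr rfl fun i _ => ?_
    rw [map_smul]
  rw [hP, dist_eq_norm] at h1
  have h2 : eLpNorm (fun x => Q x - AddCircle.liftIoc Real.pi 0 v x) 2 AddCircle.haarAddCircle ≤
      ENNReal.ofReal δ := by
    have e1 : (fun x => Q x - AddCircle.liftIoc Real.pi 0 v x) =ᵐ[AddCircle.haarAddCircle]
        ((ContinuousMap.toLp (E := ℂ) 2 AddCircle.haarAddCircle ℂ Q - h.toLp :
          Lp ℂ 2 (AddCircle.haarAddCircle (T := Real.pi))) : AddCircle Real.pi → ℂ) := by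
      filter_upwards [ContinuousMap.coeFn_toLp (p := 2) (𝕜 := ℂ)
        (AddCircle.haarAddCircle (T := Real.pi)) Q, h.coeFn_toLp,
        Lp.coeFn_sub (ContinuousMap.toLp (E := ℂ) 2 AddCircle.haarAddCircle ℂ Q) h.toLp]
        with x hx1 hx2 hx3
      rw [hx3, Pi.sub_apply, hx1, hx2]
    rw [eLpNorm_congr_ae e1]
    rw [Lp.norm_def] at h1
    exact (ENNReal.le_ofReal_iff_toReal_le (Lp.eLpNorm_ne_top _) hδ0.le).2 h1.le
  have h3 : ∫⁻ x : AddCircle Real.pi, ‖Q x - AddCircle.liftIoc Real.pi 0 v x‖ₑ ^ 2 ≤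
      ENNReal.ofReal ε := by
    rw [AddCircle.volume_eq_smul_haarAddCircle, lintegral_smul_measure, lint_sq, ← hδ,
      ENNReal.ofReal_mul hpi.le, ENNReal.ofReal_pow hδ0.le, smul_eq_mul]
    gcongr
  rw [← AddCircle.lintegral_preimage Real.pi 0, zero_add] at h3
  refine le_trans (le_of_eq ?_) h3
  refine setLIntegral_congr_fun measurableSet_Ioc fun θ hθ => ?_
  rw [AddCircle.liftIoc_zero_coe_apply hθ]
  congr 3
  rw [hQ, ContinuousMap.sum_apply]
  refine Finset.sum_congr rfl fun k _ => ?_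
  rw [ContinuousMap.smul_apply, fourier_coe_apply, smul_eq_mul]
  congr 2
  have hp : (Real.pi : ℂ) ≠ 0 := by exact_mod_cast hpi.ne'
  field_simp

/-- the real part of a trigonometric polynomial -/
theorem re_trig (N : ℕ) (a : ℤ → ℂ) : ∃ b : ℤ → ℂ, ∀ θ : ℝ,
    (((∑ k ∈ Finset.Icc (-(N : ℤ)) N, a k * Complex.exp (2 * k * θ * Complex.I)).re : ℝ) : ℂ) =
      ∑ k ∈ Finset.Icc (-(N : ℤ)) N, b k * Complex.exp (2 * k * θ * Complex.I) := by
  refine ⟨fun k => (a k + (starRingEnd ℂ) (a (-k))) / 2, fun θ => ?_⟩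
  rw [Complex.re_eq_add_conj, map_sum]
  have e : ∑ k ∈ Finset.Icc (-(N : ℤ)) N,
      (starRingEnd ℂ) (a k * Complex.exp (2 * k * θ * Complex.I)) =
      ∑ k ∈ Finset.Icc (-(N : ℤ)) N,
        (starRingEnd ℂ) (a (-k)) * Complex.exp (2 * k * θ * Complex.I) := by
    refine Finset.sum_nbij' (fun k => -k) (fun k => -k) ?_ ?_ ?_ ?_ ?_
    · intro k hk
      rw [Finset.mem_Icc] at hk ⊢
      constructor <;> omega
    · intro k hk
      rw [Finset.mem_Icc] at hk ⊢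
      constructor <;> omega
    · intro k _
      exact neg_neg k
    · intro k _
      exact neg_neg k
    · intro k _
      simp only [neg_neg]
      rw [map_mul, ← Complex.exp_conj]
      congr 2
      simp only [map_mul, Complex.conj_I, Complex.conj_ofReal, map_ofNat, map_intCast]
      push_cast
      ring
  rw [e, ← Finset.sum_add_distrib, Finset.sum_div]
  refine Finset.sum_congr rfl fun k _ => ?_
  ring

theorem mc_split (F : ℝ → ℝ≥0∞) (hF : ∀ θ ∈ Ioc 0 Real.pi, F (θ + Real.pi) = F θ) :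
    ∫⁻ θ, F θ ∂mc = 2 * ∫⁻ θ in Ioc 0 Real.pi, F θ := by
  have hpi := Real.pi_pos
  have hmc : Ioc 0 (2 * Real.pi) = Ioc 0 Real.pi ∪ Ioc Real.pi (2 * Real.pi) :=
    (Ioc_union_Ioc_eq_Ioc hpi.le (by linarith)).symm
  have hdisj : Disjoint (Ioc 0 Real.pi) (Ioc Real.pi (2 * Real.pi)) :=
    Set.disjoint_left.2 fun x hx hy => by
      simp only [mem_Ioc] at hx hy
      linarith
  unfold mc
  rw [hmc, lintegral_union measurableSet_Ioc hdisj]
  have h1 : MeasurePreserving (fun θ : ℝ => θ + Real.pi) (volume.restrict (Ioc 0 Real.pi))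
      (volume.restrict (Ioc Real.pi (2 * Real.pi))) := by
    have := (measurePreserving_add_right (volume : Measure ℝ) Real.pi).restrict_preimage
      (s := Ioc Real.pi (2 * Real.pi)) measurableSet_Ioc
    have e : (fun θ : ℝ => θ + Real.pi) ⁻¹' Ioc Real.pi (2 * Real.pi) = Ioc 0 Real.pi := by
      ext θ
      simp only [mem_preimage, mem_Ioc]
      constructor <;> rintro ⟨a, b⟩ <;> constructor <;> linarith
    rwa [e] at this
  have h2 : ∫⁻ θ in Ioc Real.pi (2 * Real.pi), F θ = ∫⁻ θ in Ioc 0 Real.pi, F (θ + Real.pi) :=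
    (h1.lintegral_comp_emb (measurableEmbedding_addRight Real.pi) F).symm
  rw [h2, setLIntegral_congr_fun measurableSet_Ioc (fun θ hθ => hF θ hθ), two_mul]

/-- approximation of even real functions -/
theorem dense_even {u : ℝ → ℝ} (hu : MemLp (fun θ => (u θ : ℂ)) 2 mc)
    (hev : ∀ θ ∈ Ioc 0 (2 * Real.pi), u (ap θ) = u θ) {ε : ℝ} (hε : 0 < ε) :
    ∃ (N : ℕ) (a : ℤ → ℂ) (q : ℝ → ℝ), (∀ θ : ℝ, (q θ : ℂ) =
      ∑ k ∈ Finset.Icc (-(N : ℤ)) N, a k * Complex.exp (2 * k * θ * Complex.I)) ∧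
      eLpNorm (fun θ => ((q θ : ℝ) : ℂ) - u θ) 2 mc ≤ ENNReal.ofReal ε := by
  have hpi := Real.pi_pos
  have hv : MemLp (fun θ => (u θ : ℂ)) 2 (volume.restrict (Ioc 0 Real.pi)) := by
    refine hu.mono_measure ?_
    unfold mc
    exact Measure.restrict_mono (Ioc_subset_Ioc_right (by linarith)) le_rfl
  obtain ⟨N, a, ha⟩ := dense_half hv (ε := ε ^ 2 / 2) (by positivity)
  obtain ⟨b, hb⟩ := re_trig N a
  refine ⟨N, b, fun θ : ℝ => (∑ k ∈ Finset.Icc (-(N : ℤ)) N,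
    a k * Complex.exp (2 * k * (θ : ℂ) * Complex.I)).re, hb, ?_⟩
  obtain ⟨q, hq⟩ : ∃ q : ℝ → ℝ, q = fun θ : ℝ => (∑ k ∈ Finset.Icc (-(N : ℤ)) N,
    a k * Complex.exp (2 * k * (θ : ℂ) * Complex.I)).re := ⟨_, rfl⟩
  rw [← hq]
  have hqper : ∀ θ, q (θ + Real.pi) = q θ := by
    intro θ
    rw [hq]
    simp only
    congr 1
    refine Finset.sum_congr rfl fun k _ => ?_
    congr 1
    have e : 2 * (k : ℂ) * ((θ + Real.pi : ℝ) : ℂ) * Complex.I =
        2 * k * θ * Complex.I + k * (2 * Real.pi * Complex.I) := by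
      push_cast
      ring
    rw [e, Complex.exp_add, Complex.exp_int_mul_two_pi_mul_I, mul_one]
  have huper : ∀ θ ∈ Ioc 0 Real.pi, u (θ + Real.pi) = u θ := by
    intro θ hθ
    have h1 := hev θ ⟨hθ.1, by linarith [hθ.2]⟩
    unfold ap at h1
    rwa [if_pos hθ.2] at h1
  have h1 : ∫⁻ θ, ‖((q θ : ℝ) : ℂ) - u θ‖ₑ ^ 2 ∂mc ≤ ENNReal.ofReal (ε ^ 2) := by
    rw [mc_split _ (fun θ hθ => by rw [hqper, huper θ hθ])]
    have h2 : ∫⁻ θ in Ioc 0 Real.pi, ‖((q θ : ℝ) : ℂ) - u θ‖ₑ ^ 2 ≤ ENNReal.ofReal (ε ^ 2 / 2) := by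
      refine le_trans (lintegral_mono fun θ => ?_) ha
      have h3 : ‖((q θ : ℝ) : ℂ) - u θ‖ ≤ ‖(∑ k ∈ Finset.Icc (-(N : ℤ)) N,
          a k * Complex.exp (2 * k * θ * Complex.I)) - (u θ : ℂ)‖ := by
        rw [← Complex.ofReal_sub, Complex.norm_real, Real.norm_eq_abs, hq]
        have := Complex.abs_re_le_norm ((∑ k ∈ Finset.Icc (-(N : ℤ)) N,
          a k * Complex.exp (2 * k * θ * Complex.I)) - (u θ : ℂ))
        rwa [Complex.sub_re, Complex.ofReal_re] at this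
      have h4 : ‖((q θ : ℝ) : ℂ) - u θ‖ₑ ≤ ‖(∑ k ∈ Finset.Icc (-(N : ℤ)) N,
          a k * Complex.exp (2 * k * θ * Complex.I)) - (u θ : ℂ)‖ₑ := by
        rw [← ofReal_norm, ← ofReal_norm]
        exact ENNReal.ofReal_le_ofReal h3
      exact pow_le_pow_left' h4 2
    calc 2 * ∫⁻ θ in Ioc 0 Real.pi, ‖((q θ : ℝ) : ℂ) - u θ‖ₑ ^ 2
        ≤ 2 * ENNReal.ofReal (ε ^ 2 / 2) := by gcongr
      _ = ENNReal.ofReal (ε ^ 2) := by
        rw [show (2 : ℝ≥0∞) = ENNReal.ofReal 2 by norm_num, ← ENNReal.ofReal_mul (by norm_num)]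
        congr 1
        ring
  rw [lint_sq, ENNReal.ofReal_pow hε.le] at h1
  exact (ENNReal.pow_le_pow_left_iff two_ne_zero).1 h1

section
variable {G u : ℝ → ℝ} {c0 : ℝ}

/-- the inequality for even nonnegative functions -/
theorem J_even (hl : LawData G u c0) (hW : LemmaW) (hS : Star G u) {v : ℝ → ℝ}
    (h0 : ∀ θ, 0 ≤ v θ) (hv : MemLp (fun θ => (v θ : ℂ)) 2 mc)
    (hev : ∀ θ ∈ Ioc 0 (2 * Real.pi), v (ap θ) = v θ) :
    J (fun θ => (v θ : ℂ)) ≤ J (fun _ => (1 : ℂ)) *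
      (N2 (fun θ => (v θ : ℂ)) / ENNReal.ofReal (2 * Real.pi)) ^ 3 := by
  have hpi := Real.pi_pos
  have hex : ∀ n : ℕ, ∃ (N : ℕ) (a : ℤ → ℂ) (q : ℝ → ℝ), (∀ θ : ℝ, (q θ : ℂ) =
      ∑ k ∈ Finset.Icc (-(N : ℤ)) N, a k * Complex.exp (2 * k * θ * Complex.I)) ∧
      eLpNorm (fun θ => ((q θ : ℝ) : ℂ) - v θ) 2 mc ≤ ENNReal.ofReal (1 / ((n : ℝ) + 1)) :=
    fun n => dense_even hv hev (by positivity)
  choose N a q hq hqn using hex
  have hqc : ∀ n, Continuous (q n) := by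
    intro n
    have h1 : Continuous fun θ : ℝ => (q n θ : ℂ) := by
      have h2 : (fun θ : ℝ => (q n θ : ℂ)) = fun θ : ℝ =>
          ∑ k ∈ Finset.Icc (-(N n : ℤ)) (N n), a n k * Complex.exp (2 * k * θ * Complex.I) := by
        funext θ
        exact hq n θ
      rw [h2]
      fun_prop
    have h2 := Complex.continuous_re.comp h1
    simpa [Function.comp_def] using h2
  have hmem : ∀ {f : ℝ → ℝ}, Continuous f → MemLp (fun θ => (f θ : ℂ)) 2 mc := by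
    intro f hf
    obtain ⟨C, hC⟩ := (isCompact_Icc : IsCompact (Icc (0 : ℝ) (2 * Real.pi))).exists_bound_of_continuousOn
      hf.continuousOn
    refine MemLp.of_bound (C := C) (Complex.continuous_ofReal.comp hf).aestronglyMeasurable ?_
    unfold mc
    filter_upwards [ae_restrict_mem (μ := volume) measurableSet_Ioc] with t ht
    rw [Complex.norm_real]
    exact hC t (Ioc_subset_Icc_self ht)
  have hεlim : Tendsto (fun n : ℕ => ENNReal.ofReal (1 / ((n : ℝ) + 1))) atTop (𝓝 0) := by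
    have := ENNReal.tendsto_ofReal (tendsto_one_div_add_atTop_nhds_zero_nat (𝕜 := ℝ))
    simpa using this
  -- the moduli converge
  have habs : ∀ n, eLpNorm (fun θ => ((|q n θ| : ℝ) : ℂ) - v θ) 2 mc ≤
      ENNReal.ofReal (1 / ((n : ℝ) + 1)) := by
    intro n
    refine (eLpNorm_mono fun θ => ?_).trans (hqn n)
    rw [← Complex.ofReal_sub, ← Complex.ofReal_sub, Complex.norm_real, Complex.norm_real,
      Real.norm_eq_abs, Real.norm_eq_abs]
    have h1 := abs_abs_sub_abs_le (q n θ) (v θ)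
    rwa [abs_of_nonneg (h0 θ)] at h1
  have hpt : ∀ x, Tendsto (fun n : ℕ => ex (fun θ => ((|q n θ| : ℝ) : ℂ)) x) atTop
      (𝓝 (ex (fun θ => (v θ : ℂ)) x)) := by
    intro x
    unfold ex tr
    refine tendsto_integral_of_L1' _ (integrable_tr continuous_om.measurable
      (integrable_of_memLp hv) x).aestronglyMeasurable (Eventually.of_forall fun n =>
      integrable_tr continuous_om.measurable (integrable_of_memLp (hmem (hqc n).abs)) x) ?_
    have hb : ∀ n : ℕ, eLpNorm ((fun y => ((|q n y| : ℝ) : ℂ) * ph x (om y)) -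
        fun y => (v y : ℂ) * ph x (om y)) 1 mc ≤
        ENNReal.ofReal (1 / ((n : ℝ) + 1)) * (mc univ) ^ (1 / 2 : ℝ) := by
      intro n
      have e1 : eLpNorm ((fun y => ((|q n y| : ℝ) : ℂ) * ph x (om y)) -
          fun y => (v y : ℂ) * ph x (om y)) 1 mc =
          eLpNorm (fun θ => ((|q n θ| : ℝ) : ℂ) - v θ) 1 mc := by
        refine eLpNorm_congr_norm_ae (Eventually.of_forall fun y => ?_)
        rw [Pi.sub_apply, ← sub_mul, norm_mul, norm_ph, mul_one]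
      rw [e1]
      have h2 := eLpNorm_le_eLpNorm_mul_rpow_measure_univ (μ := mc) (p := 1) (q := 2)
        (f := fun θ => ((|q n θ| : ℝ) : ℂ) - v θ) (by norm_num)
        ((hmem (hqc n).abs).aestronglyMeasurable.sub hv.aestronglyMeasurable)
      refine h2.trans ?_
      have e2 : (1 / (1 : ℝ≥0∞).toReal - 1 / (2 : ℝ≥0∞).toReal : ℝ) = 1 / 2 := by
        norm_num
      rw [e2]
      gcongr
      exact habs n
    have hlim : Tendsto (fun n : ℕ => ENNReal.ofReal (1 / ((n : ℝ) + 1)) * (mc univ) ^ (1 / 2 : ℝ))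
        atTop (𝓝 (0 * (mc univ) ^ (1 / 2 : ℝ))) := by
      refine ENNReal.Tendsto.mul_const hεlim (Or.inr ?_)
      exact ENNReal.rpow_ne_top_of_nonneg (by norm_num) (measure_ne_top _ _)
    rw [zero_mul] at hlim
    exact tendsto_of_tendsto_of_tendsto_of_le_of_le tendsto_const_nhds hlim
      (fun _ => zero_le) hb
  -- Fatou
  have hF : J (fun θ => (v θ : ℂ)) ≤ liminf (fun n : ℕ => J fun θ => ((|q n θ| : ℝ) : ℂ)) atTop := by
    unfold J
    have h1 : ∀ x, ‖ex (fun θ => (v θ : ℂ)) x‖ₑ ^ 6 =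
        liminf (fun n : ℕ => ‖ex (fun θ => ((|q n θ| : ℝ) : ℂ)) x‖ₑ ^ 6) atTop := by
      intro x
      have h2 : Tendsto (fun n : ℕ => ‖ex (fun θ => ((|q n θ| : ℝ) : ℂ)) x‖ₑ ^ 6) atTop
          (𝓝 (‖ex (fun θ => (v θ : ℂ)) x‖ₑ ^ 6)) :=
        ((ENNReal.continuous_pow 6).tendsto _).comp ((continuous_enorm.tendsto _).comp (hpt x))
      exact h2.liminf_eq.symm
    rw [lintegral_congr h1]
    refine lintegral_liminf_le fun n => ?_
    have hc := continuous_ex (integrable_of_memLp (hmem (hqc n).abs))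
    exact hc.enorm.measurable.pow_const 6
  refine hF.trans ?_
  -- the bound for the approximations
  have hN2 : N2 (fun θ => (v θ : ℂ)) = eLpNorm (fun θ => (v θ : ℂ)) 2 mc ^ 2 := lint_sq mc _
  have hbd : ∀ n : ℕ, J (fun θ => ((|q n θ| : ℝ) : ℂ)) ≤ J (fun _ => (1 : ℂ)) *
      ((eLpNorm (fun θ => (v θ : ℂ)) 2 mc + ENNReal.ofReal (1 / ((n : ℝ) + 1))) ^ 2 /
        ENNReal.ofReal (2 * Real.pi)) ^ 3 := by
    intro n
    refine (J_trig hl hW hS (hq n)).trans ?_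
    gcongr
    rw [ENNReal.ofReal_div_of_pos (by positivity)]
    gcongr
    have e1 : ENNReal.ofReal (∫ θ, q n θ ^ 2 ∂mc) = eLpNorm (fun θ => ((q n θ : ℝ) : ℂ)) 2 mc ^ 2 := by
      rw [← lint_sq, ofReal_integral_eq_lintegral_ofReal]
      · refine lintegral_congr fun θ => ?_
        rw [← ofReal_norm, Complex.norm_real, Real.norm_eq_abs, ← ENNReal.ofReal_pow (abs_nonneg _),
          sq_abs]
      · have h1 := (hmem ((hqc n).pow 2))
        have h2 := (integrable_of_memLp h1).re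
        exact h2
      · exact Eventually.of_forall fun θ => sq_nonneg _
    rw [e1]
    gcongr
    have h2 : (fun θ => ((q n θ : ℝ) : ℂ)) =
        (fun θ => (v θ : ℂ)) + fun θ => ((q n θ : ℝ) : ℂ) - v θ := by
      funext θ
      simp
    rw [h2]
    refine (eLpNorm_add_le hv.aestronglyMeasurable
      ((hmem (hqc n)).aestronglyMeasurable.sub hv.aestronglyMeasurable) (by norm_num)).trans ?_
    gcongr
    exact hqn n
  have hlim : Tendsto (fun n : ℕ => J (fun _ => (1 : ℂ)) *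
      ((eLpNorm (fun θ => (v θ : ℂ)) 2 mc + ENNReal.ofReal (1 / ((n : ℝ) + 1))) ^ 2 /
        ENNReal.ofReal (2 * Real.pi)) ^ 3) atTop (𝓝 (J (fun _ => (1 : ℂ)) *
      ((eLpNorm (fun θ => (v θ : ℂ)) 2 mc + 0) ^ 2 / ENNReal.ofReal (2 * Real.pi)) ^ 3)) := by
    refine ENNReal.Tendsto.const_mul ?_ (Or.inr J_one_ne_top)
    refine ((ENNReal.continuous_pow 3).tendsto _).comp ?_
    refine ENNReal.Tendsto.div_const ?_ (Or.inr (by
      rw [Ne, ENNReal.ofReal_eq_zero, not_le]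
      positivity))
    refine ((ENNReal.continuous_pow 2).tendsto _).comp ?_
    exact tendsto_const_nhds.add hεlim
  rw [add_zero, ← hN2] at hlim
  rw [← hlim.liminf_eq]
  exact liminf_le_liminf (Eventually.of_forall hbd)

/-- the full inequality -/
theorem J_full (hl : LawData G u c0) (hW : LemmaW) (hS : Star G u) {f : ℝ → ℂ}
    (hf : MemLp f 2 mc) :
    J f ≤ J (fun _ => (1 : ℂ)) * (N2 f / ENNReal.ofReal (2 * Real.pi)) ^ 3 := by
  have h1 := J_even hl hW hS (v := sharp f) (fun θ => sg12_sharp_nonneg f θ) (memLp_sharp hf)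
    (fun θ hθ => sharp_ap f hθ)
  rw [N2_sharp hf] at h1
  exact (J_le_sharp hf).trans h1

/-- the statement S04055 -/
theorem S04055_of (hl : LawData G u c0) (hW : LemmaW) (hS : Star G u) :
    ∀ f : ℝ → ℂ, MemLp f 2 (volume.restrict (Set.Ioc 0 (2 * Real.pi))) →
    (∫⁻ x : ℝ × ℝ, ‖∫ θ in Set.Ioc 0 (2 * Real.pi),
        f θ * Complex.exp (-(Complex.I * (((x.1 * Real.cos θ + x.2 * Real.sin θ : ℝ)) : ℂ)))‖ₑ ^ 6)
      ≤ (∫⁻ x : ℝ × ℝ, ‖∫ θ in Set.Ioc 0 (2 * Real.pi),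
          Complex.exp (-(Complex.I * (((x.1 * Real.cos θ + x.2 * Real.sin θ : ℝ)) : ℂ)))‖ₑ ^ 6)
        * ((∫⁻ θ in Set.Ioc 0 (2 * Real.pi), ‖f θ‖ₑ ^ 2) / ENNReal.ofReal (2 * Real.pi)) ^ 3 := by
  intro f hf
  have h := J_full hl hW hS (f := f) hf
  have e1 : J (fun _ => (1 : ℂ)) = ∫⁻ x : ℝ × ℝ, ‖∫ θ in Set.Ioc 0 (2 * Real.pi),
      Complex.exp (-(Complex.I * (((x.1 * Real.cos θ + x.2 * Real.sin θ : ℝ)) : ℂ)))‖ₑ ^ 6 := by
    unfold J
    refine lintegral_congr fun x => ?_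
    rw [ex_eq]
    simp only [one_mul]
  rw [e1] at h
  exact h

end

end Pool.Agent.Lib.MP_230119_an
end
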