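import Mathlib

section

/-!
# LEMMA W: the power sums of the ten split densities
-/

set_option autoImplicit false

namespace Pool.Agent.Lib.MP_230119_an.LW

/-- power sums of three numbers -/
theorem pow_sums {x1 x2 x3 e1 e2 e3 : ℂ} (h1 : x1 + x2 + x3 = e1)
    (h2 : x1 * x2 + x2 * x3 + x3 * x1 = e2) (h3 : x1 * x2 * x3 = e3) :
    x1 ^ 2 + x2 ^ 2 + x3 ^ 2 = e1 ^ 2 - 2 * e2 ∧
    x1 ^ 3 + x2 ^ 3 + x3 ^ 3 = e1 ^ 3 - 3 * e1 * e2 + 3 * e3 ∧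
    x1 ^ 4 + x2 ^ 4 + x3 ^ 4 = e1 ^ 4 - 4 * e1 ^ 2 * e2 + 2 * e2 ^ 2 + 4 * e1 * e3 ∧
    x1 ^ 5 + x2 ^ 5 + x3 ^ 5 = e1 ^ 5 - 5 * e1 ^ 3 * e2 + 5 * e1 * e2 ^ 2 + 5 * e1 ^ 2 * e3 -
      5 * e2 * e3 := by
  subst h1 h2 h3
  refine ⟨?_, ?_, ?_, ?_⟩ <;> ring

theorem key1 {p q x X : ℂ} (h : x * X = 1) : ((q - x) * (p - X) - 1) ^ 1 =
    (p * q) + x * (-p) + X * (-q) := by
  have hx : x ≠ 0 := left_ne_zero_of_mul_eq_one h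
  obtain rfl : X = x⁻¹ := eq_inv_of_mul_eq_one_right h
  field_simp
  ring

theorem key2 {p q x X : ℂ} (h : x * X = 1) : ((q - x) * (p - X) - 1) ^ 2 =
    (2 * p * q + p ^ 2 * q ^ 2) + x * (-2 * p ^ 2 * q) + X * (-2 * p * q ^ 2) + x ^ 2 * (p ^
      2) + X ^ 2 * (q ^ 2) := by
  have hx : x ≠ 0 := left_ne_zero_of_mul_eq_one h
  obtain rfl : X = x⁻¹ := eq_inv_of_mul_eq_one_right h
  field_simp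
  ring

theorem key3 {p q x X : ℂ} (h : x * X = 1) : ((q - x) * (p - X) - 1) ^ 3 =
    (6 * p ^ 2 * q ^ 2 + p ^ 3 * q ^ 3) + x * (-3 * p ^ 2 * q - 3 * p ^ 3 * q ^ 2) + X * (-3 *
      p * q ^ 2 - 3 * p ^ 2 * q ^ 3) + x ^ 2 * (3 * p ^ 3 * q) + X ^ 2 * (3 * p * q ^ 3) + x ^
      3 * (-p ^ 3) + X ^ 3 * (-q ^ 3) := by
  have hx : x ≠ 0 := left_ne_zero_of_mul_eq_one h
  obtain rfl : X = x⁻¹ := eq_inv_of_mul_eq_one_right h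
  field_simp
  ring

theorem key4 {p q x X : ℂ} (h : x * X = 1) : ((q - x) * (p - X) - 1) ^ 4 =
    (6 * p ^ 2 * q ^ 2 + 12 * p ^ 3 * q ^ 3 + p ^ 4 * q ^ 4) + x * (-12 * p ^ 3 * q ^ 2 - 4 *
      p ^ 4 * q ^ 3) + X * (-12 * p ^ 2 * q ^ 3 - 4 * p ^ 3 * q ^ 4) + x ^ 2 * (4 * p ^ 3 * q
      + 6 * p ^ 4 * q ^ 2) + X ^ 2 * (4 * p * q ^ 3 + 6 * p ^ 2 * q ^ 4) + x ^ 3 * (-4 * p ^ 4
      * q) + X ^ 3 * (-4 * p * q ^ 4) + x ^ 4 * (p ^ 4) + X ^ 4 * (q ^ 4) := by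
  have hx : x ≠ 0 := left_ne_zero_of_mul_eq_one h
  obtain rfl : X = x⁻¹ := eq_inv_of_mul_eq_one_right h
  field_simp
  ring

theorem key5 {p q x X : ℂ} (h : x * X = 1) : ((q - x) * (p - X) - 1) ^ 5 =
    (30 * p ^ 3 * q ^ 3 + 20 * p ^ 4 * q ^ 4 + p ^ 5 * q ^ 5) + x * (-10 * p ^ 3 * q ^ 2 - 30
      * p ^ 4 * q ^ 3 - 5 * p ^ 5 * q ^ 4) + X * (-10 * p ^ 2 * q ^ 3 - 30 * p ^ 3 * q ^ 4 - 5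
      * p ^ 4 * q ^ 5) + x ^ 2 * (20 * p ^ 4 * q ^ 2 + 10 * p ^ 5 * q ^ 3) + X ^ 2 * (20 * p ^
      2 * q ^ 4 + 10 * p ^ 3 * q ^ 5) + x ^ 3 * (-5 * p ^ 4 * q - 10 * p ^ 5 * q ^ 2) + X ^ 3
      * (-5 * p * q ^ 4 - 10 * p ^ 2 * q ^ 5) + x ^ 4 * (5 * p ^ 5 * q) + X ^ 4 * (5 * p * q ^
      5) + x ^ 5 * (-p ^ 5) + X ^ 5 * (-q ^ 5) := by
  have hx : x ≠ 0 := left_ne_zero_of_mul_eq_one h
  obtain rfl : X = x⁻¹ := eq_inv_of_mul_eq_one_right h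
  field_simp
  ring

/-- hypotheses for a triple of unit numbers -/
structure Tri (x1 x2 x3 X1 X2 X3 v V b B : ℂ) : Prop where
  h1 : x1 * X1 = 1
  h2 : x2 * X2 = 1
  h3 : x3 * X3 = 1
  hv : x1 + x2 + x3 = v
  hV : X1 + X2 + X3 = V
  hb : x1 * x2 * x3 = b
  hB : X1 * X2 * X3 = B

section
variable {x1 x2 x3 X1 X2 X3 v V b B : ℂ}

theorem Tri.bB (t : Tri x1 x2 x3 X1 X2 X3 v V b B) : b * B = 1 := by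
  rw [← t.hb, ← t.hB]
  linear_combination (x2 * X2 * (x3 * X3)) * t.h1 + (x3 * X3) * t.h2 + t.h3

theorem Tri.e2 (t : Tri x1 x2 x3 X1 X2 X3 v V b B) : x1 * x2 + x2 * x3 + x3 * x1 = V * b := by
  rw [← t.hb, ← t.hV]
  linear_combination (-(x2 * x3)) * t.h1 + (-(x1 * x3)) * t.h2 + (-(x1 * x2)) * t.h3

theorem Tri.E2 (t : Tri x1 x2 x3 X1 X2 X3 v V b B) : X1 * X2 + X2 * X3 + X3 * X1 = v * B := by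
  rw [← t.hB, ← t.hv]
  linear_combination (-(X2 * X3)) * t.h1 + (-(X1 * X3)) * t.h2 + (-(X1 * X2)) * t.h3

theorem Tri.p2 (t : Tri x1 x2 x3 X1 X2 X3 v V b B) : x1 ^ 2 + x2 ^ 2 + x3 ^ 2 =
    v ^ 2 - 2 * V * b := by
  have h := (pow_sums t.hv t.e2 t.hb)
  rw [h.1]
  ring

theorem Tri.P2 (t : Tri x1 x2 x3 X1 X2 X3 v V b B) : X1 ^ 2 + X2 ^ 2 + X3 ^ 2 =
    -2 * v * B + V ^ 2 := by
  have h := (pow_sums t.hV t.E2 t.hB)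
  rw [h.1]
  ring

theorem Tri.p3 (t : Tri x1 x2 x3 X1 X2 X3 v V b B) : x1 ^ 3 + x2 ^ 3 + x3 ^ 3 =
    v ^ 3 - 3 * v * V * b + 3 * b := by
  have h := (pow_sums t.hv t.e2 t.hb)
  rw [h.2.1]
  ring

theorem Tri.P3 (t : Tri x1 x2 x3 X1 X2 X3 v V b B) : X1 ^ 3 + X2 ^ 3 + X3 ^ 3 =
    -3 * v * V * B + V ^ 3 + 3 * B := by
  have h := (pow_sums t.hV t.E2 t.hB)
  rw [h.2.1]
  ring

theorem Tri.p4 (t : Tri x1 x2 x3 X1 X2 X3 v V b B) : x1 ^ 4 + x2 ^ 4 + x3 ^ 4 =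
    v ^ 4 - 4 * v ^ 2 * V * b + 4 * v * b + 2 * V ^ 2 * b ^ 2 := by
  have h := (pow_sums t.hv t.e2 t.hb)
  rw [h.2.2.1]
  ring

theorem Tri.P4 (t : Tri x1 x2 x3 X1 X2 X3 v V b B) : X1 ^ 4 + X2 ^ 4 + X3 ^ 4 =
    2 * v ^ 2 * B ^ 2 - 4 * v * V ^ 2 * B + V ^ 4 + 4 * V * B := by
  have h := (pow_sums t.hV t.E2 t.hB)
  rw [h.2.2.1]
  ring

theorem Tri.p5 (t : Tri x1 x2 x3 X1 X2 X3 v V b B) : x1 ^ 5 + x2 ^ 5 + x3 ^ 5 =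
    v ^ 5 - 5 * v ^ 3 * V * b + 5 * v ^ 2 * b + 5 * v * V ^ 2 * b ^ 2 - 5 * V * b ^ 2 := by
  have h := (pow_sums t.hv t.e2 t.hb)
  rw [h.2.2.2]
  ring

theorem Tri.P5 (t : Tri x1 x2 x3 X1 X2 X3 v V b B) : X1 ^ 5 + X2 ^ 5 + X3 ^ 5 =
    5 * v ^ 2 * V * B ^ 2 - 5 * v * V ^ 3 * B - 5 * v * B ^ 2 + V ^ 5 + 5 * V ^ 2 * B := by
  have h := (pow_sums t.hV t.E2 t.hB)
  rw [h.2.2.2]
  ring

theorem Tri.F1 (t : Tri x1 x2 x3 X1 X2 X3 v V b B) (p q : ℂ) :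
    ((q - x1) * (p - X1) - 1) ^ 1 + ((q - x2) * (p - X2) - 1) ^ 1 +
      ((q - x3) * (p - X3) - 1) ^ 1 =
    3 * (p * q) + v * (-p) + V * (-q) := by
  have k1 := key1 (p := p) (q := q) t.h1
  have k2 := key1 (p := p) (q := q) t.h2
  have k3 := key1 (p := p) (q := q) t.h3
  obtain ⟨a1, ha1⟩ : ∃ a, a = ((q - x1) * (p - X1) - 1) ^ 1 := ⟨_, rfl⟩
  obtain ⟨a2, ha2⟩ : ∃ a, a = ((q - x2) * (p - X2) - 1) ^ 1 := ⟨_, rfl⟩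
  obtain ⟨a3, ha3⟩ : ∃ a, a = ((q - x3) * (p - X3) - 1) ^ 1 := ⟨_, rfl⟩
  rw [← ha1, ← ha2, ← ha3]
  rw [← ha1] at k1
  rw [← ha2] at k2
  rw [← ha3] at k3
  linear_combination k1 + k2 + k3 + (-p) * t.hv + (-q) * t.hV

theorem Tri.F2 (t : Tri x1 x2 x3 X1 X2 X3 v V b B) (p q : ℂ) :
    ((q - x1) * (p - X1) - 1) ^ 2 + ((q - x2) * (p - X2) - 1) ^ 2 +
      ((q - x3) * (p - X3) - 1) ^ 2 =
    3 * (2 * p * q + p ^ 2 * q ^ 2) + v * (-2 * p ^ 2 * q) + V * (-2 * p * q ^ 2) + (v ^ 2 - 2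
      * V * b) * (p ^ 2) + (-2 * v * B + V ^ 2) * (q ^ 2) := by
  have k1 := key2 (p := p) (q := q) t.h1
  have k2 := key2 (p := p) (q := q) t.h2
  have k3 := key2 (p := p) (q := q) t.h3
  obtain ⟨a1, ha1⟩ : ∃ a, a = ((q - x1) * (p - X1) - 1) ^ 2 := ⟨_, rfl⟩
  obtain ⟨a2, ha2⟩ : ∃ a, a = ((q - x2) * (p - X2) - 1) ^ 2 := ⟨_, rfl⟩
  obtain ⟨a3, ha3⟩ : ∃ a, a = ((q - x3) * (p - X3) - 1) ^ 2 := ⟨_, rfl⟩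
  rw [← ha1, ← ha2, ← ha3]
  rw [← ha1] at k1
  rw [← ha2] at k2
  rw [← ha3] at k3
  linear_combination k1 + k2 + k3 + (-2 * p ^ 2 * q) * t.hv + (-2 * p * q ^ 2) * t.hV + (p ^ 2) * t.p2 + (q ^ 2) * t.P2

theorem Tri.F3 (t : Tri x1 x2 x3 X1 X2 X3 v V b B) (p q : ℂ) :
    ((q - x1) * (p - X1) - 1) ^ 3 + ((q - x2) * (p - X2) - 1) ^ 3 +
      ((q - x3) * (p - X3) - 1) ^ 3 =
    3 * (6 * p ^ 2 * q ^ 2 + p ^ 3 * q ^ 3) + v * (-3 * p ^ 2 * q - 3 * p ^ 3 * q ^ 2) + V *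
      (-3 * p * q ^ 2 - 3 * p ^ 2 * q ^ 3) + (v ^ 2 - 2 * V * b) * (3 * p ^ 3 * q) + (-2 * v *
      B + V ^ 2) * (3 * p * q ^ 3) + (v ^ 3 - 3 * v * V * b + 3 * b) * (-p ^ 3) + (-3 * v * V
      * B + V ^ 3 + 3 * B) * (-q ^ 3) := by
  have k1 := key3 (p := p) (q := q) t.h1
  have k2 := key3 (p := p) (q := q) t.h2
  have k3 := key3 (p := p) (q := q) t.h3
  obtain ⟨a1, ha1⟩ : ∃ a, a = ((q - x1) * (p - X1) - 1) ^ 3 := ⟨_, rfl⟩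
  obtain ⟨a2, ha2⟩ : ∃ a, a = ((q - x2) * (p - X2) - 1) ^ 3 := ⟨_, rfl⟩
  obtain ⟨a3, ha3⟩ : ∃ a, a = ((q - x3) * (p - X3) - 1) ^ 3 := ⟨_, rfl⟩
  rw [← ha1, ← ha2, ← ha3]
  rw [← ha1] at k1
  rw [← ha2] at k2
  rw [← ha3] at k3
  linear_combination k1 + k2 + k3 + (-3 * p ^ 2 * q - 3 * p ^ 3 * q ^ 2) * t.hv + (-3 * p * q ^ 2 - 3 * p ^ 2 * q ^ 3) * t.hV + (3 * p ^ 3 * q) * t.p2 + (3 * p * q ^ 3) * t.P2 + (-p ^ 3) * t.p3 + (-q ^ 3) * t.P3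

theorem Tri.F4 (t : Tri x1 x2 x3 X1 X2 X3 v V b B) (p q : ℂ) :
    ((q - x1) * (p - X1) - 1) ^ 4 + ((q - x2) * (p - X2) - 1) ^ 4 +
      ((q - x3) * (p - X3) - 1) ^ 4 =
    3 * (6 * p ^ 2 * q ^ 2 + 12 * p ^ 3 * q ^ 3 + p ^ 4 * q ^ 4) + v * (-12 * p ^ 3 * q ^ 2 -
      4 * p ^ 4 * q ^ 3) + V * (-12 * p ^ 2 * q ^ 3 - 4 * p ^ 3 * q ^ 4) + (v ^ 2 - 2 * V * b)
      * (4 * p ^ 3 * q + 6 * p ^ 4 * q ^ 2) + (-2 * v * B + V ^ 2) * (4 * p * q ^ 3 + 6 * p ^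
      2 * q ^ 4) + (v ^ 3 - 3 * v * V * b + 3 * b) * (-4 * p ^ 4 * q) + (-3 * v * V * B + V ^
      3 + 3 * B) * (-4 * p * q ^ 4) + (v ^ 4 - 4 * v ^ 2 * V * b + 4 * v * b + 2 * V ^ 2 * b ^
      2) * (p ^ 4) + (2 * v ^ 2 * B ^ 2 - 4 * v * V ^ 2 * B + V ^ 4 + 4 * V * B) * (q ^ 4) := by
  have k1 := key4 (p := p) (q := q) t.h1
  have k2 := key4 (p := p) (q := q) t.h2
  have k3 := key4 (p := p) (q := q) t.h3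
  obtain ⟨a1, ha1⟩ : ∃ a, a = ((q - x1) * (p - X1) - 1) ^ 4 := ⟨_, rfl⟩
  obtain ⟨a2, ha2⟩ : ∃ a, a = ((q - x2) * (p - X2) - 1) ^ 4 := ⟨_, rfl⟩
  obtain ⟨a3, ha3⟩ : ∃ a, a = ((q - x3) * (p - X3) - 1) ^ 4 := ⟨_, rfl⟩
  rw [← ha1, ← ha2, ← ha3]
  rw [← ha1] at k1
  rw [← ha2] at k2
  rw [← ha3] at k3
  linear_combination k1 + k2 + k3 + (-12 * p ^ 3 * q ^ 2 - 4 * p ^ 4 * q ^ 3) * t.hv + (-12 * p ^ 2 * q ^ 3 - 4 * p ^ 3 * q ^ 4) * t.hV + (4 * p ^ 3 * q + 6 * p ^ 4 * q ^ 2) * t.p2 + (4 * p * q ^ 3 + 6 * p ^ 2 * q ^ 4) * t.P2 + (-4 * p ^ 4 * q) * t.p3 + (-4 * p * q ^ 4) * t.P3 + (p ^ 4) * t.p4 + (q ^ 4) * t.P4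

theorem Tri.F5 (t : Tri x1 x2 x3 X1 X2 X3 v V b B) (p q : ℂ) :
    ((q - x1) * (p - X1) - 1) ^ 5 + ((q - x2) * (p - X2) - 1) ^ 5 +
      ((q - x3) * (p - X3) - 1) ^ 5 =
    3 * (30 * p ^ 3 * q ^ 3 + 20 * p ^ 4 * q ^ 4 + p ^ 5 * q ^ 5) + v * (-10 * p ^ 3 * q ^ 2 -
      30 * p ^ 4 * q ^ 3 - 5 * p ^ 5 * q ^ 4) + V * (-10 * p ^ 2 * q ^ 3 - 30 * p ^ 3 * q ^ 4
      - 5 * p ^ 4 * q ^ 5) + (v ^ 2 - 2 * V * b) * (20 * p ^ 4 * q ^ 2 + 10 * p ^ 5 * q ^ 3) +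
      (-2 * v * B + V ^ 2) * (20 * p ^ 2 * q ^ 4 + 10 * p ^ 3 * q ^ 5) + (v ^ 3 - 3 * v * V *
      b + 3 * b) * (-5 * p ^ 4 * q - 10 * p ^ 5 * q ^ 2) + (-3 * v * V * B + V ^ 3 + 3 * B) *
      (-5 * p * q ^ 4 - 10 * p ^ 2 * q ^ 5) + (v ^ 4 - 4 * v ^ 2 * V * b + 4 * v * b + 2 * V ^
      2 * b ^ 2) * (5 * p ^ 5 * q) + (2 * v ^ 2 * B ^ 2 - 4 * v * V ^ 2 * B + V ^ 4 + 4 * V *
      B) * (5 * p * q ^ 5) + (v ^ 5 - 5 * v ^ 3 * V * b + 5 * v ^ 2 * b + 5 * v * V ^ 2 * b ^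
      2 - 5 * V * b ^ 2) * (-p ^ 5) + (5 * v ^ 2 * V * B ^ 2 - 5 * v * V ^ 3 * B - 5 * v * B ^
      2 + V ^ 5 + 5 * V ^ 2 * B) * (-q ^ 5) := by
  have k1 := key5 (p := p) (q := q) t.h1
  have k2 := key5 (p := p) (q := q) t.h2
  have k3 := key5 (p := p) (q := q) t.h3
  obtain ⟨a1, ha1⟩ : ∃ a, a = ((q - x1) * (p - X1) - 1) ^ 5 := ⟨_, rfl⟩
  obtain ⟨a2, ha2⟩ : ∃ a, a = ((q - x2) * (p - X2) - 1) ^ 5 := ⟨_, rfl⟩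
  obtain ⟨a3, ha3⟩ : ∃ a, a = ((q - x3) * (p - X3) - 1) ^ 5 := ⟨_, rfl⟩
  rw [← ha1, ← ha2, ← ha3]
  rw [← ha1] at k1
  rw [← ha2] at k2
  rw [← ha3] at k3
  linear_combination k1 + k2 + k3 + (-10 * p ^ 3 * q ^ 2 - 30 * p ^ 4 * q ^ 3 - 5 * p ^ 5 * q ^ 4) * t.hv + (-10 * p ^ 2 * q ^ 3 - 30 * p ^ 3 * q ^ 4 - 5 * p ^ 4 * q ^ 5) * t.hV + (20 * p ^ 4 * q ^ 2 + 10 * p ^ 5 * q ^ 3) * t.p2 + (20 * p ^ 2 * q ^ 4 + 10 * p ^ 3 * q ^ 5) * t.P2 + (-5 * p ^ 4 * q - 10 * p ^ 5 * q ^ 2) * t.p3 + (-5 * p * q ^ 4 - 10 * p ^ 2 * q ^ 5) * t.P3 + (5 * p ^ 5 * q) * t.p4 + (5 * p * q ^ 5) * t.P4 + (-p ^ 5) * t.p5 + (-q ^ 5) * t.P5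

end

section
variable {y1 y2 y3 Y1 Y2 Y3 v V c C : ℂ}

theorem M00 (t : Tri y1 y2 y3 Y1 Y2 Y3 (-v) (-V) c C) :
    1 + 1 + 1 =
    3 := by
  norm_num

theorem M01 (t : Tri y1 y2 y3 Y1 Y2 Y3 (-v) (-V) c C) :
    (v + y1) + (v + y2) + (v + y3) =
    2 * v := by
  have g1 : (v + y1) + (v + y2) + (v + y3) = 2 * v := by linear_combination t.hv
  have g2 : (v + y1) * (v + y2) + (v + y2) * (v + y3) + (v + y3) * (v + y1) = v ^ 2 - V * c := by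
    linear_combination t.e2 + 2 * v * t.hv
  have g3 : (v + y1) * (v + y2) * (v + y3) = c - v * V * c := by
    linear_combination t.hb + v * t.e2 + v ^ 2 * t.hv
  linear_combination g1

theorem M10 (t : Tri y1 y2 y3 Y1 Y2 Y3 (-v) (-V) c C) :
    (V + Y1) + (V + Y2) + (V + Y3) =
    2 * V := by
  have g1 : (V + Y1) + (V + Y2) + (V + Y3) = 2 * V := by linear_combination t.hV
  have g2 : (V + Y1) * (V + Y2) + (V + Y2) * (V + Y3) + (V + Y3) * (V + Y1) = V ^ 2 - v * C := by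
    linear_combination t.E2 + 2 * V * t.hV
  have g3 : (V + Y1) * (V + Y2) * (V + Y3) = C - v * V * C := by
    linear_combination t.hB + V * t.E2 + V ^ 2 * t.hV
  linear_combination g1

theorem M02 (t : Tri y1 y2 y3 Y1 Y2 Y3 (-v) (-V) c C) :
    (v + y1) ^ 2 + (v + y2) ^ 2 + (v + y3) ^ 2 =
    2 * v ^ 2 + 2 * V * c := by
  have g1 : (v + y1) + (v + y2) + (v + y3) = 2 * v := by linear_combination t.hv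
  have g2 : (v + y1) * (v + y2) + (v + y2) * (v + y3) + (v + y3) * (v + y1) = v ^ 2 - V * c := by
    linear_combination t.e2 + 2 * v * t.hv
  have g3 : (v + y1) * (v + y2) * (v + y3) = c - v * V * c := by
    linear_combination t.hb + v * t.e2 + v ^ 2 * t.hv
  have h := pow_sums g1 g2 g3
  rw [h.1]
  ring

theorem M11 (t : Tri y1 y2 y3 Y1 Y2 Y3 (-v) (-V) c C) :
    (V + Y1) * (v + y1) + (V + Y2) * (v + y2) + (V + Y3) * (v + y3) =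
    v * V + 3 := by
  have r : ∀ Y y : ℂ, y * Y = 1 → (V + Y) * (v + y) =
      (1 - v * V) + v * (V + Y) + V * (v + y) := fun Y y h => by linear_combination h
  have r1 := r Y1 y1 t.h1
  have r2 := r Y2 y2 t.h2
  have r3 := r Y3 y3 t.h3
  obtain ⟨W1, hW1⟩ : ∃ a, a = V + Y1 := ⟨_, rfl⟩
  obtain ⟨W2, hW2⟩ : ∃ a, a = V + Y2 := ⟨_, rfl⟩
  obtain ⟨W3, hW3⟩ : ∃ a, a = V + Y3 := ⟨_, rfl⟩
  obtain ⟨w1, hw1⟩ : ∃ a, a = v + y1 := ⟨_, rfl⟩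
  obtain ⟨w2, hw2⟩ : ∃ a, a = v + y2 := ⟨_, rfl⟩
  obtain ⟨w3, hw3⟩ : ∃ a, a = v + y3 := ⟨_, rfl⟩
  have m1 := M00 t
  have m2 := M10 t
  have m3 := M01 t
  rw [← hW1, ← hW2, ← hW3, ← hw1, ← hw2, ← hw3]
  rw [← hW1, ← hw1] at r1
  rw [← hW2, ← hw2] at r2
  rw [← hW3, ← hw3] at r3
  simp only [← hW1, ← hW2, ← hW3, ← hw1, ← hw2, ← hw3] at m1 m2 m3
  linear_combination (1 - v * V) * m1 + v * m2 + V * m3 + (1) * r1 +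
    (1) * r2 + (1) * r3

theorem M20 (t : Tri y1 y2 y3 Y1 Y2 Y3 (-v) (-V) c C) :
    (V + Y1) ^ 2 + (V + Y2) ^ 2 + (V + Y3) ^ 2 =
    2 * v * C + 2 * V ^ 2 := by
  have g1 : (V + Y1) + (V + Y2) + (V + Y3) = 2 * V := by linear_combination t.hV
  have g2 : (V + Y1) * (V + Y2) + (V + Y2) * (V + Y3) + (V + Y3) * (V + Y1) = V ^ 2 - v * C := by
    linear_combination t.E2 + 2 * V * t.hV
  have g3 : (V + Y1) * (V + Y2) * (V + Y3) = C - v * V * C := by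
    linear_combination t.hB + V * t.E2 + V ^ 2 * t.hV
  have h := pow_sums g1 g2 g3
  rw [h.1]
  ring

theorem M03 (t : Tri y1 y2 y3 Y1 Y2 Y3 (-v) (-V) c C) :
    (v + y1) ^ 3 + (v + y2) ^ 3 + (v + y3) ^ 3 =
    2 * v ^ 3 + 3 * v * V * c + 3 * c := by
  have g1 : (v + y1) + (v + y2) + (v + y3) = 2 * v := by linear_combination t.hv
  have g2 : (v + y1) * (v + y2) + (v + y2) * (v + y3) + (v + y3) * (v + y1) = v ^ 2 - V * c := by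
    linear_combination t.e2 + 2 * v * t.hv
  have g3 : (v + y1) * (v + y2) * (v + y3) = c - v * V * c := by
    linear_combination t.hb + v * t.e2 + v ^ 2 * t.hv
  have h := pow_sums g1 g2 g3
  rw [h.2.1]
  ring

theorem M12 (t : Tri y1 y2 y3 Y1 Y2 Y3 (-v) (-V) c C) :
    (V + Y1) * (v + y1) ^ 2 + (V + Y2) * (v + y2) ^ 2 + (V + Y3) * (v + y3) ^ 2 =
    v ^ 2 * V + 5 * v + 2 * V ^ 2 * c := by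
  have r : ∀ Y y : ℂ, y * Y = 1 → (V + Y) * (v + y) =
      (1 - v * V) + v * (V + Y) + V * (v + y) := fun Y y h => by linear_combination h
  have r1 := r Y1 y1 t.h1
  have r2 := r Y2 y2 t.h2
  have r3 := r Y3 y3 t.h3
  obtain ⟨W1, hW1⟩ : ∃ a, a = V + Y1 := ⟨_, rfl⟩
  obtain ⟨W2, hW2⟩ : ∃ a, a = V + Y2 := ⟨_, rfl⟩
  obtain ⟨W3, hW3⟩ : ∃ a, a = V + Y3 := ⟨_, rfl⟩
  obtain ⟨w1, hw1⟩ : ∃ a, a = v + y1 := ⟨_, rfl⟩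
  obtain ⟨w2, hw2⟩ : ∃ a, a = v + y2 := ⟨_, rfl⟩
  obtain ⟨w3, hw3⟩ : ∃ a, a = v + y3 := ⟨_, rfl⟩
  have m1 := M01 t
  have m2 := M11 t
  have m3 := M02 t
  rw [← hW1, ← hW2, ← hW3, ← hw1, ← hw2, ← hw3]
  rw [← hW1, ← hw1] at r1
  rw [← hW2, ← hw2] at r2
  rw [← hW3, ← hw3] at r3
  simp only [← hW1, ← hW2, ← hW3, ← hw1, ← hw2, ← hw3] at m1 m2 m3
  linear_combination (1 - v * V) * m1 + v * m2 + V * m3 + (w1) * r1 +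
    (w2) * r2 + (w3) * r3

theorem M21 (t : Tri y1 y2 y3 Y1 Y2 Y3 (-v) (-V) c C) :
    (V + Y1) ^ 2 * (v + y1) + (V + Y2) ^ 2 * (v + y2) + (V + Y3) ^ 2 * (v + y3) =
    2 * v ^ 2 * C + v * V ^ 2 + 5 * V := by
  have r : ∀ Y y : ℂ, y * Y = 1 → (V + Y) * (v + y) =
      (1 - v * V) + v * (V + Y) + V * (v + y) := fun Y y h => by linear_combination h
  have r1 := r Y1 y1 t.h1
  have r2 := r Y2 y2 t.h2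
  have r3 := r Y3 y3 t.h3
  obtain ⟨W1, hW1⟩ : ∃ a, a = V + Y1 := ⟨_, rfl⟩
  obtain ⟨W2, hW2⟩ : ∃ a, a = V + Y2 := ⟨_, rfl⟩
  obtain ⟨W3, hW3⟩ : ∃ a, a = V + Y3 := ⟨_, rfl⟩
  obtain ⟨w1, hw1⟩ : ∃ a, a = v + y1 := ⟨_, rfl⟩
  obtain ⟨w2, hw2⟩ : ∃ a, a = v + y2 := ⟨_, rfl⟩
  obtain ⟨w3, hw3⟩ : ∃ a, a = v + y3 := ⟨_, rfl⟩
  have m1 := M10 t
  have m2 := M20 t
  have m3 := M11 t
  rw [← hW1, ← hW2, ← hW3, ← hw1, ← hw2, ← hw3]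
  rw [← hW1, ← hw1] at r1
  rw [← hW2, ← hw2] at r2
  rw [← hW3, ← hw3] at r3
  simp only [← hW1, ← hW2, ← hW3, ← hw1, ← hw2, ← hw3] at m1 m2 m3
  linear_combination (1 - v * V) * m1 + v * m2 + V * m3 + (W1) * r1 +
    (W2) * r2 + (W3) * r3

theorem M30 (t : Tri y1 y2 y3 Y1 Y2 Y3 (-v) (-V) c C) :
    (V + Y1) ^ 3 + (V + Y2) ^ 3 + (V + Y3) ^ 3 =
    3 * v * V * C + 2 * V ^ 3 + 3 * C := by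
  have g1 : (V + Y1) + (V + Y2) + (V + Y3) = 2 * V := by linear_combination t.hV
  have g2 : (V + Y1) * (V + Y2) + (V + Y2) * (V + Y3) + (V + Y3) * (V + Y1) = V ^ 2 - v * C := by
    linear_combination t.E2 + 2 * V * t.hV
  have g3 : (V + Y1) * (V + Y2) * (V + Y3) = C - v * V * C := by
    linear_combination t.hB + V * t.E2 + V ^ 2 * t.hV
  have h := pow_sums g1 g2 g3
  rw [h.2.1]
  ring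

theorem M04 (t : Tri y1 y2 y3 Y1 Y2 Y3 (-v) (-V) c C) :
    (v + y1) ^ 4 + (v + y2) ^ 4 + (v + y3) ^ 4 =
    2 * v ^ 4 + 4 * v ^ 2 * V * c + 8 * v * c + 2 * V ^ 2 * c ^ 2 := by
  have g1 : (v + y1) + (v + y2) + (v + y3) = 2 * v := by linear_combination t.hv
  have g2 : (v + y1) * (v + y2) + (v + y2) * (v + y3) + (v + y3) * (v + y1) = v ^ 2 - V * c := by
    linear_combination t.e2 + 2 * v * t.hv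
  have g3 : (v + y1) * (v + y2) * (v + y3) = c - v * V * c := by
    linear_combination t.hb + v * t.e2 + v ^ 2 * t.hv
  have h := pow_sums g1 g2 g3
  rw [h.2.2.1]
  ring

theorem M13 (t : Tri y1 y2 y3 Y1 Y2 Y3 (-v) (-V) c C) :
    (V + Y1) * (v + y1) ^ 3 + (V + Y2) * (v + y2) ^ 3 + (V + Y3) * (v + y3) ^ 3 =
    v ^ 3 * V + 7 * v ^ 2 + 3 * v * V ^ 2 * c + 5 * V * c := by
  have r : ∀ Y y : ℂ, y * Y = 1 → (V + Y) * (v + y) =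
      (1 - v * V) + v * (V + Y) + V * (v + y) := fun Y y h => by linear_combination h
  have r1 := r Y1 y1 t.h1
  have r2 := r Y2 y2 t.h2
  have r3 := r Y3 y3 t.h3
  obtain ⟨W1, hW1⟩ : ∃ a, a = V + Y1 := ⟨_, rfl⟩
  obtain ⟨W2, hW2⟩ : ∃ a, a = V + Y2 := ⟨_, rfl⟩
  obtain ⟨W3, hW3⟩ : ∃ a, a = V + Y3 := ⟨_, rfl⟩
  obtain ⟨w1, hw1⟩ : ∃ a, a = v + y1 := ⟨_, rfl⟩
  obtain ⟨w2, hw2⟩ : ∃ a, a = v + y2 := ⟨_, rfl⟩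
  obtain ⟨w3, hw3⟩ : ∃ a, a = v + y3 := ⟨_, rfl⟩
  have m1 := M02 t
  have m2 := M12 t
  have m3 := M03 t
  rw [← hW1, ← hW2, ← hW3, ← hw1, ← hw2, ← hw3]
  rw [← hW1, ← hw1] at r1
  rw [← hW2, ← hw2] at r2
  rw [← hW3, ← hw3] at r3
  simp only [← hW1, ← hW2, ← hW3, ← hw1, ← hw2, ← hw3] at m1 m2 m3
  linear_combination (1 - v * V) * m1 + v * m2 + V * m3 + (w1 ^ 2) * r1 +
    (w2 ^ 2) * r2 + (w3 ^ 2) * r3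

theorem M22 (t : Tri y1 y2 y3 Y1 Y2 Y3 (-v) (-V) c C) :
    (V + Y1) ^ 2 * (v + y1) ^ 2 + (V + Y2) ^ 2 * (v + y2) ^ 2 + (V + Y3) ^ 2 * (v + y3) ^ 2 =
    2 * v ^ 3 * C + v ^ 2 * V ^ 2 + 8 * v * V + 2 * V ^ 3 * c + 3 := by
  have r : ∀ Y y : ℂ, y * Y = 1 → (V + Y) * (v + y) =
      (1 - v * V) + v * (V + Y) + V * (v + y) := fun Y y h => by linear_combination h
  have r1 := r Y1 y1 t.h1
  have r2 := r Y2 y2 t.h2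
  have r3 := r Y3 y3 t.h3
  obtain ⟨W1, hW1⟩ : ∃ a, a = V + Y1 := ⟨_, rfl⟩
  obtain ⟨W2, hW2⟩ : ∃ a, a = V + Y2 := ⟨_, rfl⟩
  obtain ⟨W3, hW3⟩ : ∃ a, a = V + Y3 := ⟨_, rfl⟩
  obtain ⟨w1, hw1⟩ : ∃ a, a = v + y1 := ⟨_, rfl⟩
  obtain ⟨w2, hw2⟩ : ∃ a, a = v + y2 := ⟨_, rfl⟩
  obtain ⟨w3, hw3⟩ : ∃ a, a = v + y3 := ⟨_, rfl⟩
  have m1 := M11 t
  have m2 := M21 t
  have m3 := M12 t
  rw [← hW1, ← hW2, ← hW3, ← hw1, ← hw2, ← hw3]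
  rw [← hW1, ← hw1] at r1
  rw [← hW2, ← hw2] at r2
  rw [← hW3, ← hw3] at r3
  simp only [← hW1, ← hW2, ← hW3, ← hw1, ← hw2, ← hw3] at m1 m2 m3
  linear_combination (1 - v * V) * m1 + v * m2 + V * m3 + (W1 * w1) * r1 +
    (W2 * w2) * r2 + (W3 * w3) * r3

theorem M31 (t : Tri y1 y2 y3 Y1 Y2 Y3 (-v) (-V) c C) :
    (V + Y1) ^ 3 * (v + y1) + (V + Y2) ^ 3 * (v + y2) + (V + Y3) ^ 3 * (v + y3) =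
    3 * v ^ 2 * V * C + v * V ^ 3 + 5 * v * C + 7 * V ^ 2 := by
  have r : ∀ Y y : ℂ, y * Y = 1 → (V + Y) * (v + y) =
      (1 - v * V) + v * (V + Y) + V * (v + y) := fun Y y h => by linear_combination h
  have r1 := r Y1 y1 t.h1
  have r2 := r Y2 y2 t.h2
  have r3 := r Y3 y3 t.h3
  obtain ⟨W1, hW1⟩ : ∃ a, a = V + Y1 := ⟨_, rfl⟩
  obtain ⟨W2, hW2⟩ : ∃ a, a = V + Y2 := ⟨_, rfl⟩
  obtain ⟨W3, hW3⟩ : ∃ a, a = V + Y3 := ⟨_, rfl⟩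
  obtain ⟨w1, hw1⟩ : ∃ a, a = v + y1 := ⟨_, rfl⟩
  obtain ⟨w2, hw2⟩ : ∃ a, a = v + y2 := ⟨_, rfl⟩
  obtain ⟨w3, hw3⟩ : ∃ a, a = v + y3 := ⟨_, rfl⟩
  have m1 := M20 t
  have m2 := M30 t
  have m3 := M21 t
  rw [← hW1, ← hW2, ← hW3, ← hw1, ← hw2, ← hw3]
  rw [← hW1, ← hw1] at r1
  rw [← hW2, ← hw2] at r2
  rw [← hW3, ← hw3] at r3
  simp only [← hW1, ← hW2, ← hW3, ← hw1, ← hw2, ← hw3] at m1 m2 m3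
  linear_combination (1 - v * V) * m1 + v * m2 + V * m3 + (W1 ^ 2) * r1 +
    (W2 ^ 2) * r2 + (W3 ^ 2) * r3

theorem M40 (t : Tri y1 y2 y3 Y1 Y2 Y3 (-v) (-V) c C) :
    (V + Y1) ^ 4 + (V + Y2) ^ 4 + (V + Y3) ^ 4 =
    2 * v ^ 2 * C ^ 2 + 4 * v * V ^ 2 * C + 2 * V ^ 4 + 8 * V * C := by
  have g1 : (V + Y1) + (V + Y2) + (V + Y3) = 2 * V := by linear_combination t.hV
  have g2 : (V + Y1) * (V + Y2) + (V + Y2) * (V + Y3) + (V + Y3) * (V + Y1) = V ^ 2 - v * C := by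
    linear_combination t.E2 + 2 * V * t.hV
  have g3 : (V + Y1) * (V + Y2) * (V + Y3) = C - v * V * C := by
    linear_combination t.hB + V * t.E2 + V ^ 2 * t.hV
  have h := pow_sums g1 g2 g3
  rw [h.2.2.1]
  ring

theorem M05 (t : Tri y1 y2 y3 Y1 Y2 Y3 (-v) (-V) c C) :
    (v + y1) ^ 5 + (v + y2) ^ 5 + (v + y3) ^ 5 =
    2 * v ^ 5 + 5 * v ^ 3 * V * c + 15 * v ^ 2 * c + 5 * v * V ^ 2 * c ^ 2 + 5 * V * c ^ 2 := by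
  have g1 : (v + y1) + (v + y2) + (v + y3) = 2 * v := by linear_combination t.hv
  have g2 : (v + y1) * (v + y2) + (v + y2) * (v + y3) + (v + y3) * (v + y1) = v ^ 2 - V * c := by
    linear_combination t.e2 + 2 * v * t.hv
  have g3 : (v + y1) * (v + y2) * (v + y3) = c - v * V * c := by
    linear_combination t.hb + v * t.e2 + v ^ 2 * t.hv
  have h := pow_sums g1 g2 g3
  rw [h.2.2.2]
  ring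

theorem M14 (t : Tri y1 y2 y3 Y1 Y2 Y3 (-v) (-V) c C) :
    (V + Y1) * (v + y1) ^ 4 + (V + Y2) * (v + y2) ^ 4 + (V + Y3) * (v + y3) ^ 4 =
    v ^ 4 * V + 9 * v ^ 3 + 4 * v ^ 2 * V ^ 2 * c + 13 * v * V * c + 2 * V ^ 3 * c ^ 2 + 3 * c := by
  have r : ∀ Y y : ℂ, y * Y = 1 → (V + Y) * (v + y) =
      (1 - v * V) + v * (V + Y) + V * (v + y) := fun Y y h => by linear_combination h
  have r1 := r Y1 y1 t.h1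
  have r2 := r Y2 y2 t.h2
  have r3 := r Y3 y3 t.h3
  obtain ⟨W1, hW1⟩ : ∃ a, a = V + Y1 := ⟨_, rfl⟩
  obtain ⟨W2, hW2⟩ : ∃ a, a = V + Y2 := ⟨_, rfl⟩
  obtain ⟨W3, hW3⟩ : ∃ a, a = V + Y3 := ⟨_, rfl⟩
  obtain ⟨w1, hw1⟩ : ∃ a, a = v + y1 := ⟨_, rfl⟩
  obtain ⟨w2, hw2⟩ : ∃ a, a = v + y2 := ⟨_, rfl⟩
  obtain ⟨w3, hw3⟩ : ∃ a, a = v + y3 := ⟨_, rfl⟩
  have m1 := M03 t
  have m2 := M13 t
  have m3 := M04 t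
  rw [← hW1, ← hW2, ← hW3, ← hw1, ← hw2, ← hw3]
  rw [← hW1, ← hw1] at r1
  rw [← hW2, ← hw2] at r2
  rw [← hW3, ← hw3] at r3
  simp only [← hW1, ← hW2, ← hW3, ← hw1, ← hw2, ← hw3] at m1 m2 m3
  linear_combination (1 - v * V) * m1 + v * m2 + V * m3 + (w1 ^ 3) * r1 +
    (w2 ^ 3) * r2 + (w3 ^ 3) * r3

theorem M23 (t : Tri y1 y2 y3 Y1 Y2 Y3 (-v) (-V) c C) :
    (V + Y1) ^ 2 * (v + y1) ^ 3 + (V + Y2) ^ 2 * (v + y2) ^ 3 + (V + Y3) ^ 2 * (v + y3) ^ 3 =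
    2 * v ^ 4 * C + v ^ 3 * V ^ 2 + 11 * v ^ 2 * V + 3 * v * V ^ 3 * c + 8 * v + 7 * V ^ 2 * c := by
  have r : ∀ Y y : ℂ, y * Y = 1 → (V + Y) * (v + y) =
      (1 - v * V) + v * (V + Y) + V * (v + y) := fun Y y h => by linear_combination h
  have r1 := r Y1 y1 t.h1
  have r2 := r Y2 y2 t.h2
  have r3 := r Y3 y3 t.h3
  obtain ⟨W1, hW1⟩ : ∃ a, a = V + Y1 := ⟨_, rfl⟩
  obtain ⟨W2, hW2⟩ : ∃ a, a = V + Y2 := ⟨_, rfl⟩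
  obtain ⟨W3, hW3⟩ : ∃ a, a = V + Y3 := ⟨_, rfl⟩
  obtain ⟨w1, hw1⟩ : ∃ a, a = v + y1 := ⟨_, rfl⟩
  obtain ⟨w2, hw2⟩ : ∃ a, a = v + y2 := ⟨_, rfl⟩
  obtain ⟨w3, hw3⟩ : ∃ a, a = v + y3 := ⟨_, rfl⟩
  have m1 := M12 t
  have m2 := M22 t
  have m3 := M13 t
  rw [← hW1, ← hW2, ← hW3, ← hw1, ← hw2, ← hw3]
  rw [← hW1, ← hw1] at r1
  rw [← hW2, ← hw2] at r2
  rw [← hW3, ← hw3] at r3
  simp only [← hW1, ← hW2, ← hW3, ← hw1, ← hw2, ← hw3] at m1 m2 m3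
  linear_combination (1 - v * V) * m1 + v * m2 + V * m3 + (W1 * w1 ^ 2) * r1 +
    (W2 * w2 ^ 2) * r2 + (W3 * w3 ^ 2) * r3

theorem M32 (t : Tri y1 y2 y3 Y1 Y2 Y3 (-v) (-V) c C) :
    (V + Y1) ^ 3 * (v + y1) ^ 2 + (V + Y2) ^ 3 * (v + y2) ^ 2 + (V + Y3) ^ 3 * (v + y3) ^ 2 =
    3 * v ^ 3 * V * C + v ^ 2 * V ^ 3 + 7 * v ^ 2 * C + 11 * v * V ^ 2 + 2 * V ^ 4 * c + 8 * V := by
  have r : ∀ Y y : ℂ, y * Y = 1 → (V + Y) * (v + y) =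
      (1 - v * V) + v * (V + Y) + V * (v + y) := fun Y y h => by linear_combination h
  have r1 := r Y1 y1 t.h1
  have r2 := r Y2 y2 t.h2
  have r3 := r Y3 y3 t.h3
  obtain ⟨W1, hW1⟩ : ∃ a, a = V + Y1 := ⟨_, rfl⟩
  obtain ⟨W2, hW2⟩ : ∃ a, a = V + Y2 := ⟨_, rfl⟩
  obtain ⟨W3, hW3⟩ : ∃ a, a = V + Y3 := ⟨_, rfl⟩
  obtain ⟨w1, hw1⟩ : ∃ a, a = v + y1 := ⟨_, rfl⟩
  obtain ⟨w2, hw2⟩ : ∃ a, a = v + y2 := ⟨_, rfl⟩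
  obtain ⟨w3, hw3⟩ : ∃ a, a = v + y3 := ⟨_, rfl⟩
  have m1 := M21 t
  have m2 := M31 t
  have m3 := M22 t
  rw [← hW1, ← hW2, ← hW3, ← hw1, ← hw2, ← hw3]
  rw [← hW1, ← hw1] at r1
  rw [← hW2, ← hw2] at r2
  rw [← hW3, ← hw3] at r3
  simp only [← hW1, ← hW2, ← hW3, ← hw1, ← hw2, ← hw3] at m1 m2 m3
  linear_combination (1 - v * V) * m1 + v * m2 + V * m3 + (W1 ^ 2 * w1) * r1 +
    (W2 ^ 2 * w2) * r2 + (W3 ^ 2 * w3) * r3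

theorem M41 (t : Tri y1 y2 y3 Y1 Y2 Y3 (-v) (-V) c C) :
    (V + Y1) ^ 4 * (v + y1) + (V + Y2) ^ 4 * (v + y2) + (V + Y3) ^ 4 * (v + y3) =
    2 * v ^ 3 * C ^ 2 + 4 * v ^ 2 * V ^ 2 * C + v * V ^ 4 + 13 * v * V * C + 9 * V ^ 3 + 3 * C := by
  have r : ∀ Y y : ℂ, y * Y = 1 → (V + Y) * (v + y) =
      (1 - v * V) + v * (V + Y) + V * (v + y) := fun Y y h => by linear_combination h
  have r1 := r Y1 y1 t.h1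
  have r2 := r Y2 y2 t.h2
  have r3 := r Y3 y3 t.h3
  obtain ⟨W1, hW1⟩ : ∃ a, a = V + Y1 := ⟨_, rfl⟩
  obtain ⟨W2, hW2⟩ : ∃ a, a = V + Y2 := ⟨_, rfl⟩
  obtain ⟨W3, hW3⟩ : ∃ a, a = V + Y3 := ⟨_, rfl⟩
  obtain ⟨w1, hw1⟩ : ∃ a, a = v + y1 := ⟨_, rfl⟩
  obtain ⟨w2, hw2⟩ : ∃ a, a = v + y2 := ⟨_, rfl⟩
  obtain ⟨w3, hw3⟩ : ∃ a, a = v + y3 := ⟨_, rfl⟩
  have m1 := M30 t
  have m2 := M40 t
  have m3 := M31 t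
  rw [← hW1, ← hW2, ← hW3, ← hw1, ← hw2, ← hw3]
  rw [← hW1, ← hw1] at r1
  rw [← hW2, ← hw2] at r2
  rw [← hW3, ← hw3] at r3
  simp only [← hW1, ← hW2, ← hW3, ← hw1, ← hw2, ← hw3] at m1 m2 m3
  linear_combination (1 - v * V) * m1 + v * m2 + V * m3 + (W1 ^ 3) * r1 +
    (W2 ^ 3) * r2 + (W3 ^ 3) * r3

theorem M50 (t : Tri y1 y2 y3 Y1 Y2 Y3 (-v) (-V) c C) :
    (V + Y1) ^ 5 + (V + Y2) ^ 5 + (V + Y3) ^ 5 =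
    5 * v ^ 2 * V * C ^ 2 + 5 * v * V ^ 3 * C + 5 * v * C ^ 2 + 2 * V ^ 5 + 15 * V ^ 2 * C := by
  have g1 : (V + Y1) + (V + Y2) + (V + Y3) = 2 * V := by linear_combination t.hV
  have g2 : (V + Y1) * (V + Y2) + (V + Y2) * (V + Y3) + (V + Y3) * (V + Y1) = V ^ 2 - v * C := by
    linear_combination t.E2 + 2 * V * t.hV
  have g3 : (V + Y1) * (V + Y2) * (V + Y3) = C - v * V * C := by
    linear_combination t.hB + V * t.E2 + V ^ 2 * t.hV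
  have h := pow_sums g1 g2 g3
  rw [h.2.2.2]
  ring

theorem M15 (t : Tri y1 y2 y3 Y1 Y2 Y3 (-v) (-V) c C) :
    (V + Y1) * (v + y1) ^ 5 + (V + Y2) * (v + y2) ^ 5 + (V + Y3) * (v + y3) ^ 5 =
    v ^ 5 * V + 11 * v ^ 4 + 5 * v ^ 3 * V ^ 2 * c + 24 * v ^ 2 * V * c + 5 * v * V ^ 3 * c ^
      2 + 11 * v * c + 7 * V ^ 2 * c ^ 2 := by
  have r : ∀ Y y : ℂ, y * Y = 1 → (V + Y) * (v + y) =
      (1 - v * V) + v * (V + Y) + V * (v + y) := fun Y y h => by linear_combination h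
  have r1 := r Y1 y1 t.h1
  have r2 := r Y2 y2 t.h2
  have r3 := r Y3 y3 t.h3
  obtain ⟨W1, hW1⟩ : ∃ a, a = V + Y1 := ⟨_, rfl⟩
  obtain ⟨W2, hW2⟩ : ∃ a, a = V + Y2 := ⟨_, rfl⟩
  obtain ⟨W3, hW3⟩ : ∃ a, a = V + Y3 := ⟨_, rfl⟩
  obtain ⟨w1, hw1⟩ : ∃ a, a = v + y1 := ⟨_, rfl⟩
  obtain ⟨w2, hw2⟩ : ∃ a, a = v + y2 := ⟨_, rfl⟩
  obtain ⟨w3, hw3⟩ : ∃ a, a = v + y3 := ⟨_, rfl⟩
  have m1 := M04 t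
  have m2 := M14 t
  have m3 := M05 t
  rw [← hW1, ← hW2, ← hW3, ← hw1, ← hw2, ← hw3]
  rw [← hW1, ← hw1] at r1
  rw [← hW2, ← hw2] at r2
  rw [← hW3, ← hw3] at r3
  simp only [← hW1, ← hW2, ← hW3, ← hw1, ← hw2, ← hw3] at m1 m2 m3
  linear_combination (1 - v * V) * m1 + v * m2 + V * m3 + (w1 ^ 4) * r1 +
    (w2 ^ 4) * r2 + (w3 ^ 4) * r3

theorem M24 (t : Tri y1 y2 y3 Y1 Y2 Y3 (-v) (-V) c C) :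
    (V + Y1) ^ 2 * (v + y1) ^ 4 + (V + Y2) ^ 2 * (v + y2) ^ 4 + (V + Y3) ^ 2 * (v + y3) ^ 4 =
    2 * v ^ 5 * C + v ^ 4 * V ^ 2 + 14 * v ^ 3 * V + 4 * v ^ 2 * V ^ 3 * c + 15 * v ^ 2 + 18 *
      v * V ^ 2 * c + 2 * V ^ 4 * c ^ 2 + 8 * V * c := by
  have r : ∀ Y y : ℂ, y * Y = 1 → (V + Y) * (v + y) =
      (1 - v * V) + v * (V + Y) + V * (v + y) := fun Y y h => by linear_combination h
  have r1 := r Y1 y1 t.h1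
  have r2 := r Y2 y2 t.h2
  have r3 := r Y3 y3 t.h3
  obtain ⟨W1, hW1⟩ : ∃ a, a = V + Y1 := ⟨_, rfl⟩
  obtain ⟨W2, hW2⟩ : ∃ a, a = V + Y2 := ⟨_, rfl⟩
  obtain ⟨W3, hW3⟩ : ∃ a, a = V + Y3 := ⟨_, rfl⟩
  obtain ⟨w1, hw1⟩ : ∃ a, a = v + y1 := ⟨_, rfl⟩
  obtain ⟨w2, hw2⟩ : ∃ a, a = v + y2 := ⟨_, rfl⟩
  obtain ⟨w3, hw3⟩ : ∃ a, a = v + y3 := ⟨_, rfl⟩
  have m1 := M13 t
  have m2 := M23 t
  have m3 := M14 t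
  rw [← hW1, ← hW2, ← hW3, ← hw1, ← hw2, ← hw3]
  rw [← hW1, ← hw1] at r1
  rw [← hW2, ← hw2] at r2
  rw [← hW3, ← hw3] at r3
  simp only [← hW1, ← hW2, ← hW3, ← hw1, ← hw2, ← hw3] at m1 m2 m3
  linear_combination (1 - v * V) * m1 + v * m2 + V * m3 + (W1 * w1 ^ 3) * r1 +
    (W2 * w2 ^ 3) * r2 + (W3 * w3 ^ 3) * r3

theorem M33 (t : Tri y1 y2 y3 Y1 Y2 Y3 (-v) (-V) c C) :
    (V + Y1) ^ 3 * (v + y1) ^ 3 + (V + Y2) ^ 3 * (v + y2) ^ 3 + (V + Y3) ^ 3 * (v + y3) ^ 3 =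
    3 * v ^ 4 * V * C + v ^ 3 * V ^ 3 + 9 * v ^ 3 * C + 15 * v ^ 2 * V ^ 2 + 3 * v * V ^ 4 * c
      + 21 * v * V + 9 * V ^ 3 * c + 3 := by
  have r : ∀ Y y : ℂ, y * Y = 1 → (V + Y) * (v + y) =
      (1 - v * V) + v * (V + Y) + V * (v + y) := fun Y y h => by linear_combination h
  have r1 := r Y1 y1 t.h1
  have r2 := r Y2 y2 t.h2
  have r3 := r Y3 y3 t.h3
  obtain ⟨W1, hW1⟩ : ∃ a, a = V + Y1 := ⟨_, rfl⟩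
  obtain ⟨W2, hW2⟩ : ∃ a, a = V + Y2 := ⟨_, rfl⟩
  obtain ⟨W3, hW3⟩ : ∃ a, a = V + Y3 := ⟨_, rfl⟩
  obtain ⟨w1, hw1⟩ : ∃ a, a = v + y1 := ⟨_, rfl⟩
  obtain ⟨w2, hw2⟩ : ∃ a, a = v + y2 := ⟨_, rfl⟩
  obtain ⟨w3, hw3⟩ : ∃ a, a = v + y3 := ⟨_, rfl⟩
  have m1 := M22 t
  have m2 := M32 t
  have m3 := M23 t
  rw [← hW1, ← hW2, ← hW3, ← hw1, ← hw2, ← hw3]
  rw [← hW1, ← hw1] at r1
  rw [← hW2, ← hw2] at r2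
  rw [← hW3, ← hw3] at r3
  simp only [← hW1, ← hW2, ← hW3, ← hw1, ← hw2, ← hw3] at m1 m2 m3
  linear_combination (1 - v * V) * m1 + v * m2 + V * m3 + (W1 ^ 2 * w1 ^ 2) * r1 +
    (W2 ^ 2 * w2 ^ 2) * r2 + (W3 ^ 2 * w3 ^ 2) * r3

theorem M42 (t : Tri y1 y2 y3 Y1 Y2 Y3 (-v) (-V) c C) :
    (V + Y1) ^ 4 * (v + y1) ^ 2 + (V + Y2) ^ 4 * (v + y2) ^ 2 + (V + Y3) ^ 4 * (v + y3) ^ 2 =
    2 * v ^ 4 * C ^ 2 + 4 * v ^ 3 * V ^ 2 * C + v ^ 2 * V ^ 4 + 18 * v ^ 2 * V * C + 14 * v *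
      V ^ 3 + 8 * v * C + 2 * V ^ 5 * c + 15 * V ^ 2 := by
  have r : ∀ Y y : ℂ, y * Y = 1 → (V + Y) * (v + y) =
      (1 - v * V) + v * (V + Y) + V * (v + y) := fun Y y h => by linear_combination h
  have r1 := r Y1 y1 t.h1
  have r2 := r Y2 y2 t.h2
  have r3 := r Y3 y3 t.h3
  obtain ⟨W1, hW1⟩ : ∃ a, a = V + Y1 := ⟨_, rfl⟩
  obtain ⟨W2, hW2⟩ : ∃ a, a = V + Y2 := ⟨_, rfl⟩
  obtain ⟨W3, hW3⟩ : ∃ a, a = V + Y3 := ⟨_, rfl⟩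
  obtain ⟨w1, hw1⟩ : ∃ a, a = v + y1 := ⟨_, rfl⟩
  obtain ⟨w2, hw2⟩ : ∃ a, a = v + y2 := ⟨_, rfl⟩
  obtain ⟨w3, hw3⟩ : ∃ a, a = v + y3 := ⟨_, rfl⟩
  have m1 := M31 t
  have m2 := M41 t
  have m3 := M32 t
  rw [← hW1, ← hW2, ← hW3, ← hw1, ← hw2, ← hw3]
  rw [← hW1, ← hw1] at r1
  rw [← hW2, ← hw2] at r2
  rw [← hW3, ← hw3] at r3
  simp only [← hW1, ← hW2, ← hW3, ← hw1, ← hw2, ← hw3] at m1 m2 m3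
  linear_combination (1 - v * V) * m1 + v * m2 + V * m3 + (W1 ^ 3 * w1) * r1 +
    (W2 ^ 3 * w2) * r2 + (W3 ^ 3 * w3) * r3

theorem M51 (t : Tri y1 y2 y3 Y1 Y2 Y3 (-v) (-V) c C) :
    (V + Y1) ^ 5 * (v + y1) + (V + Y2) ^ 5 * (v + y2) + (V + Y3) ^ 5 * (v + y3) =
    5 * v ^ 3 * V * C ^ 2 + 5 * v ^ 2 * V ^ 3 * C + 7 * v ^ 2 * C ^ 2 + v * V ^ 5 + 24 * v * V
      ^ 2 * C + 11 * V ^ 4 + 11 * V * C := by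
  have r : ∀ Y y : ℂ, y * Y = 1 → (V + Y) * (v + y) =
      (1 - v * V) + v * (V + Y) + V * (v + y) := fun Y y h => by linear_combination h
  have r1 := r Y1 y1 t.h1
  have r2 := r Y2 y2 t.h2
  have r3 := r Y3 y3 t.h3
  obtain ⟨W1, hW1⟩ : ∃ a, a = V + Y1 := ⟨_, rfl⟩
  obtain ⟨W2, hW2⟩ : ∃ a, a = V + Y2 := ⟨_, rfl⟩
  obtain ⟨W3, hW3⟩ : ∃ a, a = V + Y3 := ⟨_, rfl⟩
  obtain ⟨w1, hw1⟩ : ∃ a, a = v + y1 := ⟨_, rfl⟩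
  obtain ⟨w2, hw2⟩ : ∃ a, a = v + y2 := ⟨_, rfl⟩
  obtain ⟨w3, hw3⟩ : ∃ a, a = v + y3 := ⟨_, rfl⟩
  have m1 := M40 t
  have m2 := M50 t
  have m3 := M41 t
  rw [← hW1, ← hW2, ← hW3, ← hw1, ← hw2, ← hw3]
  rw [← hW1, ← hw1] at r1
  rw [← hW2, ← hw2] at r2
  rw [← hW3, ← hw3] at r3
  simp only [← hW1, ← hW2, ← hW3, ← hw1, ← hw2, ← hw3] at m1 m2 m3
  linear_combination (1 - v * V) * m1 + v * m2 + V * m3 + (W1 ^ 4) * r1 +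
    (W2 ^ 4) * r2 + (W3 ^ 4) * r3

theorem M25 (t : Tri y1 y2 y3 Y1 Y2 Y3 (-v) (-V) c C) :
    (V + Y1) ^ 2 * (v + y1) ^ 5 + (V + Y2) ^ 2 * (v + y2) ^ 5 + (V + Y3) ^ 2 * (v + y3) ^ 5 =
    2 * v ^ 6 * C + v ^ 5 * V ^ 2 + 17 * v ^ 4 * V + 5 * v ^ 3 * V ^ 3 * c + 24 * v ^ 3 + 33 *
      v ^ 2 * V ^ 2 * c + 5 * v * V ^ 4 * c ^ 2 + 29 * v * V * c + 9 * V ^ 3 * c ^ 2 + 3 * c := by
  have r : ∀ Y y : ℂ, y * Y = 1 → (V + Y) * (v + y) =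
      (1 - v * V) + v * (V + Y) + V * (v + y) := fun Y y h => by linear_combination h
  have r1 := r Y1 y1 t.h1
  have r2 := r Y2 y2 t.h2
  have r3 := r Y3 y3 t.h3
  obtain ⟨W1, hW1⟩ : ∃ a, a = V + Y1 := ⟨_, rfl⟩
  obtain ⟨W2, hW2⟩ : ∃ a, a = V + Y2 := ⟨_, rfl⟩
  obtain ⟨W3, hW3⟩ : ∃ a, a = V + Y3 := ⟨_, rfl⟩
  obtain ⟨w1, hw1⟩ : ∃ a, a = v + y1 := ⟨_, rfl⟩
  obtain ⟨w2, hw2⟩ : ∃ a, a = v + y2 := ⟨_, rfl⟩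
  obtain ⟨w3, hw3⟩ : ∃ a, a = v + y3 := ⟨_, rfl⟩
  have m1 := M14 t
  have m2 := M24 t
  have m3 := M15 t
  rw [← hW1, ← hW2, ← hW3, ← hw1, ← hw2, ← hw3]
  rw [← hW1, ← hw1] at r1
  rw [← hW2, ← hw2] at r2
  rw [← hW3, ← hw3] at r3
  simp only [← hW1, ← hW2, ← hW3, ← hw1, ← hw2, ← hw3] at m1 m2 m3
  linear_combination (1 - v * V) * m1 + v * m2 + V * m3 + (W1 * w1 ^ 4) * r1 +
    (W2 * w2 ^ 4) * r2 + (W3 * w3 ^ 4) * r3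

theorem M34 (t : Tri y1 y2 y3 Y1 Y2 Y3 (-v) (-V) c C) :
    (V + Y1) ^ 3 * (v + y1) ^ 4 + (V + Y2) ^ 3 * (v + y2) ^ 4 + (V + Y3) ^ 3 * (v + y3) ^ 4 =
    3 * v ^ 5 * V * C + v ^ 4 * V ^ 3 + 11 * v ^ 4 * C + 19 * v ^ 3 * V ^ 2 + 4 * v ^ 2 * V ^
      4 * c + 39 * v ^ 2 * V + 23 * v * V ^ 3 * c + 11 * v + 2 * V ^ 5 * c ^ 2 + 15 * V ^ 2 *
      c := by
  have r : ∀ Y y : ℂ, y * Y = 1 → (V + Y) * (v + y) =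
      (1 - v * V) + v * (V + Y) + V * (v + y) := fun Y y h => by linear_combination h
  have r1 := r Y1 y1 t.h1
  have r2 := r Y2 y2 t.h2
  have r3 := r Y3 y3 t.h3
  obtain ⟨W1, hW1⟩ : ∃ a, a = V + Y1 := ⟨_, rfl⟩
  obtain ⟨W2, hW2⟩ : ∃ a, a = V + Y2 := ⟨_, rfl⟩
  obtain ⟨W3, hW3⟩ : ∃ a, a = V + Y3 := ⟨_, rfl⟩
  obtain ⟨w1, hw1⟩ : ∃ a, a = v + y1 := ⟨_, rfl⟩
  obtain ⟨w2, hw2⟩ : ∃ a, a = v + y2 := ⟨_, rfl⟩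
  obtain ⟨w3, hw3⟩ : ∃ a, a = v + y3 := ⟨_, rfl⟩
  have m1 := M23 t
  have m2 := M33 t
  have m3 := M24 t
  rw [← hW1, ← hW2, ← hW3, ← hw1, ← hw2, ← hw3]
  rw [← hW1, ← hw1] at r1
  rw [← hW2, ← hw2] at r2
  rw [← hW3, ← hw3] at r3
  simp only [← hW1, ← hW2, ← hW3, ← hw1, ← hw2, ← hw3] at m1 m2 m3
  linear_combination (1 - v * V) * m1 + v * m2 + V * m3 + (W1 ^ 2 * w1 ^ 3) * r1 +
    (W2 ^ 2 * w2 ^ 3) * r2 + (W3 ^ 2 * w3 ^ 3) * r3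

theorem M43 (t : Tri y1 y2 y3 Y1 Y2 Y3 (-v) (-V) c C) :
    (V + Y1) ^ 4 * (v + y1) ^ 3 + (V + Y2) ^ 4 * (v + y2) ^ 3 + (V + Y3) ^ 4 * (v + y3) ^ 3 =
    2 * v ^ 5 * C ^ 2 + 4 * v ^ 4 * V ^ 2 * C + v ^ 3 * V ^ 4 + 23 * v ^ 3 * V * C + 19 * v ^
      2 * V ^ 3 + 15 * v ^ 2 * C + 3 * v * V ^ 5 * c + 39 * v * V ^ 2 + 11 * V ^ 4 * c + 11 *
      V := by
  have r : ∀ Y y : ℂ, y * Y = 1 → (V + Y) * (v + y) =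
      (1 - v * V) + v * (V + Y) + V * (v + y) := fun Y y h => by linear_combination h
  have r1 := r Y1 y1 t.h1
  have r2 := r Y2 y2 t.h2
  have r3 := r Y3 y3 t.h3
  obtain ⟨W1, hW1⟩ : ∃ a, a = V + Y1 := ⟨_, rfl⟩
  obtain ⟨W2, hW2⟩ : ∃ a, a = V + Y2 := ⟨_, rfl⟩
  obtain ⟨W3, hW3⟩ : ∃ a, a = V + Y3 := ⟨_, rfl⟩
  obtain ⟨w1, hw1⟩ : ∃ a, a = v + y1 := ⟨_, rfl⟩
  obtain ⟨w2, hw2⟩ : ∃ a, a = v + y2 := ⟨_, rfl⟩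
  obtain ⟨w3, hw3⟩ : ∃ a, a = v + y3 := ⟨_, rfl⟩
  have m1 := M32 t
  have m2 := M42 t
  have m3 := M33 t
  rw [← hW1, ← hW2, ← hW3, ← hw1, ← hw2, ← hw3]
  rw [← hW1, ← hw1] at r1
  rw [← hW2, ← hw2] at r2
  rw [← hW3, ← hw3] at r3
  simp only [← hW1, ← hW2, ← hW3, ← hw1, ← hw2, ← hw3] at m1 m2 m3
  linear_combination (1 - v * V) * m1 + v * m2 + V * m3 + (W1 ^ 3 * w1 ^ 2) * r1 +
    (W2 ^ 3 * w2 ^ 2) * r2 + (W3 ^ 3 * w3 ^ 2) * r3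

theorem M52 (t : Tri y1 y2 y3 Y1 Y2 Y3 (-v) (-V) c C) :
    (V + Y1) ^ 5 * (v + y1) ^ 2 + (V + Y2) ^ 5 * (v + y2) ^ 2 + (V + Y3) ^ 5 * (v + y3) ^ 2 =
    5 * v ^ 4 * V * C ^ 2 + 5 * v ^ 3 * V ^ 3 * C + 9 * v ^ 3 * C ^ 2 + v ^ 2 * V ^ 5 + 33 * v
      ^ 2 * V ^ 2 * C + 17 * v * V ^ 4 + 29 * v * V * C + 2 * V ^ 6 * c + 24 * V ^ 3 + 3 * C := by
  have r : ∀ Y y : ℂ, y * Y = 1 → (V + Y) * (v + y) =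
      (1 - v * V) + v * (V + Y) + V * (v + y) := fun Y y h => by linear_combination h
  have r1 := r Y1 y1 t.h1
  have r2 := r Y2 y2 t.h2
  have r3 := r Y3 y3 t.h3
  obtain ⟨W1, hW1⟩ : ∃ a, a = V + Y1 := ⟨_, rfl⟩
  obtain ⟨W2, hW2⟩ : ∃ a, a = V + Y2 := ⟨_, rfl⟩
  obtain ⟨W3, hW3⟩ : ∃ a, a = V + Y3 := ⟨_, rfl⟩
  obtain ⟨w1, hw1⟩ : ∃ a, a = v + y1 := ⟨_, rfl⟩
  obtain ⟨w2, hw2⟩ : ∃ a, a = v + y2 := ⟨_, rfl⟩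
  obtain ⟨w3, hw3⟩ : ∃ a, a = v + y3 := ⟨_, rfl⟩
  have m1 := M41 t
  have m2 := M51 t
  have m3 := M42 t
  rw [← hW1, ← hW2, ← hW3, ← hw1, ← hw2, ← hw3]
  rw [← hW1, ← hw1] at r1
  rw [← hW2, ← hw2] at r2
  rw [← hW3, ← hw3] at r3
  simp only [← hW1, ← hW2, ← hW3, ← hw1, ← hw2, ← hw3] at m1 m2 m3
  linear_combination (1 - v * V) * m1 + v * m2 + V * m3 + (W1 ^ 4 * w1) * r1 +
    (W2 ^ 4 * w2) * r2 + (W3 ^ 4 * w3) * r3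

theorem M35 (t : Tri y1 y2 y3 Y1 Y2 Y3 (-v) (-V) c C) :
    (V + Y1) ^ 3 * (v + y1) ^ 5 + (V + Y2) ^ 3 * (v + y2) ^ 5 + (V + Y3) ^ 3 * (v + y3) ^ 5 =
    3 * v ^ 6 * V * C + v ^ 5 * V ^ 3 + 13 * v ^ 5 * C + 23 * v ^ 4 * V ^ 2 + 5 * v ^ 3 * V ^
      4 * c + 62 * v ^ 3 * V + 42 * v ^ 2 * V ^ 3 * c + 26 * v ^ 2 + 5 * v * V ^ 5 * c ^ 2 +
      54 * v * V ^ 2 * c + 11 * V ^ 4 * c ^ 2 + 11 * V * c := by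
  have r : ∀ Y y : ℂ, y * Y = 1 → (V + Y) * (v + y) =
      (1 - v * V) + v * (V + Y) + V * (v + y) := fun Y y h => by linear_combination h
  have r1 := r Y1 y1 t.h1
  have r2 := r Y2 y2 t.h2
  have r3 := r Y3 y3 t.h3
  obtain ⟨W1, hW1⟩ : ∃ a, a = V + Y1 := ⟨_, rfl⟩
  obtain ⟨W2, hW2⟩ : ∃ a, a = V + Y2 := ⟨_, rfl⟩
  obtain ⟨W3, hW3⟩ : ∃ a, a = V + Y3 := ⟨_, rfl⟩
  obtain ⟨w1, hw1⟩ : ∃ a, a = v + y1 := ⟨_, rfl⟩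
  obtain ⟨w2, hw2⟩ : ∃ a, a = v + y2 := ⟨_, rfl⟩
  obtain ⟨w3, hw3⟩ : ∃ a, a = v + y3 := ⟨_, rfl⟩
  have m1 := M24 t
  have m2 := M34 t
  have m3 := M25 t
  rw [← hW1, ← hW2, ← hW3, ← hw1, ← hw2, ← hw3]
  rw [← hW1, ← hw1] at r1
  rw [← hW2, ← hw2] at r2
  rw [← hW3, ← hw3] at r3
  simp only [← hW1, ← hW2, ← hW3, ← hw1, ← hw2, ← hw3] at m1 m2 m3
  linear_combination (1 - v * V) * m1 + v * m2 + V * m3 + (W1 ^ 2 * w1 ^ 4) * r1 +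
    (W2 ^ 2 * w2 ^ 4) * r2 + (W3 ^ 2 * w3 ^ 4) * r3

theorem M44 (t : Tri y1 y2 y3 Y1 Y2 Y3 (-v) (-V) c C) :
    (V + Y1) ^ 4 * (v + y1) ^ 4 + (V + Y2) ^ 4 * (v + y2) ^ 4 + (V + Y3) ^ 4 * (v + y3) ^ 4 =
    2 * v ^ 6 * C ^ 2 + 4 * v ^ 5 * V ^ 2 * C + v ^ 4 * V ^ 4 + 28 * v ^ 4 * V * C + 24 * v ^
      3 * V ^ 3 + 24 * v ^ 3 * C + 4 * v ^ 2 * V ^ 5 * c + 72 * v ^ 2 * V ^ 2 + 28 * v * V ^ 4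
      * c + 40 * v * V + 2 * V ^ 6 * c ^ 2 + 24 * V ^ 3 * c + 3 := by
  have r : ∀ Y y : ℂ, y * Y = 1 → (V + Y) * (v + y) =
      (1 - v * V) + v * (V + Y) + V * (v + y) := fun Y y h => by linear_combination h
  have r1 := r Y1 y1 t.h1
  have r2 := r Y2 y2 t.h2
  have r3 := r Y3 y3 t.h3
  obtain ⟨W1, hW1⟩ : ∃ a, a = V + Y1 := ⟨_, rfl⟩
  obtain ⟨W2, hW2⟩ : ∃ a, a = V + Y2 := ⟨_, rfl⟩
  obtain ⟨W3, hW3⟩ : ∃ a, a = V + Y3 := ⟨_, rfl⟩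
  obtain ⟨w1, hw1⟩ : ∃ a, a = v + y1 := ⟨_, rfl⟩
  obtain ⟨w2, hw2⟩ : ∃ a, a = v + y2 := ⟨_, rfl⟩
  obtain ⟨w3, hw3⟩ : ∃ a, a = v + y3 := ⟨_, rfl⟩
  have m1 := M33 t
  have m2 := M43 t
  have m3 := M34 t
  rw [← hW1, ← hW2, ← hW3, ← hw1, ← hw2, ← hw3]
  rw [← hW1, ← hw1] at r1
  rw [← hW2, ← hw2] at r2
  rw [← hW3, ← hw3] at r3
  simp only [← hW1, ← hW2, ← hW3, ← hw1, ← hw2, ← hw3] at m1 m2 m3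
  linear_combination (1 - v * V) * m1 + v * m2 + V * m3 + (W1 ^ 3 * w1 ^ 3) * r1 +
    (W2 ^ 3 * w2 ^ 3) * r2 + (W3 ^ 3 * w3 ^ 3) * r3

theorem M53 (t : Tri y1 y2 y3 Y1 Y2 Y3 (-v) (-V) c C) :
    (V + Y1) ^ 5 * (v + y1) ^ 3 + (V + Y2) ^ 5 * (v + y2) ^ 3 + (V + Y3) ^ 5 * (v + y3) ^ 3 =
    5 * v ^ 5 * V * C ^ 2 + 5 * v ^ 4 * V ^ 3 * C + 11 * v ^ 4 * C ^ 2 + v ^ 3 * V ^ 5 + 42 *
      v ^ 3 * V ^ 2 * C + 23 * v ^ 2 * V ^ 4 + 54 * v ^ 2 * V * C + 3 * v * V ^ 6 * c + 62 * v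
      * V ^ 3 + 11 * v * C + 13 * V ^ 5 * c + 26 * V ^ 2 := by
  have r : ∀ Y y : ℂ, y * Y = 1 → (V + Y) * (v + y) =
      (1 - v * V) + v * (V + Y) + V * (v + y) := fun Y y h => by linear_combination h
  have r1 := r Y1 y1 t.h1
  have r2 := r Y2 y2 t.h2
  have r3 := r Y3 y3 t.h3
  obtain ⟨W1, hW1⟩ : ∃ a, a = V + Y1 := ⟨_, rfl⟩
  obtain ⟨W2, hW2⟩ : ∃ a, a = V + Y2 := ⟨_, rfl⟩
  obtain ⟨W3, hW3⟩ : ∃ a, a = V + Y3 := ⟨_, rfl⟩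
  obtain ⟨w1, hw1⟩ : ∃ a, a = v + y1 := ⟨_, rfl⟩
  obtain ⟨w2, hw2⟩ : ∃ a, a = v + y2 := ⟨_, rfl⟩
  obtain ⟨w3, hw3⟩ : ∃ a, a = v + y3 := ⟨_, rfl⟩
  have m1 := M42 t
  have m2 := M52 t
  have m3 := M43 t
  rw [← hW1, ← hW2, ← hW3, ← hw1, ← hw2, ← hw3]
  rw [← hW1, ← hw1] at r1
  rw [← hW2, ← hw2] at r2
  rw [← hW3, ← hw3] at r3
  simp only [← hW1, ← hW2, ← hW3, ← hw1, ← hw2, ← hw3] at m1 m2 m3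
  linear_combination (1 - v * V) * m1 + v * m2 + V * m3 + (W1 ^ 4 * w1 ^ 2) * r1 +
    (W2 ^ 4 * w2 ^ 2) * r2 + (W3 ^ 4 * w3 ^ 2) * r3

theorem M45 (t : Tri y1 y2 y3 Y1 Y2 Y3 (-v) (-V) c C) :
    (V + Y1) ^ 4 * (v + y1) ^ 5 + (V + Y2) ^ 4 * (v + y2) ^ 5 + (V + Y3) ^ 4 * (v + y3) ^ 5 =
    2 * v ^ 7 * C ^ 2 + 4 * v ^ 6 * V ^ 2 * C + v ^ 5 * V ^ 4 + 33 * v ^ 5 * V * C + 29 * v ^
      4 * V ^ 3 + 35 * v ^ 4 * C + 5 * v ^ 3 * V ^ 5 * c + 114 * v ^ 3 * V ^ 2 + 51 * v ^ 2 *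
      V ^ 4 * c + 94 * v ^ 2 * V + 5 * v * V ^ 6 * c ^ 2 + 86 * v * V ^ 3 * c + 14 * v + 13 *
      V ^ 5 * c ^ 2 + 26 * V ^ 2 * c := by
  have r : ∀ Y y : ℂ, y * Y = 1 → (V + Y) * (v + y) =
      (1 - v * V) + v * (V + Y) + V * (v + y) := fun Y y h => by linear_combination h
  have r1 := r Y1 y1 t.h1
  have r2 := r Y2 y2 t.h2
  have r3 := r Y3 y3 t.h3
  obtain ⟨W1, hW1⟩ : ∃ a, a = V + Y1 := ⟨_, rfl⟩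
  obtain ⟨W2, hW2⟩ : ∃ a, a = V + Y2 := ⟨_, rfl⟩
  obtain ⟨W3, hW3⟩ : ∃ a, a = V + Y3 := ⟨_, rfl⟩
  obtain ⟨w1, hw1⟩ : ∃ a, a = v + y1 := ⟨_, rfl⟩
  obtain ⟨w2, hw2⟩ : ∃ a, a = v + y2 := ⟨_, rfl⟩
  obtain ⟨w3, hw3⟩ : ∃ a, a = v + y3 := ⟨_, rfl⟩
  have m1 := M34 t
  have m2 := M44 t
  have m3 := M35 t
  rw [← hW1, ← hW2, ← hW3, ← hw1, ← hw2, ← hw3]
  rw [← hW1, ← hw1] at r1
  rw [← hW2, ← hw2] at r2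
  rw [← hW3, ← hw3] at r3
  simp only [← hW1, ← hW2, ← hW3, ← hw1, ← hw2, ← hw3] at m1 m2 m3
  linear_combination (1 - v * V) * m1 + v * m2 + V * m3 + (W1 ^ 3 * w1 ^ 4) * r1 +
    (W2 ^ 3 * w2 ^ 4) * r2 + (W3 ^ 3 * w3 ^ 4) * r3

theorem M54 (t : Tri y1 y2 y3 Y1 Y2 Y3 (-v) (-V) c C) :
    (V + Y1) ^ 5 * (v + y1) ^ 4 + (V + Y2) ^ 5 * (v + y2) ^ 4 + (V + Y3) ^ 5 * (v + y3) ^ 4 =
    5 * v ^ 6 * V * C ^ 2 + 5 * v ^ 5 * V ^ 3 * C + 13 * v ^ 5 * C ^ 2 + v ^ 4 * V ^ 5 + 51 *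
      v ^ 4 * V ^ 2 * C + 29 * v ^ 3 * V ^ 4 + 86 * v ^ 3 * V * C + 4 * v ^ 2 * V ^ 6 * c +
      114 * v ^ 2 * V ^ 3 + 26 * v ^ 2 * C + 33 * v * V ^ 5 * c + 94 * v * V ^ 2 + 2 * V ^ 7 *
      c ^ 2 + 35 * V ^ 4 * c + 14 * V := by
  have r : ∀ Y y : ℂ, y * Y = 1 → (V + Y) * (v + y) =
      (1 - v * V) + v * (V + Y) + V * (v + y) := fun Y y h => by linear_combination h
  have r1 := r Y1 y1 t.h1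
  have r2 := r Y2 y2 t.h2
  have r3 := r Y3 y3 t.h3
  obtain ⟨W1, hW1⟩ : ∃ a, a = V + Y1 := ⟨_, rfl⟩
  obtain ⟨W2, hW2⟩ : ∃ a, a = V + Y2 := ⟨_, rfl⟩
  obtain ⟨W3, hW3⟩ : ∃ a, a = V + Y3 := ⟨_, rfl⟩
  obtain ⟨w1, hw1⟩ : ∃ a, a = v + y1 := ⟨_, rfl⟩
  obtain ⟨w2, hw2⟩ : ∃ a, a = v + y2 := ⟨_, rfl⟩
  obtain ⟨w3, hw3⟩ : ∃ a, a = v + y3 := ⟨_, rfl⟩
  have m1 := M43 t
  have m2 := M53 t
  have m3 := M44 t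
  rw [← hW1, ← hW2, ← hW3, ← hw1, ← hw2, ← hw3]
  rw [← hW1, ← hw1] at r1
  rw [← hW2, ← hw2] at r2
  rw [← hW3, ← hw3] at r3
  simp only [← hW1, ← hW2, ← hW3, ← hw1, ← hw2, ← hw3] at m1 m2 m3
  linear_combination (1 - v * V) * m1 + v * m2 + V * m3 + (W1 ^ 4 * w1 ^ 3) * r1 +
    (W2 ^ 4 * w2 ^ 3) * r2 + (W3 ^ 4 * w3 ^ 3) * r3

theorem M55 (t : Tri y1 y2 y3 Y1 Y2 Y3 (-v) (-V) c C) :
    (V + Y1) ^ 5 * (v + y1) ^ 5 + (V + Y2) ^ 5 * (v + y2) ^ 5 + (V + Y3) ^ 5 * (v + y3) ^ 5 =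
    5 * v ^ 7 * V * C ^ 2 + 5 * v ^ 6 * V ^ 3 * C + 15 * v ^ 6 * C ^ 2 + v ^ 5 * V ^ 5 + 60 *
      v ^ 5 * V ^ 2 * C + 35 * v ^ 4 * V ^ 4 + 125 * v ^ 4 * V * C + 5 * v ^ 3 * V ^ 6 * c +
      180 * v ^ 3 * V ^ 3 + 50 * v ^ 3 * C + 60 * v ^ 2 * V ^ 5 * c + 220 * v ^ 2 * V ^ 2 + 5
      * v * V ^ 7 * c ^ 2 + 125 * v * V ^ 4 * c + 65 * v * V + 15 * V ^ 6 * c ^ 2 + 50 * V ^ 3
      * c + 3 := by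
  have r : ∀ Y y : ℂ, y * Y = 1 → (V + Y) * (v + y) =
      (1 - v * V) + v * (V + Y) + V * (v + y) := fun Y y h => by linear_combination h
  have r1 := r Y1 y1 t.h1
  have r2 := r Y2 y2 t.h2
  have r3 := r Y3 y3 t.h3
  obtain ⟨W1, hW1⟩ : ∃ a, a = V + Y1 := ⟨_, rfl⟩
  obtain ⟨W2, hW2⟩ : ∃ a, a = V + Y2 := ⟨_, rfl⟩
  obtain ⟨W3, hW3⟩ : ∃ a, a = V + Y3 := ⟨_, rfl⟩
  obtain ⟨w1, hw1⟩ : ∃ a, a = v + y1 := ⟨_, rfl⟩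
  obtain ⟨w2, hw2⟩ : ∃ a, a = v + y2 := ⟨_, rfl⟩
  obtain ⟨w3, hw3⟩ : ∃ a, a = v + y3 := ⟨_, rfl⟩
  have m1 := M44 t
  have m2 := M54 t
  have m3 := M45 t
  rw [← hW1, ← hW2, ← hW3, ← hw1, ← hw2, ← hw3]
  rw [← hW1, ← hw1] at r1
  rw [← hW2, ← hw2] at r2
  rw [← hW3, ← hw3] at r3
  simp only [← hW1, ← hW2, ← hW3, ← hw1, ← hw2, ← hw3] at m1 m2 m3
  linear_combination (1 - v * V) * m1 + v * m2 + V * m3 + (W1 ^ 4 * w1 ^ 4) * r1 +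
    (W2 ^ 4 * w2 ^ 4) * r2 + (W3 ^ 4 * w3 ^ 4) * r3

end

end Pool.Agent.Lib.MP_230119_an.LW
end

section

/-!
# LEMMA W: the power sums of the ten split densities, second part
-/

set_option autoImplicit false

namespace Pool.Agent.Lib.MP_230119_an.LW

variable {x1 x2 x3 X1 X2 X3 y1 y2 y3 Y1 Y2 Y3 v V b B c C : ℂ}

theorem R1 (tx : Tri x1 x2 x3 X1 X2 X3 v V b B) (ty : Tri y1 y2 y3 Y1 Y2 Y3 (-v) (-V) c C) :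
    (v * V - 1) ^ 1 +
      ((((v + y1 - x1) * (V + Y1 - X1) - 1) ^ 1 + ((v + y1 - x2) * (V + Y1 - X2) - 1) ^ 1 + ((v + y1 - x3) * (V + Y1 - X3) - 1) ^ 1) +
      (((v + y2 - x1) * (V + Y2 - X1) - 1) ^ 1 + ((v + y2 - x2) * (V + Y2 - X2) - 1) ^ 1 + ((v + y2 - x3) * (V + Y2 - X3) - 1) ^ 1) +
      (((v + y3 - x1) * (V + Y3 - X1) - 1) ^ 1 + ((v + y3 - x2) * (V + Y3 - X2) - 1) ^ 1 + ((v + y3 - x3) * (V + Y3 - X3) - 1) ^ 1)) =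
    8 := by
  have f1 := tx.F1 (V + Y1) (v + y1)
  have f2 := tx.F1 (V + Y2) (v + y2)
  have f3 := tx.F1 (V + Y3) (v + y3)
  have m01 := M01 ty
  have m10 := M10 ty
  have m11 := M11 ty
  obtain ⟨S1, hS1⟩ : ∃ a, a = ((v + y1 - x1) * (V + Y1 - X1) - 1) ^ 1 + ((v + y1 - x2) * (V + Y1 - X2) - 1) ^ 1 + ((v + y1 - x3) * (V + Y1 - X3) - 1) ^ 1 := ⟨_, rfl⟩
  obtain ⟨S2, hS2⟩ : ∃ a, a = ((v + y2 - x1) * (V + Y2 - X1) - 1) ^ 1 + ((v + y2 - x2) * (V + Y2 - X2) - 1) ^ 1 + ((v + y2 - x3) * (V + Y2 - X3) - 1) ^ 1 := ⟨_, rfl⟩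
  obtain ⟨S3, hS3⟩ : ∃ a, a = ((v + y3 - x1) * (V + Y3 - X1) - 1) ^ 1 + ((v + y3 - x2) * (V + Y3 - X2) - 1) ^ 1 + ((v + y3 - x3) * (V + Y3 - X3) - 1) ^ 1 := ⟨_, rfl⟩
  rw [← hS1, ← hS2, ← hS3]
  rw [← hS1] at f1
  rw [← hS2] at f2
  rw [← hS3] at f3
  obtain ⟨W1, hW1⟩ : ∃ a, a = V + Y1 := ⟨_, rfl⟩
  obtain ⟨W2, hW2⟩ : ∃ a, a = V + Y2 := ⟨_, rfl⟩
  obtain ⟨W3, hW3⟩ : ∃ a, a = V + Y3 := ⟨_, rfl⟩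
  obtain ⟨w1, hw1⟩ : ∃ a, a = v + y1 := ⟨_, rfl⟩
  obtain ⟨w2, hw2⟩ : ∃ a, a = v + y2 := ⟨_, rfl⟩
  obtain ⟨w3, hw3⟩ : ∃ a, a = v + y3 := ⟨_, rfl⟩
  simp only [← hW1, ← hW2, ← hW3, ← hw1, ← hw2, ← hw3] at f1 f2 f3 m01 m10 m11
  linear_combination
    f1 + f2 + f3 + (-V) * m01 + (-v) * m10 + (3) * m11

theorem R2 (tx : Tri x1 x2 x3 X1 X2 X3 v V b B) (ty : Tri y1 y2 y3 Y1 Y2 Y3 (-v) (-V) c C) :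
    (v * V - 1) ^ 2 +
      ((((v + y1 - x1) * (V + Y1 - X1) - 1) ^ 2 + ((v + y1 - x2) * (V + Y1 - X2) - 1) ^ 2 + ((v + y1 - x3) * (V + Y1 - X3) - 1) ^ 2) +
      (((v + y2 - x1) * (V + Y2 - X1) - 1) ^ 2 + ((v + y2 - x2) * (V + Y2 - X2) - 1) ^ 2 + ((v + y2 - x3) * (V + Y2 - X3) - 1) ^ 2) +
      (((v + y3 - x1) * (V + Y3 - X1) - 1) ^ 2 + ((v + y3 - x2) * (V + Y3 - X2) - 1) ^ 2 + ((v + y3 - x3) * (V + Y3 - X3) - 1) ^ 2)) =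
    28 + 4 * ((V * (b - c) - v ^ 2) * (v * (B - C) - V ^ 2)) := by
  have f1 := tx.F2 (V + Y1) (v + y1)
  have f2 := tx.F2 (V + Y2) (v + y2)
  have f3 := tx.F2 (V + Y3) (v + y3)
  have m02 := M02 ty
  have m11 := M11 ty
  have m12 := M12 ty
  have m20 := M20 ty
  have m21 := M21 ty
  have m22 := M22 ty
  have hb := tx.bB
  have hc := ty.bB
  obtain ⟨S1, hS1⟩ : ∃ a, a = ((v + y1 - x1) * (V + Y1 - X1) - 1) ^ 2 + ((v + y1 - x2) * (V + Y1 - X2) - 1) ^ 2 + ((v + y1 - x3) * (V + Y1 - X3) - 1) ^ 2 := ⟨_, rfl⟩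
  obtain ⟨S2, hS2⟩ : ∃ a, a = ((v + y2 - x1) * (V + Y2 - X1) - 1) ^ 2 + ((v + y2 - x2) * (V + Y2 - X2) - 1) ^ 2 + ((v + y2 - x3) * (V + Y2 - X3) - 1) ^ 2 := ⟨_, rfl⟩
  obtain ⟨S3, hS3⟩ : ∃ a, a = ((v + y3 - x1) * (V + Y3 - X1) - 1) ^ 2 + ((v + y3 - x2) * (V + Y3 - X2) - 1) ^ 2 + ((v + y3 - x3) * (V + Y3 - X3) - 1) ^ 2 := ⟨_, rfl⟩
  rw [← hS1, ← hS2, ← hS3]
  rw [← hS1] at f1
  rw [← hS2] at f2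
  rw [← hS3] at f3
  obtain ⟨W1, hW1⟩ : ∃ a, a = V + Y1 := ⟨_, rfl⟩
  obtain ⟨W2, hW2⟩ : ∃ a, a = V + Y2 := ⟨_, rfl⟩
  obtain ⟨W3, hW3⟩ : ∃ a, a = V + Y3 := ⟨_, rfl⟩
  obtain ⟨w1, hw1⟩ : ∃ a, a = v + y1 := ⟨_, rfl⟩
  obtain ⟨w2, hw2⟩ : ∃ a, a = v + y2 := ⟨_, rfl⟩
  obtain ⟨w3, hw3⟩ : ∃ a, a = v + y3 := ⟨_, rfl⟩
  simp only [← hW1, ← hW2, ← hW3, ← hw1, ← hw2, ← hw3] at f1 f2 f3 m02 m11 m12 m20 m21 m22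
  linear_combination
    f1 + f2 + f3 + (-2 * v * B + V ^ 2) * m02 + (6) * m11 + (-2 * V) * m12 + (v ^ 2 - 2 * V *
      b) * m20 + (-2 * v) * m21 + (3) * m22 + (-(4 * v * V)) * hb + (-(4 * v * V)) * hc

theorem R3 (tx : Tri x1 x2 x3 X1 X2 X3 v V b B) (ty : Tri y1 y2 y3 Y1 Y2 Y3 (-v) (-V) c C) :
    (v * V - 1) ^ 3 +
      ((((v + y1 - x1) * (V + Y1 - X1) - 1) ^ 3 + ((v + y1 - x2) * (V + Y1 - X2) - 1) ^ 3 + ((v + y1 - x3) * (V + Y1 - X3) - 1) ^ 3) +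
      (((v + y2 - x1) * (V + Y2 - X1) - 1) ^ 3 + ((v + y2 - x2) * (V + Y2 - X2) - 1) ^ 3 + ((v + y2 - x3) * (V + Y2 - X3) - 1) ^ 3) +
      (((v + y3 - x1) * (V + Y3 - X1) - 1) ^ 3 + ((v + y3 - x2) * (V + Y3 - X2) - 1) ^ 3 + ((v + y3 - x3) * (V + Y3 - X3) - 1) ^ 3)) =
    80 + 48 * ((V * (b - c) - v ^ 2) * (v * (B - C) - V ^ 2)) - 9 * ((b + c) * (B + C) * (v *
      V - 1) ^ 2) := by
  have f1 := tx.F3 (V + Y1) (v + y1)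
  have f2 := tx.F3 (V + Y2) (v + y2)
  have f3 := tx.F3 (V + Y3) (v + y3)
  have m03 := M03 ty
  have m12 := M12 ty
  have m13 := M13 ty
  have m21 := M21 ty
  have m22 := M22 ty
  have m23 := M23 ty
  have m30 := M30 ty
  have m31 := M31 ty
  have m32 := M32 ty
  have m33 := M33 ty
  have hb := tx.bB
  have hc := ty.bB
  obtain ⟨S1, hS1⟩ : ∃ a, a = ((v + y1 - x1) * (V + Y1 - X1) - 1) ^ 3 + ((v + y1 - x2) * (V + Y1 - X2) - 1) ^ 3 + ((v + y1 - x3) * (V + Y1 - X3) - 1) ^ 3 := ⟨_, rfl⟩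
  obtain ⟨S2, hS2⟩ : ∃ a, a = ((v + y2 - x1) * (V + Y2 - X1) - 1) ^ 3 + ((v + y2 - x2) * (V + Y2 - X2) - 1) ^ 3 + ((v + y2 - x3) * (V + Y2 - X3) - 1) ^ 3 := ⟨_, rfl⟩
  obtain ⟨S3, hS3⟩ : ∃ a, a = ((v + y3 - x1) * (V + Y3 - X1) - 1) ^ 3 + ((v + y3 - x2) * (V + Y3 - X2) - 1) ^ 3 + ((v + y3 - x3) * (V + Y3 - X3) - 1) ^ 3 := ⟨_, rfl⟩
  rw [← hS1, ← hS2, ← hS3]
  rw [← hS1] at f1
  rw [← hS2] at f2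
  rw [← hS3] at f3
  obtain ⟨W1, hW1⟩ : ∃ a, a = V + Y1 := ⟨_, rfl⟩
  obtain ⟨W2, hW2⟩ : ∃ a, a = V + Y2 := ⟨_, rfl⟩
  obtain ⟨W3, hW3⟩ : ∃ a, a = V + Y3 := ⟨_, rfl⟩
  obtain ⟨w1, hw1⟩ : ∃ a, a = v + y1 := ⟨_, rfl⟩
  obtain ⟨w2, hw2⟩ : ∃ a, a = v + y2 := ⟨_, rfl⟩
  obtain ⟨w3, hw3⟩ : ∃ a, a = v + y3 := ⟨_, rfl⟩
  simp only [← hW1, ← hW2, ← hW3, ← hw1, ← hw2, ← hw3] at f1 f2 f3 m03 m12 m13 m21 m22 m23 m30 m31 m32 m33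
  linear_combination
    f1 + f2 + f3 + (3 * v * V * B - V ^ 3 - 3 * B) * m03 + (-3 * V) * m12 + (-6 * v * B + 3 *
      V ^ 2) * m13 + (-3 * v) * m21 + (18) * m22 + (-3 * V) * m23 + (-v ^ 3 + 3 * v * V * b -
      3 * b) * m30 + (3 * v ^ 2 - 6 * V * b) * m31 + (-3 * v) * m32 + (3) * m33 + (-(-9 * v ^
      2 * V ^ 2 + 66 * v * V - 9)) * hb + (-(-9 * v ^ 2 * V ^ 2 + 66 * v * V - 9)) * hc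

theorem R4 (tx : Tri x1 x2 x3 X1 X2 X3 v V b B) (ty : Tri y1 y2 y3 Y1 Y2 Y3 (-v) (-V) c C) :
    (v * V - 1) ^ 4 +
      ((((v + y1 - x1) * (V + Y1 - X1) - 1) ^ 4 + ((v + y1 - x2) * (V + Y1 - X2) - 1) ^ 4 + ((v + y1 - x3) * (V + Y1 - X3) - 1) ^ 4) +
      (((v + y2 - x1) * (V + Y2 - X1) - 1) ^ 4 + ((v + y2 - x2) * (V + Y2 - X2) - 1) ^ 4 + ((v + y2 - x3) * (V + Y2 - X3) - 1) ^ 4) +
      (((v + y3 - x1) * (V + Y3 - X1) - 1) ^ 4 + ((v + y3 - x2) * (V + Y3 - X2) - 1) ^ 4 + ((v + y3 - x3) * (V + Y3 - X3) - 1) ^ 4)) =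
    244 + 296 * ((V * (b - c) - v ^ 2) * (v * (B - C) - V ^ 2)) - 36 * ((b + c) * (B + C) * (v
      * V - 1) ^ 2) + 4 * ((V * (b - c) - v ^ 2) * (v * (B - C) - V ^ 2)) ^ 2 + 32 * (((V * (b
      - c) - v ^ 2) ^ 3 * (B * C) + (v * (B - C) - V ^ 2) ^ 3 * (b * c)) / 2) := by
  have f1 := tx.F4 (V + Y1) (v + y1)
  have f2 := tx.F4 (V + Y2) (v + y2)
  have f3 := tx.F4 (V + Y3) (v + y3)
  have m04 := M04 ty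
  have m13 := M13 ty
  have m14 := M14 ty
  have m22 := M22 ty
  have m23 := M23 ty
  have m24 := M24 ty
  have m31 := M31 ty
  have m32 := M32 ty
  have m33 := M33 ty
  have m34 := M34 ty
  have m40 := M40 ty
  have m41 := M41 ty
  have m42 := M42 ty
  have m43 := M43 ty
  have m44 := M44 ty
  have hb := tx.bB
  have hc := ty.bB
  obtain ⟨S1, hS1⟩ : ∃ a, a = ((v + y1 - x1) * (V + Y1 - X1) - 1) ^ 4 + ((v + y1 - x2) * (V + Y1 - X2) - 1) ^ 4 + ((v + y1 - x3) * (V + Y1 - X3) - 1) ^ 4 := ⟨_, rfl⟩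
  obtain ⟨S2, hS2⟩ : ∃ a, a = ((v + y2 - x1) * (V + Y2 - X1) - 1) ^ 4 + ((v + y2 - x2) * (V + Y2 - X2) - 1) ^ 4 + ((v + y2 - x3) * (V + Y2 - X3) - 1) ^ 4 := ⟨_, rfl⟩
  obtain ⟨S3, hS3⟩ : ∃ a, a = ((v + y3 - x1) * (V + Y3 - X1) - 1) ^ 4 + ((v + y3 - x2) * (V + Y3 - X2) - 1) ^ 4 + ((v + y3 - x3) * (V + Y3 - X3) - 1) ^ 4 := ⟨_, rfl⟩
  rw [← hS1, ← hS2, ← hS3]
  rw [← hS1] at f1
  rw [← hS2] at f2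
  rw [← hS3] at f3
  obtain ⟨W1, hW1⟩ : ∃ a, a = V + Y1 := ⟨_, rfl⟩
  obtain ⟨W2, hW2⟩ : ∃ a, a = V + Y2 := ⟨_, rfl⟩
  obtain ⟨W3, hW3⟩ : ∃ a, a = V + Y3 := ⟨_, rfl⟩
  obtain ⟨w1, hw1⟩ : ∃ a, a = v + y1 := ⟨_, rfl⟩
  obtain ⟨w2, hw2⟩ : ∃ a, a = v + y2 := ⟨_, rfl⟩
  obtain ⟨w3, hw3⟩ : ∃ a, a = v + y3 := ⟨_, rfl⟩
  simp only [← hW1, ← hW2, ← hW3, ← hw1, ← hw2, ← hw3] at f1 f2 f3 m04 m13 m14 m22 m23 m24 m31 m32 m33 m34 m40 m41 m42 m43 m44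
  linear_combination
    f1 + f2 + f3 + (2 * v ^ 2 * B ^ 2 - 4 * v * V ^ 2 * B + V ^ 4 + 4 * V * B) * m04 + (-8 * v
      * B + 4 * V ^ 2) * m13 + (12 * v * V * B - 4 * V ^ 3 - 12 * B) * m14 + (18) * m22 + (-12
      * V) * m23 + (-12 * v * B + 6 * V ^ 2) * m24 + (4 * v ^ 2 - 8 * V * b) * m31 + (-12 * v)
      * m32 + (36) * m33 + (-4 * V) * m34 + (v ^ 4 - 4 * v ^ 2 * V * b + 4 * v * b + 2 * V ^ 2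
      * b ^ 2) * m40 + (-4 * v ^ 3 + 12 * v * V * b - 12 * b) * m41 + (6 * v ^ 2 - 12 * V * b)
      * m42 + (-4 * v) * m43 + (3) * m44 + (-(-8 * v ^ 4 * V * B + 64 * v ^ 4 * V * C + 16 * v
      ^ 3 * V ^ 3 + 16 * v ^ 3 * B ^ 2 * c - 48 * v ^ 3 * B * c * C + 48 * v ^ 3 * c * C ^ 2 +
      4 * v ^ 2 * V ^ 2 * b * B - 56 * v ^ 2 * V ^ 2 * b * C - 56 * v ^ 2 * V ^ 2 * B * c +
      208 * v ^ 2 * V ^ 2 * c * C - 32 * v ^ 2 * V ^ 2 - 8 * v * V ^ 4 * b + 64 * v * V ^ 4 *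
      c + 368 * v * V + 16 * V ^ 3 * b ^ 2 * C - 48 * V ^ 3 * b * c * C + 48 * V ^ 3 * c ^ 2 *
      C - 36)) * hb + (-(-64 * v ^ 4 * V * B + 8 * v ^ 4 * V * C + 16 * v ^ 3 * V ^ 3 - 16 * v
      ^ 3 * b * C ^ 2 - 48 * v ^ 3 * B + 48 * v ^ 3 * C - 56 * v ^ 2 * V ^ 2 * b * C - 56 * v
      ^ 2 * V ^ 2 * B * c + 4 * v ^ 2 * V ^ 2 * c * C + 176 * v ^ 2 * V ^ 2 - 64 * v * V ^ 4 *
      b + 8 * v * V ^ 4 * c + 368 * v * V - 48 * V ^ 3 * b - 16 * V ^ 3 * B * c ^ 2 + 48 * V ^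
      3 * c - 36)) * hc

theorem R5 (tx : Tri x1 x2 x3 X1 X2 X3 v V b B) (ty : Tri y1 y2 y3 Y1 Y2 Y3 (-v) (-V) c C) :
    (v * V - 1) ^ 5 +
      ((((v + y1 - x1) * (V + Y1 - X1) - 1) ^ 5 + ((v + y1 - x2) * (V + Y1 - X2) - 1) ^ 5 + ((v + y1 - x3) * (V + Y1 - X3) - 1) ^ 5) +
      (((v + y2 - x1) * (V + Y2 - X1) - 1) ^ 5 + ((v + y2 - x2) * (V + Y2 - X2) - 1) ^ 5 + ((v + y2 - x3) * (V + Y2 - X3) - 1) ^ 5) +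
      (((v + y3 - x1) * (V + Y3 - X1) - 1) ^ 5 + ((v + y3 - x2) * (V + Y3 - X2) - 1) ^ 5 + ((v + y3 - x3) * (V + Y3 - X3) - 1) ^ 5)) =
    728 + 1520 * ((V * (b - c) - v ^ 2) * (v * (B - C) - V ^ 2)) - 135 * ((b + c) * (B + C) *
      (v * V - 1) ^ 2) + 120 * ((V * (b - c) - v ^ 2) * (v * (B - C) - V ^ 2)) ^ 2 + 320 *
      (((V * (b - c) - v ^ 2) ^ 3 * (B * C) + (v * (B - C) - V ^ 2) ^ 3 * (b * c)) / 2) - 25 *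
      (((V * (b - c) - v ^ 2) * (v * (B - C) - V ^ 2)) * ((b + c) * (B + C) * (v * V - 1) ^
      2)) := by
  have f1 := tx.F5 (V + Y1) (v + y1)
  have f2 := tx.F5 (V + Y2) (v + y2)
  have f3 := tx.F5 (V + Y3) (v + y3)
  have m05 := M05 ty
  have m14 := M14 ty
  have m15 := M15 ty
  have m23 := M23 ty
  have m24 := M24 ty
  have m25 := M25 ty
  have m32 := M32 ty
  have m33 := M33 ty
  have m34 := M34 ty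
  have m35 := M35 ty
  have m41 := M41 ty
  have m42 := M42 ty
  have m43 := M43 ty
  have m44 := M44 ty
  have m45 := M45 ty
  have m50 := M50 ty
  have m51 := M51 ty
  have m52 := M52 ty
  have m53 := M53 ty
  have m54 := M54 ty
  have m55 := M55 ty
  have hb := tx.bB
  have hc := ty.bB
  obtain ⟨S1, hS1⟩ : ∃ a, a = ((v + y1 - x1) * (V + Y1 - X1) - 1) ^ 5 + ((v + y1 - x2) * (V + Y1 - X2) - 1) ^ 5 + ((v + y1 - x3) * (V + Y1 - X3) - 1) ^ 5 := ⟨_, rfl⟩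
  obtain ⟨S2, hS2⟩ : ∃ a, a = ((v + y2 - x1) * (V + Y2 - X1) - 1) ^ 5 + ((v + y2 - x2) * (V + Y2 - X2) - 1) ^ 5 + ((v + y2 - x3) * (V + Y2 - X3) - 1) ^ 5 := ⟨_, rfl⟩
  obtain ⟨S3, hS3⟩ : ∃ a, a = ((v + y3 - x1) * (V + Y3 - X1) - 1) ^ 5 + ((v + y3 - x2) * (V + Y3 - X2) - 1) ^ 5 + ((v + y3 - x3) * (V + Y3 - X3) - 1) ^ 5 := ⟨_, rfl⟩
  rw [← hS1, ← hS2, ← hS3]
  rw [← hS1] at f1
  rw [← hS2] at f2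
  rw [← hS3] at f3
  obtain ⟨W1, hW1⟩ : ∃ a, a = V + Y1 := ⟨_, rfl⟩
  obtain ⟨W2, hW2⟩ : ∃ a, a = V + Y2 := ⟨_, rfl⟩
  obtain ⟨W3, hW3⟩ : ∃ a, a = V + Y3 := ⟨_, rfl⟩
  obtain ⟨w1, hw1⟩ : ∃ a, a = v + y1 := ⟨_, rfl⟩
  obtain ⟨w2, hw2⟩ : ∃ a, a = v + y2 := ⟨_, rfl⟩
  obtain ⟨w3, hw3⟩ : ∃ a, a = v + y3 := ⟨_, rfl⟩
  simp only [← hW1, ← hW2, ← hW3, ← hw1, ← hw2, ← hw3] at f1 f2 f3 m05 m14 m15 m23 m24 m25 m32 m33 m34 m35 m41 m42 m43 m44 m45 m50 m51 m52 m53 m54 m55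
  linear_combination
    f1 + f2 + f3 + (-5 * v ^ 2 * V * B ^ 2 + 5 * v * V ^ 3 * B + 5 * v * B ^ 2 - V ^ 5 - 5 * V
      ^ 2 * B) * m05 + (15 * v * V * B - 5 * V ^ 3 - 15 * B) * m14 + (10 * v ^ 2 * B ^ 2 - 20
      * v * V ^ 2 * B + 5 * V ^ 4 + 20 * V * B) * m15 + (-10 * V) * m23 + (-40 * v * B + 20 *
      V ^ 2) * m24 + (30 * v * V * B - 10 * V ^ 3 - 30 * B) * m25 + (-10 * v) * m32 + (90) *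
      m33 + (-30 * V) * m34 + (-20 * v * B + 10 * V ^ 2) * m35 + (-5 * v ^ 3 + 15 * v * V * b
      - 15 * b) * m41 + (20 * v ^ 2 - 40 * V * b) * m42 + (-30 * v) * m43 + (60) * m44 + (-5 *
      V) * m45 + (-v ^ 5 + 5 * v ^ 3 * V * b - 5 * v ^ 2 * b - 5 * v * V ^ 2 * b ^ 2 + 5 * V *
      b ^ 2) * m50 + (5 * v ^ 4 - 20 * v ^ 2 * V * b + 20 * v * b + 10 * V ^ 2 * b ^ 2) * m51
      + (-10 * v ^ 3 + 30 * v * V * b - 30 * b) * m52 + (10 * v ^ 2 - 20 * V * b) * m53 + (-5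
      * v) * m54 + (3) * m55 + (-(25 * v ^ 5 * V ^ 2 * B - 25 * v ^ 4 * V ^ 4 - 290 * v ^ 4 *
      V * B + 960 * v ^ 4 * V * C - 25 * v ^ 3 * V ^ 3 * b * B + 505 * v ^ 3 * V ^ 3 + 160 * v
      ^ 3 * B ^ 2 * c - 480 * v ^ 3 * B * c * C + 25 * v ^ 3 * B + 480 * v ^ 3 * c * C ^ 2 +
      25 * v ^ 2 * V ^ 5 * b + 170 * v ^ 2 * V ^ 2 * b * B - 720 * v ^ 2 * V ^ 2 * b * C - 720
      * v ^ 2 * V ^ 2 * B * c + 2400 * v ^ 2 * V ^ 2 * c * C + 10 * v ^ 2 * V ^ 2 - 290 * v *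
      V ^ 4 * b + 960 * v * V ^ 4 * c - 25 * v * V * b * B + 1765 * v * V + 160 * V ^ 3 * b ^
      2 * C - 480 * V ^ 3 * b * c * C + 25 * V ^ 3 * b + 480 * V ^ 3 * c ^ 2 * C - 135)) * hb
      + (-(-25 * v ^ 5 * V ^ 2 * C - 25 * v ^ 4 * V ^ 4 - 960 * v ^ 4 * V * B + 290 * v ^ 4 *
      V * C - 25 * v ^ 3 * V ^ 3 * c * C + 505 * v ^ 3 * V ^ 3 - 160 * v ^ 3 * b * C ^ 2 - 480
      * v ^ 3 * B + 455 * v ^ 3 * C - 25 * v ^ 2 * V ^ 5 * c - 720 * v ^ 2 * V ^ 2 * b * C -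
      720 * v ^ 2 * V ^ 2 * B * c + 170 * v ^ 2 * V ^ 2 * c * C + 2410 * v ^ 2 * V ^ 2 - 960 *
      v * V ^ 4 * b + 290 * v * V ^ 4 * c - 25 * v * V * c * C + 1765 * v * V - 480 * V ^ 3 *
      b - 160 * V ^ 3 * B * c ^ 2 + 455 * V ^ 3 * c - 135)) * hc

end Pool.Agent.Lib.MP_230119_an.LW
end
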